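import Pool.Agent.Strip051.FourF.Pair

/-! # The new point between e and s, part 1 -/

namespace Pool.Agent.Strip051.FourF

set_option linter.unusedVariables false

open Pool.Agent.StripNear Pool.Agent.StripSquare Pool.Agent.Strip051
open Pool.Agent.Strip051.Four.Low (ph)
open Pool.Agent.Strip051.FourB (lo up)

/-- The function of the boxes `ba`. -/
noncomputable def fa_h1_hH_hh_Tv (s u b k : ℝ) : ℝ :=
  4 * ph s + 3 * ph (s + b / 2 - u - k) + ph (h0 + s - u - b / 2 - k - 1) + ph (h0 + u + b / 2 + k - 1) + ph (s - u - b / 2 - k) + ph (-u - b / 2 - k) - 8 * ph (s - u) - 3 * ph b - 3 * ph (h0 - 1) - ph (h0 + s - 1) - ph (h0 + u) - ph (h0 - b / 2 - k) + 1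

/-- The function of the boxes `ba`. -/
noncomputable def fa_h1_hH_hh_HH (s u b k : ℝ) : ℝ :=
  4 * ph s + 3 * ph (s + b / 2 - u - k) + ph (h0 + s - u - b / 2 - k - 1) + 2 * ph (h0 + u + b / 2 + k - 1) + ph (s - u - b / 2 - k) + ph (h0 + u + k - b / 2 - 1) - 8 * ph (s - u) - 4 * ph b - 3 * ph (h0 - 1) - ph (h0 + s - 1)

/-- The function of the boxes `ba`. -/
noncomputable def fa_h1_hH_hh_o (s u b k : ℝ) : ℝ :=
  4 * ph s + 3 * ph (s + b / 2 - u - k) + ph (h0 + s - u - b / 2 - k - 1) + ph (h0 + u + b / 2 + k - 1) + ph (s - u - b / 2 - k) - 8 * ph (s - u) - 3 * ph b - 3 * ph (h0 - 1) - ph (h0 + s - 1)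

/-- The function of the boxes `ba`. -/
noncomputable def fa_hs_v2_hh_vy (s u b k : ℝ) : ℝ :=
  4 * ph s + 2 * ph (s + b / 2 - u - k) + ph (h0 - u - b / 2 - k) + ph (h0 + s - 1) + 2 * ph (b / 2 - u - k) + ph (h0 + u + b / 2 + k - s - 1) + ph (s - u - b / 2 - k) + ph (h0 - b / 2 - k) - 8 * ph (s - u) - 4 * ph b - 3 * ph (h0 - 1) - ph (h0 - s - 1) - ph (h0 + u) - 1 / 2

/-- The function of the boxes `ba`. -/
noncomputable def fa_hs_h2_hh_Hy (s u b k : ℝ) : ℝ :=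
  4 * ph s + 3 * ph (s + b / 2 - u - k) + ph (h0 - u - b / 2 - k) + ph (h0 + u + b / 2 + k - s - 1) + ph (s - u - b / 2 - k) + ph (h0 + u + k - b / 2 - 1) + ph (h0 - b / 2 - k) - 8 * ph (s - u) - 4 * ph b - ph (h0 - s - 1) - ph (h0 - 1) - ph (h0 + u) - 1 / 2

/-- The function of the boxes `ba`. -/
noncomputable def fa_h1_hH_hh_Hy (s u b k : ℝ) : ℝ :=
  4 * ph s + 3 * ph (s + b / 2 - u - k) + ph (h0 + s - u - b / 2 - k - 1) + ph (h0 + u + b / 2 + k - 1) + ph (s - u - b / 2 - k) + ph (h0 + u + k - b / 2 - 1) + ph (h0 - b / 2 - k) - 8 * ph (s - u) - 4 * ph b - 2 * ph (h0 - 1) - ph (h0 + s - 1) - ph (h0 + u)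

/-- The region of the boxes `ba`. -/
structure RegA (s u b k : ℝ) : Prop where
  k1 : 86602 / 100000 * ph b ≤ k
  k2 : k ≤ 86603 / 100000 * ph b
  h1 : 86602 / 100000 ≤ h0
  h2 : h0 ≤ 86603 / 100000
  k3 : 0 ≤ k
  k4 : k ≤ 1161 / 10000
  r4 : h0 - b / 2 - k ≤ 1
  r5 : h0 + b / 2 - k ≤ 1
  u3 : 2 * h0 + u ≤ 9 / 5
  s1 : 3 / 5 ≤ s
  s2 : s ≤ 67 / 100
  u1 : 0 ≤ u
  u2 : u ≤ 1699 / 25000
  b1 : -1 / 2 ≤ b
  b2 : b ≤ 1 / 2

theorem RegA.lo1 {s u b k : ℝ} (R : RegA s u b k) (w0 : ℝ) (hw0 : w0 ^ 2 < 1) :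
    2 * w0 * (-u - b / 2 - k) - 2 * w0 ^ 2 ≤ (1 - w0 ^ 2) * ph (-u - b / 2 - k) :=
  lo hw0 (by linarith only [R.h1, R.k4, R.u3, R.b2]) (by linarith only [R.h1, R.r4, R.u1])

theorem RegA.lo2 {s u b k : ℝ} (R : RegA s u b k) (w0 : ℝ) (hw0 : w0 ^ 2 < 1) :
    2 * w0 * (b / 2 - u - k) - 2 * w0 ^ 2 ≤ (1 - w0 ^ 2) * ph (b / 2 - u - k) :=
  lo hw0 (by linarith only [R.h1, R.k4, R.u3, R.b1]) (by linarith only [R.h1, R.r5, R.u1])

theorem RegA.lo3 {s u b k : ℝ} (R : RegA s u b k) (w0 : ℝ) (hw0 : w0 ^ 2 < 1) :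
    2 * w0 * (b) - 2 * w0 ^ 2 ≤ (1 - w0 ^ 2) * ph (b) :=
  lo hw0 (by linarith only [R.b1]) (by linarith only [R.b2])

theorem RegA.lo4 {s u b k : ℝ} (R : RegA s u b k) (w0 : ℝ) (hw0 : w0 ^ 2 < 1) :
    2 * w0 * (h0 + b / 2 - k) - 2 * w0 ^ 2 ≤ (1 - w0 ^ 2) * ph (h0 + b / 2 - k) :=
  lo hw0 (by linarith only [R.h1, R.k4, R.b1]) (by linarith only [R.r5])

theorem RegA.dm5 {s u b k : ℝ} (R : RegA s u b k) : -1 < h0 + s - 1 ∧ h0 + s - 1 ≤ 1 :=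
  ⟨by linarith only [R.h1, R.s1], by linarith only [R.h2, R.s2]⟩

theorem RegA.lo5 {s u b k : ℝ} (R : RegA s u b k) (w0 : ℝ) (hw0 : w0 ^ 2 < 1) :
    2 * w0 * (h0 + s - 1) - 2 * w0 ^ 2 ≤ (1 - w0 ^ 2) * ph (h0 + s - 1) :=
  lo hw0 (by linarith only [R.h1, R.s1]) (by linarith only [R.h2, R.s2])

theorem RegA.dm6 {s u b k : ℝ} (R : RegA s u b k) : -1 < h0 + s - u - 1 ∧ h0 + s - u - 1 ≤ 1 :=
  ⟨by linarith only [R.h1, R.u3, R.s1], by linarith only [R.h2, R.s2, R.u1]⟩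

theorem RegA.lo6 {s u b k : ℝ} (R : RegA s u b k) (w0 : ℝ) (hw0 : w0 ^ 2 < 1) :
    2 * w0 * (h0 + s - u - 1) - 2 * w0 ^ 2 ≤ (1 - w0 ^ 2) * ph (h0 + s - u - 1) :=
  lo hw0 (by linarith only [R.h1, R.u3, R.s1]) (by linarith only [R.h2, R.s2, R.u1])

theorem RegA.dm7 {s u b k : ℝ} (R : RegA s u b k) : -1 < h0 + s - u - b / 2 - k - 1 ∧ h0 + s - u - b / 2 - k - 1 ≤ 1 :=
  ⟨by linarith only [R.h1, R.k4, R.u3, R.s1, R.b2], by linarith only [R.r4, R.s2, R.u1]⟩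

theorem RegA.lo7 {s u b k : ℝ} (R : RegA s u b k) (w0 : ℝ) (hw0 : w0 ^ 2 < 1) :
    2 * w0 * (h0 + s - u - b / 2 - k - 1) - 2 * w0 ^ 2 ≤ (1 - w0 ^ 2) * ph (h0 + s - u - b / 2 - k - 1) :=
  lo hw0 (by linarith only [R.h1, R.k4, R.u3, R.s1, R.b2]) (by linarith only [R.r4, R.s2, R.u1])

theorem RegA.dm8 {s u b k : ℝ} (R : RegA s u b k) : -1 < h0 + u + b / 2 + k - 1 ∧ h0 + u + b / 2 + k - 1 ≤ 1 :=
  ⟨by linarith only [R.h1, R.r4, R.u1], by linarith only [R.k4, R.u3, R.u2, R.b2]⟩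

theorem RegA.lo8 {s u b k : ℝ} (R : RegA s u b k) (w0 : ℝ) (hw0 : w0 ^ 2 < 1) :
    2 * w0 * (h0 + u + b / 2 + k - 1) - 2 * w0 ^ 2 ≤ (1 - w0 ^ 2) * ph (h0 + u + b / 2 + k - 1) :=
  lo hw0 (by linarith only [R.h1, R.r4, R.u1]) (by linarith only [R.k4, R.u3, R.u2, R.b2])

theorem RegA.lo9 {s u b k : ℝ} (R : RegA s u b k) (w0 : ℝ) (hw0 : w0 ^ 2 < 1) :
    2 * w0 * (h0 + u + b / 2 + k - s - 1) - 2 * w0 ^ 2 ≤ (1 - w0 ^ 2) * ph (h0 + u + b / 2 + k - s - 1) :=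
  lo hw0 (by linarith only [R.h1, R.r4, R.s2, R.u1]) (by linarith only [R.k4, R.u3, R.s1, R.u2, R.b2])

theorem RegA.dm10 {s u b k : ℝ} (R : RegA s u b k) : -1 < h0 + u + k - b / 2 - 1 ∧ h0 + u + k - b / 2 - 1 ≤ 1 :=
  ⟨by linarith only [R.h1, R.r5, R.u1], by linarith only [R.k4, R.u3, R.u2, R.b1]⟩

theorem RegA.lo10 {s u b k : ℝ} (R : RegA s u b k) (w0 : ℝ) (hw0 : w0 ^ 2 < 1) :
    2 * w0 * (h0 + u + k - b / 2 - 1) - 2 * w0 ^ 2 ≤ (1 - w0 ^ 2) * ph (h0 + u + k - b / 2 - 1) :=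
  lo hw0 (by linarith only [R.h1, R.r5, R.u1]) (by linarith only [R.k4, R.u3, R.u2, R.b1])

theorem RegA.dm11 {s u b k : ℝ} (R : RegA s u b k) : -1 < h0 + u - 1 ∧ h0 + u - 1 ≤ 1 :=
  ⟨by linarith only [R.h1, R.u1], by linarith only [R.u3, R.u2]⟩

theorem RegA.lo11 {s u b k : ℝ} (R : RegA s u b k) (w0 : ℝ) (hw0 : w0 ^ 2 < 1) :
    2 * w0 * (h0 + u - 1) - 2 * w0 ^ 2 ≤ (1 - w0 ^ 2) * ph (h0 + u - 1) :=
  lo hw0 (by linarith only [R.h1, R.u1]) (by linarith only [R.u3, R.u2])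

theorem RegA.dm12 {s u b k : ℝ} (R : RegA s u b k) : -1 < h0 + u ∧ h0 + u ≤ 1 :=
  ⟨by linarith only [R.h1, R.u1], by linarith only [R.u3, R.u2]⟩

theorem RegA.lo12 {s u b k : ℝ} (R : RegA s u b k) (w0 : ℝ) (hw0 : w0 ^ 2 < 1) :
    2 * w0 * (h0 + u) - 2 * w0 ^ 2 ≤ (1 - w0 ^ 2) * ph (h0 + u) :=
  lo hw0 (by linarith only [R.h1, R.u1]) (by linarith only [R.u3, R.u2])

theorem RegA.dm13 {s u b k : ℝ} (R : RegA s u b k) : -1 < h0 - 1 ∧ h0 - 1 ≤ 1 :=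
  ⟨by linarith only [R.h1], by linarith only [R.h2]⟩

theorem RegA.lo13 {s u b k : ℝ} (R : RegA s u b k) (w0 : ℝ) (hw0 : w0 ^ 2 < 1) :
    2 * w0 * (h0 - 1) - 2 * w0 ^ 2 ≤ (1 - w0 ^ 2) * ph (h0 - 1) :=
  lo hw0 (by linarith only [R.h1]) (by linarith only [R.h2])

theorem RegA.dm14 {s u b k : ℝ} (R : RegA s u b k) : -1 < h0 - b / 2 - k ∧ h0 - b / 2 - k ≤ 1 :=
  ⟨by linarith only [R.h1, R.k4, R.b2], by linarith only [R.r4]⟩

theorem RegA.lo14 {s u b k : ℝ} (R : RegA s u b k) (w0 : ℝ) (hw0 : w0 ^ 2 < 1) :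
    2 * w0 * (h0 - b / 2 - k) - 2 * w0 ^ 2 ≤ (1 - w0 ^ 2) * ph (h0 - b / 2 - k) :=
  lo hw0 (by linarith only [R.h1, R.k4, R.b2]) (by linarith only [R.r4])

theorem RegA.lo15 {s u b k : ℝ} (R : RegA s u b k) (w0 : ℝ) (hw0 : w0 ^ 2 < 1) :
    2 * w0 * (h0 - s - 1) - 2 * w0 ^ 2 ≤ (1 - w0 ^ 2) * ph (h0 - s - 1) :=
  lo hw0 (by linarith only [R.h1, R.s2]) (by linarith only [R.h2, R.s1])

theorem RegA.lo16 {s u b k : ℝ} (R : RegA s u b k) (w0 : ℝ) (hw0 : w0 ^ 2 < 1) :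
    2 * w0 * (h0 - u - b / 2 - k) - 2 * w0 ^ 2 ≤ (1 - w0 ^ 2) * ph (h0 - u - b / 2 - k) :=
  lo hw0 (by linarith only [R.h1, R.k4, R.u3, R.b2]) (by linarith only [R.r4, R.u1])

theorem RegA.dm17 {s u b k : ℝ} (R : RegA s u b k) : -1 < h0 ∧ h0 ≤ 1 :=
  ⟨by linarith only [R.h1], by linarith only [R.h2]⟩

theorem RegA.lo17 {s u b k : ℝ} (R : RegA s u b k) (w0 : ℝ) (hw0 : w0 ^ 2 < 1) :
    2 * w0 * (h0) - 2 * w0 ^ 2 ≤ (1 - w0 ^ 2) * ph (h0) :=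
  lo hw0 (by linarith only [R.h1]) (by linarith only [R.h2])

theorem RegA.dm18 {s u b k : ℝ} (R : RegA s u b k) : -1 < s + b / 2 - u - k ∧ s + b / 2 - u - k ≤ 1 :=
  ⟨by linarith only [R.h1, R.k4, R.u3, R.s1, R.b1], by linarith only [R.h1, R.r5, R.s2, R.u1]⟩

theorem RegA.lo18 {s u b k : ℝ} (R : RegA s u b k) (w0 : ℝ) (hw0 : w0 ^ 2 < 1) :
    2 * w0 * (s + b / 2 - u - k) - 2 * w0 ^ 2 ≤ (1 - w0 ^ 2) * ph (s + b / 2 - u - k) :=
  lo hw0 (by linarith only [R.h1, R.k4, R.u3, R.s1, R.b1]) (by linarith only [R.h1, R.r5, R.s2, R.u1])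

theorem RegA.dm19 {s u b k : ℝ} (R : RegA s u b k) : -1 < s - u - b / 2 - k ∧ s - u - b / 2 - k ≤ 1 :=
  ⟨by linarith only [R.h1, R.k4, R.u3, R.s1, R.b2], by linarith only [R.h1, R.r4, R.s2, R.u1]⟩

theorem RegA.lo19 {s u b k : ℝ} (R : RegA s u b k) (w0 : ℝ) (hw0 : w0 ^ 2 < 1) :
    2 * w0 * (s - u - b / 2 - k) - 2 * w0 ^ 2 ≤ (1 - w0 ^ 2) * ph (s - u - b / 2 - k) :=
  lo hw0 (by linarith only [R.h1, R.k4, R.u3, R.s1, R.b2]) (by linarith only [R.h1, R.r4, R.s2, R.u1])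

theorem RegA.dm20 {s u b k : ℝ} (R : RegA s u b k) : -1 < s - u ∧ s - u ≤ 1 :=
  ⟨by linarith only [R.h1, R.u3, R.s1], by linarith only [R.s2, R.u1]⟩

theorem RegA.lo20 {s u b k : ℝ} (R : RegA s u b k) (w0 : ℝ) (hw0 : w0 ^ 2 < 1) :
    2 * w0 * (s - u) - 2 * w0 ^ 2 ≤ (1 - w0 ^ 2) * ph (s - u) :=
  lo hw0 (by linarith only [R.h1, R.u3, R.s1]) (by linarith only [R.s2, R.u1])

theorem RegA.dm21 {s u b k : ℝ} (R : RegA s u b k) : -1 < s ∧ s ≤ 1 :=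
  ⟨by linarith only [R.s1], by linarith only [R.s2]⟩

theorem RegA.lo21 {s u b k : ℝ} (R : RegA s u b k) (w0 : ℝ) (hw0 : w0 ^ 2 < 1) :
    2 * w0 * (s) - 2 * w0 ^ 2 ≤ (1 - w0 ^ 2) * ph (s) :=
  lo hw0 (by linarith only [R.s1]) (by linarith only [R.s2])

theorem ba2 {s u b k : ℝ} (R : RegA s u b k)
    (s1 : 3 / 5 ≤ s) (s2 : s ≤ 67 / 100) (u1 : 0 ≤ u) (u2 : u ≤ 1699 / 25000)
    (b1 : -1 / 2 ≤ b) (b2 : b ≤ -1 / 4) :
    0 ≤ fa_h1_hH_hh_Tv s u b k ∨ (h0 + u + b / 2 + k ≤ 1 ∧ 0 ≤ fa_h1_hH_hh_HH s u b k) ∨ 0 ≤ fa_h1_hH_hh_o s u b k ∨ (u + b / 2 + k ≤ 0 ∧ 0 ≤ fa_hs_v2_hh_vy s u b k) ∨ (h0 + u + b / 2 + k ≤ 1 ∧ 0 ≤ fa_hs_h2_hh_Hy s u b k) ∨ (h0 + u + b / 2 + k ≤ 1 ∧ 0 ≤ fa_h1_hH_hh_Hy s u b k) := by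
  have e1 := up (t1 := (-268 / 1000)) (t2 := (-127 / 1000)) (x := b) (by norm_num)
    (by linarith only [b1]) (by linarith only [b2])
  have e2 := R.lo5 (269 / 1000) (by norm_num)
  have e3 := up (t1 := (-68 / 1000)) (t2 := (-67 / 1000)) (x := h0 - 1) (by norm_num)
    (by linarith only [R.h1]) (by linarith only [R.h2])
  have e4 := up (t1 := (-505 / 1000)) (t2 := (-437 / 1000)) (x := h0 - s - 1) (by norm_num)
    (by linarith only [R.h1, s2]) (by linarith only [R.h2, s1])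
  have e5 := up (t1 := (577 / 1000)) (t2 := (578 / 1000)) (x := h0) (by norm_num)
    (by linarith only [R.h1]) (by linarith only [R.h2])
  have e6 := up (t1 := (288 / 1000)) (t2 := (385 / 1000)) (x := s - u) (by norm_num)
    (by linarith only [R.h1, R.u3, s1]) (by linarith only [s2, u1])
  have e7 := R.lo21 (358 / 1000) (by norm_num)
  have e8 := R.lo21 (385 / 1000) (by norm_num)
  have e9 := R.lo2 (-228 / 1000) (by norm_num)
  have e10 := R.lo9 (-558 / 1000) (by norm_num)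
  have e11 := R.lo14 (823 / 1000) (by norm_num)
  have e12 := R.lo16 (717 / 1000) (by norm_num)
  have e13 := R.lo16 (620 / 1000) (by norm_num)
  have e14 := R.lo18 (176 / 1000) (by norm_num)
  have e15 := R.lo19 (422 / 1000) (by norm_num)
  have e16 := up (t1 := (577 / 1000)) (t2 := (689 / 1000)) (x := h0 + u) (by norm_num)
    (by linarith only [R.h1, u1]) (by linarith only [R.u3, u2])
  have e17 := pairUp (m := 21001 / 10000) R.dm12 R.dm17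
    (by linarith only [u1]) (by linarith only [R.u3, u2, e16, e5])
  right
  right
  right
  left
  refine ⟨by linarith only [R.k2, u2, b2, e1], ?_⟩
  unfold fa_hs_v2_hh_vy
  linarith only [R.k2, R.h1, u2, e1, e2, e3, e4, e5, e6, e7, e8, e9, e10, e11, e12, e13, e14, e15, e17]

theorem ba5 {s u b k : ℝ} (R : RegA s u b k)
    (s1 : 3 / 5 ≤ s) (s2 : s ≤ 67 / 100) (u1 : 0 ≤ u) (u2 : u ≤ 17 / 500)
    (b1 : -1 / 4 ≤ b) (b2 : b ≤ -1 / 8) :
    0 ≤ fa_h1_hH_hh_Tv s u b k ∨ (h0 + u + b / 2 + k ≤ 1 ∧ 0 ≤ fa_h1_hH_hh_HH s u b k) ∨ 0 ≤ fa_h1_hH_hh_o s u b k ∨ (u + b / 2 + k ≤ 0 ∧ 0 ≤ fa_hs_v2_hh_vy s u b k) ∨ (h0 + u + b / 2 + k ≤ 1 ∧ 0 ≤ fa_hs_h2_hh_Hy s u b k) ∨ (h0 + u + b / 2 + k ≤ 1 ∧ 0 ≤ fa_h1_hH_hh_Hy s u b k) := by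
  have e1 := up (t1 := (-128 / 1000)) (t2 := (-62 / 1000)) (x := b) (by norm_num)
    (by linarith only [b1]) (by linarith only [b2])
  have e2 := R.lo5 (269 / 1000) (by norm_num)
  have e3 := up (t1 := (-68 / 1000)) (t2 := (-67 / 1000)) (x := h0 - 1) (by norm_num)
    (by linarith only [R.h1]) (by linarith only [R.h2])
  have e4 := up (t1 := (-505 / 1000)) (t2 := (-437 / 1000)) (x := h0 - s - 1) (by norm_num)
    (by linarith only [R.h1, s2]) (by linarith only [R.h2, s1])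
  have e5 := up (t1 := (577 / 1000)) (t2 := (578 / 1000)) (x := h0) (by norm_num)
    (by linarith only [R.h1]) (by linarith only [R.h2])
  have e6 := up (t1 := (310 / 1000)) (t2 := (385 / 1000)) (x := s - u) (by norm_num)
    (by linarith only [s1, u2]) (by linarith only [s2, u1])
  have e7 := R.lo21 (358 / 1000) (by norm_num)
  have e8 := R.lo21 (385 / 1000) (by norm_num)
  have e9 := R.lo2 (-64 / 1000) (by norm_num)
  have e10 := R.lo9 (-531 / 1000) (by norm_num)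
  have e11 := R.lo14 (664 / 1000) (by norm_num)
  have e12 := R.lo16 (608 / 1000) (by norm_num)
  have e13 := R.lo18 (272 / 1000) (by norm_num)
  have e14 := R.lo19 (404 / 1000) (by norm_num)
  have e15 := up (t1 := (577 / 1000)) (t2 := (627 / 1000)) (x := h0 + u) (by norm_num)
    (by linarith only [R.h1, u1]) (by linarith only [R.h2, u2])
  have e16 := pairUp (m := 18873 / 10000) R.dm12 R.dm17
    (by linarith only [u1]) (by linarith only [R.h2, u2, e15, e5])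
  right
  right
  right
  left
  refine ⟨by linarith only [R.k2, u2, b2, e1], ?_⟩
  unfold fa_hs_v2_hh_vy
  linarith only [R.k2, R.h1, u2, b2, e1, e2, e3, e4, e5, e6, e7, e8, e9, e10, e11, e12, e13, e14, e16]

theorem ba7 {s u b k : ℝ} (R : RegA s u b k)
    (s1 : 3 / 5 ≤ s) (s2 : s ≤ 67 / 100) (u1 : 17 / 500 ≤ u) (u2 : u ≤ 1699 / 25000)
    (b1 : -1 / 4 ≤ b) (b2 : b ≤ -47 / 250) :
    0 ≤ fa_h1_hH_hh_Tv s u b k ∨ (h0 + u + b / 2 + k ≤ 1 ∧ 0 ≤ fa_h1_hH_hh_HH s u b k) ∨ 0 ≤ fa_h1_hH_hh_o s u b k ∨ (u + b / 2 + k ≤ 0 ∧ 0 ≤ fa_hs_v2_hh_vy s u b k) ∨ (h0 + u + b / 2 + k ≤ 1 ∧ 0 ≤ fa_hs_h2_hh_Hy s u b k) ∨ (h0 + u + b / 2 + k ≤ 1 ∧ 0 ≤ fa_h1_hH_hh_Hy s u b k) := by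
  have e1 := up (t1 := (-128 / 1000)) (t2 := (-94 / 1000)) (x := b) (by norm_num)
    (by linarith only [b1]) (by linarith only [b2])
  have e2 := R.lo5 (269 / 1000) (by norm_num)
  have e3 := up (t1 := (-68 / 1000)) (t2 := (-67 / 1000)) (x := h0 - 1) (by norm_num)
    (by linarith only [R.h1]) (by linarith only [R.h2])
  have e4 := up (t1 := (-505 / 1000)) (t2 := (-437 / 1000)) (x := h0 - s - 1) (by norm_num)
    (by linarith only [R.h1, s2]) (by linarith only [R.h2, s1])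
  have e5 := up (t1 := (577 / 1000)) (t2 := (578 / 1000)) (x := h0) (by norm_num)
    (by linarith only [R.h1]) (by linarith only [R.h2])
  have e6 := up (t1 := (288 / 1000)) (t2 := (359 / 1000)) (x := s - u) (by norm_num)
    (by linarith only [R.h1, R.u3, s1]) (by linarith only [s2, u1])
  have e7 := R.lo21 (358 / 1000) (by norm_num)
  have e8 := R.lo2 (-92 / 1000) (by norm_num)
  have e9 := R.lo9 (-506 / 1000) (by norm_num)
  have e10 := R.lo9 (-446 / 1000) (by norm_num)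
  have e11 := R.lo14 (711 / 1000) (by norm_num)
  have e12 := R.lo16 (592 / 1000) (by norm_num)
  have e13 := R.lo18 (240 / 1000) (by norm_num)
  have e14 := R.lo19 (386 / 1000) (by norm_num)
  have e15 := up (t1 := (626 / 1000)) (t2 := (689 / 1000)) (x := h0 + u) (by norm_num)
    (by linarith only [R.h1, u1]) (by linarith only [R.u3, u2])
  have e16 := pairUp (m := 20999 / 10000) R.dm12 R.dm17
    (by linarith only [u1]) (by linarith only [R.u3, u2, e15, e5])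
  right
  right
  right
  left
  refine ⟨by linarith only [R.k2, u2, b2, e1], ?_⟩
  unfold fa_hs_v2_hh_vy
  linarith only [R.k2, R.h1, u2, b2, e1, e2, e3, e4, e5, e6, e7, e8, e9, e10, e11, e12, e13, e14, e16]

theorem ba9 {s u b k : ℝ} (R : RegA s u b k)
    (s1 : 3 / 5 ≤ s) (s2 : s ≤ 127 / 200) (u1 : 17 / 500 ≤ u) (u2 : u ≤ 1699 / 25000)
    (b1 : -47 / 250 ≤ b) (b2 : b ≤ -1 / 8) :
    0 ≤ fa_h1_hH_hh_Tv s u b k ∨ (h0 + u + b / 2 + k ≤ 1 ∧ 0 ≤ fa_h1_hH_hh_HH s u b k) ∨ 0 ≤ fa_h1_hH_hh_o s u b k ∨ (u + b / 2 + k ≤ 0 ∧ 0 ≤ fa_hs_v2_hh_vy s u b k) ∨ (h0 + u + b / 2 + k ≤ 1 ∧ 0 ≤ fa_hs_h2_hh_Hy s u b k) ∨ (h0 + u + b / 2 + k ≤ 1 ∧ 0 ≤ fa_h1_hH_hh_Hy s u b k) := by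
  have e1 := up (t1 := (-95 / 1000)) (t2 := (-62 / 1000)) (x := b) (by norm_num)
    (by linarith only [b1]) (by linarith only [b2])
  have e2 := up (t1 := (247 / 1000)) (t2 := (269 / 1000)) (x := h0 + s - 1) (by norm_num)
    (by linarith only [R.h1, s1]) (by linarith only [R.h2, s2])
  have e3 := up (t1 := (626 / 1000)) (t2 := (689 / 1000)) (x := h0 + u) (by norm_num)
    (by linarith only [R.h1, u1]) (by linarith only [R.u3, u2])
  have e4 := up (t1 := (-68 / 1000)) (t2 := (-67 / 1000)) (x := h0 - 1) (by norm_num)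
    (by linarith only [R.h1]) (by linarith only [R.h2])
  have e5 := up (t1 := (288 / 1000)) (t2 := (335 / 1000)) (x := s - u) (by norm_num)
    (by linarith only [R.h1, R.u3, s1]) (by linarith only [s2, u1])
  have e6 := R.lo21 (346 / 1000) (by norm_num)
  have e7 := R.lo21 (333 / 1000) (by norm_num)
  have e8 := R.lo7 (268 / 1000) (by norm_num)
  have e9 := R.lo8 (-90 / 1000) (by norm_num)
  have e10 := R.lo10 (3 / 1000) (by norm_num)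
  have e11 := R.lo14 (711 / 1000) (by norm_num)
  have e12 := R.lo18 (254 / 1000) (by norm_num)
  have e13 := R.lo19 (357 / 1000) (by norm_num)
  right
  right
  right
  right
  right
  refine ⟨by linarith only [R.k2, R.u3, u2, b2, e1], ?_⟩
  unfold fa_h1_hH_hh_Hy
  linarith only [R.k2, R.h1, u1, b1, e1, e2, e3, e4, e5, e6, e7, e8, e9, e10, e11, e12, e13]

theorem ba10 {s u b k : ℝ} (R : RegA s u b k)
    (s1 : 127 / 200 ≤ s) (s2 : s ≤ 67 / 100) (u1 : 17 / 500 ≤ u) (u2 : u ≤ 1699 / 25000)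
    (b1 : -47 / 250 ≤ b) (b2 : b ≤ -1 / 8) :
    0 ≤ fa_h1_hH_hh_Tv s u b k ∨ (h0 + u + b / 2 + k ≤ 1 ∧ 0 ≤ fa_h1_hH_hh_HH s u b k) ∨ 0 ≤ fa_h1_hH_hh_o s u b k ∨ (u + b / 2 + k ≤ 0 ∧ 0 ≤ fa_hs_v2_hh_vy s u b k) ∨ (h0 + u + b / 2 + k ≤ 1 ∧ 0 ≤ fa_hs_h2_hh_Hy s u b k) ∨ (h0 + u + b / 2 + k ≤ 1 ∧ 0 ≤ fa_h1_hH_hh_Hy s u b k) := by
  have e1 := up (t1 := (-95 / 1000)) (t2 := (-62 / 1000)) (x := b) (by norm_num)
    (by linarith only [b1]) (by linarith only [b2])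
  have e2 := up (t1 := (-68 / 1000)) (t2 := (-67 / 1000)) (x := h0 - 1) (by norm_num)
    (by linarith only [R.h1]) (by linarith only [R.h2])
  have e3 := up (t1 := (-505 / 1000)) (t2 := (-469 / 1000)) (x := h0 - s - 1) (by norm_num)
    (by linarith only [R.h1, s2]) (by linarith only [R.h2, s1])
  have e4 := up (t1 := (310 / 1000)) (t2 := (359 / 1000)) (x := s - u) (by norm_num)
    (by linarith only [R.h1, R.u3, s1]) (by linarith only [s2, u1])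
  have e5 := R.lo21 (371 / 1000) (by norm_num)
  have e6 := R.lo9 (-503 / 1000) (by norm_num)
  have e7 := R.lo9 (-458 / 1000) (by norm_num)
  have e8 := R.lo10 (3 / 1000) (by norm_num)
  have e9 := R.lo16 (561 / 1000) (by norm_num)
  have e10 := R.lo18 (276 / 1000) (by norm_num)
  have e11 := R.lo19 (383 / 1000) (by norm_num)
  have e12 := up (t1 := (626 / 1000)) (t2 := (689 / 1000)) (x := h0 + u) (by norm_num)
    (by linarith only [R.h1, u1]) (by linarith only [R.u3, u2])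
  have e13 := up (t1 := (577 / 1000)) (t2 := (578 / 1000)) (x := h0) (by norm_num)
    (by linarith only [R.h1]) (by linarith only [R.h2])
  have e14 := pairUp (m := 20999 / 10000) R.dm12 R.dm17
    (by linarith only [u1]) (by linarith only [R.u3, u2, e12, e13])
  have e15 := R.lo17 (577 / 1000) (by norm_num)
  have e16 := R.lo14 (664 / 1000) (by norm_num)
  have e17 := pairLo (m := 20133 / 10000) R.dm14 R.dm17
    (by linarith only [R.k2, b2, e1]) (by linarith only [R.k2, R.h1, b2, e1, e15, e16])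
  right
  right
  right
  right
  left
  refine ⟨by linarith only [R.k2, R.u3, u2, b2, e1], ?_⟩
  unfold fa_hs_h2_hh_Hy
  linarith only [R.k2, R.h1, u2, b2, e1, e2, e3, e4, e5, e6, e7, e8, e9, e10, e11, e14, e17]

theorem ba14 {s u b k : ℝ} (R : RegA s u b k)
    (s1 : 3 / 5 ≤ s) (s2 : s ≤ 127 / 200) (u1 : 0 ≤ u) (u2 : u ≤ 17 / 500)
    (b1 : -1 / 8 ≤ b) (b2 : b ≤ -63 / 1000) :
    0 ≤ fa_h1_hH_hh_Tv s u b k ∨ (h0 + u + b / 2 + k ≤ 1 ∧ 0 ≤ fa_h1_hH_hh_HH s u b k) ∨ 0 ≤ fa_h1_hH_hh_o s u b k ∨ (u + b / 2 + k ≤ 0 ∧ 0 ≤ fa_hs_v2_hh_vy s u b k) ∨ (h0 + u + b / 2 + k ≤ 1 ∧ 0 ≤ fa_hs_h2_hh_Hy s u b k) ∨ (h0 + u + b / 2 + k ≤ 1 ∧ 0 ≤ fa_h1_hH_hh_Hy s u b k) := by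
  have e1 := up (t1 := (-63 / 1000)) (t2 := (-31 / 1000)) (x := b) (by norm_num)
    (by linarith only [b1]) (by linarith only [b2])
  have e2 := up (t1 := (-68 / 1000)) (t2 := (-67 / 1000)) (x := h0 - 1) (by norm_num)
    (by linarith only [R.h1]) (by linarith only [R.h2])
  have e3 := up (t1 := (-470 / 1000)) (t2 := (-437 / 1000)) (x := h0 - s - 1) (by norm_num)
    (by linarith only [R.h1, s2]) (by linarith only [R.h2, s1])
  have e4 := up (t1 := (577 / 1000)) (t2 := (578 / 1000)) (x := h0) (by norm_num)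
    (by linarith only [R.h1]) (by linarith only [R.h2])
  have e5 := up (t1 := (310 / 1000)) (t2 := (359 / 1000)) (x := s - u) (by norm_num)
    (by linarith only [s1, u2]) (by linarith only [s2, u1])
  have e6 := R.lo21 (346 / 1000) (by norm_num)
  have e7 := R.lo21 (358 / 1000) (by norm_num)
  have e8 := R.lo9 (-477 / 1000) (by norm_num)
  have e9 := R.lo10 (-33 / 1000) (by norm_num)
  have e10 := R.lo14 (620 / 1000) (by norm_num)
  have e11 := R.lo16 (572 / 1000) (by norm_num)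
  have e12 := R.lo18 (299 / 1000) (by norm_num)
  have e13 := R.lo20 (310 / 1000) (by norm_num)
  have e14 := R.lo19 (330 / 1000) (by norm_num)
  have e15 := pairLo (m := 7137 / 10000) R.dm19 R.dm20
    (by linarith only [R.k2, b2, e1]) (by linarith only [R.k2, s1, u2, b2, e1, e13, e14])
  have e16 := up (t1 := (577 / 1000)) (t2 := (627 / 1000)) (x := h0 + u) (by norm_num)
    (by linarith only [R.h1, u1]) (by linarith only [R.h2, u2])
  have e17 := pairUp (m := 18873 / 10000) R.dm12 R.dm17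
    (by linarith only [u1]) (by linarith only [R.h2, u2, e16, e4])
  right
  right
  right
  right
  left
  refine ⟨by linarith only [R.k2, R.h2, u2, b2, e1], ?_⟩
  unfold fa_hs_h2_hh_Hy
  linarith only [R.k2, R.h1, u2, b2, e1, e2, e3, e4, e5, e6, e7, e8, e9, e10, e11, e12, e15, e17]

theorem ba15 {s u b k : ℝ} (R : RegA s u b k)
    (s1 : 127 / 200 ≤ s) (s2 : s ≤ 67 / 100) (u1 : 0 ≤ u) (u2 : u ≤ 17 / 500)
    (b1 : -1 / 8 ≤ b) (b2 : b ≤ -63 / 1000) :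
    0 ≤ fa_h1_hH_hh_Tv s u b k ∨ (h0 + u + b / 2 + k ≤ 1 ∧ 0 ≤ fa_h1_hH_hh_HH s u b k) ∨ 0 ≤ fa_h1_hH_hh_o s u b k ∨ (u + b / 2 + k ≤ 0 ∧ 0 ≤ fa_hs_v2_hh_vy s u b k) ∨ (h0 + u + b / 2 + k ≤ 1 ∧ 0 ≤ fa_hs_h2_hh_Hy s u b k) ∨ (h0 + u + b / 2 + k ≤ 1 ∧ 0 ≤ fa_h1_hH_hh_Hy s u b k) := by
  have e1 := up (t1 := (-63 / 1000)) (t2 := (-31 / 1000)) (x := b) (by norm_num)
    (by linarith only [b1]) (by linarith only [b2])
  have e2 := up (t1 := (-68 / 1000)) (t2 := (-67 / 1000)) (x := h0 - 1) (by norm_num)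
    (by linarith only [R.h1]) (by linarith only [R.h2])
  have e3 := up (t1 := (-505 / 1000)) (t2 := (-469 / 1000)) (x := h0 - s - 1) (by norm_num)
    (by linarith only [R.h1, s2]) (by linarith only [R.h2, s1])
  have e4 := up (t1 := (577 / 1000)) (t2 := (578 / 1000)) (x := h0) (by norm_num)
    (by linarith only [R.h1]) (by linarith only [R.h2])
  have e5 := up (t1 := (334 / 1000)) (t2 := (385 / 1000)) (x := s - u) (by norm_num)
    (by linarith only [s1, u2]) (by linarith only [s2, u1])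
  have e6 := R.lo21 (371 / 1000) (by norm_num)
  have e7 := R.lo21 (385 / 1000) (by norm_num)
  have e8 := R.lo9 (-513 / 1000) (by norm_num)
  have e9 := R.lo10 (-33 / 1000) (by norm_num)
  have e10 := R.lo14 (620 / 1000) (by norm_num)
  have e11 := R.lo16 (572 / 1000) (by norm_num)
  have e12 := R.lo18 (323 / 1000) (by norm_num)
  have e13 := R.lo20 (334 / 1000) (by norm_num)
  have e14 := R.lo19 (355 / 1000) (by norm_num)
  have e15 := pairLo (m := 7819 / 10000) R.dm19 R.dm20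
    (by linarith only [R.k2, b2, e1]) (by linarith only [R.k2, s1, u2, b2, e1, e13, e14])
  have e16 := up (t1 := (577 / 1000)) (t2 := (627 / 1000)) (x := h0 + u) (by norm_num)
    (by linarith only [R.h1, u1]) (by linarith only [R.h2, u2])
  have e17 := pairUp (m := 18873 / 10000) R.dm12 R.dm17
    (by linarith only [u1]) (by linarith only [R.h2, u2, e16, e4])
  right
  right
  right
  right
  left
  refine ⟨by linarith only [R.k2, R.h2, u2, b2, e1], ?_⟩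
  unfold fa_hs_h2_hh_Hy
  linarith only [R.k2, R.h1, u2, b2, e1, e2, e3, e4, e5, e6, e7, e8, e9, e10, e11, e12, e15, e17]

theorem ba17 {s u b k : ℝ} (R : RegA s u b k)
    (s1 : 3 / 5 ≤ s) (s2 : s ≤ 67 / 100) (u1 : 0 ≤ u) (u2 : u ≤ 17 / 500)
    (b1 : -63 / 1000 ≤ b) (b2 : b ≤ -31 / 1000) :
    0 ≤ fa_h1_hH_hh_Tv s u b k ∨ (h0 + u + b / 2 + k ≤ 1 ∧ 0 ≤ fa_h1_hH_hh_HH s u b k) ∨ 0 ≤ fa_h1_hH_hh_o s u b k ∨ (u + b / 2 + k ≤ 0 ∧ 0 ≤ fa_hs_v2_hh_vy s u b k) ∨ (h0 + u + b / 2 + k ≤ 1 ∧ 0 ≤ fa_hs_h2_hh_Hy s u b k) ∨ (h0 + u + b / 2 + k ≤ 1 ∧ 0 ≤ fa_h1_hH_hh_Hy s u b k) := by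
  have e1 := up (t1 := (-32 / 1000)) (t2 := (-15 / 1000)) (x := b) (by norm_num)
    (by linarith only [b1]) (by linarith only [b2])
  have e2 := up (t1 := (247 / 1000)) (t2 := (291 / 1000)) (x := h0 + s - 1) (by norm_num)
    (by linarith only [R.h1, s1]) (by linarith only [R.h2, s2])
  have e3 := up (t1 := (-68 / 1000)) (t2 := (-67 / 1000)) (x := h0 - 1) (by norm_num)
    (by linarith only [R.h1]) (by linarith only [R.h2])
  have e4 := up (t1 := (577 / 1000)) (t2 := (578 / 1000)) (x := h0) (by norm_num)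
    (by linarith only [R.h1]) (by linarith only [R.h2])
  have e5 := up (t1 := (333 / 1000)) (t2 := (385 / 1000)) (x := s) (by norm_num)
    (by linarith only [s1]) (by linarith only [s2])
  have e6 := R.lo7 (272 / 1000) (by norm_num)
  have e7 := R.lo7 (310 / 1000) (by norm_num)
  have e8 := R.lo8 (-82 / 1000) (by norm_num)
  have e9 := R.lo10 (-46 / 1000) (by norm_num)
  have e10 := R.lo14 (609 / 1000) (by norm_num)
  have e11 := R.lo14 (620 / 1000) (by norm_num)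
  have e12 := R.lo18 (329 / 1000) (by norm_num)
  have e13 := R.lo19 (362 / 1000) (by norm_num)
  have e14 := R.lo20 (310 / 1000) (by norm_num)
  have e15 := R.lo21 (333 / 1000) (by norm_num)
  have e16 := pairLo (m := 7178 / 10000) R.dm21 R.dm20
    (by linarith only [u1]) (by linarith only [s1, u2, e14, e15])
  have e17 := R.lo3 (-16 / 1000) (by norm_num)
  have e18 := up (t1 := (288 / 1000)) (t2 := (373 / 1000)) (x := s + b / 2 - u - k) (by norm_num)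
    (by linarith only [R.k2, s1, u2, b1, e1]) (by linarith only [R.k1, s2, u1, b2, e17])
  have e19 := pairUp (m := 8836 / 10000) R.dm20 R.dm18
    (by linarith only [R.k1, b2, e17]) (by linarith only [R.k1, s2, u1, b2, e17, e5, e18, e16])
  have e20 := up (t1 := (577 / 1000)) (t2 := (627 / 1000)) (x := h0 + u) (by norm_num)
    (by linarith only [R.h1, u1]) (by linarith only [R.h2, u2])
  have e21 := pairUp (m := 18873 / 10000) R.dm12 R.dm17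
    (by linarith only [u1]) (by linarith only [R.h2, u2, e20, e4])
  right
  right
  right
  right
  right
  refine ⟨by linarith only [R.k2, R.h2, u2, b2, e1], ?_⟩
  unfold fa_h1_hH_hh_Hy
  linarith only [R.k2, R.h1, e1, e2, e3, e4, e5, e6, e7, e8, e9, e10, e11, e12, e13, e16, e19, e21]

theorem ba19 {s u b k : ℝ} (R : RegA s u b k)
    (s1 : 3 / 5 ≤ s) (s2 : s ≤ 67 / 100) (u1 : 0 ≤ u) (u2 : u ≤ 17 / 500)
    (b1 : -31 / 1000 ≤ b) (b2 : b ≤ -2 / 125) :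
    0 ≤ fa_h1_hH_hh_Tv s u b k ∨ (h0 + u + b / 2 + k ≤ 1 ∧ 0 ≤ fa_h1_hH_hh_HH s u b k) ∨ 0 ≤ fa_h1_hH_hh_o s u b k ∨ (u + b / 2 + k ≤ 0 ∧ 0 ≤ fa_hs_v2_hh_vy s u b k) ∨ (h0 + u + b / 2 + k ≤ 1 ∧ 0 ≤ fa_hs_h2_hh_Hy s u b k) ∨ (h0 + u + b / 2 + k ≤ 1 ∧ 0 ≤ fa_h1_hH_hh_Hy s u b k) := by
  have e1 := up (t1 := (-16 / 1000)) (t2 := (-8 / 1000)) (x := b) (by norm_num)
    (by linarith only [b1]) (by linarith only [b2])
  have e2 := up (t1 := (247 / 1000)) (t2 := (291 / 1000)) (x := h0 + s - 1) (by norm_num)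
    (by linarith only [R.h1, s1]) (by linarith only [R.h2, s2])
  have e3 := up (t1 := (-68 / 1000)) (t2 := (-67 / 1000)) (x := h0 - 1) (by norm_num)
    (by linarith only [R.h1]) (by linarith only [R.h2])
  have e4 := up (t1 := (577 / 1000)) (t2 := (578 / 1000)) (x := h0) (by norm_num)
    (by linarith only [R.h1]) (by linarith only [R.h2])
  have e5 := R.lo7 (265 / 1000) (by norm_num)
  have e6 := R.lo7 (300 / 1000) (by norm_num)
  have e7 := R.lo8 (-75 / 1000) (by norm_num)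
  have e8 := R.lo10 (-63 / 1000) (by norm_num)
  have e9 := R.lo14 (593 / 1000) (by norm_num)
  have e10 := R.lo20 (310 / 1000) (by norm_num)
  have e11 := R.lo21 (333 / 1000) (by norm_num)
  have e12 := pairLo (m := 7178 / 10000) R.dm21 R.dm20
    (by linarith only [u1]) (by linarith only [s1, u2, e10, e11])
  have e13 := R.lo19 (316 / 1000) (by norm_num)
  have e14 := pairLo (m := 6936 / 10000) R.dm19 R.dm20
    (by linarith only [R.k2, b2, e1]) (by linarith only [R.k2, s1, u2, b2, e1, e10, e13])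
  have e15 := R.lo3 (-8 / 1000) (by norm_num)
  have e16 := up (t1 := (333 / 1000)) (t2 := (385 / 1000)) (x := s) (by norm_num)
    (by linarith only [s1]) (by linarith only [s2])
  have e17 := up (t1 := (299 / 1000)) (t2 := (379 / 1000)) (x := s + b / 2 - u - k) (by norm_num)
    (by linarith only [R.k2, s1, u2, b1, e1]) (by linarith only [R.k1, s2, u1, b2, e15])
  have e18 := pairUp (m := 8929 / 10000) R.dm20 R.dm18
    (by linarith only [R.k1, b2, e15]) (by linarith only [R.k1, s2, u1, b2, e15, e16, e17, e12])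
  have e19 := R.lo5 (247 / 1000) (by norm_num)
  have e20 := R.lo6 (227 / 1000) (by norm_num)
  have e21 := pairLo (m := 5026 / 10000) R.dm5 R.dm6
    (by linarith only [u1]) (by linarith only [R.h1, s1, u2, e19, e20])
  have e22 := pairUp (m := 6350 / 10000) R.dm5 R.dm6
    (by linarith only [u1]) (by linarith only [R.h2, s2, u1, e2, e21])
  have e23 := R.lo7 (232 / 1000) (by norm_num)
  have e24 := pairLo (m := 4844 / 10000) R.dm7 R.dm6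
    (by linarith only [R.k2, b2, e1]) (by linarith only [R.k2, R.h1, s1, u2, b2, e1, e20, e23])
  have e25 := up (t1 := (577 / 1000)) (t2 := (627 / 1000)) (x := h0 + u) (by norm_num)
    (by linarith only [R.h1, u1]) (by linarith only [R.h2, u2])
  have e26 := pairUp (m := 18873 / 10000) R.dm12 R.dm17
    (by linarith only [u1]) (by linarith only [R.h2, u2, e25, e4])
  right
  right
  right
  right
  right
  refine ⟨by linarith only [R.k2, R.h2, u2, b2, e1], ?_⟩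
  unfold fa_h1_hH_hh_Hy
  linarith only [R.k2, R.h1, u1, e1, e2, e3, e4, e5, e6, e7, e8, e9, e12, e14, e18, e22, e24, e26]

theorem ba21 {s u b k : ℝ} (R : RegA s u b k)
    (s1 : 3 / 5 ≤ s) (s2 : s ≤ 127 / 200) (u1 : 0 ≤ u) (u2 : u ≤ 17 / 500)
    (b1 : -2 / 125 ≤ b) (b2 : b ≤ 0) :
    0 ≤ fa_h1_hH_hh_Tv s u b k ∨ (h0 + u + b / 2 + k ≤ 1 ∧ 0 ≤ fa_h1_hH_hh_HH s u b k) ∨ 0 ≤ fa_h1_hH_hh_o s u b k ∨ (u + b / 2 + k ≤ 0 ∧ 0 ≤ fa_hs_v2_hh_vy s u b k) ∨ (h0 + u + b / 2 + k ≤ 1 ∧ 0 ≤ fa_hs_h2_hh_Hy s u b k) ∨ (h0 + u + b / 2 + k ≤ 1 ∧ 0 ≤ fa_h1_hH_hh_Hy s u b k) := by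
  have e1 := up (t1 := (-9 / 1000)) (t2 := (0 / 1000)) (x := b) (by norm_num)
    (by linarith only [b1]) (by linarith only [b2])
  have e2 := R.lo20 (310 / 1000) (by norm_num)
  have e3 := R.lo21 (333 / 1000) (by norm_num)
  have e4 := pairLo (m := 7178 / 10000) R.dm21 R.dm20
    (by linarith only [u1]) (by linarith only [s1, u2, e2, e3])
  have e5 := R.lo19 (310 / 1000) (by norm_num)
  have e6 := pairLo (m := 6865 / 10000) R.dm19 R.dm20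
    (by linarith only [R.k2, b2, e1]) (by linarith only [R.k2, s1, u2, b2, e1, e2, e5])
  have e7 := up (t1 := (333 / 1000)) (t2 := (359 / 1000)) (x := s) (by norm_num)
    (by linarith only [s1]) (by linarith only [s2])
  have e8 := R.lo18 (305 / 1000) (by norm_num)
  have e9 := pairLo (m := 6793 / 10000) R.dm20 R.dm18
    (by linarith only [R.k3, b2]) (by linarith only [R.k2, s1, u2, b1, e1, e2, e8])
  have e10 := pairUp (m := 8221 / 10000) R.dm20 R.dm18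
    (by linarith only [R.k3, b2]) (by linarith only [R.k3, s2, u1, b2, e7, e4, e9])
  have e11 := up (t1 := (247 / 1000)) (t2 := (269 / 1000)) (x := h0 + s - 1) (by norm_num)
    (by linarith only [R.h1, s1]) (by linarith only [R.h2, s2])
  have e12 := R.lo5 (247 / 1000) (by norm_num)
  have e13 := R.lo6 (227 / 1000) (by norm_num)
  have e14 := pairLo (m := 5026 / 10000) R.dm5 R.dm6
    (by linarith only [u1]) (by linarith only [R.h1, s1, u2, e12, e13])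
  have e15 := pairUp (m := 5790 / 10000) R.dm5 R.dm6
    (by linarith only [u1]) (by linarith only [R.h2, s2, u1, e11, e14])
  have e16 := R.lo7 (227 / 1000) (by norm_num)
  have e17 := pairLo (m := 4790 / 10000) R.dm7 R.dm6
    (by linarith only [R.k2, b2, e1]) (by linarith only [R.k2, R.h1, s1, u2, b2, e1, e13, e16])
  have e18 := up (t1 := (-68 / 1000)) (t2 := (-50 / 1000)) (x := h0 + u - 1) (by norm_num)
    (by linarith only [R.h1, u1]) (by linarith only [R.h2, u2])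
  have e19 := up (t1 := (-68 / 1000)) (t2 := (-67 / 1000)) (x := h0 - 1) (by norm_num)
    (by linarith only [R.h1]) (by linarith only [R.h2])
  have e20 := pairLo (m := (-1353 / 10000)) R.dm11 R.dm13
    (by linarith only [u1]) (by linarith only [R.h1, u1, e18, e19])
  have e21 := R.lo11 (-50 / 1000) (by norm_num)
  have e22 := R.lo8 (-50 / 1000) (by norm_num)
  have e23 := pairUp (m := (-1004 / 10000)) R.dm11 R.dm8
    (by linarith only [R.k2, b2, e1]) (by linarith only [R.k2, R.h2, u2, b2, e1, e21, e22])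
  have e24 := R.lo3 (0 / 1000) (by norm_num)
  have e25 := up (t1 := (-68 / 1000)) (t2 := (-46 / 1000)) (x := h0 + u + k - b / 2 - 1) (by norm_num)
    (by linarith only [R.k1, R.h1, u1, b2, e24]) (by linarith only [R.k2, R.h2, u2, b1, e1])
  have e26 := R.lo13 (-67 / 1000) (by norm_num)
  have e27 := pairUp (m := (-1177 / 10000)) R.dm11 R.dm13
    (by linarith only [u1]) (by linarith only [R.h2, u2, e21, e26])
  have e28 := pairLo (m := (-1353 / 10000)) R.dm10 R.dm11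
    (by linarith only [R.k3, b2]) (by linarith only [R.k1, R.h1, u1, b2, e24, e19, e25, e27])
  have e29 := up (t1 := (577 / 1000)) (t2 := (627 / 1000)) (x := h0 + u) (by norm_num)
    (by linarith only [R.h1, u1]) (by linarith only [R.h2, u2])
  have e30 := up (t1 := (577 / 1000)) (t2 := (578 / 1000)) (x := h0) (by norm_num)
    (by linarith only [R.h1]) (by linarith only [R.h2])
  have e31 := pairUp (m := 18873 / 10000) R.dm12 R.dm17
    (by linarith only [u1]) (by linarith only [R.h2, u2, e29, e30])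
  have e32 := R.lo17 (577 / 1000) (by norm_num)
  have e33 := R.lo14 (577 / 1000) (by norm_num)
  have e34 := pairLo (m := 17320 / 10000) R.dm14 R.dm17
    (by linarith only [R.k2, b2, e1]) (by linarith only [R.k2, R.h1, b2, e1, e32, e33])
  right
  right
  right
  right
  right
  refine ⟨by linarith only [R.k2, R.h2, u2, b2, e1], ?_⟩
  unfold fa_h1_hH_hh_Hy
  linarith only [R.k2, u1, b2, e1, e4, e6, e10, e15, e17, e20, e23, e28, e31, e34]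

theorem ba22 {s u b k : ℝ} (R : RegA s u b k)
    (s1 : 127 / 200 ≤ s) (s2 : s ≤ 67 / 100) (u1 : 0 ≤ u) (u2 : u ≤ 17 / 500)
    (b1 : -2 / 125 ≤ b) (b2 : b ≤ 0) :
    0 ≤ fa_h1_hH_hh_Tv s u b k ∨ (h0 + u + b / 2 + k ≤ 1 ∧ 0 ≤ fa_h1_hH_hh_HH s u b k) ∨ 0 ≤ fa_h1_hH_hh_o s u b k ∨ (u + b / 2 + k ≤ 0 ∧ 0 ≤ fa_hs_v2_hh_vy s u b k) ∨ (h0 + u + b / 2 + k ≤ 1 ∧ 0 ≤ fa_hs_h2_hh_Hy s u b k) ∨ (h0 + u + b / 2 + k ≤ 1 ∧ 0 ≤ fa_h1_hH_hh_Hy s u b k) := by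
  have e1 := up (t1 := (-9 / 1000)) (t2 := (0 / 1000)) (x := b) (by norm_num)
    (by linarith only [b1]) (by linarith only [b2])
  have e2 := R.lo20 (334 / 1000) (by norm_num)
  have e3 := R.lo21 (358 / 1000) (by norm_num)
  have e4 := pairLo (m := 7863 / 10000) R.dm21 R.dm20
    (by linarith only [u1]) (by linarith only [s1, u2, e2, e3])
  have e5 := R.lo19 (334 / 1000) (by norm_num)
  have e6 := pairLo (m := 7519 / 10000) R.dm19 R.dm20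
    (by linarith only [R.k2, b2, e1]) (by linarith only [R.k2, s1, u2, b2, e1, e2, e5])
  have e7 := R.lo3 (0 / 1000) (by norm_num)
  have e8 := up (t1 := (358 / 1000)) (t2 := (385 / 1000)) (x := s) (by norm_num)
    (by linarith only [s1]) (by linarith only [s2])
  have e9 := R.lo18 (328 / 1000) (by norm_num)
  have e10 := pairLo (m := 7440 / 10000) R.dm20 R.dm18
    (by linarith only [R.k1, b2, e7]) (by linarith only [R.k2, s1, u2, b1, e1, e2, e9])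
  have e11 := pairUp (m := 9026 / 10000) R.dm20 R.dm18
    (by linarith only [R.k1, b2, e7]) (by linarith only [R.k3, s2, u1, b2, e8, e4, e10])
  have e12 := up (t1 := (268 / 1000)) (t2 := (291 / 1000)) (x := h0 + s - 1) (by norm_num)
    (by linarith only [R.h1, s1]) (by linarith only [R.h2, s2])
  have e13 := R.lo5 (269 / 1000) (by norm_num)
  have e14 := R.lo6 (248 / 1000) (by norm_num)
  have e15 := pairLo (m := 5532 / 10000) R.dm5 R.dm6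
    (by linarith only [u1]) (by linarith only [R.h1, s1, u2, e13, e14])
  have e16 := pairUp (m := 6350 / 10000) R.dm5 R.dm6
    (by linarith only [u1]) (by linarith only [R.h2, s2, u1, e12, e15])
  have e17 := R.lo7 (248 / 1000) (by norm_num)
  have e18 := pairLo (m := 5281 / 10000) R.dm7 R.dm6
    (by linarith only [R.k2, b2, e1]) (by linarith only [R.k2, R.h1, s1, u2, b2, e1, e14, e17])
  have e19 := up (t1 := (-68 / 1000)) (t2 := (-50 / 1000)) (x := h0 + u - 1) (by norm_num)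
    (by linarith only [R.h1, u1]) (by linarith only [R.h2, u2])
  have e20 := up (t1 := (-68 / 1000)) (t2 := (-67 / 1000)) (x := h0 - 1) (by norm_num)
    (by linarith only [R.h1]) (by linarith only [R.h2])
  have e21 := pairLo (m := (-1353 / 10000)) R.dm11 R.dm13
    (by linarith only [u1]) (by linarith only [R.h1, u1, e19, e20])
  have e22 := R.lo11 (-50 / 1000) (by norm_num)
  have e23 := R.lo8 (-50 / 1000) (by norm_num)
  have e24 := pairUp (m := (-1004 / 10000)) R.dm11 R.dm8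
    (by linarith only [R.k2, b2, e1]) (by linarith only [R.k2, R.h2, u2, b2, e1, e22, e23])
  have e25 := up (t1 := (-68 / 1000)) (t2 := (-46 / 1000)) (x := h0 + u + k - b / 2 - 1) (by norm_num)
    (by linarith only [R.k1, R.h1, u1, b2, e7]) (by linarith only [R.k2, R.h2, u2, b1, e1])
  have e26 := R.lo13 (-67 / 1000) (by norm_num)
  have e27 := pairUp (m := (-1177 / 10000)) R.dm11 R.dm13
    (by linarith only [u1]) (by linarith only [R.h2, u2, e22, e26])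
  have e28 := pairLo (m := (-1353 / 10000)) R.dm10 R.dm11
    (by linarith only [R.k3, b2]) (by linarith only [R.k1, R.h1, u1, b2, e7, e20, e25, e27])
  have e29 := up (t1 := (577 / 1000)) (t2 := (627 / 1000)) (x := h0 + u) (by norm_num)
    (by linarith only [R.h1, u1]) (by linarith only [R.h2, u2])
  have e30 := up (t1 := (577 / 1000)) (t2 := (578 / 1000)) (x := h0) (by norm_num)
    (by linarith only [R.h1]) (by linarith only [R.h2])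
  have e31 := pairUp (m := 18873 / 10000) R.dm12 R.dm17
    (by linarith only [u1]) (by linarith only [R.h2, u2, e29, e30])
  have e32 := R.lo17 (577 / 1000) (by norm_num)
  have e33 := R.lo14 (577 / 1000) (by norm_num)
  have e34 := pairLo (m := 17320 / 10000) R.dm14 R.dm17
    (by linarith only [R.k2, b2, e1]) (by linarith only [R.k2, R.h1, b2, e1, e32, e33])
  right
  right
  right
  right
  right
  refine ⟨by linarith only [R.k2, R.h2, u2, b2, e1], ?_⟩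
  unfold fa_h1_hH_hh_Hy
  linarith only [R.k2, u1, b2, e1, e4, e6, e11, e16, e18, e21, e24, e28, e31, e34]

theorem ba24 {s u b k : ℝ} (R : RegA s u b k)
    (s1 : 3 / 5 ≤ s) (s2 : s ≤ 67 / 100) (u1 : 17 / 500 ≤ u) (u2 : u ≤ 1699 / 25000)
    (b1 : -1 / 8 ≤ b) (b2 : b ≤ -63 / 1000) :
    0 ≤ fa_h1_hH_hh_Tv s u b k ∨ (h0 + u + b / 2 + k ≤ 1 ∧ 0 ≤ fa_h1_hH_hh_HH s u b k) ∨ 0 ≤ fa_h1_hH_hh_o s u b k ∨ (u + b / 2 + k ≤ 0 ∧ 0 ≤ fa_hs_v2_hh_vy s u b k) ∨ (h0 + u + b / 2 + k ≤ 1 ∧ 0 ≤ fa_hs_h2_hh_Hy s u b k) ∨ (h0 + u + b / 2 + k ≤ 1 ∧ 0 ≤ fa_h1_hH_hh_Hy s u b k) := by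
  have e1 := up (t1 := (-63 / 1000)) (t2 := (-31 / 1000)) (x := b) (by norm_num)
    (by linarith only [b1]) (by linarith only [b2])
  have e2 := up (t1 := (247 / 1000)) (t2 := (291 / 1000)) (x := h0 + s - 1) (by norm_num)
    (by linarith only [R.h1, s1]) (by linarith only [R.h2, s2])
  have e3 := up (t1 := (626 / 1000)) (t2 := (689 / 1000)) (x := h0 + u) (by norm_num)
    (by linarith only [R.h1, u1]) (by linarith only [R.u3, u2])
  have e4 := up (t1 := (-68 / 1000)) (t2 := (-67 / 1000)) (x := h0 - 1) (by norm_num)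
    (by linarith only [R.h1]) (by linarith only [R.h2])
  have e5 := up (t1 := (288 / 1000)) (t2 := (359 / 1000)) (x := s - u) (by norm_num)
    (by linarith only [R.h1, R.u3, s1]) (by linarith only [s2, u1])
  have e6 := R.lo21 (358 / 1000) (by norm_num)
  have e7 := R.lo7 (263 / 1000) (by norm_num)
  have e8 := R.lo8 (-63 / 1000) (by norm_num)
  have e9 := R.lo10 (-16 / 1000) (by norm_num)
  have e10 := R.lo14 (641 / 1000) (by norm_num)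
  have e11 := R.lo14 (620 / 1000) (by norm_num)
  have e12 := R.lo18 (289 / 1000) (by norm_num)
  have e13 := R.lo19 (352 / 1000) (by norm_num)
  have e14 := R.lo20 (288 / 1000) (by norm_num)
  have e15 := R.lo21 (333 / 1000) (by norm_num)
  have e16 := pairLo (m := 6874 / 10000) R.dm21 R.dm20
    (by linarith only [u1]) (by linarith only [R.h1, R.u3, s1, e14, e15])
  have e17 := R.lo19 (307 / 1000) (by norm_num)
  have e18 := pairLo (m := 6534 / 10000) R.dm19 R.dm20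
    (by linarith only [R.k2, b2, e1]) (by linarith only [R.k2, s1, u2, b2, e1, e14, e17])
  right
  right
  right
  right
  right
  refine ⟨by linarith only [R.k2, R.u3, u2, b2, e1], ?_⟩
  unfold fa_h1_hH_hh_Hy
  linarith only [R.k2, R.h2, e1, e2, e3, e4, e5, e6, e7, e8, e9, e10, e11, e12, e13, e16, e18]

theorem ba25 {s u b k : ℝ} (R : RegA s u b k)
    (s1 : 3 / 5 ≤ s) (s2 : s ≤ 67 / 100) (u1 : 17 / 500 ≤ u) (u2 : u ≤ 1699 / 25000)
    (b1 : -63 / 1000 ≤ b) (b2 : b ≤ 0) :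
    0 ≤ fa_h1_hH_hh_Tv s u b k ∨ (h0 + u + b / 2 + k ≤ 1 ∧ 0 ≤ fa_h1_hH_hh_HH s u b k) ∨ 0 ≤ fa_h1_hH_hh_o s u b k ∨ (u + b / 2 + k ≤ 0 ∧ 0 ≤ fa_hs_v2_hh_vy s u b k) ∨ (h0 + u + b / 2 + k ≤ 1 ∧ 0 ≤ fa_hs_h2_hh_Hy s u b k) ∨ (h0 + u + b / 2 + k ≤ 1 ∧ 0 ≤ fa_h1_hH_hh_Hy s u b k) := by
  have e1 := up (t1 := (-32 / 1000)) (t2 := (0 / 1000)) (x := b) (by norm_num)
    (by linarith only [b1]) (by linarith only [b2])
  have e2 := up (t1 := (247 / 1000)) (t2 := (291 / 1000)) (x := h0 + s - 1) (by norm_num)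
    (by linarith only [R.h1, s1]) (by linarith only [R.h2, s2])
  have e3 := up (t1 := (-68 / 1000)) (t2 := (-67 / 1000)) (x := h0 - 1) (by norm_num)
    (by linarith only [R.h1]) (by linarith only [R.h2])
  have e4 := up (t1 := (288 / 1000)) (t2 := (359 / 1000)) (x := s - u) (by norm_num)
    (by linarith only [R.h1, R.u3, s1]) (by linarith only [s2, u1])
  have e5 := R.lo21 (358 / 1000) (by norm_num)
  have e6 := R.lo7 (247 / 1000) (by norm_num)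
  have e7 := R.lo8 (-65 / 1000) (by norm_num)
  have e8 := R.lo10 (-33 / 1000) (by norm_num)
  have e9 := R.lo18 (311 / 1000) (by norm_num)
  have e10 := R.lo19 (333 / 1000) (by norm_num)
  have e11 := R.lo20 (288 / 1000) (by norm_num)
  have e12 := R.lo21 (333 / 1000) (by norm_num)
  have e13 := pairLo (m := 6874 / 10000) R.dm21 R.dm20
    (by linarith only [u1]) (by linarith only [R.h1, R.u3, s1, e11, e12])
  right
  left
  refine ⟨by linarith only [R.k2, R.u3, u2, b2, e1], ?_⟩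
  unfold fa_h1_hH_hh_HH
  linarith only [R.k2, R.h1, u1, b1, e1, e2, e3, e4, e5, e6, e7, e8, e9, e10, e13]

theorem ba31 {s u b k : ℝ} (R : RegA s u b k)
    (s1 : 3 / 5 ≤ s) (s2 : s ≤ 127 / 200) (u1 : 0 ≤ u) (u2 : u ≤ 17 / 500)
    (b1 : 0 ≤ b) (b2 : b ≤ 63 / 1000) :
    0 ≤ fa_h1_hH_hh_Tv s u b k ∨ (h0 + u + b / 2 + k ≤ 1 ∧ 0 ≤ fa_h1_hH_hh_HH s u b k) ∨ 0 ≤ fa_h1_hH_hh_o s u b k ∨ (u + b / 2 + k ≤ 0 ∧ 0 ≤ fa_hs_v2_hh_vy s u b k) ∨ (h0 + u + b / 2 + k ≤ 1 ∧ 0 ≤ fa_hs_h2_hh_Hy s u b k) ∨ (h0 + u + b / 2 + k ≤ 1 ∧ 0 ≤ fa_h1_hH_hh_Hy s u b k) := by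
  have e1 := up (t1 := (0 / 1000)) (t2 := (32 / 1000)) (x := b) (by norm_num)
    (by linarith only [b1]) (by linarith only [b2])
  have e2 := R.lo20 (310 / 1000) (by norm_num)
  have e3 := R.lo21 (333 / 1000) (by norm_num)
  have e4 := pairLo (m := 7178 / 10000) R.dm21 R.dm20
    (by linarith only [u1]) (by linarith only [s1, u2, e2, e3])
  have e5 := R.lo3 (0 / 1000) (by norm_num)
  have e6 := up (t1 := (333 / 1000)) (t2 := (359 / 1000)) (x := s) (by norm_num)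
    (by linarith only [s1]) (by linarith only [s2])
  have e7 := R.lo19 (289 / 1000) (by norm_num)
  have e8 := pairLo (m := 6576 / 10000) R.dm20 R.dm19
    (by linarith only [R.k3, b1]) (by linarith only [R.k2, s1, u2, b2, e1, e2, e7])
  have e9 := pairUp (m := 8221 / 10000) R.dm20 R.dm19
    (by linarith only [R.k3, b1]) (by linarith only [R.k1, s2, u1, b1, e5, e6, e4, e8])
  have e10 := R.lo18 (310 / 1000) (by norm_num)
  have e11 := pairLo (m := 6865 / 10000) R.dm18 R.dm20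
    (by linarith only [R.k2, b1, e1]) (by linarith only [R.k2, s1, u2, b1, e1, e2, e10])
  have e12 := up (t1 := (247 / 1000)) (t2 := (269 / 1000)) (x := h0 + s - 1) (by norm_num)
    (by linarith only [R.h1, s1]) (by linarith only [R.h2, s2])
  have e13 := R.lo5 (247 / 1000) (by norm_num)
  have e14 := R.lo6 (227 / 1000) (by norm_num)
  have e15 := pairLo (m := 5026 / 10000) R.dm5 R.dm6
    (by linarith only [u1]) (by linarith only [R.h1, s1, u2, e13, e14])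
  have e16 := pairUp (m := 5790 / 10000) R.dm5 R.dm6
    (by linarith only [u1]) (by linarith only [R.h2, s2, u1, e12, e15])
  have e17 := R.lo7 (208 / 1000) (by norm_num)
  have e18 := pairLo (m := 4567 / 10000) R.dm6 R.dm7
    (by linarith only [R.k3, b1]) (by linarith only [R.k2, R.h1, s1, u2, b2, e1, e14, e17])
  have e19 := pairUp (m := 5790 / 10000) R.dm6 R.dm7
    (by linarith only [R.k3, b1]) (by linarith only [R.h2, R.k3, s2, u1, b1, e12, e15, e18])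
  have e20 := up (t1 := (-68 / 1000)) (t2 := (-50 / 1000)) (x := h0 + u - 1) (by norm_num)
    (by linarith only [R.h1, u1]) (by linarith only [R.h2, u2])
  have e21 := up (t1 := (-68 / 1000)) (t2 := (-67 / 1000)) (x := h0 - 1) (by norm_num)
    (by linarith only [R.h1]) (by linarith only [R.h2])
  have e22 := pairLo (m := (-1353 / 10000)) R.dm11 R.dm13
    (by linarith only [u1]) (by linarith only [R.h1, u1, e20, e21])
  have e23 := up (t1 := (-68 / 1000)) (t2 := (-33 / 1000)) (x := h0 + u + b / 2 + k - 1) (by norm_num)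
    (by linarith only [R.h1, R.k3, u1, b1]) (by linarith only [R.k2, R.h2, u2, b2, e1])
  have e24 := R.lo11 (-50 / 1000) (by norm_num)
  have e25 := R.lo13 (-67 / 1000) (by norm_num)
  have e26 := pairUp (m := (-1177 / 10000)) R.dm11 R.dm13
    (by linarith only [u1]) (by linarith only [R.h2, u2, e24, e25])
  have e27 := pairLo (m := (-1353 / 10000)) R.dm8 R.dm11
    (by linarith only [R.k3, b1]) (by linarith only [R.k1, R.h1, u1, b1, e5, e21, e23, e26])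
  have e28 := R.lo10 (-50 / 1000) (by norm_num)
  have e29 := R.lo3 (32 / 1000) (by norm_num)
  have e30 := up (t1 := (-83 / 1000)) (t2 := (-50 / 1000)) (x := h0 + u + k - b / 2 - 1) (by norm_num)
    (by linarith only [R.k1, R.h1, u1, b2, e29]) (by linarith only [R.k2, R.h2, u2, b1, e1])
  have e31 := pairLo (m := (-1506 / 10000)) R.dm11 R.dm10
    (by linarith only [R.k2, b1, e1]) (by linarith only [R.k1, R.h1, u1, b2, e29, e21, e30, e26])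
  have e32 := pairUp (m := (-1004 / 10000)) R.dm11 R.dm10
    (by linarith only [R.k2, b1, e1]) (by linarith only [R.k2, R.h2, u2, b1, e1, e28, e31])
  right
  left
  refine ⟨by linarith only [R.k2, R.h2, u2, b2, e1], ?_⟩
  unfold fa_h1_hH_hh_HH
  linarith only [R.k2, u1, b1, e1, e4, e9, e11, e16, e19, e22, e27, e32]

theorem ba32 {s u b k : ℝ} (R : RegA s u b k)
    (s1 : 127 / 200 ≤ s) (s2 : s ≤ 67 / 100) (u1 : 0 ≤ u) (u2 : u ≤ 17 / 500)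
    (b1 : 0 ≤ b) (b2 : b ≤ 63 / 1000) :
    0 ≤ fa_h1_hH_hh_Tv s u b k ∨ (h0 + u + b / 2 + k ≤ 1 ∧ 0 ≤ fa_h1_hH_hh_HH s u b k) ∨ 0 ≤ fa_h1_hH_hh_o s u b k ∨ (u + b / 2 + k ≤ 0 ∧ 0 ≤ fa_hs_v2_hh_vy s u b k) ∨ (h0 + u + b / 2 + k ≤ 1 ∧ 0 ≤ fa_hs_h2_hh_Hy s u b k) ∨ (h0 + u + b / 2 + k ≤ 1 ∧ 0 ≤ fa_h1_hH_hh_Hy s u b k) := by
  have e1 := up (t1 := (0 / 1000)) (t2 := (32 / 1000)) (x := b) (by norm_num)
    (by linarith only [b1]) (by linarith only [b2])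
  have e2 := R.lo20 (334 / 1000) (by norm_num)
  have e3 := R.lo21 (358 / 1000) (by norm_num)
  have e4 := pairLo (m := 7863 / 10000) R.dm21 R.dm20
    (by linarith only [u1]) (by linarith only [s1, u2, e2, e3])
  have e5 := R.lo3 (0 / 1000) (by norm_num)
  have e6 := up (t1 := (358 / 1000)) (t2 := (385 / 1000)) (x := s) (by norm_num)
    (by linarith only [s1]) (by linarith only [s2])
  have e7 := R.lo19 (311 / 1000) (by norm_num)
  have e8 := pairLo (m := 7203 / 10000) R.dm20 R.dm19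
    (by linarith only [R.k1, b1, e5]) (by linarith only [R.k2, s1, u2, b2, e1, e2, e7])
  have e9 := pairUp (m := 9026 / 10000) R.dm20 R.dm19
    (by linarith only [R.k1, b1, e5]) (by linarith only [R.k1, s2, u1, b1, e5, e6, e4, e8])
  have e10 := R.lo18 (334 / 1000) (by norm_num)
  have e11 := pairLo (m := 7519 / 10000) R.dm18 R.dm20
    (by linarith only [R.k2, b1, e1]) (by linarith only [R.k2, s1, u2, b1, e1, e2, e10])
  have e12 := up (t1 := (268 / 1000)) (t2 := (291 / 1000)) (x := h0 + s - 1) (by norm_num)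
    (by linarith only [R.h1, s1]) (by linarith only [R.h2, s2])
  have e13 := R.lo5 (269 / 1000) (by norm_num)
  have e14 := R.lo6 (248 / 1000) (by norm_num)
  have e15 := pairLo (m := 5532 / 10000) R.dm5 R.dm6
    (by linarith only [u1]) (by linarith only [R.h1, s1, u2, e13, e14])
  have e16 := pairUp (m := 6350 / 10000) R.dm5 R.dm6
    (by linarith only [u1]) (by linarith only [R.h2, s2, u1, e12, e15])
  have e17 := R.lo7 (228 / 1000) (by norm_num)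
  have e18 := pairLo (m := 5045 / 10000) R.dm6 R.dm7
    (by linarith only [R.k1, b1, e5]) (by linarith only [R.k2, R.h1, s1, u2, b2, e1, e14, e17])
  have e19 := pairUp (m := 6350 / 10000) R.dm6 R.dm7
    (by linarith only [R.k1, b1, e5]) (by linarith only [R.h2, R.k3, s2, u1, b1, e12, e15, e18])
  have e20 := up (t1 := (-68 / 1000)) (t2 := (-50 / 1000)) (x := h0 + u - 1) (by norm_num)
    (by linarith only [R.h1, u1]) (by linarith only [R.h2, u2])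
  have e21 := up (t1 := (-68 / 1000)) (t2 := (-67 / 1000)) (x := h0 - 1) (by norm_num)
    (by linarith only [R.h1]) (by linarith only [R.h2])
  have e22 := pairLo (m := (-1353 / 10000)) R.dm11 R.dm13
    (by linarith only [u1]) (by linarith only [R.h1, u1, e20, e21])
  have e23 := up (t1 := (-68 / 1000)) (t2 := (-33 / 1000)) (x := h0 + u + b / 2 + k - 1) (by norm_num)
    (by linarith only [R.h1, R.k3, u1, b1]) (by linarith only [R.k2, R.h2, u2, b2, e1])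
  have e24 := R.lo11 (-50 / 1000) (by norm_num)
  have e25 := R.lo13 (-67 / 1000) (by norm_num)
  have e26 := pairUp (m := (-1177 / 10000)) R.dm11 R.dm13
    (by linarith only [u1]) (by linarith only [R.h2, u2, e24, e25])
  have e27 := pairLo (m := (-1353 / 10000)) R.dm8 R.dm11
    (by linarith only [R.k3, b1]) (by linarith only [R.k1, R.h1, u1, b1, e5, e21, e23, e26])
  have e28 := R.lo10 (-50 / 1000) (by norm_num)
  have e29 := R.lo3 (32 / 1000) (by norm_num)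
  have e30 := up (t1 := (-83 / 1000)) (t2 := (-50 / 1000)) (x := h0 + u + k - b / 2 - 1) (by norm_num)
    (by linarith only [R.k1, R.h1, u1, b2, e29]) (by linarith only [R.k2, R.h2, u2, b1, e1])
  have e31 := pairLo (m := (-1506 / 10000)) R.dm11 R.dm10
    (by linarith only [R.k2, b1, e1]) (by linarith only [R.k1, R.h1, u1, b2, e29, e21, e30, e26])
  have e32 := pairUp (m := (-1004 / 10000)) R.dm11 R.dm10
    (by linarith only [R.k2, b1, e1]) (by linarith only [R.k2, R.h2, u2, b1, e1, e28, e31])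
  right
  left
  refine ⟨by linarith only [R.k2, R.h2, u2, b2, e1], ?_⟩
  unfold fa_h1_hH_hh_HH
  linarith only [R.k2, u1, b1, e1, e4, e9, e11, e16, e19, e22, e27, e32]

theorem ba33 {s u b k : ℝ} (R : RegA s u b k)
    (s1 : 3 / 5 ≤ s) (s2 : s ≤ 67 / 100) (u1 : 0 ≤ u) (u2 : u ≤ 17 / 500)
    (b1 : 63 / 1000 ≤ b) (b2 : b ≤ 1 / 8) :
    0 ≤ fa_h1_hH_hh_Tv s u b k ∨ (h0 + u + b / 2 + k ≤ 1 ∧ 0 ≤ fa_h1_hH_hh_HH s u b k) ∨ 0 ≤ fa_h1_hH_hh_o s u b k ∨ (u + b / 2 + k ≤ 0 ∧ 0 ≤ fa_hs_v2_hh_vy s u b k) ∨ (h0 + u + b / 2 + k ≤ 1 ∧ 0 ≤ fa_hs_h2_hh_Hy s u b k) ∨ (h0 + u + b / 2 + k ≤ 1 ∧ 0 ≤ fa_h1_hH_hh_Hy s u b k) := by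
  have e1 := up (t1 := (31 / 1000)) (t2 := (63 / 1000)) (x := b) (by norm_num)
    (by linarith only [b1]) (by linarith only [b2])
  have e2 := up (t1 := (247 / 1000)) (t2 := (291 / 1000)) (x := h0 + s - 1) (by norm_num)
    (by linarith only [R.h1, s1]) (by linarith only [R.h2, s2])
  have e3 := up (t1 := (-68 / 1000)) (t2 := (-67 / 1000)) (x := h0 - 1) (by norm_num)
    (by linarith only [R.h1]) (by linarith only [R.h2])
  have e4 := up (t1 := (577 / 1000)) (t2 := (578 / 1000)) (x := h0) (by norm_num)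
    (by linarith only [R.h1]) (by linarith only [R.h2])
  have e5 := up (t1 := (310 / 1000)) (t2 := (385 / 1000)) (x := s - u) (by norm_num)
    (by linarith only [s1, u2]) (by linarith only [s2, u1])
  have e6 := up (t1 := (333 / 1000)) (t2 := (385 / 1000)) (x := s) (by norm_num)
    (by linarith only [s1]) (by linarith only [s2])
  have e7 := R.lo1 (-17 / 1000) (by norm_num)
  have e8 := R.lo7 (228 / 1000) (by norm_num)
  have e9 := R.lo8 (-51 / 1000) (by norm_num)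
  have e10 := R.lo3 (32 / 1000) (by norm_num)
  have e11 := up (t1 := (496 / 1000)) (t2 := (537 / 1000)) (x := h0 - b / 2 - k) (by norm_num)
    (by linarith only [R.k2, R.h1, b2, e1]) (by linarith only [R.k1, R.h2, b1, e10])
  have e12 := R.lo18 (377 / 1000) (by norm_num)
  have e13 := R.lo19 (311 / 1000) (by norm_num)
  have e14 := R.lo20 (310 / 1000) (by norm_num)
  have e15 := R.lo21 (333 / 1000) (by norm_num)
  have e16 := pairLo (m := 7178 / 10000) R.dm21 R.dm20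
    (by linarith only [u1]) (by linarith only [s1, u2, e14, e15])
  have e17 := up (t1 := (265 / 1000)) (t2 := (360 / 1000)) (x := s - u - b / 2 - k) (by norm_num)
    (by linarith only [R.k2, s1, u2, b2, e1]) (by linarith only [R.k1, s2, u1, b1, e10])
  have e18 := pairUp (m := 8636 / 10000) R.dm20 R.dm19
    (by linarith only [R.k1, b1, e10]) (by linarith only [R.k1, s2, u1, b1, e10, e6, e17, e16])
  have e19 := up (t1 := (577 / 1000)) (t2 := (627 / 1000)) (x := h0 + u) (by norm_num)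
    (by linarith only [R.h1, u1]) (by linarith only [R.h2, u2])
  have e20 := pairUp (m := 18873 / 10000) R.dm12 R.dm17
    (by linarith only [u1]) (by linarith only [R.h2, u2, e19, e4])
  left
  unfold fa_h1_hH_hh_Tv
  linarith only [R.k2, R.h2, b1, e1, e2, e3, e4, e5, e6, e7, e8, e9, e11, e12, e13, e16, e18, e20]

theorem ba34 {s u b k : ℝ} (R : RegA s u b k)
    (s1 : 3 / 5 ≤ s) (s2 : s ≤ 67 / 100) (u1 : 0 ≤ u) (u2 : u ≤ 17 / 500)
    (b1 : 1 / 8 ≤ b) (b2 : b ≤ 1 / 4) :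
    0 ≤ fa_h1_hH_hh_Tv s u b k ∨ (h0 + u + b / 2 + k ≤ 1 ∧ 0 ≤ fa_h1_hH_hh_HH s u b k) ∨ 0 ≤ fa_h1_hH_hh_o s u b k ∨ (u + b / 2 + k ≤ 0 ∧ 0 ≤ fa_hs_v2_hh_vy s u b k) ∨ (h0 + u + b / 2 + k ≤ 1 ∧ 0 ≤ fa_hs_h2_hh_Hy s u b k) ∨ (h0 + u + b / 2 + k ≤ 1 ∧ 0 ≤ fa_h1_hH_hh_Hy s u b k) := by
  have e1 := up (t1 := (62 / 1000)) (t2 := (128 / 1000)) (x := b) (by norm_num)
    (by linarith only [b1]) (by linarith only [b2])
  have e2 := up (t1 := (247 / 1000)) (t2 := (291 / 1000)) (x := h0 + s - 1) (by norm_num)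
    (by linarith only [R.h1, s1]) (by linarith only [R.h2, s2])
  have e3 := up (t1 := (-68 / 1000)) (t2 := (-67 / 1000)) (x := h0 - 1) (by norm_num)
    (by linarith only [R.h1]) (by linarith only [R.h2])
  have e4 := up (t1 := (577 / 1000)) (t2 := (578 / 1000)) (x := h0) (by norm_num)
    (by linarith only [R.h1]) (by linarith only [R.h2])
  have e5 := up (t1 := (310 / 1000)) (t2 := (385 / 1000)) (x := s - u) (by norm_num)
    (by linarith only [s1, u2]) (by linarith only [s2, u1])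
  have e6 := up (t1 := (333 / 1000)) (t2 := (385 / 1000)) (x := s) (by norm_num)
    (by linarith only [s1]) (by linarith only [s2])
  have e7 := R.lo1 (-35 / 1000) (by norm_num)
  have e8 := R.lo7 (194 / 1000) (by norm_num)
  have e9 := R.lo8 (-32 / 1000) (by norm_num)
  have e10 := R.lo3 (63 / 1000) (by norm_num)
  have e11 := up (t1 := (419 / 1000)) (t2 := (497 / 1000)) (x := h0 - b / 2 - k) (by norm_num)
    (by linarith only [R.k2, R.h1, b2, e1]) (by linarith only [R.k1, R.h2, b1, e10])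
  have e12 := R.lo18 (404 / 1000) (by norm_num)
  have e13 := R.lo18 (349 / 1000) (by norm_num)
  have e14 := R.lo19 (272 / 1000) (by norm_num)
  have e15 := R.lo20 (310 / 1000) (by norm_num)
  have e16 := R.lo21 (333 / 1000) (by norm_num)
  have e17 := pairLo (m := 7178 / 10000) R.dm21 R.dm20
    (by linarith only [u1]) (by linarith only [s1, u2, e15, e16])
  have e18 := up (t1 := (577 / 1000)) (t2 := (627 / 1000)) (x := h0 + u) (by norm_num)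
    (by linarith only [R.h1, u1]) (by linarith only [R.h2, u2])
  have e19 := pairUp (m := 18873 / 10000) R.dm12 R.dm17
    (by linarith only [u1]) (by linarith only [R.h2, u2, e18, e4])
  left
  unfold fa_h1_hH_hh_Tv
  linarith only [R.k2, R.h2, b1, e1, e2, e3, e4, e5, e6, e7, e8, e9, e11, e12, e13, e14, e17, e19]

theorem ba35 {s u b k : ℝ} (R : RegA s u b k)
    (s1 : 3 / 5 ≤ s) (s2 : s ≤ 67 / 100) (u1 : 17 / 500 ≤ u) (u2 : u ≤ 1699 / 25000)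
    (b1 : 0 ≤ b) (b2 : b ≤ 1 / 4) :
    0 ≤ fa_h1_hH_hh_Tv s u b k ∨ (h0 + u + b / 2 + k ≤ 1 ∧ 0 ≤ fa_h1_hH_hh_HH s u b k) ∨ 0 ≤ fa_h1_hH_hh_o s u b k ∨ (u + b / 2 + k ≤ 0 ∧ 0 ≤ fa_hs_v2_hh_vy s u b k) ∨ (h0 + u + b / 2 + k ≤ 1 ∧ 0 ≤ fa_hs_h2_hh_Hy s u b k) ∨ (h0 + u + b / 2 + k ≤ 1 ∧ 0 ≤ fa_h1_hH_hh_Hy s u b k) := by
  have e1 := up (t1 := (0 / 1000)) (t2 := (128 / 1000)) (x := b) (by norm_num)
    (by linarith only [b1]) (by linarith only [b2])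
  have e2 := up (t1 := (247 / 1000)) (t2 := (291 / 1000)) (x := h0 + s - 1) (by norm_num)
    (by linarith only [R.h1, s1]) (by linarith only [R.h2, s2])
  have e3 := up (t1 := (-68 / 1000)) (t2 := (-67 / 1000)) (x := h0 - 1) (by norm_num)
    (by linarith only [R.h1]) (by linarith only [R.h2])
  have e4 := up (t1 := (288 / 1000)) (t2 := (359 / 1000)) (x := s - u) (by norm_num)
    (by linarith only [R.h1, R.u3, s1]) (by linarith only [s2, u1])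
  have e5 := R.lo21 (358 / 1000) (by norm_num)
  have e6 := R.lo7 (194 / 1000) (by norm_num)
  have e7 := R.lo8 (-3 / 1000) (by norm_num)
  have e8 := R.lo8 (43 / 1000) (by norm_num)
  have e9 := R.lo18 (357 / 1000) (by norm_num)
  have e10 := R.lo19 (273 / 1000) (by norm_num)
  have e11 := R.lo20 (288 / 1000) (by norm_num)
  have e12 := R.lo21 (333 / 1000) (by norm_num)
  have e13 := pairLo (m := 6874 / 10000) R.dm21 R.dm20
    (by linarith only [u1]) (by linarith only [R.h1, R.u3, s1, e11, e12])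
  right
  right
  left
  unfold fa_h1_hH_hh_o
  linarith only [R.k2, R.h1, u1, e1, e2, e3, e4, e5, e6, e7, e8, e9, e10, e13]

theorem ba36 {s u b k : ℝ} (R : RegA s u b k)
    (s1 : 3 / 5 ≤ s) (s2 : s ≤ 67 / 100) (u1 : 0 ≤ u) (u2 : u ≤ 1699 / 25000)
    (b1 : 1 / 4 ≤ b) (b2 : b ≤ 1 / 2) :
    0 ≤ fa_h1_hH_hh_Tv s u b k ∨ (h0 + u + b / 2 + k ≤ 1 ∧ 0 ≤ fa_h1_hH_hh_HH s u b k) ∨ 0 ≤ fa_h1_hH_hh_o s u b k ∨ (u + b / 2 + k ≤ 0 ∧ 0 ≤ fa_hs_v2_hh_vy s u b k) ∨ (h0 + u + b / 2 + k ≤ 1 ∧ 0 ≤ fa_hs_h2_hh_Hy s u b k) ∨ (h0 + u + b / 2 + k ≤ 1 ∧ 0 ≤ fa_h1_hH_hh_Hy s u b k) := by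
  have e1 := up (t1 := (127 / 1000)) (t2 := (268 / 1000)) (x := b) (by norm_num)
    (by linarith only [b1]) (by linarith only [b2])
  have e2 := up (t1 := (247 / 1000)) (t2 := (291 / 1000)) (x := h0 + s - 1) (by norm_num)
    (by linarith only [R.h1, s1]) (by linarith only [R.h2, s2])
  have e3 := up (t1 := (-68 / 1000)) (t2 := (-67 / 1000)) (x := h0 - 1) (by norm_num)
    (by linarith only [R.h1]) (by linarith only [R.h2])
  have e4 := up (t1 := (577 / 1000)) (t2 := (578 / 1000)) (x := h0) (by norm_num)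
    (by linarith only [R.h1]) (by linarith only [R.h2])
  have e5 := up (t1 := (333 / 1000)) (t2 := (385 / 1000)) (x := s) (by norm_num)
    (by linarith only [s1]) (by linarith only [s2])
  have e6 := R.lo1 (-150 / 1000) (by norm_num)
  have e7 := R.lo7 (105 / 1000) (by norm_num)
  have e8 := R.lo8 (80 / 1000) (by norm_num)
  have e9 := R.lo8 (154 / 1000) (by norm_num)
  have e10 := R.lo3 (127 / 1000) (by norm_num)
  have e11 := up (t1 := (267 / 1000)) (t2 := (420 / 1000)) (x := h0 - b / 2 - k) (by norm_num)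
    (by linarith only [R.k2, R.h1, b2, e1]) (by linarith only [R.k1, R.h2, b1, e10])
  have e12 := R.lo18 (422 / 1000) (by norm_num)
  have e13 := R.lo18 (504 / 1000) (by norm_num)
  have e14 := R.lo19 (176 / 1000) (by norm_num)
  have e15 := R.lo20 (288 / 1000) (by norm_num)
  have e16 := R.lo21 (333 / 1000) (by norm_num)
  have e17 := pairLo (m := 6874 / 10000) R.dm21 R.dm20
    (by linarith only [u1]) (by linarith only [R.h1, R.u3, s1, e15, e16])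
  have e18 := up (t1 := (577 / 1000)) (t2 := (689 / 1000)) (x := h0 + u) (by norm_num)
    (by linarith only [R.h1, u1]) (by linarith only [R.u3, u2])
  have e19 := pairUp (m := 21001 / 10000) R.dm12 R.dm17
    (by linarith only [u1]) (by linarith only [R.u3, u2, e18, e4])
  have e20 := R.lo17 (577 / 1000) (by norm_num)
  have e21 := R.lo14 (268 / 1000) (by norm_num)
  have e22 := pairLo (m := 9999 / 10000) R.dm17 R.dm14
    (by linarith only [R.k1, b1, e10]) (by linarith only [R.k2, R.h1, b2, e1, e20, e21])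
  left
  unfold fa_h1_hH_hh_Tv
  linarith only [R.k2, R.h2, e1, e2, e3, e4, e5, e6, e7, e8, e9, e11, e12, e13, e14, e17, e19, e22]

theorem ba30 {s u b k : ℝ} (R : RegA s u b k)
    (s1 : 3 / 5 ≤ s) (s2 : s ≤ 67 / 100) (u1 : 0 ≤ u) (u2 : u ≤ 17 / 500)
    (b1 : 0 ≤ b) (b2 : b ≤ 63 / 1000) :
    0 ≤ fa_h1_hH_hh_Tv s u b k ∨ (h0 + u + b / 2 + k ≤ 1 ∧ 0 ≤ fa_h1_hH_hh_HH s u b k) ∨ 0 ≤ fa_h1_hH_hh_o s u b k ∨ (u + b / 2 + k ≤ 0 ∧ 0 ≤ fa_hs_v2_hh_vy s u b k) ∨ (h0 + u + b / 2 + k ≤ 1 ∧ 0 ≤ fa_hs_h2_hh_Hy s u b k) ∨ (h0 + u + b / 2 + k ≤ 1 ∧ 0 ≤ fa_h1_hH_hh_Hy s u b k) := by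
  rcases le_total s (127 / 200) with h | h
  · exact ba31 R s1 h u1 u2 b1 b2
  · exact ba32 R h s2 u1 u2 b1 b2

theorem ba29 {s u b k : ℝ} (R : RegA s u b k)
    (s1 : 3 / 5 ≤ s) (s2 : s ≤ 67 / 100) (u1 : 0 ≤ u) (u2 : u ≤ 17 / 500)
    (b1 : 0 ≤ b) (b2 : b ≤ 1 / 8) :
    0 ≤ fa_h1_hH_hh_Tv s u b k ∨ (h0 + u + b / 2 + k ≤ 1 ∧ 0 ≤ fa_h1_hH_hh_HH s u b k) ∨ 0 ≤ fa_h1_hH_hh_o s u b k ∨ (u + b / 2 + k ≤ 0 ∧ 0 ≤ fa_hs_v2_hh_vy s u b k) ∨ (h0 + u + b / 2 + k ≤ 1 ∧ 0 ≤ fa_hs_h2_hh_Hy s u b k) ∨ (h0 + u + b / 2 + k ≤ 1 ∧ 0 ≤ fa_h1_hH_hh_Hy s u b k) := by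
  rcases le_total b (63 / 1000) with h | h
  · exact ba30 R s1 s2 u1 u2 b1 h
  · exact ba33 R s1 s2 u1 u2 h b2

theorem ba28 {s u b k : ℝ} (R : RegA s u b k)
    (s1 : 3 / 5 ≤ s) (s2 : s ≤ 67 / 100) (u1 : 0 ≤ u) (u2 : u ≤ 17 / 500)
    (b1 : 0 ≤ b) (b2 : b ≤ 1 / 4) :
    0 ≤ fa_h1_hH_hh_Tv s u b k ∨ (h0 + u + b / 2 + k ≤ 1 ∧ 0 ≤ fa_h1_hH_hh_HH s u b k) ∨ 0 ≤ fa_h1_hH_hh_o s u b k ∨ (u + b / 2 + k ≤ 0 ∧ 0 ≤ fa_hs_v2_hh_vy s u b k) ∨ (h0 + u + b / 2 + k ≤ 1 ∧ 0 ≤ fa_hs_h2_hh_Hy s u b k) ∨ (h0 + u + b / 2 + k ≤ 1 ∧ 0 ≤ fa_h1_hH_hh_Hy s u b k) := by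
  rcases le_total b (1 / 8) with h | h
  · exact ba29 R s1 s2 u1 u2 b1 h
  · exact ba34 R s1 s2 u1 u2 h b2

theorem ba27 {s u b k : ℝ} (R : RegA s u b k)
    (s1 : 3 / 5 ≤ s) (s2 : s ≤ 67 / 100) (u1 : 0 ≤ u) (u2 : u ≤ 1699 / 25000)
    (b1 : 0 ≤ b) (b2 : b ≤ 1 / 4) :
    0 ≤ fa_h1_hH_hh_Tv s u b k ∨ (h0 + u + b / 2 + k ≤ 1 ∧ 0 ≤ fa_h1_hH_hh_HH s u b k) ∨ 0 ≤ fa_h1_hH_hh_o s u b k ∨ (u + b / 2 + k ≤ 0 ∧ 0 ≤ fa_hs_v2_hh_vy s u b k) ∨ (h0 + u + b / 2 + k ≤ 1 ∧ 0 ≤ fa_hs_h2_hh_Hy s u b k) ∨ (h0 + u + b / 2 + k ≤ 1 ∧ 0 ≤ fa_h1_hH_hh_Hy s u b k) := by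
  rcases le_total u (17 / 500) with h | h
  · exact ba28 R s1 s2 u1 h b1 b2
  · exact ba35 R s1 s2 h u2 b1 b2

theorem ba26 {s u b k : ℝ} (R : RegA s u b k)
    (s1 : 3 / 5 ≤ s) (s2 : s ≤ 67 / 100) (u1 : 0 ≤ u) (u2 : u ≤ 1699 / 25000)
    (b1 : 0 ≤ b) (b2 : b ≤ 1 / 2) :
    0 ≤ fa_h1_hH_hh_Tv s u b k ∨ (h0 + u + b / 2 + k ≤ 1 ∧ 0 ≤ fa_h1_hH_hh_HH s u b k) ∨ 0 ≤ fa_h1_hH_hh_o s u b k ∨ (u + b / 2 + k ≤ 0 ∧ 0 ≤ fa_hs_v2_hh_vy s u b k) ∨ (h0 + u + b / 2 + k ≤ 1 ∧ 0 ≤ fa_hs_h2_hh_Hy s u b k) ∨ (h0 + u + b / 2 + k ≤ 1 ∧ 0 ≤ fa_h1_hH_hh_Hy s u b k) := by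
  rcases le_total b (1 / 4) with h | h
  · exact ba27 R s1 s2 u1 u2 b1 h
  · exact ba36 R s1 s2 u1 u2 h b2

theorem ba23 {s u b k : ℝ} (R : RegA s u b k)
    (s1 : 3 / 5 ≤ s) (s2 : s ≤ 67 / 100) (u1 : 17 / 500 ≤ u) (u2 : u ≤ 1699 / 25000)
    (b1 : -1 / 8 ≤ b) (b2 : b ≤ 0) :
    0 ≤ fa_h1_hH_hh_Tv s u b k ∨ (h0 + u + b / 2 + k ≤ 1 ∧ 0 ≤ fa_h1_hH_hh_HH s u b k) ∨ 0 ≤ fa_h1_hH_hh_o s u b k ∨ (u + b / 2 + k ≤ 0 ∧ 0 ≤ fa_hs_v2_hh_vy s u b k) ∨ (h0 + u + b / 2 + k ≤ 1 ∧ 0 ≤ fa_hs_h2_hh_Hy s u b k) ∨ (h0 + u + b / 2 + k ≤ 1 ∧ 0 ≤ fa_h1_hH_hh_Hy s u b k) := by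
  rcases le_total b (-63 / 1000) with h | h
  · exact ba24 R s1 s2 u1 u2 b1 h
  · exact ba25 R s1 s2 u1 u2 h b2

theorem ba20 {s u b k : ℝ} (R : RegA s u b k)
    (s1 : 3 / 5 ≤ s) (s2 : s ≤ 67 / 100) (u1 : 0 ≤ u) (u2 : u ≤ 17 / 500)
    (b1 : -2 / 125 ≤ b) (b2 : b ≤ 0) :
    0 ≤ fa_h1_hH_hh_Tv s u b k ∨ (h0 + u + b / 2 + k ≤ 1 ∧ 0 ≤ fa_h1_hH_hh_HH s u b k) ∨ 0 ≤ fa_h1_hH_hh_o s u b k ∨ (u + b / 2 + k ≤ 0 ∧ 0 ≤ fa_hs_v2_hh_vy s u b k) ∨ (h0 + u + b / 2 + k ≤ 1 ∧ 0 ≤ fa_hs_h2_hh_Hy s u b k) ∨ (h0 + u + b / 2 + k ≤ 1 ∧ 0 ≤ fa_h1_hH_hh_Hy s u b k) := by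
  rcases le_total s (127 / 200) with h | h
  · exact ba21 R s1 h u1 u2 b1 b2
  · exact ba22 R h s2 u1 u2 b1 b2

theorem ba18 {s u b k : ℝ} (R : RegA s u b k)
    (s1 : 3 / 5 ≤ s) (s2 : s ≤ 67 / 100) (u1 : 0 ≤ u) (u2 : u ≤ 17 / 500)
    (b1 : -31 / 1000 ≤ b) (b2 : b ≤ 0) :
    0 ≤ fa_h1_hH_hh_Tv s u b k ∨ (h0 + u + b / 2 + k ≤ 1 ∧ 0 ≤ fa_h1_hH_hh_HH s u b k) ∨ 0 ≤ fa_h1_hH_hh_o s u b k ∨ (u + b / 2 + k ≤ 0 ∧ 0 ≤ fa_hs_v2_hh_vy s u b k) ∨ (h0 + u + b / 2 + k ≤ 1 ∧ 0 ≤ fa_hs_h2_hh_Hy s u b k) ∨ (h0 + u + b / 2 + k ≤ 1 ∧ 0 ≤ fa_h1_hH_hh_Hy s u b k) := by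
  rcases le_total b (-2 / 125) with h | h
  · exact ba19 R s1 s2 u1 u2 b1 h
  · exact ba20 R s1 s2 u1 u2 h b2

theorem ba16 {s u b k : ℝ} (R : RegA s u b k)
    (s1 : 3 / 5 ≤ s) (s2 : s ≤ 67 / 100) (u1 : 0 ≤ u) (u2 : u ≤ 17 / 500)
    (b1 : -63 / 1000 ≤ b) (b2 : b ≤ 0) :
    0 ≤ fa_h1_hH_hh_Tv s u b k ∨ (h0 + u + b / 2 + k ≤ 1 ∧ 0 ≤ fa_h1_hH_hh_HH s u b k) ∨ 0 ≤ fa_h1_hH_hh_o s u b k ∨ (u + b / 2 + k ≤ 0 ∧ 0 ≤ fa_hs_v2_hh_vy s u b k) ∨ (h0 + u + b / 2 + k ≤ 1 ∧ 0 ≤ fa_hs_h2_hh_Hy s u b k) ∨ (h0 + u + b / 2 + k ≤ 1 ∧ 0 ≤ fa_h1_hH_hh_Hy s u b k) := by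
  rcases le_total b (-31 / 1000) with h | h
  · exact ba17 R s1 s2 u1 u2 b1 h
  · exact ba18 R s1 s2 u1 u2 h b2

theorem ba13 {s u b k : ℝ} (R : RegA s u b k)
    (s1 : 3 / 5 ≤ s) (s2 : s ≤ 67 / 100) (u1 : 0 ≤ u) (u2 : u ≤ 17 / 500)
    (b1 : -1 / 8 ≤ b) (b2 : b ≤ -63 / 1000) :
    0 ≤ fa_h1_hH_hh_Tv s u b k ∨ (h0 + u + b / 2 + k ≤ 1 ∧ 0 ≤ fa_h1_hH_hh_HH s u b k) ∨ 0 ≤ fa_h1_hH_hh_o s u b k ∨ (u + b / 2 + k ≤ 0 ∧ 0 ≤ fa_hs_v2_hh_vy s u b k) ∨ (h0 + u + b / 2 + k ≤ 1 ∧ 0 ≤ fa_hs_h2_hh_Hy s u b k) ∨ (h0 + u + b / 2 + k ≤ 1 ∧ 0 ≤ fa_h1_hH_hh_Hy s u b k) := by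
  rcases le_total s (127 / 200) with h | h
  · exact ba14 R s1 h u1 u2 b1 b2
  · exact ba15 R h s2 u1 u2 b1 b2

theorem ba12 {s u b k : ℝ} (R : RegA s u b k)
    (s1 : 3 / 5 ≤ s) (s2 : s ≤ 67 / 100) (u1 : 0 ≤ u) (u2 : u ≤ 17 / 500)
    (b1 : -1 / 8 ≤ b) (b2 : b ≤ 0) :
    0 ≤ fa_h1_hH_hh_Tv s u b k ∨ (h0 + u + b / 2 + k ≤ 1 ∧ 0 ≤ fa_h1_hH_hh_HH s u b k) ∨ 0 ≤ fa_h1_hH_hh_o s u b k ∨ (u + b / 2 + k ≤ 0 ∧ 0 ≤ fa_hs_v2_hh_vy s u b k) ∨ (h0 + u + b / 2 + k ≤ 1 ∧ 0 ≤ fa_hs_h2_hh_Hy s u b k) ∨ (h0 + u + b / 2 + k ≤ 1 ∧ 0 ≤ fa_h1_hH_hh_Hy s u b k) := by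
  rcases le_total b (-63 / 1000) with h | h
  · exact ba13 R s1 s2 u1 u2 b1 h
  · exact ba16 R s1 s2 u1 u2 h b2

theorem ba11 {s u b k : ℝ} (R : RegA s u b k)
    (s1 : 3 / 5 ≤ s) (s2 : s ≤ 67 / 100) (u1 : 0 ≤ u) (u2 : u ≤ 1699 / 25000)
    (b1 : -1 / 8 ≤ b) (b2 : b ≤ 0) :
    0 ≤ fa_h1_hH_hh_Tv s u b k ∨ (h0 + u + b / 2 + k ≤ 1 ∧ 0 ≤ fa_h1_hH_hh_HH s u b k) ∨ 0 ≤ fa_h1_hH_hh_o s u b k ∨ (u + b / 2 + k ≤ 0 ∧ 0 ≤ fa_hs_v2_hh_vy s u b k) ∨ (h0 + u + b / 2 + k ≤ 1 ∧ 0 ≤ fa_hs_h2_hh_Hy s u b k) ∨ (h0 + u + b / 2 + k ≤ 1 ∧ 0 ≤ fa_h1_hH_hh_Hy s u b k) := by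
  rcases le_total u (17 / 500) with h | h
  · exact ba12 R s1 s2 u1 h b1 b2
  · exact ba23 R s1 s2 h u2 b1 b2

theorem ba8 {s u b k : ℝ} (R : RegA s u b k)
    (s1 : 3 / 5 ≤ s) (s2 : s ≤ 67 / 100) (u1 : 17 / 500 ≤ u) (u2 : u ≤ 1699 / 25000)
    (b1 : -47 / 250 ≤ b) (b2 : b ≤ -1 / 8) :
    0 ≤ fa_h1_hH_hh_Tv s u b k ∨ (h0 + u + b / 2 + k ≤ 1 ∧ 0 ≤ fa_h1_hH_hh_HH s u b k) ∨ 0 ≤ fa_h1_hH_hh_o s u b k ∨ (u + b / 2 + k ≤ 0 ∧ 0 ≤ fa_hs_v2_hh_vy s u b k) ∨ (h0 + u + b / 2 + k ≤ 1 ∧ 0 ≤ fa_hs_h2_hh_Hy s u b k) ∨ (h0 + u + b / 2 + k ≤ 1 ∧ 0 ≤ fa_h1_hH_hh_Hy s u b k) := by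
  rcases le_total s (127 / 200) with h | h
  · exact ba9 R s1 h u1 u2 b1 b2
  · exact ba10 R h s2 u1 u2 b1 b2

theorem ba6 {s u b k : ℝ} (R : RegA s u b k)
    (s1 : 3 / 5 ≤ s) (s2 : s ≤ 67 / 100) (u1 : 17 / 500 ≤ u) (u2 : u ≤ 1699 / 25000)
    (b1 : -1 / 4 ≤ b) (b2 : b ≤ -1 / 8) :
    0 ≤ fa_h1_hH_hh_Tv s u b k ∨ (h0 + u + b / 2 + k ≤ 1 ∧ 0 ≤ fa_h1_hH_hh_HH s u b k) ∨ 0 ≤ fa_h1_hH_hh_o s u b k ∨ (u + b / 2 + k ≤ 0 ∧ 0 ≤ fa_hs_v2_hh_vy s u b k) ∨ (h0 + u + b / 2 + k ≤ 1 ∧ 0 ≤ fa_hs_h2_hh_Hy s u b k) ∨ (h0 + u + b / 2 + k ≤ 1 ∧ 0 ≤ fa_h1_hH_hh_Hy s u b k) := by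
  rcases le_total b (-47 / 250) with h | h
  · exact ba7 R s1 s2 u1 u2 b1 h
  · exact ba8 R s1 s2 u1 u2 h b2

theorem ba4 {s u b k : ℝ} (R : RegA s u b k)
    (s1 : 3 / 5 ≤ s) (s2 : s ≤ 67 / 100) (u1 : 0 ≤ u) (u2 : u ≤ 1699 / 25000)
    (b1 : -1 / 4 ≤ b) (b2 : b ≤ -1 / 8) :
    0 ≤ fa_h1_hH_hh_Tv s u b k ∨ (h0 + u + b / 2 + k ≤ 1 ∧ 0 ≤ fa_h1_hH_hh_HH s u b k) ∨ 0 ≤ fa_h1_hH_hh_o s u b k ∨ (u + b / 2 + k ≤ 0 ∧ 0 ≤ fa_hs_v2_hh_vy s u b k) ∨ (h0 + u + b / 2 + k ≤ 1 ∧ 0 ≤ fa_hs_h2_hh_Hy s u b k) ∨ (h0 + u + b / 2 + k ≤ 1 ∧ 0 ≤ fa_h1_hH_hh_Hy s u b k) := by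
  rcases le_total u (17 / 500) with h | h
  · exact ba5 R s1 s2 u1 h b1 b2
  · exact ba6 R s1 s2 h u2 b1 b2

theorem ba3 {s u b k : ℝ} (R : RegA s u b k)
    (s1 : 3 / 5 ≤ s) (s2 : s ≤ 67 / 100) (u1 : 0 ≤ u) (u2 : u ≤ 1699 / 25000)
    (b1 : -1 / 4 ≤ b) (b2 : b ≤ 0) :
    0 ≤ fa_h1_hH_hh_Tv s u b k ∨ (h0 + u + b / 2 + k ≤ 1 ∧ 0 ≤ fa_h1_hH_hh_HH s u b k) ∨ 0 ≤ fa_h1_hH_hh_o s u b k ∨ (u + b / 2 + k ≤ 0 ∧ 0 ≤ fa_hs_v2_hh_vy s u b k) ∨ (h0 + u + b / 2 + k ≤ 1 ∧ 0 ≤ fa_hs_h2_hh_Hy s u b k) ∨ (h0 + u + b / 2 + k ≤ 1 ∧ 0 ≤ fa_h1_hH_hh_Hy s u b k) := by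
  rcases le_total b (-1 / 8) with h | h
  · exact ba4 R s1 s2 u1 u2 b1 h
  · exact ba11 R s1 s2 u1 u2 h b2

theorem ba1 {s u b k : ℝ} (R : RegA s u b k)
    (s1 : 3 / 5 ≤ s) (s2 : s ≤ 67 / 100) (u1 : 0 ≤ u) (u2 : u ≤ 1699 / 25000)
    (b1 : -1 / 2 ≤ b) (b2 : b ≤ 0) :
    0 ≤ fa_h1_hH_hh_Tv s u b k ∨ (h0 + u + b / 2 + k ≤ 1 ∧ 0 ≤ fa_h1_hH_hh_HH s u b k) ∨ 0 ≤ fa_h1_hH_hh_o s u b k ∨ (u + b / 2 + k ≤ 0 ∧ 0 ≤ fa_hs_v2_hh_vy s u b k) ∨ (h0 + u + b / 2 + k ≤ 1 ∧ 0 ≤ fa_hs_h2_hh_Hy s u b k) ∨ (h0 + u + b / 2 + k ≤ 1 ∧ 0 ≤ fa_h1_hH_hh_Hy s u b k) := by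
  rcases le_total b (-1 / 4) with h | h
  · exact ba2 R s1 s2 u1 u2 b1 h
  · exact ba3 R s1 s2 u1 u2 h b2

theorem ba0 {s u b k : ℝ} (R : RegA s u b k)
    (s1 : 3 / 5 ≤ s) (s2 : s ≤ 67 / 100) (u1 : 0 ≤ u) (u2 : u ≤ 1699 / 25000)
    (b1 : -1 / 2 ≤ b) (b2 : b ≤ 1 / 2) :
    0 ≤ fa_h1_hH_hh_Tv s u b k ∨ (h0 + u + b / 2 + k ≤ 1 ∧ 0 ≤ fa_h1_hH_hh_HH s u b k) ∨ 0 ≤ fa_h1_hH_hh_o s u b k ∨ (u + b / 2 + k ≤ 0 ∧ 0 ≤ fa_hs_v2_hh_vy s u b k) ∨ (h0 + u + b / 2 + k ≤ 1 ∧ 0 ≤ fa_hs_h2_hh_Hy s u b k) ∨ (h0 + u + b / 2 + k ≤ 1 ∧ 0 ≤ fa_h1_hH_hh_Hy s u b k) := by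
  rcases le_total b (0) with h | h
  · exact ba1 R s1 s2 u1 u2 b1 h
  · exact ba26 R s1 s2 u1 u2 h b2

end Pool.Agent.Strip051.FourF
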