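import Pool.Agent.Strip051.FourF.Pair

/-! # The new point between e and s, part 2 -/

namespace Pool.Agent.Strip051.FourF

set_option linter.unusedVariables false

open Pool.Agent.StripNear Pool.Agent.StripSquare Pool.Agent.Strip051
open Pool.Agent.Strip051.Four.Low (ph)
open Pool.Agent.Strip051.FourB (lo up)

/-- The function of the boxes `bb`. -/
noncomputable def fb_h1_hH_hh_Tv (s u b k : ℝ) : ℝ :=
  4 * ph s + 3 * ph (s + b / 2 - u - k) + ph (h0 + s - u - b / 2 - k - 1) + ph (h0 + u + b / 2 + k - 1) + ph (s - u - b / 2 - k) + ph (-u - b / 2 - k) - 8 * ph (s - u) - 3 * ph b - 3 * ph (h0 - 1) - ph (h0 + s - 1) - ph (h0 + u) - ph (h0 - b / 2 - k) + 1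

/-- The function of the boxes `bb`. -/
noncomputable def fb_h1_hH_hh_HH (s u b k : ℝ) : ℝ :=
  4 * ph s + 3 * ph (s + b / 2 - u - k) + ph (h0 + s - u - b / 2 - k - 1) + 2 * ph (h0 + u + b / 2 + k - 1) + ph (s - u - b / 2 - k) + ph (h0 + u + k - b / 2 - 1) - 8 * ph (s - u) - 4 * ph b - 3 * ph (h0 - 1) - ph (h0 + s - 1)

/-- The function of the boxes `bb`. -/
noncomputable def fb_h1_hH_hh_o (s u b k : ℝ) : ℝ :=
  4 * ph s + 3 * ph (s + b / 2 - u - k) + ph (h0 + s - u - b / 2 - k - 1) + ph (h0 + u + b / 2 + k - 1) + ph (s - u - b / 2 - k) - 8 * ph (s - u) - 3 * ph b - 3 * ph (h0 - 1) - ph (h0 + s - 1)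

/-- The function of the boxes `bb`. -/
noncomputable def fb_h1_o_hh_o (s u b k : ℝ) : ℝ :=
  4 * ph s + 2 * ph (s + b / 2 - u - k) + ph (h0 + s - u - b / 2 - k - 1) + ph (s - u - b / 2 - k) - 8 * ph (s - u) - 2 * ph b - 3 * ph (h0 - 1)

/-- The function of the boxes `bb`. -/
noncomputable def fb_hs_v2_hh_vl (s u b k : ℝ) : ℝ :=
  4 * ph s + 2 * ph (s + b / 2 - u - k) + ph (h0 - u - b / 2 - k) + ph (h0 + s - 1) + 2 * ph (b / 2 - u - k) + ph (h0 + u + b / 2 + k - s - 1) + ph (s - u - b / 2 - k) + ph (h0 + u + b / 2 + k - 9 / 5) - 8 * ph (s - u) - 4 * ph b - 3 * ph (h0 - 1) - ph (h0 - s - 1) - ph (h0 - 9 / 5) - 1 / 2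

/-- The function of the boxes `bb`. -/
noncomputable def fb_hs_v2_he_vl (s u b k : ℝ) : ℝ :=
  4 * ph s + 2 * ph (s + b / 2 - u - k) + ph (h0 - u - b / 2 - k) + 2 * ph (h0 + s - 1) + 2 * ph (b / 2 - u - k) + ph (h0 + u + b / 2 + k - s - 1) + ph (h0 + u + b / 2 + k - 9 / 5) - 9 * ph (s - u) - 3 * ph b - 2 * ph (h0 - 1) - ph (h0 - s - 1) - ph (h0 + b / 2 - k) - ph (h0 - 9 / 5) + 2 * s - 281 / 200

/-- The function of the boxes `bb`. -/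
noncomputable def fb_h1_o_he_o (s u b k : ℝ) : ℝ :=
  4 * ph s + 2 * ph (s + b / 2 - u - k) + ph (h0 + s - u - b / 2 - k - 1) + ph (h0 + s - 1) - 9 * ph (s - u) - ph b - 2 * ph (h0 - 1) - ph (h0 + b / 2 - k) + 2 * s - 181 / 200

/-- The function of the boxes `bb`. -/
noncomputable def fb_hs_o_he_o (s u b k : ℝ) : ℝ :=
  4 * ph s + 2 * ph (s + b / 2 - u - k) + ph (h0 - u - b / 2 - k) + 2 * ph (h0 + s - 1) - 9 * ph (s - u) - ph b - 2 * ph (h0 - 1) - ph (h0 + b / 2 - k) + 2 * s - 281 / 200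

/-- The region of the boxes `bb`. -/
structure RegB (s u b k : ℝ) : Prop where
  k1 : 86602 / 100000 * ph b ≤ k
  k2 : k ≤ 86603 / 100000 * ph b
  h1 : 86602 / 100000 ≤ h0
  h2 : h0 ≤ 86603 / 100000
  k3 : 0 ≤ k
  k4 : k ≤ 1161 / 10000
  r4 : h0 - b / 2 - k ≤ 1
  r5 : h0 + b / 2 - k ≤ 1
  u3 : 9 / 5 ≤ 2 * h0 + u
  u4 : h0 + u ≤ 1
  s1 : 3 / 5 ≤ s
  s2 : s ≤ 67 / 100
  u1 : 3397 / 50000 ≤ u
  u2 : u ≤ 67 / 500
  b1 : -1 / 2 ≤ b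
  b2 : b ≤ 1 / 2

theorem RegB.lo1 {s u b k : ℝ} (R : RegB s u b k) (w0 : ℝ) (hw0 : w0 ^ 2 < 1) :
    2 * w0 * (-u - b / 2 - k) - 2 * w0 ^ 2 ≤ (1 - w0 ^ 2) * ph (-u - b / 2 - k) :=
  lo hw0 (by linarith only [R.h1, R.k4, R.u4, R.b2]) (by linarith only [R.r4, R.u3, R.u1])

theorem RegB.lo2 {s u b k : ℝ} (R : RegB s u b k) (w0 : ℝ) (hw0 : w0 ^ 2 < 1) :
    2 * w0 * (b / 2 - u - k) - 2 * w0 ^ 2 ≤ (1 - w0 ^ 2) * ph (b / 2 - u - k) :=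
  lo hw0 (by linarith only [R.h1, R.k4, R.u4, R.b1]) (by linarith only [R.r5, R.u3, R.u1])

theorem RegB.lo3 {s u b k : ℝ} (R : RegB s u b k) (w0 : ℝ) (hw0 : w0 ^ 2 < 1) :
    2 * w0 * (b) - 2 * w0 ^ 2 ≤ (1 - w0 ^ 2) * ph (b) :=
  lo hw0 (by linarith only [R.b1]) (by linarith only [R.b2])

theorem RegB.lo4 {s u b k : ℝ} (R : RegB s u b k) (w0 : ℝ) (hw0 : w0 ^ 2 < 1) :
    2 * w0 * (h0 + b / 2 - k) - 2 * w0 ^ 2 ≤ (1 - w0 ^ 2) * ph (h0 + b / 2 - k) :=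
  lo hw0 (by linarith only [R.h1, R.k4, R.b1]) (by linarith only [R.r5])

theorem RegB.lo5 {s u b k : ℝ} (R : RegB s u b k) (w0 : ℝ) (hw0 : w0 ^ 2 < 1) :
    2 * w0 * (h0 + s + b / 2 - u - k - 1) - 2 * w0 ^ 2 ≤ (1 - w0 ^ 2) * ph (h0 + s + b / 2 - u - k - 1) :=
  lo hw0 (by linarith only [R.h1, R.k4, R.u4, R.s1, R.b1]) (by linarith only [R.r5, R.s2, R.u1])

theorem RegB.lo6 {s u b k : ℝ} (R : RegB s u b k) (w0 : ℝ) (hw0 : w0 ^ 2 < 1) :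
    2 * w0 * (h0 + s - 1) - 2 * w0 ^ 2 ≤ (1 - w0 ^ 2) * ph (h0 + s - 1) :=
  lo hw0 (by linarith only [R.h1, R.s1]) (by linarith only [R.h2, R.s2])

theorem RegB.lo7 {s u b k : ℝ} (R : RegB s u b k) (w0 : ℝ) (hw0 : w0 ^ 2 < 1) :
    2 * w0 * (h0 + s - u - b / 2 - k - 1) - 2 * w0 ^ 2 ≤ (1 - w0 ^ 2) * ph (h0 + s - u - b / 2 - k - 1) :=
  lo hw0 (by linarith only [R.h1, R.k4, R.u4, R.s1, R.b2]) (by linarith only [R.r4, R.s2, R.u1])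

theorem RegB.lo8 {s u b k : ℝ} (R : RegB s u b k) (w0 : ℝ) (hw0 : w0 ^ 2 < 1) :
    2 * w0 * (h0 + u + b / 2 + k - 1) - 2 * w0 ^ 2 ≤ (1 - w0 ^ 2) * ph (h0 + u + b / 2 + k - 1) :=
  lo hw0 (by linarith only [R.r4, R.u3]) (by linarith only [R.k4, R.u4, R.b2])

theorem RegB.lo9 {s u b k : ℝ} (R : RegB s u b k) (w0 : ℝ) (hw0 : w0 ^ 2 < 1) :
    2 * w0 * (h0 + u + b / 2 + k - 9 / 5) - 2 * w0 ^ 2 ≤ (1 - w0 ^ 2) * ph (h0 + u + b / 2 + k - 9 / 5) :=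
  lo hw0 (by linarith only [R.r4, R.u3]) (by linarith only [R.k4, R.u4, R.b2])

theorem RegB.lo10 {s u b k : ℝ} (R : RegB s u b k) (w0 : ℝ) (hw0 : w0 ^ 2 < 1) :
    2 * w0 * (h0 + u + b / 2 + k - s - 1) - 2 * w0 ^ 2 ≤ (1 - w0 ^ 2) * ph (h0 + u + b / 2 + k - s - 1) :=
  lo hw0 (by linarith only [R.r4, R.u3, R.s2]) (by linarith only [R.k4, R.u4, R.s1, R.b2])

theorem RegB.lo11 {s u b k : ℝ} (R : RegB s u b k) (w0 : ℝ) (hw0 : w0 ^ 2 < 1) :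
    2 * w0 * (h0 + u + k - b / 2 - 1) - 2 * w0 ^ 2 ≤ (1 - w0 ^ 2) * ph (h0 + u + k - b / 2 - 1) :=
  lo hw0 (by linarith only [R.r5, R.u3]) (by linarith only [R.k4, R.u4, R.b1])

theorem RegB.lo12 {s u b k : ℝ} (R : RegB s u b k) (w0 : ℝ) (hw0 : w0 ^ 2 < 1) :
    2 * w0 * (h0 + u) - 2 * w0 ^ 2 ≤ (1 - w0 ^ 2) * ph (h0 + u) :=
  lo hw0 (by linarith only [R.u3, R.u1]) (by linarith only [R.u4])

theorem RegB.lo13 {s u b k : ℝ} (R : RegB s u b k) (w0 : ℝ) (hw0 : w0 ^ 2 < 1) :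
    2 * w0 * (h0 - 1) - 2 * w0 ^ 2 ≤ (1 - w0 ^ 2) * ph (h0 - 1) :=
  lo hw0 (by linarith only [R.h1]) (by linarith only [R.h2])

theorem RegB.lo14 {s u b k : ℝ} (R : RegB s u b k) (w0 : ℝ) (hw0 : w0 ^ 2 < 1) :
    2 * w0 * (h0 - 9 / 5) - 2 * w0 ^ 2 ≤ (1 - w0 ^ 2) * ph (h0 - 9 / 5) :=
  lo hw0 (by linarith only [R.h1]) (by linarith only [R.h2])

theorem RegB.lo15 {s u b k : ℝ} (R : RegB s u b k) (w0 : ℝ) (hw0 : w0 ^ 2 < 1) :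
    2 * w0 * (h0 - b / 2 - k) - 2 * w0 ^ 2 ≤ (1 - w0 ^ 2) * ph (h0 - b / 2 - k) :=
  lo hw0 (by linarith only [R.h1, R.k4, R.b2]) (by linarith only [R.r4])

theorem RegB.lo16 {s u b k : ℝ} (R : RegB s u b k) (w0 : ℝ) (hw0 : w0 ^ 2 < 1) :
    2 * w0 * (h0 - s - 1) - 2 * w0 ^ 2 ≤ (1 - w0 ^ 2) * ph (h0 - s - 1) :=
  lo hw0 (by linarith only [R.h1, R.s2]) (by linarith only [R.h2, R.s1])

theorem RegB.lo17 {s u b k : ℝ} (R : RegB s u b k) (w0 : ℝ) (hw0 : w0 ^ 2 < 1) :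
    2 * w0 * (h0 - u - b / 2 - k) - 2 * w0 ^ 2 ≤ (1 - w0 ^ 2) * ph (h0 - u - b / 2 - k) :=
  lo hw0 (by linarith only [R.h1, R.k4, R.u4, R.b2]) (by linarith only [R.r4, R.u1])

theorem RegB.lo18 {s u b k : ℝ} (R : RegB s u b k) (w0 : ℝ) (hw0 : w0 ^ 2 < 1) :
    2 * w0 * (s + b / 2 - u - k) - 2 * w0 ^ 2 ≤ (1 - w0 ^ 2) * ph (s + b / 2 - u - k) :=
  lo hw0 (by linarith only [R.h1, R.k4, R.u4, R.s1, R.b1]) (by linarith only [R.r5, R.u3, R.s2, R.u1])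

theorem RegB.lo19 {s u b k : ℝ} (R : RegB s u b k) (w0 : ℝ) (hw0 : w0 ^ 2 < 1) :
    2 * w0 * (s - u - b / 2 - k) - 2 * w0 ^ 2 ≤ (1 - w0 ^ 2) * ph (s - u - b / 2 - k) :=
  lo hw0 (by linarith only [R.h1, R.k4, R.u4, R.s1, R.b2]) (by linarith only [R.r4, R.u3, R.s2, R.u1])

theorem RegB.lo20 {s u b k : ℝ} (R : RegB s u b k) (w0 : ℝ) (hw0 : w0 ^ 2 < 1) :
    2 * w0 * (s - u) - 2 * w0 ^ 2 ≤ (1 - w0 ^ 2) * ph (s - u) :=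
  lo hw0 (by linarith only [R.h1, R.u4, R.s1]) (by linarith only [R.s2, R.u1])

theorem RegB.lo21 {s u b k : ℝ} (R : RegB s u b k) (w0 : ℝ) (hw0 : w0 ^ 2 < 1) :
    2 * w0 * (s) - 2 * w0 ^ 2 ≤ (1 - w0 ^ 2) * ph (s) :=
  lo hw0 (by linarith only [R.s1]) (by linarith only [R.s2])

theorem bb4 {s u b k : ℝ} (R : RegB s u b k)
    (s1 : 3 / 5 ≤ s) (s2 : s ≤ 67 / 100) (u1 : 3397 / 50000 ≤ u) (u2 : u ≤ 101 / 1000)
    (b1 : -1 / 2 ≤ b) (b2 : b ≤ -3 / 8) :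
    0 ≤ fb_h1_hH_hh_Tv s u b k ∨ (h0 + u + b / 2 + k ≤ 1 ∧ 0 ≤ fb_h1_hH_hh_HH s u b k) ∨ 0 ≤ fb_h1_hH_hh_o s u b k ∨ 0 ≤ fb_h1_o_hh_o s u b k ∨ (u + b / 2 + k ≤ 0 ∧ 0 ≤ fb_hs_v2_hh_vl s u b k) ∨ (u + b / 2 + k ≤ 0 ∧ 0 ≤ fb_hs_v2_he_vl s u b k) ∨ 0 ≤ fb_h1_o_he_o s u b k ∨ 0 ≤ fb_hs_o_he_o s u b k := by
  have e1 := up (t1 := (-268 / 1000)) (t2 := (-194 / 1000)) (x := b) (by norm_num)
    (by linarith only [b1]) (by linarith only [b2])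
  have e2 := R.lo6 (247 / 1000) (by norm_num)
  have e3 := up (t1 := (-68 / 1000)) (t2 := (-67 / 1000)) (x := h0 - 1) (by norm_num)
    (by linarith only [R.h1]) (by linarith only [R.h2])
  have e4 := up (t1 := (-689 / 1000)) (t2 := (-688 / 1000)) (x := h0 - 9 / 5) (by norm_num)
    (by linarith only [R.h1]) (by linarith only [R.h2])
  have e5 := up (t1 := (-505 / 1000)) (t2 := (-437 / 1000)) (x := h0 - s - 1) (by norm_num)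
    (by linarith only [R.h1, s2]) (by linarith only [R.h2, s1])
  have e6 := up (t1 := (267 / 1000)) (t2 := (335 / 1000)) (x := s - u) (by norm_num)
    (by linarith only [s1, u2]) (by linarith only [s2, u1])
  have e7 := R.lo21 (333 / 1000) (by norm_num)
  have e8 := R.lo3 (-195 / 1000) (by norm_num)
  have e9 := up (t1 := (267 / 1000)) (t2 := (345 / 1000)) (x := h0 + b / 2 - k) (by norm_num)
    (by linarith only [R.k2, R.h1, b1, e1]) (by linarith only [R.k1, R.h2, b2, e8])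
  have e10 := R.lo18 (123 / 1000) (by norm_num)
  have e11 := R.lo2 (-198 / 1000) (by norm_num)
  have e12 := R.lo9 (-749 / 1000) (by norm_num)
  have e13 := R.lo10 (-460 / 1000) (by norm_num)
  have e14 := R.lo17 (614 / 1000) (by norm_num)
  have e15 := R.lo18 (111 / 1000) (by norm_num)
  right
  right
  right
  right
  right
  left
  refine ⟨by linarith only [R.k2, u2, b2, e1], ?_⟩
  unfold fb_hs_v2_he_vl
  linarith only [R.k2, R.h1, s1, u2, e1, e2, e3, e4, e5, e6, e7, e9, e10, e11, e12, e13, e14, e15]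

theorem bb6 {s u b k : ℝ} (R : RegB s u b k)
    (s1 : 3 / 5 ≤ s) (s2 : s ≤ 67 / 100) (u1 : 3397 / 50000 ≤ u) (u2 : u ≤ 101 / 1000)
    (b1 : -3 / 8 ≤ b) (b2 : b ≤ -313 / 1000) :
    0 ≤ fb_h1_hH_hh_Tv s u b k ∨ (h0 + u + b / 2 + k ≤ 1 ∧ 0 ≤ fb_h1_hH_hh_HH s u b k) ∨ 0 ≤ fb_h1_hH_hh_o s u b k ∨ 0 ≤ fb_h1_o_hh_o s u b k ∨ (u + b / 2 + k ≤ 0 ∧ 0 ≤ fb_hs_v2_hh_vl s u b k) ∨ (u + b / 2 + k ≤ 0 ∧ 0 ≤ fb_hs_v2_he_vl s u b k) ∨ 0 ≤ fb_h1_o_he_o s u b k ∨ 0 ≤ fb_hs_o_he_o s u b k := by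
  have e1 := up (t1 := (-195 / 1000)) (t2 := (-160 / 1000)) (x := b) (by norm_num)
    (by linarith only [b1]) (by linarith only [b2])
  have e2 := R.lo6 (269 / 1000) (by norm_num)
  have e3 := up (t1 := (-68 / 1000)) (t2 := (-67 / 1000)) (x := h0 - 1) (by norm_num)
    (by linarith only [R.h1]) (by linarith only [R.h2])
  have e4 := up (t1 := (-689 / 1000)) (t2 := (-688 / 1000)) (x := h0 - 9 / 5) (by norm_num)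
    (by linarith only [R.h1]) (by linarith only [R.h2])
  have e5 := up (t1 := (-505 / 1000)) (t2 := (-437 / 1000)) (x := h0 - s - 1) (by norm_num)
    (by linarith only [R.h1, s2]) (by linarith only [R.h2, s1])
  have e6 := up (t1 := (267 / 1000)) (t2 := (335 / 1000)) (x := s - u) (by norm_num)
    (by linarith only [s1, u2]) (by linarith only [s2, u1])
  have e7 := R.lo21 (358 / 1000) (by norm_num)
  have e8 := R.lo2 (-182 / 1000) (by norm_num)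
  have e9 := R.lo9 (-714 / 1000) (by norm_num)
  have e10 := R.lo10 (-503 / 1000) (by norm_num)
  have e11 := R.lo10 (-448 / 1000) (by norm_num)
  have e12 := R.lo17 (594 / 1000) (by norm_num)
  have e13 := R.lo18 (126 / 1000) (by norm_num)
  have e14 := R.lo19 (384 / 1000) (by norm_num)
  right
  right
  right
  right
  left
  refine ⟨by linarith only [R.k2, u2, b2, e1], ?_⟩
  unfold fb_hs_v2_hh_vl
  linarith only [R.k2, R.h1, u2, b1, e1, e2, e3, e4, e5, e6, e7, e8, e9, e10, e11, e12, e13, e14]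

theorem bb8 {s u b k : ℝ} (R : RegB s u b k)
    (s1 : 3 / 5 ≤ s) (s2 : s ≤ 67 / 100) (u1 : 3397 / 50000 ≤ u) (u2 : u ≤ 21 / 250)
    (b1 : -313 / 1000 ≤ b) (b2 : b ≤ -1 / 4) :
    0 ≤ fb_h1_hH_hh_Tv s u b k ∨ (h0 + u + b / 2 + k ≤ 1 ∧ 0 ≤ fb_h1_hH_hh_HH s u b k) ∨ 0 ≤ fb_h1_hH_hh_o s u b k ∨ 0 ≤ fb_h1_o_hh_o s u b k ∨ (u + b / 2 + k ≤ 0 ∧ 0 ≤ fb_hs_v2_hh_vl s u b k) ∨ (u + b / 2 + k ≤ 0 ∧ 0 ≤ fb_hs_v2_he_vl s u b k) ∨ 0 ≤ fb_h1_o_he_o s u b k ∨ 0 ≤ fb_hs_o_he_o s u b k := by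
  have e1 := up (t1 := (-161 / 1000)) (t2 := (-127 / 1000)) (x := b) (by norm_num)
    (by linarith only [b1]) (by linarith only [b2])
  have e2 := R.lo6 (269 / 1000) (by norm_num)
  have e3 := up (t1 := (-68 / 1000)) (t2 := (-67 / 1000)) (x := h0 - 1) (by norm_num)
    (by linarith only [R.h1]) (by linarith only [R.h2])
  have e4 := up (t1 := (-689 / 1000)) (t2 := (-688 / 1000)) (x := h0 - 9 / 5) (by norm_num)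
    (by linarith only [R.h1]) (by linarith only [R.h2])
  have e5 := up (t1 := (-505 / 1000)) (t2 := (-437 / 1000)) (x := h0 - s - 1) (by norm_num)
    (by linarith only [R.h1, s2]) (by linarith only [R.h2, s1])
  have e6 := up (t1 := (277 / 1000)) (t2 := (335 / 1000)) (x := s - u) (by norm_num)
    (by linarith only [s1, u2]) (by linarith only [s2, u1])
  have e7 := R.lo21 (358 / 1000) (by norm_num)
  have e8 := R.lo2 (-112 / 1000) (by norm_num)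
  have e9 := R.lo9 (-718 / 1000) (by norm_num)
  have e10 := R.lo10 (-449 / 1000) (by norm_num)
  have e11 := R.lo17 (596 / 1000) (by norm_num)
  have e12 := R.lo18 (199 / 1000) (by norm_num)
  have e13 := R.lo19 (380 / 1000) (by norm_num)
  have e14 := R.lo19 (343 / 1000) (by norm_num)
  right
  right
  right
  right
  left
  refine ⟨by linarith only [R.k2, u2, b2, e1], ?_⟩
  unfold fb_hs_v2_hh_vl
  linarith only [R.k2, R.h1, u2, b2, e1, e2, e3, e4, e5, e6, e7, e8, e9, e10, e11, e12, e13, e14]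

theorem bb10 {s u b k : ℝ} (R : RegB s u b k)
    (s1 : 3 / 5 ≤ s) (s2 : s ≤ 67 / 100) (u1 : 21 / 250 ≤ u) (u2 : u ≤ 37 / 400)
    (b1 : -313 / 1000 ≤ b) (b2 : b ≤ -1 / 4) :
    0 ≤ fb_h1_hH_hh_Tv s u b k ∨ (h0 + u + b / 2 + k ≤ 1 ∧ 0 ≤ fb_h1_hH_hh_HH s u b k) ∨ 0 ≤ fb_h1_hH_hh_o s u b k ∨ 0 ≤ fb_h1_o_hh_o s u b k ∨ (u + b / 2 + k ≤ 0 ∧ 0 ≤ fb_hs_v2_hh_vl s u b k) ∨ (u + b / 2 + k ≤ 0 ∧ 0 ≤ fb_hs_v2_he_vl s u b k) ∨ 0 ≤ fb_h1_o_he_o s u b k ∨ 0 ≤ fb_hs_o_he_o s u b k := by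
  have e1 := up (t1 := (-161 / 1000)) (t2 := (-127 / 1000)) (x := b) (by norm_num)
    (by linarith only [b1]) (by linarith only [b2])
  have e2 := R.lo6 (247 / 1000) (by norm_num)
  have e3 := up (t1 := (-68 / 1000)) (t2 := (-67 / 1000)) (x := h0 - 1) (by norm_num)
    (by linarith only [R.h1]) (by linarith only [R.h2])
  have e4 := up (t1 := (-689 / 1000)) (t2 := (-688 / 1000)) (x := h0 - 9 / 5) (by norm_num)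
    (by linarith only [R.h1]) (by linarith only [R.h2])
  have e5 := up (t1 := (-505 / 1000)) (t2 := (-437 / 1000)) (x := h0 - s - 1) (by norm_num)
    (by linarith only [R.h1, s2]) (by linarith only [R.h2, s1])
  have e6 := up (t1 := (272 / 1000)) (t2 := (324 / 1000)) (x := s - u) (by norm_num)
    (by linarith only [s1, u2]) (by linarith only [s2, u1])
  have e7 := R.lo21 (358 / 1000) (by norm_num)
  have e8 := R.lo21 (333 / 1000) (by norm_num)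
  have e9 := R.lo2 (-120 / 1000) (by norm_num)
  have e10 := R.lo9 (-699 / 1000) (by norm_num)
  have e11 := R.lo10 (-442 / 1000) (by norm_num)
  have e12 := R.lo17 (584 / 1000) (by norm_num)
  have e13 := R.lo18 (192 / 1000) (by norm_num)
  have e14 := R.lo19 (337 / 1000) (by norm_num)
  right
  right
  right
  right
  left
  refine ⟨by linarith only [R.k2, u2, b2, e1], ?_⟩
  unfold fb_hs_v2_hh_vl
  linarith only [R.k2, R.h1, u2, b2, e1, e2, e3, e4, e5, e6, e7, e8, e9, e10, e11, e12, e13, e14]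

theorem bb12 {s u b k : ℝ} (R : RegB s u b k)
    (s1 : 3 / 5 ≤ s) (s2 : s ≤ 127 / 200) (u1 : 37 / 400 ≤ u) (u2 : u ≤ 101 / 1000)
    (b1 : -313 / 1000 ≤ b) (b2 : b ≤ -1 / 4) :
    0 ≤ fb_h1_hH_hh_Tv s u b k ∨ (h0 + u + b / 2 + k ≤ 1 ∧ 0 ≤ fb_h1_hH_hh_HH s u b k) ∨ 0 ≤ fb_h1_hH_hh_o s u b k ∨ 0 ≤ fb_h1_o_hh_o s u b k ∨ (u + b / 2 + k ≤ 0 ∧ 0 ≤ fb_hs_v2_hh_vl s u b k) ∨ (u + b / 2 + k ≤ 0 ∧ 0 ≤ fb_hs_v2_he_vl s u b k) ∨ 0 ≤ fb_h1_o_he_o s u b k ∨ 0 ≤ fb_hs_o_he_o s u b k := by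
  have e1 := up (t1 := (-161 / 1000)) (t2 := (-127 / 1000)) (x := b) (by norm_num)
    (by linarith only [b1]) (by linarith only [b2])
  have e2 := up (t1 := (-68 / 1000)) (t2 := (-67 / 1000)) (x := h0 - 1) (by norm_num)
    (by linarith only [R.h1]) (by linarith only [R.h2])
  have e3 := up (t1 := (267 / 1000)) (t2 := (295 / 1000)) (x := s - u) (by norm_num)
    (by linarith only [s1, u2]) (by linarith only [s2, u1])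
  have e4 := R.lo21 (333 / 1000) (by norm_num)
  have e5 := R.lo7 (263 / 1000) (by norm_num)
  have e6 := R.lo18 (153 / 1000) (by norm_num)
  have e7 := R.lo19 (352 / 1000) (by norm_num)
  right
  right
  right
  left
  unfold fb_h1_o_hh_o
  linarith only [R.k2, R.h1, s1, u1, b1, e1, e2, e3, e4, e5, e6, e7]

theorem bb13 {s u b k : ℝ} (R : RegB s u b k)
    (s1 : 127 / 200 ≤ s) (s2 : s ≤ 67 / 100) (u1 : 37 / 400 ≤ u) (u2 : u ≤ 101 / 1000)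
    (b1 : -313 / 1000 ≤ b) (b2 : b ≤ -1 / 4) :
    0 ≤ fb_h1_hH_hh_Tv s u b k ∨ (h0 + u + b / 2 + k ≤ 1 ∧ 0 ≤ fb_h1_hH_hh_HH s u b k) ∨ 0 ≤ fb_h1_hH_hh_o s u b k ∨ 0 ≤ fb_h1_o_hh_o s u b k ∨ (u + b / 2 + k ≤ 0 ∧ 0 ≤ fb_hs_v2_hh_vl s u b k) ∨ (u + b / 2 + k ≤ 0 ∧ 0 ≤ fb_hs_v2_he_vl s u b k) ∨ 0 ≤ fb_h1_o_he_o s u b k ∨ 0 ≤ fb_hs_o_he_o s u b k := by
  have e1 := up (t1 := (-161 / 1000)) (t2 := (-127 / 1000)) (x := b) (by norm_num)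
    (by linarith only [b1]) (by linarith only [b2])
  have e2 := up (t1 := (-68 / 1000)) (t2 := (-67 / 1000)) (x := h0 - 1) (by norm_num)
    (by linarith only [R.h1]) (by linarith only [R.h2])
  have e3 := up (t1 := (289 / 1000)) (t2 := (318 / 1000)) (x := s - u) (by norm_num)
    (by linarith only [s1, u2]) (by linarith only [s2, u1])
  have e4 := R.lo21 (358 / 1000) (by norm_num)
  have e5 := R.lo7 (285 / 1000) (by norm_num)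
  have e6 := R.lo18 (172 / 1000) (by norm_num)
  have e7 := R.lo19 (378 / 1000) (by norm_num)
  right
  right
  right
  left
  unfold fb_h1_o_hh_o
  linarith only [R.k2, R.h1, s1, u1, b1, e1, e2, e3, e4, e5, e6, e7]

theorem bb17 {s u b k : ℝ} (R : RegB s u b k)
    (s1 : 3 / 5 ≤ s) (s2 : s ≤ 67 / 100) (u1 : 101 / 1000 ≤ u) (u2 : u ≤ 59 / 500)
    (b1 : -1 / 2 ≤ b) (b2 : b ≤ -219 / 500) :
    0 ≤ fb_h1_hH_hh_Tv s u b k ∨ (h0 + u + b / 2 + k ≤ 1 ∧ 0 ≤ fb_h1_hH_hh_HH s u b k) ∨ 0 ≤ fb_h1_hH_hh_o s u b k ∨ 0 ≤ fb_h1_o_hh_o s u b k ∨ (u + b / 2 + k ≤ 0 ∧ 0 ≤ fb_hs_v2_hh_vl s u b k) ∨ (u + b / 2 + k ≤ 0 ∧ 0 ≤ fb_hs_v2_he_vl s u b k) ∨ 0 ≤ fb_h1_o_he_o s u b k ∨ 0 ≤ fb_hs_o_he_o s u b k := by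
  have e1 := up (t1 := (-268 / 1000)) (t2 := (-230 / 1000)) (x := b) (by norm_num)
    (by linarith only [b1]) (by linarith only [b2])
  have e2 := R.lo6 (247 / 1000) (by norm_num)
  have e3 := up (t1 := (-68 / 1000)) (t2 := (-67 / 1000)) (x := h0 - 1) (by norm_num)
    (by linarith only [R.h1]) (by linarith only [R.h2])
  have e4 := up (t1 := (-689 / 1000)) (t2 := (-688 / 1000)) (x := h0 - 9 / 5) (by norm_num)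
    (by linarith only [R.h1]) (by linarith only [R.h2])
  have e5 := up (t1 := (-505 / 1000)) (t2 := (-437 / 1000)) (x := h0 - s - 1) (by norm_num)
    (by linarith only [R.h1, s2]) (by linarith only [R.h2, s1])
  have e6 := up (t1 := (256 / 1000)) (t2 := (313 / 1000)) (x := s - u) (by norm_num)
    (by linarith only [s1, u2]) (by linarith only [s2, u1])
  have e7 := R.lo21 (333 / 1000) (by norm_num)
  have e8 := R.lo2 (-235 / 1000) (by norm_num)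
  have e9 := R.lo2 (-258 / 1000) (by norm_num)
  have e10 := R.lo3 (-231 / 1000) (by norm_num)
  have e11 := up (t1 := (267 / 1000)) (t2 := (306 / 1000)) (x := h0 + b / 2 - k) (by norm_num)
    (by linarith only [R.k2, R.h1, b1, e1]) (by linarith only [R.k1, R.h2, b2, e10])
  have e12 := R.lo9 (-742 / 1000) (by norm_num)
  have e13 := R.lo9 (-718 / 1000) (by norm_num)
  have e14 := R.lo10 (-449 / 1000) (by norm_num)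
  have e15 := R.lo17 (610 / 1000) (by norm_num)
  have e16 := R.lo18 (58 / 1000) (by norm_num)
  right
  right
  right
  right
  right
  left
  refine ⟨by linarith only [R.k2, u2, b2, e1], ?_⟩
  unfold fb_hs_v2_he_vl
  linarith only [R.k2, R.h1, s1, e1, e2, e3, e4, e5, e6, e7, e8, e9, e11, e12, e13, e14, e15, e16]

theorem bb19 {s u b k : ℝ} (R : RegB s u b k)
    (s1 : 3 / 5 ≤ s) (s2 : s ≤ 67 / 100) (u1 : 101 / 1000 ≤ u) (u2 : u ≤ 59 / 500)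
    (b1 : -219 / 500 ≤ b) (b2 : b ≤ -407 / 1000) :
    0 ≤ fb_h1_hH_hh_Tv s u b k ∨ (h0 + u + b / 2 + k ≤ 1 ∧ 0 ≤ fb_h1_hH_hh_HH s u b k) ∨ 0 ≤ fb_h1_hH_hh_o s u b k ∨ 0 ≤ fb_h1_o_hh_o s u b k ∨ (u + b / 2 + k ≤ 0 ∧ 0 ≤ fb_hs_v2_hh_vl s u b k) ∨ (u + b / 2 + k ≤ 0 ∧ 0 ≤ fb_hs_v2_he_vl s u b k) ∨ 0 ≤ fb_h1_o_he_o s u b k ∨ 0 ≤ fb_hs_o_he_o s u b k := by
  have e1 := up (t1 := (-231 / 1000)) (t2 := (-212 / 1000)) (x := b) (by norm_num)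
    (by linarith only [b1]) (by linarith only [b2])
  have e2 := R.lo6 (247 / 1000) (by norm_num)
  have e3 := up (t1 := (-68 / 1000)) (t2 := (-67 / 1000)) (x := h0 - 1) (by norm_num)
    (by linarith only [R.h1]) (by linarith only [R.h2])
  have e4 := up (t1 := (-689 / 1000)) (t2 := (-688 / 1000)) (x := h0 - 9 / 5) (by norm_num)
    (by linarith only [R.h1]) (by linarith only [R.h2])
  have e5 := up (t1 := (-505 / 1000)) (t2 := (-437 / 1000)) (x := h0 - s - 1) (by norm_num)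
    (by linarith only [R.h1, s2]) (by linarith only [R.h2, s1])
  have e6 := up (t1 := (256 / 1000)) (t2 := (313 / 1000)) (x := s - u) (by norm_num)
    (by linarith only [s1, u2]) (by linarith only [s2, u1])
  have e7 := R.lo21 (333 / 1000) (by norm_num)
  have e8 := R.lo2 (-210 / 1000) (by norm_num)
  have e9 := R.lo3 (-213 / 1000) (by norm_num)
  have e10 := up (t1 := (305 / 1000)) (t2 := (325 / 1000)) (x := h0 + b / 2 - k) (by norm_num)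
    (by linarith only [R.k2, R.h1, b1, e1]) (by linarith only [R.k1, R.h2, b2, e9])
  have e11 := R.lo9 (-735 / 1000) (by norm_num)
  have e12 := R.lo9 (-711 / 1000) (by norm_num)
  have e13 := R.lo10 (-446 / 1000) (by norm_num)
  have e14 := R.lo17 (606 / 1000) (by norm_num)
  have e15 := R.lo18 (118 / 1000) (by norm_num)
  right
  right
  right
  right
  right
  left
  refine ⟨by linarith only [R.k2, u2, b2, e1], ?_⟩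
  unfold fb_hs_v2_he_vl
  linarith only [R.k2, R.h1, s1, b2, e1, e2, e3, e4, e5, e6, e7, e8, e10, e11, e12, e13, e14, e15]

theorem bb20 {s u b k : ℝ} (R : RegB s u b k)
    (s1 : 3 / 5 ≤ s) (s2 : s ≤ 67 / 100) (u1 : 101 / 1000 ≤ u) (u2 : u ≤ 59 / 500)
    (b1 : -407 / 1000 ≤ b) (b2 : b ≤ -3 / 8) :
    0 ≤ fb_h1_hH_hh_Tv s u b k ∨ (h0 + u + b / 2 + k ≤ 1 ∧ 0 ≤ fb_h1_hH_hh_HH s u b k) ∨ 0 ≤ fb_h1_hH_hh_o s u b k ∨ 0 ≤ fb_h1_o_hh_o s u b k ∨ (u + b / 2 + k ≤ 0 ∧ 0 ≤ fb_hs_v2_hh_vl s u b k) ∨ (u + b / 2 + k ≤ 0 ∧ 0 ≤ fb_hs_v2_he_vl s u b k) ∨ 0 ≤ fb_h1_o_he_o s u b k ∨ 0 ≤ fb_hs_o_he_o s u b k := by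
  have e1 := up (t1 := (-213 / 1000)) (t2 := (-194 / 1000)) (x := b) (by norm_num)
    (by linarith only [b1]) (by linarith only [b2])
  have e2 := R.lo6 (269 / 1000) (by norm_num)
  have e3 := up (t1 := (-68 / 1000)) (t2 := (-67 / 1000)) (x := h0 - 1) (by norm_num)
    (by linarith only [R.h1]) (by linarith only [R.h2])
  have e4 := up (t1 := (-689 / 1000)) (t2 := (-688 / 1000)) (x := h0 - 9 / 5) (by norm_num)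
    (by linarith only [R.h1]) (by linarith only [R.h2])
  have e5 := up (t1 := (-505 / 1000)) (t2 := (-437 / 1000)) (x := h0 - s - 1) (by norm_num)
    (by linarith only [R.h1, s2]) (by linarith only [R.h2, s1])
  have e6 := up (t1 := (256 / 1000)) (t2 := (313 / 1000)) (x := s - u) (by norm_num)
    (by linarith only [s1, u2]) (by linarith only [s2, u1])
  have e7 := R.lo21 (358 / 1000) (by norm_num)
  have e8 := R.lo2 (-207 / 1000) (by norm_num)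
  have e9 := R.lo9 (-701 / 1000) (by norm_num)
  have e10 := R.lo10 (-443 / 1000) (by norm_num)
  have e11 := R.lo17 (586 / 1000) (by norm_num)
  have e12 := R.lo18 (103 / 1000) (by norm_num)
  have e13 := R.lo19 (371 / 1000) (by norm_num)
  have e14 := R.lo19 (338 / 1000) (by norm_num)
  right
  right
  right
  right
  left
  refine ⟨by linarith only [R.k2, u2, b2, e1], ?_⟩
  unfold fb_hs_v2_hh_vl
  linarith only [R.k2, R.h1, u2, b1, e1, e2, e3, e4, e5, e6, e7, e8, e9, e10, e11, e12, e13, e14]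

theorem bb25 {s u b k : ℝ} (R : RegB s u b k)
    (s1 : 3 / 5 ≤ s) (s2 : s ≤ 309 / 500) (u1 : 59 / 500 ≤ u) (u2 : u ≤ 63 / 500)
    (b1 : -1 / 2 ≤ b) (b2 : b ≤ -219 / 500) :
    0 ≤ fb_h1_hH_hh_Tv s u b k ∨ (h0 + u + b / 2 + k ≤ 1 ∧ 0 ≤ fb_h1_hH_hh_HH s u b k) ∨ 0 ≤ fb_h1_hH_hh_o s u b k ∨ 0 ≤ fb_h1_o_hh_o s u b k ∨ (u + b / 2 + k ≤ 0 ∧ 0 ≤ fb_hs_v2_hh_vl s u b k) ∨ (u + b / 2 + k ≤ 0 ∧ 0 ≤ fb_hs_v2_he_vl s u b k) ∨ 0 ≤ fb_h1_o_he_o s u b k ∨ 0 ≤ fb_hs_o_he_o s u b k := by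
  have e1 := up (t1 := (-268 / 1000)) (t2 := (-230 / 1000)) (x := b) (by norm_num)
    (by linarith only [b1]) (by linarith only [b2])
  have e2 := R.lo6 (247 / 1000) (by norm_num)
  have e3 := up (t1 := (-68 / 1000)) (t2 := (-67 / 1000)) (x := h0 - 1) (by norm_num)
    (by linarith only [R.h1]) (by linarith only [R.h2])
  have e4 := up (t1 := (-689 / 1000)) (t2 := (-688 / 1000)) (x := h0 - 9 / 5) (by norm_num)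
    (by linarith only [R.h1]) (by linarith only [R.h2])
  have e5 := up (t1 := (-454 / 1000)) (t2 := (-437 / 1000)) (x := h0 - s - 1) (by norm_num)
    (by linarith only [R.h1, s2]) (by linarith only [R.h2, s1])
  have e6 := up (t1 := (252 / 1000)) (t2 := (268 / 1000)) (x := s - u) (by norm_num)
    (by linarith only [s1, u2]) (by linarith only [s2, u1])
  have e7 := R.lo21 (333 / 1000) (by norm_num)
  have e8 := R.lo2 (-243 / 1000) (by norm_num)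
  have e9 := R.lo3 (-231 / 1000) (by norm_num)
  have e10 := up (t1 := (267 / 1000)) (t2 := (306 / 1000)) (x := h0 + b / 2 - k) (by norm_num)
    (by linarith only [R.k2, R.h1, b1, e1]) (by linarith only [R.k1, R.h2, b2, e9])
  have e11 := R.lo9 (-711 / 1000) (by norm_num)
  have e12 := R.lo10 (-455 / 1000) (by norm_num)
  have e13 := R.lo10 (-442 / 1000) (by norm_num)
  have e14 := R.lo17 (592 / 1000) (by norm_num)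
  have e15 := R.lo18 (76 / 1000) (by norm_num)
  have e16 := R.lo18 (54 / 1000) (by norm_num)
  right
  right
  right
  right
  right
  left
  refine ⟨by linarith only [R.k2, u2, b2, e1], ?_⟩
  unfold fb_hs_v2_he_vl
  linarith only [R.k2, R.h1, s1, e1, e2, e3, e4, e5, e6, e7, e8, e10, e11, e12, e13, e14, e15, e16]

theorem bb27 {s u b k : ℝ} (R : RegB s u b k)
    (s1 : 3 / 5 ≤ s) (s2 : s ≤ 309 / 500) (u1 : 59 / 500 ≤ u) (u2 : u ≤ 63 / 500)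
    (b1 : -219 / 500 ≤ b) (b2 : b ≤ -407 / 1000) :
    0 ≤ fb_h1_hH_hh_Tv s u b k ∨ (h0 + u + b / 2 + k ≤ 1 ∧ 0 ≤ fb_h1_hH_hh_HH s u b k) ∨ 0 ≤ fb_h1_hH_hh_o s u b k ∨ 0 ≤ fb_h1_o_hh_o s u b k ∨ (u + b / 2 + k ≤ 0 ∧ 0 ≤ fb_hs_v2_hh_vl s u b k) ∨ (u + b / 2 + k ≤ 0 ∧ 0 ≤ fb_hs_v2_he_vl s u b k) ∨ 0 ≤ fb_h1_o_he_o s u b k ∨ 0 ≤ fb_hs_o_he_o s u b k := by
  have e1 := up (t1 := (-231 / 1000)) (t2 := (-212 / 1000)) (x := b) (by norm_num)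
    (by linarith only [b1]) (by linarith only [b2])
  have e2 := R.lo6 (247 / 1000) (by norm_num)
  have e3 := up (t1 := (-68 / 1000)) (t2 := (-67 / 1000)) (x := h0 - 1) (by norm_num)
    (by linarith only [R.h1]) (by linarith only [R.h2])
  have e4 := up (t1 := (-689 / 1000)) (t2 := (-688 / 1000)) (x := h0 - 9 / 5) (by norm_num)
    (by linarith only [R.h1]) (by linarith only [R.h2])
  have e5 := up (t1 := (-454 / 1000)) (t2 := (-437 / 1000)) (x := h0 - s - 1) (by norm_num)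
    (by linarith only [R.h1, s2]) (by linarith only [R.h2, s1])
  have e6 := up (t1 := (252 / 1000)) (t2 := (268 / 1000)) (x := s - u) (by norm_num)
    (by linarith only [s1, u2]) (by linarith only [s2, u1])
  have e7 := R.lo21 (333 / 1000) (by norm_num)
  have e8 := R.lo2 (-207 / 1000) (by norm_num)
  have e9 := R.lo3 (-213 / 1000) (by norm_num)
  have e10 := up (t1 := (305 / 1000)) (t2 := (325 / 1000)) (x := h0 + b / 2 - k) (by norm_num)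
    (by linarith only [R.k2, R.h1, b1, e1]) (by linarith only [R.k1, R.h2, b2, e9])
  have e11 := R.lo9 (-693 / 1000) (by norm_num)
  have e12 := R.lo10 (-439 / 1000) (by norm_num)
  have e13 := R.lo17 (581 / 1000) (by norm_num)
  have e14 := R.lo18 (98 / 1000) (by norm_num)
  right
  right
  right
  right
  right
  left
  refine ⟨by linarith only [R.k2, u2, b2, e1], ?_⟩
  unfold fb_hs_v2_he_vl
  linarith only [R.k2, R.h1, s1, u2, b2, e1, e2, e3, e4, e5, e6, e7, e8, e10, e11, e12, e13, e14]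

theorem bb29 {s u b k : ℝ} (R : RegB s u b k)
    (s1 : 3 / 5 ≤ s) (s2 : s ≤ 309 / 500) (u1 : 59 / 500 ≤ u) (u2 : u ≤ 63 / 500)
    (b1 : -407 / 1000 ≤ b) (b2 : b ≤ -391 / 1000) :
    0 ≤ fb_h1_hH_hh_Tv s u b k ∨ (h0 + u + b / 2 + k ≤ 1 ∧ 0 ≤ fb_h1_hH_hh_HH s u b k) ∨ 0 ≤ fb_h1_hH_hh_o s u b k ∨ 0 ≤ fb_h1_o_hh_o s u b k ∨ (u + b / 2 + k ≤ 0 ∧ 0 ≤ fb_hs_v2_hh_vl s u b k) ∨ (u + b / 2 + k ≤ 0 ∧ 0 ≤ fb_hs_v2_he_vl s u b k) ∨ 0 ≤ fb_h1_o_he_o s u b k ∨ 0 ≤ fb_hs_o_he_o s u b k := by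
  have e1 := up (t1 := (-213 / 1000)) (t2 := (-203 / 1000)) (x := b) (by norm_num)
    (by linarith only [b1]) (by linarith only [b2])
  have e2 := R.lo6 (247 / 1000) (by norm_num)
  have e3 := up (t1 := (-68 / 1000)) (t2 := (-67 / 1000)) (x := h0 - 1) (by norm_num)
    (by linarith only [R.h1]) (by linarith only [R.h2])
  have e4 := up (t1 := (-689 / 1000)) (t2 := (-688 / 1000)) (x := h0 - 9 / 5) (by norm_num)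
    (by linarith only [R.h1]) (by linarith only [R.h2])
  have e5 := up (t1 := (-454 / 1000)) (t2 := (-437 / 1000)) (x := h0 - s - 1) (by norm_num)
    (by linarith only [R.h1, s2]) (by linarith only [R.h2, s1])
  have e6 := up (t1 := (252 / 1000)) (t2 := (268 / 1000)) (x := s - u) (by norm_num)
    (by linarith only [s1, u2]) (by linarith only [s2, u1])
  have e7 := R.lo21 (333 / 1000) (by norm_num)
  have e8 := R.lo2 (-211 / 1000) (by norm_num)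
  have e9 := R.lo9 (-689 / 1000) (by norm_num)
  have e10 := R.lo10 (-438 / 1000) (by norm_num)
  have e11 := R.lo17 (578 / 1000) (by norm_num)
  have e12 := R.lo18 (99 / 1000) (by norm_num)
  have e13 := R.lo19 (334 / 1000) (by norm_num)
  right
  right
  right
  right
  left
  refine ⟨by linarith only [R.k2, u2, b2, e1], ?_⟩
  unfold fb_hs_v2_hh_vl
  linarith only [R.k2, R.h1, s1, u2, b1, e1, e2, e3, e4, e5, e6, e7, e8, e9, e10, e11, e12, e13]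

theorem bb31 {s u b k : ℝ} (R : RegB s u b k)
    (s1 : 3 / 5 ≤ s) (s2 : s ≤ 309 / 500) (u1 : 59 / 500 ≤ u) (u2 : u ≤ 61 / 500)
    (b1 : -391 / 1000 ≤ b) (b2 : b ≤ -3 / 8) :
    0 ≤ fb_h1_hH_hh_Tv s u b k ∨ (h0 + u + b / 2 + k ≤ 1 ∧ 0 ≤ fb_h1_hH_hh_HH s u b k) ∨ 0 ≤ fb_h1_hH_hh_o s u b k ∨ 0 ≤ fb_h1_o_hh_o s u b k ∨ (u + b / 2 + k ≤ 0 ∧ 0 ≤ fb_hs_v2_hh_vl s u b k) ∨ (u + b / 2 + k ≤ 0 ∧ 0 ≤ fb_hs_v2_he_vl s u b k) ∨ 0 ≤ fb_h1_o_he_o s u b k ∨ 0 ≤ fb_hs_o_he_o s u b k := by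
  have e1 := up (t1 := (-204 / 1000)) (t2 := (-194 / 1000)) (x := b) (by norm_num)
    (by linarith only [b1]) (by linarith only [b2])
  have e2 := R.lo6 (247 / 1000) (by norm_num)
  have e3 := up (t1 := (-68 / 1000)) (t2 := (-67 / 1000)) (x := h0 - 1) (by norm_num)
    (by linarith only [R.h1]) (by linarith only [R.h2])
  have e4 := up (t1 := (-689 / 1000)) (t2 := (-688 / 1000)) (x := h0 - 9 / 5) (by norm_num)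
    (by linarith only [R.h1]) (by linarith only [R.h2])
  have e5 := up (t1 := (-454 / 1000)) (t2 := (-437 / 1000)) (x := h0 - s - 1) (by norm_num)
    (by linarith only [R.h1, s2]) (by linarith only [R.h2, s1])
  have e6 := up (t1 := (254 / 1000)) (t2 := (268 / 1000)) (x := s - u) (by norm_num)
    (by linarith only [s1, u2]) (by linarith only [s2, u1])
  have e7 := R.lo21 (333 / 1000) (by norm_num)
  have e8 := R.lo2 (-201 / 1000) (by norm_num)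
  have e9 := R.lo9 (-700 / 1000) (by norm_num)
  have e10 := R.lo10 (-439 / 1000) (by norm_num)
  have e11 := R.lo17 (585 / 1000) (by norm_num)
  have e12 := R.lo18 (108 / 1000) (by norm_num)
  have e13 := R.lo19 (335 / 1000) (by norm_num)
  right
  right
  right
  right
  left
  refine ⟨by linarith only [R.k2, u2, b2, e1], ?_⟩
  unfold fb_hs_v2_hh_vl
  linarith only [R.k2, R.h1, s1, u2, b1, e1, e2, e3, e4, e5, e6, e7, e8, e9, e10, e11, e12, e13]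

theorem bb32 {s u b k : ℝ} (R : RegB s u b k)
    (s1 : 3 / 5 ≤ s) (s2 : s ≤ 309 / 500) (u1 : 61 / 500 ≤ u) (u2 : u ≤ 63 / 500)
    (b1 : -391 / 1000 ≤ b) (b2 : b ≤ -3 / 8) :
    0 ≤ fb_h1_hH_hh_Tv s u b k ∨ (h0 + u + b / 2 + k ≤ 1 ∧ 0 ≤ fb_h1_hH_hh_HH s u b k) ∨ 0 ≤ fb_h1_hH_hh_o s u b k ∨ 0 ≤ fb_h1_o_hh_o s u b k ∨ (u + b / 2 + k ≤ 0 ∧ 0 ≤ fb_hs_v2_hh_vl s u b k) ∨ (u + b / 2 + k ≤ 0 ∧ 0 ≤ fb_hs_v2_he_vl s u b k) ∨ 0 ≤ fb_h1_o_he_o s u b k ∨ 0 ≤ fb_hs_o_he_o s u b k := by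
  have e1 := up (t1 := (-204 / 1000)) (t2 := (-194 / 1000)) (x := b) (by norm_num)
    (by linarith only [b1]) (by linarith only [b2])
  have e2 := up (t1 := (-68 / 1000)) (t2 := (-67 / 1000)) (x := h0 - 1) (by norm_num)
    (by linarith only [R.h1]) (by linarith only [R.h2])
  have e3 := up (t1 := (252 / 1000)) (t2 := (266 / 1000)) (x := s - u) (by norm_num)
    (by linarith only [s1, u2]) (by linarith only [s2, u1])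
  have e4 := R.lo21 (333 / 1000) (by norm_num)
  have e5 := R.lo7 (246 / 1000) (by norm_num)
  have e6 := R.lo18 (106 / 1000) (by norm_num)
  have e7 := R.lo19 (332 / 1000) (by norm_num)
  right
  right
  right
  left
  unfold fb_h1_o_hh_o
  linarith only [R.k2, R.h1, s1, u1, b1, e1, e2, e3, e4, e5, e6, e7]

theorem bb36 {s u b k : ℝ} (R : RegB s u b k)
    (s1 : 3 / 5 ≤ s) (s2 : s ≤ 609 / 1000) (u1 : 63 / 500 ≤ u) (u2 : u ≤ 13 / 100)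
    (b1 : -1 / 2 ≤ b) (b2 : b ≤ -219 / 500) :
    0 ≤ fb_h1_hH_hh_Tv s u b k ∨ (h0 + u + b / 2 + k ≤ 1 ∧ 0 ≤ fb_h1_hH_hh_HH s u b k) ∨ 0 ≤ fb_h1_hH_hh_o s u b k ∨ 0 ≤ fb_h1_o_hh_o s u b k ∨ (u + b / 2 + k ≤ 0 ∧ 0 ≤ fb_hs_v2_hh_vl s u b k) ∨ (u + b / 2 + k ≤ 0 ∧ 0 ≤ fb_hs_v2_he_vl s u b k) ∨ 0 ≤ fb_h1_o_he_o s u b k ∨ 0 ≤ fb_hs_o_he_o s u b k := by
  have e1 := up (t1 := (-268 / 1000)) (t2 := (-230 / 1000)) (x := b) (by norm_num)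
    (by linarith only [b1]) (by linarith only [b2])
  have e2 := R.lo6 (247 / 1000) (by norm_num)
  have e3 := up (t1 := (-68 / 1000)) (t2 := (-67 / 1000)) (x := h0 - 1) (by norm_num)
    (by linarith only [R.h1]) (by linarith only [R.h2])
  have e4 := up (t1 := (-689 / 1000)) (t2 := (-688 / 1000)) (x := h0 - 9 / 5) (by norm_num)
    (by linarith only [R.h1]) (by linarith only [R.h2])
  have e5 := up (t1 := (-446 / 1000)) (t2 := (-437 / 1000)) (x := h0 - s - 1) (by norm_num)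
    (by linarith only [R.h1, s2]) (by linarith only [R.h2, s1])
  have e6 := up (t1 := (249 / 1000)) (t2 := (258 / 1000)) (x := s - u) (by norm_num)
    (by linarith only [s1, u2]) (by linarith only [s2, u1])
  have e7 := R.lo21 (333 / 1000) (by norm_num)
  have e8 := R.lo2 (-246 / 1000) (by norm_num)
  have e9 := R.lo3 (-231 / 1000) (by norm_num)
  have e10 := up (t1 := (267 / 1000)) (t2 := (306 / 1000)) (x := h0 + b / 2 - k) (by norm_num)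
    (by linarith only [R.k2, R.h1, b1, e1]) (by linarith only [R.k1, R.h2, b2, e9])
  have e11 := R.lo9 (-698 / 1000) (by norm_num)
  have e12 := R.lo9 (-705 / 1000) (by norm_num)
  have e13 := R.lo10 (-445 / 1000) (by norm_num)
  have e14 := R.lo17 (584 / 1000) (by norm_num)
  have e15 := R.lo18 (70 / 1000) (by norm_num)
  have e16 := R.lo18 (52 / 1000) (by norm_num)
  right
  right
  right
  right
  right
  left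
  refine ⟨by linarith only [R.k2, u2, b2, e1], ?_⟩
  unfold fb_hs_v2_he_vl
  linarith only [R.k2, R.h1, s1, e1, e2, e3, e4, e5, e6, e7, e8, e10, e11, e12, e13, e14, e15, e16]

theorem bb39 {s u b k : ℝ} (R : RegB s u b k)
    (s1 : 3 / 5 ≤ s) (s2 : s ≤ 609 / 1000) (u1 : 63 / 500 ≤ u) (u2 : u ≤ 16 / 125)
    (b1 : -219 / 500 ≤ b) (b2 : b ≤ -407 / 1000) :
    0 ≤ fb_h1_hH_hh_Tv s u b k ∨ (h0 + u + b / 2 + k ≤ 1 ∧ 0 ≤ fb_h1_hH_hh_HH s u b k) ∨ 0 ≤ fb_h1_hH_hh_o s u b k ∨ 0 ≤ fb_h1_o_hh_o s u b k ∨ (u + b / 2 + k ≤ 0 ∧ 0 ≤ fb_hs_v2_hh_vl s u b k) ∨ (u + b / 2 + k ≤ 0 ∧ 0 ≤ fb_hs_v2_he_vl s u b k) ∨ 0 ≤ fb_h1_o_he_o s u b k ∨ 0 ≤ fb_hs_o_he_o s u b k := by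
  have e1 := up (t1 := (-231 / 1000)) (t2 := (-212 / 1000)) (x := b) (by norm_num)
    (by linarith only [b1]) (by linarith only [b2])
  have e2 := R.lo6 (247 / 1000) (by norm_num)
  have e3 := up (t1 := (-68 / 1000)) (t2 := (-67 / 1000)) (x := h0 - 1) (by norm_num)
    (by linarith only [R.h1]) (by linarith only [R.h2])
  have e4 := up (t1 := (-689 / 1000)) (t2 := (-688 / 1000)) (x := h0 - 9 / 5) (by norm_num)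
    (by linarith only [R.h1]) (by linarith only [R.h2])
  have e5 := up (t1 := (-446 / 1000)) (t2 := (-437 / 1000)) (x := h0 - s - 1) (by norm_num)
    (by linarith only [R.h1, s2]) (by linarith only [R.h2, s1])
  have e6 := up (t1 := (250 / 1000)) (t2 := (258 / 1000)) (x := s - u) (by norm_num)
    (by linarith only [s1, u2]) (by linarith only [s2, u1])
  have e7 := R.lo21 (333 / 1000) (by norm_num)
  have e8 := R.lo2 (-211 / 1000) (by norm_num)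
  have e9 := R.lo3 (-213 / 1000) (by norm_num)
  have e10 := up (t1 := (305 / 1000)) (t2 := (325 / 1000)) (x := h0 + b / 2 - k) (by norm_num)
    (by linarith only [R.k2, R.h1, b1, e1]) (by linarith only [R.k1, R.h2, b2, e9])
  have e11 := R.lo9 (-689 / 1000) (by norm_num)
  have e12 := R.lo10 (-438 / 1000) (by norm_num)
  have e13 := R.lo17 (578 / 1000) (by norm_num)
  have e14 := R.lo18 (93 / 1000) (by norm_num)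
  right
  right
  right
  right
  right
  left
  refine ⟨by linarith only [R.k2, u2, b2, e1], ?_⟩
  unfold fb_hs_v2_he_vl
  linarith only [R.k2, R.h1, s1, u2, b2, e1, e2, e3, e4, e5, e6, e7, e8, e10, e11, e12, e13, e14]

theorem bb40 {s u b k : ℝ} (R : RegB s u b k)
    (s1 : 3 / 5 ≤ s) (s2 : s ≤ 609 / 1000) (u1 : 16 / 125 ≤ u) (u2 : u ≤ 13 / 100)
    (b1 : -219 / 500 ≤ b) (b2 : b ≤ -407 / 1000) :
    0 ≤ fb_h1_hH_hh_Tv s u b k ∨ (h0 + u + b / 2 + k ≤ 1 ∧ 0 ≤ fb_h1_hH_hh_HH s u b k) ∨ 0 ≤ fb_h1_hH_hh_o s u b k ∨ 0 ≤ fb_h1_o_hh_o s u b k ∨ (u + b / 2 + k ≤ 0 ∧ 0 ≤ fb_hs_v2_hh_vl s u b k) ∨ (u + b / 2 + k ≤ 0 ∧ 0 ≤ fb_hs_v2_he_vl s u b k) ∨ 0 ≤ fb_h1_o_he_o s u b k ∨ 0 ≤ fb_hs_o_he_o s u b k := by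
  have e1 := up (t1 := (-231 / 1000)) (t2 := (-212 / 1000)) (x := b) (by norm_num)
    (by linarith only [b1]) (by linarith only [b2])
  have e2 := R.lo6 (247 / 1000) (by norm_num)
  have e3 := up (t1 := (-68 / 1000)) (t2 := (-67 / 1000)) (x := h0 - 1) (by norm_num)
    (by linarith only [R.h1]) (by linarith only [R.h2])
  have e4 := up (t1 := (249 / 1000)) (t2 := (257 / 1000)) (x := s - u) (by norm_num)
    (by linarith only [s1, u2]) (by linarith only [s2, u1])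
  have e5 := R.lo21 (333 / 1000) (by norm_num)
  have e6 := R.lo3 (-213 / 1000) (by norm_num)
  have e7 := up (t1 := (305 / 1000)) (t2 := (325 / 1000)) (x := h0 + b / 2 - k) (by norm_num)
    (by linarith only [R.k2, R.h1, b1, e1]) (by linarith only [R.k1, R.h2, b2, e6])
  have e8 := R.lo17 (579 / 1000) (by norm_num)
  have e9 := R.lo17 (582 / 1000) (by norm_num)
  have e10 := R.lo18 (92 / 1000) (by norm_num)
  right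
  right
  right
  right
  right
  right
  right
  unfold fb_hs_o_he_o
  linarith only [R.k2, R.h1, s1, u1, e1, e2, e3, e4, e5, e7, e8, e9, e10]

theorem bb41 {s u b k : ℝ} (R : RegB s u b k)
    (s1 : 3 / 5 ≤ s) (s2 : s ≤ 609 / 1000) (u1 : 63 / 500 ≤ u) (u2 : u ≤ 13 / 100)
    (b1 : -407 / 1000 ≤ b) (b2 : b ≤ -3 / 8) :
    0 ≤ fb_h1_hH_hh_Tv s u b k ∨ (h0 + u + b / 2 + k ≤ 1 ∧ 0 ≤ fb_h1_hH_hh_HH s u b k) ∨ 0 ≤ fb_h1_hH_hh_o s u b k ∨ 0 ≤ fb_h1_o_hh_o s u b k ∨ (u + b / 2 + k ≤ 0 ∧ 0 ≤ fb_hs_v2_hh_vl s u b k) ∨ (u + b / 2 + k ≤ 0 ∧ 0 ≤ fb_hs_v2_he_vl s u b k) ∨ 0 ≤ fb_h1_o_he_o s u b k ∨ 0 ≤ fb_hs_o_he_o s u b k := by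
  have e1 := up (t1 := (-213 / 1000)) (t2 := (-194 / 1000)) (x := b) (by norm_num)
    (by linarith only [b1]) (by linarith only [b2])
  have e2 := up (t1 := (-68 / 1000)) (t2 := (-67 / 1000)) (x := h0 - 1) (by norm_num)
    (by linarith only [R.h1]) (by linarith only [R.h2])
  have e3 := up (t1 := (249 / 1000)) (t2 := (258 / 1000)) (x := s - u) (by norm_num)
    (by linarith only [s1, u2]) (by linarith only [s2, u1])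
  have e4 := R.lo21 (333 / 1000) (by norm_num)
  have e5 := R.lo7 (249 / 1000) (by norm_num)
  have e6 := R.lo18 (97 / 1000) (by norm_num)
  have e7 := R.lo19 (335 / 1000) (by norm_num)
  right
  right
  right
  left
  unfold fb_h1_o_hh_o
  linarith only [R.k2, R.h1, s1, u1, b1, e1, e2, e3, e4, e5, e6, e7]

theorem bb43 {s u b k : ℝ} (R : RegB s u b k)
    (s1 : 3 / 5 ≤ s) (s2 : s ≤ 609 / 1000) (u1 : 13 / 100 ≤ u) (u2 : u ≤ 67 / 500)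
    (b1 : -1 / 2 ≤ b) (b2 : b ≤ -219 / 500) :
    0 ≤ fb_h1_hH_hh_Tv s u b k ∨ (h0 + u + b / 2 + k ≤ 1 ∧ 0 ≤ fb_h1_hH_hh_HH s u b k) ∨ 0 ≤ fb_h1_hH_hh_o s u b k ∨ 0 ≤ fb_h1_o_hh_o s u b k ∨ (u + b / 2 + k ≤ 0 ∧ 0 ≤ fb_hs_v2_hh_vl s u b k) ∨ (u + b / 2 + k ≤ 0 ∧ 0 ≤ fb_hs_v2_he_vl s u b k) ∨ 0 ≤ fb_h1_o_he_o s u b k ∨ 0 ≤ fb_hs_o_he_o s u b k := by
  have e1 := up (t1 := (-268 / 1000)) (t2 := (-230 / 1000)) (x := b) (by norm_num)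
    (by linarith only [b1]) (by linarith only [b2])
  have e2 := R.lo6 (247 / 1000) (by norm_num)
  have e3 := up (t1 := (-68 / 1000)) (t2 := (-67 / 1000)) (x := h0 - 1) (by norm_num)
    (by linarith only [R.h1]) (by linarith only [R.h2])
  have e4 := up (t1 := (247 / 1000)) (t2 := (256 / 1000)) (x := s - u) (by norm_num)
    (by linarith only [R.h1, R.u4, s1]) (by linarith only [s2, u1])
  have e5 := R.lo21 (333 / 1000) (by norm_num)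
  have e6 := R.lo3 (-231 / 1000) (by norm_num)
  have e7 := up (t1 := (267 / 1000)) (t2 := (306 / 1000)) (x := h0 + b / 2 - k) (by norm_num)
    (by linarith only [R.k2, R.h1, b1, e1]) (by linarith only [R.k1, R.h2, b2, e6])
  have e8 := R.lo17 (583 / 1000) (by norm_num)
  have e9 := R.lo18 (50 / 1000) (by norm_num)
  right
  right
  right
  right
  right
  right
  right
  unfold fb_hs_o_he_o
  linarith only [R.k2, R.h1, s1, u1, b1, e1, e2, e3, e4, e5, e7, e8, e9]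

theorem bb44 {s u b k : ℝ} (R : RegB s u b k)
    (s1 : 3 / 5 ≤ s) (s2 : s ≤ 609 / 1000) (u1 : 13 / 100 ≤ u) (u2 : u ≤ 67 / 500)
    (b1 : -219 / 500 ≤ b) (b2 : b ≤ -3 / 8) :
    0 ≤ fb_h1_hH_hh_Tv s u b k ∨ (h0 + u + b / 2 + k ≤ 1 ∧ 0 ≤ fb_h1_hH_hh_HH s u b k) ∨ 0 ≤ fb_h1_hH_hh_o s u b k ∨ 0 ≤ fb_h1_o_hh_o s u b k ∨ (u + b / 2 + k ≤ 0 ∧ 0 ≤ fb_hs_v2_hh_vl s u b k) ∨ (u + b / 2 + k ≤ 0 ∧ 0 ≤ fb_hs_v2_he_vl s u b k) ∨ 0 ≤ fb_h1_o_he_o s u b k ∨ 0 ≤ fb_hs_o_he_o s u b k := by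
  have e1 := up (t1 := (-231 / 1000)) (t2 := (-194 / 1000)) (x := b) (by norm_num)
    (by linarith only [b1]) (by linarith only [b2])
  have e2 := R.lo6 (247 / 1000) (by norm_num)
  have e3 := up (t1 := (-68 / 1000)) (t2 := (-67 / 1000)) (x := h0 - 1) (by norm_num)
    (by linarith only [R.h1]) (by linarith only [R.h2])
  have e4 := up (t1 := (247 / 1000)) (t2 := (256 / 1000)) (x := s - u) (by norm_num)
    (by linarith only [R.h1, R.u4, s1]) (by linarith only [s2, u1])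
  have e5 := R.lo21 (333 / 1000) (by norm_num)
  have e6 := R.lo3 (-195 / 1000) (by norm_num)
  have e7 := up (t1 := (305 / 1000)) (t2 := (345 / 1000)) (x := h0 + b / 2 - k) (by norm_num)
    (by linarith only [R.k2, R.h1, b1, e1]) (by linarith only [R.k1, R.h2, b2, e6])
  have e8 := R.lo7 (247 / 1000) (by norm_num)
  have e9 := R.lo18 (80 / 1000) (by norm_num)
  right
  right
  right
  right
  right
  right
  left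
  unfold fb_h1_o_he_o
  linarith only [R.k2, R.h1, s1, u1, b1, e1, e2, e3, e4, e5, e7, e8, e9]

theorem bb45 {s u b k : ℝ} (R : RegB s u b k)
    (s1 : 609 / 1000 ≤ s) (s2 : s ≤ 309 / 500) (u1 : 63 / 500 ≤ u) (u2 : u ≤ 67 / 500)
    (b1 : -1 / 2 ≤ b) (b2 : b ≤ -3 / 8) :
    0 ≤ fb_h1_hH_hh_Tv s u b k ∨ (h0 + u + b / 2 + k ≤ 1 ∧ 0 ≤ fb_h1_hH_hh_HH s u b k) ∨ 0 ≤ fb_h1_hH_hh_o s u b k ∨ 0 ≤ fb_h1_o_hh_o s u b k ∨ (u + b / 2 + k ≤ 0 ∧ 0 ≤ fb_hs_v2_hh_vl s u b k) ∨ (u + b / 2 + k ≤ 0 ∧ 0 ≤ fb_hs_v2_he_vl s u b k) ∨ 0 ≤ fb_h1_o_he_o s u b k ∨ 0 ≤ fb_hs_o_he_o s u b k := by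
  have e1 := up (t1 := (-268 / 1000)) (t2 := (-194 / 1000)) (x := b) (by norm_num)
    (by linarith only [b1]) (by linarith only [b2])
  have e2 := R.lo6 (253 / 1000) (by norm_num)
  have e3 := up (t1 := (-68 / 1000)) (t2 := (-67 / 1000)) (x := h0 - 1) (by norm_num)
    (by linarith only [R.h1]) (by linarith only [R.h2])
  have e4 := up (t1 := (252 / 1000)) (t2 := (264 / 1000)) (x := s - u) (by norm_num)
    (by linarith only [R.h1, R.u4, s1]) (by linarith only [s2, u1])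
  have e5 := R.lo21 (340 / 1000) (by norm_num)
  have e6 := R.lo3 (-195 / 1000) (by norm_num)
  have e7 := up (t1 := (267 / 1000)) (t2 := (345 / 1000)) (x := h0 + b / 2 - k) (by norm_num)
    (by linarith only [R.k2, R.h1, b1, e1]) (by linarith only [R.k1, R.h2, b2, e6])
  have e8 := R.lo18 (88 / 1000) (by norm_num)
  have e9 := R.lo17 (585 / 1000) (by norm_num)
  have e10 := R.lo18 (72 / 1000) (by norm_num)
  right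
  right
  right
  right
  right
  right
  right
  unfold fb_hs_o_he_o
  linarith only [R.k2, R.h1, s1, u1, e1, e2, e3, e4, e5, e7, e8, e9, e10]

theorem bb49 {s u b k : ℝ} (R : RegB s u b k)
    (s1 : 309 / 500 ≤ s) (s2 : s ≤ 1253 / 2000) (u1 : 59 / 500 ≤ u) (u2 : u ≤ 61 / 500)
    (b1 : -1 / 2 ≤ b) (b2 : b ≤ -3 / 8) :
    0 ≤ fb_h1_hH_hh_Tv s u b k ∨ (h0 + u + b / 2 + k ≤ 1 ∧ 0 ≤ fb_h1_hH_hh_HH s u b k) ∨ 0 ≤ fb_h1_hH_hh_o s u b k ∨ 0 ≤ fb_h1_o_hh_o s u b k ∨ (u + b / 2 + k ≤ 0 ∧ 0 ≤ fb_hs_v2_hh_vl s u b k) ∨ (u + b / 2 + k ≤ 0 ∧ 0 ≤ fb_hs_v2_he_vl s u b k) ∨ 0 ≤ fb_h1_o_he_o s u b k ∨ 0 ≤ fb_hs_o_he_o s u b k := by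
  have e1 := up (t1 := (-268 / 1000)) (t2 := (-194 / 1000)) (x := b) (by norm_num)
    (by linarith only [b1]) (by linarith only [b2])
  have e2 := R.lo6 (258 / 1000) (by norm_num)
  have e3 := up (t1 := (-68 / 1000)) (t2 := (-67 / 1000)) (x := h0 - 1) (by norm_num)
    (by linarith only [R.h1]) (by linarith only [R.h2])
  have e4 := up (t1 := (-689 / 1000)) (t2 := (-688 / 1000)) (x := h0 - 9 / 5) (by norm_num)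
    (by linarith only [R.h1]) (by linarith only [R.h2])
  have e5 := up (t1 := (-462 / 1000)) (t2 := (-453 / 1000)) (x := h0 - s - 1) (by norm_num)
    (by linarith only [R.h1, s2]) (by linarith only [R.h2, s1])
  have e6 := up (t1 := (265 / 1000)) (t2 := (274 / 1000)) (x := s - u) (by norm_num)
    (by linarith only [s1, u2]) (by linarith only [s2, u1])
  have e7 := R.lo21 (346 / 1000) (by norm_num)
  have e8 := R.lo2 (-225 / 1000) (by norm_num)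
  have e9 := R.lo2 (-191 / 1000) (by norm_num)
  have e10 := R.lo3 (-195 / 1000) (by norm_num)
  have e11 := up (t1 := (267 / 1000)) (t2 := (345 / 1000)) (x := h0 + b / 2 - k) (by norm_num)
    (by linarith only [R.k2, R.h1, b1, e1]) (by linarith only [R.k1, R.h2, b2, e10])
  have e12 := R.lo9 (-708 / 1000) (by norm_num)
  have e13 := R.lo9 (-693 / 1000) (by norm_num)
  have e14 := R.lo10 (-455 / 1000) (by norm_num)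
  have e15 := R.lo17 (590 / 1000) (by norm_num)
  have e16 := R.lo18 (98 / 1000) (by norm_num)
  right
  right
  right
  right
  right
  left
  refine ⟨by linarith only [R.k2, u2, b2, e1], ?_⟩
  unfold fb_hs_v2_he_vl
  linarith only [R.k2, R.h1, s1, e1, e2, e3, e4, e5, e6, e7, e8, e9, e11, e12, e13, e14, e15, e16]

theorem bb50 {s u b k : ℝ} (R : RegB s u b k)
    (s1 : 309 / 500 ≤ s) (s2 : s ≤ 1253 / 2000) (u1 : 61 / 500 ≤ u) (u2 : u ≤ 63 / 500)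
    (b1 : -1 / 2 ≤ b) (b2 : b ≤ -3 / 8) :
    0 ≤ fb_h1_hH_hh_Tv s u b k ∨ (h0 + u + b / 2 + k ≤ 1 ∧ 0 ≤ fb_h1_hH_hh_HH s u b k) ∨ 0 ≤ fb_h1_hH_hh_o s u b k ∨ 0 ≤ fb_h1_o_hh_o s u b k ∨ (u + b / 2 + k ≤ 0 ∧ 0 ≤ fb_hs_v2_hh_vl s u b k) ∨ (u + b / 2 + k ≤ 0 ∧ 0 ≤ fb_hs_v2_he_vl s u b k) ∨ 0 ≤ fb_h1_o_he_o s u b k ∨ 0 ≤ fb_hs_o_he_o s u b k := by
  have e1 := up (t1 := (-268 / 1000)) (t2 := (-194 / 1000)) (x := b) (by norm_num)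
    (by linarith only [b1]) (by linarith only [b2])
  have e2 := R.lo6 (258 / 1000) (by norm_num)
  have e3 := up (t1 := (-68 / 1000)) (t2 := (-67 / 1000)) (x := h0 - 1) (by norm_num)
    (by linarith only [R.h1]) (by linarith only [R.h2])
  have e4 := up (t1 := (263 / 1000)) (t2 := (271 / 1000)) (x := s - u) (by norm_num)
    (by linarith only [s1, u2]) (by linarith only [s2, u1])
  have e5 := R.lo21 (346 / 1000) (by norm_num)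
  have e6 := R.lo3 (-195 / 1000) (by norm_num)
  have e7 := up (t1 := (267 / 1000)) (t2 := (345 / 1000)) (x := h0 + b / 2 - k) (by norm_num)
    (by linarith only [R.k2, R.h1, b1, e1]) (by linarith only [R.k1, R.h2, b2, e6])
  have e8 := R.lo17 (594 / 1000) (by norm_num)
  have e9 := R.lo18 (96 / 1000) (by norm_num)
  have e10 := R.lo18 (63 / 1000) (by norm_num)
  right
  right
  right
  right
  right
  right
  right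
  unfold fb_hs_o_he_o
  linarith only [R.k2, R.h1, s1, u1, e1, e2, e3, e4, e5, e7, e8, e9, e10]

theorem bb51 {s u b k : ℝ} (R : RegB s u b k)
    (s1 : 309 / 500 ≤ s) (s2 : s ≤ 1253 / 2000) (u1 : 63 / 500 ≤ u) (u2 : u ≤ 67 / 500)
    (b1 : -1 / 2 ≤ b) (b2 : b ≤ -3 / 8) :
    0 ≤ fb_h1_hH_hh_Tv s u b k ∨ (h0 + u + b / 2 + k ≤ 1 ∧ 0 ≤ fb_h1_hH_hh_HH s u b k) ∨ 0 ≤ fb_h1_hH_hh_o s u b k ∨ 0 ≤ fb_h1_o_hh_o s u b k ∨ (u + b / 2 + k ≤ 0 ∧ 0 ≤ fb_hs_v2_hh_vl s u b k) ∨ (u + b / 2 + k ≤ 0 ∧ 0 ≤ fb_hs_v2_he_vl s u b k) ∨ 0 ≤ fb_h1_o_he_o s u b k ∨ 0 ≤ fb_hs_o_he_o s u b k := by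
  have e1 := up (t1 := (-268 / 1000)) (t2 := (-194 / 1000)) (x := b) (by norm_num)
    (by linarith only [b1]) (by linarith only [b2])
  have e2 := R.lo6 (258 / 1000) (by norm_num)
  have e3 := up (t1 := (-68 / 1000)) (t2 := (-67 / 1000)) (x := h0 - 1) (by norm_num)
    (by linarith only [R.h1]) (by linarith only [R.h2])
  have e4 := up (t1 := (258 / 1000)) (t2 := (269 / 1000)) (x := s - u) (by norm_num)
    (by linarith only [R.h1, R.u4, s1]) (by linarith only [s2, u1])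
  have e5 := R.lo21 (346 / 1000) (by norm_num)
  have e6 := R.lo3 (-195 / 1000) (by norm_num)
  have e7 := up (t1 := (267 / 1000)) (t2 := (345 / 1000)) (x := h0 + b / 2 - k) (by norm_num)
    (by linarith only [R.k2, R.h1, b1, e1]) (by linarith only [R.k1, R.h2, b2, e6])
  have e8 := R.lo7 (260 / 1000) (by norm_num)
  have e9 := R.lo18 (59 / 1000) (by norm_num)
  right
  right
  right
  right
  right
  right
  left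
  unfold fb_h1_o_he_o
  linarith only [R.k2, R.h1, s1, u1, b1, e1, e2, e3, e4, e5, e7, e8, e9]

theorem bb52 {s u b k : ℝ} (R : RegB s u b k)
    (s1 : 1253 / 2000 ≤ s) (s2 : s ≤ 127 / 200) (u1 : 59 / 500 ≤ u) (u2 : u ≤ 67 / 500)
    (b1 : -1 / 2 ≤ b) (b2 : b ≤ -3 / 8) :
    0 ≤ fb_h1_hH_hh_Tv s u b k ∨ (h0 + u + b / 2 + k ≤ 1 ∧ 0 ≤ fb_h1_hH_hh_HH s u b k) ∨ 0 ≤ fb_h1_hH_hh_o s u b k ∨ 0 ≤ fb_h1_o_hh_o s u b k ∨ (u + b / 2 + k ≤ 0 ∧ 0 ≤ fb_hs_v2_hh_vl s u b k) ∨ (u + b / 2 + k ≤ 0 ∧ 0 ≤ fb_hs_v2_he_vl s u b k) ∨ 0 ≤ fb_h1_o_he_o s u b k ∨ 0 ≤ fb_hs_o_he_o s u b k := by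
  have e1 := up (t1 := (-268 / 1000)) (t2 := (-194 / 1000)) (x := b) (by norm_num)
    (by linarith only [b1]) (by linarith only [b2])
  have e2 := R.lo6 (263 / 1000) (by norm_num)
  have e3 := up (t1 := (-68 / 1000)) (t2 := (-67 / 1000)) (x := h0 - 1) (by norm_num)
    (by linarith only [R.h1]) (by linarith only [R.h2])
  have e4 := up (t1 := (263 / 1000)) (t2 := (279 / 1000)) (x := s - u) (by norm_num)
    (by linarith only [R.h1, R.u4, s1]) (by linarith only [s2, u1])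
  have e5 := R.lo21 (352 / 1000) (by norm_num)
  have e6 := R.lo3 (-195 / 1000) (by norm_num)
  have e7 := up (t1 := (267 / 1000)) (t2 := (345 / 1000)) (x := h0 + b / 2 - k) (by norm_num)
    (by linarith only [R.k2, R.h1, b1, e1]) (by linarith only [R.k1, R.h2, b2, e6])
  have e8 := R.lo17 (599 / 1000) (by norm_num)
  have e9 := R.lo18 (63 / 1000) (by norm_num)
  have e10 := R.lo18 (81 / 1000) (by norm_num)
  right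
  right
  right
  right
  right
  right
  right
  unfold fb_hs_o_he_o
  linarith only [R.k2, R.h1, s1, u1, e1, e2, e3, e4, e5, e7, e8, e9, e10]

theorem bb53 {s u b k : ℝ} (R : RegB s u b k)
    (s1 : 127 / 200 ≤ s) (s2 : s ≤ 67 / 100) (u1 : 59 / 500 ≤ u) (u2 : u ≤ 67 / 500)
    (b1 : -1 / 2 ≤ b) (b2 : b ≤ -3 / 8) :
    0 ≤ fb_h1_hH_hh_Tv s u b k ∨ (h0 + u + b / 2 + k ≤ 1 ∧ 0 ≤ fb_h1_hH_hh_HH s u b k) ∨ 0 ≤ fb_h1_hH_hh_o s u b k ∨ 0 ≤ fb_h1_o_hh_o s u b k ∨ (u + b / 2 + k ≤ 0 ∧ 0 ≤ fb_hs_v2_hh_vl s u b k) ∨ (u + b / 2 + k ≤ 0 ∧ 0 ≤ fb_hs_v2_he_vl s u b k) ∨ 0 ≤ fb_h1_o_he_o s u b k ∨ 0 ≤ fb_hs_o_he_o s u b k := by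
  have e1 := up (t1 := (-268 / 1000)) (t2 := (-194 / 1000)) (x := b) (by norm_num)
    (by linarith only [b1]) (by linarith only [b2])
  have e2 := R.lo6 (269 / 1000) (by norm_num)
  have e3 := up (t1 := (-68 / 1000)) (t2 := (-67 / 1000)) (x := h0 - 1) (by norm_num)
    (by linarith only [R.h1]) (by linarith only [R.h2])
  have e4 := up (t1 := (268 / 1000)) (t2 := (302 / 1000)) (x := s - u) (by norm_num)
    (by linarith only [R.h1, R.u4, s1]) (by linarith only [s2, u1])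
  have e5 := R.lo21 (358 / 1000) (by norm_num)
  have e6 := R.lo3 (-195 / 1000) (by norm_num)
  have e7 := up (t1 := (267 / 1000)) (t2 := (345 / 1000)) (x := h0 + b / 2 - k) (by norm_num)
    (by linarith only [R.k2, R.h1, b1, e1]) (by linarith only [R.k1, R.h2, b2, e6])
  have e8 := R.lo17 (599 / 1000) (by norm_num)
  have e9 := R.lo18 (110 / 1000) (by norm_num)
  have e10 := R.lo18 (68 / 1000) (by norm_num)
  right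
  right
  right
  right
  right
  right
  right
  unfold fb_hs_o_he_o
  linarith only [R.k2, R.h1, s1, u1, e1, e2, e3, e4, e5, e7, e8, e9, e10]

theorem bb57 {s u b k : ℝ} (R : RegB s u b k)
    (s1 : 3 / 5 ≤ s) (s2 : s ≤ 67 / 100) (u1 : 101 / 1000 ≤ u) (u2 : u ≤ 59 / 500)
    (b1 : -3 / 8 ≤ b) (b2 : b ≤ -43 / 125) :
    0 ≤ fb_h1_hH_hh_Tv s u b k ∨ (h0 + u + b / 2 + k ≤ 1 ∧ 0 ≤ fb_h1_hH_hh_HH s u b k) ∨ 0 ≤ fb_h1_hH_hh_o s u b k ∨ 0 ≤ fb_h1_o_hh_o s u b k ∨ (u + b / 2 + k ≤ 0 ∧ 0 ≤ fb_hs_v2_hh_vl s u b k) ∨ (u + b / 2 + k ≤ 0 ∧ 0 ≤ fb_hs_v2_he_vl s u b k) ∨ 0 ≤ fb_h1_o_he_o s u b k ∨ 0 ≤ fb_hs_o_he_o s u b k := by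
  have e1 := up (t1 := (-195 / 1000)) (t2 := (-177 / 1000)) (x := b) (by norm_num)
    (by linarith only [b1]) (by linarith only [b2])
  have e2 := R.lo6 (269 / 1000) (by norm_num)
  have e3 := R.lo6 (247 / 1000) (by norm_num)
  have e4 := up (t1 := (-68 / 1000)) (t2 := (-67 / 1000)) (x := h0 - 1) (by norm_num)
    (by linarith only [R.h1]) (by linarith only [R.h2])
  have e5 := up (t1 := (-689 / 1000)) (t2 := (-688 / 1000)) (x := h0 - 9 / 5) (by norm_num)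
    (by linarith only [R.h1]) (by linarith only [R.h2])
  have e6 := up (t1 := (-505 / 1000)) (t2 := (-437 / 1000)) (x := h0 - s - 1) (by norm_num)
    (by linarith only [R.h1, s2]) (by linarith only [R.h2, s1])
  have e7 := up (t1 := (256 / 1000)) (t2 := (313 / 1000)) (x := s - u) (by norm_num)
    (by linarith only [s1, u2]) (by linarith only [s2, u1])
  have e8 := R.lo21 (358 / 1000) (by norm_num)
  have e9 := R.lo2 (-191 / 1000) (by norm_num)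
  have e10 := R.lo9 (-690 / 1000) (by norm_num)
  have e11 := R.lo10 (-438 / 1000) (by norm_num)
  have e12 := R.lo17 (579 / 1000) (by norm_num)
  have e13 := R.lo18 (117 / 1000) (by norm_num)
  have e14 := R.lo19 (334 / 1000) (by norm_num)
  right
  right
  right
  right
  left
  refine ⟨by linarith only [R.k2, u2, b2, e1], ?_⟩
  unfold fb_hs_v2_hh_vl
  linarith only [R.k2, R.h1, u2, b1, e1, e2, e3, e4, e5, e6, e7, e8, e9, e10, e11, e12, e13, e14]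

theorem bb59 {s u b k : ℝ} (R : RegB s u b k)
    (s1 : 3 / 5 ≤ s) (s2 : s ≤ 67 / 100) (u1 : 101 / 1000 ≤ u) (u2 : u ≤ 219 / 2000)
    (b1 : -43 / 125 ≤ b) (b2 : b ≤ -313 / 1000) :
    0 ≤ fb_h1_hH_hh_Tv s u b k ∨ (h0 + u + b / 2 + k ≤ 1 ∧ 0 ≤ fb_h1_hH_hh_HH s u b k) ∨ 0 ≤ fb_h1_hH_hh_o s u b k ∨ 0 ≤ fb_h1_o_hh_o s u b k ∨ (u + b / 2 + k ≤ 0 ∧ 0 ≤ fb_hs_v2_hh_vl s u b k) ∨ (u + b / 2 + k ≤ 0 ∧ 0 ≤ fb_hs_v2_he_vl s u b k) ∨ 0 ≤ fb_h1_o_he_o s u b k ∨ 0 ≤ fb_hs_o_he_o s u b k := by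
  have e1 := up (t1 := (-178 / 1000)) (t2 := (-160 / 1000)) (x := b) (by norm_num)
    (by linarith only [b1]) (by linarith only [b2])
  have e2 := R.lo6 (247 / 1000) (by norm_num)
  have e3 := up (t1 := (-68 / 1000)) (t2 := (-67 / 1000)) (x := h0 - 1) (by norm_num)
    (by linarith only [R.h1]) (by linarith only [R.h2])
  have e4 := up (t1 := (-689 / 1000)) (t2 := (-688 / 1000)) (x := h0 - 9 / 5) (by norm_num)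
    (by linarith only [R.h1]) (by linarith only [R.h2])
  have e5 := up (t1 := (-505 / 1000)) (t2 := (-437 / 1000)) (x := h0 - s - 1) (by norm_num)
    (by linarith only [R.h1, s2]) (by linarith only [R.h2, s1])
  have e6 := up (t1 := (262 / 1000)) (t2 := (313 / 1000)) (x := s - u) (by norm_num)
    (by linarith only [s1, u2]) (by linarith only [s2, u1])
  have e7 := R.lo21 (358 / 1000) (by norm_num)
  have e8 := R.lo2 (-163 / 1000) (by norm_num)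
  have e9 := R.lo2 (-172 / 1000) (by norm_num)
  have e10 := R.lo9 (-712 / 1000) (by norm_num)
  have e11 := R.lo10 (-440 / 1000) (by norm_num)
  have e12 := R.lo17 (592 / 1000) (by norm_num)
  have e13 := R.lo18 (163 / 1000) (by norm_num)
  have e14 := R.lo18 (135 / 1000) (by norm_num)
  have e15 := R.lo19 (336 / 1000) (by norm_num)
  right
  right
  right
  right
  left
  refine ⟨by linarith only [R.k2, u2, b2, e1], ?_⟩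
  unfold fb_hs_v2_hh_vl
  linarith only [R.k2, R.h1, u2, e1, e2, e3, e4, e5, e6, e7, e8, e9, e10, e11, e12, e13, e14, e15]

theorem bb60 {s u b k : ℝ} (R : RegB s u b k)
    (s1 : 3 / 5 ≤ s) (s2 : s ≤ 67 / 100) (u1 : 219 / 2000 ≤ u) (u2 : u ≤ 59 / 500)
    (b1 : -43 / 125 ≤ b) (b2 : b ≤ -313 / 1000) :
    0 ≤ fb_h1_hH_hh_Tv s u b k ∨ (h0 + u + b / 2 + k ≤ 1 ∧ 0 ≤ fb_h1_hH_hh_HH s u b k) ∨ 0 ≤ fb_h1_hH_hh_o s u b k ∨ 0 ≤ fb_h1_o_hh_o s u b k ∨ (u + b / 2 + k ≤ 0 ∧ 0 ≤ fb_hs_v2_hh_vl s u b k) ∨ (u + b / 2 + k ≤ 0 ∧ 0 ≤ fb_hs_v2_he_vl s u b k) ∨ 0 ≤ fb_h1_o_he_o s u b k ∨ 0 ≤ fb_hs_o_he_o s u b k := by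
  have e1 := up (t1 := (-178 / 1000)) (t2 := (-160 / 1000)) (x := b) (by norm_num)
    (by linarith only [b1]) (by linarith only [b2])
  have e2 := up (t1 := (-68 / 1000)) (t2 := (-67 / 1000)) (x := h0 - 1) (by norm_num)
    (by linarith only [R.h1]) (by linarith only [R.h2])
  have e3 := up (t1 := (256 / 1000)) (t2 := (307 / 1000)) (x := s - u) (by norm_num)
    (by linarith only [s1, u2]) (by linarith only [s2, u1])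
  have e4 := R.lo21 (333 / 1000) (by norm_num)
  have e5 := R.lo7 (270 / 1000) (by norm_num)
  have e6 := R.lo18 (131 / 1000) (by norm_num)
  have e7 := R.lo19 (360 / 1000) (by norm_num)
  have e8 := R.lo19 (330 / 1000) (by norm_num)
  right
  right
  right
  left
  unfold fb_h1_o_hh_o
  linarith only [R.k2, R.h1, u1, b1, e1, e2, e3, e4, e5, e6, e7, e8]

theorem bb61 {s u b k : ℝ} (R : RegB s u b k)
    (s1 : 3 / 5 ≤ s) (s2 : s ≤ 67 / 100) (u1 : 101 / 1000 ≤ u) (u2 : u ≤ 59 / 500)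
    (b1 : -313 / 1000 ≤ b) (b2 : b ≤ -1 / 4) :
    0 ≤ fb_h1_hH_hh_Tv s u b k ∨ (h0 + u + b / 2 + k ≤ 1 ∧ 0 ≤ fb_h1_hH_hh_HH s u b k) ∨ 0 ≤ fb_h1_hH_hh_o s u b k ∨ 0 ≤ fb_h1_o_hh_o s u b k ∨ (u + b / 2 + k ≤ 0 ∧ 0 ≤ fb_hs_v2_hh_vl s u b k) ∨ (u + b / 2 + k ≤ 0 ∧ 0 ≤ fb_hs_v2_he_vl s u b k) ∨ 0 ≤ fb_h1_o_he_o s u b k ∨ 0 ≤ fb_hs_o_he_o s u b k := by
  have e1 := up (t1 := (-161 / 1000)) (t2 := (-127 / 1000)) (x := b) (by norm_num)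
    (by linarith only [b1]) (by linarith only [b2])
  have e2 := up (t1 := (-68 / 1000)) (t2 := (-67 / 1000)) (x := h0 - 1) (by norm_num)
    (by linarith only [R.h1]) (by linarith only [R.h2])
  have e3 := up (t1 := (256 / 1000)) (t2 := (313 / 1000)) (x := s - u) (by norm_num)
    (by linarith only [s1, u2]) (by linarith only [s2, u1])
  have e4 := R.lo21 (333 / 1000) (by norm_num)
  have e5 := R.lo7 (266 / 1000) (by norm_num)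
  have e6 := R.lo18 (144 / 1000) (by norm_num)
  have e7 := R.lo19 (355 / 1000) (by norm_num)
  right
  right
  right
  left
  unfold fb_h1_o_hh_o
  linarith only [R.k2, R.h1, s1, u1, b1, e1, e2, e3, e4, e5, e6, e7]

theorem bb62 {s u b k : ℝ} (R : RegB s u b k)
    (s1 : 3 / 5 ≤ s) (s2 : s ≤ 67 / 100) (u1 : 59 / 500 ≤ u) (u2 : u ≤ 67 / 500)
    (b1 : -3 / 8 ≤ b) (b2 : b ≤ -1 / 4) :
    0 ≤ fb_h1_hH_hh_Tv s u b k ∨ (h0 + u + b / 2 + k ≤ 1 ∧ 0 ≤ fb_h1_hH_hh_HH s u b k) ∨ 0 ≤ fb_h1_hH_hh_o s u b k ∨ 0 ≤ fb_h1_o_hh_o s u b k ∨ (u + b / 2 + k ≤ 0 ∧ 0 ≤ fb_hs_v2_hh_vl s u b k) ∨ (u + b / 2 + k ≤ 0 ∧ 0 ≤ fb_hs_v2_he_vl s u b k) ∨ 0 ≤ fb_h1_o_he_o s u b k ∨ 0 ≤ fb_hs_o_he_o s u b k := by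
  have e1 := up (t1 := (-195 / 1000)) (t2 := (-127 / 1000)) (x := b) (by norm_num)
    (by linarith only [b1]) (by linarith only [b2])
  have e2 := up (t1 := (-68 / 1000)) (t2 := (-67 / 1000)) (x := h0 - 1) (by norm_num)
    (by linarith only [R.h1]) (by linarith only [R.h2])
  have e3 := up (t1 := (247 / 1000)) (t2 := (302 / 1000)) (x := s - u) (by norm_num)
    (by linarith only [R.h1, R.u4, s1]) (by linarith only [s2, u1])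
  have e4 := R.lo21 (333 / 1000) (by norm_num)
  have e5 := R.lo7 (259 / 1000) (by norm_num)
  have e6 := R.lo18 (109 / 1000) (by norm_num)
  have e7 := R.lo19 (347 / 1000) (by norm_num)
  right
  right
  right
  left
  unfold fb_h1_o_hh_o
  linarith only [R.k2, R.h1, s1, u1, b1, e1, e2, e3, e4, e5, e6, e7]

theorem bb68 {s u b k : ℝ} (R : RegB s u b k)
    (s1 : 3 / 5 ≤ s) (s2 : s ≤ 67 / 100) (u1 : 3397 / 50000 ≤ u) (u2 : u ≤ 19 / 250)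
    (b1 : -1 / 4 ≤ b) (b2 : b ≤ -47 / 250) :
    0 ≤ fb_h1_hH_hh_Tv s u b k ∨ (h0 + u + b / 2 + k ≤ 1 ∧ 0 ≤ fb_h1_hH_hh_HH s u b k) ∨ 0 ≤ fb_h1_hH_hh_o s u b k ∨ 0 ≤ fb_h1_o_hh_o s u b k ∨ (u + b / 2 + k ≤ 0 ∧ 0 ≤ fb_hs_v2_hh_vl s u b k) ∨ (u + b / 2 + k ≤ 0 ∧ 0 ≤ fb_hs_v2_he_vl s u b k) ∨ 0 ≤ fb_h1_o_he_o s u b k ∨ 0 ≤ fb_hs_o_he_o s u b k := by
  have e1 := up (t1 := (-128 / 1000)) (t2 := (-94 / 1000)) (x := b) (by norm_num)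
    (by linarith only [b1]) (by linarith only [b2])
  have e2 := R.lo6 (269 / 1000) (by norm_num)
  have e3 := R.lo6 (247 / 1000) (by norm_num)
  have e4 := up (t1 := (-68 / 1000)) (t2 := (-67 / 1000)) (x := h0 - 1) (by norm_num)
    (by linarith only [R.h1]) (by linarith only [R.h2])
  have e5 := up (t1 := (-689 / 1000)) (t2 := (-688 / 1000)) (x := h0 - 9 / 5) (by norm_num)
    (by linarith only [R.h1]) (by linarith only [R.h2])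
  have e6 := up (t1 := (-505 / 1000)) (t2 := (-437 / 1000)) (x := h0 - s - 1) (by norm_num)
    (by linarith only [R.h1, s2]) (by linarith only [R.h2, s1])
  have e7 := up (t1 := (282 / 1000)) (t2 := (335 / 1000)) (x := s - u) (by norm_num)
    (by linarith only [s1, u2]) (by linarith only [s2, u1])
  have e8 := R.lo21 (358 / 1000) (by norm_num)
  have e9 := R.lo2 (-89 / 1000) (by norm_num)
  have e10 := R.lo9 (-693 / 1000) (by norm_num)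
  have e11 := R.lo10 (-439 / 1000) (by norm_num)
  have e12 := R.lo17 (581 / 1000) (by norm_num)
  have e13 := R.lo18 (227 / 1000) (by norm_num)
  have e14 := R.lo19 (335 / 1000) (by norm_num)
  right
  right
  right
  right
  left
  refine ⟨by linarith only [R.k2, u2, b2, e1], ?_⟩
  unfold fb_hs_v2_hh_vl
  linarith only [R.k2, R.h1, u2, b2, e1, e2, e3, e4, e5, e6, e7, e8, e9, e10, e11, e12, e13, e14]

theorem bb69 {s u b k : ℝ} (R : RegB s u b k)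
    (s1 : 3 / 5 ≤ s) (s2 : s ≤ 67 / 100) (u1 : 3397 / 50000 ≤ u) (u2 : u ≤ 19 / 250)
    (b1 : -47 / 250 ≤ b) (b2 : b ≤ -1 / 8) :
    0 ≤ fb_h1_hH_hh_Tv s u b k ∨ (h0 + u + b / 2 + k ≤ 1 ∧ 0 ≤ fb_h1_hH_hh_HH s u b k) ∨ 0 ≤ fb_h1_hH_hh_o s u b k ∨ 0 ≤ fb_h1_o_hh_o s u b k ∨ (u + b / 2 + k ≤ 0 ∧ 0 ≤ fb_hs_v2_hh_vl s u b k) ∨ (u + b / 2 + k ≤ 0 ∧ 0 ≤ fb_hs_v2_he_vl s u b k) ∨ 0 ≤ fb_h1_o_he_o s u b k ∨ 0 ≤ fb_hs_o_he_o s u b k := by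
  have e1 := up (t1 := (-95 / 1000)) (t2 := (-62 / 1000)) (x := b) (by norm_num)
    (by linarith only [b1]) (by linarith only [b2])
  have e2 := up (t1 := (-68 / 1000)) (t2 := (-67 / 1000)) (x := h0 - 1) (by norm_num)
    (by linarith only [R.h1]) (by linarith only [R.h2])
  have e3 := up (t1 := (282 / 1000)) (t2 := (335 / 1000)) (x := s - u) (by norm_num)
    (by linarith only [s1, u2]) (by linarith only [s2, u1])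
  have e4 := R.lo21 (358 / 1000) (by norm_num)
  have e5 := R.lo21 (333 / 1000) (by norm_num)
  have e6 := R.lo7 (266 / 1000) (by norm_num)
  have e7 := R.lo18 (217 / 1000) (by norm_num)
  have e8 := R.lo19 (355 / 1000) (by norm_num)
  right
  right
  right
  left
  unfold fb_h1_o_hh_o
  linarith only [R.k2, R.u3, u1, b1, e1, e2, e3, e4, e5, e6, e7, e8]

theorem bb70 {s u b k : ℝ} (R : RegB s u b k)
    (s1 : 3 / 5 ≤ s) (s2 : s ≤ 67 / 100) (u1 : 3397 / 50000 ≤ u) (u2 : u ≤ 19 / 250)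
    (b1 : -1 / 8 ≤ b) (b2 : b ≤ 0) :
    0 ≤ fb_h1_hH_hh_Tv s u b k ∨ (h0 + u + b / 2 + k ≤ 1 ∧ 0 ≤ fb_h1_hH_hh_HH s u b k) ∨ 0 ≤ fb_h1_hH_hh_o s u b k ∨ 0 ≤ fb_h1_o_hh_o s u b k ∨ (u + b / 2 + k ≤ 0 ∧ 0 ≤ fb_hs_v2_hh_vl s u b k) ∨ (u + b / 2 + k ≤ 0 ∧ 0 ≤ fb_hs_v2_he_vl s u b k) ∨ 0 ≤ fb_h1_o_he_o s u b k ∨ 0 ≤ fb_hs_o_he_o s u b k := by
  have e1 := up (t1 := (-63 / 1000)) (t2 := (0 / 1000)) (x := b) (by norm_num)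
    (by linarith only [b1]) (by linarith only [b2])
  have e2 := up (t1 := (247 / 1000)) (t2 := (291 / 1000)) (x := h0 + s - 1) (by norm_num)
    (by linarith only [R.h1, s1]) (by linarith only [R.h2, s2])
  have e3 := up (t1 := (-68 / 1000)) (t2 := (-67 / 1000)) (x := h0 - 1) (by norm_num)
    (by linarith only [R.h1]) (by linarith only [R.h2])
  have e4 := up (t1 := (282 / 1000)) (t2 := (335 / 1000)) (x := s - u) (by norm_num)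
    (by linarith only [s1, u2]) (by linarith only [s2, u1])
  have e5 := R.lo21 (358 / 1000) (by norm_num)
  have e6 := R.lo21 (333 / 1000) (by norm_num)
  have e7 := R.lo7 (242 / 1000) (by norm_num)
  have e8 := R.lo8 (-61 / 1000) (by norm_num)
  have e9 := R.lo11 (6 / 1000) (by norm_num)
  have e10 := R.lo18 (240 / 1000) (by norm_num)
  have e11 := R.lo19 (327 / 1000) (by norm_num)
  right
  left
  refine ⟨by linarith only [R.k2, R.h2, u2, b2, e1], ?_⟩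
  unfold fb_h1_hH_hh_HH
  linarith only [R.k2, R.u3, u1, b1, e1, e2, e3, e4, e5, e6, e7, e8, e9, e10, e11]

theorem bb71 {s u b k : ℝ} (R : RegB s u b k)
    (s1 : 3 / 5 ≤ s) (s2 : s ≤ 67 / 100) (u1 : 19 / 250 ≤ u) (u2 : u ≤ 21 / 250)
    (b1 : -1 / 4 ≤ b) (b2 : b ≤ 0) :
    0 ≤ fb_h1_hH_hh_Tv s u b k ∨ (h0 + u + b / 2 + k ≤ 1 ∧ 0 ≤ fb_h1_hH_hh_HH s u b k) ∨ 0 ≤ fb_h1_hH_hh_o s u b k ∨ 0 ≤ fb_h1_o_hh_o s u b k ∨ (u + b / 2 + k ≤ 0 ∧ 0 ≤ fb_hs_v2_hh_vl s u b k) ∨ (u + b / 2 + k ≤ 0 ∧ 0 ≤ fb_hs_v2_he_vl s u b k) ∨ 0 ≤ fb_h1_o_he_o s u b k ∨ 0 ≤ fb_hs_o_he_o s u b k := by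
  have e1 := up (t1 := (-128 / 1000)) (t2 := (0 / 1000)) (x := b) (by norm_num)
    (by linarith only [b1]) (by linarith only [b2])
  have e2 := up (t1 := (-68 / 1000)) (t2 := (-67 / 1000)) (x := h0 - 1) (by norm_num)
    (by linarith only [R.h1]) (by linarith only [R.h2])
  have e3 := up (t1 := (277 / 1000)) (t2 := (330 / 1000)) (x := s - u) (by norm_num)
    (by linarith only [s1, u2]) (by linarith only [s2, u1])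
  have e4 := R.lo21 (333 / 1000) (by norm_num)
  have e5 := R.lo7 (271 / 1000) (by norm_num)
  have e6 := R.lo18 (202 / 1000) (by norm_num)
  have e7 := R.lo19 (361 / 1000) (by norm_num)
  have e8 := R.lo21 (346 / 1000) (by norm_num)
  right
  right
  right
  left
  unfold fb_h1_o_hh_o
  linarith only [R.k2, R.h1, u1, b1, e1, e2, e3, e4, e5, e6, e7, e8]

theorem bb72 {s u b k : ℝ} (R : RegB s u b k)
    (s1 : 3 / 5 ≤ s) (s2 : s ≤ 67 / 100) (u1 : 21 / 250 ≤ u) (u2 : u ≤ 101 / 1000)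
    (b1 : -1 / 4 ≤ b) (b2 : b ≤ 0) :
    0 ≤ fb_h1_hH_hh_Tv s u b k ∨ (h0 + u + b / 2 + k ≤ 1 ∧ 0 ≤ fb_h1_hH_hh_HH s u b k) ∨ 0 ≤ fb_h1_hH_hh_o s u b k ∨ 0 ≤ fb_h1_o_hh_o s u b k ∨ (u + b / 2 + k ≤ 0 ∧ 0 ≤ fb_hs_v2_hh_vl s u b k) ∨ (u + b / 2 + k ≤ 0 ∧ 0 ≤ fb_hs_v2_he_vl s u b k) ∨ 0 ≤ fb_h1_o_he_o s u b k ∨ 0 ≤ fb_hs_o_he_o s u b k := by
  have e1 := up (t1 := (-128 / 1000)) (t2 := (0 / 1000)) (x := b) (by norm_num)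
    (by linarith only [b1]) (by linarith only [b2])
  have e2 := up (t1 := (-68 / 1000)) (t2 := (-67 / 1000)) (x := h0 - 1) (by norm_num)
    (by linarith only [R.h1]) (by linarith only [R.h2])
  have e3 := up (t1 := (267 / 1000)) (t2 := (324 / 1000)) (x := s - u) (by norm_num)
    (by linarith only [s1, u2]) (by linarith only [s2, u1])
  have e4 := R.lo21 (358 / 1000) (by norm_num)
  have e5 := R.lo21 (333 / 1000) (by norm_num)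
  have e6 := R.lo7 (242 / 1000) (by norm_num)
  have e7 := R.lo18 (179 / 1000) (by norm_num)
  have e8 := R.lo19 (327 / 1000) (by norm_num)
  right
  right
  right
  left
  unfold fb_h1_o_hh_o
  linarith only [R.k2, R.h1, u1, b1, e1, e2, e3, e4, e5, e6, e7, e8]

theorem bb73 {s u b k : ℝ} (R : RegB s u b k)
    (s1 : 3 / 5 ≤ s) (s2 : s ≤ 67 / 100) (u1 : 101 / 1000 ≤ u) (u2 : u ≤ 67 / 500)
    (b1 : -1 / 4 ≤ b) (b2 : b ≤ 0) :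
    0 ≤ fb_h1_hH_hh_Tv s u b k ∨ (h0 + u + b / 2 + k ≤ 1 ∧ 0 ≤ fb_h1_hH_hh_HH s u b k) ∨ 0 ≤ fb_h1_hH_hh_o s u b k ∨ 0 ≤ fb_h1_o_hh_o s u b k ∨ (u + b / 2 + k ≤ 0 ∧ 0 ≤ fb_hs_v2_hh_vl s u b k) ∨ (u + b / 2 + k ≤ 0 ∧ 0 ≤ fb_hs_v2_he_vl s u b k) ∨ 0 ≤ fb_h1_o_he_o s u b k ∨ 0 ≤ fb_hs_o_he_o s u b k := by
  have e1 := up (t1 := (-128 / 1000)) (t2 := (0 / 1000)) (x := b) (by norm_num)
    (by linarith only [b1]) (by linarith only [b2])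
  have e2 := up (t1 := (-68 / 1000)) (t2 := (-67 / 1000)) (x := h0 - 1) (by norm_num)
    (by linarith only [R.h1]) (by linarith only [R.h2])
  have e3 := up (t1 := (247 / 1000)) (t2 := (313 / 1000)) (x := s - u) (by norm_num)
    (by linarith only [R.h1, R.u4, s1]) (by linarith only [s2, u1])
  have e4 := R.lo21 (358 / 1000) (by norm_num)
  have e5 := R.lo21 (333 / 1000) (by norm_num)
  have e6 := R.lo7 (227 / 1000) (by norm_num)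
  have e7 := R.lo18 (161 / 1000) (by norm_num)
  have e8 := R.lo19 (310 / 1000) (by norm_num)
  right
  right
  right
  left
  unfold fb_h1_o_hh_o
  linarith only [R.k2, R.h1, u1, b1, e1, e2, e3, e4, e5, e6, e7, e8]

theorem bb75 {s u b k : ℝ} (R : RegB s u b k)
    (s1 : 3 / 5 ≤ s) (s2 : s ≤ 67 / 100) (u1 : 3397 / 50000 ≤ u) (u2 : u ≤ 67 / 500)
    (b1 : 0 ≤ b) (b2 : b ≤ 1 / 4) :
    0 ≤ fb_h1_hH_hh_Tv s u b k ∨ (h0 + u + b / 2 + k ≤ 1 ∧ 0 ≤ fb_h1_hH_hh_HH s u b k) ∨ 0 ≤ fb_h1_hH_hh_o s u b k ∨ 0 ≤ fb_h1_o_hh_o s u b k ∨ (u + b / 2 + k ≤ 0 ∧ 0 ≤ fb_hs_v2_hh_vl s u b k) ∨ (u + b / 2 + k ≤ 0 ∧ 0 ≤ fb_hs_v2_he_vl s u b k) ∨ 0 ≤ fb_h1_o_he_o s u b k ∨ 0 ≤ fb_hs_o_he_o s u b k := by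
  have e1 := up (t1 := (0 / 1000)) (t2 := (128 / 1000)) (x := b) (by norm_num)
    (by linarith only [b1]) (by linarith only [b2])
  have e2 := up (t1 := (247 / 1000)) (t2 := (291 / 1000)) (x := h0 + s - 1) (by norm_num)
    (by linarith only [R.h1, s1]) (by linarith only [R.h2, s2])
  have e3 := up (t1 := (-68 / 1000)) (t2 := (-67 / 1000)) (x := h0 - 1) (by norm_num)
    (by linarith only [R.h1]) (by linarith only [R.h2])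
  have e4 := up (t1 := (247 / 1000)) (t2 := (335 / 1000)) (x := s - u) (by norm_num)
    (by linarith only [R.h1, R.u4, s1]) (by linarith only [s2, u1])
  have e5 := R.lo21 (333 / 1000) (by norm_num)
  have e6 := R.lo7 (166 / 1000) (by norm_num)
  have e7 := R.lo8 (22 / 1000) (by norm_num)
  have e8 := R.lo18 (322 / 1000) (by norm_num)
  have e9 := R.lo19 (242 / 1000) (by norm_num)
  have e10 := R.lo19 (161 / 1000) (by norm_num)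
  right
  right
  left
  unfold fb_h1_hH_hh_o
  linarith only [R.k2, R.u3, s1, u1, e1, e2, e3, e4, e5, e6, e7, e8, e9, e10]

theorem bb78 {s u b k : ℝ} (R : RegB s u b k)
    (s1 : 3 / 5 ≤ s) (s2 : s ≤ 127 / 200) (u1 : 3397 / 50000 ≤ u) (u2 : u ≤ 67 / 500)
    (b1 : 1 / 4 ≤ b) (b2 : b ≤ 3 / 8) :
    0 ≤ fb_h1_hH_hh_Tv s u b k ∨ (h0 + u + b / 2 + k ≤ 1 ∧ 0 ≤ fb_h1_hH_hh_HH s u b k) ∨ 0 ≤ fb_h1_hH_hh_o s u b k ∨ 0 ≤ fb_h1_o_hh_o s u b k ∨ (u + b / 2 + k ≤ 0 ∧ 0 ≤ fb_hs_v2_hh_vl s u b k) ∨ (u + b / 2 + k ≤ 0 ∧ 0 ≤ fb_hs_v2_he_vl s u b k) ∨ 0 ≤ fb_h1_o_he_o s u b k ∨ 0 ≤ fb_hs_o_he_o s u b k := by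
  have e1 := up (t1 := (127 / 1000)) (t2 := (195 / 1000)) (x := b) (by norm_num)
    (by linarith only [b1]) (by linarith only [b2])
  have e2 := up (t1 := (247 / 1000)) (t2 := (269 / 1000)) (x := h0 + s - 1) (by norm_num)
    (by linarith only [R.h1, s1]) (by linarith only [R.h2, s2])
  have e3 := up (t1 := (-68 / 1000)) (t2 := (-67 / 1000)) (x := h0 - 1) (by norm_num)
    (by linarith only [R.h1]) (by linarith only [R.h2])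
  have e4 := up (t1 := (247 / 1000)) (t2 := (311 / 1000)) (x := s - u) (by norm_num)
    (by linarith only [R.h1, R.u4, s1]) (by linarith only [s2, u1])
  have e5 := R.lo21 (333 / 1000) (by norm_num)
  have e6 := R.lo7 (74 / 1000) (by norm_num)
  have e7 := R.lo8 (93 / 1000) (by norm_num)
  have e8 := R.lo18 (374 / 1000) (by norm_num)
  have e9 := R.lo19 (144 / 1000) (by norm_num)
  right
  right
  left
  unfold fb_h1_hH_hh_o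
  linarith only [R.k2, R.u3, s1, u1, b2, e1, e2, e3, e4, e5, e6, e7, e8, e9]

theorem bb79 {s u b k : ℝ} (R : RegB s u b k)
    (s1 : 127 / 200 ≤ s) (s2 : s ≤ 67 / 100) (u1 : 3397 / 50000 ≤ u) (u2 : u ≤ 67 / 500)
    (b1 : 1 / 4 ≤ b) (b2 : b ≤ 3 / 8) :
    0 ≤ fb_h1_hH_hh_Tv s u b k ∨ (h0 + u + b / 2 + k ≤ 1 ∧ 0 ≤ fb_h1_hH_hh_HH s u b k) ∨ 0 ≤ fb_h1_hH_hh_o s u b k ∨ 0 ≤ fb_h1_o_hh_o s u b k ∨ (u + b / 2 + k ≤ 0 ∧ 0 ≤ fb_hs_v2_hh_vl s u b k) ∨ (u + b / 2 + k ≤ 0 ∧ 0 ≤ fb_hs_v2_he_vl s u b k) ∨ 0 ≤ fb_h1_o_he_o s u b k ∨ 0 ≤ fb_hs_o_he_o s u b k := by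
  have e1 := up (t1 := (127 / 1000)) (t2 := (195 / 1000)) (x := b) (by norm_num)
    (by linarith only [b1]) (by linarith only [b2])
  have e2 := up (t1 := (268 / 1000)) (t2 := (291 / 1000)) (x := h0 + s - 1) (by norm_num)
    (by linarith only [R.h1, s1]) (by linarith only [R.h2, s2])
  have e3 := up (t1 := (688 / 1000)) (t2 := 1) (x := h0 + u) (by norm_num)
    (by linarith only [R.u3, u1]) (by linarith only [R.u4])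
  have e4 := up (t1 := (-68 / 1000)) (t2 := (-67 / 1000)) (x := h0 - 1) (by norm_num)
    (by linarith only [R.h1]) (by linarith only [R.h2])
  have e5 := up (t1 := (268 / 1000)) (t2 := (335 / 1000)) (x := s - u) (by norm_num)
    (by linarith only [R.h1, R.u4, s1]) (by linarith only [s2, u1])
  have e6 := R.lo21 (358 / 1000) (by norm_num)
  have e7 := R.lo1 (-155 / 1000) (by norm_num)
  have e8 := R.lo7 (109 / 1000) (by norm_num)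
  have e9 := R.lo8 (85 / 1000) (by norm_num)
  have e10 := R.lo3 (127 / 1000) (by norm_num)
  have e11 := up (t1 := (344 / 1000)) (t2 := (420 / 1000)) (x := h0 - b / 2 - k) (by norm_num)
    (by linarith only [R.k2, R.h1, b2, e1]) (by linarith only [R.k1, R.h2, b1, e10])
  have e12 := R.lo18 (332 / 1000) (by norm_num)
  have e13 := R.lo19 (181 / 1000) (by norm_num)
  left
  unfold fb_h1_hH_hh_Tv
  linarith only [R.k2, R.h2, R.u4, s1, b1, e1, e2, e3, e4, e5, e6, e7, e8, e9, e11, e12, e13]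

theorem bb80 {s u b k : ℝ} (R : RegB s u b k)
    (s1 : 3 / 5 ≤ s) (s2 : s ≤ 67 / 100) (u1 : 3397 / 50000 ≤ u) (u2 : u ≤ 67 / 500)
    (b1 : 3 / 8 ≤ b) (b2 : b ≤ 1 / 2) :
    0 ≤ fb_h1_hH_hh_Tv s u b k ∨ (h0 + u + b / 2 + k ≤ 1 ∧ 0 ≤ fb_h1_hH_hh_HH s u b k) ∨ 0 ≤ fb_h1_hH_hh_o s u b k ∨ 0 ≤ fb_h1_o_hh_o s u b k ∨ (u + b / 2 + k ≤ 0 ∧ 0 ≤ fb_hs_v2_hh_vl s u b k) ∨ (u + b / 2 + k ≤ 0 ∧ 0 ≤ fb_hs_v2_he_vl s u b k) ∨ 0 ≤ fb_h1_o_he_o s u b k ∨ 0 ≤ fb_hs_o_he_o s u b k := by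
  have e1 := up (t1 := (194 / 1000)) (t2 := (268 / 1000)) (x := b) (by norm_num)
    (by linarith only [b1]) (by linarith only [b2])
  have e2 := up (t1 := (247 / 1000)) (t2 := (291 / 1000)) (x := h0 + s - 1) (by norm_num)
    (by linarith only [R.h1, s1]) (by linarith only [R.h2, s2])
  have e3 := up (t1 := (688 / 1000)) (t2 := 1) (x := h0 + u) (by norm_num)
    (by linarith only [R.u3, u1]) (by linarith only [R.u4])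
  have e4 := up (t1 := (-68 / 1000)) (t2 := (-67 / 1000)) (x := h0 - 1) (by norm_num)
    (by linarith only [R.h1]) (by linarith only [R.h2])
  have e5 := up (t1 := (247 / 1000)) (t2 := (335 / 1000)) (x := s - u) (by norm_num)
    (by linarith only [R.h1, R.u4, s1]) (by linarith only [s2, u1])
  have e6 := R.lo1 (-268 / 1000) (by norm_num)
  have e7 := R.lo7 (-17 / 1000) (by norm_num)
  have e8 := R.lo3 (195 / 1000) (by norm_num)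
  have e9 := up (t1 := (267 / 1000)) (t2 := (345 / 1000)) (x := h0 - b / 2 - k) (by norm_num)
    (by linarith only [R.k2, R.h1, b2, e1]) (by linarith only [R.k1, R.h2, b1, e8])
  have e10 := R.lo1 (-241 / 1000) (by norm_num)
  have e11 := R.lo7 (15 / 1000) (by norm_num)
  have e12 := R.lo8 (165 / 1000) (by norm_num)
  have e13 := R.lo18 (344 / 1000) (by norm_num)
  have e14 := R.lo19 (82 / 1000) (by norm_num)
  have e15 := R.lo21 (347 / 1000) (by norm_num)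
  left
  unfold fb_h1_hH_hh_Tv
  linarith only [R.k2, R.h2, R.u4, e1, e2, e3, e4, e5, e6, e7, e9, e10, e11, e12, e13, e14, e15]

theorem bb77 {s u b k : ℝ} (R : RegB s u b k)
    (s1 : 3 / 5 ≤ s) (s2 : s ≤ 67 / 100) (u1 : 3397 / 50000 ≤ u) (u2 : u ≤ 67 / 500)
    (b1 : 1 / 4 ≤ b) (b2 : b ≤ 3 / 8) :
    0 ≤ fb_h1_hH_hh_Tv s u b k ∨ (h0 + u + b / 2 + k ≤ 1 ∧ 0 ≤ fb_h1_hH_hh_HH s u b k) ∨ 0 ≤ fb_h1_hH_hh_o s u b k ∨ 0 ≤ fb_h1_o_hh_o s u b k ∨ (u + b / 2 + k ≤ 0 ∧ 0 ≤ fb_hs_v2_hh_vl s u b k) ∨ (u + b / 2 + k ≤ 0 ∧ 0 ≤ fb_hs_v2_he_vl s u b k) ∨ 0 ≤ fb_h1_o_he_o s u b k ∨ 0 ≤ fb_hs_o_he_o s u b k := by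
  rcases le_total s (127 / 200) with h | h
  · exact bb78 R s1 h u1 u2 b1 b2
  · exact bb79 R h s2 u1 u2 b1 b2

theorem bb76 {s u b k : ℝ} (R : RegB s u b k)
    (s1 : 3 / 5 ≤ s) (s2 : s ≤ 67 / 100) (u1 : 3397 / 50000 ≤ u) (u2 : u ≤ 67 / 500)
    (b1 : 1 / 4 ≤ b) (b2 : b ≤ 1 / 2) :
    0 ≤ fb_h1_hH_hh_Tv s u b k ∨ (h0 + u + b / 2 + k ≤ 1 ∧ 0 ≤ fb_h1_hH_hh_HH s u b k) ∨ 0 ≤ fb_h1_hH_hh_o s u b k ∨ 0 ≤ fb_h1_o_hh_o s u b k ∨ (u + b / 2 + k ≤ 0 ∧ 0 ≤ fb_hs_v2_hh_vl s u b k) ∨ (u + b / 2 + k ≤ 0 ∧ 0 ≤ fb_hs_v2_he_vl s u b k) ∨ 0 ≤ fb_h1_o_he_o s u b k ∨ 0 ≤ fb_hs_o_he_o s u b k := by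
  rcases le_total b (3 / 8) with h | h
  · exact bb77 R s1 s2 u1 u2 b1 h
  · exact bb80 R s1 s2 u1 u2 h b2

theorem bb74 {s u b k : ℝ} (R : RegB s u b k)
    (s1 : 3 / 5 ≤ s) (s2 : s ≤ 67 / 100) (u1 : 3397 / 50000 ≤ u) (u2 : u ≤ 67 / 500)
    (b1 : 0 ≤ b) (b2 : b ≤ 1 / 2) :
    0 ≤ fb_h1_hH_hh_Tv s u b k ∨ (h0 + u + b / 2 + k ≤ 1 ∧ 0 ≤ fb_h1_hH_hh_HH s u b k) ∨ 0 ≤ fb_h1_hH_hh_o s u b k ∨ 0 ≤ fb_h1_o_hh_o s u b k ∨ (u + b / 2 + k ≤ 0 ∧ 0 ≤ fb_hs_v2_hh_vl s u b k) ∨ (u + b / 2 + k ≤ 0 ∧ 0 ≤ fb_hs_v2_he_vl s u b k) ∨ 0 ≤ fb_h1_o_he_o s u b k ∨ 0 ≤ fb_hs_o_he_o s u b k := by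
  rcases le_total b (1 / 4) with h | h
  · exact bb75 R s1 s2 u1 u2 b1 h
  · exact bb76 R s1 s2 u1 u2 h b2

theorem bb67 {s u b k : ℝ} (R : RegB s u b k)
    (s1 : 3 / 5 ≤ s) (s2 : s ≤ 67 / 100) (u1 : 3397 / 50000 ≤ u) (u2 : u ≤ 19 / 250)
    (b1 : -1 / 4 ≤ b) (b2 : b ≤ -1 / 8) :
    0 ≤ fb_h1_hH_hh_Tv s u b k ∨ (h0 + u + b / 2 + k ≤ 1 ∧ 0 ≤ fb_h1_hH_hh_HH s u b k) ∨ 0 ≤ fb_h1_hH_hh_o s u b k ∨ 0 ≤ fb_h1_o_hh_o s u b k ∨ (u + b / 2 + k ≤ 0 ∧ 0 ≤ fb_hs_v2_hh_vl s u b k) ∨ (u + b / 2 + k ≤ 0 ∧ 0 ≤ fb_hs_v2_he_vl s u b k) ∨ 0 ≤ fb_h1_o_he_o s u b k ∨ 0 ≤ fb_hs_o_he_o s u b k := by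
  rcases le_total b (-47 / 250) with h | h
  · exact bb68 R s1 s2 u1 u2 b1 h
  · exact bb69 R s1 s2 u1 u2 h b2

theorem bb66 {s u b k : ℝ} (R : RegB s u b k)
    (s1 : 3 / 5 ≤ s) (s2 : s ≤ 67 / 100) (u1 : 3397 / 50000 ≤ u) (u2 : u ≤ 19 / 250)
    (b1 : -1 / 4 ≤ b) (b2 : b ≤ 0) :
    0 ≤ fb_h1_hH_hh_Tv s u b k ∨ (h0 + u + b / 2 + k ≤ 1 ∧ 0 ≤ fb_h1_hH_hh_HH s u b k) ∨ 0 ≤ fb_h1_hH_hh_o s u b k ∨ 0 ≤ fb_h1_o_hh_o s u b k ∨ (u + b / 2 + k ≤ 0 ∧ 0 ≤ fb_hs_v2_hh_vl s u b k) ∨ (u + b / 2 + k ≤ 0 ∧ 0 ≤ fb_hs_v2_he_vl s u b k) ∨ 0 ≤ fb_h1_o_he_o s u b k ∨ 0 ≤ fb_hs_o_he_o s u b k := by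
  rcases le_total b (-1 / 8) with h | h
  · exact bb67 R s1 s2 u1 u2 b1 h
  · exact bb70 R s1 s2 u1 u2 h b2

theorem bb65 {s u b k : ℝ} (R : RegB s u b k)
    (s1 : 3 / 5 ≤ s) (s2 : s ≤ 67 / 100) (u1 : 3397 / 50000 ≤ u) (u2 : u ≤ 21 / 250)
    (b1 : -1 / 4 ≤ b) (b2 : b ≤ 0) :
    0 ≤ fb_h1_hH_hh_Tv s u b k ∨ (h0 + u + b / 2 + k ≤ 1 ∧ 0 ≤ fb_h1_hH_hh_HH s u b k) ∨ 0 ≤ fb_h1_hH_hh_o s u b k ∨ 0 ≤ fb_h1_o_hh_o s u b k ∨ (u + b / 2 + k ≤ 0 ∧ 0 ≤ fb_hs_v2_hh_vl s u b k) ∨ (u + b / 2 + k ≤ 0 ∧ 0 ≤ fb_hs_v2_he_vl s u b k) ∨ 0 ≤ fb_h1_o_he_o s u b k ∨ 0 ≤ fb_hs_o_he_o s u b k := by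
  rcases le_total u (19 / 250) with h | h
  · exact bb66 R s1 s2 u1 h b1 b2
  · exact bb71 R s1 s2 h u2 b1 b2

theorem bb64 {s u b k : ℝ} (R : RegB s u b k)
    (s1 : 3 / 5 ≤ s) (s2 : s ≤ 67 / 100) (u1 : 3397 / 50000 ≤ u) (u2 : u ≤ 101 / 1000)
    (b1 : -1 / 4 ≤ b) (b2 : b ≤ 0) :
    0 ≤ fb_h1_hH_hh_Tv s u b k ∨ (h0 + u + b / 2 + k ≤ 1 ∧ 0 ≤ fb_h1_hH_hh_HH s u b k) ∨ 0 ≤ fb_h1_hH_hh_o s u b k ∨ 0 ≤ fb_h1_o_hh_o s u b k ∨ (u + b / 2 + k ≤ 0 ∧ 0 ≤ fb_hs_v2_hh_vl s u b k) ∨ (u + b / 2 + k ≤ 0 ∧ 0 ≤ fb_hs_v2_he_vl s u b k) ∨ 0 ≤ fb_h1_o_he_o s u b k ∨ 0 ≤ fb_hs_o_he_o s u b k := by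
  rcases le_total u (21 / 250) with h | h
  · exact bb65 R s1 s2 u1 h b1 b2
  · exact bb72 R s1 s2 h u2 b1 b2

theorem bb63 {s u b k : ℝ} (R : RegB s u b k)
    (s1 : 3 / 5 ≤ s) (s2 : s ≤ 67 / 100) (u1 : 3397 / 50000 ≤ u) (u2 : u ≤ 67 / 500)
    (b1 : -1 / 4 ≤ b) (b2 : b ≤ 0) :
    0 ≤ fb_h1_hH_hh_Tv s u b k ∨ (h0 + u + b / 2 + k ≤ 1 ∧ 0 ≤ fb_h1_hH_hh_HH s u b k) ∨ 0 ≤ fb_h1_hH_hh_o s u b k ∨ 0 ≤ fb_h1_o_hh_o s u b k ∨ (u + b / 2 + k ≤ 0 ∧ 0 ≤ fb_hs_v2_hh_vl s u b k) ∨ (u + b / 2 + k ≤ 0 ∧ 0 ≤ fb_hs_v2_he_vl s u b k) ∨ 0 ≤ fb_h1_o_he_o s u b k ∨ 0 ≤ fb_hs_o_he_o s u b k := by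
  rcases le_total u (101 / 1000) with h | h
  · exact bb64 R s1 s2 u1 h b1 b2
  · exact bb73 R s1 s2 h u2 b1 b2

theorem bb58 {s u b k : ℝ} (R : RegB s u b k)
    (s1 : 3 / 5 ≤ s) (s2 : s ≤ 67 / 100) (u1 : 101 / 1000 ≤ u) (u2 : u ≤ 59 / 500)
    (b1 : -43 / 125 ≤ b) (b2 : b ≤ -313 / 1000) :
    0 ≤ fb_h1_hH_hh_Tv s u b k ∨ (h0 + u + b / 2 + k ≤ 1 ∧ 0 ≤ fb_h1_hH_hh_HH s u b k) ∨ 0 ≤ fb_h1_hH_hh_o s u b k ∨ 0 ≤ fb_h1_o_hh_o s u b k ∨ (u + b / 2 + k ≤ 0 ∧ 0 ≤ fb_hs_v2_hh_vl s u b k) ∨ (u + b / 2 + k ≤ 0 ∧ 0 ≤ fb_hs_v2_he_vl s u b k) ∨ 0 ≤ fb_h1_o_he_o s u b k ∨ 0 ≤ fb_hs_o_he_o s u b k := by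
  rcases le_total u (219 / 2000) with h | h
  · exact bb59 R s1 s2 u1 h b1 b2
  · exact bb60 R s1 s2 h u2 b1 b2

theorem bb56 {s u b k : ℝ} (R : RegB s u b k)
    (s1 : 3 / 5 ≤ s) (s2 : s ≤ 67 / 100) (u1 : 101 / 1000 ≤ u) (u2 : u ≤ 59 / 500)
    (b1 : -3 / 8 ≤ b) (b2 : b ≤ -313 / 1000) :
    0 ≤ fb_h1_hH_hh_Tv s u b k ∨ (h0 + u + b / 2 + k ≤ 1 ∧ 0 ≤ fb_h1_hH_hh_HH s u b k) ∨ 0 ≤ fb_h1_hH_hh_o s u b k ∨ 0 ≤ fb_h1_o_hh_o s u b k ∨ (u + b / 2 + k ≤ 0 ∧ 0 ≤ fb_hs_v2_hh_vl s u b k) ∨ (u + b / 2 + k ≤ 0 ∧ 0 ≤ fb_hs_v2_he_vl s u b k) ∨ 0 ≤ fb_h1_o_he_o s u b k ∨ 0 ≤ fb_hs_o_he_o s u b k := by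
  rcases le_total b (-43 / 125) with h | h
  · exact bb57 R s1 s2 u1 u2 b1 h
  · exact bb58 R s1 s2 u1 u2 h b2

theorem bb55 {s u b k : ℝ} (R : RegB s u b k)
    (s1 : 3 / 5 ≤ s) (s2 : s ≤ 67 / 100) (u1 : 101 / 1000 ≤ u) (u2 : u ≤ 59 / 500)
    (b1 : -3 / 8 ≤ b) (b2 : b ≤ -1 / 4) :
    0 ≤ fb_h1_hH_hh_Tv s u b k ∨ (h0 + u + b / 2 + k ≤ 1 ∧ 0 ≤ fb_h1_hH_hh_HH s u b k) ∨ 0 ≤ fb_h1_hH_hh_o s u b k ∨ 0 ≤ fb_h1_o_hh_o s u b k ∨ (u + b / 2 + k ≤ 0 ∧ 0 ≤ fb_hs_v2_hh_vl s u b k) ∨ (u + b / 2 + k ≤ 0 ∧ 0 ≤ fb_hs_v2_he_vl s u b k) ∨ 0 ≤ fb_h1_o_he_o s u b k ∨ 0 ≤ fb_hs_o_he_o s u b k := by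
  rcases le_total b (-313 / 1000) with h | h
  · exact bb56 R s1 s2 u1 u2 b1 h
  · exact bb61 R s1 s2 u1 u2 h b2

theorem bb54 {s u b k : ℝ} (R : RegB s u b k)
    (s1 : 3 / 5 ≤ s) (s2 : s ≤ 67 / 100) (u1 : 101 / 1000 ≤ u) (u2 : u ≤ 67 / 500)
    (b1 : -3 / 8 ≤ b) (b2 : b ≤ -1 / 4) :
    0 ≤ fb_h1_hH_hh_Tv s u b k ∨ (h0 + u + b / 2 + k ≤ 1 ∧ 0 ≤ fb_h1_hH_hh_HH s u b k) ∨ 0 ≤ fb_h1_hH_hh_o s u b k ∨ 0 ≤ fb_h1_o_hh_o s u b k ∨ (u + b / 2 + k ≤ 0 ∧ 0 ≤ fb_hs_v2_hh_vl s u b k) ∨ (u + b / 2 + k ≤ 0 ∧ 0 ≤ fb_hs_v2_he_vl s u b k) ∨ 0 ≤ fb_h1_o_he_o s u b k ∨ 0 ≤ fb_hs_o_he_o s u b k := by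
  rcases le_total u (59 / 500) with h | h
  · exact bb55 R s1 s2 u1 h b1 b2
  · exact bb62 R s1 s2 h u2 b1 b2

theorem bb48 {s u b k : ℝ} (R : RegB s u b k)
    (s1 : 309 / 500 ≤ s) (s2 : s ≤ 1253 / 2000) (u1 : 59 / 500 ≤ u) (u2 : u ≤ 63 / 500)
    (b1 : -1 / 2 ≤ b) (b2 : b ≤ -3 / 8) :
    0 ≤ fb_h1_hH_hh_Tv s u b k ∨ (h0 + u + b / 2 + k ≤ 1 ∧ 0 ≤ fb_h1_hH_hh_HH s u b k) ∨ 0 ≤ fb_h1_hH_hh_o s u b k ∨ 0 ≤ fb_h1_o_hh_o s u b k ∨ (u + b / 2 + k ≤ 0 ∧ 0 ≤ fb_hs_v2_hh_vl s u b k) ∨ (u + b / 2 + k ≤ 0 ∧ 0 ≤ fb_hs_v2_he_vl s u b k) ∨ 0 ≤ fb_h1_o_he_o s u b k ∨ 0 ≤ fb_hs_o_he_o s u b k := by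
  rcases le_total u (61 / 500) with h | h
  · exact bb49 R s1 s2 u1 h b1 b2
  · exact bb50 R s1 s2 h u2 b1 b2

theorem bb47 {s u b k : ℝ} (R : RegB s u b k)
    (s1 : 309 / 500 ≤ s) (s2 : s ≤ 1253 / 2000) (u1 : 59 / 500 ≤ u) (u2 : u ≤ 67 / 500)
    (b1 : -1 / 2 ≤ b) (b2 : b ≤ -3 / 8) :
    0 ≤ fb_h1_hH_hh_Tv s u b k ∨ (h0 + u + b / 2 + k ≤ 1 ∧ 0 ≤ fb_h1_hH_hh_HH s u b k) ∨ 0 ≤ fb_h1_hH_hh_o s u b k ∨ 0 ≤ fb_h1_o_hh_o s u b k ∨ (u + b / 2 + k ≤ 0 ∧ 0 ≤ fb_hs_v2_hh_vl s u b k) ∨ (u + b / 2 + k ≤ 0 ∧ 0 ≤ fb_hs_v2_he_vl s u b k) ∨ 0 ≤ fb_h1_o_he_o s u b k ∨ 0 ≤ fb_hs_o_he_o s u b k := by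
  rcases le_total u (63 / 500) with h | h
  · exact bb48 R s1 s2 u1 h b1 b2
  · exact bb51 R s1 s2 h u2 b1 b2

theorem bb46 {s u b k : ℝ} (R : RegB s u b k)
    (s1 : 309 / 500 ≤ s) (s2 : s ≤ 127 / 200) (u1 : 59 / 500 ≤ u) (u2 : u ≤ 67 / 500)
    (b1 : -1 / 2 ≤ b) (b2 : b ≤ -3 / 8) :
    0 ≤ fb_h1_hH_hh_Tv s u b k ∨ (h0 + u + b / 2 + k ≤ 1 ∧ 0 ≤ fb_h1_hH_hh_HH s u b k) ∨ 0 ≤ fb_h1_hH_hh_o s u b k ∨ 0 ≤ fb_h1_o_hh_o s u b k ∨ (u + b / 2 + k ≤ 0 ∧ 0 ≤ fb_hs_v2_hh_vl s u b k) ∨ (u + b / 2 + k ≤ 0 ∧ 0 ≤ fb_hs_v2_he_vl s u b k) ∨ 0 ≤ fb_h1_o_he_o s u b k ∨ 0 ≤ fb_hs_o_he_o s u b k := by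
  rcases le_total s (1253 / 2000) with h | h
  · exact bb47 R s1 h u1 u2 b1 b2
  · exact bb52 R h s2 u1 u2 b1 b2

theorem bb42 {s u b k : ℝ} (R : RegB s u b k)
    (s1 : 3 / 5 ≤ s) (s2 : s ≤ 609 / 1000) (u1 : 13 / 100 ≤ u) (u2 : u ≤ 67 / 500)
    (b1 : -1 / 2 ≤ b) (b2 : b ≤ -3 / 8) :
    0 ≤ fb_h1_hH_hh_Tv s u b k ∨ (h0 + u + b / 2 + k ≤ 1 ∧ 0 ≤ fb_h1_hH_hh_HH s u b k) ∨ 0 ≤ fb_h1_hH_hh_o s u b k ∨ 0 ≤ fb_h1_o_hh_o s u b k ∨ (u + b / 2 + k ≤ 0 ∧ 0 ≤ fb_hs_v2_hh_vl s u b k) ∨ (u + b / 2 + k ≤ 0 ∧ 0 ≤ fb_hs_v2_he_vl s u b k) ∨ 0 ≤ fb_h1_o_he_o s u b k ∨ 0 ≤ fb_hs_o_he_o s u b k := by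
  rcases le_total b (-219 / 500) with h | h
  · exact bb43 R s1 s2 u1 u2 b1 h
  · exact bb44 R s1 s2 u1 u2 h b2

theorem bb38 {s u b k : ℝ} (R : RegB s u b k)
    (s1 : 3 / 5 ≤ s) (s2 : s ≤ 609 / 1000) (u1 : 63 / 500 ≤ u) (u2 : u ≤ 13 / 100)
    (b1 : -219 / 500 ≤ b) (b2 : b ≤ -407 / 1000) :
    0 ≤ fb_h1_hH_hh_Tv s u b k ∨ (h0 + u + b / 2 + k ≤ 1 ∧ 0 ≤ fb_h1_hH_hh_HH s u b k) ∨ 0 ≤ fb_h1_hH_hh_o s u b k ∨ 0 ≤ fb_h1_o_hh_o s u b k ∨ (u + b / 2 + k ≤ 0 ∧ 0 ≤ fb_hs_v2_hh_vl s u b k) ∨ (u + b / 2 + k ≤ 0 ∧ 0 ≤ fb_hs_v2_he_vl s u b k) ∨ 0 ≤ fb_h1_o_he_o s u b k ∨ 0 ≤ fb_hs_o_he_o s u b k := by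
  rcases le_total u (16 / 125) with h | h
  · exact bb39 R s1 s2 u1 h b1 b2
  · exact bb40 R s1 s2 h u2 b1 b2

theorem bb37 {s u b k : ℝ} (R : RegB s u b k)
    (s1 : 3 / 5 ≤ s) (s2 : s ≤ 609 / 1000) (u1 : 63 / 500 ≤ u) (u2 : u ≤ 13 / 100)
    (b1 : -219 / 500 ≤ b) (b2 : b ≤ -3 / 8) :
    0 ≤ fb_h1_hH_hh_Tv s u b k ∨ (h0 + u + b / 2 + k ≤ 1 ∧ 0 ≤ fb_h1_hH_hh_HH s u b k) ∨ 0 ≤ fb_h1_hH_hh_o s u b k ∨ 0 ≤ fb_h1_o_hh_o s u b k ∨ (u + b / 2 + k ≤ 0 ∧ 0 ≤ fb_hs_v2_hh_vl s u b k) ∨ (u + b / 2 + k ≤ 0 ∧ 0 ≤ fb_hs_v2_he_vl s u b k) ∨ 0 ≤ fb_h1_o_he_o s u b k ∨ 0 ≤ fb_hs_o_he_o s u b k := by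
  rcases le_total b (-407 / 1000) with h | h
  · exact bb38 R s1 s2 u1 u2 b1 h
  · exact bb41 R s1 s2 u1 u2 h b2

theorem bb35 {s u b k : ℝ} (R : RegB s u b k)
    (s1 : 3 / 5 ≤ s) (s2 : s ≤ 609 / 1000) (u1 : 63 / 500 ≤ u) (u2 : u ≤ 13 / 100)
    (b1 : -1 / 2 ≤ b) (b2 : b ≤ -3 / 8) :
    0 ≤ fb_h1_hH_hh_Tv s u b k ∨ (h0 + u + b / 2 + k ≤ 1 ∧ 0 ≤ fb_h1_hH_hh_HH s u b k) ∨ 0 ≤ fb_h1_hH_hh_o s u b k ∨ 0 ≤ fb_h1_o_hh_o s u b k ∨ (u + b / 2 + k ≤ 0 ∧ 0 ≤ fb_hs_v2_hh_vl s u b k) ∨ (u + b / 2 + k ≤ 0 ∧ 0 ≤ fb_hs_v2_he_vl s u b k) ∨ 0 ≤ fb_h1_o_he_o s u b k ∨ 0 ≤ fb_hs_o_he_o s u b k := by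
  rcases le_total b (-219 / 500) with h | h
  · exact bb36 R s1 s2 u1 u2 b1 h
  · exact bb37 R s1 s2 u1 u2 h b2

theorem bb34 {s u b k : ℝ} (R : RegB s u b k)
    (s1 : 3 / 5 ≤ s) (s2 : s ≤ 609 / 1000) (u1 : 63 / 500 ≤ u) (u2 : u ≤ 67 / 500)
    (b1 : -1 / 2 ≤ b) (b2 : b ≤ -3 / 8) :
    0 ≤ fb_h1_hH_hh_Tv s u b k ∨ (h0 + u + b / 2 + k ≤ 1 ∧ 0 ≤ fb_h1_hH_hh_HH s u b k) ∨ 0 ≤ fb_h1_hH_hh_o s u b k ∨ 0 ≤ fb_h1_o_hh_o s u b k ∨ (u + b / 2 + k ≤ 0 ∧ 0 ≤ fb_hs_v2_hh_vl s u b k) ∨ (u + b / 2 + k ≤ 0 ∧ 0 ≤ fb_hs_v2_he_vl s u b k) ∨ 0 ≤ fb_h1_o_he_o s u b k ∨ 0 ≤ fb_hs_o_he_o s u b k := by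
  rcases le_total u (13 / 100) with h | h
  · exact bb35 R s1 s2 u1 h b1 b2
  · exact bb42 R s1 s2 h u2 b1 b2

theorem bb33 {s u b k : ℝ} (R : RegB s u b k)
    (s1 : 3 / 5 ≤ s) (s2 : s ≤ 309 / 500) (u1 : 63 / 500 ≤ u) (u2 : u ≤ 67 / 500)
    (b1 : -1 / 2 ≤ b) (b2 : b ≤ -3 / 8) :
    0 ≤ fb_h1_hH_hh_Tv s u b k ∨ (h0 + u + b / 2 + k ≤ 1 ∧ 0 ≤ fb_h1_hH_hh_HH s u b k) ∨ 0 ≤ fb_h1_hH_hh_o s u b k ∨ 0 ≤ fb_h1_o_hh_o s u b k ∨ (u + b / 2 + k ≤ 0 ∧ 0 ≤ fb_hs_v2_hh_vl s u b k) ∨ (u + b / 2 + k ≤ 0 ∧ 0 ≤ fb_hs_v2_he_vl s u b k) ∨ 0 ≤ fb_h1_o_he_o s u b k ∨ 0 ≤ fb_hs_o_he_o s u b k := by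
  rcases le_total s (609 / 1000) with h | h
  · exact bb34 R s1 h u1 u2 b1 b2
  · exact bb45 R h s2 u1 u2 b1 b2

theorem bb30 {s u b k : ℝ} (R : RegB s u b k)
    (s1 : 3 / 5 ≤ s) (s2 : s ≤ 309 / 500) (u1 : 59 / 500 ≤ u) (u2 : u ≤ 63 / 500)
    (b1 : -391 / 1000 ≤ b) (b2 : b ≤ -3 / 8) :
    0 ≤ fb_h1_hH_hh_Tv s u b k ∨ (h0 + u + b / 2 + k ≤ 1 ∧ 0 ≤ fb_h1_hH_hh_HH s u b k) ∨ 0 ≤ fb_h1_hH_hh_o s u b k ∨ 0 ≤ fb_h1_o_hh_o s u b k ∨ (u + b / 2 + k ≤ 0 ∧ 0 ≤ fb_hs_v2_hh_vl s u b k) ∨ (u + b / 2 + k ≤ 0 ∧ 0 ≤ fb_hs_v2_he_vl s u b k) ∨ 0 ≤ fb_h1_o_he_o s u b k ∨ 0 ≤ fb_hs_o_he_o s u b k := by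
  rcases le_total u (61 / 500) with h | h
  · exact bb31 R s1 s2 u1 h b1 b2
  · exact bb32 R s1 s2 h u2 b1 b2

theorem bb28 {s u b k : ℝ} (R : RegB s u b k)
    (s1 : 3 / 5 ≤ s) (s2 : s ≤ 309 / 500) (u1 : 59 / 500 ≤ u) (u2 : u ≤ 63 / 500)
    (b1 : -407 / 1000 ≤ b) (b2 : b ≤ -3 / 8) :
    0 ≤ fb_h1_hH_hh_Tv s u b k ∨ (h0 + u + b / 2 + k ≤ 1 ∧ 0 ≤ fb_h1_hH_hh_HH s u b k) ∨ 0 ≤ fb_h1_hH_hh_o s u b k ∨ 0 ≤ fb_h1_o_hh_o s u b k ∨ (u + b / 2 + k ≤ 0 ∧ 0 ≤ fb_hs_v2_hh_vl s u b k) ∨ (u + b / 2 + k ≤ 0 ∧ 0 ≤ fb_hs_v2_he_vl s u b k) ∨ 0 ≤ fb_h1_o_he_o s u b k ∨ 0 ≤ fb_hs_o_he_o s u b k := by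
  rcases le_total b (-391 / 1000) with h | h
  · exact bb29 R s1 s2 u1 u2 b1 h
  · exact bb30 R s1 s2 u1 u2 h b2

theorem bb26 {s u b k : ℝ} (R : RegB s u b k)
    (s1 : 3 / 5 ≤ s) (s2 : s ≤ 309 / 500) (u1 : 59 / 500 ≤ u) (u2 : u ≤ 63 / 500)
    (b1 : -219 / 500 ≤ b) (b2 : b ≤ -3 / 8) :
    0 ≤ fb_h1_hH_hh_Tv s u b k ∨ (h0 + u + b / 2 + k ≤ 1 ∧ 0 ≤ fb_h1_hH_hh_HH s u b k) ∨ 0 ≤ fb_h1_hH_hh_o s u b k ∨ 0 ≤ fb_h1_o_hh_o s u b k ∨ (u + b / 2 + k ≤ 0 ∧ 0 ≤ fb_hs_v2_hh_vl s u b k) ∨ (u + b / 2 + k ≤ 0 ∧ 0 ≤ fb_hs_v2_he_vl s u b k) ∨ 0 ≤ fb_h1_o_he_o s u b k ∨ 0 ≤ fb_hs_o_he_o s u b k := by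
  rcases le_total b (-407 / 1000) with h | h
  · exact bb27 R s1 s2 u1 u2 b1 h
  · exact bb28 R s1 s2 u1 u2 h b2

theorem bb24 {s u b k : ℝ} (R : RegB s u b k)
    (s1 : 3 / 5 ≤ s) (s2 : s ≤ 309 / 500) (u1 : 59 / 500 ≤ u) (u2 : u ≤ 63 / 500)
    (b1 : -1 / 2 ≤ b) (b2 : b ≤ -3 / 8) :
    0 ≤ fb_h1_hH_hh_Tv s u b k ∨ (h0 + u + b / 2 + k ≤ 1 ∧ 0 ≤ fb_h1_hH_hh_HH s u b k) ∨ 0 ≤ fb_h1_hH_hh_o s u b k ∨ 0 ≤ fb_h1_o_hh_o s u b k ∨ (u + b / 2 + k ≤ 0 ∧ 0 ≤ fb_hs_v2_hh_vl s u b k) ∨ (u + b / 2 + k ≤ 0 ∧ 0 ≤ fb_hs_v2_he_vl s u b k) ∨ 0 ≤ fb_h1_o_he_o s u b k ∨ 0 ≤ fb_hs_o_he_o s u b k := by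
  rcases le_total b (-219 / 500) with h | h
  · exact bb25 R s1 s2 u1 u2 b1 h
  · exact bb26 R s1 s2 u1 u2 h b2

theorem bb23 {s u b k : ℝ} (R : RegB s u b k)
    (s1 : 3 / 5 ≤ s) (s2 : s ≤ 309 / 500) (u1 : 59 / 500 ≤ u) (u2 : u ≤ 67 / 500)
    (b1 : -1 / 2 ≤ b) (b2 : b ≤ -3 / 8) :
    0 ≤ fb_h1_hH_hh_Tv s u b k ∨ (h0 + u + b / 2 + k ≤ 1 ∧ 0 ≤ fb_h1_hH_hh_HH s u b k) ∨ 0 ≤ fb_h1_hH_hh_o s u b k ∨ 0 ≤ fb_h1_o_hh_o s u b k ∨ (u + b / 2 + k ≤ 0 ∧ 0 ≤ fb_hs_v2_hh_vl s u b k) ∨ (u + b / 2 + k ≤ 0 ∧ 0 ≤ fb_hs_v2_he_vl s u b k) ∨ 0 ≤ fb_h1_o_he_o s u b k ∨ 0 ≤ fb_hs_o_he_o s u b k := by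
  rcases le_total u (63 / 500) with h | h
  · exact bb24 R s1 s2 u1 h b1 b2
  · exact bb33 R s1 s2 h u2 b1 b2

theorem bb22 {s u b k : ℝ} (R : RegB s u b k)
    (s1 : 3 / 5 ≤ s) (s2 : s ≤ 127 / 200) (u1 : 59 / 500 ≤ u) (u2 : u ≤ 67 / 500)
    (b1 : -1 / 2 ≤ b) (b2 : b ≤ -3 / 8) :
    0 ≤ fb_h1_hH_hh_Tv s u b k ∨ (h0 + u + b / 2 + k ≤ 1 ∧ 0 ≤ fb_h1_hH_hh_HH s u b k) ∨ 0 ≤ fb_h1_hH_hh_o s u b k ∨ 0 ≤ fb_h1_o_hh_o s u b k ∨ (u + b / 2 + k ≤ 0 ∧ 0 ≤ fb_hs_v2_hh_vl s u b k) ∨ (u + b / 2 + k ≤ 0 ∧ 0 ≤ fb_hs_v2_he_vl s u b k) ∨ 0 ≤ fb_h1_o_he_o s u b k ∨ 0 ≤ fb_hs_o_he_o s u b k := by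
  rcases le_total s (309 / 500) with h | h
  · exact bb23 R s1 h u1 u2 b1 b2
  · exact bb46 R h s2 u1 u2 b1 b2

theorem bb21 {s u b k : ℝ} (R : RegB s u b k)
    (s1 : 3 / 5 ≤ s) (s2 : s ≤ 67 / 100) (u1 : 59 / 500 ≤ u) (u2 : u ≤ 67 / 500)
    (b1 : -1 / 2 ≤ b) (b2 : b ≤ -3 / 8) :
    0 ≤ fb_h1_hH_hh_Tv s u b k ∨ (h0 + u + b / 2 + k ≤ 1 ∧ 0 ≤ fb_h1_hH_hh_HH s u b k) ∨ 0 ≤ fb_h1_hH_hh_o s u b k ∨ 0 ≤ fb_h1_o_hh_o s u b k ∨ (u + b / 2 + k ≤ 0 ∧ 0 ≤ fb_hs_v2_hh_vl s u b k) ∨ (u + b / 2 + k ≤ 0 ∧ 0 ≤ fb_hs_v2_he_vl s u b k) ∨ 0 ≤ fb_h1_o_he_o s u b k ∨ 0 ≤ fb_hs_o_he_o s u b k := by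
  rcases le_total s (127 / 200) with h | h
  · exact bb22 R s1 h u1 u2 b1 b2
  · exact bb53 R h s2 u1 u2 b1 b2

theorem bb18 {s u b k : ℝ} (R : RegB s u b k)
    (s1 : 3 / 5 ≤ s) (s2 : s ≤ 67 / 100) (u1 : 101 / 1000 ≤ u) (u2 : u ≤ 59 / 500)
    (b1 : -219 / 500 ≤ b) (b2 : b ≤ -3 / 8) :
    0 ≤ fb_h1_hH_hh_Tv s u b k ∨ (h0 + u + b / 2 + k ≤ 1 ∧ 0 ≤ fb_h1_hH_hh_HH s u b k) ∨ 0 ≤ fb_h1_hH_hh_o s u b k ∨ 0 ≤ fb_h1_o_hh_o s u b k ∨ (u + b / 2 + k ≤ 0 ∧ 0 ≤ fb_hs_v2_hh_vl s u b k) ∨ (u + b / 2 + k ≤ 0 ∧ 0 ≤ fb_hs_v2_he_vl s u b k) ∨ 0 ≤ fb_h1_o_he_o s u b k ∨ 0 ≤ fb_hs_o_he_o s u b k := by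
  rcases le_total b (-407 / 1000) with h | h
  · exact bb19 R s1 s2 u1 u2 b1 h
  · exact bb20 R s1 s2 u1 u2 h b2

theorem bb16 {s u b k : ℝ} (R : RegB s u b k)
    (s1 : 3 / 5 ≤ s) (s2 : s ≤ 67 / 100) (u1 : 101 / 1000 ≤ u) (u2 : u ≤ 59 / 500)
    (b1 : -1 / 2 ≤ b) (b2 : b ≤ -3 / 8) :
    0 ≤ fb_h1_hH_hh_Tv s u b k ∨ (h0 + u + b / 2 + k ≤ 1 ∧ 0 ≤ fb_h1_hH_hh_HH s u b k) ∨ 0 ≤ fb_h1_hH_hh_o s u b k ∨ 0 ≤ fb_h1_o_hh_o s u b k ∨ (u + b / 2 + k ≤ 0 ∧ 0 ≤ fb_hs_v2_hh_vl s u b k) ∨ (u + b / 2 + k ≤ 0 ∧ 0 ≤ fb_hs_v2_he_vl s u b k) ∨ 0 ≤ fb_h1_o_he_o s u b k ∨ 0 ≤ fb_hs_o_he_o s u b k := by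
  rcases le_total b (-219 / 500) with h | h
  · exact bb17 R s1 s2 u1 u2 b1 h
  · exact bb18 R s1 s2 u1 u2 h b2

theorem bb15 {s u b k : ℝ} (R : RegB s u b k)
    (s1 : 3 / 5 ≤ s) (s2 : s ≤ 67 / 100) (u1 : 101 / 1000 ≤ u) (u2 : u ≤ 67 / 500)
    (b1 : -1 / 2 ≤ b) (b2 : b ≤ -3 / 8) :
    0 ≤ fb_h1_hH_hh_Tv s u b k ∨ (h0 + u + b / 2 + k ≤ 1 ∧ 0 ≤ fb_h1_hH_hh_HH s u b k) ∨ 0 ≤ fb_h1_hH_hh_o s u b k ∨ 0 ≤ fb_h1_o_hh_o s u b k ∨ (u + b / 2 + k ≤ 0 ∧ 0 ≤ fb_hs_v2_hh_vl s u b k) ∨ (u + b / 2 + k ≤ 0 ∧ 0 ≤ fb_hs_v2_he_vl s u b k) ∨ 0 ≤ fb_h1_o_he_o s u b k ∨ 0 ≤ fb_hs_o_he_o s u b k := by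
  rcases le_total u (59 / 500) with h | h
  · exact bb16 R s1 s2 u1 h b1 b2
  · exact bb21 R s1 s2 h u2 b1 b2

theorem bb14 {s u b k : ℝ} (R : RegB s u b k)
    (s1 : 3 / 5 ≤ s) (s2 : s ≤ 67 / 100) (u1 : 101 / 1000 ≤ u) (u2 : u ≤ 67 / 500)
    (b1 : -1 / 2 ≤ b) (b2 : b ≤ -1 / 4) :
    0 ≤ fb_h1_hH_hh_Tv s u b k ∨ (h0 + u + b / 2 + k ≤ 1 ∧ 0 ≤ fb_h1_hH_hh_HH s u b k) ∨ 0 ≤ fb_h1_hH_hh_o s u b k ∨ 0 ≤ fb_h1_o_hh_o s u b k ∨ (u + b / 2 + k ≤ 0 ∧ 0 ≤ fb_hs_v2_hh_vl s u b k) ∨ (u + b / 2 + k ≤ 0 ∧ 0 ≤ fb_hs_v2_he_vl s u b k) ∨ 0 ≤ fb_h1_o_he_o s u b k ∨ 0 ≤ fb_hs_o_he_o s u b k := by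
  rcases le_total b (-3 / 8) with h | h
  · exact bb15 R s1 s2 u1 u2 b1 h
  · exact bb54 R s1 s2 u1 u2 h b2

theorem bb11 {s u b k : ℝ} (R : RegB s u b k)
    (s1 : 3 / 5 ≤ s) (s2 : s ≤ 67 / 100) (u1 : 37 / 400 ≤ u) (u2 : u ≤ 101 / 1000)
    (b1 : -313 / 1000 ≤ b) (b2 : b ≤ -1 / 4) :
    0 ≤ fb_h1_hH_hh_Tv s u b k ∨ (h0 + u + b / 2 + k ≤ 1 ∧ 0 ≤ fb_h1_hH_hh_HH s u b k) ∨ 0 ≤ fb_h1_hH_hh_o s u b k ∨ 0 ≤ fb_h1_o_hh_o s u b k ∨ (u + b / 2 + k ≤ 0 ∧ 0 ≤ fb_hs_v2_hh_vl s u b k) ∨ (u + b / 2 + k ≤ 0 ∧ 0 ≤ fb_hs_v2_he_vl s u b k) ∨ 0 ≤ fb_h1_o_he_o s u b k ∨ 0 ≤ fb_hs_o_he_o s u b k := by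
  rcases le_total s (127 / 200) with h | h
  · exact bb12 R s1 h u1 u2 b1 b2
  · exact bb13 R h s2 u1 u2 b1 b2

theorem bb9 {s u b k : ℝ} (R : RegB s u b k)
    (s1 : 3 / 5 ≤ s) (s2 : s ≤ 67 / 100) (u1 : 21 / 250 ≤ u) (u2 : u ≤ 101 / 1000)
    (b1 : -313 / 1000 ≤ b) (b2 : b ≤ -1 / 4) :
    0 ≤ fb_h1_hH_hh_Tv s u b k ∨ (h0 + u + b / 2 + k ≤ 1 ∧ 0 ≤ fb_h1_hH_hh_HH s u b k) ∨ 0 ≤ fb_h1_hH_hh_o s u b k ∨ 0 ≤ fb_h1_o_hh_o s u b k ∨ (u + b / 2 + k ≤ 0 ∧ 0 ≤ fb_hs_v2_hh_vl s u b k) ∨ (u + b / 2 + k ≤ 0 ∧ 0 ≤ fb_hs_v2_he_vl s u b k) ∨ 0 ≤ fb_h1_o_he_o s u b k ∨ 0 ≤ fb_hs_o_he_o s u b k := by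
  rcases le_total u (37 / 400) with h | h
  · exact bb10 R s1 s2 u1 h b1 b2
  · exact bb11 R s1 s2 h u2 b1 b2

theorem bb7 {s u b k : ℝ} (R : RegB s u b k)
    (s1 : 3 / 5 ≤ s) (s2 : s ≤ 67 / 100) (u1 : 3397 / 50000 ≤ u) (u2 : u ≤ 101 / 1000)
    (b1 : -313 / 1000 ≤ b) (b2 : b ≤ -1 / 4) :
    0 ≤ fb_h1_hH_hh_Tv s u b k ∨ (h0 + u + b / 2 + k ≤ 1 ∧ 0 ≤ fb_h1_hH_hh_HH s u b k) ∨ 0 ≤ fb_h1_hH_hh_o s u b k ∨ 0 ≤ fb_h1_o_hh_o s u b k ∨ (u + b / 2 + k ≤ 0 ∧ 0 ≤ fb_hs_v2_hh_vl s u b k) ∨ (u + b / 2 + k ≤ 0 ∧ 0 ≤ fb_hs_v2_he_vl s u b k) ∨ 0 ≤ fb_h1_o_he_o s u b k ∨ 0 ≤ fb_hs_o_he_o s u b k := by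
  rcases le_total u (21 / 250) with h | h
  · exact bb8 R s1 s2 u1 h b1 b2
  · exact bb9 R s1 s2 h u2 b1 b2

theorem bb5 {s u b k : ℝ} (R : RegB s u b k)
    (s1 : 3 / 5 ≤ s) (s2 : s ≤ 67 / 100) (u1 : 3397 / 50000 ≤ u) (u2 : u ≤ 101 / 1000)
    (b1 : -3 / 8 ≤ b) (b2 : b ≤ -1 / 4) :
    0 ≤ fb_h1_hH_hh_Tv s u b k ∨ (h0 + u + b / 2 + k ≤ 1 ∧ 0 ≤ fb_h1_hH_hh_HH s u b k) ∨ 0 ≤ fb_h1_hH_hh_o s u b k ∨ 0 ≤ fb_h1_o_hh_o s u b k ∨ (u + b / 2 + k ≤ 0 ∧ 0 ≤ fb_hs_v2_hh_vl s u b k) ∨ (u + b / 2 + k ≤ 0 ∧ 0 ≤ fb_hs_v2_he_vl s u b k) ∨ 0 ≤ fb_h1_o_he_o s u b k ∨ 0 ≤ fb_hs_o_he_o s u b k := by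
  rcases le_total b (-313 / 1000) with h | h
  · exact bb6 R s1 s2 u1 u2 b1 h
  · exact bb7 R s1 s2 u1 u2 h b2

theorem bb3 {s u b k : ℝ} (R : RegB s u b k)
    (s1 : 3 / 5 ≤ s) (s2 : s ≤ 67 / 100) (u1 : 3397 / 50000 ≤ u) (u2 : u ≤ 101 / 1000)
    (b1 : -1 / 2 ≤ b) (b2 : b ≤ -1 / 4) :
    0 ≤ fb_h1_hH_hh_Tv s u b k ∨ (h0 + u + b / 2 + k ≤ 1 ∧ 0 ≤ fb_h1_hH_hh_HH s u b k) ∨ 0 ≤ fb_h1_hH_hh_o s u b k ∨ 0 ≤ fb_h1_o_hh_o s u b k ∨ (u + b / 2 + k ≤ 0 ∧ 0 ≤ fb_hs_v2_hh_vl s u b k) ∨ (u + b / 2 + k ≤ 0 ∧ 0 ≤ fb_hs_v2_he_vl s u b k) ∨ 0 ≤ fb_h1_o_he_o s u b k ∨ 0 ≤ fb_hs_o_he_o s u b k := by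
  rcases le_total b (-3 / 8) with h | h
  · exact bb4 R s1 s2 u1 u2 b1 h
  · exact bb5 R s1 s2 u1 u2 h b2

theorem bb2 {s u b k : ℝ} (R : RegB s u b k)
    (s1 : 3 / 5 ≤ s) (s2 : s ≤ 67 / 100) (u1 : 3397 / 50000 ≤ u) (u2 : u ≤ 67 / 500)
    (b1 : -1 / 2 ≤ b) (b2 : b ≤ -1 / 4) :
    0 ≤ fb_h1_hH_hh_Tv s u b k ∨ (h0 + u + b / 2 + k ≤ 1 ∧ 0 ≤ fb_h1_hH_hh_HH s u b k) ∨ 0 ≤ fb_h1_hH_hh_o s u b k ∨ 0 ≤ fb_h1_o_hh_o s u b k ∨ (u + b / 2 + k ≤ 0 ∧ 0 ≤ fb_hs_v2_hh_vl s u b k) ∨ (u + b / 2 + k ≤ 0 ∧ 0 ≤ fb_hs_v2_he_vl s u b k) ∨ 0 ≤ fb_h1_o_he_o s u b k ∨ 0 ≤ fb_hs_o_he_o s u b k := by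
  rcases le_total u (101 / 1000) with h | h
  · exact bb3 R s1 s2 u1 h b1 b2
  · exact bb14 R s1 s2 h u2 b1 b2

theorem bb1 {s u b k : ℝ} (R : RegB s u b k)
    (s1 : 3 / 5 ≤ s) (s2 : s ≤ 67 / 100) (u1 : 3397 / 50000 ≤ u) (u2 : u ≤ 67 / 500)
    (b1 : -1 / 2 ≤ b) (b2 : b ≤ 0) :
    0 ≤ fb_h1_hH_hh_Tv s u b k ∨ (h0 + u + b / 2 + k ≤ 1 ∧ 0 ≤ fb_h1_hH_hh_HH s u b k) ∨ 0 ≤ fb_h1_hH_hh_o s u b k ∨ 0 ≤ fb_h1_o_hh_o s u b k ∨ (u + b / 2 + k ≤ 0 ∧ 0 ≤ fb_hs_v2_hh_vl s u b k) ∨ (u + b / 2 + k ≤ 0 ∧ 0 ≤ fb_hs_v2_he_vl s u b k) ∨ 0 ≤ fb_h1_o_he_o s u b k ∨ 0 ≤ fb_hs_o_he_o s u b k := by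
  rcases le_total b (-1 / 4) with h | h
  · exact bb2 R s1 s2 u1 u2 b1 h
  · exact bb63 R s1 s2 u1 u2 h b2

theorem bb0 {s u b k : ℝ} (R : RegB s u b k)
    (s1 : 3 / 5 ≤ s) (s2 : s ≤ 67 / 100) (u1 : 3397 / 50000 ≤ u) (u2 : u ≤ 67 / 500)
    (b1 : -1 / 2 ≤ b) (b2 : b ≤ 1 / 2) :
    0 ≤ fb_h1_hH_hh_Tv s u b k ∨ (h0 + u + b / 2 + k ≤ 1 ∧ 0 ≤ fb_h1_hH_hh_HH s u b k) ∨ 0 ≤ fb_h1_hH_hh_o s u b k ∨ 0 ≤ fb_h1_o_hh_o s u b k ∨ (u + b / 2 + k ≤ 0 ∧ 0 ≤ fb_hs_v2_hh_vl s u b k) ∨ (u + b / 2 + k ≤ 0 ∧ 0 ≤ fb_hs_v2_he_vl s u b k) ∨ 0 ≤ fb_h1_o_he_o s u b k ∨ 0 ≤ fb_hs_o_he_o s u b k := by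
  rcases le_total b (0) with h | h
  · exact bb1 R s1 s2 u1 u2 b1 h
  · exact bb74 R s1 s2 u1 u2 h b2

end Pool.Agent.Strip051.FourF
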