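import Pool.Agent.Strip051.FourF.Pair

/-! # The new point below e -/

namespace Pool.Agent.Strip051.FourF

set_option linter.unusedVariables false

open Pool.Agent.StripNear Pool.Agent.StripSquare Pool.Agent.Strip051
open Pool.Agent.Strip051.Four.Low (ph)
open Pool.Agent.Strip051.FourB (lo up)

/-- The function of the boxes `be`. -/
noncomputable def fe_h1_o_hh_o (s y b k : ℝ) : ℝ :=
  4 * ph s + 2 * ph (y + b / 2 - k) + ph (h0 + y - b / 2 - k - 1) + ph (y - b / 2 - k) - 566 / 125 * ph y - 434 / 125 * ph (h0 + s - 1) - 434 / 125 * ph (h0 + s - y - 1) - 2 * ph b - 3 * ph (h0 - 1)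

/-- The function of the boxes `be`. -/
noncomputable def fe_h1_o_hy_o (s y b k : ℝ) : ℝ :=
  4 * ph s + 2 * ph (y + b / 2 - k) + ph (h0 + y - b / 2 - k - 1) + ph (h0 - b / 2 - k) - 566 / 125 * ph y - 434 / 125 * ph (h0 + s - 1) - 434 / 125 * ph (h0 + s - y - 1) - 2 * ph b - 2 * ph (h0 - 1) - ph (2 * h0 + s - y - 1) + 2 * s - 281 / 200

/-- The function of the boxes `be`. -/
noncomputable def fe_h1_hH_hh_o (s y b k : ℝ) : ℝ :=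
  4 * ph s + 3 * ph (y + b / 2 - k) + ph (h0 + y - b / 2 - k - 1) + ph (h0 + s + b / 2 + k - y - 1) + ph (y - b / 2 - k) - 566 / 125 * ph y - 559 / 125 * ph (h0 + s - 1) - 434 / 125 * ph (h0 + s - y - 1) - 3 * ph b - 3 * ph (h0 - 1)

/-- The function of the boxes `be`. -/
noncomputable def fe_o_o_1y_o (s y b k : ℝ) : ℝ :=
  4 * ph s + ph (h0 + y + b / 2 - k - 1) + ph (h0 - b / 2 - k) - 566 / 125 * ph y - 434 / 125 * ph (h0 + s - 1) - 434 / 125 * ph (h0 + s - y - 1) - ph b - ph (2 * h0 + s - y - 1) + 2 * s - 281 / 200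

/-- The function of the boxes `be`. -/
noncomputable def fe_o_o_1h_o (s y b k : ℝ) : ℝ :=
  4 * ph s + ph (h0 + y + b / 2 - k - 1) + ph (y - b / 2 - k) - 566 / 125 * ph y - 434 / 125 * ph (h0 + s - 1) - 434 / 125 * ph (h0 + s - y - 1) - ph b - ph (h0 - 1)

/-- The region of the boxes `be`. -/
structure RegE (s y b k : ℝ) : Prop where
  k1 : 86602 / 100000 * ph b ≤ k
  k2 : k ≤ 86603 / 100000 * ph b
  h1 : 86602 / 100000 ≤ h0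
  h2 : h0 ≤ 86603 / 100000
  k3 : 0 ≤ k
  k4 : k ≤ 1161 / 10000
  r4 : h0 - b / 2 - k ≤ 1
  r5 : h0 + b / 2 - k ≤ 1
  ye : y ≤ h0 + s - 1
  s1 : 3 / 5 ≤ s
  s2 : s ≤ 67 / 100
  y1 : 403 / 1000 ≤ y
  y2 : y ≤ 537 / 1000
  b1 : -1 / 2 ≤ b
  b2 : b ≤ 1 / 2

theorem RegE.lo1 {s y b k : ℝ} (R : RegE s y b k) (w0 : ℝ) (hw0 : w0 ^ 2 < 1) :
    2 * w0 * (2 * h0 + s - y - 1) - 2 * w0 ^ 2 ≤ (1 - w0 ^ 2) * ph (2 * h0 + s - y - 1) :=
  lo hw0 (by linarith only [R.h1, R.ye]) (by linarith only [R.h2, R.s2, R.y1])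

theorem RegE.lo2 {s y b k : ℝ} (R : RegE s y b k) (w0 : ℝ) (hw0 : w0 ^ 2 < 1) :
    2 * w0 * (b) - 2 * w0 ^ 2 ≤ (1 - w0 ^ 2) * ph (b) :=
  lo hw0 (by linarith only [R.b1]) (by linarith only [R.b2])

theorem RegE.lo3 {s y b k : ℝ} (R : RegE s y b k) (w0 : ℝ) (hw0 : w0 ^ 2 < 1) :
    2 * w0 * (h0 + s + b / 2 + k - y - 1) - 2 * w0 ^ 2 ≤ (1 - w0 ^ 2) * ph (h0 + s + b / 2 + k - y - 1) :=
  lo hw0 (by linarith only [R.h1, R.r4, R.ye]) (by linarith only [R.h2, R.k4, R.s2, R.y1, R.b2])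

theorem RegE.lo4 {s y b k : ℝ} (R : RegE s y b k) (w0 : ℝ) (hw0 : w0 ^ 2 < 1) :
    2 * w0 * (h0 + s - 1) - 2 * w0 ^ 2 ≤ (1 - w0 ^ 2) * ph (h0 + s - 1) :=
  lo hw0 (by linarith only [R.h1, R.s1]) (by linarith only [R.h2, R.s2])

theorem RegE.lo5 {s y b k : ℝ} (R : RegE s y b k) (w0 : ℝ) (hw0 : w0 ^ 2 < 1) :
    2 * w0 * (h0 + s - y - 1) - 2 * w0 ^ 2 ≤ (1 - w0 ^ 2) * ph (h0 + s - y - 1) :=
  lo hw0 (by linarith only [R.ye]) (by linarith only [R.h2, R.s2, R.y1])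

theorem RegE.lo6 {s y b k : ℝ} (R : RegE s y b k) (w0 : ℝ) (hw0 : w0 ^ 2 < 1) :
    2 * w0 * (h0 + y + b / 2 - k - 1) - 2 * w0 ^ 2 ≤ (1 - w0 ^ 2) * ph (h0 + y + b / 2 - k - 1) :=
  lo hw0 (by linarith only [R.h1, R.k4, R.y1, R.b1]) (by linarith only [R.h2, R.r5, R.ye, R.s2])

theorem RegE.lo7 {s y b k : ℝ} (R : RegE s y b k) (w0 : ℝ) (hw0 : w0 ^ 2 < 1) :
    2 * w0 * (h0 + y - b / 2 - k - 1) - 2 * w0 ^ 2 ≤ (1 - w0 ^ 2) * ph (h0 + y - b / 2 - k - 1) :=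
  lo hw0 (by linarith only [R.h1, R.k4, R.y1, R.b2]) (by linarith only [R.h2, R.r4, R.ye, R.s2])

theorem RegE.lo8 {s y b k : ℝ} (R : RegE s y b k) (w0 : ℝ) (hw0 : w0 ^ 2 < 1) :
    2 * w0 * (h0 + y - s - b / 2 - k) - 2 * w0 ^ 2 ≤ (1 - w0 ^ 2) * ph (h0 + y - s - b / 2 - k) :=
  lo hw0 (by linarith only [R.h1, R.k4, R.s2, R.y1, R.b2]) (by linarith only [R.h2, R.r4, R.ye])

theorem RegE.lo9 {s y b k : ℝ} (R : RegE s y b k) (w0 : ℝ) (hw0 : w0 ^ 2 < 1) :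
    2 * w0 * (h0 - 1) - 2 * w0 ^ 2 ≤ (1 - w0 ^ 2) * ph (h0 - 1) :=
  lo hw0 (by linarith only [R.h1]) (by linarith only [R.h2])

theorem RegE.lo10 {s y b k : ℝ} (R : RegE s y b k) (w0 : ℝ) (hw0 : w0 ^ 2 < 1) :
    2 * w0 * (h0 - b / 2 - k) - 2 * w0 ^ 2 ≤ (1 - w0 ^ 2) * ph (h0 - b / 2 - k) :=
  lo hw0 (by linarith only [R.h1, R.k4, R.b2]) (by linarith only [R.r4])

theorem RegE.lo11 {s y b k : ℝ} (R : RegE s y b k) (w0 : ℝ) (hw0 : w0 ^ 2 < 1) :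
    2 * w0 * (s) - 2 * w0 ^ 2 ≤ (1 - w0 ^ 2) * ph (s) :=
  lo hw0 (by linarith only [R.s1]) (by linarith only [R.s2])

theorem RegE.lo12 {s y b k : ℝ} (R : RegE s y b k) (w0 : ℝ) (hw0 : w0 ^ 2 < 1) :
    2 * w0 * (y + b / 2 - k) - 2 * w0 ^ 2 ≤ (1 - w0 ^ 2) * ph (y + b / 2 - k) :=
  lo hw0 (by linarith only [R.k4, R.y1, R.b1]) (by linarith only [R.r5, R.ye, R.s2])

theorem RegE.lo13 {s y b k : ℝ} (R : RegE s y b k) (w0 : ℝ) (hw0 : w0 ^ 2 < 1) :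
    2 * w0 * (y - b / 2 - k) - 2 * w0 ^ 2 ≤ (1 - w0 ^ 2) * ph (y - b / 2 - k) :=
  lo hw0 (by linarith only [R.k4, R.y1, R.b2]) (by linarith only [R.r4, R.ye, R.s2])

theorem RegE.lo14 {s y b k : ℝ} (R : RegE s y b k) (w0 : ℝ) (hw0 : w0 ^ 2 < 1) :
    2 * w0 * (y) - 2 * w0 ^ 2 ≤ (1 - w0 ^ 2) * ph (y) :=
  lo hw0 (by linarith only [R.y1]) (by linarith only [R.h2, R.ye, R.s2])

theorem be6 {s y b k : ℝ} (R : RegE s y b k)
    (s1 : 3 / 5 ≤ s) (s2 : s ≤ 67 / 100) (y1 : 403 / 1000 ≤ y) (y2 : y ≤ 21 / 50)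
    (b1 : -1 / 2 ≤ b) (b2 : b ≤ -3 / 8) :
    0 ≤ fe_h1_o_hh_o s y b k ∨ 0 ≤ fe_h1_o_hy_o s y b k ∨ 0 ≤ fe_h1_hH_hh_o s y b k ∨ (b / 2 + k + 1 ≤ h0 + y ∧ 0 ≤ fe_o_o_1y_o s y b k) ∨ (b / 2 + k + 1 ≤ h0 + y ∧ 0 ≤ fe_o_o_1h_o s y b k) := by
  have e1 := up (t1 := (-268 / 1000)) (t2 := (-194 / 1000)) (x := b) (by norm_num)
    (by linarith only [b1]) (by linarith only [b2])
  have e2 := up (t1 := (247 / 1000)) (t2 := (291 / 1000)) (x := h0 + s - 1) (by norm_num)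
    (by linarith only [R.h1, s1]) (by linarith only [R.h2, s2])
  have e3 := up (t1 := (23 / 1000)) (t2 := (67 / 1000)) (x := h0 + s - y - 1) (by norm_num)
    (by linarith only [R.h1, s1, y2]) (by linarith only [R.h2, s2, y1])
  have e4 := up (t1 := (-68 / 1000)) (t2 := (-67 / 1000)) (x := h0 - 1) (by norm_num)
    (by linarith only [R.h1]) (by linarith only [R.h2])
  have e5 := R.lo11 (333 / 1000) (by norm_num)
  have e6 := up (t1 := (210 / 1000)) (t2 := (221 / 1000)) (x := y) (by norm_num)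
    (by linarith only [y1]) (by linarith only [y2])
  have e7 := R.lo6 (-49 / 1000) (by norm_num)
  have e8 := R.lo13 (302 / 1000) (by norm_num)
  right
  right
  right
  right
  refine ⟨by linarith only [R.k2, R.h1, y1, b2, e1], ?_⟩
  unfold fe_o_o_1h_o
  linarith only [R.k2, R.h2, s1, y2, b1, e1, e2, e3, e4, e5, e6, e7, e8]

theorem be9 {s y b k : ℝ} (R : RegE s y b k)
    (s1 : 3 / 5 ≤ s) (s2 : s ≤ 127 / 200) (y1 : 21 / 50 ≤ y) (y2 : y ≤ 109 / 250)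
    (b1 : -1 / 2 ≤ b) (b2 : b ≤ -219 / 500) :
    0 ≤ fe_h1_o_hh_o s y b k ∨ 0 ≤ fe_h1_o_hy_o s y b k ∨ 0 ≤ fe_h1_hH_hh_o s y b k ∨ (b / 2 + k + 1 ≤ h0 + y ∧ 0 ≤ fe_o_o_1y_o s y b k) ∨ (b / 2 + k + 1 ≤ h0 + y ∧ 0 ≤ fe_o_o_1h_o s y b k) := by
  have e1 := up (t1 := (-268 / 1000)) (t2 := (-230 / 1000)) (x := b) (by norm_num)
    (by linarith only [b1]) (by linarith only [b2])
  have e2 := up (t1 := (620 / 1000)) (t2 := (717 / 1000)) (x := 2 * h0 + s - y - 1) (by norm_num)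
    (by linarith only [R.h1, s1, y2]) (by linarith only [R.h2, s2, y1])
  have e3 := up (t1 := (247 / 1000)) (t2 := (269 / 1000)) (x := h0 + s - 1) (by norm_num)
    (by linarith only [R.h1, s1]) (by linarith only [R.h2, s2])
  have e4 := up (t1 := (15 / 1000)) (t2 := (41 / 1000)) (x := h0 + s - y - 1) (by norm_num)
    (by linarith only [R.h1, s1, y2]) (by linarith only [R.h2, s2, y1])
  have e5 := R.lo11 (333 / 1000) (by norm_num)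
  have e6 := up (t1 := (220 / 1000)) (t2 := (230 / 1000)) (x := y) (by norm_num)
    (by linarith only [y1]) (by linarith only [y2])
  have e7 := R.lo6 (-2 / 1000) (by norm_num)
  have e8 := R.lo10 (931 / 1000) (by norm_num)
  right
  right
  right
  left
  refine ⟨by linarith only [R.k2, R.h1, y1, b2, e1], ?_⟩
  unfold fe_o_o_1y_o
  linarith only [R.k2, R.h1, s1, y1, b2, e2, e1, e3, e4, e5, e6, e7, e8]

theorem be10 {s y b k : ℝ} (R : RegE s y b k)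
    (s1 : 127 / 200 ≤ s) (s2 : s ≤ 67 / 100) (y1 : 21 / 50 ≤ y) (y2 : y ≤ 109 / 250)
    (b1 : -1 / 2 ≤ b) (b2 : b ≤ -219 / 500) :
    0 ≤ fe_h1_o_hh_o s y b k ∨ 0 ≤ fe_h1_o_hy_o s y b k ∨ 0 ≤ fe_h1_hH_hh_o s y b k ∨ (b / 2 + k + 1 ≤ h0 + y ∧ 0 ≤ fe_o_o_1y_o s y b k) ∨ (b / 2 + k + 1 ≤ h0 + y ∧ 0 ≤ fe_o_o_1h_o s y b k) := by
  have e1 := up (t1 := (-268 / 1000)) (t2 := (-230 / 1000)) (x := b) (by norm_num)
    (by linarith only [b1]) (by linarith only [b2])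
  have e2 := up (t1 := (268 / 1000)) (t2 := (291 / 1000)) (x := h0 + s - 1) (by norm_num)
    (by linarith only [R.h1, s1]) (by linarith only [R.h2, s2])
  have e3 := up (t1 := (32 / 1000)) (t2 := (59 / 1000)) (x := h0 + s - y - 1) (by norm_num)
    (by linarith only [R.h1, s1, y2]) (by linarith only [R.h2, s2, y1])
  have e4 := up (t1 := (-68 / 1000)) (t2 := (-67 / 1000)) (x := h0 - 1) (by norm_num)
    (by linarith only [R.h1]) (by linarith only [R.h2])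
  have e5 := R.lo11 (358 / 1000) (by norm_num)
  have e6 := up (t1 := (220 / 1000)) (t2 := (230 / 1000)) (x := y) (by norm_num)
    (by linarith only [y1]) (by linarith only [y2])
  have e7 := R.lo6 (-40 / 1000) (by norm_num)
  have e8 := R.lo13 (313 / 1000) (by norm_num)
  right
  right
  right
  right
  refine ⟨by linarith only [R.k2, R.h1, y1, b2, e1], ?_⟩
  unfold fe_o_o_1h_o
  linarith only [R.k2, R.r4, s1, y2, b1, e1, e2, e3, e4, e5, e6, e7, e8]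

theorem be11 {s y b k : ℝ} (R : RegE s y b k)
    (s1 : 3 / 5 ≤ s) (s2 : s ≤ 67 / 100) (y1 : 21 / 50 ≤ y) (y2 : y ≤ 109 / 250)
    (b1 : -219 / 500 ≤ b) (b2 : b ≤ -3 / 8) :
    0 ≤ fe_h1_o_hh_o s y b k ∨ 0 ≤ fe_h1_o_hy_o s y b k ∨ 0 ≤ fe_h1_hH_hh_o s y b k ∨ (b / 2 + k + 1 ≤ h0 + y ∧ 0 ≤ fe_o_o_1y_o s y b k) ∨ (b / 2 + k + 1 ≤ h0 + y ∧ 0 ≤ fe_o_o_1h_o s y b k) := by
  have e1 := up (t1 := (-231 / 1000)) (t2 := (-194 / 1000)) (x := b) (by norm_num)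
    (by linarith only [b1]) (by linarith only [b2])
  have e2 := up (t1 := (247 / 1000)) (t2 := (291 / 1000)) (x := h0 + s - 1) (by norm_num)
    (by linarith only [R.h1, s1]) (by linarith only [R.h2, s2])
  have e3 := up (t1 := (15 / 1000)) (t2 := (59 / 1000)) (x := h0 + s - y - 1) (by norm_num)
    (by linarith only [R.h1, s1, y2]) (by linarith only [R.h2, s2, y1])
  have e4 := up (t1 := (-68 / 1000)) (t2 := (-67 / 1000)) (x := h0 - 1) (by norm_num)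
    (by linarith only [R.h1]) (by linarith only [R.h2])
  have e5 := R.lo11 (333 / 1000) (by norm_num)
  have e6 := up (t1 := (220 / 1000)) (t2 := (230 / 1000)) (x := y) (by norm_num)
    (by linarith only [y1]) (by linarith only [y2])
  have e7 := R.lo7 (228 / 1000) (by norm_num)
  have e8 := R.lo12 (57 / 1000) (by norm_num)
  have e9 := R.lo13 (311 / 1000) (by norm_num)
  left
  unfold fe_h1_o_hh_o
  linarith only [R.k2, R.h2, s1, y2, b1, e1, e2, e3, e4, e5, e6, e7, e8, e9]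

theorem be14 {s y b k : ℝ} (R : RegE s y b k)
    (s1 : 3 / 5 ≤ s) (s2 : s ≤ 127 / 200) (y1 : 109 / 250 ≤ y) (y2 : y ≤ 47 / 100)
    (b1 : -1 / 2 ≤ b) (b2 : b ≤ -219 / 500) :
    0 ≤ fe_h1_o_hh_o s y b k ∨ 0 ≤ fe_h1_o_hy_o s y b k ∨ 0 ≤ fe_h1_hH_hh_o s y b k ∨ (b / 2 + k + 1 ≤ h0 + y ∧ 0 ≤ fe_o_o_1y_o s y b k) ∨ (b / 2 + k + 1 ≤ h0 + y ∧ 0 ≤ fe_o_o_1h_o s y b k) := by
  have e1 := up (t1 := (-268 / 1000)) (t2 := (-230 / 1000)) (x := b) (by norm_num)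
    (by linarith only [b1]) (by linarith only [b2])
  have e2 := up (t1 := (577 / 1000)) (t2 := (683 / 1000)) (x := 2 * h0 + s - y - 1) (by norm_num)
    (by linarith only [R.h1, R.ye]) (by linarith only [R.h2, s2, y1])
  have e3 := up (t1 := (247 / 1000)) (t2 := (269 / 1000)) (x := h0 + s - 1) (by norm_num)
    (by linarith only [R.h1, s1]) (by linarith only [R.h2, s2])
  have e4 := up (t1 := (0 / 1000)) (t2 := (33 / 1000)) (x := h0 + s - y - 1) (by norm_num)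
    (by linarith only [R.ye]) (by linarith only [R.h2, s2, y1])
  have e5 := R.lo11 (333 / 1000) (by norm_num)
  have e6 := up (t1 := (229 / 1000)) (t2 := (250 / 1000)) (x := y) (by norm_num)
    (by linarith only [y1]) (by linarith only [y2])
  have e7 := R.lo6 (15 / 1000) (by norm_num)
  have e8 := R.lo10 (931 / 1000) (by norm_num)
  right
  right
  right
  left
  refine ⟨by linarith only [R.k2, R.h1, y1, b2, e1], ?_⟩
  unfold fe_o_o_1y_o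
  linarith only [R.k2, R.h1, R.ye, s1, b2, e2, e1, e3, e4, e5, e6, e7, e8]

theorem be15 {s y b k : ℝ} (R : RegE s y b k)
    (s1 : 127 / 200 ≤ s) (s2 : s ≤ 67 / 100) (y1 : 109 / 250 ≤ y) (y2 : y ≤ 47 / 100)
    (b1 : -1 / 2 ≤ b) (b2 : b ≤ -219 / 500) :
    0 ≤ fe_h1_o_hh_o s y b k ∨ 0 ≤ fe_h1_o_hy_o s y b k ∨ 0 ≤ fe_h1_hH_hh_o s y b k ∨ (b / 2 + k + 1 ≤ h0 + y ∧ 0 ≤ fe_o_o_1y_o s y b k) ∨ (b / 2 + k + 1 ≤ h0 + y ∧ 0 ≤ fe_o_o_1h_o s y b k) := by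
  have e1 := up (t1 := (-268 / 1000)) (t2 := (-230 / 1000)) (x := b) (by norm_num)
    (by linarith only [b1]) (by linarith only [b2])
  have e2 := up (t1 := (622 / 1000)) (t2 := (768 / 1000)) (x := 2 * h0 + s - y - 1) (by norm_num)
    (by linarith only [R.h1, s1, y2]) (by linarith only [R.h2, s2, y1])
  have e3 := up (t1 := (268 / 1000)) (t2 := (291 / 1000)) (x := h0 + s - 1) (by norm_num)
    (by linarith only [R.h1, s1]) (by linarith only [R.h2, s2])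
  have e4 := up (t1 := (15 / 1000)) (t2 := (51 / 1000)) (x := h0 + s - y - 1) (by norm_num)
    (by linarith only [R.h1, s1, y2]) (by linarith only [R.h2, s2, y1])
  have e5 := R.lo11 (358 / 1000) (by norm_num)
  have e6 := up (t1 := (229 / 1000)) (t2 := (250 / 1000)) (x := y) (by norm_num)
    (by linarith only [y1]) (by linarith only [y2])
  have e7 := R.lo6 (-9 / 1000) (by norm_num)
  have e8 := R.lo10 (931 / 1000) (by norm_num)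
  right
  right
  right
  left
  refine ⟨by linarith only [R.k2, R.h1, y1, b2, e1], ?_⟩
  unfold fe_o_o_1y_o
  linarith only [R.k2, R.h1, s1, y1, b2, e2, e1, e3, e4, e5, e6, e7, e8]

theorem be18 {s y b k : ℝ} (R : RegE s y b k)
    (s1 : 3 / 5 ≤ s) (s2 : s ≤ 67 / 100) (y1 : 109 / 250 ≤ y) (y2 : y ≤ 889 / 2000)
    (b1 : -219 / 500 ≤ b) (b2 : b ≤ -3 / 8) :
    0 ≤ fe_h1_o_hh_o s y b k ∨ 0 ≤ fe_h1_o_hy_o s y b k ∨ 0 ≤ fe_h1_hH_hh_o s y b k ∨ (b / 2 + k + 1 ≤ h0 + y ∧ 0 ≤ fe_o_o_1y_o s y b k) ∨ (b / 2 + k + 1 ≤ h0 + y ∧ 0 ≤ fe_o_o_1h_o s y b k) := by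
  have e1 := up (t1 := (-231 / 1000)) (t2 := (-194 / 1000)) (x := b) (by norm_num)
    (by linarith only [b1]) (by linarith only [b2])
  have e2 := up (t1 := (247 / 1000)) (t2 := (291 / 1000)) (x := h0 + s - 1) (by norm_num)
    (by linarith only [R.h1, s1]) (by linarith only [R.h2, s2])
  have e3 := up (t1 := (10 / 1000)) (t2 := (51 / 1000)) (x := h0 + s - y - 1) (by norm_num)
    (by linarith only [R.h1, s1, y2]) (by linarith only [R.h2, s2, y1])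
  have e4 := up (t1 := (-68 / 1000)) (t2 := (-67 / 1000)) (x := h0 - 1) (by norm_num)
    (by linarith only [R.h1]) (by linarith only [R.h2])
  have e5 := R.lo11 (333 / 1000) (by norm_num)
  have e6 := up (t1 := (229 / 1000)) (t2 := (235 / 1000)) (x := y) (by norm_num)
    (by linarith only [y1]) (by linarith only [y2])
  have e7 := R.lo7 (233 / 1000) (by norm_num)
  have e8 := R.lo12 (65 / 1000) (by norm_num)
  have e9 := R.lo13 (317 / 1000) (by norm_num)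
  left
  unfold fe_h1_o_hh_o
  linarith only [R.k2, R.h2, s1, y2, b1, e1, e2, e3, e4, e5, e6, e7, e8, e9]

theorem be19 {s y b k : ℝ} (R : RegE s y b k)
    (s1 : 3 / 5 ≤ s) (s2 : s ≤ 67 / 100) (y1 : 889 / 2000 ≤ y) (y2 : y ≤ 453 / 1000)
    (b1 : -219 / 500 ≤ b) (b2 : b ≤ -3 / 8) :
    0 ≤ fe_h1_o_hh_o s y b k ∨ 0 ≤ fe_h1_o_hy_o s y b k ∨ 0 ≤ fe_h1_hH_hh_o s y b k ∨ (b / 2 + k + 1 ≤ h0 + y ∧ 0 ≤ fe_o_o_1y_o s y b k) ∨ (b / 2 + k + 1 ≤ h0 + y ∧ 0 ≤ fe_o_o_1h_o s y b k) := by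
  have e1 := up (t1 := (595 / 1000)) (t2 := (744 / 1000)) (x := 2 * h0 + s - y - 1) (by norm_num)
    (by linarith only [R.h1, s1, y2]) (by linarith only [R.h2, s2, y1])
  have e2 := up (t1 := (-231 / 1000)) (t2 := (-194 / 1000)) (x := b) (by norm_num)
    (by linarith only [b1]) (by linarith only [b2])
  have e3 := up (t1 := (247 / 1000)) (t2 := (291 / 1000)) (x := h0 + s - 1) (by norm_num)
    (by linarith only [R.h1, s1]) (by linarith only [R.h2, s2])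
  have e4 := up (t1 := (6 / 1000)) (t2 := (46 / 1000)) (x := h0 + s - y - 1) (by norm_num)
    (by linarith only [R.h1, s1, y2]) (by linarith only [R.h2, s2, y1])
  have e5 := up (t1 := (-68 / 1000)) (t2 := (-67 / 1000)) (x := h0 - 1) (by norm_num)
    (by linarith only [R.h1]) (by linarith only [R.h2])
  have e6 := R.lo11 (333 / 1000) (by norm_num)
  have e7 := up (t1 := (234 / 1000)) (t2 := (240 / 1000)) (x := y) (by norm_num)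
    (by linarith only [y1]) (by linarith only [y2])
  have e8 := R.lo7 (233 / 1000) (by norm_num)
  have e9 := R.lo10 (895 / 1000) (by norm_num)
  have e10 := R.lo10 (932 / 1000) (by norm_num)
  have e11 := R.lo12 (69 / 1000) (by norm_num)
  right
  left
  unfold fe_h1_o_hy_o
  linarith only [R.k2, R.h1, s1, y1, e1, e2, e3, e4, e5, e6, e7, e8, e9, e10, e11]

theorem be20 {s y b k : ℝ} (R : RegE s y b k)
    (s1 : 3 / 5 ≤ s) (s2 : s ≤ 67 / 100) (y1 : 453 / 1000 ≤ y) (y2 : y ≤ 47 / 100)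
    (b1 : -219 / 500 ≤ b) (b2 : b ≤ -3 / 8) :
    0 ≤ fe_h1_o_hh_o s y b k ∨ 0 ≤ fe_h1_o_hy_o s y b k ∨ 0 ≤ fe_h1_hH_hh_o s y b k ∨ (b / 2 + k + 1 ≤ h0 + y ∧ 0 ≤ fe_o_o_1y_o s y b k) ∨ (b / 2 + k + 1 ≤ h0 + y ∧ 0 ≤ fe_o_o_1h_o s y b k) := by
  have e1 := up (t1 := (577 / 1000)) (t2 := (722 / 1000)) (x := 2 * h0 + s - y - 1) (by norm_num)
    (by linarith only [R.h1, R.ye]) (by linarith only [R.h2, s2, y1])
  have e2 := up (t1 := (-231 / 1000)) (t2 := (-194 / 1000)) (x := b) (by norm_num)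
    (by linarith only [b1]) (by linarith only [b2])
  have e3 := up (t1 := (247 / 1000)) (t2 := (291 / 1000)) (x := h0 + s - 1) (by norm_num)
    (by linarith only [R.h1, s1]) (by linarith only [R.h2, s2])
  have e4 := up (t1 := (0 / 1000)) (t2 := (42 / 1000)) (x := h0 + s - y - 1) (by norm_num)
    (by linarith only [R.ye]) (by linarith only [R.h2, s2, y1])
  have e5 := up (t1 := (-68 / 1000)) (t2 := (-67 / 1000)) (x := h0 - 1) (by norm_num)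
    (by linarith only [R.h1]) (by linarith only [R.h2])
  have e6 := R.lo11 (333 / 1000) (by norm_num)
  have e7 := up (t1 := (239 / 1000)) (t2 := (250 / 1000)) (x := y) (by norm_num)
    (by linarith only [y1]) (by linarith only [y2])
  have e8 := R.lo7 (234 / 1000) (by norm_num)
  have e9 := R.lo10 (895 / 1000) (by norm_num)
  have e10 := R.lo10 (932 / 1000) (by norm_num)
  have e11 := R.lo12 (74 / 1000) (by norm_num)
  right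
  left
  unfold fe_h1_o_hy_o
  linarith only [R.k2, R.h1, s1, y1, e1, e2, e3, e4, e5, e6, e7, e8, e9, e10, e11]

theorem be22 {s y b k : ℝ} (R : RegE s y b k)
    (s1 : 3 / 5 ≤ s) (s2 : s ≤ 67 / 100) (y1 : 47 / 100 ≤ y) (y2 : y ≤ 537 / 1000)
    (b1 : -1 / 2 ≤ b) (b2 : b ≤ -219 / 500) :
    0 ≤ fe_h1_o_hh_o s y b k ∨ 0 ≤ fe_h1_o_hy_o s y b k ∨ 0 ≤ fe_h1_hH_hh_o s y b k ∨ (b / 2 + k + 1 ≤ h0 + y ∧ 0 ≤ fe_o_o_1y_o s y b k) ∨ (b / 2 + k + 1 ≤ h0 + y ∧ 0 ≤ fe_o_o_1h_o s y b k) := by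
  have e1 := up (t1 := (-268 / 1000)) (t2 := (-230 / 1000)) (x := b) (by norm_num)
    (by linarith only [b1]) (by linarith only [b2])
  have e2 := up (t1 := (577 / 1000)) (t2 := (685 / 1000)) (x := 2 * h0 + s - y - 1) (by norm_num)
    (by linarith only [R.h1, R.ye]) (by linarith only [R.h2, s2, y1])
  have e3 := up (t1 := (249 / 1000)) (t2 := (291 / 1000)) (x := h0 + s - 1) (by norm_num)
    (by linarith only [R.ye, y1]) (by linarith only [R.h2, s2])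
  have e4 := up (t1 := (0 / 1000)) (t2 := (34 / 1000)) (x := h0 + s - y - 1) (by norm_num)
    (by linarith only [R.ye]) (by linarith only [R.h2, s2, y1])
  have e5 := R.lo11 (336 / 1000) (by norm_num)
  have e6 := up (t1 := (249 / 1000)) (t2 := (291 / 1000)) (x := y) (by norm_num)
    (by linarith only [y1]) (by linarith only [R.h2, R.ye, s2])
  have e7 := R.lo6 (16 / 1000) (by norm_num)
  have e8 := R.lo10 (931 / 1000) (by norm_num)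
  right
  right
  right
  left
  refine ⟨by linarith only [R.k2, R.h1, y1, b2, e1], ?_⟩
  unfold fe_o_o_1y_o
  linarith only [R.k2, R.h1, R.ye, y1, b2, e2, e1, e3, e4, e5, e6, e7, e8]

theorem be23 {s y b k : ℝ} (R : RegE s y b k)
    (s1 : 3 / 5 ≤ s) (s2 : s ≤ 67 / 100) (y1 : 47 / 100 ≤ y) (y2 : y ≤ 537 / 1000)
    (b1 : -219 / 500 ≤ b) (b2 : b ≤ -3 / 8) :
    0 ≤ fe_h1_o_hh_o s y b k ∨ 0 ≤ fe_h1_o_hy_o s y b k ∨ 0 ≤ fe_h1_hH_hh_o s y b k ∨ (b / 2 + k + 1 ≤ h0 + y ∧ 0 ≤ fe_o_o_1y_o s y b k) ∨ (b / 2 + k + 1 ≤ h0 + y ∧ 0 ≤ fe_o_o_1h_o s y b k) := by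
  have e1 := up (t1 := (577 / 1000)) (t2 := (685 / 1000)) (x := 2 * h0 + s - y - 1) (by norm_num)
    (by linarith only [R.h1, R.ye]) (by linarith only [R.h2, s2, y1])
  have e2 := up (t1 := (-231 / 1000)) (t2 := (-194 / 1000)) (x := b) (by norm_num)
    (by linarith only [b1]) (by linarith only [b2])
  have e3 := up (t1 := (249 / 1000)) (t2 := (291 / 1000)) (x := h0 + s - 1) (by norm_num)
    (by linarith only [R.ye, y1]) (by linarith only [R.h2, s2])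
  have e4 := up (t1 := (0 / 1000)) (t2 := (34 / 1000)) (x := h0 + s - y - 1) (by norm_num)
    (by linarith only [R.ye]) (by linarith only [R.h2, s2, y1])
  have e5 := up (t1 := (-68 / 1000)) (t2 := (-67 / 1000)) (x := h0 - 1) (by norm_num)
    (by linarith only [R.h1]) (by linarith only [R.h2])
  have e6 := R.lo11 (336 / 1000) (by norm_num)
  have e7 := up (t1 := (249 / 1000)) (t2 := (291 / 1000)) (x := y) (by norm_num)
    (by linarith only [y1]) (by linarith only [R.h2, R.ye, s2])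
  have e8 := R.lo7 (244 / 1000) (by norm_num)
  have e9 := R.lo10 (895 / 1000) (by norm_num)
  have e10 := R.lo10 (932 / 1000) (by norm_num)
  have e11 := R.lo12 (82 / 1000) (by norm_num)
  right
  left
  unfold fe_h1_o_hy_o
  linarith only [R.k2, R.h1, R.ye, y1, e1, e2, e3, e4, e5, e6, e7, e8, e9, e10, e11]

theorem be24 {s y b k : ℝ} (R : RegE s y b k)
    (s1 : 3 / 5 ≤ s) (s2 : s ≤ 67 / 100) (y1 : 403 / 1000 ≤ y) (y2 : y ≤ 537 / 1000)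
    (b1 : -3 / 8 ≤ b) (b2 : b ≤ -1 / 4) :
    0 ≤ fe_h1_o_hh_o s y b k ∨ 0 ≤ fe_h1_o_hy_o s y b k ∨ 0 ≤ fe_h1_hH_hh_o s y b k ∨ (b / 2 + k + 1 ≤ h0 + y ∧ 0 ≤ fe_o_o_1y_o s y b k) ∨ (b / 2 + k + 1 ≤ h0 + y ∧ 0 ≤ fe_o_o_1h_o s y b k) := by
  have e1 := up (t1 := (-195 / 1000)) (t2 := (-127 / 1000)) (x := b) (by norm_num)
    (by linarith only [b1]) (by linarith only [b2])
  have e2 := up (t1 := (247 / 1000)) (t2 := (291 / 1000)) (x := h0 + s - 1) (by norm_num)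
    (by linarith only [R.h1, s1]) (by linarith only [R.h2, s2])
  have e3 := up (t1 := (0 / 1000)) (t2 := (67 / 1000)) (x := h0 + s - y - 1) (by norm_num)
    (by linarith only [R.ye]) (by linarith only [R.h2, s2, y1])
  have e4 := up (t1 := (-68 / 1000)) (t2 := (-67 / 1000)) (x := h0 - 1) (by norm_num)
    (by linarith only [R.h1]) (by linarith only [R.h2])
  have e5 := R.lo11 (333 / 1000) (by norm_num)
  have e6 := up (t1 := (210 / 1000)) (t2 := (291 / 1000)) (x := y) (by norm_num)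
    (by linarith only [y1]) (by linarith only [R.h2, R.ye, s2])
  have e7 := R.lo7 (236 / 1000) (by norm_num)
  have e8 := R.lo12 (136 / 1000) (by norm_num)
  have e9 := R.lo13 (320 / 1000) (by norm_num)
  left
  unfold fe_h1_o_hh_o
  linarith only [R.k2, R.h2, R.ye, s1, b1, e1, e2, e3, e4, e5, e6, e7, e8, e9]

theorem be25 {s y b k : ℝ} (R : RegE s y b k)
    (s1 : 3 / 5 ≤ s) (s2 : s ≤ 67 / 100) (y1 : 403 / 1000 ≤ y) (y2 : y ≤ 537 / 1000)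
    (b1 : -1 / 4 ≤ b) (b2 : b ≤ 0) :
    0 ≤ fe_h1_o_hh_o s y b k ∨ 0 ≤ fe_h1_o_hy_o s y b k ∨ 0 ≤ fe_h1_hH_hh_o s y b k ∨ (b / 2 + k + 1 ≤ h0 + y ∧ 0 ≤ fe_o_o_1y_o s y b k) ∨ (b / 2 + k + 1 ≤ h0 + y ∧ 0 ≤ fe_o_o_1h_o s y b k) := by
  have e1 := up (t1 := (-128 / 1000)) (t2 := (0 / 1000)) (x := b) (by norm_num)
    (by linarith only [b1]) (by linarith only [b2])
  have e2 := up (t1 := (247 / 1000)) (t2 := (291 / 1000)) (x := h0 + s - 1) (by norm_num)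
    (by linarith only [R.h1, s1]) (by linarith only [R.h2, s2])
  have e3 := up (t1 := (0 / 1000)) (t2 := (67 / 1000)) (x := h0 + s - y - 1) (by norm_num)
    (by linarith only [R.ye]) (by linarith only [R.h2, s2, y1])
  have e4 := up (t1 := (-68 / 1000)) (t2 := (-67 / 1000)) (x := h0 - 1) (by norm_num)
    (by linarith only [R.h1]) (by linarith only [R.h2])
  have e5 := R.lo11 (333 / 1000) (by norm_num)
  have e6 := up (t1 := (210 / 1000)) (t2 := (291 / 1000)) (x := y) (by norm_num)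
    (by linarith only [y1]) (by linarith only [R.h2, R.ye, s2])
  have e7 := R.lo7 (200 / 1000) (by norm_num)
  have e8 := R.lo12 (127 / 1000) (by norm_num)
  have e9 := R.lo13 (279 / 1000) (by norm_num)
  left
  unfold fe_h1_o_hh_o
  linarith only [R.k2, R.h2, R.ye, s1, b1, e1, e2, e3, e4, e5, e6, e7, e8, e9]

theorem be27 {s y b k : ℝ} (R : RegE s y b k)
    (s1 : 3 / 5 ≤ s) (s2 : s ≤ 127 / 200) (y1 : 403 / 1000 ≤ y) (y2 : y ≤ 537 / 1000)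
    (b1 : 0 ≤ b) (b2 : b ≤ 1 / 2) :
    0 ≤ fe_h1_o_hh_o s y b k ∨ 0 ≤ fe_h1_o_hy_o s y b k ∨ 0 ≤ fe_h1_hH_hh_o s y b k ∨ (b / 2 + k + 1 ≤ h0 + y ∧ 0 ≤ fe_o_o_1y_o s y b k) ∨ (b / 2 + k + 1 ≤ h0 + y ∧ 0 ≤ fe_o_o_1h_o s y b k) := by
  have e1 := up (t1 := (0 / 1000)) (t2 := (268 / 1000)) (x := b) (by norm_num)
    (by linarith only [b1]) (by linarith only [b2])
  have e2 := up (t1 := (247 / 1000)) (t2 := (269 / 1000)) (x := h0 + s - 1) (by norm_num)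
    (by linarith only [R.h1, s1]) (by linarith only [R.h2, s2])
  have e3 := up (t1 := (0 / 1000)) (t2 := (50 / 1000)) (x := h0 + s - y - 1) (by norm_num)
    (by linarith only [R.ye]) (by linarith only [R.h2, s2, y1])
  have e4 := up (t1 := (-68 / 1000)) (t2 := (-67 / 1000)) (x := h0 - 1) (by norm_num)
    (by linarith only [R.h1]) (by linarith only [R.h2])
  have e5 := R.lo11 (333 / 1000) (by norm_num)
  have e6 := up (t1 := (210 / 1000)) (t2 := (269 / 1000)) (x := y) (by norm_num)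
    (by linarith only [y1]) (by linarith only [R.h2, R.ye, s2])
  have e7 := R.lo3 (161 / 1000) (by norm_num)
  have e8 := R.lo3 (190 / 1000) (by norm_num)
  have e9 := R.lo7 (-17 / 1000) (by norm_num)
  have e10 := R.lo12 (333 / 1000) (by norm_num)
  have e11 := R.lo13 (50 / 1000) (by norm_num)
  right
  right
  left
  unfold fe_h1_hH_hh_o
  linarith only [R.k2, R.h2, R.ye, s1, e1, e2, e3, e4, e5, e6, e7, e8, e9, e10, e11]

theorem be28 {s y b k : ℝ} (R : RegE s y b k)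
    (s1 : 127 / 200 ≤ s) (s2 : s ≤ 67 / 100) (y1 : 403 / 1000 ≤ y) (y2 : y ≤ 537 / 1000)
    (b1 : 0 ≤ b) (b2 : b ≤ 1 / 2) :
    0 ≤ fe_h1_o_hh_o s y b k ∨ 0 ≤ fe_h1_o_hy_o s y b k ∨ 0 ≤ fe_h1_hH_hh_o s y b k ∨ (b / 2 + k + 1 ≤ h0 + y ∧ 0 ≤ fe_o_o_1y_o s y b k) ∨ (b / 2 + k + 1 ≤ h0 + y ∧ 0 ≤ fe_o_o_1h_o s y b k) := by
  have e1 := up (t1 := (0 / 1000)) (t2 := (268 / 1000)) (x := b) (by norm_num)
    (by linarith only [b1]) (by linarith only [b2])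
  have e2 := up (t1 := (268 / 1000)) (t2 := (291 / 1000)) (x := h0 + s - 1) (by norm_num)
    (by linarith only [R.h1, s1]) (by linarith only [R.h2, s2])
  have e3 := up (t1 := (0 / 1000)) (t2 := (67 / 1000)) (x := h0 + s - y - 1) (by norm_num)
    (by linarith only [R.ye]) (by linarith only [R.h2, s2, y1])
  have e4 := up (t1 := (-68 / 1000)) (t2 := (-67 / 1000)) (x := h0 - 1) (by norm_num)
    (by linarith only [R.h1]) (by linarith only [R.h2])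
  have e5 := R.lo11 (358 / 1000) (by norm_num)
  have e6 := up (t1 := (210 / 1000)) (t2 := (291 / 1000)) (x := y) (by norm_num)
    (by linarith only [y1]) (by linarith only [R.h2, R.ye, s2])
  have e7 := R.lo3 (175 / 1000) (by norm_num)
  have e8 := R.lo7 (14 / 1000) (by norm_num)
  have e9 := R.lo12 (339 / 1000) (by norm_num)
  have e10 := R.lo13 (82 / 1000) (by norm_num)
  right
  right
  left
  unfold fe_h1_hH_hh_o
  linarith only [R.k2, R.h2, R.ye, s1, b2, e1, e2, e3, e4, e5, e6, e7, e8, e9, e10]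

theorem be26 {s y b k : ℝ} (R : RegE s y b k)
    (s1 : 3 / 5 ≤ s) (s2 : s ≤ 67 / 100) (y1 : 403 / 1000 ≤ y) (y2 : y ≤ 537 / 1000)
    (b1 : 0 ≤ b) (b2 : b ≤ 1 / 2) :
    0 ≤ fe_h1_o_hh_o s y b k ∨ 0 ≤ fe_h1_o_hy_o s y b k ∨ 0 ≤ fe_h1_hH_hh_o s y b k ∨ (b / 2 + k + 1 ≤ h0 + y ∧ 0 ≤ fe_o_o_1y_o s y b k) ∨ (b / 2 + k + 1 ≤ h0 + y ∧ 0 ≤ fe_o_o_1h_o s y b k) := by
  rcases le_total s (127 / 200) with h | h
  · exact be27 R s1 h y1 y2 b1 b2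
  · exact be28 R h s2 y1 y2 b1 b2

theorem be21 {s y b k : ℝ} (R : RegE s y b k)
    (s1 : 3 / 5 ≤ s) (s2 : s ≤ 67 / 100) (y1 : 47 / 100 ≤ y) (y2 : y ≤ 537 / 1000)
    (b1 : -1 / 2 ≤ b) (b2 : b ≤ -3 / 8) :
    0 ≤ fe_h1_o_hh_o s y b k ∨ 0 ≤ fe_h1_o_hy_o s y b k ∨ 0 ≤ fe_h1_hH_hh_o s y b k ∨ (b / 2 + k + 1 ≤ h0 + y ∧ 0 ≤ fe_o_o_1y_o s y b k) ∨ (b / 2 + k + 1 ≤ h0 + y ∧ 0 ≤ fe_o_o_1h_o s y b k) := by
  rcases le_total b (-219 / 500) with h | h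
  · exact be22 R s1 s2 y1 y2 b1 h
  · exact be23 R s1 s2 y1 y2 h b2

theorem be17 {s y b k : ℝ} (R : RegE s y b k)
    (s1 : 3 / 5 ≤ s) (s2 : s ≤ 67 / 100) (y1 : 109 / 250 ≤ y) (y2 : y ≤ 453 / 1000)
    (b1 : -219 / 500 ≤ b) (b2 : b ≤ -3 / 8) :
    0 ≤ fe_h1_o_hh_o s y b k ∨ 0 ≤ fe_h1_o_hy_o s y b k ∨ 0 ≤ fe_h1_hH_hh_o s y b k ∨ (b / 2 + k + 1 ≤ h0 + y ∧ 0 ≤ fe_o_o_1y_o s y b k) ∨ (b / 2 + k + 1 ≤ h0 + y ∧ 0 ≤ fe_o_o_1h_o s y b k) := by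
  rcases le_total y (889 / 2000) with h | h
  · exact be18 R s1 s2 y1 h b1 b2
  · exact be19 R s1 s2 h y2 b1 b2

theorem be16 {s y b k : ℝ} (R : RegE s y b k)
    (s1 : 3 / 5 ≤ s) (s2 : s ≤ 67 / 100) (y1 : 109 / 250 ≤ y) (y2 : y ≤ 47 / 100)
    (b1 : -219 / 500 ≤ b) (b2 : b ≤ -3 / 8) :
    0 ≤ fe_h1_o_hh_o s y b k ∨ 0 ≤ fe_h1_o_hy_o s y b k ∨ 0 ≤ fe_h1_hH_hh_o s y b k ∨ (b / 2 + k + 1 ≤ h0 + y ∧ 0 ≤ fe_o_o_1y_o s y b k) ∨ (b / 2 + k + 1 ≤ h0 + y ∧ 0 ≤ fe_o_o_1h_o s y b k) := by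
  rcases le_total y (453 / 1000) with h | h
  · exact be17 R s1 s2 y1 h b1 b2
  · exact be20 R s1 s2 h y2 b1 b2

theorem be13 {s y b k : ℝ} (R : RegE s y b k)
    (s1 : 3 / 5 ≤ s) (s2 : s ≤ 67 / 100) (y1 : 109 / 250 ≤ y) (y2 : y ≤ 47 / 100)
    (b1 : -1 / 2 ≤ b) (b2 : b ≤ -219 / 500) :
    0 ≤ fe_h1_o_hh_o s y b k ∨ 0 ≤ fe_h1_o_hy_o s y b k ∨ 0 ≤ fe_h1_hH_hh_o s y b k ∨ (b / 2 + k + 1 ≤ h0 + y ∧ 0 ≤ fe_o_o_1y_o s y b k) ∨ (b / 2 + k + 1 ≤ h0 + y ∧ 0 ≤ fe_o_o_1h_o s y b k) := by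
  rcases le_total s (127 / 200) with h | h
  · exact be14 R s1 h y1 y2 b1 b2
  · exact be15 R h s2 y1 y2 b1 b2

theorem be12 {s y b k : ℝ} (R : RegE s y b k)
    (s1 : 3 / 5 ≤ s) (s2 : s ≤ 67 / 100) (y1 : 109 / 250 ≤ y) (y2 : y ≤ 47 / 100)
    (b1 : -1 / 2 ≤ b) (b2 : b ≤ -3 / 8) :
    0 ≤ fe_h1_o_hh_o s y b k ∨ 0 ≤ fe_h1_o_hy_o s y b k ∨ 0 ≤ fe_h1_hH_hh_o s y b k ∨ (b / 2 + k + 1 ≤ h0 + y ∧ 0 ≤ fe_o_o_1y_o s y b k) ∨ (b / 2 + k + 1 ≤ h0 + y ∧ 0 ≤ fe_o_o_1h_o s y b k) := by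
  rcases le_total b (-219 / 500) with h | h
  · exact be13 R s1 s2 y1 y2 b1 h
  · exact be16 R s1 s2 y1 y2 h b2

theorem be8 {s y b k : ℝ} (R : RegE s y b k)
    (s1 : 3 / 5 ≤ s) (s2 : s ≤ 67 / 100) (y1 : 21 / 50 ≤ y) (y2 : y ≤ 109 / 250)
    (b1 : -1 / 2 ≤ b) (b2 : b ≤ -219 / 500) :
    0 ≤ fe_h1_o_hh_o s y b k ∨ 0 ≤ fe_h1_o_hy_o s y b k ∨ 0 ≤ fe_h1_hH_hh_o s y b k ∨ (b / 2 + k + 1 ≤ h0 + y ∧ 0 ≤ fe_o_o_1y_o s y b k) ∨ (b / 2 + k + 1 ≤ h0 + y ∧ 0 ≤ fe_o_o_1h_o s y b k) := by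
  rcases le_total s (127 / 200) with h | h
  · exact be9 R s1 h y1 y2 b1 b2
  · exact be10 R h s2 y1 y2 b1 b2

theorem be7 {s y b k : ℝ} (R : RegE s y b k)
    (s1 : 3 / 5 ≤ s) (s2 : s ≤ 67 / 100) (y1 : 21 / 50 ≤ y) (y2 : y ≤ 109 / 250)
    (b1 : -1 / 2 ≤ b) (b2 : b ≤ -3 / 8) :
    0 ≤ fe_h1_o_hh_o s y b k ∨ 0 ≤ fe_h1_o_hy_o s y b k ∨ 0 ≤ fe_h1_hH_hh_o s y b k ∨ (b / 2 + k + 1 ≤ h0 + y ∧ 0 ≤ fe_o_o_1y_o s y b k) ∨ (b / 2 + k + 1 ≤ h0 + y ∧ 0 ≤ fe_o_o_1h_o s y b k) := by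
  rcases le_total b (-219 / 500) with h | h
  · exact be8 R s1 s2 y1 y2 b1 h
  · exact be11 R s1 s2 y1 y2 h b2

theorem be5 {s y b k : ℝ} (R : RegE s y b k)
    (s1 : 3 / 5 ≤ s) (s2 : s ≤ 67 / 100) (y1 : 403 / 1000 ≤ y) (y2 : y ≤ 109 / 250)
    (b1 : -1 / 2 ≤ b) (b2 : b ≤ -3 / 8) :
    0 ≤ fe_h1_o_hh_o s y b k ∨ 0 ≤ fe_h1_o_hy_o s y b k ∨ 0 ≤ fe_h1_hH_hh_o s y b k ∨ (b / 2 + k + 1 ≤ h0 + y ∧ 0 ≤ fe_o_o_1y_o s y b k) ∨ (b / 2 + k + 1 ≤ h0 + y ∧ 0 ≤ fe_o_o_1h_o s y b k) := by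
  rcases le_total y (21 / 50) with h | h
  · exact be6 R s1 s2 y1 h b1 b2
  · exact be7 R s1 s2 h y2 b1 b2

theorem be4 {s y b k : ℝ} (R : RegE s y b k)
    (s1 : 3 / 5 ≤ s) (s2 : s ≤ 67 / 100) (y1 : 403 / 1000 ≤ y) (y2 : y ≤ 47 / 100)
    (b1 : -1 / 2 ≤ b) (b2 : b ≤ -3 / 8) :
    0 ≤ fe_h1_o_hh_o s y b k ∨ 0 ≤ fe_h1_o_hy_o s y b k ∨ 0 ≤ fe_h1_hH_hh_o s y b k ∨ (b / 2 + k + 1 ≤ h0 + y ∧ 0 ≤ fe_o_o_1y_o s y b k) ∨ (b / 2 + k + 1 ≤ h0 + y ∧ 0 ≤ fe_o_o_1h_o s y b k) := by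
  rcases le_total y (109 / 250) with h | h
  · exact be5 R s1 s2 y1 h b1 b2
  · exact be12 R s1 s2 h y2 b1 b2

theorem be3 {s y b k : ℝ} (R : RegE s y b k)
    (s1 : 3 / 5 ≤ s) (s2 : s ≤ 67 / 100) (y1 : 403 / 1000 ≤ y) (y2 : y ≤ 537 / 1000)
    (b1 : -1 / 2 ≤ b) (b2 : b ≤ -3 / 8) :
    0 ≤ fe_h1_o_hh_o s y b k ∨ 0 ≤ fe_h1_o_hy_o s y b k ∨ 0 ≤ fe_h1_hH_hh_o s y b k ∨ (b / 2 + k + 1 ≤ h0 + y ∧ 0 ≤ fe_o_o_1y_o s y b k) ∨ (b / 2 + k + 1 ≤ h0 + y ∧ 0 ≤ fe_o_o_1h_o s y b k) := by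
  rcases le_total y (47 / 100) with h | h
  · exact be4 R s1 s2 y1 h b1 b2
  · exact be21 R s1 s2 h y2 b1 b2

theorem be2 {s y b k : ℝ} (R : RegE s y b k)
    (s1 : 3 / 5 ≤ s) (s2 : s ≤ 67 / 100) (y1 : 403 / 1000 ≤ y) (y2 : y ≤ 537 / 1000)
    (b1 : -1 / 2 ≤ b) (b2 : b ≤ -1 / 4) :
    0 ≤ fe_h1_o_hh_o s y b k ∨ 0 ≤ fe_h1_o_hy_o s y b k ∨ 0 ≤ fe_h1_hH_hh_o s y b k ∨ (b / 2 + k + 1 ≤ h0 + y ∧ 0 ≤ fe_o_o_1y_o s y b k) ∨ (b / 2 + k + 1 ≤ h0 + y ∧ 0 ≤ fe_o_o_1h_o s y b k) := by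
  rcases le_total b (-3 / 8) with h | h
  · exact be3 R s1 s2 y1 y2 b1 h
  · exact be24 R s1 s2 y1 y2 h b2

theorem be1 {s y b k : ℝ} (R : RegE s y b k)
    (s1 : 3 / 5 ≤ s) (s2 : s ≤ 67 / 100) (y1 : 403 / 1000 ≤ y) (y2 : y ≤ 537 / 1000)
    (b1 : -1 / 2 ≤ b) (b2 : b ≤ 0) :
    0 ≤ fe_h1_o_hh_o s y b k ∨ 0 ≤ fe_h1_o_hy_o s y b k ∨ 0 ≤ fe_h1_hH_hh_o s y b k ∨ (b / 2 + k + 1 ≤ h0 + y ∧ 0 ≤ fe_o_o_1y_o s y b k) ∨ (b / 2 + k + 1 ≤ h0 + y ∧ 0 ≤ fe_o_o_1h_o s y b k) := by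
  rcases le_total b (-1 / 4) with h | h
  · exact be2 R s1 s2 y1 y2 b1 h
  · exact be25 R s1 s2 y1 y2 h b2

theorem be0 {s y b k : ℝ} (R : RegE s y b k)
    (s1 : 3 / 5 ≤ s) (s2 : s ≤ 67 / 100) (y1 : 403 / 1000 ≤ y) (y2 : y ≤ 537 / 1000)
    (b1 : -1 / 2 ≤ b) (b2 : b ≤ 1 / 2) :
    0 ≤ fe_h1_o_hh_o s y b k ∨ 0 ≤ fe_h1_o_hy_o s y b k ∨ 0 ≤ fe_h1_hH_hh_o s y b k ∨ (b / 2 + k + 1 ≤ h0 + y ∧ 0 ≤ fe_o_o_1y_o s y b k) ∨ (b / 2 + k + 1 ≤ h0 + y ∧ 0 ≤ fe_o_o_1h_o s y b k) := by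
  rcases le_total b (0) with h | h
  · exact be1 R s1 s2 y1 y2 b1 h
  · exact be26 R s1 s2 y1 y2 h b2

end Pool.Agent.Strip051.FourF
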