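import Pool.Agent.Strip051.FourB.Box

/-! # The new point above h0, A -/

namespace Pool.Agent.Strip051.FourF

set_option linter.unusedVariables false

open Pool.Agent.StripNear Pool.Agent.StripSquare Pool.Agent.Strip051
open Pool.Agent.Strip051.Four.Low (ph)
open Pool.Agent.Strip051.FourB (lo up)

/-- The function of the boxes `ha_`. -/
noncomputable def fBoxHA (s t b k M O1 O2 O4 : ℝ) : ℝ :=
  M - O1 - O2 - O4 - 1 + 4 * ph (s - t) - 3 * ph (1 - h0) - ph (h0 + s - 1) + t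

/-- The region of the boxes `ha_`. -/
structure RhA (s t b k M O1 O2 O4 : ℝ) : Prop where
  k1 : 86602 / 100000 * ph b ≤ k
  k2 : k ≤ 86603 / 100000 * ph b
  h1 : 86602 / 100000 ≤ h0
  h2 : h0 ≤ 86603 / 100000
  h3 : 86602 / 100000 * b ≤ h0 * b
  k3 : 0 ≤ k
  k4 : k ≤ 1161 / 10000
  hq : h0 + b / 2 - k ≤ 1
  hp : 1 / 2 ≤ h0 - b / 2 - k
  th : t ≤ 1 - h0
  m1 : 481 / 200 - 2 * s - 1 / 2 - 1 / 2 * ph b - h0 * b + ph (2 * h0 + t + b / 2 - k - 1) ≤ M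
  m2 : 381 / 200 - 2 * s - ph (1 - t - h0 + b / 2 + k) + 1 / 2 + 1 / 2 * ph b - h0 * b ≤ M
  o1t : O1 ≤ 1 / 2 + 1 / 2 * ph b - h0 * b - ph (2 * h0 + t - b / 2 - k - 1)
  o1y : O1 ≤ ph (s - t) - ph (h0 + s - 1)
  o2t : O2 ≤ 1 / 2 + 1 / 2 * ph b - h0 * b - ph (t - b / 2 - k - s + 1)
  o2y : O2 ≤ ph (s - t) - ph (1 - h0)
  o4t : O4 ≤ 1 / 2 + 1 / 2 * ph b - h0 * b - ph (t - b / 2 - k - s + 1)
  o4y : O4 ≤ ph (s - t) - ph (1 - h0)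
  o4v : O4 ≤ 1 / 2 + 1 / 2 * ph b - h0 * b - ph (t + h0 - b / 2 - k - s) + ph (1 - h0)
  s1 : 57 / 100 ≤ s
  s2 : s ≤ 67 / 100
  t1 : 0 ≤ t
  t2 : t ≤ 1 / 20
  b1 : 0 ≤ b
  b2 : b ≤ 1 / 2

theorem RhA.lo3 {s t b k M O1 O2 O4 : ℝ} (R : RhA s t b k M O1 O2 O4) (w0 : ℝ) (hw0 : w0 ^ 2 < 1) :
    2 * w0 * (2 * h0 + t + b / 2 - k - 1) - 2 * w0 ^ 2 ≤ (1 - w0 ^ 2) * ph (2 * h0 + t + b / 2 - k - 1) :=
  lo hw0 (by linarith only [R.h1, R.k4, R.t1, R.b1]) (by linarith only [R.h2, R.hq, R.t2])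

theorem RhA.lo4 {s t b k M O1 O2 O4 : ℝ} (R : RhA s t b k M O1 O2 O4) (w0 : ℝ) (hw0 : w0 ^ 2 < 1) :
    2 * w0 * (2 * h0 + t - b / 2 - k - 1) - 2 * w0 ^ 2 ≤ (1 - w0 ^ 2) * ph (2 * h0 + t - b / 2 - k - 1) :=
  lo hw0 (by linarith only [R.h1, R.hp, R.t1]) (by linarith only [R.h2, R.k3, R.t2, R.b1])

theorem RhA.lo5 {s t b k M O1 O2 O4 : ℝ} (R : RhA s t b k M O1 O2 O4) (w0 : ℝ) (hw0 : w0 ^ 2 < 1) :
    2 * w0 * (b) - 2 * w0 ^ 2 ≤ (1 - w0 ^ 2) * ph (b) :=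
  lo hw0 (by linarith only [R.b1]) (by linarith only [R.hq, R.hp])

theorem RhA.lo7 {s t b k M O1 O2 O4 : ℝ} (R : RhA s t b k M O1 O2 O4) (w0 : ℝ) (hw0 : w0 ^ 2 < 1) :
    2 * w0 * (s - t) - 2 * w0 ^ 2 ≤ (1 - w0 ^ 2) * ph (s - t) :=
  lo hw0 (by linarith only [R.s1, R.t2]) (by linarith only [R.s2, R.t1])

theorem RhA.lo9 {s t b k M O1 O2 O4 : ℝ} (R : RhA s t b k M O1 O2 O4) (w0 : ℝ) (hw0 : w0 ^ 2 < 1) :
    2 * w0 * (t - b / 2 - k - s + 1) - 2 * w0 ^ 2 ≤ (1 - w0 ^ 2) * ph (t - b / 2 - k - s + 1) :=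
  lo hw0 (by linarith only [R.h2, R.hp, R.s2, R.t1]) (by linarith only [R.k3, R.s1, R.t2, R.b1])

theorem ha_1 {s t b k M O1 O2 O4 : ℝ} (R : RhA s t b k M O1 O2 O4)
    (s1 : 57 / 100 ≤ s) (s2 : s ≤ 67 / 100) (t1 : 0 ≤ t) (t2 : t ≤ 1 / 20)
    (b1 : 0 ≤ b) (b2 : b ≤ 1 / 4) :
    0 ≤ fBoxHA s t b k M O1 O2 O4 := by
  have e1 := up (t1 := (67 / 1000)) (t2 := (68 / 1000)) (x := 1 - h0) (by norm_num)
    (by linarith only [R.h2]) (by linarith only [R.h1])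
  have e2 := up (t1 := (0 / 1000)) (t2 := (128 / 1000)) (x := b) (by norm_num)
    (by linarith only [b1]) (by linarith only [b2])
  have e3 := up (t1 := (229 / 1000)) (t2 := (291 / 1000)) (x := h0 + s - 1) (by norm_num)
    (by linarith only [R.h1, s1]) (by linarith only [R.h2, s2])
  have e4 := R.lo7 (385 / 1000) (by norm_num)
  have e5 := up (t1 := (42 / 1000)) (t2 := (147 / 1000)) (x := 1 - t - h0 + b / 2 + k) (by norm_num)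
    (by linarith only [R.h2, R.k3, t2, b1]) (by linarith only [R.k2, R.h1, t1, b2, e2])
  have e6 := R.lo4 (319 / 1000) (by norm_num)
  unfold fBoxHA
  linarith only [R.k2, R.h1, R.m2, R.o1t, R.o2y, R.o4y, s2, t1, b2, e1, e2, e3, e4, e5, e6]

theorem ha_4 {s t b k M O1 O2 O4 : ℝ} (R : RhA s t b k M O1 O2 O4)
    (s1 : 57 / 100 ≤ s) (s2 : s ≤ 67 / 100) (t1 : 0 ≤ t) (t2 : t ≤ 1 / 20)
    (b1 : 1 / 4 ≤ b) (b2 : b ≤ 313 / 1000) :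
    0 ≤ fBoxHA s t b k M O1 O2 O4 := by
  have e1 := up (t1 := (67 / 1000)) (t2 := (68 / 1000)) (x := 1 - h0) (by norm_num)
    (by linarith only [R.h2]) (by linarith only [R.h1])
  have e2 := up (t1 := (127 / 1000)) (t2 := (161 / 1000)) (x := b) (by norm_num)
    (by linarith only [b1]) (by linarith only [b2])
  have e3 := up (t1 := (229 / 1000)) (t2 := (291 / 1000)) (x := h0 + s - 1) (by norm_num)
    (by linarith only [R.h1, s1]) (by linarith only [R.h2, s2])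
  have e4 := R.lo7 (385 / 1000) (by norm_num)
  have e5 := R.lo5 (127 / 1000) (by norm_num)
  have e6 := up (t1 := (119 / 1000)) (t2 := (172 / 1000)) (x := 1 - t - h0 + b / 2 + k) (by norm_num)
    (by linarith only [R.k1, R.h2, t2, b1, e5]) (by linarith only [R.k2, R.h1, t1, b2, e2])
  have e7 := R.lo4 (288 / 1000) (by norm_num)
  have e8 := R.lo9 (65 / 1000) (by norm_num)
  unfold fBoxHA
  linarith only [R.k2, R.h1, R.m2, R.o1t, R.o1y, R.o2t, R.o2y, R.o4y, s2, b2, e1, e2, e3, e4, e6, e7, e8]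

theorem ha_5 {s t b k M O1 O2 O4 : ℝ} (R : RhA s t b k M O1 O2 O4)
    (s1 : 57 / 100 ≤ s) (s2 : s ≤ 67 / 100) (t1 : 0 ≤ t) (t2 : t ≤ 1 / 20)
    (b1 : 313 / 1000 ≤ b) (b2 : b ≤ 3 / 8) :
    0 ≤ fBoxHA s t b k M O1 O2 O4 := by
  have e1 := up (t1 := (67 / 1000)) (t2 := (68 / 1000)) (x := 1 - h0) (by norm_num)
    (by linarith only [R.h2]) (by linarith only [R.h1])
  have e2 := up (t1 := (160 / 1000)) (t2 := (195 / 1000)) (x := b) (by norm_num)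
    (by linarith only [b1]) (by linarith only [b2])
  have e3 := R.lo5 (161 / 1000) (by norm_num)
  have e4 := up (t1 := (144 / 1000)) (t2 := (201 / 1000)) (x := 1 - t - h0 + b / 2 + k) (by norm_num)
    (by linarith only [R.k1, R.h2, t2, b1, e3]) (by linarith only [R.k2, R.h1, t1, b2, e2])
  have e5 := R.lo3 (576 / 1000) (by norm_num)
  have e6 := R.lo7 (372 / 1000) (by norm_num)
  have e7 := R.lo9 (67 / 1000) (by norm_num)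
  unfold fBoxHA
  linarith only [R.k2, R.h1, R.h3, R.m1, R.m2, R.o1y, R.o2t, R.o4t, R.o4y, s2, e1, e2, e4, e5, e6, e7]

theorem ha_6 {s t b k M O1 O2 O4 : ℝ} (R : RhA s t b k M O1 O2 O4)
    (s1 : 57 / 100 ≤ s) (s2 : s ≤ 67 / 100) (t1 : 0 ≤ t) (t2 : t ≤ 1 / 20)
    (b1 : 3 / 8 ≤ b) (b2 : b ≤ 1 / 2) :
    0 ≤ fBoxHA s t b k M O1 O2 O4 := by
  have e1 := up (t1 := (67 / 1000)) (t2 := (68 / 1000)) (x := 1 - h0) (by norm_num)
    (by linarith only [R.h2]) (by linarith only [R.h1])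
  have e2 := up (t1 := (194 / 1000)) (t2 := (268 / 1000)) (x := b) (by norm_num)
    (by linarith only [b1]) (by linarith only [R.hq, R.hp])
  have e3 := R.lo7 (330 / 1000) (by norm_num)
  have e4 := R.lo5 (195 / 1000) (by norm_num)
  have e5 := up (t1 := (172 / 1000)) (t2 := (268 / 1000)) (x := 1 - t - h0 + b / 2 + k) (by norm_num)
    (by linarith only [R.k1, R.h2, t2, b1, e4]) (by linarith only [R.hp, t1])
  have e6 := R.lo3 (565 / 1000) (by norm_num)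
  have e7 := R.lo9 (48 / 1000) (by norm_num)
  unfold fBoxHA
  linarith only [R.k2, R.h1, R.h3, R.m1, R.m2, R.o1y, R.o2t, R.o4t, R.o4y, b1, e1, e2, e3, e5, e6, e7]

theorem ha_3 {s t b k M O1 O2 O4 : ℝ} (R : RhA s t b k M O1 O2 O4)
    (s1 : 57 / 100 ≤ s) (s2 : s ≤ 67 / 100) (t1 : 0 ≤ t) (t2 : t ≤ 1 / 20)
    (b1 : 1 / 4 ≤ b) (b2 : b ≤ 3 / 8) :
    0 ≤ fBoxHA s t b k M O1 O2 O4 := by
  rcases le_total b (313 / 1000) with h | h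
  · exact ha_4 R s1 s2 t1 t2 b1 h
  · exact ha_5 R s1 s2 t1 t2 h b2

theorem ha_2 {s t b k M O1 O2 O4 : ℝ} (R : RhA s t b k M O1 O2 O4)
    (s1 : 57 / 100 ≤ s) (s2 : s ≤ 67 / 100) (t1 : 0 ≤ t) (t2 : t ≤ 1 / 20)
    (b1 : 1 / 4 ≤ b) (b2 : b ≤ 1 / 2) :
    0 ≤ fBoxHA s t b k M O1 O2 O4 := by
  rcases le_total b (3 / 8) with h | h
  · exact ha_3 R s1 s2 t1 t2 b1 h
  · exact ha_6 R s1 s2 t1 t2 h b2

theorem ha_0 {s t b k M O1 O2 O4 : ℝ} (R : RhA s t b k M O1 O2 O4)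
    (s1 : 57 / 100 ≤ s) (s2 : s ≤ 67 / 100) (t1 : 0 ≤ t) (t2 : t ≤ 1 / 20)
    (b1 : 0 ≤ b) (b2 : b ≤ 1 / 2) :
    0 ≤ fBoxHA s t b k M O1 O2 O4 := by
  rcases le_total b (1 / 4) with h | h
  · exact ha_1 R s1 s2 t1 t2 b1 h
  · exact ha_2 R s1 s2 t1 t2 h b2

end Pool.Agent.Strip051.FourF
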