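import Pool.Agent.Strip051.FourB.Box

/-! # The new point above h0, B -/

namespace Pool.Agent.Strip051.FourF

set_option linter.unusedVariables false

open Pool.Agent.StripNear Pool.Agent.StripSquare Pool.Agent.Strip051
open Pool.Agent.Strip051.Four.Low (ph)
open Pool.Agent.Strip051.FourB (lo up)

/-- The function of the boxes `hb_`. -/
noncomputable def fBoxHB (s t b k M O1 O2 O4 : ℝ) : ℝ :=
  M - O1 - O2 - O4 - 1 + 4 * ph (s - t) - 3 * ph (1 - h0) - ph (h0 + s - 1) + 1 / 20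

/-- The region of the boxes `hb_`. -/
structure RhB (s t b k M O1 O2 O4 : ℝ) : Prop where
  k1 : 86602 / 100000 * ph b ≤ k
  k2 : k ≤ 86603 / 100000 * ph b
  h1 : 86602 / 100000 ≤ h0
  h2 : h0 ≤ 86603 / 100000
  h3 : 86602 / 100000 * b ≤ h0 * b
  k3 : 0 ≤ k
  k4 : k ≤ 1161 / 10000
  hq : h0 + b / 2 - k ≤ 1
  hp : 1 / 2 ≤ h0 - b / 2 - k
  th : t ≤ 1 - h0
  m1 : 481 / 200 - 2 * s - 1 / 2 - 1 / 2 * ph b - h0 * b + ph (2 * h0 + t + b / 2 - k - 1) ≤ M
  m2 : 381 / 200 - 2 * s - ph (1 - t - h0 + b / 2 + k) + 1 / 2 + 1 / 2 * ph b - h0 * b ≤ M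
  o1t : O1 ≤ 1 / 2 + 1 / 2 * ph b - h0 * b - ph (2 * h0 + t - b / 2 - k - 1)
  o1y : O1 ≤ ph (s - t) - ph (h0 + s - 1)
  o2t : O2 ≤ 1 / 2 + 1 / 2 * ph b - h0 * b - ph (t - b / 2 - k - s + 1)
  o2y : O2 ≤ ph (s - t) - ph (1 - h0)
  o4t : O4 ≤ 1 / 2 + 1 / 2 * ph b - h0 * b - ph (t - b / 2 - k - s + 1)
  o4y : O4 ≤ ph (s - t) - ph (1 - h0)
  o4v : O4 ≤ 1 / 2 + 1 / 2 * ph b - h0 * b - ph (t + h0 - b / 2 - k - s) + ph (1 - h0)
  s1 : 57 / 100 ≤ s
  s2 : s ≤ 67 / 100
  t1 : 1 / 20 ≤ t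
  t2 : t ≤ 11 / 100
  b1 : 0 ≤ b
  b2 : b ≤ 1 / 2

theorem RhB.lo3 {s t b k M O1 O2 O4 : ℝ} (R : RhB s t b k M O1 O2 O4) (w0 : ℝ) (hw0 : w0 ^ 2 < 1) :
    2 * w0 * (2 * h0 + t + b / 2 - k - 1) - 2 * w0 ^ 2 ≤ (1 - w0 ^ 2) * ph (2 * h0 + t + b / 2 - k - 1) :=
  lo hw0 (by linear_combination 2 * R.h1 + R.k4 + R.t1 + (1 / 2) * R.b1) (by linear_combination R.h2 + R.hq + R.t2)

theorem RhB.lo4 {s t b k M O1 O2 O4 : ℝ} (R : RhB s t b k M O1 O2 O4) (w0 : ℝ) (hw0 : w0 ^ 2 < 1) :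
    2 * w0 * (2 * h0 + t - b / 2 - k - 1) - 2 * w0 ^ 2 ≤ (1 - w0 ^ 2) * ph (2 * h0 + t - b / 2 - k - 1) :=
  lo hw0 (by linear_combination R.h1 + R.hp + R.t1) (by linear_combination 2 * R.h2 + R.k3 + R.t2 + (1 / 2) * R.b1)

theorem RhB.lo7 {s t b k M O1 O2 O4 : ℝ} (R : RhB s t b k M O1 O2 O4) (w0 : ℝ) (hw0 : w0 ^ 2 < 1) :
    2 * w0 * (s - t) - 2 * w0 ^ 2 ≤ (1 - w0 ^ 2) * ph (s - t) :=
  lo hw0 (by linear_combination R.s1 + R.t2) (by linear_combination R.s2 + R.t1)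

theorem RhB.lo9 {s t b k M O1 O2 O4 : ℝ} (R : RhB s t b k M O1 O2 O4) (w0 : ℝ) (hw0 : w0 ^ 2 < 1) :
    2 * w0 * (t - b / 2 - k - s + 1) - 2 * w0 ^ 2 ≤ (1 - w0 ^ 2) * ph (t - b / 2 - k - s + 1) :=
  lo hw0 (by linear_combination R.h2 + R.hp + R.s2 + R.t1) (by linear_combination R.k3 + R.s1 + R.t2 + (1 / 2) * R.b1)

theorem hb_1 {s t b k M O1 O2 O4 : ℝ} (R : RhB s t b k M O1 O2 O4)
    (s1 : 57 / 100 ≤ s) (s2 : s ≤ 67 / 100) (t1 : 1 / 20 ≤ t) (t2 : t ≤ 11 / 100)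
    (b1 : 0 ≤ b) (b2 : b ≤ 1 / 4) :
    0 ≤ fBoxHB s t b k M O1 O2 O4 := by
  have e1 := up (t1 := (67 / 1000)) (t2 := (68 / 1000)) (x := 1 - h0) (by norm_num)
    (by linear_combination (1004489 / 1000000) * R.h2) (by linear_combination (62789 / 62500) * R.h1)
  have e2 := up (t1 := (0 / 1000)) (t2 := (128 / 1000)) (x := b) (by norm_num)
    (by linear_combination b1) (by linear_combination (15881 / 15625) * b2)
  have e3 := up (t1 := (229 / 1000)) (t2 := (291 / 1000)) (x := h0 + s - 1) (by norm_num)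
    (by linear_combination (1052441 / 1000000) * R.h1 + (1052441 / 1000000) * s1) (by linear_combination (1084681 / 1000000) * R.h2 + (1084681 / 1000000) * s2)
  have e4 := R.lo7 (347 / 1000) (by norm_num)
  have e5 := up (t1 := (11 / 1000)) (t2 := (121 / 1000)) (x := 1 - t - h0 + b / 2 + k) (by norm_num)
    (by linear_combination (1000121 / 1000000) * R.h2 + (1000121 / 1000000) * R.k3 + (1000121 / 1000000) * t2 + (1000121 / 2000000) * b1) (by linear_combination (1014641 / 1000000) * R.k2 + (1014641 / 1000000) * R.h1 + (1014641 / 1000000) * t1 + (121053773787 / 195312500000) * b2 + (87870954523 / 100000000000) * e2)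
  have e6 := R.lo3 (570 / 1000) (by norm_num)
  have e7 := R.lo4 (354 / 1000) (by norm_num)
  unfold fBoxHB
  linear_combination (4231407549706875000 / 1756097300872794463) * R.k2 + (137747569749733299228777813250 / 31377021489790645791598397471) * R.h1 + (1656221298427296450 / 1756097300872794463) * R.m1 + (99876002445498013 / 1756097300872794463) * R.m2 + R.o1t + R.o2y + R.o4y + (61833394054 / 63151995027) * s2 + (1284444944442781173481000 / 1544647380972002154504633) * t1 + (250000 / 248861) * e1 + (21282988714799765625 / 7024389203491177852) * e2 + (1000000 / 933361) * e3 + (2000000 / 879591) * e4 + (100009114577000000 / 1756097300872794463) * e5 + (2453297731339500000 / 1756097300872794463) * e6 + (250000 / 218671) * e7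

theorem hb_2 {s t b k M O1 O2 O4 : ℝ} (R : RhB s t b k M O1 O2 O4)
    (s1 : 57 / 100 ≤ s) (s2 : s ≤ 67 / 100) (t1 : 1 / 20 ≤ t) (t2 : t ≤ 11 / 100)
    (b1 : 1 / 4 ≤ b) (b2 : b ≤ 1 / 2) :
    0 ≤ fBoxHB s t b k M O1 O2 O4 := by
  have e1 := up (t1 := (67 / 1000)) (t2 := (68 / 1000)) (x := 1 - h0) (by norm_num)
    (by linear_combination (1004489 / 1000000) * R.h2) (by linear_combination (62789 / 62500) * R.h1)
  have e2 := up (t1 := (127 / 1000)) (t2 := (268 / 1000)) (x := b) (by norm_num)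
    (by linear_combination (1016129 / 1000000) * b1) (by linear_combination (66989 / 62500) * R.hq + (66989 / 62500) * R.hp)
  have e3 := R.lo7 (347 / 1000) (by norm_num)
  have e4 := R.lo3 (596 / 1000) (by norm_num)
  have e5 := R.lo9 (101 / 1000) (by norm_num)
  unfold fBoxHB
  linear_combination (170849458587337829500 / 78224112897925310897) * R.k2 + (236866400431003897714868500 / 58400792879671772385414951) * R.h1 + (50342049463972812500 / 78224112897925310897) * R.h3 + R.m1 + R.o1y + R.o2t + (50342049463972812500 / 78224112897925310897) * R.o4t + (27882063433952498397 / 78224112897925310897) * R.o4y + (17176725563880432678516254 / 68805225687999022137203127) * s2 + (2255065032659201795899500 / 22935075229333007379067709) * t1 + (51697568814955858573500000 / 19466930959890590795138317) * e1 + (780637459316197801250 / 234672338693775932691) * e2 + (68930091753274478098000000 / 22935075229333007379067709) * e3 + (62500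 / 40299) * e4 + (389673546938009000000 / 234672338693775932691) * e5

theorem hb_0 {s t b k M O1 O2 O4 : ℝ} (R : RhB s t b k M O1 O2 O4)
    (s1 : 57 / 100 ≤ s) (s2 : s ≤ 67 / 100) (t1 : 1 / 20 ≤ t) (t2 : t ≤ 11 / 100)
    (b1 : 0 ≤ b) (b2 : b ≤ 1 / 2) :
    0 ≤ fBoxHB s t b k M O1 O2 O4 := by
  rcases le_total b (1 / 4) with h | h
  · exact hb_1 R s1 s2 t1 t2 b1 h
  · exact hb_2 R s1 s2 t1 t2 h b2

end Pool.Agent.Strip051.FourF
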