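import Pool.Agent.Strip051.FourB.Box

/-! # The new point above h0, C -/

namespace Pool.Agent.Strip051.FourF

set_option linter.unusedVariables false

open Pool.Agent.StripNear Pool.Agent.StripSquare Pool.Agent.Strip051
open Pool.Agent.Strip051.Four.Low (ph)
open Pool.Agent.Strip051.FourB (lo up)

/-- The function of the boxes `hc_`. -/
noncomputable def fBoxHC (s t b k M O1 O2 O4 : ℝ) : ℝ :=
  M - O1 - O2 - O4 - 1 + 4 * ph (s - t) - 3 * ph (1 - h0) - ph (h0 + s - 1)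

/-- The region of the boxes `hc_`. -/
structure RhC (s t b k M O1 O2 O4 : ℝ) : Prop where
  k1 : 86602 / 100000 * ph b ≤ k
  k2 : k ≤ 86603 / 100000 * ph b
  h1 : 86602 / 100000 ≤ h0
  h2 : h0 ≤ 86603 / 100000
  h3 : 86602 / 100000 * b ≤ h0 * b
  k3 : 0 ≤ k
  k4 : k ≤ 1161 / 10000
  hq : h0 + b / 2 - k ≤ 1
  hp : 1 / 2 ≤ h0 - b / 2 - k
  th : t ≤ 1 - h0
  m1 : 481 / 200 - 2 * s - 1 / 2 - 1 / 2 * ph b - h0 * b + ph (2 * h0 + t + b / 2 - k - 1) ≤ M
  m2 : 381 / 200 - 2 * s - ph (1 - t - h0 + b / 2 + k) + 1 / 2 + 1 / 2 * ph b - h0 * b ≤ M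
  o1t : O1 ≤ 1 / 2 + 1 / 2 * ph b - h0 * b - ph (2 * h0 + t - b / 2 - k - 1)
  o1y : O1 ≤ ph (s - t) - ph (h0 + s - 1)
  o2t : O2 ≤ 1 / 2 + 1 / 2 * ph b - h0 * b - ph (t - b / 2 - k - s + 1)
  o2y : O2 ≤ ph (s - t) - ph (1 - h0)
  o4t : O4 ≤ 1 / 2 + 1 / 2 * ph b - h0 * b - ph (t - b / 2 - k - s + 1)
  o4y : O4 ≤ ph (s - t) - ph (1 - h0)
  o4v : O4 ≤ 1 / 2 + 1 / 2 * ph b - h0 * b - ph (t + h0 - b / 2 - k - s) + ph (1 - h0)
  s1 : 57 / 100 ≤ s
  s2 : s ≤ 67 / 100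
  t1 : 11 / 100 ≤ t
  t2 : t ≤ 67 / 500
  b1 : 0 ≤ b
  b2 : b ≤ 1 / 2

theorem RhC.lo3 {s t b k M O1 O2 O4 : ℝ} (R : RhC s t b k M O1 O2 O4) (w0 : ℝ) (hw0 : w0 ^ 2 < 1) :
    2 * w0 * (2 * h0 + t + b / 2 - k - 1) - 2 * w0 ^ 2 ≤ (1 - w0 ^ 2) * ph (2 * h0 + t + b / 2 - k - 1) :=
  lo hw0 (by linear_combination 2 * R.h1 + R.k4 + R.t1 + (1 / 2) * R.b1) (by linear_combination R.hq + R.th)

theorem RhC.lo4 {s t b k M O1 O2 O4 : ℝ} (R : RhC s t b k M O1 O2 O4) (w0 : ℝ) (hw0 : w0 ^ 2 < 1) :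
    2 * w0 * (2 * h0 + t - b / 2 - k - 1) - 2 * w0 ^ 2 ≤ (1 - w0 ^ 2) * ph (2 * h0 + t - b / 2 - k - 1) :=
  lo hw0 (by linear_combination R.h1 + R.hp + R.t1) (by linear_combination R.h2 + R.k3 + R.th + (1 / 2) * R.b1)

theorem RhC.lo7 {s t b k M O1 O2 O4 : ℝ} (R : RhC s t b k M O1 O2 O4) (w0 : ℝ) (hw0 : w0 ^ 2 < 1) :
    2 * w0 * (s - t) - 2 * w0 ^ 2 ≤ (1 - w0 ^ 2) * ph (s - t) :=
  lo hw0 (by linear_combination R.h1 + R.th + R.s1) (by linear_combination R.s2 + R.t1)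

theorem RhC.lo9 {s t b k M O1 O2 O4 : ℝ} (R : RhC s t b k M O1 O2 O4) (w0 : ℝ) (hw0 : w0 ^ 2 < 1) :
    2 * w0 * (t - b / 2 - k - s + 1) - 2 * w0 ^ 2 ≤ (1 - w0 ^ 2) * ph (t - b / 2 - k - s + 1) :=
  lo hw0 (by linear_combination R.h2 + R.hp + R.s2 + R.t1) (by linear_combination R.h1 + R.k3 + R.th + R.s1 + (1 / 2) * R.b1)

theorem hc_1 {s t b k M O1 O2 O4 : ℝ} (R : RhC s t b k M O1 O2 O4)
    (s1 : 57 / 100 ≤ s) (s2 : s ≤ 67 / 100) (t1 : 11 / 100 ≤ t) (t2 : t ≤ 67 / 500)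
    (b1 : 0 ≤ b) (b2 : b ≤ 1 / 4) :
    0 ≤ fBoxHC s t b k M O1 O2 O4 := by
  have e1 := up (t1 := (67 / 1000)) (t2 := (68 / 1000)) (x := 1 - h0) (by norm_num)
    (by linear_combination (1004489 / 1000000) * R.h2) (by linear_combination (62789 / 62500) * R.h1)
  have e2 := up (t1 := (0 / 1000)) (t2 := (128 / 1000)) (x := b) (by norm_num)
    (by linear_combination b1) (by linear_combination (15881 / 15625) * b2)
  have e3 := up (t1 := (229 / 1000)) (t2 := (291 / 1000)) (x := h0 + s - 1) (by norm_num)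
    (by linear_combination (1052441 / 1000000) * R.h1 + (1052441 / 1000000) * s1) (by linear_combination (1084681 / 1000000) * R.h2 + (1084681 / 1000000) * s2)
  have e4 := R.lo7 (306 / 1000) (by norm_num)
  have e5 := R.lo3 (631 / 1000) (by norm_num)
  have e6 := R.lo4 (477 / 1000) (by norm_num)
  have e7 := R.lo4 (400 / 1000) (by norm_num)
  unfold fBoxHC
  linear_combination (231438400000 / 71803605573) * R.k2 + (7729664960400279463750 / 1282948999459609438341) * R.h1 + R.m1 + R.o1t + R.o2y + R.o4y + (19630866054 / 16268554027) * s2 + (30469955189062000 / 16270050790391643) * t1 + (250000 / 248861) * e1 + (272236203125 / 71803605573) * e2 + (1000000 / 933361) * e3 + (500000 / 226591) * e4 + (1000000 / 601839) * e5 + (6861857000000 / 8613013449447) * e6 + (82810697770000 / 180873282438387) * e7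

theorem hc_2 {s t b k M O1 O2 O4 : ℝ} (R : RhC s t b k M O1 O2 O4)
    (s1 : 57 / 100 ≤ s) (s2 : s ≤ 67 / 100) (t1 : 11 / 100 ≤ t) (t2 : t ≤ 67 / 500)
    (b1 : 1 / 4 ≤ b) (b2 : b ≤ 1 / 2) :
    0 ≤ fBoxHC s t b k M O1 O2 O4 := by
  have e1 := up (t1 := (67 / 1000)) (t2 := (68 / 1000)) (x := 1 - h0) (by norm_num)
    (by linear_combination (1004489 / 1000000) * R.h2) (by linear_combination (62789 / 62500) * R.h1)
  have e2 := up (t1 := (127 / 1000)) (t2 := (268 / 1000)) (x := b) (by norm_num)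
    (by linear_combination (1016129 / 1000000) * b1) (by linear_combination (66989 / 62500) * R.hq + (66989 / 62500) * R.hp)
  have e3 := up (t1 := (229 / 1000)) (t2 := (291 / 1000)) (x := h0 + s - 1) (by norm_num)
    (by linear_combination (1052441 / 1000000) * R.h1 + (1052441 / 1000000) * s1) (by linear_combination (1084681 / 1000000) * R.h2 + (1084681 / 1000000) * s2)
  have e4 := R.lo7 (306 / 1000) (by norm_num)
  have e5 := R.lo3 (778 / 1000) (by norm_num)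
  have e6 := R.lo4 (330 / 1000) (by norm_num)
  have e7 := R.lo9 (37 / 1000) (by norm_num)
  unfold fBoxHC
  linear_combination (2245211940000 / 542776504361) * R.k2 + (193510007590028323014679661750 / 23320719968574105905537068359) * R.h1 + R.m1 + (3269525155929775 / 18107459505671497) * R.o1t + (14837934349741722 / 18107459505671497) * R.o1y + (14837934349741722 / 18107459505671497) * R.o2t + (3269525155929775 / 18107459505671497) * R.o2y + R.o4y + (716600679928124425609776514 / 883746549779194385575405257) * s2 + (342655208362074000 / 122988270899663351) * t1 + (8236348463853304750000 / 4506240480040914414917) * e1 + (7724503400000 / 1628329513083) * e2 + (3269525155929775000000 / 16900796511673054111417) * e3 + (500000 / 226591) * e4 + (250000 / 98679) * e5 + (25683622591750000 / 126752216539700479) * e6 + (44574825986000000 / 54322378517014491) * e7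

theorem hc_0 {s t b k M O1 O2 O4 : ℝ} (R : RhC s t b k M O1 O2 O4)
    (s1 : 57 / 100 ≤ s) (s2 : s ≤ 67 / 100) (t1 : 11 / 100 ≤ t) (t2 : t ≤ 67 / 500)
    (b1 : 0 ≤ b) (b2 : b ≤ 1 / 2) :
    0 ≤ fBoxHC s t b k M O1 O2 O4 := by
  rcases le_total b (1 / 4) with h | h
  · exact hc_1 R s1 s2 t1 t2 b1 h
  · exact hc_2 R s1 s2 t1 t2 h b2

end Pool.Agent.Strip051.FourF
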