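import Pool.Agent.Strip051.FourB.Box

/-! # The new point between s and h0, A12 -/

namespace Pool.Agent.Strip051.FourF

set_option linter.unusedVariables false

open Pool.Agent.StripNear Pool.Agent.StripSquare Pool.Agent.Strip051
open Pool.Agent.Strip051.Four.Low (ph)
open Pool.Agent.Strip051.FourB (lo up)

/-- The function of the boxes `ma12_`. -/
noncomputable def fBoxMA12 (s y b k M1 M2 M3 M4 G1 G2 G3 G4 : ℝ) : ℝ :=
  G1 + G2 + G3 + G4 - 8 * ph y + 4 * ph s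

/-- The region of the boxes `ma12_`. -/
structure RgA12 (s y b k M1 M2 M3 M4 G1 G2 G3 G4 : ℝ) : Prop where
  k1 : 86602 / 100000 * ph b ≤ k
  k2 : k ≤ 86603 / 100000 * ph b
  h1 : 86602 / 100000 ≤ h0
  h2 : h0 ≤ 86603 / 100000
  h3 : 86602 / 100000 * b ≤ h0 * b
  k3 : 0 ≤ k
  k4 : k ≤ 1161 / 10000
  hq : h0 + b / 2 - k ≤ 1
  ys : s ≤ y
  yh : y ≤ h0
  yt : 2 * h0 - 1 ≤ y
  n1x : 1 - 1 / 2 - 1 / 2 * ph b + h0 * b + ph (y - b / 2 - k) - ph (1 - h0) ≤ M1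
  n1e : 1 - ph (s + 1 - y) + ph (s + 1 - h0) - ph (1 - h0) ≤ M1
  o11 : M1 - 1 / 2 - 1 / 2 * ph b - h0 * b + ph (y + b / 2 - k + h0 - 1) ≤ G1
  o1y : M1 - ph (h0 + s - y) + ph (h0 + s - 1) ≤ G1
  n2h : 1 - 1 / 2 - 1 / 2 * ph b + h0 * b + ph (y - b / 2 - k) - ph (h0 + s - 1) ≤ M2
  n2v : 1 - 1 / 2 - 1 / 2 * ph b + h0 * b + ph (y - b / 2 - k - s) - ph (1 - h0) ≤ M2
  n2e : 3 / 2 - ph (2 * h0 - y) - ph (h0 + s - 1) ≤ M2
  o2m : M2 - 1 / 2 - 1 / 2 * ph b - h0 * b + ph (y + b / 2 - k - h0 - s + 1) ≤ G2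
  o2y : M2 - ph (h0 + s - y) + ph (1 - h0) ≤ G2
  n3x : 1 - 1 / 2 - 1 / 2 * ph b + h0 * b + ph (y - b / 2 - k) - ph (1 - h0) ≤ M3
  o3h : M3 - 1 / 2 - 1 / 2 * ph b - h0 * b + ph (y + b / 2 - k) - ph (1 - h0) ≤ G3
  n4x : 1 - 1 / 2 - 1 / 2 * ph b + h0 * b + ph (y - b / 2 - k - h0 - s + 1) ≤ M4
  n4v : 1 - 1 / 2 - 1 / 2 * ph b + h0 * b + ph (y - b / 2 - k - s) - ph (1 - h0) ≤ M4
  n4e : 1 - ph (h0 + s - y) + ph (1 - h0) ≤ M4
  o4y : M4 - ph (h0 + s - y) + ph (1 - h0) ≤ G4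
  o4m : M4 - 1 / 2 - 1 / 2 * ph b - h0 * b + ph (y + b / 2 - k - h0 - s + 1) ≤ G4
  s1 : 3 / 5 ≤ s
  s2 : s ≤ 67 / 100
  y1 : 183 / 250 ≤ y
  y2 : y ≤ 4 / 5
  b1 : 0 ≤ b
  b2 : b ≤ 1 / 2

theorem RgA12.lo8 {s y b k M1 M2 M3 M4 G1 G2 G3 G4 : ℝ} (R : RgA12 s y b k M1 M2 M3 M4 G1 G2 G3 G4) (w0 : ℝ) (hw0 : w0 ^ 2 < 1) :
    2 * w0 * (s) - 2 * w0 ^ 2 ≤ (1 - w0 ^ 2) * ph (s) :=
  lo hw0 (by linear_combination R.s1) (by linear_combination R.s2)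

theorem RgA12.lo11 {s y b k M1 M2 M3 M4 G1 G2 G3 G4 : ℝ} (R : RgA12 s y b k M1 M2 M3 M4 G1 G2 G3 G4) (w0 : ℝ) (hw0 : w0 ^ 2 < 1) :
    2 * w0 * (y + b / 2 - k) - 2 * w0 ^ 2 ≤ (1 - w0 ^ 2) * ph (y + b / 2 - k) :=
  lo hw0 (by linear_combination 2 * R.h1 + R.k4 + R.yt + (1 / 2) * R.b1) (by linear_combination R.h1 + R.hq + R.y2)

theorem RgA12.lo12 {s y b k M1 M2 M3 M4 G1 G2 G3 G4 : ℝ} (R : RgA12 s y b k M1 M2 M3 M4 G1 G2 G3 G4) (w0 : ℝ) (hw0 : w0 ^ 2 < 1) :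
    2 * w0 * (y - b / 2 - k - h0 - s + 1) - 2 * w0 ^ 2 ≤ (1 - w0 ^ 2) * ph (y - b / 2 - k - h0 - s + 1) :=
  lo hw0 (by linear_combination R.h1 + R.k4 + R.yt + R.s2 + (1 / 2) * R.b2) (by linear_combination R.h1 + R.k3 + R.s1 + R.y2 + (1 / 2) * R.b1)

theorem RgA12.lo14 {s y b k M1 M2 M3 M4 G1 G2 G3 G4 : ℝ} (R : RgA12 s y b k M1 M2 M3 M4 G1 G2 G3 G4) (w0 : ℝ) (hw0 : w0 ^ 2 < 1) :
    2 * w0 * (y - b / 2 - k) - 2 * w0 ^ 2 ≤ (1 - w0 ^ 2) * ph (y - b / 2 - k) :=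
  lo hw0 (by linear_combination 2 * R.h1 + R.k4 + R.yt + (1 / 2) * R.b2) (by linear_combination R.k3 + R.y2 + (1 / 2) * R.b1)

theorem ma12_1 {s y b k M1 M2 M3 M4 G1 G2 G3 G4 : ℝ} (R : RgA12 s y b k M1 M2 M3 M4 G1 G2 G3 G4)
    (s1 : 3 / 5 ≤ s) (s2 : s ≤ 67 / 100) (y1 : 183 / 250 ≤ y) (y2 : y ≤ 4 / 5)
    (b1 : 0 ≤ b) (b2 : b ≤ 1 / 4) :
    0 ≤ fBoxMA12 s y b k M1 M2 M3 M4 G1 G2 G3 G4 := by
  have e1 := up (t1 := (0 / 1000)) (t2 := (128 / 1000)) (x := b) (by norm_num)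
    (by linear_combination b1) (by linear_combination (15881 / 15625) * b2)
  have e2 := up (t1 := (381 / 1000)) (t2 := (505 / 1000)) (x := h0 + s - y) (by norm_num)
    (by linear_combination (1145161 / 1000000) * R.h1 + (1145161 / 1000000) * s1 + (1145161 / 1000000) * y2) (by linear_combination (50201 / 40000) * R.h1 + (50201 / 40000) * R.yt + (50201 / 40000) * s2)
  have e3 := R.lo8 (385 / 1000) (by norm_num)
  have e4 := up (t1 := (435 / 1000)) (t2 := (500 / 1000)) (x := y) (by norm_num)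
    (by linear_combination (47569 / 20000) * R.h1 + (47569 / 40000) * R.yt) (by linear_combination (5 / 4) * y2)
  have e5 := R.lo11 (516 / 1000) (by norm_num)
  have e6 := R.lo14 (400 / 1000) (by norm_num)
  have e7 := R.lo14 (500 / 1000) (by norm_num)
  unfold fBoxMA12
  linear_combination (413092869875 / 87540795408) * R.k2 + (708800 / 161519) * R.h2 + 2 * R.h3 + R.n1x + R.o1y + R.n2h + R.o2y + R.n3x + R.o3h + R.n4e + R.o4y + (4250384000 / 5503113849) * s2 + (1999983856838163659 / 4425664042586987376) * y2 + (38751447921007 / 6366603302400) * e1 + (800000 / 161519) * e2 + (160000 / 34071) * e3 + (3200 / 313) * e4 + (62500 / 45859) * e5 + (1504878393925 / 700326363264) * e6 + (278960412965 / 175081590816) * e7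

theorem ma12_2 {s y b k M1 M2 M3 M4 G1 G2 G3 G4 : ℝ} (R : RgA12 s y b k M1 M2 M3 M4 G1 G2 G3 G4)
    (s1 : 3 / 5 ≤ s) (s2 : s ≤ 67 / 100) (y1 : 183 / 250 ≤ y) (y2 : y ≤ 4 / 5)
    (b1 : 1 / 4 ≤ b) (b2 : b ≤ 1 / 2) :
    0 ≤ fBoxMA12 s y b k M1 M2 M3 M4 G1 G2 G3 G4 := by
  have e1 := up (t1 := (67 / 1000)) (t2 := (68 / 1000)) (x := 1 - h0) (by norm_num)
    (by linear_combination (1004489 / 1000000) * R.h2) (by linear_combination (62789 / 62500) * R.h1)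
  have e2 := up (t1 := (127 / 1000)) (t2 := (268 / 1000)) (x := b) (by norm_num)
    (by linear_combination (1016129 / 1000000) * b1) (by linear_combination (66989 / 62500) * b2)
  have e3 := up (t1 := (381 / 1000)) (t2 := (505 / 1000)) (x := h0 + s - y) (by norm_num)
    (by linear_combination (1145161 / 1000000) * R.h1 + (1145161 / 1000000) * s1 + (1145161 / 1000000) * y2) (by linear_combination (50201 / 40000) * R.h1 + (50201 / 40000) * R.yt + (50201 / 40000) * s2)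
  have e4 := R.lo8 (358 / 1000) (by norm_num)
  have e5 := R.lo8 (385 / 1000) (by norm_num)
  have e6 := up (t1 := (435 / 1000)) (t2 := (500 / 1000)) (x := y) (by norm_num)
    (by linear_combination (47569 / 20000) * R.h1 + (47569 / 40000) * R.yt) (by linear_combination (5 / 4) * y2)
  have e7 := R.lo11 (599 / 1000) (by norm_num)
  have e8 := R.lo12 (3 / 1000) (by norm_num)
  have e9 := R.lo14 (272 / 1000) (by norm_num)
  have e10 := R.lo14 (367 / 1000) (by norm_num)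
  unfold fBoxMA12
  linear_combination (8888394432837409 / 2204292148150625) * R.k2 + (127083274439981850 / 40195418096981269) * R.h2 + 3 * R.h3 + R.n1x + R.o1y + R.n2h + R.o2y + R.n3x + R.o3h + R.n4x + R.o4y + (249126222294697567163177 / 111438974868345070204375) * y2 + (250000 / 248861) * e1 + (16408495473181291 / 2645150577780750) * e2 + (600000 / 161519) * e3 + (2192453042414000000 / 496204676296720389) * e4 + (86125108744480000 / 496204676296720389) * e5 + (3200 / 313) * e6 + (1000000 / 641199) * e7 + (1000000 / 999991) * e8 + (737798339362559633573222791 / 460619201823919561681787100) * e9 + (15526754997038385029784752 / 8858061573536914647726675) * e10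

theorem ma12_0 {s y b k M1 M2 M3 M4 G1 G2 G3 G4 : ℝ} (R : RgA12 s y b k M1 M2 M3 M4 G1 G2 G3 G4)
    (s1 : 3 / 5 ≤ s) (s2 : s ≤ 67 / 100) (y1 : 183 / 250 ≤ y) (y2 : y ≤ 4 / 5)
    (b1 : 0 ≤ b) (b2 : b ≤ 1 / 2) :
    0 ≤ fBoxMA12 s y b k M1 M2 M3 M4 G1 G2 G3 G4 := by
  rcases le_total b (1 / 4) with h | h
  · exact ma12_1 R s1 s2 y1 y2 b1 h
  · exact ma12_2 R s1 s2 y1 y2 h b2

end Pool.Agent.Strip051.FourF
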