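import Pool.Agent.Strip051.FourB.Box

/-! # The new point between s and h0, A13 -/

namespace Pool.Agent.Strip051.FourF

set_option linter.unusedVariables false

open Pool.Agent.StripNear Pool.Agent.StripSquare Pool.Agent.Strip051
open Pool.Agent.Strip051.Four.Low (ph)
open Pool.Agent.Strip051.FourB (lo up)

/-- The function of the boxes `ma13_`. -/
noncomputable def fBoxMA13 (s y b k M1 M2 M3 M4 G1 G2 G3 G4 : ℝ) : ℝ :=
  G1 + G2 + G3 + G4 - 8 * ph y + 4 * ph s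

/-- The region of the boxes `ma13_`. -/
structure RgA13 (s y b k M1 M2 M3 M4 G1 G2 G3 G4 : ℝ) : Prop where
  k1 : 86602 / 100000 * ph b ≤ k
  k2 : k ≤ 86603 / 100000 * ph b
  h1 : 86602 / 100000 ≤ h0
  h2 : h0 ≤ 86603 / 100000
  h3 : 86602 / 100000 * b ≤ h0 * b
  k3 : 0 ≤ k
  k4 : k ≤ 1161 / 10000
  hq : h0 + b / 2 - k ≤ 1
  ys : s ≤ y
  yh : y ≤ h0
  x0 : y ≤ h0 - 1 / 500
  n1x : 1 - 1 / 2 - 1 / 2 * ph b + h0 * b + ph (y - b / 2 - k) - ph (1 - h0) ≤ M1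
  n1e : 1 - ph (s + 1 - y) + ph (s + 1 - h0) - ph (1 - h0) ≤ M1
  o11 : M1 - 1 / 2 - 1 / 2 * ph b - h0 * b + ph (y + b / 2 - k + h0 - 1) ≤ G1
  o1y : M1 - ph (h0 + s - y) + ph (h0 + s - 1) ≤ G1
  n2h : 1 - 1 / 2 - 1 / 2 * ph b + h0 * b + ph (y - b / 2 - k) - ph (h0 + s - 1) ≤ M2
  n2v : 1 - 1 / 2 - 1 / 2 * ph b + h0 * b + ph (y - b / 2 - k - s) - ph (1 - h0) ≤ M2
  n2e : 3 / 2 - ph (2 * h0 - y) - ph (h0 + s - 1) ≤ M2
  o2m : M2 - 1 / 2 - 1 / 2 * ph b - h0 * b + ph (y + b / 2 - k - h0 - s + 1) ≤ G2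
  o2y : M2 - ph (h0 + s - y) + ph (1 - h0) ≤ G2
  n3x : 1 - 1 / 2 - 1 / 2 * ph b + h0 * b + ph (y - b / 2 - k) - ph (1 - h0) ≤ M3
  n3e : 1 - ph (9 / 5 - y) + ph (9 / 5 - h0) - ph (1 - h0) ≤ M3
  o3h : M3 - 1 / 2 - 1 / 2 * ph b - h0 * b + ph (y + b / 2 - k) - ph (1 - h0) ≤ G3
  n4x : 1 - 1 / 2 - 1 / 2 * ph b + h0 * b + ph (y - b / 2 - k - h0 - s + 1) ≤ M4
  n4v : 1 - 1 / 2 - 1 / 2 * ph b + h0 * b + ph (y - b / 2 - k - s) - ph (1 - h0) ≤ M4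
  n4e : 1 - ph (h0 + s - y) + ph (1 - h0) ≤ M4
  o4y : M4 - ph (h0 + s - y) + ph (1 - h0) ≤ G4
  o4m : M4 - 1 / 2 - 1 / 2 * ph b - h0 * b + ph (y + b / 2 - k - h0 - s + 1) ≤ G4
  s1 : 3 / 5 ≤ s
  s2 : s ≤ 67 / 100
  y1 : 4 / 5 ≤ y
  y2 : y ≤ 8661 / 10000
  b1 : 0 ≤ b
  b2 : b ≤ 1 / 2

theorem RgA13.lo8 {s y b k M1 M2 M3 M4 G1 G2 G3 G4 : ℝ} (R : RgA13 s y b k M1 M2 M3 M4 G1 G2 G3 G4) (w0 : ℝ) (hw0 : w0 ^ 2 < 1) :
    2 * w0 * (s + 1 - h0) - 2 * w0 ^ 2 ≤ (1 - w0 ^ 2) * ph (s + 1 - h0) :=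
  lo hw0 (by linarith only [R.h2, R.s1]) (by linarith only [R.h1, R.s2])

theorem RgA13.lo10 {s y b k M1 M2 M3 M4 G1 G2 G3 G4 : ℝ} (R : RgA13 s y b k M1 M2 M3 M4 G1 G2 G3 G4) (w0 : ℝ) (hw0 : w0 ^ 2 < 1) :
    2 * w0 * (s) - 2 * w0 ^ 2 ≤ (1 - w0 ^ 2) * ph (s) :=
  lo hw0 (by linarith only [R.s1]) (by linarith only [R.s2])

theorem RgA13.lo13 {s y b k M1 M2 M3 M4 G1 G2 G3 G4 : ℝ} (R : RgA13 s y b k M1 M2 M3 M4 G1 G2 G3 G4) (w0 : ℝ) (hw0 : w0 ^ 2 < 1) :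
    2 * w0 * (y + b / 2 - k) - 2 * w0 ^ 2 ≤ (1 - w0 ^ 2) * ph (y + b / 2 - k) :=
  lo hw0 (by linarith only [R.k4, R.y1, R.b1]) (by linarith only [R.hq, R.x0])

theorem RgA13.lo14 {s y b k M1 M2 M3 M4 G1 G2 G3 G4 : ℝ} (R : RgA13 s y b k M1 M2 M3 M4 G1 G2 G3 G4) (w0 : ℝ) (hw0 : w0 ^ 2 < 1) :
    2 * w0 * (y - b / 2 - k - h0 - s + 1) - 2 * w0 ^ 2 ≤ (1 - w0 ^ 2) * ph (y - b / 2 - k - h0 - s + 1) :=
  lo hw0 (by linarith only [R.h2, R.k4, R.s2, R.y1, R.b2]) (by linarith only [R.k3, R.x0, R.s1, R.b1])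

theorem RgA13.lo16 {s y b k M1 M2 M3 M4 G1 G2 G3 G4 : ℝ} (R : RgA13 s y b k M1 M2 M3 M4 G1 G2 G3 G4) (w0 : ℝ) (hw0 : w0 ^ 2 < 1) :
    2 * w0 * (y - b / 2 - k) - 2 * w0 ^ 2 ≤ (1 - w0 ^ 2) * ph (y - b / 2 - k) :=
  lo hw0 (by linarith only [R.k4, R.y1, R.b2]) (by linarith only [R.h2, R.k3, R.x0, R.b1])

theorem ma13_2 {s y b k M1 M2 M3 M4 G1 G2 G3 G4 : ℝ} (R : RgA13 s y b k M1 M2 M3 M4 G1 G2 G3 G4)
    (s1 : 3 / 5 ≤ s) (s2 : s ≤ 67 / 100) (y1 : 4 / 5 ≤ y) (y2 : y ≤ 833 / 1000)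
    (b1 : 0 ≤ b) (b2 : b ≤ 1 / 4) :
    0 ≤ fBoxMA13 s y b k M1 M2 M3 M4 G1 G2 G3 G4 := by
  have e1 := up (t1 := (0 / 1000)) (t2 := (128 / 1000)) (x := b) (by norm_num)
    (by linarith only [b1]) (by linarith only [b2])
  have e2 := up (t1 := (356 / 1000)) (t2 := (439 / 1000)) (x := h0 + s - y) (by norm_num)
    (by linarith only [R.h1, s1, y2]) (by linarith only [R.h2, s2, y1])
  have e3 := R.lo8 (504 / 1000) (by norm_num)
  have e4 := up (t1 := (467 / 1000)) (t2 := (583 / 1000)) (x := s + 1 - y) (by norm_num)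
    (by linarith only [s1, y2]) (by linarith only [s2, y1])
  have e5 := R.lo10 (385 / 1000) (by norm_num)
  have e6 := up (t1 := (500 / 1000)) (t2 := (537 / 1000)) (x := y) (by norm_num)
    (by linarith only [y1]) (by linarith only [y2])
  have e7 := R.lo13 (576 / 1000) (by norm_num)
  have e8 := R.lo16 (443 / 1000) (by norm_num)
  unfold fBoxMA13
  linarith only [R.k2, R.h2, R.h3, R.n1x, R.n1e, R.o1y, R.n2h, R.o2y, R.n3x, R.o3h, R.n4e, R.o4y, s2, y2, e1, e2, e3, e4, e5, e6, e7, e8]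

theorem ma13_5 {s y b k M1 M2 M3 M4 G1 G2 G3 G4 : ℝ} (R : RgA13 s y b k M1 M2 M3 M4 G1 G2 G3 G4)
    (s1 : 3 / 5 ≤ s) (s2 : s ≤ 67 / 100) (y1 : 833 / 1000 ≤ y) (y2 : y ≤ 17 / 20)
    (b1 : 0 ≤ b) (b2 : b ≤ 1 / 8) :
    0 ≤ fBoxMA13 s y b k M1 M2 M3 M4 G1 G2 G3 G4 := by
  have e1 := up (t1 := (599 / 1000)) (t2 := (626 / 1000)) (x := 2 * h0 - y) (by norm_num)
    (by linarith only [R.h1, y2]) (by linarith only [R.h2, y1])
  have e2 := up (t1 := (0 / 1000)) (t2 := (63 / 1000)) (x := b) (by norm_num)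
    (by linarith only [b1]) (by linarith only [b2])
  have e3 := up (t1 := (344 / 1000)) (t2 := (411 / 1000)) (x := h0 + s - y) (by norm_num)
    (by linarith only [R.h1, s1, y2]) (by linarith only [R.h2, s2, y1])
  have e4 := R.lo8 (469 / 1000) (by norm_num)
  have e5 := R.lo8 (504 / 1000) (by norm_num)
  have e6 := up (t1 := (451 / 1000)) (t2 := (541 / 1000)) (x := s + 1 - y) (by norm_num)
    (by linarith only [s1, y2]) (by linarith only [s2, y1])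
  have e7 := R.lo10 (385 / 1000) (by norm_num)
  have e8 := up (t1 := (536 / 1000)) (t2 := (557 / 1000)) (x := y) (by norm_num)
    (by linarith only [y1]) (by linarith only [y2])
  have e9 := R.lo13 (582 / 1000) (by norm_num)
  have e10 := R.lo16 (507 / 1000) (by norm_num)
  unfold fBoxMA13
  linarith only [R.k2, R.h2, R.h3, R.n1e, R.o1y, R.n2h, R.n2e, R.o2y, R.n3x, R.o3h, R.n4e, R.o4y, y2, e1, e2, e3, e4, e5, e6, e7, e8, e9, e10]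

theorem ma13_8 {s y b k M1 M2 M3 M4 G1 G2 G3 G4 : ℝ} (R : RgA13 s y b k M1 M2 M3 M4 G1 G2 G3 G4)
    (s1 : 3 / 5 ≤ s) (s2 : s ≤ 127 / 200) (y1 : 17 / 20 ≤ y) (y2 : y ≤ 8661 / 10000)
    (b1 : 0 ≤ b) (b2 : b ≤ 63 / 1000) :
    0 ≤ fBoxMA13 s y b k M1 M2 M3 M4 G1 G2 G3 G4 := by
  have e1 := up (t1 := (580 / 1000)) (t2 := (600 / 1000)) (x := 2 * h0 - y) (by norm_num)
    (by linarith only [R.h1, R.x0]) (by linarith only [R.h2, y1])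
  have e2 := up (t1 := (0 / 1000)) (t2 := (32 / 1000)) (x := b) (by norm_num)
    (by linarith only [b1]) (by linarith only [b2])
  have e3 := up (t1 := (334 / 1000)) (t2 := (371 / 1000)) (x := h0 + s - y) (by norm_num)
    (by linarith only [R.x0, s1]) (by linarith only [R.h2, s2, y1])
  have e4 := R.lo8 (453 / 1000) (by norm_num)
  have e5 := up (t1 := (438 / 1000)) (t2 := (485 / 1000)) (x := s + 1 - y) (by norm_num)
    (by linarith only [R.h2, R.x0, s1]) (by linarith only [s2, y1])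
  have e6 := R.lo10 (346 / 1000) (by norm_num)
  have e7 := R.lo10 (358 / 1000) (by norm_num)
  have e8 := up (t1 := (556 / 1000)) (t2 := (575 / 1000)) (x := y) (by norm_num)
    (by linarith only [y1]) (by linarith only [R.h2, R.x0])
  have e9 := R.lo13 (585 / 1000) (by norm_num)
  have e10 := R.lo13 (617 / 1000) (by norm_num)
  have e11 := R.lo16 (545 / 1000) (by norm_num)
  unfold fBoxMA13
  linarith only [R.k2, R.h2, R.x0, R.n1e, R.o1y, R.n2e, R.o2y, R.n3x, R.o3h, R.n4e, R.o4y, e1, e2, e3, e4, e5, e6, e7, e8, e9, e10, e11]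

theorem ma13_9 {s y b k M1 M2 M3 M4 G1 G2 G3 G4 : ℝ} (R : RgA13 s y b k M1 M2 M3 M4 G1 G2 G3 G4)
    (s1 : 127 / 200 ≤ s) (s2 : s ≤ 67 / 100) (y1 : 17 / 20 ≤ y) (y2 : y ≤ 8661 / 10000)
    (b1 : 0 ≤ b) (b2 : b ≤ 63 / 1000) :
    0 ≤ fBoxMA13 s y b k M1 M2 M3 M4 G1 G2 G3 G4 := by
  have e1 := up (t1 := (580 / 1000)) (t2 := (600 / 1000)) (x := 2 * h0 - y) (by norm_num)
    (by linarith only [R.h1, R.x0]) (by linarith only [R.h2, y1])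
  have e2 := up (t1 := (0 / 1000)) (t2 := (32 / 1000)) (x := b) (by norm_num)
    (by linarith only [b1]) (by linarith only [b2])
  have e3 := up (t1 := (359 / 1000)) (t2 := (398 / 1000)) (x := h0 + s - y) (by norm_num)
    (by linarith only [R.x0, s1]) (by linarith only [R.h2, s2, y1])
  have e4 := R.lo8 (504 / 1000) (by norm_num)
  have e5 := up (t1 := (471 / 1000)) (t2 := (522 / 1000)) (x := s + 1 - y) (by norm_num)
    (by linarith only [R.h2, R.x0, s1]) (by linarith only [s2, y1])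
  have e6 := up (t1 := (556 / 1000)) (t2 := (575 / 1000)) (x := y) (by norm_num)
    (by linarith only [y1]) (by linarith only [R.h2, R.x0])
  have e7 := R.lo13 (585 / 1000) (by norm_num)
  have e8 := R.lo8 (495 / 1000) (by norm_num)
  have e9 := R.lo10 (378 / 1000) (by norm_num)
  have e10 := R.lo13 (598 / 1000) (by norm_num)
  have e11 := R.lo16 (550 / 1000) (by norm_num)
  unfold fBoxMA13
  linarith only [R.k2, R.h2, R.x0, R.n1e, R.o1y, R.n2e, R.o2y, R.n3x, R.o3h, R.n4e, R.o4y, e1, e2, e3, e4, e5, e6, e7, e8, e9, e10, e11]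

theorem ma13_11 {s y b k M1 M2 M3 M4 G1 G2 G3 G4 : ℝ} (R : RgA13 s y b k M1 M2 M3 M4 G1 G2 G3 G4)
    (s1 : 3 / 5 ≤ s) (s2 : s ≤ 127 / 200) (y1 : 17 / 20 ≤ y) (y2 : y ≤ 8661 / 10000)
    (b1 : 63 / 1000 ≤ b) (b2 : b ≤ 1 / 8) :
    0 ≤ fBoxMA13 s y b k M1 M2 M3 M4 G1 G2 G3 G4 := by
  have e1 := up (t1 := (580 / 1000)) (t2 := (600 / 1000)) (x := 2 * h0 - y) (by norm_num)
    (by linarith only [R.h1, R.x0]) (by linarith only [R.h2, y1])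
  have e2 := up (t1 := (31 / 1000)) (t2 := (63 / 1000)) (x := b) (by norm_num)
    (by linarith only [b1]) (by linarith only [b2])
  have e3 := up (t1 := (334 / 1000)) (t2 := (371 / 1000)) (x := h0 + s - y) (by norm_num)
    (by linarith only [R.x0, s1]) (by linarith only [R.h2, s2, y1])
  have e4 := R.lo8 (453 / 1000) (by norm_num)
  have e5 := up (t1 := (438 / 1000)) (t2 := (485 / 1000)) (x := s + 1 - y) (by norm_num)
    (by linarith only [R.h2, R.x0, s1]) (by linarith only [s2, y1])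
  have e6 := R.lo10 (346 / 1000) (by norm_num)
  have e7 := R.lo10 (358 / 1000) (by norm_num)
  have e8 := up (t1 := (556 / 1000)) (t2 := (575 / 1000)) (x := y) (by norm_num)
    (by linarith only [y1]) (by linarith only [R.h2, R.x0])
  have e9 := R.lo13 (626 / 1000) (by norm_num)
  have e10 := R.lo16 (506 / 1000) (by norm_num)
  unfold fBoxMA13
  linarith only [R.k2, R.h2, R.h3, R.x0, R.n1x, R.n1e, R.o1y, R.n2e, R.o2y, R.n3x, R.o3h, R.n4e, R.o4y, e1, e2, e3, e4, e5, e6, e7, e8, e9, e10]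

theorem ma13_12 {s y b k M1 M2 M3 M4 G1 G2 G3 G4 : ℝ} (R : RgA13 s y b k M1 M2 M3 M4 G1 G2 G3 G4)
    (s1 : 127 / 200 ≤ s) (s2 : s ≤ 67 / 100) (y1 : 17 / 20 ≤ y) (y2 : y ≤ 8661 / 10000)
    (b1 : 63 / 1000 ≤ b) (b2 : b ≤ 1 / 8) :
    0 ≤ fBoxMA13 s y b k M1 M2 M3 M4 G1 G2 G3 G4 := by
  have e1 := up (t1 := (580 / 1000)) (t2 := (600 / 1000)) (x := 2 * h0 - y) (by norm_num)
    (by linarith only [R.h1, R.x0]) (by linarith only [R.h2, y1])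
  have e2 := up (t1 := (31 / 1000)) (t2 := (63 / 1000)) (x := b) (by norm_num)
    (by linarith only [b1]) (by linarith only [b2])
  have e3 := up (t1 := (359 / 1000)) (t2 := (398 / 1000)) (x := h0 + s - y) (by norm_num)
    (by linarith only [R.x0, s1]) (by linarith only [R.h2, s2, y1])
  have e4 := R.lo10 (385 / 1000) (by norm_num)
  have e5 := up (t1 := (556 / 1000)) (t2 := (575 / 1000)) (x := y) (by norm_num)
    (by linarith only [y1]) (by linarith only [R.h2, R.x0])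
  have e6 := R.lo16 (506 / 1000) (by norm_num)
  have e7 := R.lo10 (378 / 1000) (by norm_num)
  have e8 := R.lo13 (631 / 1000) (by norm_num)
  have e9 := R.lo16 (520 / 1000) (by norm_num)
  unfold fBoxMA13
  linarith only [R.k2, R.h2, R.h3, R.x0, R.n1x, R.o1y, R.n2e, R.o2y, R.n3x, R.o3h, R.n4e, R.o4y, e1, e2, e3, e4, e5, e6, e7, e8, e9]

theorem ma13_14 {s y b k M1 M2 M3 M4 G1 G2 G3 G4 : ℝ} (R : RgA13 s y b k M1 M2 M3 M4 G1 G2 G3 G4)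
    (s1 : 3 / 5 ≤ s) (s2 : s ≤ 67 / 100) (y1 : 833 / 1000 ≤ y) (y2 : y ≤ 17 / 20)
    (b1 : 1 / 8 ≤ b) (b2 : b ≤ 1 / 4) :
    0 ≤ fBoxMA13 s y b k M1 M2 M3 M4 G1 G2 G3 G4 := by
  have e1 := up (t1 := (62 / 1000)) (t2 := (128 / 1000)) (x := b) (by norm_num)
    (by linarith only [b1]) (by linarith only [b2])
  have e2 := up (t1 := (344 / 1000)) (t2 := (411 / 1000)) (x := h0 + s - y) (by norm_num)
    (by linarith only [R.h1, s1, y2]) (by linarith only [R.h2, s2, y1])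
  have e3 := R.lo10 (358 / 1000) (by norm_num)
  have e4 := R.lo10 (385 / 1000) (by norm_num)
  have e5 := up (t1 := (536 / 1000)) (t2 := (557 / 1000)) (x := y) (by norm_num)
    (by linarith only [y1]) (by linarith only [y2])
  have e6 := R.lo13 (657 / 1000) (by norm_num)
  have e7 := R.lo13 (718 / 1000) (by norm_num)
  have e8 := R.lo16 (434 / 1000) (by norm_num)
  unfold fBoxMA13
  linarith only [R.k2, R.h2, R.h3, R.n1x, R.o1y, R.n2h, R.o2y, R.n3x, R.o3h, R.n4e, R.o4y, y2, e1, e2, e3, e4, e5, e6, e7, e8]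

theorem ma13_17 {s y b k M1 M2 M3 M4 G1 G2 G3 G4 : ℝ} (R : RgA13 s y b k M1 M2 M3 M4 G1 G2 G3 G4)
    (s1 : 3 / 5 ≤ s) (s2 : s ≤ 127 / 200) (y1 : 17 / 20 ≤ y) (y2 : y ≤ 8661 / 10000)
    (b1 : 1 / 8 ≤ b) (b2 : b ≤ 47 / 250) :
    0 ≤ fBoxMA13 s y b k M1 M2 M3 M4 G1 G2 G3 G4 := by
  have e1 := up (t1 := (580 / 1000)) (t2 := (600 / 1000)) (x := 2 * h0 - y) (by norm_num)
    (by linarith only [R.h1, R.x0]) (by linarith only [R.h2, y1])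
  have e2 := up (t1 := (62 / 1000)) (t2 := (95 / 1000)) (x := b) (by norm_num)
    (by linarith only [b1]) (by linarith only [b2])
  have e3 := up (t1 := (334 / 1000)) (t2 := (371 / 1000)) (x := h0 + s - y) (by norm_num)
    (by linarith only [R.x0, s1]) (by linarith only [R.h2, s2, y1])
  have e4 := R.lo10 (346 / 1000) (by norm_num)
  have e5 := R.lo10 (358 / 1000) (by norm_num)
  have e6 := up (t1 := (556 / 1000)) (t2 := (575 / 1000)) (x := y) (by norm_num)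
    (by linarith only [y1]) (by linarith only [R.h2, R.x0])
  have e7 := R.lo13 (669 / 1000) (by norm_num)
  have e8 := R.lo16 (468 / 1000) (by norm_num)
  unfold fBoxMA13
  linarith only [R.k2, R.h2, R.h3, R.x0, R.n1x, R.o1y, R.n2h, R.n2e, R.o2y, R.n3x, R.o3h, R.n4e, R.o4y, e1, e2, e3, e4, e5, e6, e7, e8]

theorem ma13_18 {s y b k M1 M2 M3 M4 G1 G2 G3 G4 : ℝ} (R : RgA13 s y b k M1 M2 M3 M4 G1 G2 G3 G4)
    (s1 : 127 / 200 ≤ s) (s2 : s ≤ 67 / 100) (y1 : 17 / 20 ≤ y) (y2 : y ≤ 8661 / 10000)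
    (b1 : 1 / 8 ≤ b) (b2 : b ≤ 47 / 250) :
    0 ≤ fBoxMA13 s y b k M1 M2 M3 M4 G1 G2 G3 G4 := by
  have e1 := up (t1 := (62 / 1000)) (t2 := (95 / 1000)) (x := b) (by norm_num)
    (by linarith only [b1]) (by linarith only [b2])
  have e2 := up (t1 := (359 / 1000)) (t2 := (398 / 1000)) (x := h0 + s - y) (by norm_num)
    (by linarith only [R.x0, s1]) (by linarith only [R.h2, s2, y1])
  have e3 := R.lo10 (385 / 1000) (by norm_num)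
  have e4 := up (t1 := (556 / 1000)) (t2 := (575 / 1000)) (x := y) (by norm_num)
    (by linarith only [y1]) (by linarith only [R.h2, R.x0])
  have e5 := R.lo16 (468 / 1000) (by norm_num)
  have e6 := R.lo10 (378 / 1000) (by norm_num)
  have e7 := R.lo13 (679 / 1000) (by norm_num)
  have e8 := R.lo16 (477 / 1000) (by norm_num)
  unfold fBoxMA13
  linarith only [R.k2, R.h2, R.h3, R.x0, R.n1x, R.o1y, R.n2h, R.o2y, R.n3x, R.o3h, R.n4e, R.o4y, e1, e2, e3, e4, e5, e6, e7, e8]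

theorem ma13_20 {s y b k M1 M2 M3 M4 G1 G2 G3 G4 : ℝ} (R : RgA13 s y b k M1 M2 M3 M4 G1 G2 G3 G4)
    (s1 : 3 / 5 ≤ s) (s2 : s ≤ 127 / 200) (y1 : 17 / 20 ≤ y) (y2 : y ≤ 8661 / 10000)
    (b1 : 47 / 250 ≤ b) (b2 : b ≤ 1 / 4) :
    0 ≤ fBoxMA13 s y b k M1 M2 M3 M4 G1 G2 G3 G4 := by
  have e1 := up (t1 := (94 / 1000)) (t2 := (128 / 1000)) (x := b) (by norm_num)
    (by linarith only [b1]) (by linarith only [b2])
  have e2 := up (t1 := (334 / 1000)) (t2 := (371 / 1000)) (x := h0 + s - y) (by norm_num)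
    (by linarith only [R.x0, s1]) (by linarith only [R.h2, s2, y1])
  have e3 := R.lo10 (358 / 1000) (by norm_num)
  have e4 := up (t1 := (556 / 1000)) (t2 := (575 / 1000)) (x := y) (by norm_num)
    (by linarith only [y1]) (by linarith only [R.h2, R.x0])
  have e5 := R.lo13 (712 / 1000) (by norm_num)
  have e6 := R.lo10 (352 / 1000) (by norm_num)
  have e7 := R.lo13 (734 / 1000) (by norm_num)
  have e8 := R.lo16 (433 / 1000) (by norm_num)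
  unfold fBoxMA13
  linarith only [R.k2, R.h2, R.h3, R.x0, R.n1x, R.o1y, R.n2h, R.o2y, R.n3x, R.o3h, R.n4e, R.o4y, e1, e2, e3, e4, e5, e6, e7, e8]

theorem ma13_21 {s y b k M1 M2 M3 M4 G1 G2 G3 G4 : ℝ} (R : RgA13 s y b k M1 M2 M3 M4 G1 G2 G3 G4)
    (s1 : 127 / 200 ≤ s) (s2 : s ≤ 67 / 100) (y1 : 17 / 20 ≤ y) (y2 : y ≤ 8661 / 10000)
    (b1 : 47 / 250 ≤ b) (b2 : b ≤ 1 / 4) :
    0 ≤ fBoxMA13 s y b k M1 M2 M3 M4 G1 G2 G3 G4 := by
  have e1 := up (t1 := (94 / 1000)) (t2 := (128 / 1000)) (x := b) (by norm_num)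
    (by linarith only [b1]) (by linarith only [b2])
  have e2 := up (t1 := (359 / 1000)) (t2 := (398 / 1000)) (x := h0 + s - y) (by norm_num)
    (by linarith only [R.x0, s1]) (by linarith only [R.h2, s2, y1])
  have e3 := up (t1 := (556 / 1000)) (t2 := (575 / 1000)) (x := y) (by norm_num)
    (by linarith only [y1]) (by linarith only [R.h2, R.x0])
  have e4 := R.lo10 (378 / 1000) (by norm_num)
  have e5 := R.lo16 (433 / 1000) (by norm_num)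
  have e6 := R.lo10 (380 / 1000) (by norm_num)
  have e7 := R.lo13 (729 / 1000) (by norm_num)
  have e8 := R.lo16 (437 / 1000) (by norm_num)
  unfold fBoxMA13
  linarith only [R.k2, R.h2, R.h3, R.x0, R.n1x, R.o1y, R.n2h, R.o2y, R.n3x, R.o3h, R.n4e, R.o4y, e1, e2, e3, e4, e5, e6, e7, e8]

theorem ma13_24 {s y b k M1 M2 M3 M4 G1 G2 G3 G4 : ℝ} (R : RgA13 s y b k M1 M2 M3 M4 G1 G2 G3 G4)
    (s1 : 3 / 5 ≤ s) (s2 : s ≤ 67 / 100) (y1 : 4 / 5 ≤ y) (y2 : y ≤ 833 / 1000)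
    (b1 : 1 / 4 ≤ b) (b2 : b ≤ 3 / 8) :
    0 ≤ fBoxMA13 s y b k M1 M2 M3 M4 G1 G2 G3 G4 := by
  have e1 := up (t1 := (67 / 1000)) (t2 := (68 / 1000)) (x := 1 - h0) (by norm_num)
    (by linarith only [R.h2]) (by linarith only [R.h1])
  have e2 := up (t1 := (127 / 1000)) (t2 := (195 / 1000)) (x := b) (by norm_num)
    (by linarith only [b1]) (by linarith only [b2])
  have e3 := up (t1 := (356 / 1000)) (t2 := (439 / 1000)) (x := h0 + s - y) (by norm_num)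
    (by linarith only [R.h1, s1, y2]) (by linarith only [R.h2, s2, y1])
  have e4 := R.lo10 (358 / 1000) (by norm_num)
  have e5 := up (t1 := (500 / 1000)) (t2 := (537 / 1000)) (x := y) (by norm_num)
    (by linarith only [y1]) (by linarith only [y2])
  have e6 := R.lo13 (675 / 1000) (by norm_num)
  have e7 := R.lo14 (57 / 1000) (by norm_num)
  have e8 := R.lo16 (344 / 1000) (by norm_num)
  have e9 := R.lo16 (393 / 1000) (by norm_num)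
  unfold fBoxMA13
  linarith only [R.k2, R.h2, R.h3, R.n1x, R.o1y, R.n2h, R.o2y, R.n3x, R.o3h, R.n4x, R.n4e, R.o4y, y2, e1, e2, e3, e4, e5, e6, e7, e8, e9]

theorem ma13_26 {s y b k M1 M2 M3 M4 G1 G2 G3 G4 : ℝ} (R : RgA13 s y b k M1 M2 M3 M4 G1 G2 G3 G4)
    (s1 : 3 / 5 ≤ s) (s2 : s ≤ 67 / 100) (y1 : 833 / 1000 ≤ y) (y2 : y ≤ 17 / 20)
    (b1 : 1 / 4 ≤ b) (b2 : b ≤ 3 / 8) :
    0 ≤ fBoxMA13 s y b k M1 M2 M3 M4 G1 G2 G3 G4 := by
  have e1 := up (t1 := (67 / 1000)) (t2 := (68 / 1000)) (x := 1 - h0) (by norm_num)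
    (by linarith only [R.h2]) (by linarith only [R.h1])
  have e2 := up (t1 := (127 / 1000)) (t2 := (195 / 1000)) (x := b) (by norm_num)
    (by linarith only [b1]) (by linarith only [b2])
  have e3 := up (t1 := (344 / 1000)) (t2 := (411 / 1000)) (x := h0 + s - y) (by norm_num)
    (by linarith only [R.h1, s1, y2]) (by linarith only [R.h2, s2, y1])
  have e4 := R.lo10 (358 / 1000) (by norm_num)
  have e5 := up (t1 := (536 / 1000)) (t2 := (557 / 1000)) (x := y) (by norm_num)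
    (by linarith only [y1]) (by linarith only [y2])
  have e6 := R.lo13 (730 / 1000) (by norm_num)
  have e7 := R.lo13 (795 / 1000) (by norm_num)
  have e8 := R.lo14 (70 / 1000) (by norm_num)
  have e9 := R.lo16 (362 / 1000) (by norm_num)
  unfold fBoxMA13
  linarith only [R.k2, R.h2, R.h3, R.n1x, R.o1y, R.n2h, R.o2y, R.n3x, R.o3h, R.n4x, R.n4e, R.o4y, y2, e1, e2, e3, e4, e5, e6, e7, e8, e9]

theorem ma13_30 {s y b k M1 M2 M3 M4 G1 G2 G3 G4 : ℝ} (R : RgA13 s y b k M1 M2 M3 M4 G1 G2 G3 G4)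
    (s1 : 3 / 5 ≤ s) (s2 : s ≤ 309 / 500) (y1 : 17 / 20 ≤ y) (y2 : y ≤ 8661 / 10000)
    (b1 : 1 / 4 ≤ b) (b2 : b ≤ 313 / 1000) :
    0 ≤ fBoxMA13 s y b k M1 M2 M3 M4 G1 G2 G3 G4 := by
  have e1 := up (t1 := (127 / 1000)) (t2 := (161 / 1000)) (x := b) (by norm_num)
    (by linarith only [b1]) (by linarith only [b2])
  have e2 := up (t1 := (334 / 1000)) (t2 := (358 / 1000)) (x := h0 + s - y) (by norm_num)
    (by linarith only [R.x0, s1]) (by linarith only [R.h2, s2, y1])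
  have e3 := R.lo8 (453 / 1000) (by norm_num)
  have e4 := up (t1 := (438 / 1000)) (t2 := (469 / 1000)) (x := s + 1 - y) (by norm_num)
    (by linarith only [R.h2, R.x0, s1]) (by linarith only [s2, y1])
  have e5 := R.lo10 (346 / 1000) (by norm_num)
  have e6 := up (t1 := (556 / 1000)) (t2 := (575 / 1000)) (x := y) (by norm_num)
    (by linarith only [y1]) (by linarith only [R.h2, R.x0])
  have e7 := R.lo13 (782 / 1000) (by norm_num)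
  have e8 := R.lo16 (396 / 1000) (by norm_num)
  unfold fBoxMA13
  linarith only [R.k2, R.h2, R.h3, R.x0, R.n1x, R.n1e, R.o1y, R.n2h, R.o2y, R.n3x, R.o3h, R.n4e, R.o4y, s2, e1, e2, e3, e4, e5, e6, e7, e8]

theorem ma13_31 {s y b k M1 M2 M3 M4 G1 G2 G3 G4 : ℝ} (R : RgA13 s y b k M1 M2 M3 M4 G1 G2 G3 G4)
    (s1 : 309 / 500 ≤ s) (s2 : s ≤ 127 / 200) (y1 : 17 / 20 ≤ y) (y2 : y ≤ 8661 / 10000)
    (b1 : 1 / 4 ≤ b) (b2 : b ≤ 313 / 1000) :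
    0 ≤ fBoxMA13 s y b k M1 M2 M3 M4 G1 G2 G3 G4 := by
  have e1 := up (t1 := (127 / 1000)) (t2 := (161 / 1000)) (x := b) (by norm_num)
    (by linarith only [b1]) (by linarith only [b2])
  have e2 := up (t1 := (347 / 1000)) (t2 := (371 / 1000)) (x := h0 + s - y) (by norm_num)
    (by linarith only [R.x0, s1]) (by linarith only [R.h2, s2, y1])
  have e3 := R.lo10 (358 / 1000) (by norm_num)
  have e4 := up (t1 := (556 / 1000)) (t2 := (575 / 1000)) (x := y) (by norm_num)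
    (by linarith only [y1]) (by linarith only [R.h2, R.x0])
  have e5 := R.lo13 (756 / 1000) (by norm_num)
  have e6 := R.lo13 (782 / 1000) (by norm_num)
  have e7 := R.lo16 (396 / 1000) (by norm_num)
  unfold fBoxMA13
  linarith only [R.k2, R.h2, R.h3, R.x0, R.n1x, R.o1y, R.n2h, R.o2y, R.n3x, R.o3h, R.n4e, R.o4y, s2, e1, e2, e3, e4, e5, e6, e7]

theorem ma13_33 {s y b k M1 M2 M3 M4 G1 G2 G3 G4 : ℝ} (R : RgA13 s y b k M1 M2 M3 M4 G1 G2 G3 G4)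
    (s1 : 127 / 200 ≤ s) (s2 : s ≤ 653 / 1000) (y1 : 17 / 20 ≤ y) (y2 : y ≤ 8661 / 10000)
    (b1 : 1 / 4 ≤ b) (b2 : b ≤ 313 / 1000) :
    0 ≤ fBoxMA13 s y b k M1 M2 M3 M4 G1 G2 G3 G4 := by
  have e1 := up (t1 := (127 / 1000)) (t2 := (161 / 1000)) (x := b) (by norm_num)
    (by linarith only [b1]) (by linarith only [b2])
  have e2 := up (t1 := (359 / 1000)) (t2 := (384 / 1000)) (x := h0 + s - y) (by norm_num)
    (by linarith only [R.x0, s1]) (by linarith only [R.h2, s2, y1])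
  have e3 := R.lo10 (372 / 1000) (by norm_num)
  have e4 := up (t1 := (556 / 1000)) (t2 := (575 / 1000)) (x := y) (by norm_num)
    (by linarith only [y1]) (by linarith only [R.h2, R.x0])
  have e5 := R.lo13 (756 / 1000) (by norm_num)
  have e6 := R.lo10 (369 / 1000) (by norm_num)
  have e7 := R.lo13 (782 / 1000) (by norm_num)
  have e8 := R.lo16 (396 / 1000) (by norm_num)
  unfold fBoxMA13
  linarith only [R.k2, R.h2, R.h3, R.x0, R.n1x, R.o1y, R.n2h, R.o2y, R.n3x, R.o3h, R.n4e, R.o4y, e1, e2, e3, e4, e5, e6, e7, e8]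

theorem ma13_34 {s y b k M1 M2 M3 M4 G1 G2 G3 G4 : ℝ} (R : RgA13 s y b k M1 M2 M3 M4 G1 G2 G3 G4)
    (s1 : 653 / 1000 ≤ s) (s2 : s ≤ 67 / 100) (y1 : 17 / 20 ≤ y) (y2 : y ≤ 8661 / 10000)
    (b1 : 1 / 4 ≤ b) (b2 : b ≤ 313 / 1000) :
    0 ≤ fBoxMA13 s y b k M1 M2 M3 M4 G1 G2 G3 G4 := by
  have e1 := up (t1 := (127 / 1000)) (t2 := (161 / 1000)) (x := b) (by norm_num)
    (by linarith only [b1]) (by linarith only [b2])
  have e2 := up (t1 := (373 / 1000)) (t2 := (398 / 1000)) (x := h0 + s - y) (by norm_num)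
    (by linarith only [R.x0, s1]) (by linarith only [R.h2, s2, y1])
  have e3 := R.lo10 (385 / 1000) (by norm_num)
  have e4 := up (t1 := (556 / 1000)) (t2 := (575 / 1000)) (x := y) (by norm_num)
    (by linarith only [y1]) (by linarith only [R.h2, R.x0])
  have e5 := R.lo13 (756 / 1000) (by norm_num)
  have e6 := R.lo13 (782 / 1000) (by norm_num)
  have e7 := R.lo16 (396 / 1000) (by norm_num)
  unfold fBoxMA13
  linarith only [R.k2, R.h2, R.h3, R.x0, R.n1x, R.o1y, R.n2h, R.o2y, R.n3x, R.o3h, R.n4e, R.o4y, s2, e1, e2, e3, e4, e5, e6, e7]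

theorem ma13_37 {s y b k M1 M2 M3 M4 G1 G2 G3 G4 : ℝ} (R : RgA13 s y b k M1 M2 M3 M4 G1 G2 G3 G4)
    (s1 : 3 / 5 ≤ s) (s2 : s ≤ 127 / 200) (y1 : 17 / 20 ≤ y) (y2 : y ≤ 8661 / 10000)
    (b1 : 313 / 1000 ≤ b) (b2 : b ≤ 43 / 125) :
    0 ≤ fBoxMA13 s y b k M1 M2 M3 M4 G1 G2 G3 G4 := by
  have e1 := up (t1 := (160 / 1000)) (t2 := (178 / 1000)) (x := b) (by norm_num)
    (by linarith only [b1]) (by linarith only [b2])
  have e2 := up (t1 := (334 / 1000)) (t2 := (371 / 1000)) (x := h0 + s - y) (by norm_num)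
    (by linarith only [R.x0, s1]) (by linarith only [R.h2, s2, y1])
  have e3 := R.lo10 (346 / 1000) (by norm_num)
  have e4 := R.lo10 (358 / 1000) (by norm_num)
  have e5 := up (t1 := (556 / 1000)) (t2 := (575 / 1000)) (x := y) (by norm_num)
    (by linarith only [y1]) (by linarith only [R.h2, R.x0])
  have e6 := R.lo13 (831 / 1000) (by norm_num)
  have e7 := R.lo16 (365 / 1000) (by norm_num)
  have e8 := R.lo16 (380 / 1000) (by norm_num)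
  unfold fBoxMA13
  linarith only [R.k2, R.h2, R.h3, R.x0, R.n1x, R.o1y, R.n2h, R.o2y, R.n3x, R.o3h, R.n4e, R.o4y, e1, e2, e3, e4, e5, e6, e7, e8]

theorem ma13_39 {s y b k M1 M2 M3 M4 G1 G2 G3 G4 : ℝ} (R : RgA13 s y b k M1 M2 M3 M4 G1 G2 G3 G4)
    (s1 : 3 / 5 ≤ s) (s2 : s ≤ 309 / 500) (y1 : 17 / 20 ≤ y) (y2 : y ≤ 8661 / 10000)
    (b1 : 43 / 125 ≤ b) (b2 : b ≤ 3 / 8) :
    0 ≤ fBoxMA13 s y b k M1 M2 M3 M4 G1 G2 G3 G4 := by
  have e1 := up (t1 := (177 / 1000)) (t2 := (195 / 1000)) (x := b) (by norm_num)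
    (by linarith only [b1]) (by linarith only [b2])
  have e2 := up (t1 := (334 / 1000)) (t2 := (358 / 1000)) (x := h0 + s - y) (by norm_num)
    (by linarith only [R.x0, s1]) (by linarith only [R.h2, s2, y1])
  have e3 := R.lo10 (340 / 1000) (by norm_num)
  have e4 := R.lo10 (346 / 1000) (by norm_num)
  have e5 := up (t1 := (556 / 1000)) (t2 := (575 / 1000)) (x := y) (by norm_num)
    (by linarith only [y1]) (by linarith only [R.h2, R.x0])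
  have e6 := R.lo13 (858 / 1000) (by norm_num)
  have e7 := R.lo16 (347 / 1000) (by norm_num)
  have e8 := R.lo16 (361 / 1000) (by norm_num)
  unfold fBoxMA13
  linarith only [R.k2, R.h2, R.h3, R.x0, R.n1x, R.o1y, R.n2h, R.o2y, R.n3x, R.o3h, R.n4e, R.o4y, e1, e2, e3, e4, e5, e6, e7, e8]

theorem ma13_40 {s y b k M1 M2 M3 M4 G1 G2 G3 G4 : ℝ} (R : RgA13 s y b k M1 M2 M3 M4 G1 G2 G3 G4)
    (s1 : 309 / 500 ≤ s) (s2 : s ≤ 127 / 200) (y1 : 17 / 20 ≤ y) (y2 : y ≤ 8661 / 10000)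
    (b1 : 43 / 125 ≤ b) (b2 : b ≤ 3 / 8) :
    0 ≤ fBoxMA13 s y b k M1 M2 M3 M4 G1 G2 G3 G4 := by
  have e1 := up (t1 := (67 / 1000)) (t2 := (68 / 1000)) (x := 1 - h0) (by norm_num)
    (by linarith only [R.h2]) (by linarith only [R.h1])
  have e2 := up (t1 := (177 / 1000)) (t2 := (195 / 1000)) (x := b) (by norm_num)
    (by linarith only [b1]) (by linarith only [b2])
  have e3 := up (t1 := (347 / 1000)) (t2 := (371 / 1000)) (x := h0 + s - y) (by norm_num)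
    (by linarith only [R.x0, s1]) (by linarith only [R.h2, s2, y1])
  have e4 := R.lo10 (352 / 1000) (by norm_num)
  have e5 := R.lo10 (346 / 1000) (by norm_num)
  have e6 := up (t1 := (556 / 1000)) (t2 := (575 / 1000)) (x := y) (by norm_num)
    (by linarith only [y1]) (by linarith only [R.h2, R.x0])
  have e7 := R.lo16 (347 / 1000) (by norm_num)
  have e8 := R.lo13 (839 / 1000) (by norm_num)
  have e9 := R.lo14 (67 / 1000) (by norm_num)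
  unfold fBoxMA13
  linarith only [R.k2, R.h2, R.h3, R.x0, R.n1x, R.o1y, R.n2h, R.o2y, R.n3x, R.o3h, R.n4x, R.n4e, R.o4y, e1, e2, e3, e4, e5, e6, e7, e8, e9]

theorem ma13_42 {s y b k M1 M2 M3 M4 G1 G2 G3 G4 : ℝ} (R : RgA13 s y b k M1 M2 M3 M4 G1 G2 G3 G4)
    (s1 : 127 / 200 ≤ s) (s2 : s ≤ 67 / 100) (y1 : 17 / 20 ≤ y) (y2 : y ≤ 8661 / 10000)
    (b1 : 313 / 1000 ≤ b) (b2 : b ≤ 43 / 125) :
    0 ≤ fBoxMA13 s y b k M1 M2 M3 M4 G1 G2 G3 G4 := by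
  have e1 := up (t1 := (67 / 1000)) (t2 := (68 / 1000)) (x := 1 - h0) (by norm_num)
    (by linarith only [R.h2]) (by linarith only [R.h1])
  have e2 := up (t1 := (160 / 1000)) (t2 := (178 / 1000)) (x := b) (by norm_num)
    (by linarith only [b1]) (by linarith only [b2])
  have e3 := up (t1 := (359 / 1000)) (t2 := (398 / 1000)) (x := h0 + s - y) (by norm_num)
    (by linarith only [R.x0, s1]) (by linarith only [R.h2, s2, y1])
  have e4 := R.lo10 (371 / 1000) (by norm_num)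
  have e5 := up (t1 := (556 / 1000)) (t2 := (575 / 1000)) (x := y) (by norm_num)
    (by linarith only [y1]) (by linarith only [R.h2, R.x0])
  have e6 := R.lo16 (365 / 1000) (by norm_num)
  have e7 := R.lo13 (812 / 1000) (by norm_num)
  have e8 := R.lo14 (68 / 1000) (by norm_num)
  have e9 := R.lo16 (375 / 1000) (by norm_num)
  unfold fBoxMA13
  linarith only [R.k2, R.h2, R.h3, R.x0, R.n1x, R.o1y, R.n2h, R.o2y, R.n3x, R.o3h, R.n4x, R.n4e, R.o4y, e1, e2, e3, e4, e5, e6, e7, e8, e9]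

theorem ma13_43 {s y b k M1 M2 M3 M4 G1 G2 G3 G4 : ℝ} (R : RgA13 s y b k M1 M2 M3 M4 G1 G2 G3 G4)
    (s1 : 127 / 200 ≤ s) (s2 : s ≤ 67 / 100) (y1 : 17 / 20 ≤ y) (y2 : y ≤ 8661 / 10000)
    (b1 : 43 / 125 ≤ b) (b2 : b ≤ 3 / 8) :
    0 ≤ fBoxMA13 s y b k M1 M2 M3 M4 G1 G2 G3 G4 := by
  have e1 := up (t1 := (67 / 1000)) (t2 := (68 / 1000)) (x := 1 - h0) (by norm_num)
    (by linarith only [R.h2]) (by linarith only [R.h1])
  have e2 := up (t1 := (177 / 1000)) (t2 := (195 / 1000)) (x := b) (by norm_num)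
    (by linarith only [b1]) (by linarith only [b2])
  have e3 := up (t1 := (359 / 1000)) (t2 := (398 / 1000)) (x := h0 + s - y) (by norm_num)
    (by linarith only [R.x0, s1]) (by linarith only [R.h2, s2, y1])
  have e4 := R.lo10 (358 / 1000) (by norm_num)
  have e5 := up (t1 := (556 / 1000)) (t2 := (575 / 1000)) (x := y) (by norm_num)
    (by linarith only [y1]) (by linarith only [R.h2, R.x0])
  have e6 := R.lo13 (812 / 1000) (by norm_num)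
  have e7 := R.lo14 (69 / 1000) (by norm_num)
  have e8 := R.lo16 (361 / 1000) (by norm_num)
  unfold fBoxMA13
  linarith only [R.k2, R.h2, R.h3, R.x0, R.n1x, R.o1y, R.n2h, R.o2y, R.n3x, R.o3h, R.n4x, R.n4e, R.o4y, s1, e1, e2, e3, e4, e5, e6, e7, e8]

theorem ma13_46 {s y b k M1 M2 M3 M4 G1 G2 G3 G4 : ℝ} (R : RgA13 s y b k M1 M2 M3 M4 G1 G2 G3 G4)
    (s1 : 3 / 5 ≤ s) (s2 : s ≤ 67 / 100) (y1 : 4 / 5 ≤ y) (y2 : y ≤ 833 / 1000)
    (b1 : 3 / 8 ≤ b) (b2 : b ≤ 219 / 500) :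
    0 ≤ fBoxMA13 s y b k M1 M2 M3 M4 G1 G2 G3 G4 := by
  have e1 := up (t1 := (67 / 1000)) (t2 := (68 / 1000)) (x := 1 - h0) (by norm_num)
    (by linarith only [R.h2]) (by linarith only [R.h1])
  have e2 := up (t1 := (194 / 1000)) (t2 := (231 / 1000)) (x := b) (by norm_num)
    (by linarith only [b1]) (by linarith only [b2])
  have e3 := up (t1 := (356 / 1000)) (t2 := (439 / 1000)) (x := h0 + s - y) (by norm_num)
    (by linarith only [R.h1, s1, y2]) (by linarith only [R.h2, s2, y1])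
  have e4 := R.lo10 (333 / 1000) (by norm_num)
  have e5 := up (t1 := (500 / 1000)) (t2 := (537 / 1000)) (x := y) (by norm_num)
    (by linarith only [y1]) (by linarith only [y2])
  have e6 := R.lo13 (763 / 1000) (by norm_num)
  have e7 := R.lo14 (58 / 1000) (by norm_num)
  have e8 := R.lo16 (292 / 1000) (by norm_num)
  have e9 := R.lo16 (321 / 1000) (by norm_num)
  unfold fBoxMA13
  linarith only [R.k2, R.h2, R.h3, R.n1x, R.o1y, R.n2h, R.o2y, R.n3x, R.o3h, R.n4x, R.o4y, s1, y2, e1, e2, e3, e4, e5, e6, e7, e8, e9]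

theorem ma13_49 {s y b k M1 M2 M3 M4 G1 G2 G3 G4 : ℝ} (R : RgA13 s y b k M1 M2 M3 M4 G1 G2 G3 G4)
    (s1 : 3 / 5 ≤ s) (s2 : s ≤ 67 / 100) (y1 : 833 / 1000 ≤ y) (y2 : y ≤ 17 / 20)
    (b1 : 3 / 8 ≤ b) (b2 : b ≤ 407 / 1000) :
    0 ≤ fBoxMA13 s y b k M1 M2 M3 M4 G1 G2 G3 G4 := by
  have e1 := up (t1 := (67 / 1000)) (t2 := (68 / 1000)) (x := 1 - h0) (by norm_num)
    (by linarith only [R.h2]) (by linarith only [R.h1])
  have e2 := up (t1 := (194 / 1000)) (t2 := (213 / 1000)) (x := b) (by norm_num)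
    (by linarith only [b1]) (by linarith only [b2])
  have e3 := up (t1 := (344 / 1000)) (t2 := (411 / 1000)) (x := h0 + s - y) (by norm_num)
    (by linarith only [R.h1, s1, y2]) (by linarith only [R.h2, s2, y1])
  have e4 := R.lo10 (333 / 1000) (by norm_num)
  have e5 := up (t1 := (536 / 1000)) (t2 := (557 / 1000)) (x := y) (by norm_num)
    (by linarith only [y1]) (by linarith only [y2])
  have e6 := R.lo13 (811 / 1000) (by norm_num)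
  have e7 := R.lo14 (67 / 1000) (by norm_num)
  have e8 := R.lo16 (333 / 1000) (by norm_num)
  unfold fBoxMA13
  linarith only [R.k2, R.h2, R.h3, R.n1x, R.o1y, R.n2h, R.o2y, R.n3x, R.o3h, R.n4x, R.o4y, s1, y2, b1, e1, e2, e3, e4, e5, e6, e7, e8]

theorem ma13_52 {s y b k M1 M2 M3 M4 G1 G2 G3 G4 : ℝ} (R : RgA13 s y b k M1 M2 M3 M4 G1 G2 G3 G4)
    (s1 : 3 / 5 ≤ s) (s2 : s ≤ 127 / 200) (y1 : 17 / 20 ≤ y) (y2 : y ≤ 8661 / 10000)
    (b1 : 3 / 8 ≤ b) (b2 : b ≤ 391 / 1000) :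
    0 ≤ fBoxMA13 s y b k M1 M2 M3 M4 G1 G2 G3 G4 := by
  have e1 := up (t1 := (67 / 1000)) (t2 := (68 / 1000)) (x := 1 - h0) (by norm_num)
    (by linarith only [R.h2]) (by linarith only [R.h1])
  have e2 := up (t1 := (194 / 1000)) (t2 := (204 / 1000)) (x := b) (by norm_num)
    (by linarith only [b1]) (by linarith only [b2])
  have e3 := up (t1 := (334 / 1000)) (t2 := (371 / 1000)) (x := h0 + s - y) (by norm_num)
    (by linarith only [R.x0, s1]) (by linarith only [R.h2, s2, y1])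
  have e4 := R.lo10 (333 / 1000) (by norm_num)
  have e5 := up (t1 := (556 / 1000)) (t2 := (575 / 1000)) (x := y) (by norm_num)
    (by linarith only [y1]) (by linarith only [R.h2, R.x0])
  have e6 := R.lo10 (340 / 1000) (by norm_num)
  have e7 := R.lo13 (861 / 1000) (by norm_num)
  have e8 := R.lo14 (68 / 1000) (by norm_num)
  have e9 := R.lo16 (340 / 1000) (by norm_num)
  unfold fBoxMA13
  linarith only [R.k2, R.h2, R.h3, R.x0, R.n1x, R.o1y, R.n2h, R.o2y, R.n3x, R.o3h, R.n4x, R.n4e, R.o4y, e1, e2, e3, e4, e5, e6, e7, e8, e9]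

theorem ma13_53 {s y b k M1 M2 M3 M4 G1 G2 G3 G4 : ℝ} (R : RgA13 s y b k M1 M2 M3 M4 G1 G2 G3 G4)
    (s1 : 3 / 5 ≤ s) (s2 : s ≤ 127 / 200) (y1 : 17 / 20 ≤ y) (y2 : y ≤ 8661 / 10000)
    (b1 : 391 / 1000 ≤ b) (b2 : b ≤ 407 / 1000) :
    0 ≤ fBoxMA13 s y b k M1 M2 M3 M4 G1 G2 G3 G4 := by
  have e1 := up (t1 := (67 / 1000)) (t2 := (68 / 1000)) (x := 1 - h0) (by norm_num)
    (by linarith only [R.h2]) (by linarith only [R.h1])
  have e2 := up (t1 := (203 / 1000)) (t2 := (213 / 1000)) (x := b) (by norm_num)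
    (by linarith only [b1]) (by linarith only [b2])
  have e3 := up (t1 := (334 / 1000)) (t2 := (371 / 1000)) (x := h0 + s - y) (by norm_num)
    (by linarith only [R.x0, s1]) (by linarith only [R.h2, s2, y1])
  have e4 := R.lo10 (333 / 1000) (by norm_num)
  have e5 := up (t1 := (556 / 1000)) (t2 := (575 / 1000)) (x := y) (by norm_num)
    (by linarith only [y1]) (by linarith only [R.h2, R.x0])
  have e6 := R.lo13 (885 / 1000) (by norm_num)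
  have e7 := R.lo14 (67 / 1000) (by norm_num)
  have e8 := R.lo16 (333 / 1000) (by norm_num)
  unfold fBoxMA13
  linarith only [R.k2, R.h2, R.h3, R.x0, R.n1x, R.o1y, R.n2h, R.o2y, R.n3x, R.o3h, R.n4x, R.o4y, s1, b1, e1, e2, e3, e4, e5, e6, e7, e8]

theorem ma13_54 {s y b k M1 M2 M3 M4 G1 G2 G3 G4 : ℝ} (R : RgA13 s y b k M1 M2 M3 M4 G1 G2 G3 G4)
    (s1 : 127 / 200 ≤ s) (s2 : s ≤ 67 / 100) (y1 : 17 / 20 ≤ y) (y2 : y ≤ 8661 / 10000)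
    (b1 : 3 / 8 ≤ b) (b2 : b ≤ 407 / 1000) :
    0 ≤ fBoxMA13 s y b k M1 M2 M3 M4 G1 G2 G3 G4 := by
  have e1 := up (t1 := (67 / 1000)) (t2 := (68 / 1000)) (x := 1 - h0) (by norm_num)
    (by linarith only [R.h2]) (by linarith only [R.h1])
  have e2 := up (t1 := (194 / 1000)) (t2 := (213 / 1000)) (x := b) (by norm_num)
    (by linarith only [b1]) (by linarith only [b2])
  have e3 := up (t1 := (359 / 1000)) (t2 := (398 / 1000)) (x := h0 + s - y) (by norm_num)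
    (by linarith only [R.x0, s1]) (by linarith only [R.h2, s2, y1])
  have e4 := R.lo10 (358 / 1000) (by norm_num)
  have e5 := up (t1 := (556 / 1000)) (t2 := (575 / 1000)) (x := y) (by norm_num)
    (by linarith only [y1]) (by linarith only [R.h2, R.x0])
  have e6 := R.lo13 (832 / 1000) (by norm_num)
  have e7 := R.lo14 (56 / 1000) (by norm_num)
  have e8 := R.lo16 (343 / 1000) (by norm_num)
  unfold fBoxMA13
  linarith only [R.k2, R.h2, R.h3, R.x0, R.n1x, R.o1y, R.n2h, R.o2y, R.n3x, R.o3h, R.n4x, R.o4y, s1, b1, e1, e2, e3, e4, e5, e6, e7, e8]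

theorem ma13_55 {s y b k M1 M2 M3 M4 G1 G2 G3 G4 : ℝ} (R : RgA13 s y b k M1 M2 M3 M4 G1 G2 G3 G4)
    (s1 : 3 / 5 ≤ s) (s2 : s ≤ 67 / 100) (y1 : 833 / 1000 ≤ y) (y2 : y ≤ 8661 / 10000)
    (b1 : 407 / 1000 ≤ b) (b2 : b ≤ 219 / 500) :
    0 ≤ fBoxMA13 s y b k M1 M2 M3 M4 G1 G2 G3 G4 := by
  have e1 := up (t1 := (67 / 1000)) (t2 := (68 / 1000)) (x := 1 - h0) (by norm_num)
    (by linarith only [R.h2]) (by linarith only [R.h1])
  have e2 := up (t1 := (212 / 1000)) (t2 := (231 / 1000)) (x := b) (by norm_num)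
    (by linarith only [b1]) (by linarith only [b2])
  have e3 := up (t1 := (334 / 1000)) (t2 := (411 / 1000)) (x := h0 + s - y) (by norm_num)
    (by linarith only [R.x0, s1]) (by linarith only [R.h2, s2, y1])
  have e4 := R.lo10 (333 / 1000) (by norm_num)
  have e5 := up (t1 := (536 / 1000)) (t2 := (575 / 1000)) (x := y) (by norm_num)
    (by linarith only [y1]) (by linarith only [R.h2, R.x0])
  have e6 := R.lo14 (60 / 1000) (by norm_num)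
  have e7 := R.lo16 (323 / 1000) (by norm_num)
  have e8 := R.lo13 (869 / 1000) (by norm_num)
  unfold fBoxMA13
  linarith only [R.k2, R.h2, R.h3, R.x0, R.n1x, R.o1y, R.n2h, R.o2y, R.n3x, R.o3h, R.n4x, R.o4y, s1, b1, e1, e2, e3, e4, e5, e6, e7, e8]

theorem ma13_57 {s y b k M1 M2 M3 M4 G1 G2 G3 G4 : ℝ} (R : RgA13 s y b k M1 M2 M3 M4 G1 G2 G3 G4)
    (s1 : 3 / 5 ≤ s) (s2 : s ≤ 67 / 100) (y1 : 4 / 5 ≤ y) (y2 : y ≤ 833 / 1000)
    (b1 : 219 / 500 ≤ b) (b2 : b ≤ 1 / 2) :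
    0 ≤ fBoxMA13 s y b k M1 M2 M3 M4 G1 G2 G3 G4 := by
  have e1 := up (t1 := (67 / 1000)) (t2 := (68 / 1000)) (x := 1 - h0) (by norm_num)
    (by linarith only [R.h2]) (by linarith only [R.h1])
  have e2 := up (t1 := (230 / 1000)) (t2 := (268 / 1000)) (x := b) (by norm_num)
    (by linarith only [b1]) (by linarith only [b2])
  have e3 := up (t1 := (356 / 1000)) (t2 := (439 / 1000)) (x := h0 + s - y) (by norm_num)
    (by linarith only [R.h1, s1, y2]) (by linarith only [R.h2, s2, y1])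
  have e4 := R.lo10 (333 / 1000) (by norm_num)
  have e5 := up (t1 := (500 / 1000)) (t2 := (537 / 1000)) (x := y) (by norm_num)
    (by linarith only [y1]) (by linarith only [y2])
  have e6 := R.lo13 (771 / 1000) (by norm_num)
  have e7 := R.lo14 (-10 / 1000) (by norm_num)
  have e8 := R.lo16 (256 / 1000) (by norm_num)
  unfold fBoxMA13
  linarith only [R.k2, R.h3, R.hq, R.n1x, R.o1y, R.n2h, R.o2y, R.n3x, R.o3h, R.n4x, R.o4y, s1, y2, b2, e1, e2, e3, e4, e5, e6, e7, e8]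

theorem ma13_58 {s y b k M1 M2 M3 M4 G1 G2 G3 G4 : ℝ} (R : RgA13 s y b k M1 M2 M3 M4 G1 G2 G3 G4)
    (s1 : 3 / 5 ≤ s) (s2 : s ≤ 67 / 100) (y1 : 833 / 1000 ≤ y) (y2 : y ≤ 8661 / 10000)
    (b1 : 219 / 500 ≤ b) (b2 : b ≤ 1 / 2) :
    0 ≤ fBoxMA13 s y b k M1 M2 M3 M4 G1 G2 G3 G4 := by
  have e1 := up (t1 := (67 / 1000)) (t2 := (68 / 1000)) (x := 1 - h0) (by norm_num)
    (by linarith only [R.h2]) (by linarith only [R.h1])
  have e2 := up (t1 := (230 / 1000)) (t2 := (268 / 1000)) (x := b) (by norm_num)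
    (by linarith only [b1]) (by linarith only [b2])
  have e3 := up (t1 := (334 / 1000)) (t2 := (411 / 1000)) (x := h0 + s - y) (by norm_num)
    (by linarith only [R.x0, s1]) (by linarith only [R.h2, s2, y1])
  have e4 := R.lo10 (333 / 1000) (by norm_num)
  have e5 := up (t1 := (536 / 1000)) (t2 := (575 / 1000)) (x := y) (by norm_num)
    (by linarith only [y1]) (by linarith only [R.h2, R.x0])
  have e6 := R.lo13 (895 / 1000) (by norm_num)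
  have e7 := R.lo16 (264 / 1000) (by norm_num)
  have e8 := R.lo13 (863 / 1000) (by norm_num)
  have e9 := R.lo14 (12 / 1000) (by norm_num)
  unfold fBoxMA13
  linarith only [R.k2, R.h2, R.h3, R.hq, R.n1x, R.o1y, R.n2h, R.o2y, R.n3x, R.o3h, R.n4x, R.o4y, s1, e1, e2, e3, e4, e5, e6, e7, e8, e9]

theorem ma13_56 {s y b k M1 M2 M3 M4 G1 G2 G3 G4 : ℝ} (R : RgA13 s y b k M1 M2 M3 M4 G1 G2 G3 G4)
    (s1 : 3 / 5 ≤ s) (s2 : s ≤ 67 / 100) (y1 : 4 / 5 ≤ y) (y2 : y ≤ 8661 / 10000)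
    (b1 : 219 / 500 ≤ b) (b2 : b ≤ 1 / 2) :
    0 ≤ fBoxMA13 s y b k M1 M2 M3 M4 G1 G2 G3 G4 := by
  rcases le_total y (833 / 1000) with h | h
  · exact ma13_57 R s1 s2 y1 h b1 b2
  · exact ma13_58 R s1 s2 h y2 b1 b2

theorem ma13_51 {s y b k M1 M2 M3 M4 G1 G2 G3 G4 : ℝ} (R : RgA13 s y b k M1 M2 M3 M4 G1 G2 G3 G4)
    (s1 : 3 / 5 ≤ s) (s2 : s ≤ 127 / 200) (y1 : 17 / 20 ≤ y) (y2 : y ≤ 8661 / 10000)
    (b1 : 3 / 8 ≤ b) (b2 : b ≤ 407 / 1000) :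
    0 ≤ fBoxMA13 s y b k M1 M2 M3 M4 G1 G2 G3 G4 := by
  rcases le_total b (391 / 1000) with h | h
  · exact ma13_52 R s1 s2 y1 y2 b1 h
  · exact ma13_53 R s1 s2 y1 y2 h b2

theorem ma13_50 {s y b k M1 M2 M3 M4 G1 G2 G3 G4 : ℝ} (R : RgA13 s y b k M1 M2 M3 M4 G1 G2 G3 G4)
    (s1 : 3 / 5 ≤ s) (s2 : s ≤ 67 / 100) (y1 : 17 / 20 ≤ y) (y2 : y ≤ 8661 / 10000)
    (b1 : 3 / 8 ≤ b) (b2 : b ≤ 407 / 1000) :
    0 ≤ fBoxMA13 s y b k M1 M2 M3 M4 G1 G2 G3 G4 := by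
  rcases le_total s (127 / 200) with h | h
  · exact ma13_51 R s1 h y1 y2 b1 b2
  · exact ma13_54 R h s2 y1 y2 b1 b2

theorem ma13_48 {s y b k M1 M2 M3 M4 G1 G2 G3 G4 : ℝ} (R : RgA13 s y b k M1 M2 M3 M4 G1 G2 G3 G4)
    (s1 : 3 / 5 ≤ s) (s2 : s ≤ 67 / 100) (y1 : 833 / 1000 ≤ y) (y2 : y ≤ 8661 / 10000)
    (b1 : 3 / 8 ≤ b) (b2 : b ≤ 407 / 1000) :
    0 ≤ fBoxMA13 s y b k M1 M2 M3 M4 G1 G2 G3 G4 := by
  rcases le_total y (17 / 20) with h | h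
  · exact ma13_49 R s1 s2 y1 h b1 b2
  · exact ma13_50 R s1 s2 h y2 b1 b2

theorem ma13_47 {s y b k M1 M2 M3 M4 G1 G2 G3 G4 : ℝ} (R : RgA13 s y b k M1 M2 M3 M4 G1 G2 G3 G4)
    (s1 : 3 / 5 ≤ s) (s2 : s ≤ 67 / 100) (y1 : 833 / 1000 ≤ y) (y2 : y ≤ 8661 / 10000)
    (b1 : 3 / 8 ≤ b) (b2 : b ≤ 219 / 500) :
    0 ≤ fBoxMA13 s y b k M1 M2 M3 M4 G1 G2 G3 G4 := by
  rcases le_total b (407 / 1000) with h | h
  · exact ma13_48 R s1 s2 y1 y2 b1 h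
  · exact ma13_55 R s1 s2 y1 y2 h b2

theorem ma13_45 {s y b k M1 M2 M3 M4 G1 G2 G3 G4 : ℝ} (R : RgA13 s y b k M1 M2 M3 M4 G1 G2 G3 G4)
    (s1 : 3 / 5 ≤ s) (s2 : s ≤ 67 / 100) (y1 : 4 / 5 ≤ y) (y2 : y ≤ 8661 / 10000)
    (b1 : 3 / 8 ≤ b) (b2 : b ≤ 219 / 500) :
    0 ≤ fBoxMA13 s y b k M1 M2 M3 M4 G1 G2 G3 G4 := by
  rcases le_total y (833 / 1000) with h | h
  · exact ma13_46 R s1 s2 y1 h b1 b2
  · exact ma13_47 R s1 s2 h y2 b1 b2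

theorem ma13_44 {s y b k M1 M2 M3 M4 G1 G2 G3 G4 : ℝ} (R : RgA13 s y b k M1 M2 M3 M4 G1 G2 G3 G4)
    (s1 : 3 / 5 ≤ s) (s2 : s ≤ 67 / 100) (y1 : 4 / 5 ≤ y) (y2 : y ≤ 8661 / 10000)
    (b1 : 3 / 8 ≤ b) (b2 : b ≤ 1 / 2) :
    0 ≤ fBoxMA13 s y b k M1 M2 M3 M4 G1 G2 G3 G4 := by
  rcases le_total b (219 / 500) with h | h
  · exact ma13_45 R s1 s2 y1 y2 b1 h
  · exact ma13_56 R s1 s2 y1 y2 h b2

theorem ma13_41 {s y b k M1 M2 M3 M4 G1 G2 G3 G4 : ℝ} (R : RgA13 s y b k M1 M2 M3 M4 G1 G2 G3 G4)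
    (s1 : 127 / 200 ≤ s) (s2 : s ≤ 67 / 100) (y1 : 17 / 20 ≤ y) (y2 : y ≤ 8661 / 10000)
    (b1 : 313 / 1000 ≤ b) (b2 : b ≤ 3 / 8) :
    0 ≤ fBoxMA13 s y b k M1 M2 M3 M4 G1 G2 G3 G4 := by
  rcases le_total b (43 / 125) with h | h
  · exact ma13_42 R s1 s2 y1 y2 b1 h
  · exact ma13_43 R s1 s2 y1 y2 h b2

theorem ma13_38 {s y b k M1 M2 M3 M4 G1 G2 G3 G4 : ℝ} (R : RgA13 s y b k M1 M2 M3 M4 G1 G2 G3 G4)
    (s1 : 3 / 5 ≤ s) (s2 : s ≤ 127 / 200) (y1 : 17 / 20 ≤ y) (y2 : y ≤ 8661 / 10000)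
    (b1 : 43 / 125 ≤ b) (b2 : b ≤ 3 / 8) :
    0 ≤ fBoxMA13 s y b k M1 M2 M3 M4 G1 G2 G3 G4 := by
  rcases le_total s (309 / 500) with h | h
  · exact ma13_39 R s1 h y1 y2 b1 b2
  · exact ma13_40 R h s2 y1 y2 b1 b2

theorem ma13_36 {s y b k M1 M2 M3 M4 G1 G2 G3 G4 : ℝ} (R : RgA13 s y b k M1 M2 M3 M4 G1 G2 G3 G4)
    (s1 : 3 / 5 ≤ s) (s2 : s ≤ 127 / 200) (y1 : 17 / 20 ≤ y) (y2 : y ≤ 8661 / 10000)
    (b1 : 313 / 1000 ≤ b) (b2 : b ≤ 3 / 8) :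
    0 ≤ fBoxMA13 s y b k M1 M2 M3 M4 G1 G2 G3 G4 := by
  rcases le_total b (43 / 125) with h | h
  · exact ma13_37 R s1 s2 y1 y2 b1 h
  · exact ma13_38 R s1 s2 y1 y2 h b2

theorem ma13_35 {s y b k M1 M2 M3 M4 G1 G2 G3 G4 : ℝ} (R : RgA13 s y b k M1 M2 M3 M4 G1 G2 G3 G4)
    (s1 : 3 / 5 ≤ s) (s2 : s ≤ 67 / 100) (y1 : 17 / 20 ≤ y) (y2 : y ≤ 8661 / 10000)
    (b1 : 313 / 1000 ≤ b) (b2 : b ≤ 3 / 8) :
    0 ≤ fBoxMA13 s y b k M1 M2 M3 M4 G1 G2 G3 G4 := by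
  rcases le_total s (127 / 200) with h | h
  · exact ma13_36 R s1 h y1 y2 b1 b2
  · exact ma13_41 R h s2 y1 y2 b1 b2

theorem ma13_32 {s y b k M1 M2 M3 M4 G1 G2 G3 G4 : ℝ} (R : RgA13 s y b k M1 M2 M3 M4 G1 G2 G3 G4)
    (s1 : 127 / 200 ≤ s) (s2 : s ≤ 67 / 100) (y1 : 17 / 20 ≤ y) (y2 : y ≤ 8661 / 10000)
    (b1 : 1 / 4 ≤ b) (b2 : b ≤ 313 / 1000) :
    0 ≤ fBoxMA13 s y b k M1 M2 M3 M4 G1 G2 G3 G4 := by
  rcases le_total s (653 / 1000) with h | h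
  · exact ma13_33 R s1 h y1 y2 b1 b2
  · exact ma13_34 R h s2 y1 y2 b1 b2

theorem ma13_29 {s y b k M1 M2 M3 M4 G1 G2 G3 G4 : ℝ} (R : RgA13 s y b k M1 M2 M3 M4 G1 G2 G3 G4)
    (s1 : 3 / 5 ≤ s) (s2 : s ≤ 127 / 200) (y1 : 17 / 20 ≤ y) (y2 : y ≤ 8661 / 10000)
    (b1 : 1 / 4 ≤ b) (b2 : b ≤ 313 / 1000) :
    0 ≤ fBoxMA13 s y b k M1 M2 M3 M4 G1 G2 G3 G4 := by
  rcases le_total s (309 / 500) with h | h
  · exact ma13_30 R s1 h y1 y2 b1 b2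
  · exact ma13_31 R h s2 y1 y2 b1 b2

theorem ma13_28 {s y b k M1 M2 M3 M4 G1 G2 G3 G4 : ℝ} (R : RgA13 s y b k M1 M2 M3 M4 G1 G2 G3 G4)
    (s1 : 3 / 5 ≤ s) (s2 : s ≤ 67 / 100) (y1 : 17 / 20 ≤ y) (y2 : y ≤ 8661 / 10000)
    (b1 : 1 / 4 ≤ b) (b2 : b ≤ 313 / 1000) :
    0 ≤ fBoxMA13 s y b k M1 M2 M3 M4 G1 G2 G3 G4 := by
  rcases le_total s (127 / 200) with h | h
  · exact ma13_29 R s1 h y1 y2 b1 b2
  · exact ma13_32 R h s2 y1 y2 b1 b2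

theorem ma13_27 {s y b k M1 M2 M3 M4 G1 G2 G3 G4 : ℝ} (R : RgA13 s y b k M1 M2 M3 M4 G1 G2 G3 G4)
    (s1 : 3 / 5 ≤ s) (s2 : s ≤ 67 / 100) (y1 : 17 / 20 ≤ y) (y2 : y ≤ 8661 / 10000)
    (b1 : 1 / 4 ≤ b) (b2 : b ≤ 3 / 8) :
    0 ≤ fBoxMA13 s y b k M1 M2 M3 M4 G1 G2 G3 G4 := by
  rcases le_total b (313 / 1000) with h | h
  · exact ma13_28 R s1 s2 y1 y2 b1 h
  · exact ma13_35 R s1 s2 y1 y2 h b2

theorem ma13_25 {s y b k M1 M2 M3 M4 G1 G2 G3 G4 : ℝ} (R : RgA13 s y b k M1 M2 M3 M4 G1 G2 G3 G4)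
    (s1 : 3 / 5 ≤ s) (s2 : s ≤ 67 / 100) (y1 : 833 / 1000 ≤ y) (y2 : y ≤ 8661 / 10000)
    (b1 : 1 / 4 ≤ b) (b2 : b ≤ 3 / 8) :
    0 ≤ fBoxMA13 s y b k M1 M2 M3 M4 G1 G2 G3 G4 := by
  rcases le_total y (17 / 20) with h | h
  · exact ma13_26 R s1 s2 y1 h b1 b2
  · exact ma13_27 R s1 s2 h y2 b1 b2

theorem ma13_23 {s y b k M1 M2 M3 M4 G1 G2 G3 G4 : ℝ} (R : RgA13 s y b k M1 M2 M3 M4 G1 G2 G3 G4)
    (s1 : 3 / 5 ≤ s) (s2 : s ≤ 67 / 100) (y1 : 4 / 5 ≤ y) (y2 : y ≤ 8661 / 10000)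
    (b1 : 1 / 4 ≤ b) (b2 : b ≤ 3 / 8) :
    0 ≤ fBoxMA13 s y b k M1 M2 M3 M4 G1 G2 G3 G4 := by
  rcases le_total y (833 / 1000) with h | h
  · exact ma13_24 R s1 s2 y1 h b1 b2
  · exact ma13_25 R s1 s2 h y2 b1 b2

theorem ma13_22 {s y b k M1 M2 M3 M4 G1 G2 G3 G4 : ℝ} (R : RgA13 s y b k M1 M2 M3 M4 G1 G2 G3 G4)
    (s1 : 3 / 5 ≤ s) (s2 : s ≤ 67 / 100) (y1 : 4 / 5 ≤ y) (y2 : y ≤ 8661 / 10000)
    (b1 : 1 / 4 ≤ b) (b2 : b ≤ 1 / 2) :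
    0 ≤ fBoxMA13 s y b k M1 M2 M3 M4 G1 G2 G3 G4 := by
  rcases le_total b (3 / 8) with h | h
  · exact ma13_23 R s1 s2 y1 y2 b1 h
  · exact ma13_44 R s1 s2 y1 y2 h b2

theorem ma13_19 {s y b k M1 M2 M3 M4 G1 G2 G3 G4 : ℝ} (R : RgA13 s y b k M1 M2 M3 M4 G1 G2 G3 G4)
    (s1 : 3 / 5 ≤ s) (s2 : s ≤ 67 / 100) (y1 : 17 / 20 ≤ y) (y2 : y ≤ 8661 / 10000)
    (b1 : 47 / 250 ≤ b) (b2 : b ≤ 1 / 4) :
    0 ≤ fBoxMA13 s y b k M1 M2 M3 M4 G1 G2 G3 G4 := by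
  rcases le_total s (127 / 200) with h | h
  · exact ma13_20 R s1 h y1 y2 b1 b2
  · exact ma13_21 R h s2 y1 y2 b1 b2

theorem ma13_16 {s y b k M1 M2 M3 M4 G1 G2 G3 G4 : ℝ} (R : RgA13 s y b k M1 M2 M3 M4 G1 G2 G3 G4)
    (s1 : 3 / 5 ≤ s) (s2 : s ≤ 67 / 100) (y1 : 17 / 20 ≤ y) (y2 : y ≤ 8661 / 10000)
    (b1 : 1 / 8 ≤ b) (b2 : b ≤ 47 / 250) :
    0 ≤ fBoxMA13 s y b k M1 M2 M3 M4 G1 G2 G3 G4 := by
  rcases le_total s (127 / 200) with h | h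
  · exact ma13_17 R s1 h y1 y2 b1 b2
  · exact ma13_18 R h s2 y1 y2 b1 b2

theorem ma13_15 {s y b k M1 M2 M3 M4 G1 G2 G3 G4 : ℝ} (R : RgA13 s y b k M1 M2 M3 M4 G1 G2 G3 G4)
    (s1 : 3 / 5 ≤ s) (s2 : s ≤ 67 / 100) (y1 : 17 / 20 ≤ y) (y2 : y ≤ 8661 / 10000)
    (b1 : 1 / 8 ≤ b) (b2 : b ≤ 1 / 4) :
    0 ≤ fBoxMA13 s y b k M1 M2 M3 M4 G1 G2 G3 G4 := by
  rcases le_total b (47 / 250) with h | h
  · exact ma13_16 R s1 s2 y1 y2 b1 h
  · exact ma13_19 R s1 s2 y1 y2 h b2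

theorem ma13_13 {s y b k M1 M2 M3 M4 G1 G2 G3 G4 : ℝ} (R : RgA13 s y b k M1 M2 M3 M4 G1 G2 G3 G4)
    (s1 : 3 / 5 ≤ s) (s2 : s ≤ 67 / 100) (y1 : 833 / 1000 ≤ y) (y2 : y ≤ 8661 / 10000)
    (b1 : 1 / 8 ≤ b) (b2 : b ≤ 1 / 4) :
    0 ≤ fBoxMA13 s y b k M1 M2 M3 M4 G1 G2 G3 G4 := by
  rcases le_total y (17 / 20) with h | h
  · exact ma13_14 R s1 s2 y1 h b1 b2
  · exact ma13_15 R s1 s2 h y2 b1 b2

theorem ma13_10 {s y b k M1 M2 M3 M4 G1 G2 G3 G4 : ℝ} (R : RgA13 s y b k M1 M2 M3 M4 G1 G2 G3 G4)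
    (s1 : 3 / 5 ≤ s) (s2 : s ≤ 67 / 100) (y1 : 17 / 20 ≤ y) (y2 : y ≤ 8661 / 10000)
    (b1 : 63 / 1000 ≤ b) (b2 : b ≤ 1 / 8) :
    0 ≤ fBoxMA13 s y b k M1 M2 M3 M4 G1 G2 G3 G4 := by
  rcases le_total s (127 / 200) with h | h
  · exact ma13_11 R s1 h y1 y2 b1 b2
  · exact ma13_12 R h s2 y1 y2 b1 b2

theorem ma13_7 {s y b k M1 M2 M3 M4 G1 G2 G3 G4 : ℝ} (R : RgA13 s y b k M1 M2 M3 M4 G1 G2 G3 G4)
    (s1 : 3 / 5 ≤ s) (s2 : s ≤ 67 / 100) (y1 : 17 / 20 ≤ y) (y2 : y ≤ 8661 / 10000)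
    (b1 : 0 ≤ b) (b2 : b ≤ 63 / 1000) :
    0 ≤ fBoxMA13 s y b k M1 M2 M3 M4 G1 G2 G3 G4 := by
  rcases le_total s (127 / 200) with h | h
  · exact ma13_8 R s1 h y1 y2 b1 b2
  · exact ma13_9 R h s2 y1 y2 b1 b2

theorem ma13_6 {s y b k M1 M2 M3 M4 G1 G2 G3 G4 : ℝ} (R : RgA13 s y b k M1 M2 M3 M4 G1 G2 G3 G4)
    (s1 : 3 / 5 ≤ s) (s2 : s ≤ 67 / 100) (y1 : 17 / 20 ≤ y) (y2 : y ≤ 8661 / 10000)
    (b1 : 0 ≤ b) (b2 : b ≤ 1 / 8) :
    0 ≤ fBoxMA13 s y b k M1 M2 M3 M4 G1 G2 G3 G4 := by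
  rcases le_total b (63 / 1000) with h | h
  · exact ma13_7 R s1 s2 y1 y2 b1 h
  · exact ma13_10 R s1 s2 y1 y2 h b2

theorem ma13_4 {s y b k M1 M2 M3 M4 G1 G2 G3 G4 : ℝ} (R : RgA13 s y b k M1 M2 M3 M4 G1 G2 G3 G4)
    (s1 : 3 / 5 ≤ s) (s2 : s ≤ 67 / 100) (y1 : 833 / 1000 ≤ y) (y2 : y ≤ 8661 / 10000)
    (b1 : 0 ≤ b) (b2 : b ≤ 1 / 8) :
    0 ≤ fBoxMA13 s y b k M1 M2 M3 M4 G1 G2 G3 G4 := by
  rcases le_total y (17 / 20) with h | h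
  · exact ma13_5 R s1 s2 y1 h b1 b2
  · exact ma13_6 R s1 s2 h y2 b1 b2

theorem ma13_3 {s y b k M1 M2 M3 M4 G1 G2 G3 G4 : ℝ} (R : RgA13 s y b k M1 M2 M3 M4 G1 G2 G3 G4)
    (s1 : 3 / 5 ≤ s) (s2 : s ≤ 67 / 100) (y1 : 833 / 1000 ≤ y) (y2 : y ≤ 8661 / 10000)
    (b1 : 0 ≤ b) (b2 : b ≤ 1 / 4) :
    0 ≤ fBoxMA13 s y b k M1 M2 M3 M4 G1 G2 G3 G4 := by
  rcases le_total b (1 / 8) with h | h
  · exact ma13_4 R s1 s2 y1 y2 b1 h
  · exact ma13_13 R s1 s2 y1 y2 h b2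

theorem ma13_1 {s y b k M1 M2 M3 M4 G1 G2 G3 G4 : ℝ} (R : RgA13 s y b k M1 M2 M3 M4 G1 G2 G3 G4)
    (s1 : 3 / 5 ≤ s) (s2 : s ≤ 67 / 100) (y1 : 4 / 5 ≤ y) (y2 : y ≤ 8661 / 10000)
    (b1 : 0 ≤ b) (b2 : b ≤ 1 / 4) :
    0 ≤ fBoxMA13 s y b k M1 M2 M3 M4 G1 G2 G3 G4 := by
  rcases le_total y (833 / 1000) with h | h
  · exact ma13_2 R s1 s2 y1 h b1 b2
  · exact ma13_3 R s1 s2 h y2 b1 b2

theorem ma13_0 {s y b k M1 M2 M3 M4 G1 G2 G3 G4 : ℝ} (R : RgA13 s y b k M1 M2 M3 M4 G1 G2 G3 G4)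
    (s1 : 3 / 5 ≤ s) (s2 : s ≤ 67 / 100) (y1 : 4 / 5 ≤ y) (y2 : y ≤ 8661 / 10000)
    (b1 : 0 ≤ b) (b2 : b ≤ 1 / 2) :
    0 ≤ fBoxMA13 s y b k M1 M2 M3 M4 G1 G2 G3 G4 := by
  rcases le_total b (1 / 4) with h | h
  · exact ma13_1 R s1 s2 y1 y2 b1 h
  · exact ma13_22 R s1 s2 y1 y2 h b2

end Pool.Agent.Strip051.FourF
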