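import Pool.Agent.Strip051.FourB.Box

/-! # The new point between s and h0, A1T -/

namespace Pool.Agent.Strip051.FourF

set_option linter.unusedVariables false

open Pool.Agent.StripNear Pool.Agent.StripSquare Pool.Agent.Strip051
open Pool.Agent.Strip051.Four.Low (ph)
open Pool.Agent.Strip051.FourB (lo up)

/-- The function of the boxes `ma1t_`. -/
noncomputable def fBoxMA1T (s y b k M1 M2 M3 M4 G1 G2 G3 G4 : ℝ) : ℝ :=
  G1 + G2 + G3 + G4 - 8 * ph y + 4 * ph s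

/-- The region of the boxes `ma1t_`. -/
structure RgA1T (s y b k M1 M2 M3 M4 G1 G2 G3 G4 : ℝ) : Prop where
  k1 : 86602 / 100000 * ph b ≤ k
  k2 : k ≤ 86603 / 100000 * ph b
  h1 : 86602 / 100000 ≤ h0
  h2 : h0 ≤ 86603 / 100000
  h3 : 86602 / 100000 * b ≤ h0 * b
  k3 : 0 ≤ k
  k4 : k ≤ 1161 / 10000
  hq : h0 + b / 2 - k ≤ 1
  ys : s ≤ y
  yh : y ≤ h0
  x0 : h0 - 1 / 500 ≤ y
  x1 : h0 - b / 2 - k ≤ s - 1 / 1000
  n1x : 1 - 1 / 2 - 1 / 2 * ph b + h0 * b + ph (y - b / 2 - k) - ph (1 - h0) ≤ M1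
  n1e : 1 - ph (s + 1 - y) + ph (s + 1 - h0) - ph (1 - h0) ≤ M1
  o11 : M1 - 1 / 2 - 1 / 2 * ph b - h0 * b + ph (y + b / 2 - k + h0 - 1) ≤ G1
  o1y : M1 - ph (h0 + s - y) + ph (h0 + s - 1) ≤ G1
  n2h : 1 - 1 / 2 - 1 / 2 * ph b + h0 * b + ph (y - b / 2 - k) - ph (h0 + s - 1) ≤ M2
  n2v : 1 - 1 / 2 - 1 / 2 * ph b + h0 * b + ph (y - b / 2 - k - s) - ph (1 - h0) ≤ M2
  n2e : 3 / 2 - ph (2 * h0 - y) - ph (h0 + s - 1) ≤ M2
  o2m : M2 - 1 / 2 - 1 / 2 * ph b - h0 * b + ph (y + b / 2 - k - h0 - s + 1) ≤ G2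
  o2y : M2 - ph (h0 + s - y) + ph (1 - h0) ≤ G2
  n3x : 1 - 1 / 2 - 1 / 2 * ph b + h0 * b + ph (y - b / 2 - k) - ph (1 - h0) ≤ M3
  n3e : 1 - ph (9 / 5 - y) + ph (9 / 5 - h0) - ph (1 - h0) ≤ M3
  o3h : M3 - 1 / 2 - 1 / 2 * ph b - h0 * b + ph (y + b / 2 - k) - ph (1 - h0) ≤ G3
  n4x : 1 - 1 / 2 - 1 / 2 * ph b + h0 * b + ph (y - b / 2 - k - h0 - s + 1) ≤ M4
  n4v : 1 - 1 / 2 - 1 / 2 * ph b + h0 * b + ph (y - b / 2 - k - s) - ph (1 - h0) ≤ M4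
  n4e : 1 - ph (h0 + s - y) + ph (1 - h0) ≤ M4
  o4y : M4 - ph (h0 + s - y) + ph (1 - h0) ≤ G4
  o4m : M4 - 1 / 2 - 1 / 2 * ph b - h0 * b + ph (y + b / 2 - k - h0 - s + 1) ≤ G4
  s1 : 3 / 5 ≤ s
  s2 : s ≤ 67 / 100
  y1 : 108 / 125 ≤ y
  y2 : y ≤ 8661 / 10000
  b1 : 3 / 10 ≤ b
  b2 : b ≤ 1 / 2

theorem RgA1T.lo3 {s y b k M1 M2 M3 M4 G1 G2 G3 G4 : ℝ} (R : RgA1T s y b k M1 M2 M3 M4 G1 G2 G3 G4) (w0 : ℝ) (hw0 : w0 ^ 2 < 1) :
    2 * w0 * (9 / 5 - h0) - 2 * w0 ^ 2 ≤ (1 - w0 ^ 2) * ph (9 / 5 - h0) :=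
  lo hw0 (by linarith only [R.h2]) (by linarith only [R.h1])

theorem RgA1T.lo8 {s y b k M1 M2 M3 M4 G1 G2 G3 G4 : ℝ} (R : RgA1T s y b k M1 M2 M3 M4 G1 G2 G3 G4) (w0 : ℝ) (hw0 : w0 ^ 2 < 1) :
    2 * w0 * (s + 1 - h0) - 2 * w0 ^ 2 ≤ (1 - w0 ^ 2) * ph (s + 1 - h0) :=
  lo hw0 (by linarith only [R.h2, R.s1]) (by linarith only [R.h1, R.s2])

theorem RgA1T.lo10 {s y b k M1 M2 M3 M4 G1 G2 G3 G4 : ℝ} (R : RgA1T s y b k M1 M2 M3 M4 G1 G2 G3 G4) (w0 : ℝ) (hw0 : w0 ^ 2 < 1) :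
    2 * w0 * (s) - 2 * w0 ^ 2 ≤ (1 - w0 ^ 2) * ph (s) :=
  lo hw0 (by linarith only [R.s1]) (by linarith only [R.s2])

theorem RgA1T.lo13 {s y b k M1 M2 M3 M4 G1 G2 G3 G4 : ℝ} (R : RgA1T s y b k M1 M2 M3 M4 G1 G2 G3 G4) (w0 : ℝ) (hw0 : w0 ^ 2 < 1) :
    2 * w0 * (y + b / 2 - k) - 2 * w0 ^ 2 ≤ (1 - w0 ^ 2) * ph (y + b / 2 - k) :=
  lo hw0 (by linarith only [R.h1, R.k4, R.x0, R.b1]) (by linarith only [R.hq, R.yh])

theorem RgA1T.lo14 {s y b k M1 M2 M3 M4 G1 G2 G3 G4 : ℝ} (R : RgA1T s y b k M1 M2 M3 M4 G1 G2 G3 G4) (w0 : ℝ) (hw0 : w0 ^ 2 < 1) :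
    2 * w0 * (y - b / 2 - k - h0 - s + 1) - 2 * w0 ^ 2 ≤ (1 - w0 ^ 2) * ph (y - b / 2 - k - h0 - s + 1) :=
  lo hw0 (by linarith only [R.k4, R.x0, R.s2, R.b2]) (by linarith only [R.h1, R.yh, R.x1])

theorem RgA1T.lo16 {s y b k M1 M2 M3 M4 G1 G2 G3 G4 : ℝ} (R : RgA1T s y b k M1 M2 M3 M4 G1 G2 G3 G4) (w0 : ℝ) (hw0 : w0 ^ 2 < 1) :
    2 * w0 * (y - b / 2 - k) - 2 * w0 ^ 2 ≤ (1 - w0 ^ 2) * ph (y - b / 2 - k) :=
  lo hw0 (by linarith only [R.h1, R.k4, R.x0, R.b2]) (by linarith only [R.yh, R.x1, R.s2])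

theorem ma1t_4 {s y b k M1 M2 M3 M4 G1 G2 G3 G4 : ℝ} (R : RgA1T s y b k M1 M2 M3 M4 G1 G2 G3 G4)
    (s1 : 3 / 5 ≤ s) (s2 : s ≤ 67 / 100) (y1 : 108 / 125 ≤ y) (y2 : y ≤ 8661 / 10000)
    (b1 : 3 / 10 ≤ b) (b2 : b ≤ 313 / 1000) :
    0 ≤ fBoxMA1T s y b k M1 M2 M3 M4 G1 G2 G3 G4 := by
  have e1 := up (t1 := (67 / 1000)) (t2 := (68 / 1000)) (x := 1 - h0) (by norm_num)
    (by linarith only [R.h2]) (by linarith only [R.h1])
  have e2 := up (t1 := (577 / 1000)) (t2 := (581 / 1000)) (x := 2 * h0 - y) (by norm_num)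
    (by linarith only [R.h1, R.yh]) (by linarith only [R.h2, R.x0])
  have e3 := R.lo3 (688 / 1000) (by norm_num)
  have e4 := up (t1 := (688 / 1000)) (t2 := (693 / 1000)) (x := 9 / 5 - y) (by norm_num)
    (by linarith only [R.h2, R.yh]) (by linarith only [R.h1, R.x0])
  have e5 := up (t1 := (153 / 1000)) (t2 := (161 / 1000)) (x := b) (by norm_num)
    (by linarith only [b1]) (by linarith only [b2])
  have e6 := up (t1 := (382 / 1000)) (t2 := (387 / 1000)) (x := h0 + s - y) (by norm_num)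
    (by linarith only [R.k2, R.h1, R.yh, R.x1, b2, e5]) (by linarith only [R.x0, s2])
  have e7 := R.lo8 (504 / 1000) (by norm_num)
  have e8 := up (t1 := (501 / 1000)) (t2 := (507 / 1000)) (x := s + 1 - y) (by norm_num)
    (by linarith only [R.k2, R.yh, R.x1, b2, e5]) (by linarith only [R.h1, R.x0, s2])
  have e9 := R.lo10 (385 / 1000) (by norm_num)
  have e10 := up (t1 := (574 / 1000)) (t2 := (578 / 1000)) (x := y) (by norm_num)
    (by linarith only [R.h1, R.x0]) (by linarith only [R.h2, R.yh])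
  have e11 := R.lo13 (808 / 1000) (by norm_num)
  have e12 := R.lo14 (67 / 1000) (by norm_num)
  unfold fBoxMA1T
  linarith only [R.k2, R.h2, R.yh, R.x1, R.n1e, R.o1y, R.n2e, R.o2y, R.n3e, R.o3h, R.n4x, R.o4y, s2, e1, e2, e3, e4, e5, e6, e7, e8, e9, e10, e11, e12]

theorem ma1t_5 {s y b k M1 M2 M3 M4 G1 G2 G3 G4 : ℝ} (R : RgA1T s y b k M1 M2 M3 M4 G1 G2 G3 G4)
    (s1 : 3 / 5 ≤ s) (s2 : s ≤ 67 / 100) (y1 : 108 / 125 ≤ y) (y2 : y ≤ 8661 / 10000)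
    (b1 : 313 / 1000 ≤ b) (b2 : b ≤ 13 / 40) :
    0 ≤ fBoxMA1T s y b k M1 M2 M3 M4 G1 G2 G3 G4 := by
  have e1 := up (t1 := (67 / 1000)) (t2 := (68 / 1000)) (x := 1 - h0) (by norm_num)
    (by linarith only [R.h2]) (by linarith only [R.h1])
  have e2 := up (t1 := (577 / 1000)) (t2 := (581 / 1000)) (x := 2 * h0 - y) (by norm_num)
    (by linarith only [R.h1, R.yh]) (by linarith only [R.h2, R.x0])
  have e3 := R.lo3 (688 / 1000) (by norm_num)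
  have e4 := up (t1 := (688 / 1000)) (t2 := (693 / 1000)) (x := 9 / 5 - y) (by norm_num)
    (by linarith only [R.h2, R.yh]) (by linarith only [R.h1, R.x0])
  have e5 := up (t1 := (160 / 1000)) (t2 := (168 / 1000)) (x := b) (by norm_num)
    (by linarith only [b1]) (by linarith only [b2])
  have e6 := up (t1 := (374 / 1000)) (t2 := (387 / 1000)) (x := h0 + s - y) (by norm_num)
    (by linarith only [R.k2, R.h1, R.yh, R.x1, b2, e5]) (by linarith only [R.x0, s2])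
  have e7 := R.lo10 (380 / 1000) (by norm_num)
  have e8 := up (t1 := (574 / 1000)) (t2 := (578 / 1000)) (x := y) (by norm_num)
    (by linarith only [R.h1, R.x0]) (by linarith only [R.h2, R.yh])
  have e9 := R.lo13 (814 / 1000) (by norm_num)
  have e10 := R.lo13 (824 / 1000) (by norm_num)
  have e11 := R.lo14 (67 / 1000) (by norm_num)
  have e12 := R.lo16 (377 / 1000) (by norm_num)
  unfold fBoxMA1T
  linarith only [R.k2, R.h2, R.h3, R.yh, R.x1, R.n1x, R.o1y, R.n2e, R.o2y, R.n3e, R.o3h, R.n4x, R.o4y, e1, e2, e3, e4, e5, e6, e7, e8, e9, e10, e11, e12]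

theorem ma1t_8 {s y b k M1 M2 M3 M4 G1 G2 G3 G4 : ℝ} (R : RgA1T s y b k M1 M2 M3 M4 G1 G2 G3 G4)
    (s1 : 3 / 5 ≤ s) (s2 : s ≤ 67 / 100) (y1 : 108 / 125 ≤ y) (y2 : y ≤ 8651 / 10000)
    (b1 : 13 / 40 ≤ b) (b2 : b ≤ 337 / 1000) :
    0 ≤ fBoxMA1T s y b k M1 M2 M3 M4 G1 G2 G3 G4 := by
  have e1 := up (t1 := (67 / 1000)) (t2 := (68 / 1000)) (x := 1 - h0) (by norm_num)
    (by linarith only [R.h2]) (by linarith only [R.h1])
  have e2 := up (t1 := (167 / 1000)) (t2 := (174 / 1000)) (x := b) (by norm_num)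
    (by linarith only [b1]) (by linarith only [b2])
  have e3 := up (t1 := (368 / 1000)) (t2 := (387 / 1000)) (x := h0 + s - y) (by norm_num)
    (by linarith only [R.k2, R.h1, R.x1, y2, b2, e2]) (by linarith only [R.x0, s2])
  have e4 := R.lo10 (376 / 1000) (by norm_num)
  have e5 := R.lo10 (368 / 1000) (by norm_num)
  have e6 := up (t1 := (574 / 1000)) (t2 := (577 / 1000)) (x := y) (by norm_num)
    (by linarith only [R.h1, R.x0]) (by linarith only [y2])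
  have e7 := R.lo13 (823 / 1000) (by norm_num)
  have e8 := R.lo14 (66 / 1000) (by norm_num)
  have e9 := R.lo16 (369 / 1000) (by norm_num)
  unfold fBoxMA1T
  linarith only [R.k2, R.h2, R.h3, R.x1, R.n1x, R.o1y, R.n2h, R.o2y, R.n3x, R.o3h, R.n4x, R.o4y, y2, e1, e2, e3, e4, e5, e6, e7, e8, e9]

theorem ma1t_9 {s y b k M1 M2 M3 M4 G1 G2 G3 G4 : ℝ} (R : RgA1T s y b k M1 M2 M3 M4 G1 G2 G3 G4)
    (s1 : 3 / 5 ≤ s) (s2 : s ≤ 67 / 100) (y1 : 8651 / 10000 ≤ y) (y2 : y ≤ 8661 / 10000)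
    (b1 : 13 / 40 ≤ b) (b2 : b ≤ 337 / 1000) :
    0 ≤ fBoxMA1T s y b k M1 M2 M3 M4 G1 G2 G3 G4 := by
  have e1 := up (t1 := (67 / 1000)) (t2 := (68 / 1000)) (x := 1 - h0) (by norm_num)
    (by linarith only [R.h2]) (by linarith only [R.h1])
  have e2 := up (t1 := (577 / 1000)) (t2 := (579 / 1000)) (x := 2 * h0 - y) (by norm_num)
    (by linarith only [R.h1, R.yh]) (by linarith only [R.h2, y1])
  have e3 := R.lo3 (688 / 1000) (by norm_num)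
  have e4 := up (t1 := (688 / 1000)) (t2 := (691 / 1000)) (x := 9 / 5 - y) (by norm_num)
    (by linarith only [R.h2, R.yh]) (by linarith only [y1])
  have e5 := up (t1 := (167 / 1000)) (t2 := (174 / 1000)) (x := b) (by norm_num)
    (by linarith only [b1]) (by linarith only [b2])
  have e6 := up (t1 := (367 / 1000)) (t2 := (386 / 1000)) (x := h0 + s - y) (by norm_num)
    (by linarith only [R.k2, R.h1, R.yh, R.x1, b2, e5]) (by linarith only [R.h2, s2, y1])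
  have e7 := R.lo10 (376 / 1000) (by norm_num)
  have e8 := up (t1 := (576 / 1000)) (t2 := (578 / 1000)) (x := y) (by norm_num)
    (by linarith only [y1]) (by linarith only [R.h2, R.yh])
  have e9 := R.lo13 (827 / 1000) (by norm_num)
  have e10 := R.lo14 (67 / 1000) (by norm_num)
  have e11 := R.lo16 (374 / 1000) (by norm_num)
  have e12 := R.lo10 (372 / 1000) (by norm_num)
  unfold fBoxMA1T
  linarith only [R.k2, R.h2, R.h3, R.yh, R.x1, R.n1x, R.o1y, R.n2e, R.o2y, R.n3e, R.o3h, R.n4x, R.o4y, e1, e2, e3, e4, e5, e6, e7, e8, e9, e10, e11, e12]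

theorem ma1t_11 {s y b k M1 M2 M3 M4 G1 G2 G3 G4 : ℝ} (R : RgA1T s y b k M1 M2 M3 M4 G1 G2 G3 G4)
    (s1 : 3 / 5 ≤ s) (s2 : s ≤ 67 / 100) (y1 : 108 / 125 ≤ y) (y2 : y ≤ 8661 / 10000)
    (b1 : 337 / 1000 ≤ b) (b2 : b ≤ 687 / 2000) :
    0 ≤ fBoxMA1T s y b k M1 M2 M3 M4 G1 G2 G3 G4 := by
  have e1 := up (t1 := (67 / 1000)) (t2 := (68 / 1000)) (x := 1 - h0) (by norm_num)
    (by linarith only [R.h2]) (by linarith only [R.h1])
  have e2 := R.lo3 (688 / 1000) (by norm_num)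
  have e3 := up (t1 := (688 / 1000)) (t2 := (693 / 1000)) (x := 9 / 5 - y) (by norm_num)
    (by linarith only [R.h2, R.yh]) (by linarith only [R.h1, R.x0])
  have e4 := up (t1 := (173 / 1000)) (t2 := (178 / 1000)) (x := b) (by norm_num)
    (by linarith only [b1]) (by linarith only [b2])
  have e5 := up (t1 := (363 / 1000)) (t2 := (387 / 1000)) (x := h0 + s - y) (by norm_num)
    (by linarith only [R.k2, R.h1, R.yh, R.x1, b2, e4]) (by linarith only [R.x0, s2])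
  have e6 := up (t1 := (574 / 1000)) (t2 := (578 / 1000)) (x := y) (by norm_num)
    (by linarith only [R.h1, R.x0]) (by linarith only [R.h2, R.yh])
  have e7 := R.lo14 (67 / 1000) (by norm_num)
  have e8 := R.lo16 (367 / 1000) (by norm_num)
  have e9 := R.lo10 (368 / 1000) (by norm_num)
  have e10 := R.lo13 (835 / 1000) (by norm_num)
  unfold fBoxMA1T
  linarith only [R.k2, R.h2, R.h3, R.yh, R.x1, R.n1x, R.o1y, R.n2h, R.o2y, R.n3e, R.o3h, R.n4x, R.o4y, b1, e1, e2, e3, e4, e5, e6, e7, e8, e9, e10]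

theorem ma1t_13 {s y b k M1 M2 M3 M4 G1 G2 G3 G4 : ℝ} (R : RgA1T s y b k M1 M2 M3 M4 G1 G2 G3 G4)
    (s1 : 3 / 5 ≤ s) (s2 : s ≤ 67 / 100) (y1 : 108 / 125 ≤ y) (y2 : y ≤ 8661 / 10000)
    (b1 : 687 / 2000 ≤ b) (b2 : b ≤ 867 / 2500) :
    0 ≤ fBoxMA1T s y b k M1 M2 M3 M4 G1 G2 G3 G4 := by
  have e1 := up (t1 := (67 / 1000)) (t2 := (68 / 1000)) (x := 1 - h0) (by norm_num)
    (by linarith only [R.h2]) (by linarith only [R.h1])
  have e2 := up (t1 := (177 / 1000)) (t2 := (179 / 1000)) (x := b) (by norm_num)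
    (by linarith only [b1]) (by linarith only [b2])
  have e3 := up (t1 := (361 / 1000)) (t2 := (387 / 1000)) (x := h0 + s - y) (by norm_num)
    (by linarith only [R.k2, R.h1, R.yh, R.x1, b2, e2]) (by linarith only [R.x0, s2])
  have e4 := R.lo10 (362 / 1000) (by norm_num)
  have e5 := up (t1 := (574 / 1000)) (t2 := (578 / 1000)) (x := y) (by norm_num)
    (by linarith only [R.h1, R.x0]) (by linarith only [R.h2, R.yh])
  have e6 := R.lo13 (843 / 1000) (by norm_num)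
  have e7 := R.lo14 (67 / 1000) (by norm_num)
  have e8 := R.lo16 (363 / 1000) (by norm_num)
  unfold fBoxMA1T
  linarith only [R.k2, R.h2, R.h3, R.yh, R.x1, R.n1x, R.o1y, R.n2h, R.o2y, R.n3x, R.o3h, R.n4x, R.o4y, b1, e1, e2, e3, e4, e5, e6, e7, e8]

theorem ma1t_14 {s y b k M1 M2 M3 M4 G1 G2 G3 G4 : ℝ} (R : RgA1T s y b k M1 M2 M3 M4 G1 G2 G3 G4)
    (s1 : 3 / 5 ≤ s) (s2 : s ≤ 67 / 100) (y1 : 108 / 125 ≤ y) (y2 : y ≤ 8661 / 10000)
    (b1 : 867 / 2500 ≤ b) (b2 : b ≤ 7 / 20) :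
    0 ≤ fBoxMA1T s y b k M1 M2 M3 M4 G1 G2 G3 G4 := by
  have e1 := up (t1 := (67 / 1000)) (t2 := (68 / 1000)) (x := 1 - h0) (by norm_num)
    (by linarith only [R.h2]) (by linarith only [R.h1])
  have e2 := R.lo3 (688 / 1000) (by norm_num)
  have e3 := up (t1 := (688 / 1000)) (t2 := (693 / 1000)) (x := 9 / 5 - y) (by norm_num)
    (by linarith only [R.h2, R.yh]) (by linarith only [R.h1, R.x0])
  have e4 := up (t1 := (178 / 1000)) (t2 := (181 / 1000)) (x := b) (by norm_num)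
    (by linarith only [b1]) (by linarith only [b2])
  have e5 := up (t1 := (359 / 1000)) (t2 := (387 / 1000)) (x := h0 + s - y) (by norm_num)
    (by linarith only [R.k2, R.h1, R.yh, R.x1, b2, e4]) (by linarith only [R.x0, s2])
  have e6 := R.lo10 (360 / 1000) (by norm_num)
  have e7 := up (t1 := (574 / 1000)) (t2 := (578 / 1000)) (x := y) (by norm_num)
    (by linarith only [R.h1, R.x0]) (by linarith only [R.h2, R.yh])
  have e8 := R.lo13 (846 / 1000) (by norm_num)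
  have e9 := R.lo14 (67 / 1000) (by norm_num)
  have e10 := R.lo16 (361 / 1000) (by norm_num)
  unfold fBoxMA1T
  linarith only [R.k2, R.h2, R.h3, R.yh, R.x1, R.n1x, R.o1y, R.n2h, R.o2y, R.n3e, R.o3h, R.n4x, R.o4y, b1, e1, e2, e3, e4, e5, e6, e7, e8, e9, e10]

theorem ma1t_18 {s y b k M1 M2 M3 M4 G1 G2 G3 G4 : ℝ} (R : RgA1T s y b k M1 M2 M3 M4 G1 G2 G3 G4)
    (s1 : 3 / 5 ≤ s) (s2 : s ≤ 127 / 200) (y1 : 108 / 125 ≤ y) (y2 : y ≤ 8661 / 10000)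
    (b1 : 7 / 20 ≤ b) (b2 : b ≤ 363 / 1000) :
    0 ≤ fBoxMA1T s y b k M1 M2 M3 M4 G1 G2 G3 G4 := by
  have e1 := up (t1 := (67 / 1000)) (t2 := (68 / 1000)) (x := 1 - h0) (by norm_num)
    (by linarith only [R.h2]) (by linarith only [R.h1])
  have e2 := up (t1 := (577 / 1000)) (t2 := (581 / 1000)) (x := 2 * h0 - y) (by norm_num)
    (by linarith only [R.h1, R.yh]) (by linarith only [R.h2, R.x0])
  have e3 := R.lo3 (688 / 1000) (by norm_num)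
  have e4 := up (t1 := (688 / 1000)) (t2 := (693 / 1000)) (x := 9 / 5 - y) (by norm_num)
    (by linarith only [R.h2, R.yh]) (by linarith only [R.h1, R.x0])
  have e5 := up (t1 := (180 / 1000)) (t2 := (188 / 1000)) (x := b) (by norm_num)
    (by linarith only [b1]) (by linarith only [b2])
  have e6 := up (t1 := (352 / 1000)) (t2 := (360 / 1000)) (x := h0 + s - y) (by norm_num)
    (by linarith only [R.k2, R.h1, R.yh, R.x1, b2, e5]) (by linarith only [R.x0, s2])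
  have e7 := R.lo10 (355 / 1000) (by norm_num)
  have e8 := up (t1 := (574 / 1000)) (t2 := (578 / 1000)) (x := y) (by norm_num)
    (by linarith only [R.h1, R.x0]) (by linarith only [R.h2, R.yh])
  have e9 := R.lo13 (848 / 1000) (by norm_num)
  have e10 := R.lo13 (858 / 1000) (by norm_num)
  have e11 := R.lo14 (67 / 1000) (by norm_num)
  have e12 := R.lo16 (354 / 1000) (by norm_num)
  unfold fBoxMA1T
  linarith only [R.k2, R.h2, R.h3, R.x1, R.n1x, R.o1y, R.n2e, R.o2y, R.n3x, R.n3e, R.o3h, R.n4x, R.o4y, e1, e2, e3, e4, e5, e6, e7, e8, e9, e10, e11, e12]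

theorem ma1t_20 {s y b k M1 M2 M3 M4 G1 G2 G3 G4 : ℝ} (R : RgA1T s y b k M1 M2 M3 M4 G1 G2 G3 G4)
    (s1 : 3 / 5 ≤ s) (s2 : s ≤ 127 / 200) (y1 : 108 / 125 ≤ y) (y2 : y ≤ 8661 / 10000)
    (b1 : 363 / 1000 ≤ b) (b2 : b ≤ 369 / 1000) :
    0 ≤ fBoxMA1T s y b k M1 M2 M3 M4 G1 G2 G3 G4 := by
  have e1 := up (t1 := (67 / 1000)) (t2 := (68 / 1000)) (x := 1 - h0) (by norm_num)
    (by linarith only [R.h2]) (by linarith only [R.h1])
  have e2 := up (t1 := (577 / 1000)) (t2 := (581 / 1000)) (x := 2 * h0 - y) (by norm_num)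
    (by linarith only [R.h1, R.yh]) (by linarith only [R.h2, R.x0])
  have e3 := R.lo3 (688 / 1000) (by norm_num)
  have e4 := up (t1 := (688 / 1000)) (t2 := (693 / 1000)) (x := 9 / 5 - y) (by norm_num)
    (by linarith only [R.h2, R.yh]) (by linarith only [R.h1, R.x0])
  have e5 := up (t1 := (187 / 1000)) (t2 := (192 / 1000)) (x := b) (by norm_num)
    (by linarith only [b1]) (by linarith only [b2])
  have e6 := up (t1 := (348 / 1000)) (t2 := (360 / 1000)) (x := h0 + s - y) (by norm_num)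
    (by linarith only [R.k2, R.h1, R.yh, R.x1, b2, e5]) (by linarith only [R.x0, s2])
  have e7 := R.lo10 (353 / 1000) (by norm_num)
  have e8 := up (t1 := (574 / 1000)) (t2 := (578 / 1000)) (x := y) (by norm_num)
    (by linarith only [R.h1, R.x0]) (by linarith only [R.h2, R.yh])
  have e9 := R.lo13 (855 / 1000) (by norm_num)
  have e10 := R.lo13 (864 / 1000) (by norm_num)
  have e11 := R.lo14 (67 / 1000) (by norm_num)
  have e12 := R.lo16 (351 / 1000) (by norm_num)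
  unfold fBoxMA1T
  linarith only [R.k2, R.h2, R.h3, R.x1, R.n1x, R.o1y, R.n2h, R.n2e, R.o2y, R.n3e, R.o3h, R.n4x, R.o4y, e1, e2, e3, e4, e5, e6, e7, e8, e9, e10, e11, e12]

theorem ma1t_21 {s y b k M1 M2 M3 M4 G1 G2 G3 G4 : ℝ} (R : RgA1T s y b k M1 M2 M3 M4 G1 G2 G3 G4)
    (s1 : 3 / 5 ≤ s) (s2 : s ≤ 127 / 200) (y1 : 108 / 125 ≤ y) (y2 : y ≤ 8661 / 10000)
    (b1 : 369 / 1000 ≤ b) (b2 : b ≤ 3 / 8) :
    0 ≤ fBoxMA1T s y b k M1 M2 M3 M4 G1 G2 G3 G4 := by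
  have e1 := up (t1 := (67 / 1000)) (t2 := (68 / 1000)) (x := 1 - h0) (by norm_num)
    (by linarith only [R.h2]) (by linarith only [R.h1])
  have e2 := R.lo3 (688 / 1000) (by norm_num)
  have e3 := up (t1 := (688 / 1000)) (t2 := (693 / 1000)) (x := 9 / 5 - y) (by norm_num)
    (by linarith only [R.h2, R.yh]) (by linarith only [R.h1, R.x0])
  have e4 := up (t1 := (191 / 1000)) (t2 := (195 / 1000)) (x := b) (by norm_num)
    (by linarith only [b1]) (by linarith only [b2])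
  have e5 := up (t1 := (344 / 1000)) (t2 := (360 / 1000)) (x := h0 + s - y) (by norm_num)
    (by linarith only [R.k2, R.h1, R.yh, R.x1, b2, e4]) (by linarith only [R.x0, s2])
  have e6 := R.lo10 (345 / 1000) (by norm_num)
  have e7 := up (t1 := (574 / 1000)) (t2 := (578 / 1000)) (x := y) (by norm_num)
    (by linarith only [R.h1, R.x0]) (by linarith only [R.h2, R.yh])
  have e8 := R.lo13 (861 / 1000) (by norm_num)
  have e9 := R.lo13 (870 / 1000) (by norm_num)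
  have e10 := R.lo14 (67 / 1000) (by norm_num)
  have e11 := R.lo16 (348 / 1000) (by norm_num)
  unfold fBoxMA1T
  linarith only [R.k2, R.h2, R.h3, R.yh, R.x1, R.n1x, R.o1y, R.n2h, R.o2y, R.n3e, R.o3h, R.n4x, R.o4y, e1, e2, e3, e4, e5, e6, e7, e8, e9, e10, e11]

theorem ma1t_24 {s y b k M1 M2 M3 M4 G1 G2 G3 G4 : ℝ} (R : RgA1T s y b k M1 M2 M3 M4 G1 G2 G3 G4)
    (s1 : 3 / 5 ≤ s) (s2 : s ≤ 309 / 500) (y1 : 108 / 125 ≤ y) (y2 : y ≤ 8661 / 10000)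
    (b1 : 3 / 8 ≤ b) (b2 : b ≤ 97 / 250) :
    0 ≤ fBoxMA1T s y b k M1 M2 M3 M4 G1 G2 G3 G4 := by
  have e1 := up (t1 := (67 / 1000)) (t2 := (68 / 1000)) (x := 1 - h0) (by norm_num)
    (by linarith only [R.h2]) (by linarith only [R.h1])
  have e2 := up (t1 := (577 / 1000)) (t2 := (581 / 1000)) (x := 2 * h0 - y) (by norm_num)
    (by linarith only [R.h1, R.yh]) (by linarith only [R.h2, R.x0])
  have e3 := R.lo3 (688 / 1000) (by norm_num)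
  have e4 := up (t1 := (688 / 1000)) (t2 := (693 / 1000)) (x := 9 / 5 - y) (by norm_num)
    (by linarith only [R.h2, R.yh]) (by linarith only [R.h1, R.x0])
  have e5 := up (t1 := (194 / 1000)) (t2 := (202 / 1000)) (x := b) (by norm_num)
    (by linarith only [b1]) (by linarith only [b2])
  have e6 := up (t1 := (336 / 1000)) (t2 := (348 / 1000)) (x := h0 + s - y) (by norm_num)
    (by linarith only [R.k2, R.h1, R.yh, R.x1, b2, e5]) (by linarith only [R.x0, s2])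
  have e7 := R.lo10 (341 / 1000) (by norm_num)
  have e8 := up (t1 := (574 / 1000)) (t2 := (578 / 1000)) (x := y) (by norm_num)
    (by linarith only [R.h1, R.x0]) (by linarith only [R.h2, R.yh])
  have e9 := R.lo14 (67 / 1000) (by norm_num)
  have e10 := R.lo13 (876 / 1000) (by norm_num)
  have e11 := R.lo16 (340 / 1000) (by norm_num)
  have e12 := R.lo13 (873 / 1000) (by norm_num)
  unfold fBoxMA1T
  linarith only [R.k2, R.h2, R.h3, R.x1, R.n1x, R.o1y, R.n2e, R.o2y, R.n3x, R.n3e, R.o3h, R.n4x, R.o4y, e1, e2, e3, e4, e5, e6, e7, e8, e9, e10, e11, e12]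

theorem ma1t_25 {s y b k M1 M2 M3 M4 G1 G2 G3 G4 : ℝ} (R : RgA1T s y b k M1 M2 M3 M4 G1 G2 G3 G4)
    (s1 : 309 / 500 ≤ s) (s2 : s ≤ 127 / 200) (y1 : 108 / 125 ≤ y) (y2 : y ≤ 8661 / 10000)
    (b1 : 3 / 8 ≤ b) (b2 : b ≤ 97 / 250) :
    0 ≤ fBoxMA1T s y b k M1 M2 M3 M4 G1 G2 G3 G4 := by
  have e1 := up (t1 := (67 / 1000)) (t2 := (68 / 1000)) (x := 1 - h0) (by norm_num)
    (by linarith only [R.h2]) (by linarith only [R.h1])
  have e2 := R.lo3 (688 / 1000) (by norm_num)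
  have e3 := up (t1 := (688 / 1000)) (t2 := (693 / 1000)) (x := 9 / 5 - y) (by norm_num)
    (by linarith only [R.h2, R.yh]) (by linarith only [R.h1, R.x0])
  have e4 := up (t1 := (194 / 1000)) (t2 := (202 / 1000)) (x := b) (by norm_num)
    (by linarith only [b1]) (by linarith only [b2])
  have e5 := up (t1 := (345 / 1000)) (t2 := (360 / 1000)) (x := h0 + s - y) (by norm_num)
    (by linarith only [R.yh, s1]) (by linarith only [R.x0, s2])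
  have e6 := R.lo10 (346 / 1000) (by norm_num)
  have e7 := up (t1 := (574 / 1000)) (t2 := (578 / 1000)) (x := y) (by norm_num)
    (by linarith only [R.h1, R.x0]) (by linarith only [R.h2, R.yh])
  have e8 := R.lo13 (869 / 1000) (by norm_num)
  have e9 := R.lo14 (66 / 1000) (by norm_num)
  have e10 := R.lo16 (344 / 1000) (by norm_num)
  unfold fBoxMA1T
  linarith only [R.k2, R.h2, R.h3, R.n1x, R.o1y, R.n2h, R.o2y, R.n3x, R.n3e, R.o3h, R.n4x, R.o4y, s1, b1, e1, e2, e3, e4, e5, e6, e7, e8, e9, e10]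

theorem ma1t_27 {s y b k M1 M2 M3 M4 G1 G2 G3 G4 : ℝ} (R : RgA1T s y b k M1 M2 M3 M4 G1 G2 G3 G4)
    (s1 : 3 / 5 ≤ s) (s2 : s ≤ 309 / 500) (y1 : 108 / 125 ≤ y) (y2 : y ≤ 8661 / 10000)
    (b1 : 97 / 250 ≤ b) (b2 : b ≤ 2 / 5) :
    0 ≤ fBoxMA1T s y b k M1 M2 M3 M4 G1 G2 G3 G4 := by
  have e1 := up (t1 := (67 / 1000)) (t2 := (68 / 1000)) (x := 1 - h0) (by norm_num)
    (by linarith only [R.h2]) (by linarith only [R.h1])
  have e2 := up (t1 := (577 / 1000)) (t2 := (581 / 1000)) (x := 2 * h0 - y) (by norm_num)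
    (by linarith only [R.h1, R.yh]) (by linarith only [R.h2, R.x0])
  have e3 := R.lo3 (688 / 1000) (by norm_num)
  have e4 := up (t1 := (688 / 1000)) (t2 := (693 / 1000)) (x := 9 / 5 - y) (by norm_num)
    (by linarith only [R.h2, R.yh]) (by linarith only [R.h1, R.x0])
  have e5 := up (t1 := (201 / 1000)) (t2 := (209 / 1000)) (x := b) (by norm_num)
    (by linarith only [b1]) (by linarith only [b2])
  have e6 := up (t1 := (333 / 1000)) (t2 := (348 / 1000)) (x := h0 + s - y) (by norm_num)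
    (by linarith only [R.yh, s1]) (by linarith only [R.x0, s2])
  have e7 := up (t1 := (574 / 1000)) (t2 := (578 / 1000)) (x := y) (by norm_num)
    (by linarith only [R.h1, R.x0]) (by linarith only [R.h2, R.yh])
  have e8 := R.lo14 (67 / 1000) (by norm_num)
  have e9 := R.lo10 (334 / 1000) (by norm_num)
  have e10 := R.lo10 (336 / 1000) (by norm_num)
  have e11 := R.lo13 (884 / 1000) (by norm_num)
  have e12 := R.lo16 (335 / 1000) (by norm_num)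
  unfold fBoxMA1T
  linarith only [R.k2, R.h2, R.h3, R.x1, R.n1x, R.o1y, R.n2e, R.o2y, R.n3x, R.n3e, R.o3h, R.n4x, R.o4y, e1, e2, e3, e4, e5, e6, e7, e8, e9, e10, e11, e12]

theorem ma1t_28 {s y b k M1 M2 M3 M4 G1 G2 G3 G4 : ℝ} (R : RgA1T s y b k M1 M2 M3 M4 G1 G2 G3 G4)
    (s1 : 309 / 500 ≤ s) (s2 : s ≤ 127 / 200) (y1 : 108 / 125 ≤ y) (y2 : y ≤ 8661 / 10000)
    (b1 : 97 / 250 ≤ b) (b2 : b ≤ 2 / 5) :
    0 ≤ fBoxMA1T s y b k M1 M2 M3 M4 G1 G2 G3 G4 := by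
  have e1 := up (t1 := (67 / 1000)) (t2 := (68 / 1000)) (x := 1 - h0) (by norm_num)
    (by linarith only [R.h2]) (by linarith only [R.h1])
  have e2 := R.lo3 (688 / 1000) (by norm_num)
  have e3 := up (t1 := (688 / 1000)) (t2 := (693 / 1000)) (x := 9 / 5 - y) (by norm_num)
    (by linarith only [R.h2, R.yh]) (by linarith only [R.h1, R.x0])
  have e4 := up (t1 := (201 / 1000)) (t2 := (209 / 1000)) (x := b) (by norm_num)
    (by linarith only [b1]) (by linarith only [b2])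
  have e5 := up (t1 := (345 / 1000)) (t2 := (360 / 1000)) (x := h0 + s - y) (by norm_num)
    (by linarith only [R.yh, s1]) (by linarith only [R.x0, s2])
  have e6 := R.lo8 (453 / 1000) (by norm_num)
  have e7 := up (t1 := (453 / 1000)) (t2 := (472 / 1000)) (x := s + 1 - y) (by norm_num)
    (by linarith only [R.h2, R.yh, s1]) (by linarith only [R.h1, R.x0, s2])
  have e8 := R.lo10 (346 / 1000) (by norm_num)
  have e9 := up (t1 := (574 / 1000)) (t2 := (578 / 1000)) (x := y) (by norm_num)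
    (by linarith only [R.h1, R.x0]) (by linarith only [R.h2, R.yh])
  have e10 := R.lo13 (880 / 1000) (by norm_num)
  have e11 := R.lo14 (60 / 1000) (by norm_num)
  have e12 := R.lo16 (336 / 1000) (by norm_num)
  unfold fBoxMA1T
  linarith only [R.k2, R.h2, R.h3, R.n1e, R.o1y, R.n2h, R.o2y, R.n3x, R.n3e, R.o3h, R.n4x, R.o4y, s1, b1, e1, e2, e3, e4, e5, e6, e7, e8, e9, e10, e11, e12]

theorem ma1t_30 {s y b k M1 M2 M3 M4 G1 G2 G3 G4 : ℝ} (R : RgA1T s y b k M1 M2 M3 M4 G1 G2 G3 G4)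
    (s1 : 127 / 200 ≤ s) (s2 : s ≤ 67 / 100) (y1 : 108 / 125 ≤ y) (y2 : y ≤ 8661 / 10000)
    (b1 : 7 / 20 ≤ b) (b2 : b ≤ 3 / 8) :
    0 ≤ fBoxMA1T s y b k M1 M2 M3 M4 G1 G2 G3 G4 := by
  have e1 := up (t1 := (67 / 1000)) (t2 := (68 / 1000)) (x := 1 - h0) (by norm_num)
    (by linarith only [R.h2]) (by linarith only [R.h1])
  have e2 := up (t1 := (577 / 1000)) (t2 := (581 / 1000)) (x := 2 * h0 - y) (by norm_num)
    (by linarith only [R.h1, R.yh]) (by linarith only [R.h2, R.x0])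
  have e3 := R.lo3 (688 / 1000) (by norm_num)
  have e4 := up (t1 := (688 / 1000)) (t2 := (693 / 1000)) (x := 9 / 5 - y) (by norm_num)
    (by linarith only [R.h2, R.yh]) (by linarith only [R.h1, R.x0])
  have e5 := up (t1 := (180 / 1000)) (t2 := (195 / 1000)) (x := b) (by norm_num)
    (by linarith only [b1]) (by linarith only [b2])
  have e6 := up (t1 := (358 / 1000)) (t2 := (387 / 1000)) (x := h0 + s - y) (by norm_num)
    (by linarith only [R.yh, s1]) (by linarith only [R.x0, s2])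
  have e7 := R.lo8 (469 / 1000) (by norm_num)
  have e8 := up (t1 := (469 / 1000)) (t2 := (507 / 1000)) (x := s + 1 - y) (by norm_num)
    (by linarith only [R.h2, R.yh, s1]) (by linarith only [R.h1, R.x0, s2])
  have e9 := R.lo10 (358 / 1000) (by norm_num)
  have e10 := up (t1 := (574 / 1000)) (t2 := (578 / 1000)) (x := y) (by norm_num)
    (by linarith only [R.h1, R.x0]) (by linarith only [R.h2, R.yh])
  have e11 := R.lo14 (67 / 1000) (by norm_num)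
  have e12 := R.lo16 (359 / 1000) (by norm_num)
  have e13 := R.lo13 (846 / 1000) (by norm_num)
  unfold fBoxMA1T
  linarith only [R.k2, R.h2, R.h3, R.x1, R.n1x, R.n1e, R.o1y, R.n2e, R.o2y, R.n3x, R.n3e, R.o3h, R.n4x, R.o4y, e1, e2, e3, e4, e5, e6, e7, e8, e9, e10, e11, e12, e13]

theorem ma1t_31 {s y b k M1 M2 M3 M4 G1 G2 G3 G4 : ℝ} (R : RgA1T s y b k M1 M2 M3 M4 G1 G2 G3 G4)
    (s1 : 127 / 200 ≤ s) (s2 : s ≤ 67 / 100) (y1 : 108 / 125 ≤ y) (y2 : y ≤ 8661 / 10000)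
    (b1 : 3 / 8 ≤ b) (b2 : b ≤ 2 / 5) :
    0 ≤ fBoxMA1T s y b k M1 M2 M3 M4 G1 G2 G3 G4 := by
  have e1 := up (t1 := (67 / 1000)) (t2 := (68 / 1000)) (x := 1 - h0) (by norm_num)
    (by linarith only [R.h2]) (by linarith only [R.h1])
  have e2 := R.lo3 (688 / 1000) (by norm_num)
  have e3 := up (t1 := (688 / 1000)) (t2 := (693 / 1000)) (x := 9 / 5 - y) (by norm_num)
    (by linarith only [R.h2, R.yh]) (by linarith only [R.h1, R.x0])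
  have e4 := up (t1 := (194 / 1000)) (t2 := (209 / 1000)) (x := b) (by norm_num)
    (by linarith only [b1]) (by linarith only [b2])
  have e5 := up (t1 := (358 / 1000)) (t2 := (387 / 1000)) (x := h0 + s - y) (by norm_num)
    (by linarith only [R.yh, s1]) (by linarith only [R.x0, s2])
  have e6 := R.lo8 (469 / 1000) (by norm_num)
  have e7 := up (t1 := (469 / 1000)) (t2 := (507 / 1000)) (x := s + 1 - y) (by norm_num)
    (by linarith only [R.h2, R.yh, s1]) (by linarith only [R.h1, R.x0, s2])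
  have e8 := R.lo10 (358 / 1000) (by norm_num)
  have e9 := up (t1 := (574 / 1000)) (t2 := (578 / 1000)) (x := y) (by norm_num)
    (by linarith only [R.h1, R.x0]) (by linarith only [R.h2, R.yh])
  have e10 := R.lo13 (874 / 1000) (by norm_num)
  have e11 := R.lo14 (57 / 1000) (by norm_num)
  have e12 := R.lo16 (344 / 1000) (by norm_num)
  unfold fBoxMA1T
  linarith only [R.k2, R.h2, R.h3, R.n1e, R.o1y, R.n2h, R.o2y, R.n3x, R.n3e, R.o3h, R.n4x, R.o4y, s1, b1, e1, e2, e3, e4, e5, e6, e7, e8, e9, e10, e11, e12]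

theorem ma1t_33 {s y b k M1 M2 M3 M4 G1 G2 G3 G4 : ℝ} (R : RgA1T s y b k M1 M2 M3 M4 G1 G2 G3 G4)
    (s1 : 3 / 5 ≤ s) (s2 : s ≤ 67 / 100) (y1 : 108 / 125 ≤ y) (y2 : y ≤ 8661 / 10000)
    (b1 : 2 / 5 ≤ b) (b2 : b ≤ 9 / 20) :
    0 ≤ fBoxMA1T s y b k M1 M2 M3 M4 G1 G2 G3 G4 := by
  have e1 := up (t1 := (67 / 1000)) (t2 := (68 / 1000)) (x := 1 - h0) (by norm_num)
    (by linarith only [R.h2]) (by linarith only [R.h1])
  have e2 := up (t1 := (208 / 1000)) (t2 := (238 / 1000)) (x := b) (by norm_num)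
    (by linarith only [b1]) (by linarith only [b2])
  have e3 := up (t1 := (333 / 1000)) (t2 := (387 / 1000)) (x := h0 + s - y) (by norm_num)
    (by linarith only [R.yh, s1]) (by linarith only [R.x0, s2])
  have e4 := R.lo10 (333 / 1000) (by norm_num)
  have e5 := up (t1 := (574 / 1000)) (t2 := (578 / 1000)) (x := y) (by norm_num)
    (by linarith only [R.h1, R.x0]) (by linarith only [R.h2, R.yh])
  have e6 := R.lo13 (905 / 1000) (by norm_num)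
  have e7 := R.lo13 (879 / 1000) (by norm_num)
  have e8 := R.lo14 (64 / 1000) (by norm_num)
  have e9 := R.lo16 (329 / 1000) (by norm_num)
  unfold fBoxMA1T
  linarith only [R.k2, R.h2, R.h3, R.n1x, R.o1y, R.n2h, R.o2y, R.n3x, R.o3h, R.n4x, R.o4y, s1, b1, e1, e2, e3, e4, e5, e6, e7, e8, e9]

theorem ma1t_34 {s y b k M1 M2 M3 M4 G1 G2 G3 G4 : ℝ} (R : RgA1T s y b k M1 M2 M3 M4 G1 G2 G3 G4)
    (s1 : 3 / 5 ≤ s) (s2 : s ≤ 67 / 100) (y1 : 108 / 125 ≤ y) (y2 : y ≤ 8661 / 10000)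
    (b1 : 9 / 20 ≤ b) (b2 : b ≤ 1 / 2) :
    0 ≤ fBoxMA1T s y b k M1 M2 M3 M4 G1 G2 G3 G4 := by
  have e1 := up (t1 := (67 / 1000)) (t2 := (68 / 1000)) (x := 1 - h0) (by norm_num)
    (by linarith only [R.h2]) (by linarith only [R.h1])
  have e2 := up (t1 := (237 / 1000)) (t2 := (268 / 1000)) (x := b) (by norm_num)
    (by linarith only [b1]) (by linarith only [b2])
  have e3 := up (t1 := (333 / 1000)) (t2 := (387 / 1000)) (x := h0 + s - y) (by norm_num)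
    (by linarith only [R.yh, s1]) (by linarith only [R.x0, s2])
  have e4 := R.lo10 (333 / 1000) (by norm_num)
  have e5 := up (t1 := (574 / 1000)) (t2 := (578 / 1000)) (x := y) (by norm_num)
    (by linarith only [R.h1, R.x0]) (by linarith only [R.h2, R.yh])
  have e6 := R.lo13 (934 / 1000) (by norm_num)
  have e7 := R.lo14 (11 / 1000) (by norm_num)
  have e8 := R.lo16 (282 / 1000) (by norm_num)
  have e9 := R.lo16 (267 / 1000) (by norm_num)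
  unfold fBoxMA1T
  linarith only [R.k2, R.h1, R.h3, R.x0, R.n1x, R.o1y, R.n2h, R.o2y, R.n3x, R.o3h, R.n4x, R.o4y, s1, e1, e2, e3, e4, e5, e6, e7, e8, e9]

theorem ma1t_32 {s y b k M1 M2 M3 M4 G1 G2 G3 G4 : ℝ} (R : RgA1T s y b k M1 M2 M3 M4 G1 G2 G3 G4)
    (s1 : 3 / 5 ≤ s) (s2 : s ≤ 67 / 100) (y1 : 108 / 125 ≤ y) (y2 : y ≤ 8661 / 10000)
    (b1 : 2 / 5 ≤ b) (b2 : b ≤ 1 / 2) :
    0 ≤ fBoxMA1T s y b k M1 M2 M3 M4 G1 G2 G3 G4 := by
  rcases le_total b (9 / 20) with h | h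
  · exact ma1t_33 R s1 s2 y1 y2 b1 h
  · exact ma1t_34 R s1 s2 y1 y2 h b2

theorem ma1t_29 {s y b k M1 M2 M3 M4 G1 G2 G3 G4 : ℝ} (R : RgA1T s y b k M1 M2 M3 M4 G1 G2 G3 G4)
    (s1 : 127 / 200 ≤ s) (s2 : s ≤ 67 / 100) (y1 : 108 / 125 ≤ y) (y2 : y ≤ 8661 / 10000)
    (b1 : 7 / 20 ≤ b) (b2 : b ≤ 2 / 5) :
    0 ≤ fBoxMA1T s y b k M1 M2 M3 M4 G1 G2 G3 G4 := by
  rcases le_total b (3 / 8) with h | h
  · exact ma1t_30 R s1 s2 y1 y2 b1 h
  · exact ma1t_31 R s1 s2 y1 y2 h b2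

theorem ma1t_26 {s y b k M1 M2 M3 M4 G1 G2 G3 G4 : ℝ} (R : RgA1T s y b k M1 M2 M3 M4 G1 G2 G3 G4)
    (s1 : 3 / 5 ≤ s) (s2 : s ≤ 127 / 200) (y1 : 108 / 125 ≤ y) (y2 : y ≤ 8661 / 10000)
    (b1 : 97 / 250 ≤ b) (b2 : b ≤ 2 / 5) :
    0 ≤ fBoxMA1T s y b k M1 M2 M3 M4 G1 G2 G3 G4 := by
  rcases le_total s (309 / 500) with h | h
  · exact ma1t_27 R s1 h y1 y2 b1 b2
  · exact ma1t_28 R h s2 y1 y2 b1 b2

theorem ma1t_23 {s y b k M1 M2 M3 M4 G1 G2 G3 G4 : ℝ} (R : RgA1T s y b k M1 M2 M3 M4 G1 G2 G3 G4)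
    (s1 : 3 / 5 ≤ s) (s2 : s ≤ 127 / 200) (y1 : 108 / 125 ≤ y) (y2 : y ≤ 8661 / 10000)
    (b1 : 3 / 8 ≤ b) (b2 : b ≤ 97 / 250) :
    0 ≤ fBoxMA1T s y b k M1 M2 M3 M4 G1 G2 G3 G4 := by
  rcases le_total s (309 / 500) with h | h
  · exact ma1t_24 R s1 h y1 y2 b1 b2
  · exact ma1t_25 R h s2 y1 y2 b1 b2

theorem ma1t_22 {s y b k M1 M2 M3 M4 G1 G2 G3 G4 : ℝ} (R : RgA1T s y b k M1 M2 M3 M4 G1 G2 G3 G4)
    (s1 : 3 / 5 ≤ s) (s2 : s ≤ 127 / 200) (y1 : 108 / 125 ≤ y) (y2 : y ≤ 8661 / 10000)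
    (b1 : 3 / 8 ≤ b) (b2 : b ≤ 2 / 5) :
    0 ≤ fBoxMA1T s y b k M1 M2 M3 M4 G1 G2 G3 G4 := by
  rcases le_total b (97 / 250) with h | h
  · exact ma1t_23 R s1 s2 y1 y2 b1 h
  · exact ma1t_26 R s1 s2 y1 y2 h b2

theorem ma1t_19 {s y b k M1 M2 M3 M4 G1 G2 G3 G4 : ℝ} (R : RgA1T s y b k M1 M2 M3 M4 G1 G2 G3 G4)
    (s1 : 3 / 5 ≤ s) (s2 : s ≤ 127 / 200) (y1 : 108 / 125 ≤ y) (y2 : y ≤ 8661 / 10000)
    (b1 : 363 / 1000 ≤ b) (b2 : b ≤ 3 / 8) :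
    0 ≤ fBoxMA1T s y b k M1 M2 M3 M4 G1 G2 G3 G4 := by
  rcases le_total b (369 / 1000) with h | h
  · exact ma1t_20 R s1 s2 y1 y2 b1 h
  · exact ma1t_21 R s1 s2 y1 y2 h b2

theorem ma1t_17 {s y b k M1 M2 M3 M4 G1 G2 G3 G4 : ℝ} (R : RgA1T s y b k M1 M2 M3 M4 G1 G2 G3 G4)
    (s1 : 3 / 5 ≤ s) (s2 : s ≤ 127 / 200) (y1 : 108 / 125 ≤ y) (y2 : y ≤ 8661 / 10000)
    (b1 : 7 / 20 ≤ b) (b2 : b ≤ 3 / 8) :
    0 ≤ fBoxMA1T s y b k M1 M2 M3 M4 G1 G2 G3 G4 := by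
  rcases le_total b (363 / 1000) with h | h
  · exact ma1t_18 R s1 s2 y1 y2 b1 h
  · exact ma1t_19 R s1 s2 y1 y2 h b2

theorem ma1t_16 {s y b k M1 M2 M3 M4 G1 G2 G3 G4 : ℝ} (R : RgA1T s y b k M1 M2 M3 M4 G1 G2 G3 G4)
    (s1 : 3 / 5 ≤ s) (s2 : s ≤ 127 / 200) (y1 : 108 / 125 ≤ y) (y2 : y ≤ 8661 / 10000)
    (b1 : 7 / 20 ≤ b) (b2 : b ≤ 2 / 5) :
    0 ≤ fBoxMA1T s y b k M1 M2 M3 M4 G1 G2 G3 G4 := by
  rcases le_total b (3 / 8) with h | h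
  · exact ma1t_17 R s1 s2 y1 y2 b1 h
  · exact ma1t_22 R s1 s2 y1 y2 h b2

theorem ma1t_15 {s y b k M1 M2 M3 M4 G1 G2 G3 G4 : ℝ} (R : RgA1T s y b k M1 M2 M3 M4 G1 G2 G3 G4)
    (s1 : 3 / 5 ≤ s) (s2 : s ≤ 67 / 100) (y1 : 108 / 125 ≤ y) (y2 : y ≤ 8661 / 10000)
    (b1 : 7 / 20 ≤ b) (b2 : b ≤ 2 / 5) :
    0 ≤ fBoxMA1T s y b k M1 M2 M3 M4 G1 G2 G3 G4 := by
  rcases le_total s (127 / 200) with h | h
  · exact ma1t_16 R s1 h y1 y2 b1 b2
  · exact ma1t_29 R h s2 y1 y2 b1 b2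

theorem ma1t_12 {s y b k M1 M2 M3 M4 G1 G2 G3 G4 : ℝ} (R : RgA1T s y b k M1 M2 M3 M4 G1 G2 G3 G4)
    (s1 : 3 / 5 ≤ s) (s2 : s ≤ 67 / 100) (y1 : 108 / 125 ≤ y) (y2 : y ≤ 8661 / 10000)
    (b1 : 687 / 2000 ≤ b) (b2 : b ≤ 7 / 20) :
    0 ≤ fBoxMA1T s y b k M1 M2 M3 M4 G1 G2 G3 G4 := by
  rcases le_total b (867 / 2500) with h | h
  · exact ma1t_13 R s1 s2 y1 y2 b1 h
  · exact ma1t_14 R s1 s2 y1 y2 h b2

theorem ma1t_10 {s y b k M1 M2 M3 M4 G1 G2 G3 G4 : ℝ} (R : RgA1T s y b k M1 M2 M3 M4 G1 G2 G3 G4)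
    (s1 : 3 / 5 ≤ s) (s2 : s ≤ 67 / 100) (y1 : 108 / 125 ≤ y) (y2 : y ≤ 8661 / 10000)
    (b1 : 337 / 1000 ≤ b) (b2 : b ≤ 7 / 20) :
    0 ≤ fBoxMA1T s y b k M1 M2 M3 M4 G1 G2 G3 G4 := by
  rcases le_total b (687 / 2000) with h | h
  · exact ma1t_11 R s1 s2 y1 y2 b1 h
  · exact ma1t_12 R s1 s2 y1 y2 h b2

theorem ma1t_7 {s y b k M1 M2 M3 M4 G1 G2 G3 G4 : ℝ} (R : RgA1T s y b k M1 M2 M3 M4 G1 G2 G3 G4)
    (s1 : 3 / 5 ≤ s) (s2 : s ≤ 67 / 100) (y1 : 108 / 125 ≤ y) (y2 : y ≤ 8661 / 10000)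
    (b1 : 13 / 40 ≤ b) (b2 : b ≤ 337 / 1000) :
    0 ≤ fBoxMA1T s y b k M1 M2 M3 M4 G1 G2 G3 G4 := by
  rcases le_total y (8651 / 10000) with h | h
  · exact ma1t_8 R s1 s2 y1 h b1 b2
  · exact ma1t_9 R s1 s2 h y2 b1 b2

theorem ma1t_6 {s y b k M1 M2 M3 M4 G1 G2 G3 G4 : ℝ} (R : RgA1T s y b k M1 M2 M3 M4 G1 G2 G3 G4)
    (s1 : 3 / 5 ≤ s) (s2 : s ≤ 67 / 100) (y1 : 108 / 125 ≤ y) (y2 : y ≤ 8661 / 10000)
    (b1 : 13 / 40 ≤ b) (b2 : b ≤ 7 / 20) :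
    0 ≤ fBoxMA1T s y b k M1 M2 M3 M4 G1 G2 G3 G4 := by
  rcases le_total b (337 / 1000) with h | h
  · exact ma1t_7 R s1 s2 y1 y2 b1 h
  · exact ma1t_10 R s1 s2 y1 y2 h b2

theorem ma1t_3 {s y b k M1 M2 M3 M4 G1 G2 G3 G4 : ℝ} (R : RgA1T s y b k M1 M2 M3 M4 G1 G2 G3 G4)
    (s1 : 3 / 5 ≤ s) (s2 : s ≤ 67 / 100) (y1 : 108 / 125 ≤ y) (y2 : y ≤ 8661 / 10000)
    (b1 : 3 / 10 ≤ b) (b2 : b ≤ 13 / 40) :
    0 ≤ fBoxMA1T s y b k M1 M2 M3 M4 G1 G2 G3 G4 := by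
  rcases le_total b (313 / 1000) with h | h
  · exact ma1t_4 R s1 s2 y1 y2 b1 h
  · exact ma1t_5 R s1 s2 y1 y2 h b2

theorem ma1t_2 {s y b k M1 M2 M3 M4 G1 G2 G3 G4 : ℝ} (R : RgA1T s y b k M1 M2 M3 M4 G1 G2 G3 G4)
    (s1 : 3 / 5 ≤ s) (s2 : s ≤ 67 / 100) (y1 : 108 / 125 ≤ y) (y2 : y ≤ 8661 / 10000)
    (b1 : 3 / 10 ≤ b) (b2 : b ≤ 7 / 20) :
    0 ≤ fBoxMA1T s y b k M1 M2 M3 M4 G1 G2 G3 G4 := by
  rcases le_total b (13 / 40) with h | h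
  · exact ma1t_3 R s1 s2 y1 y2 b1 h
  · exact ma1t_6 R s1 s2 y1 y2 h b2

theorem ma1t_1 {s y b k M1 M2 M3 M4 G1 G2 G3 G4 : ℝ} (R : RgA1T s y b k M1 M2 M3 M4 G1 G2 G3 G4)
    (s1 : 3 / 5 ≤ s) (s2 : s ≤ 67 / 100) (y1 : 108 / 125 ≤ y) (y2 : y ≤ 8661 / 10000)
    (b1 : 3 / 10 ≤ b) (b2 : b ≤ 2 / 5) :
    0 ≤ fBoxMA1T s y b k M1 M2 M3 M4 G1 G2 G3 G4 := by
  rcases le_total b (7 / 20) with h | h
  · exact ma1t_2 R s1 s2 y1 y2 b1 h
  · exact ma1t_15 R s1 s2 y1 y2 h b2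

theorem ma1t_0 {s y b k M1 M2 M3 M4 G1 G2 G3 G4 : ℝ} (R : RgA1T s y b k M1 M2 M3 M4 G1 G2 G3 G4)
    (s1 : 3 / 5 ≤ s) (s2 : s ≤ 67 / 100) (y1 : 108 / 125 ≤ y) (y2 : y ≤ 8661 / 10000)
    (b1 : 3 / 10 ≤ b) (b2 : b ≤ 1 / 2) :
    0 ≤ fBoxMA1T s y b k M1 M2 M3 M4 G1 G2 G3 G4 := by
  rcases le_total b (2 / 5) with h | h
  · exact ma1t_1 R s1 s2 y1 y2 b1 h
  · exact ma1t_32 R s1 s2 y1 y2 h b2

end Pool.Agent.Strip051.FourF
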