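import Pool.Agent.Strip051.FourB.Box

/-! # The new point between s and h0, A21 -/

namespace Pool.Agent.Strip051.FourF

set_option linter.unusedVariables false

open Pool.Agent.StripNear Pool.Agent.StripSquare Pool.Agent.Strip051
open Pool.Agent.Strip051.Four.Low (ph)
open Pool.Agent.Strip051.FourB (lo up)

/-- The function of the boxes `ma21_`. -/
noncomputable def fBoxMA21 (s y b k M1 M2 M3 M4 G1 G2 G3 G4 : ℝ) : ℝ :=
  G1 + G2 + G3 + G4 - 8 * ph y + 4 * ph s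

/-- The region of the boxes `ma21_`. -/
structure RgA21 (s y b k M1 M2 M3 M4 G1 G2 G3 G4 : ℝ) : Prop where
  k1 : 86602 / 100000 * ph b ≤ k
  k2 : k ≤ 86603 / 100000 * ph b
  h1 : 86602 / 100000 ≤ h0
  h2 : h0 ≤ 86603 / 100000
  h3 : 86602 / 100000 * b ≤ h0 * b
  k3 : 0 ≤ k
  k4 : k ≤ 1161 / 10000
  hq : h0 + b / 2 - k ≤ 1
  ys : s ≤ y
  yh : y ≤ h0
  yt : y ≤ 2 * h0 - 1
  x0 : 1 / 100 ≤ (y - s) + b
  n1x : 1 - 1 / 2 - 1 / 2 * ph b - h0 * b + ph (y + b / 2 - k) - ph (1 - h0) ≤ M1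
  n1e : 1 - ph (s + 1 - y) + ph (s + 1 - h0) - ph (1 - h0) ≤ M1
  o11 : M1 - 1 / 2 - 1 / 2 * ph b + h0 * b + ph (y - b / 2 - k + h0 - 1) ≤ G1
  o1y : M1 - ph (h0 + s - y) + ph (h0 + s - 1) ≤ G1
  n2h : 1 - 1 / 2 - 1 / 2 * ph b - h0 * b + ph (y + b / 2 - k) - ph (h0 + s - 1) ≤ M2
  o2m : M2 - 1 / 2 - 1 / 2 * ph b + h0 * b + ph (y - b / 2 - k - h0 - s + 1) ≤ G2
  o2l : M2 - 1 / 2 - 1 / 2 * ph b + h0 * b + ph (y - b / 2 - k - h0 + 1) - ph (1 + s - h0) + ph (1 - h0) ≤ G2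
  n3x : 1 - 1 / 2 - 1 / 2 * ph b - h0 * b + ph (y + b / 2 - k) - ph (1 - h0) ≤ M3
  o3h : M3 - 1 / 2 - 1 / 2 * ph b + h0 * b + ph (y - b / 2 - k) - ph (1 - h0) ≤ G3
  n4e : 1 - ph (h0 + s - y) + ph (1 - h0) ≤ M4
  o4y : M4 - ph (h0 + s - y) + ph (1 - h0) ≤ G4
  o4m : M4 - 1 / 2 - 1 / 2 * ph b + h0 * b + ph (y - b / 2 - k - h0 - s + 1) ≤ G4
  o4v : M4 - 1 / 2 - 1 / 2 * ph b + h0 * b + ph (y - b / 2 - k - s) - ph (1 - h0) ≤ G4
  s1 : 3 / 5 ≤ s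
  s2 : s ≤ 67 / 100
  y1 : 3 / 5 ≤ y
  y2 : y ≤ 7321 / 10000
  b1 : 0 ≤ b
  b2 : b ≤ 1 / 2

theorem RgA21.lo6 {s y b k M1 M2 M3 M4 G1 G2 G3 G4 : ℝ} (R : RgA21 s y b k M1 M2 M3 M4 G1 G2 G3 G4) (w0 : ℝ) (hw0 : w0 ^ 2 < 1) :
    2 * w0 * (s + 1 - h0) - 2 * w0 ^ 2 ≤ (1 - w0 ^ 2) * ph (s + 1 - h0) :=
  lo hw0 (by linarith only [R.h2, R.s1]) (by linarith only [R.h1, R.s2])

theorem RgA21.lo8 {s y b k M1 M2 M3 M4 G1 G2 G3 G4 : ℝ} (R : RgA21 s y b k M1 M2 M3 M4 G1 G2 G3 G4) (w0 : ℝ) (hw0 : w0 ^ 2 < 1) :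
    2 * w0 * (s) - 2 * w0 ^ 2 ≤ (1 - w0 ^ 2) * ph (s) :=
  lo hw0 (by linarith only [R.s1]) (by linarith only [R.s2])

theorem RgA21.lo9 {s y b k M1 M2 M3 M4 G1 G2 G3 G4 : ℝ} (R : RgA21 s y b k M1 M2 M3 M4 G1 G2 G3 G4) (w0 : ℝ) (hw0 : w0 ^ 2 < 1) :
    2 * w0 * (y + b / 2 - k) - 2 * w0 ^ 2 ≤ (1 - w0 ^ 2) * ph (y + b / 2 - k) :=
  lo hw0 (by linarith only [R.k4, R.ys, R.x0, R.s1]) (by linarith only [R.h2, R.hq, R.yt])

theorem RgA21.lo10 {s y b k M1 M2 M3 M4 G1 G2 G3 G4 : ℝ} (R : RgA21 s y b k M1 M2 M3 M4 G1 G2 G3 G4) (w0 : ℝ) (hw0 : w0 ^ 2 < 1) :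
    2 * w0 * (y - b / 2 - k + h0 - 1) - 2 * w0 ^ 2 ≤ (1 - w0 ^ 2) * ph (y - b / 2 - k + h0 - 1) :=
  lo hw0 (by linarith only [R.h1, R.k4, R.ys, R.s1, R.b2]) (by linarith only [R.h2, R.k3, R.yt, R.b1])

theorem RgA21.lo11 {s y b k M1 M2 M3 M4 G1 G2 G3 G4 : ℝ} (R : RgA21 s y b k M1 M2 M3 M4 G1 G2 G3 G4) (w0 : ℝ) (hw0 : w0 ^ 2 < 1) :
    2 * w0 * (y - b / 2 - k - h0 + 1) - 2 * w0 ^ 2 ≤ (1 - w0 ^ 2) * ph (y - b / 2 - k - h0 + 1) :=
  lo hw0 (by linarith only [R.h2, R.k4, R.ys, R.s1, R.b2]) (by linarith only [R.h2, R.k3, R.yt, R.b1])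

theorem RgA21.lo12 {s y b k M1 M2 M3 M4 G1 G2 G3 G4 : ℝ} (R : RgA21 s y b k M1 M2 M3 M4 G1 G2 G3 G4) (w0 : ℝ) (hw0 : w0 ^ 2 < 1) :
    2 * w0 * (y - b / 2 - k - h0 - s + 1) - 2 * w0 ^ 2 ≤ (1 - w0 ^ 2) * ph (y - b / 2 - k - h0 - s + 1) :=
  lo hw0 (by linarith only [R.h2, R.k4, R.ys, R.b2]) (by linarith only [R.h2, R.k3, R.yt, R.s1, R.b1])

theorem RgA21.lo13 {s y b k M1 M2 M3 M4 G1 G2 G3 G4 : ℝ} (R : RgA21 s y b k M1 M2 M3 M4 G1 G2 G3 G4) (w0 : ℝ) (hw0 : w0 ^ 2 < 1) :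
    2 * w0 * (y - b / 2 - k - s) - 2 * w0 ^ 2 ≤ (1 - w0 ^ 2) * ph (y - b / 2 - k - s) :=
  lo hw0 (by linarith only [R.k4, R.ys, R.b2]) (by linarith only [R.h2, R.k3, R.yt, R.s1, R.b1])

theorem RgA21.lo14 {s y b k M1 M2 M3 M4 G1 G2 G3 G4 : ℝ} (R : RgA21 s y b k M1 M2 M3 M4 G1 G2 G3 G4) (w0 : ℝ) (hw0 : w0 ^ 2 < 1) :
    2 * w0 * (y - b / 2 - k) - 2 * w0 ^ 2 ≤ (1 - w0 ^ 2) * ph (y - b / 2 - k) :=
  lo hw0 (by linarith only [R.k4, R.ys, R.s1, R.b2]) (by linarith only [R.h2, R.k3, R.yt, R.b1])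

theorem ma21_4 {s y b k M1 M2 M3 M4 G1 G2 G3 G4 : ℝ} (R : RgA21 s y b k M1 M2 M3 M4 G1 G2 G3 G4)
    (s1 : 3 / 5 ≤ s) (s2 : s ≤ 67 / 100) (y1 : 3 / 5 ≤ y) (y2 : y ≤ 633 / 1000)
    (b1 : 0 ≤ b) (b2 : b ≤ 1 / 8) :
    0 ≤ fBoxMA21 s y b k M1 M2 M3 M4 G1 G2 G3 G4 := by
  have e1 := up (t1 := (67 / 1000)) (t2 := (68 / 1000)) (x := 1 - h0) (by norm_num)
    (by linarith only [R.h2]) (by linarith only [R.h1])
  have e2 := up (t1 := (0 / 1000)) (t2 := (63 / 1000)) (x := b) (by norm_num)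
    (by linarith only [b1]) (by linarith only [b2])
  have e3 := up (t1 := (247 / 1000)) (t2 := (268 / 1000)) (x := h0 + s - 1) (by norm_num)
    (by linarith only [R.h1, s1]) (by linarith only [R.h2, R.ys, y2])
  have e4 := up (t1 := (536 / 1000)) (t2 := (578 / 1000)) (x := h0 + s - y) (by norm_num)
    (by linarith only [R.h1, s1, y2]) (by linarith only [R.h2, R.ys])
  have e5 := R.lo8 (345 / 1000) (by norm_num)
  have e6 := up (t1 := (333 / 1000)) (t2 := (357 / 1000)) (x := y) (by norm_num)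
    (by linarith only [R.ys, s1]) (by linarith only [y2])
  have e7 := R.lo9 (336 / 1000) (by norm_num)
  have e8 := R.lo9 (352 / 1000) (by norm_num)
  have e9 := R.lo10 (259 / 1000) (by norm_num)
  have e10 := R.lo12 (67 / 1000) (by norm_num)
  have e11 := R.lo14 (347 / 1000) (by norm_num)
  unfold fBoxMA21
  linarith only [R.k2, R.h2, R.h3, R.x0, R.n1x, R.o11, R.o1y, R.n2h, R.o2m, R.n3x, R.o3h, R.n4e, R.o4m, e1, e2, e3, e4, e5, e6, e7, e8, e9, e10, e11]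

theorem ma21_6 {s y b k M1 M2 M3 M4 G1 G2 G3 G4 : ℝ} (R : RgA21 s y b k M1 M2 M3 M4 G1 G2 G3 G4)
    (s1 : 3 / 5 ≤ s) (s2 : s ≤ 67 / 100) (y1 : 633 / 1000 ≤ y) (y2 : y ≤ 649 / 1000)
    (b1 : 0 ≤ b) (b2 : b ≤ 1 / 8) :
    0 ≤ fBoxMA21 s y b k M1 M2 M3 M4 G1 G2 G3 G4 := by
  have e1 := up (t1 := (437 / 1000)) (t2 := (483 / 1000)) (x := 1 + s - h0) (by norm_num)
    (by linarith only [R.h2, s1]) (by linarith only [R.h1, R.ys, y2])
  have e2 := up (t1 := (67 / 1000)) (t2 := (68 / 1000)) (x := 1 - h0) (by norm_num)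
    (by linarith only [R.h2]) (by linarith only [R.h1])
  have e3 := up (t1 := (0 / 1000)) (t2 := (63 / 1000)) (x := b) (by norm_num)
    (by linarith only [b1]) (by linarith only [b2])
  have e4 := up (t1 := (518 / 1000)) (t2 := (578 / 1000)) (x := h0 + s - y) (by norm_num)
    (by linarith only [R.h1, s1, y2]) (by linarith only [R.h2, R.ys])
  have e5 := up (t1 := (356 / 1000)) (t2 := (369 / 1000)) (x := y) (by norm_num)
    (by linarith only [y1]) (by linarith only [y2])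
  have e6 := R.lo11 (483 / 1000) (by norm_num)
  have e7 := R.lo8 (360 / 1000) (by norm_num)
  have e8 := R.lo9 (365 / 1000) (by norm_num)
  have e9 := R.lo11 (472 / 1000) (by norm_num)
  have e10 := R.lo12 (68 / 1000) (by norm_num)
  have e11 := R.lo14 (361 / 1000) (by norm_num)
  unfold fBoxMA21
  linarith only [R.k2, R.h2, R.x0, R.n1x, R.o1y, R.n2h, R.o2m, R.o2l, R.n3x, R.o3h, R.n4e, R.o4m, e1, e2, e3, e4, e5, e6, e7, e8, e9, e10, e11]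

theorem ma21_7 {s y b k M1 M2 M3 M4 G1 G2 G3 G4 : ℝ} (R : RgA21 s y b k M1 M2 M3 M4 G1 G2 G3 G4)
    (s1 : 3 / 5 ≤ s) (s2 : s ≤ 67 / 100) (y1 : 649 / 1000 ≤ y) (y2 : y ≤ 333 / 500)
    (b1 : 0 ≤ b) (b2 : b ≤ 1 / 8) :
    0 ≤ fBoxMA21 s y b k M1 M2 M3 M4 G1 G2 G3 G4 := by
  have e1 := up (t1 := (437 / 1000)) (t2 := (500 / 1000)) (x := 1 + s - h0) (by norm_num)
    (by linarith only [R.h2, s1]) (by linarith only [R.h1, R.ys, y2])
  have e2 := up (t1 := (67 / 1000)) (t2 := (68 / 1000)) (x := 1 - h0) (by norm_num)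
    (by linarith only [R.h2]) (by linarith only [R.h1])
  have e3 := up (t1 := (0 / 1000)) (t2 := (63 / 1000)) (x := b) (by norm_num)
    (by linarith only [b1]) (by linarith only [b2])
  have e4 := up (t1 := (500 / 1000)) (t2 := (578 / 1000)) (x := h0 + s - y) (by norm_num)
    (by linarith only [R.h1, s1, y2]) (by linarith only [R.h2, R.ys])
  have e5 := up (t1 := (368 / 1000)) (t2 := (382 / 1000)) (x := y) (by norm_num)
    (by linarith only [y1]) (by linarith only [y2])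
  have e6 := R.lo8 (369 / 1000) (by norm_num)
  have e7 := R.lo11 (485 / 1000) (by norm_num)
  have e8 := R.lo12 (68 / 1000) (by norm_num)
  have e9 := R.lo14 (370 / 1000) (by norm_num)
  have e10 := R.lo8 (375 / 1000) (by norm_num)
  have e11 := R.lo9 (380 / 1000) (by norm_num)
  unfold fBoxMA21
  linarith only [R.k2, R.h2, R.x0, R.n1x, R.o1y, R.n2h, R.o2m, R.o2l, R.n3x, R.o3h, R.n4e, R.o4m, e1, e2, e3, e4, e5, e6, e7, e8, e9, e10, e11]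

theorem ma21_10 {s y b k M1 M2 M3 M4 G1 G2 G3 G4 : ℝ} (R : RgA21 s y b k M1 M2 M3 M4 G1 G2 G3 G4)
    (s1 : 3 / 5 ≤ s) (s2 : s ≤ 67 / 100) (y1 : 333 / 500 ≤ y) (y2 : y ≤ 699 / 1000)
    (b1 : 0 ≤ b) (b2 : b ≤ 63 / 1000) :
    0 ≤ fBoxMA21 s y b k M1 M2 M3 M4 G1 G2 G3 G4 := by
  have e1 := up (t1 := (437 / 1000)) (t2 := (505 / 1000)) (x := 1 + s - h0) (by norm_num)
    (by linarith only [R.h2, s1]) (by linarith only [R.h1, s2])
  have e2 := up (t1 := (67 / 1000)) (t2 := (68 / 1000)) (x := 1 - h0) (by norm_num)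
    (by linarith only [R.h2]) (by linarith only [R.h1])
  have e3 := up (t1 := (0 / 1000)) (t2 := (32 / 1000)) (x := b) (by norm_num)
    (by linarith only [b1]) (by linarith only [b2])
  have e4 := up (t1 := (247 / 1000)) (t2 := (291 / 1000)) (x := h0 + s - 1) (by norm_num)
    (by linarith only [R.h1, s1]) (by linarith only [R.h2, s2])
  have e5 := up (t1 := (467 / 1000)) (t2 := (578 / 1000)) (x := h0 + s - y) (by norm_num)
    (by linarith only [R.h1, s1, y2]) (by linarith only [R.h2, R.ys])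
  have e6 := R.lo8 (385 / 1000) (by norm_num)
  have e7 := up (t1 := (381 / 1000)) (t2 := (408 / 1000)) (x := y) (by norm_num)
    (by linarith only [y1]) (by linarith only [y2])
  have e8 := R.lo9 (390 / 1000) (by norm_num)
  have e9 := R.lo10 (291 / 1000) (by norm_num)
  have e10 := R.lo11 (504 / 1000) (by norm_num)
  have e11 := R.lo14 (385 / 1000) (by norm_num)
  have e12 := R.lo8 (383 / 1000) (by norm_num)
  have e13 := R.lo12 (68 / 1000) (by norm_num)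
  unfold fBoxMA21
  linarith only [R.k2, R.h2, R.h3, R.x0, R.n1x, R.o11, R.n2h, R.o2l, R.n3x, R.o3h, R.n4e, R.o4y, R.o4m, e1, e2, e3, e4, e5, e6, e7, e8, e9, e10, e11, e12, e13]

theorem ma21_11 {s y b k M1 M2 M3 M4 G1 G2 G3 G4 : ℝ} (R : RgA21 s y b k M1 M2 M3 M4 G1 G2 G3 G4)
    (s1 : 3 / 5 ≤ s) (s2 : s ≤ 67 / 100) (y1 : 333 / 500 ≤ y) (y2 : y ≤ 699 / 1000)
    (b1 : 63 / 1000 ≤ b) (b2 : b ≤ 1 / 8) :
    0 ≤ fBoxMA21 s y b k M1 M2 M3 M4 G1 G2 G3 G4 := by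
  have e1 := up (t1 := (437 / 1000)) (t2 := (505 / 1000)) (x := 1 + s - h0) (by norm_num)
    (by linarith only [R.h2, s1]) (by linarith only [R.h1, s2])
  have e2 := up (t1 := (67 / 1000)) (t2 := (68 / 1000)) (x := 1 - h0) (by norm_num)
    (by linarith only [R.h2]) (by linarith only [R.h1])
  have e3 := up (t1 := (31 / 1000)) (t2 := (63 / 1000)) (x := b) (by norm_num)
    (by linarith only [b1]) (by linarith only [b2])
  have e4 := up (t1 := (247 / 1000)) (t2 := (291 / 1000)) (x := h0 + s - 1) (by norm_num)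
    (by linarith only [R.h1, s1]) (by linarith only [R.h2, s2])
  have e5 := up (t1 := (467 / 1000)) (t2 := (578 / 1000)) (x := h0 + s - y) (by norm_num)
    (by linarith only [R.h1, s1, y2]) (by linarith only [R.h2, R.ys])
  have e6 := R.lo8 (358 / 1000) (by norm_num)
  have e7 := up (t1 := (381 / 1000)) (t2 := (408 / 1000)) (x := y) (by norm_num)
    (by linarith only [y1]) (by linarith only [y2])
  have e8 := R.lo9 (430 / 1000) (by norm_num)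
  have e9 := R.lo10 (288 / 1000) (by norm_num)
  have e10 := R.lo11 (466 / 1000) (by norm_num)
  have e11 := R.lo11 (500 / 1000) (by norm_num)
  have e12 := R.lo12 (66 / 1000) (by norm_num)
  have e13 := R.lo14 (381 / 1000) (by norm_num)
  unfold fBoxMA21
  linarith only [R.k2, R.h2, R.h3, R.n1x, R.o11, R.n2h, R.o2m, R.o2l, R.n3x, R.o3h, R.n4e, R.o4m, b1, e1, e2, e3, e4, e5, e6, e7, e8, e9, e10, e11, e12, e13]

theorem ma21_12 {s y b k M1 M2 M3 M4 G1 G2 G3 G4 : ℝ} (R : RgA21 s y b k M1 M2 M3 M4 G1 G2 G3 G4)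
    (s1 : 3 / 5 ≤ s) (s2 : s ≤ 67 / 100) (y1 : 699 / 1000 ≤ y) (y2 : y ≤ 7321 / 10000)
    (b1 : 0 ≤ b) (b2 : b ≤ 1 / 8) :
    0 ≤ fBoxMA21 s y b k M1 M2 M3 M4 G1 G2 G3 G4 := by
  have e1 := up (t1 := (437 / 1000)) (t2 := (505 / 1000)) (x := 1 + s - h0) (by norm_num)
    (by linarith only [R.h2, s1]) (by linarith only [R.h1, s2])
  have e2 := up (t1 := (67 / 1000)) (t2 := (68 / 1000)) (x := 1 - h0) (by norm_num)
    (by linarith only [R.h2]) (by linarith only [R.h1])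
  have e3 := up (t1 := (0 / 1000)) (t2 := (63 / 1000)) (x := b) (by norm_num)
    (by linarith only [b1]) (by linarith only [b2])
  have e4 := up (t1 := (247 / 1000)) (t2 := (291 / 1000)) (x := h0 + s - 1) (by norm_num)
    (by linarith only [R.h1, s1]) (by linarith only [R.h2, s2])
  have e5 := up (t1 := (437 / 1000)) (t2 := (542 / 1000)) (x := h0 + s - y) (by norm_num)
    (by linarith only [R.h2, R.yt, s1]) (by linarith only [R.h2, s2, y1])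
  have e6 := R.lo8 (385 / 1000) (by norm_num)
  have e7 := up (t1 := (407 / 1000)) (t2 := (436 / 1000)) (x := y) (by norm_num)
    (by linarith only [y1]) (by linarith only [R.h2, R.yt])
  have e8 := R.lo9 (445 / 1000) (by norm_num)
  have e9 := R.lo10 (298 / 1000) (by norm_num)
  have e10 := R.lo11 (516 / 1000) (by norm_num)
  have e11 := R.lo12 (47 / 1000) (by norm_num)
  have e12 := R.lo14 (393 / 1000) (by norm_num)
  unfold fBoxMA21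
  linarith only [R.k2, R.h2, R.n1x, R.o11, R.n2h, R.o2m, R.o2l, R.n3x, R.o3h, R.n4e, R.o4y, s2, y1, e1, e2, e3, e4, e5, e6, e7, e8, e9, e10, e11, e12]

theorem ma21_14 {s y b k M1 M2 M3 M4 G1 G2 G3 G4 : ℝ} (R : RgA21 s y b k M1 M2 M3 M4 G1 G2 G3 G4)
    (s1 : 3 / 5 ≤ s) (s2 : s ≤ 67 / 100) (y1 : 3 / 5 ≤ y) (y2 : y ≤ 333 / 500)
    (b1 : 1 / 8 ≤ b) (b2 : b ≤ 1 / 4) :
    0 ≤ fBoxMA21 s y b k M1 M2 M3 M4 G1 G2 G3 G4 := by
  have e1 := up (t1 := (67 / 1000)) (t2 := (68 / 1000)) (x := 1 - h0) (by norm_num)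
    (by linarith only [R.h2]) (by linarith only [R.h1])
  have e2 := up (t1 := (62 / 1000)) (t2 := (128 / 1000)) (x := b) (by norm_num)
    (by linarith only [b1]) (by linarith only [b2])
  have e3 := up (t1 := (247 / 1000)) (t2 := (289 / 1000)) (x := h0 + s - 1) (by norm_num)
    (by linarith only [R.h1, s1]) (by linarith only [R.h2, R.ys, y2])
  have e4 := up (t1 := (500 / 1000)) (t2 := (578 / 1000)) (x := h0 + s - y) (by norm_num)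
    (by linarith only [R.h1, s1, y2]) (by linarith only [R.h2, R.ys])
  have e5 := R.lo8 (333 / 1000) (by norm_num)
  have e6 := up (t1 := (333 / 1000)) (t2 := (382 / 1000)) (x := y) (by norm_num)
    (by linarith only [y1]) (by linarith only [y2])
  have e7 := R.lo9 (416 / 1000) (by norm_num)
  have e8 := R.lo10 (245 / 1000) (by norm_num)
  have e9 := R.lo12 (66 / 1000) (by norm_num)
  have e10 := R.lo14 (331 / 1000) (by norm_num)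
  unfold fBoxMA21
  linarith only [R.k2, R.h2, R.h3, R.n1x, R.o11, R.n2h, R.o2m, R.n3x, R.o3h, R.n4e, R.o4m, s1, y2, b1, e1, e2, e3, e4, e5, e6, e7, e8, e9, e10]

theorem ma21_15 {s y b k M1 M2 M3 M4 G1 G2 G3 G4 : ℝ} (R : RgA21 s y b k M1 M2 M3 M4 G1 G2 G3 G4)
    (s1 : 3 / 5 ≤ s) (s2 : s ≤ 67 / 100) (y1 : 333 / 500 ≤ y) (y2 : y ≤ 7321 / 10000)
    (b1 : 1 / 8 ≤ b) (b2 : b ≤ 1 / 4) :
    0 ≤ fBoxMA21 s y b k M1 M2 M3 M4 G1 G2 G3 G4 := by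
  have e1 := up (t1 := (437 / 1000)) (t2 := (505 / 1000)) (x := 1 + s - h0) (by norm_num)
    (by linarith only [R.h2, s1]) (by linarith only [R.h1, s2])
  have e2 := up (t1 := (67 / 1000)) (t2 := (68 / 1000)) (x := 1 - h0) (by norm_num)
    (by linarith only [R.h2]) (by linarith only [R.h1])
  have e3 := up (t1 := (62 / 1000)) (t2 := (128 / 1000)) (x := b) (by norm_num)
    (by linarith only [b1]) (by linarith only [b2])
  have e4 := up (t1 := (247 / 1000)) (t2 := (291 / 1000)) (x := h0 + s - 1) (by norm_num)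
    (by linarith only [R.h1, s1]) (by linarith only [R.h2, s2])
  have e5 := up (t1 := (437 / 1000)) (t2 := (578 / 1000)) (x := h0 + s - y) (by norm_num)
    (by linarith only [R.h2, R.yt, s1]) (by linarith only [R.h2, R.ys])
  have e6 := up (t1 := (579 / 1000)) (t2 := 1) (x := s + 1 - y) (by norm_num)
    (by linarith only [R.h2, R.yt, s1]) (by linarith only [R.ys])
  have e7 := up (t1 := (381 / 1000)) (t2 := (436 / 1000)) (x := y) (by norm_num)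
    (by linarith only [y1]) (by linarith only [R.h2, R.yt])
  have e8 := R.lo9 (475 / 1000) (by norm_num)
  have e9 := R.lo6 (459 / 1000) (by norm_num)
  have e10 := R.lo8 (351 / 1000) (by norm_num)
  have e11 := R.lo9 (502 / 1000) (by norm_num)
  have e12 := R.lo10 (264 / 1000) (by norm_num)
  have e13 := R.lo11 (461 / 1000) (by norm_num)
  have e14 := R.lo12 (68 / 1000) (by norm_num)
  have e15 := R.lo14 (352 / 1000) (by norm_num)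
  unfold fBoxMA21
  linarith only [R.k2, R.h2, R.h3, R.n1x, R.n1e, R.o11, R.n2h, R.o2m, R.o2l, R.n3x, R.o3h, R.n4e, R.o4m, e1, e2, e3, e4, e5, e6, e7, e8, e9, e10, e11, e12, e13, e14, e15]

theorem ma21_16 {s y b k M1 M2 M3 M4 G1 G2 G3 G4 : ℝ} (R : RgA21 s y b k M1 M2 M3 M4 G1 G2 G3 G4)
    (s1 : 3 / 5 ≤ s) (s2 : s ≤ 67 / 100) (y1 : 3 / 5 ≤ y) (y2 : y ≤ 7321 / 10000)
    (b1 : 1 / 4 ≤ b) (b2 : b ≤ 1 / 2) :
    0 ≤ fBoxMA21 s y b k M1 M2 M3 M4 G1 G2 G3 G4 := by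
  have e1 := up (t1 := (67 / 1000)) (t2 := (68 / 1000)) (x := 1 - h0) (by norm_num)
    (by linarith only [R.h2]) (by linarith only [R.h1])
  have e2 := up (t1 := (127 / 1000)) (t2 := (268 / 1000)) (x := b) (by norm_num)
    (by linarith only [b1]) (by linarith only [b2])
  have e3 := up (t1 := (247 / 1000)) (t2 := (291 / 1000)) (x := h0 + s - 1) (by norm_num)
    (by linarith only [R.h1, s1]) (by linarith only [R.h2, s2])
  have e4 := up (t1 := (437 / 1000)) (t2 := (578 / 1000)) (x := h0 + s - y) (by norm_num)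
    (by linarith only [R.h2, R.yt, s1]) (by linarith only [R.h2, R.ys])
  have e5 := R.lo6 (469 / 1000) (by norm_num)
  have e6 := up (t1 := (579 / 1000)) (t2 := 1) (x := s + 1 - y) (by norm_num)
    (by linarith only [R.h2, R.yt, s1]) (by linarith only [R.ys])
  have e7 := R.lo8 (358 / 1000) (by norm_num)
  have e8 := up (t1 := (333 / 1000)) (t2 := (436 / 1000)) (x := y) (by norm_num)
    (by linarith only [R.ys, s1]) (by linarith only [R.h2, R.yt])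
  have e9 := R.lo9 (482 / 1000) (by norm_num)
  have e10 := R.lo10 (139 / 1000) (by norm_num)
  have e11 := R.lo10 (235 / 1000) (by norm_num)
  have e12 := R.lo12 (-30 / 1000) (by norm_num)
  have e13 := R.lo13 (-98 / 1000) (by norm_num)
  have e14 := R.lo14 (213 / 1000) (by norm_num)
  unfold fBoxMA21
  linarith only [R.k2, R.h2, R.h3, R.n1x, R.n1e, R.o11, R.n2h, R.o2m, R.n3x, R.o3h, R.n4e, R.o4m, R.o4v, e1, e2, e3, e4, e5, e6, e7, e8, e9, e10, e11, e12, e13, e14]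

theorem ma21_13 {s y b k M1 M2 M3 M4 G1 G2 G3 G4 : ℝ} (R : RgA21 s y b k M1 M2 M3 M4 G1 G2 G3 G4)
    (s1 : 3 / 5 ≤ s) (s2 : s ≤ 67 / 100) (y1 : 3 / 5 ≤ y) (y2 : y ≤ 7321 / 10000)
    (b1 : 1 / 8 ≤ b) (b2 : b ≤ 1 / 4) :
    0 ≤ fBoxMA21 s y b k M1 M2 M3 M4 G1 G2 G3 G4 := by
  rcases le_total y (333 / 500) with h | h
  · exact ma21_14 R s1 s2 y1 h b1 b2
  · exact ma21_15 R s1 s2 h y2 b1 b2

theorem ma21_9 {s y b k M1 M2 M3 M4 G1 G2 G3 G4 : ℝ} (R : RgA21 s y b k M1 M2 M3 M4 G1 G2 G3 G4)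
    (s1 : 3 / 5 ≤ s) (s2 : s ≤ 67 / 100) (y1 : 333 / 500 ≤ y) (y2 : y ≤ 699 / 1000)
    (b1 : 0 ≤ b) (b2 : b ≤ 1 / 8) :
    0 ≤ fBoxMA21 s y b k M1 M2 M3 M4 G1 G2 G3 G4 := by
  rcases le_total b (63 / 1000) with h | h
  · exact ma21_10 R s1 s2 y1 y2 b1 h
  · exact ma21_11 R s1 s2 y1 y2 h b2

theorem ma21_8 {s y b k M1 M2 M3 M4 G1 G2 G3 G4 : ℝ} (R : RgA21 s y b k M1 M2 M3 M4 G1 G2 G3 G4)
    (s1 : 3 / 5 ≤ s) (s2 : s ≤ 67 / 100) (y1 : 333 / 500 ≤ y) (y2 : y ≤ 7321 / 10000)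
    (b1 : 0 ≤ b) (b2 : b ≤ 1 / 8) :
    0 ≤ fBoxMA21 s y b k M1 M2 M3 M4 G1 G2 G3 G4 := by
  rcases le_total y (699 / 1000) with h | h
  · exact ma21_9 R s1 s2 y1 h b1 b2
  · exact ma21_12 R s1 s2 h y2 b1 b2

theorem ma21_5 {s y b k M1 M2 M3 M4 G1 G2 G3 G4 : ℝ} (R : RgA21 s y b k M1 M2 M3 M4 G1 G2 G3 G4)
    (s1 : 3 / 5 ≤ s) (s2 : s ≤ 67 / 100) (y1 : 633 / 1000 ≤ y) (y2 : y ≤ 333 / 500)
    (b1 : 0 ≤ b) (b2 : b ≤ 1 / 8) :
    0 ≤ fBoxMA21 s y b k M1 M2 M3 M4 G1 G2 G3 G4 := by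
  rcases le_total y (649 / 1000) with h | h
  · exact ma21_6 R s1 s2 y1 h b1 b2
  · exact ma21_7 R s1 s2 h y2 b1 b2

theorem ma21_3 {s y b k M1 M2 M3 M4 G1 G2 G3 G4 : ℝ} (R : RgA21 s y b k M1 M2 M3 M4 G1 G2 G3 G4)
    (s1 : 3 / 5 ≤ s) (s2 : s ≤ 67 / 100) (y1 : 3 / 5 ≤ y) (y2 : y ≤ 333 / 500)
    (b1 : 0 ≤ b) (b2 : b ≤ 1 / 8) :
    0 ≤ fBoxMA21 s y b k M1 M2 M3 M4 G1 G2 G3 G4 := by
  rcases le_total y (633 / 1000) with h | h
  · exact ma21_4 R s1 s2 y1 h b1 b2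
  · exact ma21_5 R s1 s2 h y2 b1 b2

theorem ma21_2 {s y b k M1 M2 M3 M4 G1 G2 G3 G4 : ℝ} (R : RgA21 s y b k M1 M2 M3 M4 G1 G2 G3 G4)
    (s1 : 3 / 5 ≤ s) (s2 : s ≤ 67 / 100) (y1 : 3 / 5 ≤ y) (y2 : y ≤ 7321 / 10000)
    (b1 : 0 ≤ b) (b2 : b ≤ 1 / 8) :
    0 ≤ fBoxMA21 s y b k M1 M2 M3 M4 G1 G2 G3 G4 := by
  rcases le_total y (333 / 500) with h | h
  · exact ma21_3 R s1 s2 y1 h b1 b2
  · exact ma21_8 R s1 s2 h y2 b1 b2

theorem ma21_1 {s y b k M1 M2 M3 M4 G1 G2 G3 G4 : ℝ} (R : RgA21 s y b k M1 M2 M3 M4 G1 G2 G3 G4)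
    (s1 : 3 / 5 ≤ s) (s2 : s ≤ 67 / 100) (y1 : 3 / 5 ≤ y) (y2 : y ≤ 7321 / 10000)
    (b1 : 0 ≤ b) (b2 : b ≤ 1 / 4) :
    0 ≤ fBoxMA21 s y b k M1 M2 M3 M4 G1 G2 G3 G4 := by
  rcases le_total b (1 / 8) with h | h
  · exact ma21_2 R s1 s2 y1 y2 b1 h
  · exact ma21_13 R s1 s2 y1 y2 h b2

theorem ma21_0 {s y b k M1 M2 M3 M4 G1 G2 G3 G4 : ℝ} (R : RgA21 s y b k M1 M2 M3 M4 G1 G2 G3 G4)
    (s1 : 3 / 5 ≤ s) (s2 : s ≤ 67 / 100) (y1 : 3 / 5 ≤ y) (y2 : y ≤ 7321 / 10000)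
    (b1 : 0 ≤ b) (b2 : b ≤ 1 / 2) :
    0 ≤ fBoxMA21 s y b k M1 M2 M3 M4 G1 G2 G3 G4 := by
  rcases le_total b (1 / 4) with h | h
  · exact ma21_1 R s1 s2 y1 y2 b1 h
  · exact ma21_16 R s1 s2 y1 y2 h b2

end Pool.Agent.Strip051.FourF
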