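import Pool.Agent.Strip051.FourB.Box

/-! # The new point between s and h0, B23 -/

namespace Pool.Agent.Strip051.FourF

set_option linter.unusedVariables false

open Pool.Agent.StripNear Pool.Agent.StripSquare Pool.Agent.Strip051
open Pool.Agent.Strip051.Four.Low (ph)
open Pool.Agent.Strip051.FourB (lo up)

/-- The function of the boxes `mb23_`. -/
noncomputable def fBoxMB23 (s y b k M1 M2 M3 M4 G1 G2 G3 G4 : ℝ) : ℝ :=
  G1 + G2 + G3 + G4 - 8 * ph y + 4 * ph s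

/-- The region of the boxes `mb23_`. -/
structure RgB23 (s y b k M1 M2 M3 M4 G1 G2 G3 G4 : ℝ) : Prop where
  k1 : 86602 / 100000 * ph b ≤ k
  k2 : k ≤ 86603 / 100000 * ph b
  h1 : 86602 / 100000 ≤ h0
  h2 : h0 ≤ 86603 / 100000
  h3 : 86602 / 100000 * b ≤ h0 * b
  k3 : 0 ≤ k
  k4 : k ≤ 1161 / 10000
  hq : h0 + b / 2 - k ≤ 1
  ys : s ≤ y
  yh : y ≤ h0
  n1x : 1 - 1 / 2 - 1 / 2 * ph b - h0 * b + ph (y + b / 2 - k) - ph (1 - h0) ≤ M1
  n1e : 1 - ph (s + 1 - y) + ph (s + 1 - h0) - ph (1 - h0) ≤ M1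
  o11 : M1 - 1 / 2 - 1 / 2 * ph b + h0 * b + ph (y - b / 2 - k + h0 - 1) ≤ G1
  o1y : M1 - ph (h0 + s - y) + ph (h0 + s - 1) ≤ G1
  n2h : 1 - 1 / 2 - 1 / 2 * ph b - h0 * b + ph (y + b / 2 - k) - ph (h0 + s - 1) ≤ M2
  n2e : 3 / 2 - ph (2 * h0 - y) - ph (h0 + s - 1) ≤ M2
  o2m : M2 - 1 / 2 - 1 / 2 * ph b + h0 * b + ph (y - b / 2 - k - h0 - s + 1) ≤ G2
  o2y : M2 - ph (h0 + s - y) + ph (1 - h0) ≤ G2
  n3x : 1 - 1 / 2 - 1 / 2 * ph b - h0 * b + ph (y + b / 2 - k) - ph (1 - h0) ≤ M3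
  n3e : 1 - ph (9 / 5 - y) + ph (9 / 5 - h0) - ph (1 - h0) ≤ M3
  o3h : M3 - 1 / 2 - 1 / 2 * ph b + h0 * b + ph (y - b / 2 - k) - ph (1 - h0) ≤ G3
  n4a : 381 / 200 - 2 * s ≤ M4
  n4b : 381 / 200 - 2 * s + (1 / 2 + 1 / 2 * ph b - h0 * b) - ph (y - b / 2 - k - 1) ≤ M4
  o4y : M4 - ph (h0 + s - y) + ph (1 - h0) ≤ G4
  o4m : M4 - 1 / 2 - 1 / 2 * ph b + h0 * b + ph (y - b / 2 - k - h0 - s + 1) ≤ G4
  o4v : M4 - 1 / 2 - 1 / 2 * ph b + h0 * b + ph (y - b / 2 - k - s) - ph (1 - h0) ≤ G4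
  s1 : 3 / 5 ≤ s
  s2 : s ≤ 67 / 100
  y1 : 4 / 5 ≤ y
  y2 : y ≤ 8661 / 10000
  b1 : 0 ≤ b
  b2 : b ≤ 1 / 2

theorem RgB23.lo3 {s y b k M1 M2 M3 M4 G1 G2 G3 G4 : ℝ} (R : RgB23 s y b k M1 M2 M3 M4 G1 G2 G3 G4) (w0 : ℝ) (hw0 : w0 ^ 2 < 1) :
    2 * w0 * (9 / 5 - h0) - 2 * w0 ^ 2 ≤ (1 - w0 ^ 2) * ph (9 / 5 - h0) :=
  lo hw0 (by linarith only [R.h2]) (by linarith only [R.h1])

theorem RgB23.lo5 {s y b k M1 M2 M3 M4 G1 G2 G3 G4 : ℝ} (R : RgB23 s y b k M1 M2 M3 M4 G1 G2 G3 G4) (w0 : ℝ) (hw0 : w0 ^ 2 < 1) :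
    2 * w0 * (b) - 2 * w0 ^ 2 ≤ (1 - w0 ^ 2) * ph (b) :=
  lo hw0 (by linarith only [R.b1]) (by linarith only [R.b2])

theorem RgB23.lo8 {s y b k M1 M2 M3 M4 G1 G2 G3 G4 : ℝ} (R : RgB23 s y b k M1 M2 M3 M4 G1 G2 G3 G4) (w0 : ℝ) (hw0 : w0 ^ 2 < 1) :
    2 * w0 * (s + 1 - h0) - 2 * w0 ^ 2 ≤ (1 - w0 ^ 2) * ph (s + 1 - h0) :=
  lo hw0 (by linarith only [R.h2, R.s1]) (by linarith only [R.h1, R.s2])

theorem RgB23.lo10 {s y b k M1 M2 M3 M4 G1 G2 G3 G4 : ℝ} (R : RgB23 s y b k M1 M2 M3 M4 G1 G2 G3 G4) (w0 : ℝ) (hw0 : w0 ^ 2 < 1) :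
    2 * w0 * (s) - 2 * w0 ^ 2 ≤ (1 - w0 ^ 2) * ph (s) :=
  lo hw0 (by linarith only [R.s1]) (by linarith only [R.s2])

theorem RgB23.lo11 {s y b k M1 M2 M3 M4 G1 G2 G3 G4 : ℝ} (R : RgB23 s y b k M1 M2 M3 M4 G1 G2 G3 G4) (w0 : ℝ) (hw0 : w0 ^ 2 < 1) :
    2 * w0 * (y + b / 2 - k) - 2 * w0 ^ 2 ≤ (1 - w0 ^ 2) * ph (y + b / 2 - k) :=
  lo hw0 (by linarith only [R.k4, R.y1, R.b1]) (by linarith only [R.hq, R.yh])

theorem RgB23.lo12 {s y b k M1 M2 M3 M4 G1 G2 G3 G4 : ℝ} (R : RgB23 s y b k M1 M2 M3 M4 G1 G2 G3 G4) (w0 : ℝ) (hw0 : w0 ^ 2 < 1) :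
    2 * w0 * (y - b / 2 - k + h0 - 1) - 2 * w0 ^ 2 ≤ (1 - w0 ^ 2) * ph (y - b / 2 - k + h0 - 1) :=
  lo hw0 (by linarith only [R.h1, R.k4, R.y1, R.b2]) (by linarith only [R.h2, R.k3, R.yh, R.b1])

theorem RgB23.lo14 {s y b k M1 M2 M3 M4 G1 G2 G3 G4 : ℝ} (R : RgB23 s y b k M1 M2 M3 M4 G1 G2 G3 G4) (w0 : ℝ) (hw0 : w0 ^ 2 < 1) :
    2 * w0 * (y - b / 2 - k - h0 - s + 1) - 2 * w0 ^ 2 ≤ (1 - w0 ^ 2) * ph (y - b / 2 - k - h0 - s + 1) :=
  lo hw0 (by linarith only [R.h2, R.k4, R.s2, R.y1, R.b2]) (by linarith only [R.k3, R.yh, R.s1, R.b1])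

theorem RgB23.lo16 {s y b k M1 M2 M3 M4 G1 G2 G3 G4 : ℝ} (R : RgB23 s y b k M1 M2 M3 M4 G1 G2 G3 G4) (w0 : ℝ) (hw0 : w0 ^ 2 < 1) :
    2 * w0 * (y - b / 2 - k) - 2 * w0 ^ 2 ≤ (1 - w0 ^ 2) * ph (y - b / 2 - k) :=
  lo hw0 (by linarith only [R.k4, R.y1, R.b2]) (by linarith only [R.h2, R.k3, R.yh, R.b1])

theorem mb23_1 {s y b k M1 M2 M3 M4 G1 G2 G3 G4 : ℝ} (R : RgB23 s y b k M1 M2 M3 M4 G1 G2 G3 G4)
    (s1 : 3 / 5 ≤ s) (s2 : s ≤ 67 / 100) (y1 : 4 / 5 ≤ y) (y2 : y ≤ 8661 / 10000)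
    (b1 : 0 ≤ b) (b2 : b ≤ 1 / 4) :
    0 ≤ fBoxMB23 s y b k M1 M2 M3 M4 G1 G2 G3 G4 := by
  have e1 := up (t1 := (67 / 1000)) (t2 := (68 / 1000)) (x := 1 - h0) (by norm_num)
    (by linarith only [R.h2]) (by linarith only [R.h1])
  have e2 := up (t1 := (577 / 1000)) (t2 := (685 / 1000)) (x := 2 * h0 - y) (by norm_num)
    (by linarith only [R.h1, R.yh]) (by linarith only [R.h2, y1])
  have e3 := R.lo3 (688 / 1000) (by norm_num)
  have e4 := up (t1 := (688 / 1000)) (t2 := 1) (x := 9 / 5 - y) (by norm_num)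
    (by linarith only [R.h2, R.yh]) (by linarith only [y1])
  have e5 := up (t1 := (0 / 1000)) (t2 := (128 / 1000)) (x := b) (by norm_num)
    (by linarith only [b1]) (by linarith only [b2])
  have e6 := up (t1 := (247 / 1000)) (t2 := (291 / 1000)) (x := h0 + s - 1) (by norm_num)
    (by linarith only [R.h1, s1]) (by linarith only [R.h2, s2])
  have e7 := up (t1 := (333 / 1000)) (t2 := (439 / 1000)) (x := h0 + s - y) (by norm_num)
    (by linarith only [R.yh, s1]) (by linarith only [R.h2, s2, y1])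
  have e8 := R.lo8 (504 / 1000) (by norm_num)
  have e9 := up (t1 := (437 / 1000)) (t2 := (583 / 1000)) (x := s + 1 - y) (by norm_num)
    (by linarith only [R.h2, R.yh, s1]) (by linarith only [s2, y1])
  have e10 := R.lo10 (385 / 1000) (by norm_num)
  have e11 := up (t1 := (500 / 1000)) (t2 := (578 / 1000)) (x := y) (by norm_num)
    (by linarith only [y1]) (by linarith only [R.h2, R.yh])
  have e12 := R.lo11 (760 / 1000) (by norm_num)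
  have e13 := R.lo12 (349 / 1000) (by norm_num)
  have e14 := R.lo5 (0 / 1000) (by norm_num)
  have e15 := up (t1 := (-183 / 1000)) (t2 := (-67 / 1000)) (x := y - b / 2 - k - 1) (by norm_num)
    (by linarith only [R.k2, y1, b2, e5]) (by linarith only [R.k1, R.h2, R.yh, b1, e14])
  have e16 := R.lo16 (458 / 1000) (by norm_num)
  unfold fBoxMB23
  linarith only [R.k2, R.h2, R.n1e, R.o11, R.o1y, R.n2e, R.o2y, R.n3x, R.n3e, R.o3h, R.n4b, R.o4y, s2, b2, e1, e2, e3, e4, e5, e6, e7, e8, e9, e10, e11, e12, e13, e15, e16]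

theorem mb23_4 {s y b k M1 M2 M3 M4 G1 G2 G3 G4 : ℝ} (R : RgB23 s y b k M1 M2 M3 M4 G1 G2 G3 G4)
    (s1 : 3 / 5 ≤ s) (s2 : s ≤ 67 / 100) (y1 : 4 / 5 ≤ y) (y2 : y ≤ 833 / 1000)
    (b1 : 1 / 4 ≤ b) (b2 : b ≤ 3 / 8) :
    0 ≤ fBoxMB23 s y b k M1 M2 M3 M4 G1 G2 G3 G4 := by
  have e1 := up (t1 := (67 / 1000)) (t2 := (68 / 1000)) (x := 1 - h0) (by norm_num)
    (by linarith only [R.h2]) (by linarith only [R.h1])
  have e2 := up (t1 := (625 / 1000)) (t2 := (685 / 1000)) (x := 2 * h0 - y) (by norm_num)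
    (by linarith only [R.h1, y2]) (by linarith only [R.h2, y1])
  have e3 := R.lo3 (688 / 1000) (by norm_num)
  have e4 := up (t1 := (770 / 1000)) (t2 := 1) (x := 9 / 5 - y) (by norm_num)
    (by linarith only [y2]) (by linarith only [y1])
  have e5 := up (t1 := (127 / 1000)) (t2 := (195 / 1000)) (x := b) (by norm_num)
    (by linarith only [b1]) (by linarith only [b2])
  have e6 := up (t1 := (247 / 1000)) (t2 := (291 / 1000)) (x := h0 + s - 1) (by norm_num)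
    (by linarith only [R.h1, s1]) (by linarith only [R.h2, s2])
  have e7 := up (t1 := (356 / 1000)) (t2 := (439 / 1000)) (x := h0 + s - y) (by norm_num)
    (by linarith only [R.h1, s1, y2]) (by linarith only [R.h2, s2, y1])
  have e8 := R.lo8 (469 / 1000) (by norm_num)
  have e9 := up (t1 := (467 / 1000)) (t2 := (583 / 1000)) (x := s + 1 - y) (by norm_num)
    (by linarith only [s1, y2]) (by linarith only [s2, y1])
  have e10 := R.lo10 (358 / 1000) (by norm_num)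
  have e11 := up (t1 := (500 / 1000)) (t2 := (537 / 1000)) (x := y) (by norm_num)
    (by linarith only [y1]) (by linarith only [y2])
  have e12 := R.lo11 (675 / 1000) (by norm_num)
  have e13 := R.lo12 (297 / 1000) (by norm_num)
  have e14 := R.lo5 (127 / 1000) (by norm_num)
  have e15 := up (t1 := (-239 / 1000)) (t2 := (-164 / 1000)) (x := y - b / 2 - k - 1) (by norm_num)
    (by linarith only [R.k2, y1, b2, e5]) (by linarith only [R.k1, y2, b1, e14])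
  have e16 := R.lo14 (57 / 1000) (by norm_num)
  have e17 := R.lo16 (344 / 1000) (by norm_num)
  have e18 := R.lo16 (393 / 1000) (by norm_num)
  unfold fBoxMB23
  linarith only [R.k2, R.h2, R.h3, R.n1e, R.o11, R.o1y, R.n2e, R.o2m, R.n3x, R.n3e, R.o3h, R.n4b, R.o4m, e1, e2, e3, e4, e5, e6, e7, e8, e9, e10, e11, e12, e13, e15, e16, e17, e18]

theorem mb23_6 {s y b k M1 M2 M3 M4 G1 G2 G3 G4 : ℝ} (R : RgB23 s y b k M1 M2 M3 M4 G1 G2 G3 G4)
    (s1 : 3 / 5 ≤ s) (s2 : s ≤ 127 / 200) (y1 : 833 / 1000 ≤ y) (y2 : y ≤ 8661 / 10000)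
    (b1 : 1 / 4 ≤ b) (b2 : b ≤ 3 / 8) :
    0 ≤ fBoxMB23 s y b k M1 M2 M3 M4 G1 G2 G3 G4 := by
  have e1 := up (t1 := (67 / 1000)) (t2 := (68 / 1000)) (x := 1 - h0) (by norm_num)
    (by linarith only [R.h2]) (by linarith only [R.h1])
  have e2 := up (t1 := (577 / 1000)) (t2 := (626 / 1000)) (x := 2 * h0 - y) (by norm_num)
    (by linarith only [R.h1, R.yh]) (by linarith only [R.h2, y1])
  have e3 := R.lo3 (688 / 1000) (by norm_num)
  have e4 := up (t1 := (688 / 1000)) (t2 := (771 / 1000)) (x := 9 / 5 - y) (by norm_num)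
    (by linarith only [R.h2, R.yh]) (by linarith only [y1])
  have e5 := up (t1 := (127 / 1000)) (t2 := (195 / 1000)) (x := b) (by norm_num)
    (by linarith only [b1]) (by linarith only [b2])
  have e6 := up (t1 := (333 / 1000)) (t2 := (384 / 1000)) (x := h0 + s - y) (by norm_num)
    (by linarith only [R.yh, s1]) (by linarith only [R.h2, s2, y1])
  have e7 := R.lo8 (469 / 1000) (by norm_num)
  have e8 := up (t1 := (437 / 1000)) (t2 := (503 / 1000)) (x := s + 1 - y) (by norm_num)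
    (by linarith only [R.h2, R.yh, s1]) (by linarith only [s2, y1])
  have e9 := R.lo10 (358 / 1000) (by norm_num)
  have e10 := up (t1 := (536 / 1000)) (t2 := (578 / 1000)) (x := y) (by norm_num)
    (by linarith only [y1]) (by linarith only [R.h2, R.yh])
  have e11 := R.lo5 (127 / 1000) (by norm_num)
  have e12 := up (t1 := (-219 / 1000)) (t2 := (-146 / 1000)) (x := y - b / 2 - k - 1) (by norm_num)
    (by linarith only [R.k2, y1, b2, e5]) (by linarith only [R.k1, R.h2, R.yh, b1, e11])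
  have e13 := R.lo14 (83 / 1000) (by norm_num)
  have e14 := R.lo16 (368 / 1000) (by norm_num)
  unfold fBoxMB23
  linarith only [R.k2, R.h2, R.h3, R.yh, R.n1e, R.o1y, R.n2e, R.o2m, R.n3e, R.o3h, R.n4b, R.o4y, R.o4m, s2, e1, e2, e3, e4, e5, e6, e7, e8, e9, e10, e12, e13, e14]

theorem mb23_7 {s y b k M1 M2 M3 M4 G1 G2 G3 G4 : ℝ} (R : RgB23 s y b k M1 M2 M3 M4 G1 G2 G3 G4)
    (s1 : 127 / 200 ≤ s) (s2 : s ≤ 67 / 100) (y1 : 833 / 1000 ≤ y) (y2 : y ≤ 8661 / 10000)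
    (b1 : 1 / 4 ≤ b) (b2 : b ≤ 3 / 8) :
    0 ≤ fBoxMB23 s y b k M1 M2 M3 M4 G1 G2 G3 G4 := by
  have e1 := up (t1 := (67 / 1000)) (t2 := (68 / 1000)) (x := 1 - h0) (by norm_num)
    (by linarith only [R.h2]) (by linarith only [R.h1])
  have e2 := up (t1 := (577 / 1000)) (t2 := (626 / 1000)) (x := 2 * h0 - y) (by norm_num)
    (by linarith only [R.h1, R.yh]) (by linarith only [R.h2, y1])
  have e3 := R.lo3 (688 / 1000) (by norm_num)
  have e4 := up (t1 := (688 / 1000)) (t2 := (771 / 1000)) (x := 9 / 5 - y) (by norm_num)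
    (by linarith only [R.h2, R.yh]) (by linarith only [y1])
  have e5 := up (t1 := (127 / 1000)) (t2 := (195 / 1000)) (x := b) (by norm_num)
    (by linarith only [b1]) (by linarith only [b2])
  have e6 := up (t1 := (358 / 1000)) (t2 := (411 / 1000)) (x := h0 + s - y) (by norm_num)
    (by linarith only [R.yh, s1]) (by linarith only [R.h2, s2, y1])
  have e7 := R.lo8 (504 / 1000) (by norm_num)
  have e8 := up (t1 := (469 / 1000)) (t2 := (541 / 1000)) (x := s + 1 - y) (by norm_num)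
    (by linarith only [R.h2, R.yh, s1]) (by linarith only [s2, y1])
  have e9 := R.lo10 (371 / 1000) (by norm_num)
  have e10 := R.lo10 (385 / 1000) (by norm_num)
  have e11 := up (t1 := (536 / 1000)) (t2 := (578 / 1000)) (x := y) (by norm_num)
    (by linarith only [y1]) (by linarith only [R.h2, R.yh])
  have e12 := R.lo5 (127 / 1000) (by norm_num)
  have e13 := up (t1 := (-219 / 1000)) (t2 := (-146 / 1000)) (x := y - b / 2 - k - 1) (by norm_num)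
    (by linarith only [R.k2, y1, b2, e5]) (by linarith only [R.k1, R.h2, R.yh, b1, e12])
  have e14 := R.lo14 (65 / 1000) (by norm_num)
  have e15 := R.lo16 (368 / 1000) (by norm_num)
  unfold fBoxMB23
  linarith only [R.k2, R.h2, R.h3, R.yh, R.n1e, R.o1y, R.n2e, R.o2m, R.o2y, R.n3e, R.o3h, R.n4b, R.o4m, e1, e2, e3, e4, e5, e6, e7, e8, e9, e10, e11, e13, e14, e15]

theorem mb23_8 {s y b k M1 M2 M3 M4 G1 G2 G3 G4 : ℝ} (R : RgB23 s y b k M1 M2 M3 M4 G1 G2 G3 G4)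
    (s1 : 3 / 5 ≤ s) (s2 : s ≤ 67 / 100) (y1 : 4 / 5 ≤ y) (y2 : y ≤ 8661 / 10000)
    (b1 : 3 / 8 ≤ b) (b2 : b ≤ 1 / 2) :
    0 ≤ fBoxMB23 s y b k M1 M2 M3 M4 G1 G2 G3 G4 := by
  have e1 := up (t1 := (67 / 1000)) (t2 := (68 / 1000)) (x := 1 - h0) (by norm_num)
    (by linarith only [R.h2]) (by linarith only [R.h1])
  have e2 := up (t1 := (577 / 1000)) (t2 := (685 / 1000)) (x := 2 * h0 - y) (by norm_num)
    (by linarith only [R.h1, R.yh]) (by linarith only [R.h2, y1])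
  have e3 := R.lo3 (688 / 1000) (by norm_num)
  have e4 := up (t1 := (688 / 1000)) (t2 := 1) (x := 9 / 5 - y) (by norm_num)
    (by linarith only [R.h2, R.yh]) (by linarith only [y1])
  have e5 := up (t1 := (194 / 1000)) (t2 := (268 / 1000)) (x := b) (by norm_num)
    (by linarith only [b1]) (by linarith only [b2])
  have e6 := up (t1 := (247 / 1000)) (t2 := (291 / 1000)) (x := h0 + s - 1) (by norm_num)
    (by linarith only [R.h1, s1]) (by linarith only [R.h2, s2])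
  have e7 := R.lo8 (437 / 1000) (by norm_num)
  have e8 := up (t1 := (437 / 1000)) (t2 := (583 / 1000)) (x := s + 1 - y) (by norm_num)
    (by linarith only [R.h2, R.yh, s1]) (by linarith only [s2, y1])
  have e9 := up (t1 := (500 / 1000)) (t2 := (578 / 1000)) (x := y) (by norm_num)
    (by linarith only [y1]) (by linarith only [R.h2, R.yh])
  have e10 := R.lo5 (195 / 1000) (by norm_num)
  have e11 := up (t1 := (-311 / 1000)) (t2 := (-200 / 1000)) (x := y - b / 2 - k - 1) (by norm_num)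
    (by linarith only [R.k2, y1, b2, e5]) (by linarith only [R.k1, R.h2, R.yh, b1, e10])
  have e12 := R.lo14 (75 / 1000) (by norm_num)
  have e13 := R.lo8 (453 / 1000) (by norm_num)
  have e14 := R.lo10 (346 / 1000) (by norm_num)
  have e15 := R.lo12 (230 / 1000) (by norm_num)
  have e16 := R.lo14 (44 / 1000) (by norm_num)
  have e17 := R.lo16 (314 / 1000) (by norm_num)
  unfold fBoxMB23
  linarith only [R.k2, R.h2, R.h3, R.yh, R.n1e, R.o11, R.n2e, R.o2m, R.n3e, R.o3h, R.n4b, R.o4m, e1, e2, e3, e4, e5, e6, e7, e8, e9, e11, e12, e13, e14, e15, e16, e17]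

theorem mb23_5 {s y b k M1 M2 M3 M4 G1 G2 G3 G4 : ℝ} (R : RgB23 s y b k M1 M2 M3 M4 G1 G2 G3 G4)
    (s1 : 3 / 5 ≤ s) (s2 : s ≤ 67 / 100) (y1 : 833 / 1000 ≤ y) (y2 : y ≤ 8661 / 10000)
    (b1 : 1 / 4 ≤ b) (b2 : b ≤ 3 / 8) :
    0 ≤ fBoxMB23 s y b k M1 M2 M3 M4 G1 G2 G3 G4 := by
  rcases le_total s (127 / 200) with h | h
  · exact mb23_6 R s1 h y1 y2 b1 b2
  · exact mb23_7 R h s2 y1 y2 b1 b2

theorem mb23_3 {s y b k M1 M2 M3 M4 G1 G2 G3 G4 : ℝ} (R : RgB23 s y b k M1 M2 M3 M4 G1 G2 G3 G4)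
    (s1 : 3 / 5 ≤ s) (s2 : s ≤ 67 / 100) (y1 : 4 / 5 ≤ y) (y2 : y ≤ 8661 / 10000)
    (b1 : 1 / 4 ≤ b) (b2 : b ≤ 3 / 8) :
    0 ≤ fBoxMB23 s y b k M1 M2 M3 M4 G1 G2 G3 G4 := by
  rcases le_total y (833 / 1000) with h | h
  · exact mb23_4 R s1 s2 y1 h b1 b2
  · exact mb23_5 R s1 s2 h y2 b1 b2

theorem mb23_2 {s y b k M1 M2 M3 M4 G1 G2 G3 G4 : ℝ} (R : RgB23 s y b k M1 M2 M3 M4 G1 G2 G3 G4)
    (s1 : 3 / 5 ≤ s) (s2 : s ≤ 67 / 100) (y1 : 4 / 5 ≤ y) (y2 : y ≤ 8661 / 10000)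
    (b1 : 1 / 4 ≤ b) (b2 : b ≤ 1 / 2) :
    0 ≤ fBoxMB23 s y b k M1 M2 M3 M4 G1 G2 G3 G4 := by
  rcases le_total b (3 / 8) with h | h
  · exact mb23_3 R s1 s2 y1 y2 b1 h
  · exact mb23_8 R s1 s2 y1 y2 h b2

theorem mb23_0 {s y b k M1 M2 M3 M4 G1 G2 G3 G4 : ℝ} (R : RgB23 s y b k M1 M2 M3 M4 G1 G2 G3 G4)
    (s1 : 3 / 5 ≤ s) (s2 : s ≤ 67 / 100) (y1 : 4 / 5 ≤ y) (y2 : y ≤ 8661 / 10000)
    (b1 : 0 ≤ b) (b2 : b ≤ 1 / 2) :
    0 ≤ fBoxMB23 s y b k M1 M2 M3 M4 G1 G2 G3 G4 := by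
  rcases le_total b (1 / 4) with h | h
  · exact mb23_1 R s1 s2 y1 y2 b1 h
  · exact mb23_2 R s1 s2 y1 y2 h b2

end Pool.Agent.Strip051.FourF
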