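import Pool.Agent.Strip051.FourF.Pair

/-! # The weights -/

namespace Pool.Agent.Strip051.FourF

set_option linter.unusedVariables false

open Pool.Agent.StripNear Pool.Agent.StripSquare Pool.Agent.Strip051
open Pool.Agent.Strip051.Four.Low (ph)
open Pool.Agent.Strip051.FourB (lo up)

/-- The function of the boxes `bw1x`. -/
noncomputable def W1 (s : ℝ) : ℝ :=
  1736 / 1000 * ph (h0 + s - 1) - ph s

/-- The region of the boxes `bw1x`. -/
structure RegW1 (s : ℝ) : Prop where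
  h1 : 86602 / 100000 ≤ h0
  h2 : h0 ≤ 86603 / 100000
  s1 : 3 / 5 ≤ s
  s2 : s ≤ 67 / 100

theorem RegW1.lo1 {s : ℝ} (R : RegW1 s) (w0 : ℝ) (hw0 : w0 ^ 2 < 1) :
    2 * w0 * (h0 + s - 1) - 2 * w0 ^ 2 ≤ (1 - w0 ^ 2) * ph (h0 + s - 1) :=
  lo hw0 (by linear_combination R.h1 + R.s1) (by linear_combination R.h2 + R.s2)

theorem RegW1.lo2 {s : ℝ} (R : RegW1 s) (w0 : ℝ) (hw0 : w0 ^ 2 < 1) :
    2 * w0 * (s) - 2 * w0 ^ 2 ≤ (1 - w0 ^ 2) * ph (s) :=
  lo hw0 (by linear_combination R.s1) (by linear_combination R.s2)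

theorem bw1x1 {s : ℝ} (R : RegW1 s)
    (s1 : 3 / 5 ≤ s) (s2 : s ≤ 127 / 200) :
    0 ≤ W1 s := by
  have e1 := R.lo1 (247 / 1000) (by norm_num)
  have e2 := up (t1 := (333 / 1000)) (t2 := (359 / 1000)) (x := s) (by norm_num)
    (by linear_combination (1110889 / 1000000) * s1) (by linear_combination (1128881 / 1000000) * s2)
  unfold W1
  linear_combination (857584 / 938991) * R.h1 + (105280633552 / 826737442923) * s1 + (1736000 / 938991) * e1 +
    (1000000 / 880453) * e2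

theorem bw1x2 {s : ℝ} (R : RegW1 s)
    (s1 : 127 / 200 ≤ s) (s2 : s ≤ 67 / 100) :
    0 ≤ W1 s := by
  have e1 := R.lo1 (269 / 1000) (by norm_num)
  have e2 := up (t1 := (358 / 1000)) (t2 := (385 / 1000)) (x := s) (by norm_num)
    (by linear_combination (282041 / 250000) * s1) (by linear_combination (45929 / 40000) * s2)
  unfold W1
  linear_combination (933968 / 927639) * R.h1 + (3866780452 / 26659417221) * s1 + (1736000 / 927639) * e1 +
    (100000 / 86217) * e2

theorem bw1x0 {s : ℝ} (R : RegW1 s)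
    (s1 : 3 / 5 ≤ s) (s2 : s ≤ 67 / 100) :
    0 ≤ W1 s := by
  rcases le_total s (127 / 200) with h | h
  · exact bw1x1 R s1 h
  · exact bw1x2 R h s2

end Pool.Agent.Strip051.FourF
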