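import Pool.Agent.Strip051.FourF.Pair

/-! # The weights -/

namespace Pool.Agent.Strip051.FourF

set_option linter.unusedVariables false

open Pool.Agent.StripNear Pool.Agent.StripSquare Pool.Agent.Strip051
open Pool.Agent.Strip051.Four.Low (ph)
open Pool.Agent.Strip051.FourB (lo up)

/-- The function of the boxes `bw3x`. -/
noncomputable def W3 (s : ℝ) : ℝ :=
  2 * ph s - 4 * ph (403 / 1000) - 1736 / 1000 * ph (h0 + s - 1 - 403 / 1000) - 1736 / 1000 * ph (h0 + s - 1) + 1736 / 1000 * ph (403 / 1000)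

/-- The region of the boxes `bw3x`. -/
structure RegW3 (s : ℝ) : Prop where
  h1 : 86602 / 100000 ≤ h0
  h2 : h0 ≤ 86603 / 100000
  s1 : 3 / 5 ≤ s
  s2 : s ≤ 67 / 100

theorem RegW3.lo1 {s : ℝ} (R : RegW3 s) (w0 : ℝ) (hw0 : w0 ^ 2 < 1) :
    2 * w0 * (403 / 1000) - 2 * w0 ^ 2 ≤ (1 - w0 ^ 2) * ph (403 / 1000) :=
  lo hw0 (by linear_combination) (by linear_combination)

theorem RegW3.lo2 {s : ℝ} (R : RegW3 s) (w0 : ℝ) (hw0 : w0 ^ 2 < 1) :
    2 * w0 * (h0 + s - 1 - 403 / 1000) - 2 * w0 ^ 2 ≤ (1 - w0 ^ 2) * ph (h0 + s - 1 - 403 / 1000) :=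
  lo hw0 (by linear_combination R.h1 + R.s1) (by linear_combination R.h2 + R.s2)

theorem RegW3.lo3 {s : ℝ} (R : RegW3 s) (w0 : ℝ) (hw0 : w0 ^ 2 < 1) :
    2 * w0 * (h0 + s - 1) - 2 * w0 ^ 2 ≤ (1 - w0 ^ 2) * ph (h0 + s - 1) :=
  lo hw0 (by linear_combination R.h1 + R.s1) (by linear_combination R.h2 + R.s2)

theorem RegW3.lo4 {s : ℝ} (R : RegW3 s) (w0 : ℝ) (hw0 : w0 ^ 2 < 1) :
    2 * w0 * (s) - 2 * w0 ^ 2 ≤ (1 - w0 ^ 2) * ph (s) :=
  lo hw0 (by linear_combination R.s1) (by linear_combination R.s2)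

theorem bw3x0 {s : ℝ} (R : RegW3 s)
    (s1 : 3 / 5 ≤ s) (s2 : s ≤ 67 / 100) :
    0 ≤ W3 s := by
  have e1 := up (t1 := (210 / 1000)) (t2 := (211 / 1000)) (x := 403 / 1000) (by norm_num)
    (by linear_combination) (by linear_combination)
  have e2 := up (t1 := (31 / 1000)) (t2 := (67 / 1000)) (x := h0 + s - 1 - 403 / 1000) (by norm_num)
    (by linear_combination (1000961 / 1000000) * R.h1 + (1000961 / 1000000) * s1) (by linear_combination (1004489 / 1000000) * R.h2 + (1004489 / 1000000) * s2)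
  have e3 := up (t1 := (247 / 1000)) (t2 := (291 / 1000)) (x := h0 + s - 1) (by norm_num)
    (by linear_combination (1061009 / 1000000) * R.h1 + (1061009 / 1000000) * s1) (by linear_combination (1084681 / 1000000) * R.h2 + (1084681 / 1000000) * s2)
  have e4 := R.lo4 (333 / 1000) (by norm_num)
  unfold W3
  linear_combination (155703979744 / 132313612647) * R.h2 + (37803610911636416 / 117641488454186817) * s1 +
    (226400 / 95569) * e1 + (1736000 / 997923) * e2 + (248000 / 132589) * e3 + (2000000 / 889111) * e4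

end Pool.Agent.Strip051.FourF
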