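import Pool.Agent.Strip051.FourB.Defs

/-! # The eight probes for the strip of height `2 h0 + s`, `57 / 100 ≤ s ≤ 67 / 100`

The wall probes are the point `0` and the interval from `0` to `e = h0 + s - 1`.  The first middle
probe lives on `[s, s + 1]`, its body is the minimum of two unit arcs, centred at `h0 + s` and `h0`,
which vanish at `1`.  The second middle probe lives on `[h0, 9 / 5]`, its body is the minimum of two
unit arcs, centred at `1` and `h0`, which vanish at `1`, and has a wing on `[2 h0 + s - 2, e]`. -/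

namespace Pool.Agent.Strip051.FourF

open Pool.Agent.StripNear Pool.Agent.StripSquare Pool.Agent.Strip051
open Pool.Agent.Strip051.Four (gn mirP mirP_ok mirP_gn mirP_val j1 j4 j1_gn j4_gn arc_sub le_gn
  gn_nonneg gain_ge ext_facts g_le_of_abs gam_neg adm_low)

/-- The body of the first middle probe. -/
noncomputable def bp (s e z : ℝ) : ℝ := min (g (z - (h0 + s)) - g e) (g (z - h0) - g (1 - h0))

/-- The first middle probe. -/
noncomputable def p2 (s e : ℝ) : Probe := ⟨s, s + 1, bp s e⟩

/-- Its mirror image. -/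
noncomputable def p3 (s e : ℝ) : Probe := mirP (2 * h0 + s) (p2 s e)

/-- The body of the second middle probe. -/
noncomputable def bq (s e z : ℝ) : ℝ :=
  if z ≤ e then g (z - (2 * h0 + s - 1)) - (481 / 200 - 2 * s)
  else if z < h0 then -10 else min (g (z - 1) - 1) (g (z - h0) - g (1 - h0))

/-- The second middle probe. -/
noncomputable def q2 (s e : ℝ) : Probe := ⟨2 * h0 + s - 2, 9 / 5, bq s e⟩

/-- Its mirror image. -/
noncomputable def q3 (s e : ℝ) : Probe := mirP (2 * h0 + s) (q2 s e)

/-- The gain of the four middle probes. -/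
noncomputable def mid (s e r q y : ℝ) : ℝ :=
  gn (p2 s e) r q y + gn (p3 s e) r q y + gn (q2 s e) r q y + gn (q3 s e) r q y

/-- The parameters. -/
structure Par (s e w : ℝ) : Prop where
  s0 : 57 / 100 ≤ s
  s1 : s ≤ 67 / 100
  he : e = h0 + s - 1
  hw : w * (1 - g e) = 1 - g s

section

variable {s e w : ℝ}

theorem Par.e_gt (P : Par s e w) : 0.436 < e := by
  have := P.s0
  have := h0_gt
  rw [P.he]
  linear_combination this + (‹57 / 100 ≤ s›)

theorem Par.e_lt (P : Par s e w) : e < 0.5361 := by
  have := P.s1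
  have := h0_lt
  rw [P.he]
  linear_combination this + (‹s ≤ 67 / 100›)

theorem Par.ge_lt (P : Par s e w) : g e ≤ 0.9 := by
  have h1 := P.e_gt
  have h2 := P.e_lt
  have h3 := g_sq (r := e) (by linear_combination (9721 / 10000) * h2 + (mul_pos (sub_pos.mpr h1) (sub_pos.mpr h2)))
  have h4 := g_nonneg e
  exact not_lt.mp (fun hg__ => absurd h1 (not_lt.mpr (by linear_combination (225 / 109) * hg__ + (125 / 109) * h3 + (125 / 109) * (mul_pos (sub_pos.mpr h1) (sub_pos.mpr h1)) + (125 / 109) * (mul_pos (sub_pos.mpr hg__) (sub_pos.mpr hg__)))))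

theorem Par.w_nonneg (P : Par s e w) : 0 ≤ w := by
  have h1 := P.hw
  have h2 := P.ge_lt
  have h3 := g_le_one s
  by_contra h
  push Not at h
  exact absurd h (not_lt.mpr (by linear_combination -10 * h1 + 10 * h3 + 10 * (mul_nonneg (sub_nonneg.mpr h2) (sub_nonneg.mpr (le_of_lt h)))))

theorem Par.w_lt (P : Par s e w) : w ≤ 4 := by
  have h1 := P.hw
  have h2 := P.ge_lt
  have h4 := P.s0
  have h5 := P.s1
  have h6 := g_sq (r := s) (by linear_combination (31 / 25) * h5 + (mul_nonneg (sub_nonneg.mpr h4) (sub_nonneg.mpr h5)))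
  have h7 := g_nonneg s
  have h8 : 0.6 ≤ g s := by exact not_lt.mp (fun hg__ => absurd h5 (not_le.mpr (by linear_combination (15 / 31) * hg__ - (25 / 31) * h6 + (25 / 31) * (mul_nonneg (sub_nonneg.mpr h4) (sub_nonneg.mpr h5)) + (25 / 31) * (mul_nonneg (sub_nonneg.mpr (le_of_lt hg__)) (sub_nonneg.mpr h7)))))
  by_contra h
  push Not at h
  exact absurd h (not_lt.mpr (by linear_combination 10 * h1 + 40 * h2 + 10 * h8 + 10 * (mul_nonneg (sub_nonneg.mpr h2) (sub_nonneg.mpr (le_of_lt h)))))

end

theorem par_exists {s : ℝ} (h1 : 57 / 100 ≤ s) (h2 : s ≤ 67 / 100) : ∃ e w, Par s e w := by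
  have hh := h0_lt
  have hg := h0_gt
  have h3 : g (h0 + s - 1) ≠ 1 := by
    have h4 := g_sq (r := h0 + s - 1) (by linear_combination (4861 / 5000) * h2 + (8721 / 10000) * hh + (mul_nonneg (sub_nonneg.mpr h1) (sub_nonneg.mpr h2)) +
      2 * (mul_nonneg (sub_nonneg.mpr h1) (sub_nonneg.mpr (le_of_lt hh))) + (mul_pos (sub_pos.mpr hh) (sub_pos.mpr hg)))
    intro h5
    rw [h5] at h4
    exact absurd h1 (not_le.mpr (by linear_combination (4361 / 4360) * hg + (125 / 109) * h4 + (125 / 109) * (mul_nonneg (sub_nonneg.mpr h1) (sub_nonneg.mpr h1)) + (250 / 109) * (mul_nonneg (sub_nonneg.mpr h1) (sub_nonneg.mpr (le_of_lt hg))) + (125 / 109) * (mul_pos (sub_pos.mpr hh) (sub_pos.mpr hh))))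
  refine ⟨h0 + s - 1, (1 - g s) / (1 - g (h0 + s - 1)), h1, h2, rfl, ?_⟩
  apply div_mul_cancel₀
  intro h
  exact h3 (by linear_combination -h)

theorem p2_gn (s e r q y : ℝ) : gn (p3 s e) r q y = gn (p2 s e) q r (2 * h0 + s - y) :=
  mirP_gn _ _ _ _ _

theorem p3_gn (s e r q y : ℝ) : gn (p2 s e) r q y = gn (p3 s e) q r (2 * h0 + s - y) := by
  rw [p2_gn, sub_sub_cancel]

theorem q2_gn (s e r q y : ℝ) : gn (q3 s e) r q y = gn (q2 s e) q r (2 * h0 + s - y) :=
  mirP_gn _ _ _ _ _

theorem q3_gn (s e r q y : ℝ) : gn (q2 s e) r q y = gn (q3 s e) q r (2 * h0 + s - y) := by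
  rw [q2_gn, sub_sub_cancel]

theorem mid_mir (s e r q y : ℝ) : mid s e r q y = mid s e q r (2 * h0 + s - y) := by
  unfold mid
  rw [p2_gn s e r q y, p3_gn s e r q y, q2_gn s e r q y, q3_gn s e r q y]
  ring

/-! ### The bodies -/

section

variable {s e w z : ℝ}

theorem bp_le1 : bp s e z ≤ g (z - (h0 + s)) - g e := min_le_left _ _

theorem bp_le2 : bp s e z ≤ g (z - h0) - g (1 - h0) := min_le_right _ _

theorem bp_eq1 (P : Par s e w) (h1 : s ≤ z) (h2 : z ≤ 1) :
    bp s e z = g (z - (h0 + s)) - g e := by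
  have := P.s0
  have := P.s1
  have := P.he
  have := h0_lt
  have := h0_gt
  have e1 := arc_sub (a := h0) (b := h0 + s) (x := z) (y := 1) (by linear_combination (‹57 / 100 ≤ s›)) h2
    (by linear_combination h1 + (‹h0 < 0.8661›)) (by linear_combination this)
  rw [show 1 - (h0 + s) = -e by linear_combination (‹e = h0 + s - 1›), g_neg] at e1
  exact min_eq_left (by linear_combination e1)

theorem bp_eq2 (P : Par s e w) (h1 : 1 ≤ z) (h2 : z ≤ s + 1) :
    bp s e z = g (z - h0) - g (1 - h0) := by
  have := P.s0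
  have := P.s1
  have := P.he
  have := h0_lt
  have := h0_gt
  have e1 := arc_sub (a := h0) (b := h0 + s) (x := 1) (y := z) (by linear_combination h1 + h2) h1
    (by linear_combination (‹s ≤ 67 / 100›) + (‹h0 < 0.8661›)) (by linear_combination h2 + this + (‹s ≤ 67 / 100›))
  rw [show 1 - (h0 + s) = -e by linear_combination (‹e = h0 + s - 1›), g_neg] at e1
  exact min_eq_right (by linear_combination e1)

/-- The wing. -/
theorem bq_wing (h1 : z ≤ e) : bq s e z = g (z - (2 * h0 + s - 1)) - (481 / 200 - 2 * s) := by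
  unfold bq
  rw [if_pos h1]

theorem bq_gap (h1 : e < z) (h2 : z < h0) : bq s e z = -10 := by
  unfold bq
  rw [if_neg (by exact not_le.mpr (by linear_combination h1)), if_pos h2]

theorem bq_main (P : Par s e w) (h1 : h0 ≤ z) :
    bq s e z = min (g (z - 1) - 1) (g (z - h0) - g (1 - h0)) := by
  have := P.e_lt
  have := h0_gt
  unfold bq
  rw [if_neg (by exact not_le.mpr (by linear_combination h1 + this + (‹e < 0.5361›))), if_neg (by exact not_lt.mpr (by linear_combination h1))]

theorem bq_eq1 (P : Par s e w) (h1 : h0 ≤ z) (h2 : z ≤ 1) : bq s e z = g (z - 1) - 1 := by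
  have := h0_lt
  have := h0_gt
  have e1 := arc_sub (a := h0) (b := 1) (x := z) (y := 1) (by linear_combination h1 + h2) h2
    (by linear_combination h1 + this) (by linear_combination this)
  rw [sub_self, g_zero] at e1
  rw [bq_main P h1]
  exact min_eq_left (by linear_combination e1)

theorem bq_eq2 (P : Par s e w) (h1 : 1 ≤ z) (h2 : z ≤ 9 / 5) :
    bq s e z = g (z - h0) - g (1 - h0) := by
  have := h0_lt
  have := h0_gt
  have e1 := arc_sub (a := h0) (b := 1) (x := 1) (y := z) (by linear_combination (‹h0 < 0.8661›)) h1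
    (by linear_combination) (by linear_combination h2 + this)
  rw [sub_self, g_zero] at e1
  rw [bq_main P (by linear_combination h1 + (‹h0 < 0.8661›))]
  exact min_eq_right (by linear_combination e1)

/-- The main part of the second middle probe is below its two arcs, the wing is lower. -/
theorem bq_main_le1 (P : Par s e w) (h1 : h0 ≤ z) : bq s e z ≤ g (z - 1) - 1 := by
  rw [bq_main P h1]
  exact min_le_left _ _

theorem bq_main_le2 (P : Par s e w) (h1 : h0 ≤ z) : bq s e z ≤ g (z - h0) - g (1 - h0) := by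
  rw [bq_main P h1]
  exact min_le_right _ _

end

/-! ### The probes lie in the strip -/

section

variable {s e w : ℝ}

theorem j0_ok (P : Par s e w) : (j1 0).Ok (2 * h0 + s) := by
  have := h0_pos
  have := P.s0
  refine ⟨le_rfl, le_rfl, by simp only [j1]; linear_combination this + 2 * (‹0 < h0›), 1, fun z _ _ => g_le_one _⟩

theorem j1_ok (P : Par s e w) : (j1 e).Ok (2 * h0 + s) := by
  have := h0_gt
  have := P.s0
  have := P.e_gt
  have := P.e_lt
  refine ⟨le_rfl, by simp only [j1]; linear_combination (‹0.436 < e›), by simp only [j1]; linear_combination this + 2 * (‹0.866 < h0›) + (‹57 / 100 ≤ s›), 1,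
    fun z _ _ => g_le_one _⟩

theorem p2_ok (P : Par s e w) : (p2 s e).Ok (2 * h0 + s) := by
  have := h0_gt
  have := P.s0
  refine ⟨by simp only [p2]; linear_combination this, by simp only [p2]; linear_combination,
    by simp only [p2]; linear_combination 2 * (‹0.866 < h0›), 1, fun z _ _ => ?_⟩
  have h1 := bp_le1 (s := s) (e := e) (z := z)
  have h2 := g_le_one (z - (h0 + s))
  have h3 := g_nonneg e
  simp only [p2]
  linear_combination h1 + h2 + h3

theorem p3_ok (P : Par s e w) : (p3 s e).Ok (2 * h0 + s) := mirP_ok (p2_ok P)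

theorem q2_ok (P : Par s e w) : (q2 s e).Ok (2 * h0 + s) := by
  have := h0_gt
  have := h0_lt
  have := P.s0
  have := P.s1
  refine ⟨by simp only [q2]; linear_combination 2 * (‹0.866 < h0›) + (‹57 / 100 ≤ s›), by simp only [q2]; linear_combination this + 2 * (‹h0 < 0.8661›),
    by simp only [q2]; linear_combination 2 * (‹0.866 < h0›) + (‹57 / 100 ≤ s›), 1, fun z _ _ => ?_⟩
  simp only [q2, bq]
  split
  · have := g_le_one (z - (2 * h0 + s - 1))
    linear_combination this + 2 * (‹s ≤ 67 / 100›)
  · split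
    · norm_num
    · have h1 := g_le_one (z - 1)
      exact (min_le_left _ _).trans (by linear_combination h1)

theorem q3_ok (P : Par s e w) : (q3 s e).Ok (2 * h0 + s) := mirP_ok (q2_ok P)

theorem j4_ok (P : Par s e w) : (j4 s e).Ok (2 * h0 + s) := mirP_ok (j1_ok P)

theorem j5_ok (P : Par s e w) : (j4 s 0).Ok (2 * h0 + s) := mirP_ok (j0_ok P)

/-- The gain of a wall probe, the new point inside. -/
theorem wall_in {t H r q y : ℝ} (hj : (j1 t).Ok H) (h1 : 0 ≤ y) (h2 : y ≤ t) (h3 : t ≤ 1) :
    2 * g (t - y) - 1 ≤ gn (j1 t) r q y := by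
  have h3 := le_gn (r := r) (q := q) (y := y) (z0 := y) (v := g (t - y) - 1) hj h1 h2
    (by
      intro z k1 k2
      simp only [j1] at k1 k2 ⊢
      right
      have := arc_sub (a := y) (b := t) (x := z) (y := t) h2 k2 (by linear_combination h3 + k1) (by linear_combination h1 + h3)
      rw [sub_self, g_zero] at this
      linear_combination this)
  simp only [j1, sub_self] at h3
  have h4 : gam r q 0 = 0 := by
    unfold gam
    rw [if_pos le_rfl, vir_zero]
  have h5 : g (y - t) = g (t - y) := by rw [← g_neg, neg_sub]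
  rw [h4, h5] at h3
  simp only [j1]
  linear_combination h3

/-- The gain of a wall probe, the new point between its end and `h0`. -/
theorem wall_out {t H r y : ℝ} (hj : (j1 t).Ok H) (h0' : 0 ≤ t) (h1 : t ≤ y) (h2 : y ≤ h0) :
    1 + 2 * g y - 2 * g t ≤ gn (j1 t) r y y := by
  have hh := h0_lt
  have h3 := le_gn (r := r) (q := y) (y := y) (z0 := t) (v := g y - g t) hj h0' le_rfl
    (by
      intro z k1 k2
      simp only [j1] at k1 k2 ⊢
      right
      have := arc_sub (a := t) (b := y) (x := 0) (y := z) h1 k1 (by linear_combination h2 + hh) (by linear_combination k2)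
      rw [zero_sub, zero_sub, g_neg, g_neg] at this
      linear_combination this)
  simp only [j1, sub_self, g_zero] at h3
  have h4 : gam r y (t - y) ≤ g t - g y := by
    unfold gam
    split
    · next h =>
      rw [show t - y = 0 by exact le_antisymm (by linear_combination h1) (by linear_combination h), vir_zero]
      rw [show t = y by exact le_antisymm (by linear_combination h1) (by linear_combination h), sub_self]
    · unfold vir
      apply max_le
      · have := g_anti h0' h1
        linear_combination this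
      · rw [show -(t - y) - y = -t by ring, g_neg]
  simp only [j1]
  linear_combination h3 + h4

/-- What remains to be proved when the new point is below `e`. -/
def LowE (s e w : ℝ) : Prop := ∀ y r : ℝ, 0 ≤ y → y ≤ e → 1 / 2 ≤ r → r ≤ 1 →
  2 * (1 + g s) ≤ (4 - w) * (2 * g y - 1) + w * (2 * g (e - y) - 1) + mid s e r y y

/-- What remains to be proved when the new point is between `e` and `s`. -/
def LowA (s e : ℝ) : Prop := ∀ y r : ℝ, e ≤ y → y ≤ s → 1 / 2 ≤ r → r ≤ 1 →
  4 * (1 + g s - 2 * g y) ≤ mid s e r y y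

/-- What remains to be proved when the new point is between `s` and `h0`. -/
def MidB (s e : ℝ) : Prop := ∀ y r : ℝ, s ≤ y → y ≤ h0 → 1 / 2 ≤ r → r ≤ 1 →
  4 * (1 + g s - 2 * g y) ≤ mid s e r y y

/-- What remains to be proved when the new point is between `h0` and `h0 + s / 2`. -/
def HighC (s e w : ℝ) : Prop := ∀ y r q : ℝ, h0 ≤ y → y ≤ h0 + s / 2 → 1 / 2 ≤ r → r ≤ 1 →
  1 / 2 ≤ q → q ≤ 1 → q ≤ y → ext q ≤ y →
  2 * (1 + g s) ≤ w * gn (j1 e) r q y + mid s e r q y

/-- The insertion inequality up to the middle of the strip. -/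
theorem half_gain (P : Par s e w) (hE : LowE s e w) (hA : LowA s e) (hB : MidB s e)
    (hC : HighC s e w) {y r q : ℝ} (h1 : 0 ≤ y) (h2 : y ≤ h0 + s / 2)
    (hr : Adm (2 * h0 + s - y) r) (hq : Adm y q) :
    2 * (1 + g s) ≤ (4 - w) * gn (j1 0) r q y + w * gn (j1 e) r q y +
      mid s e r q y + (4 - w) * gn (j4 s 0) r q y + w * gn (j4 s e) r q y := by
  have hg := h0_gt
  have := P.s0
  have := P.s1
  have he1 := P.e_lt
  have he2 := P.e_gt
  have hw0 := P.w_nonneg
  have hw4 : 0 ≤ 4 - w := by linear_combination P.w_lt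
  have k0 := mul_nonneg hw4 (gn_nonneg (r := r) (q := q) (y := y) (j0_ok P))
  have k1 := mul_nonneg hw0 (gn_nonneg (r := r) (q := q) (y := y) (j1_ok P))
  have k4 := mul_nonneg hw0 (gn_nonneg (r := r) (q := q) (y := y) (j4_ok P))
  have k5 := mul_nonneg hw4 (gn_nonneg (r := r) (q := q) (y := y) (j5_ok P))
  have hr' : 1 / 2 ≤ r ∧ r ≤ 1 := by
    rcases hr with hr | ⟨-, -, hr⟩
    · exact ⟨hr.1, hr.2.1⟩
    · exact absurd h2 (not_le.mpr (by linear_combination hr + (1 / 2) * (‹57 / 100 ≤ s›)))
  obtain ⟨r1, r2⟩ := hr'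
  rcases le_total y h0 with h4 | h4
  · have hqy := adm_low h4 hq
    subst hqy
    have a0 := mul_le_mul_of_nonneg_left (wall_out (r := r) (j0_ok P) le_rfl h1 h4) hw4
    rw [g_zero] at a0
    rcases le_total q e with h5 | h5
    · have a1 := mul_le_mul_of_nonneg_left (wall_in (r := r) (q := q) (j1_ok P) h1 h5
        (by linear_combination he1)) hw0
      have := hE q r h1 h5 r1 r2
      linear_combination k4 + k5 + a0 + a1 + this
    · have a1 := mul_le_mul_of_nonneg_left (wall_out (r := r) (j1_ok P) (by linear_combination he2) h5 h4) hw0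
      have hw := P.hw
      have k6 : 4 * (1 + g s - 2 * g q) ≤ mid s e r q q := by
        rcases le_total q s with h6 | h6
        · exact hA q r h5 h6 r1 r2
        · exact hB q r h6 h4 r1 r2
      linear_combination k4 + k5 + a0 + a1 - 2 * hw + k6
  · have hq' : 1 / 2 ≤ q ∧ q ≤ 1 ∧ q ≤ y ∧ ext q ≤ y := by
      rcases hq with hq | ⟨-, -, hq⟩
      · exact hq
      · exact absurd h4 (not_le.mpr (by linear_combination hq))
    obtain ⟨q1, q2, q3, q4⟩ := hq'
    have := hC y r q h4 h2 r1 r2 q1 q2 q3 q4
    linear_combination k0 + k4 + k5 + this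

/-- The insertion inequality. -/
theorem full_gain (P : Par s e w) (hE : LowE s e w) (hA : LowA s e) (hB : MidB s e)
    (hC : HighC s e w) {y r q : ℝ} (h1 : 0 ≤ y) (h2 : y ≤ 2 * h0 + s)
    (hr : Adm (2 * h0 + s - y) r) (hq : Adm y q) :
    2 * (1 + g s) ≤ (4 - w) * gn (j1 0) r q y + w * gn (j1 e) r q y +
      mid s e r q y + (4 - w) * gn (j4 s 0) r q y + w * gn (j4 s e) r q y := by
  rcases le_total y (h0 + s / 2) with h3 | h3
  · exact half_gain P hE hA hB hC h1 h3 hr hq
  · have := half_gain P hE hA hB hC (y := 2 * h0 + s - y) (r := q) (q := r) (by linear_combination h2)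
      (by linear_combination h3) (by rwa [sub_sub_cancel]) hr
    rw [j4_gn s 0 q r, j4_gn s e q r, ← mid_mir s e r q y, j1_gn s 0 q r,
      j1_gn s e q r, sub_sub_cancel] at this
    linear_combination this

/-- The eight probes. -/
noncomputable def probes (s e : ℝ) : Fin 8 → Probe :=
  ![j1 0, j1 e, p2 s e, p3 s e, q2 s e, q3 s e, j4 s 0, j4 s e]

/-- The eight weights. -/
noncomputable def weights (s w : ℝ) : Fin 8 → ℝ :=
  ![(4 - w) / (2 * (1 + g s)), w / (2 * (1 + g s)), 1 / (2 * (1 + g s)), 1 / (2 * (1 + g s)),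
    1 / (2 * (1 + g s)), 1 / (2 * (1 + g s)), (4 - w) / (2 * (1 + g s)), w / (2 * (1 + g s))]

theorem cert (P : Par s e w) (hE : LowE s e w) (hA : LowA s e) (hB : MidB s e)
    (hC : HighC s e w) : ProbeCert (2 * h0 + s) (weights s w) (probes s e) := by
  have hc : 0 < 1 + g s := by linear_combination (g_nonneg s)
  have hw0 := P.w_nonneg
  have hw4 : 0 ≤ 4 - w := by linear_combination P.w_lt
  refine ⟨?_, ?_, ?_⟩
  · intro i
    fin_cases i <;> simp [weights] <;> positivity
  · intro i
    fin_cases i
    · exact j0_ok P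
    · exact j1_ok P
    · exact p2_ok P
    · exact p3_ok P
    · exact q2_ok P
    · exact q3_ok P
    · exact j5_ok P
    · exact j4_ok P
  · intro y r q h1 h2 hr hq
    have h := full_gain P hE hA hB hC h1 h2 hr hq
    have e : ∑ i, weights s w i * ((probes s e i).val
        (fun z => max (gam r q (z - y)) (g (z - y))) -
        (probes s e i).val (fun z => gam r q (z - y))) =
        (1 / (2 * (1 + g s))) * ((4 - w) * gn (j1 0) r q y + w * gn (j1 e) r q y +
      mid s e r q y + (4 - w) * gn (j4 s 0) r q y + w * gn (j4 s e) r q y) := by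
      rw [Fin.sum_univ_eight]
      simp only [weights, probes, gn, mid]
      simp
      field_simp
      ring
    rw [e]
    calc (1 : ℝ) = (1 / (2 * (1 + g s))) * (2 * (1 + g s)) := by field_simp
      _ ≤ _ := mul_le_mul_of_nonneg_left h (by positivity)

theorem count (P : Par s e w) (hE : LowE s e w) (hA : LowA s e) (hB : MidB s e)
    (hC : HighC s e w) : CountBound 2 s := by
  have hc : 0 < 1 + g s := by linear_combination (g_nonneg s)
  have hp := h0_gt
  apply countBound_of_probe (by linear_combination P.s0) (by linear_combination P.s1 + hp) (c := weights s w)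
    (j := probes s e)
  · have := cert P hE hA hB hC
    push_cast
    exact this
  · rw [Fin.sum_univ_eight]
    simp only [weights]
    simp
    apply le_of_eq
    field_simp
    ring

end

end Pool.Agent.Strip051.FourF
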