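import Pool.Agent.Strip051.FourF.Defs
import Pool.Agent.Strip051.FourB.Box

/-! # Gains of the middle probes when the new point is below `h0`

`b` is the signed difference of the exit and the virtual disc, `k = h0 (1 - g b)`. -/

namespace Pool.Agent.Strip051.FourF

open Pool.Agent.StripNear Pool.Agent.StripSquare Pool.Agent.Strip051
open Pool.Agent.Strip051.Four (gn mirP mirP_ok mirP_gn mirP_val j1 j4 arc_sub le_gn
  gn_nonneg gain_ge ext_facts g_le_of_abs)
open Pool.Agent.Strip051.Four.Low (ph ph_neg ph_nonneg ph_mono h0_hi h0_lo)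

/-- The signed difference `b` of the exit and the virtual disc. -/
structure Sg (r b k : ℝ) : Prop where
  r1 : 1 / 2 ≤ r
  r2 : r ≤ 1
  e1 : 1 / 2 ≤ ext r
  e2 : ext r ≤ 1
  b1 : -1 / 2 ≤ b
  b2 : b ≤ 1 / 2
  k1 : 86602 / 100000 * ph b ≤ k
  k2 : k ≤ 86603 / 100000 * ph b
  k3 : 0 ≤ k
  k4 : k ≤ 1161 / 10000
  hr : r = h0 - k - b / 2
  he : ext r = h0 - k + b / 2
  hs : ph r + ph (ext r) = 1 + ph b

theorem sg_exists {r : ℝ} (h1 : 1 / 2 ≤ r) (h2 : r ≤ 1) : ∃ b k, Sg r b k := by
  obtain ⟨e1, e2, e3, e4, e5⟩ := ext_facts h1 h2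
  have l1 := h0_lo
  have l2 := h0_hi
  have hp := h0_pos
  have e : ext r = r / 2 + h0 * g r := rfl
  have e' : ext (ext r) = ext r / 2 + h0 * g (ext r) := rfl
  rw [e5] at e'
  have eh : h0 * g (ext r - r) = (ext r + r) / 2 := by
    rw [e3]
    linear_combination -e - e'
  have f0 := ph_nonneg (ext r - r)
  have f1 : ph (ext r - r) ≤ 134 / 1000 := by
    have h5 : ph (1 / 2) ≤ 134 / 1000 := by
      unfold Four.Low.ph
      have : (866 / 1000 : ℝ) ≤ g (1 / 2) := by
        unfold g
        apply Real.le_sqrt_of_sq_le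
        norm_num
      linear_combination this
    rcases le_total 0 (ext r - r) with h | h
    · have := ph_mono (b := 1 / 2) h (by linear_combination h1 + e2)
      linear_combination h5 + this
    · have := ph_mono (a := -(ext r - r)) (b := 1 / 2) (by linear_combination h) (by linear_combination h2 + e1)
      rw [ph_neg] at this
      linear_combination h5 + this
  have hk : h0 * ph (ext r - r) = h0 - (ext r + r) / 2 := by
    unfold Four.Low.ph
    linear_combination -eh
  refine ⟨ext r - r, h0 * ph (ext r - r), h1, h2, e1, e2, by linear_combination h2 + e1, by linear_combination h1 + e2,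
    mul_le_mul_of_nonneg_right l1 f0, mul_le_mul_of_nonneg_right l2 f0,
    mul_nonneg hp.le f0, ?_, by linear_combination hk, by linear_combination hk, ?_⟩
  · have := mul_le_mul l2 f1 f0 (by norm_num)
    linear_combination this
  · unfold Four.Low.ph
    linear_combination e3

section

variable {r b k H y x C α z0 β v A B : ℝ} {j : Probe}

theorem Sg.gb (S : Sg r b k) : g (ext r - r) = 1 - ph b := by
  have h1 := (ext_facts S.r1 S.r2).2.2.1
  have h2 := S.hs
  unfold Four.Low.ph at *
  linear_combination h1 - h2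

/-- One arc above the body, one contact above the new point. -/
theorem gain_sg (hj : j.Ok H) (S : Sg r b k)
    (ha : ∀ z, j.lo ≤ z → z ≤ j.hi → j.a z ≤ g (z - C) + α) (hβ : β ≤ j.a z0)
    (hC1 : y ≤ C) (hC2 : C ≤ y + r) (hlo : j.lo ≤ z0) (hhi : z0 ≤ j.hi) (hz1 : y ≤ z0)
    (hz2 : z0 ≤ y + 2 * r) (hA : y + (h0 - k + b / 2) - C = A)
    (hB : y + (h0 - k - b / 2) - z0 = B)
    (hv : v ≤ -ph b + ph A + ph B - 1 - α + β) : v ≤ gn j r x y := by
  have h := gain_ge (q := x) hj S.r1 S.r2 hC1 hC2 ha hlo hhi hz1 hz2 hβ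
  rw [S.gb] at h
  have e1 : y + ext r - C = A := by rw [← hA, S.he]
  have e2 : y + r - z0 = B := by
    rw [← hB]
    linear_combination S.hr
  rw [e1, e2] at h
  unfold Four.Low.ph at *
  linear_combination hv + h

/-- The new front above the body, an arc with centre between `y` and `y + r`. -/
theorem aft (h1 : 1 / 2 ≤ r) (h2 : r ≤ 1) (hC1 : y ≤ C) (hC2 : C ≤ y + r)
    (ha : ∀ z, j.lo ≤ z → z ≤ j.hi → j.a z ≤ g (z - C) + α) (z : ℝ) (hz1 : j.lo ≤ z)
    (hz2 : z ≤ j.hi) :
    j.a z + (g (ext r) - g (y + ext r - C) - α) ≤ gam r x (z - y) ∨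
      j.a z + (g (ext r) - g (y + ext r - C) - α) ≤ g (z - y) := by
  obtain ⟨e1, e2, e3, e4, e5⟩ := ext_facts h1 h2
  have h4 : g (ext r) ≤ g (y + ext r - C) := g_le_of_abs (by linear_combination hC1) (by linear_combination h2 + hC2 + 2 * e1)
  have h3 := ha z hz1 hz2
  have hg0 := g_nonneg (z - y)
  rcases le_total (z - y) (ext r) with hz | hz
  · right
    rcases le_total (-1) (z - C) with h5 | h5
    · have := four (x := z - C) (y := z - y) (z := y + ext r - C) (w := ext r) h5
        (by linear_combination e2) (by linear_combination hC1) (by linear_combination hz) (by ring)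
      linear_combination h3 + this
    · have : g (z - C) = 0 := g_far (by rw [abs_of_nonpos (by linear_combination h5)]; linear_combination h5)
      linear_combination h4 + h3 + hg0 + this
  · left
    unfold gam
    rw [if_pos (by linear_combination e1 + hz)]
    unfold vir
    rcases le_total (z - C) 1 with h5 | h5
    · refine le_trans ?_ (le_max_right _ _)
      have := four (x := ext r - r) (y := z - y - r) (z := y + ext r - C) (w := z - C)
        (by linear_combination h2 + e1) (by linear_combination h5) (by linear_combination hz) (by linear_combination hC2) (by ring)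
      linear_combination -e3 + h3 + this
    · have : g (z - C) = 0 := g_far (h5.trans (le_abs_self _))
      refine le_trans ?_ (le_max_left _ _)
      linear_combination h4 + h3 + this

/-- The floor front below the new point. -/
theorem gam_low {e : ℝ} (h0' : 0 ≤ e) (h1 : e ≤ y) : gam r y (e - y) ≤ ph y - ph e := by
  have h2 := g_anti h0' h1
  unfold Four.Low.ph
  unfold gam
  split
  · next h =>
    rw [show e - y = 0 by exact le_antisymm (by linear_combination h1) (by linear_combination h), vir_zero]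
    linear_combination h2
  · unfold vir
    apply max_le
    · linear_combination h2
    · rw [show -(e - y) - y = -e by ring, g_neg]
      linear_combination

/-- One arc above the body, contact at a height `e` below the new point. -/
theorem gain_low (hj : j.Ok H) (S : Sg r b k)
    (ha : ∀ z, j.lo ≤ z → z ≤ j.hi → j.a z ≤ g (z - C) + α) (hβ : β ≤ j.a z0)
    (hC1 : y ≤ C) (hC2 : C ≤ y + r) (hlo : j.lo ≤ z0) (hhi : z0 ≤ j.hi) (hz0 : 0 ≤ z0)
    (hz1 : z0 ≤ y) (hA : y + (h0 - k + b / 2) - C = A)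
    (hv : v ≤ -ph (h0 - k + b / 2) + ph A - α - ph y + ph z0 + β) : v ≤ gn j r y y := by
  have h := le_gn (r := r) (q := y) (y := y) (z0 := z0)
    (v := g (ext r) - g (y + ext r - C) - α) hj hlo hhi
    (fun z k1 k2 => aft S.r1 S.r2 hC1 hC2 ha z k1 k2)
  have h2 := gam_low (r := r) hz0 hz1
  have e1 : y + ext r - C = A := by rw [← hA, S.he]
  rw [e1, S.he] at h
  unfold Four.Low.ph at *
  linear_combination hβ + hv + h + h2

end

section

variable {s e w z y r x b k : ℝ}

/-! ### Values of the bodies -/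

theorem bp_one (P : Par s e w) : bp s e 1 = 0 := by
  have := P.s0
  have := P.s1
  have := P.he
  rw [bp_eq1 P (by linear_combination (‹s ≤ 67 / 100›)) le_rfl, show 1 - (h0 + s) = -e by linear_combination this, g_neg, sub_self]

theorem bp_s (P : Par s e w) : bp s e s = 1 / 2 - g e := by
  have := P.s1
  rw [bp_eq1 P le_rfl (by linear_combination this), show s - (h0 + s) = -h0 by ring, g_neg, g_h0]

theorem bp_top (P : Par s e w) : bp s e (s + 1) = g (s + 1 - h0) - g (1 - h0) := by
  have := P.s0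
  rw [bp_eq2 P (by linear_combination this) le_rfl]

theorem p3_lo (s e : ℝ) : (p3 s e).lo = 2 * h0 - 1 := by
  simp only [p3, Four.mirP, p2]
  ring

theorem p3_hi (s e : ℝ) : (p3 s e).hi = 2 * h0 := by
  simp only [p3, Four.mirP, p2]
  ring

theorem p3_a (s e z : ℝ) : (p3 s e).a z = bp s e (2 * h0 + s - z) := rfl

theorem p3_le1 : (p3 s e).a z ≤ g (z - h0) + -g e := by
  have := bp_le1 (s := s) (e := e) (z := 2 * h0 + s - z)
  rw [show 2 * h0 + s - z - (h0 + s) = -(z - h0) by ring, g_neg] at this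
  exact this

theorem p3_le2 : (p3 s e).a z ≤ g (z - (h0 + s)) + -g (1 - h0) := by
  have := bp_le2 (s := s) (e := e) (z := 2 * h0 + s - z)
  rw [show 2 * h0 + s - z - h0 = -(z - (h0 + s)) by ring, g_neg] at this
  exact this

theorem p3_H (P : Par s e w) : (p3 s e).a (2 * h0 + s - 1) = 0 := by
  rw [p3_a, sub_sub_cancel, bp_one P]

theorem p3_2 (P : Par s e w) : (p3 s e).a (2 * h0 - 1) = g (s + 1 - h0) - g (1 - h0) := by
  rw [p3_a, show 2 * h0 + s - (2 * h0 - 1) = s + 1 by ring, bp_top P]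

/-- The wing is low. -/
theorem wing_le (P : Par s e w) (h1 : z ≤ e) : bq s e z ≤ 2 * s - 381 / 200 := by
  have hp := h0_pos
  have he := P.he
  rw [bq_wing h1]
  have h2 : g (z - (2 * h0 + s - 1)) ≤ 1 / 2 := by
    rw [← g_h0, ← g_neg (z - (2 * h0 + s - 1))]
    exact g_anti hp.le (by linear_combination h1 + he)
  linear_combination h2

theorem bq_le1 (P : Par s e w) (h1 : 2 * h0 + s - 2 ≤ z) (h2 : z ≤ 9 / 5) :
    bq s e z ≤ g (z - 1) + -1 := by
  have := P.s0
  have := P.s1
  have := h0_lt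
  have := h0_gt
  have h3 := g_nonneg (z - 1)
  rcases le_or_gt z e with h | h
  · have h4 := wing_le P h
    have he := P.e_lt
    have h5 : (z - 1) ^ 2 ≤ 49 / 100 := by linear_combination (11617 / 10000) * h1 + (mul_nonneg (sub_nonneg.mpr h1) (sub_nonneg.mpr h)) +
      (mul_nonneg (sub_nonneg.mpr h1) (sub_nonneg.mpr (le_of_lt he))) + 2 * (mul_nonneg (sub_nonneg.mpr h1) (sub_nonneg.mpr (le_of_lt ‹h0 < 0.8661›))) +
      (3873 / 4213) * (mul_nonneg (sub_nonneg.mpr h2) (sub_nonneg.mpr ‹57 / 100 ≤ s›)) + 25916 * (mul_pos (sub_pos.mpr this) (sub_pos.mpr this)) +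
      2 * (mul_nonneg (sub_nonneg.mpr (le_of_lt this)) (sub_nonneg.mpr ‹s ≤ 67 / 100›)) +
      25920 * (mul_pos (sub_pos.mpr this) (sub_pos.mpr ‹h0 < 0.8661›)) + (340 / 4213) * (mul_nonneg (sub_nonneg.mpr h) (sub_nonneg.mpr ‹57 / 100 ≤ s›)) +
      (340 / 4213) * (mul_nonneg (sub_nonneg.mpr (le_of_lt he)) (sub_nonneg.mpr ‹57 / 100 ≤ s›))
    have h6 := g_sq (r := z - 1) (by linear_combination h5)
    have h7 : 7 / 10 ≤ g (z - 1) := by exact not_lt.mp (fun hg__ => absurd h5 (not_le.mpr (by linear_combination (7 / 10) * hg__ - h6 + (mul_nonneg (sub_nonneg.mpr (le_of_lt hg__)) (sub_nonneg.mpr h3)))))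
    linear_combination h4 + h7 + 2 * (‹s ≤ 67 / 100›)
  · rcases lt_or_ge z h0 with h5 | h5
    · rw [bq_gap h h5]
      linear_combination h3
    · have := bq_main_le1 P h5
      linear_combination this

theorem bq_le2 (P : Par s e w) (h1 : 2 * h0 + s - 2 ≤ z) (h2 : z ≤ 9 / 5) :
    bq s e z ≤ g (z - h0) + -g (1 - h0) := by
  have := P.s0
  have := P.s1
  have := h0_lt
  have := h0_gt
  have h3 := g_nonneg (z - h0)
  have h8 := g_le_one (1 - h0)
  rcases le_or_gt z e with h | h
  · have h4 := wing_le P h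
    have he := P.e_lt
    have h5 : (z - h0) ^ 2 ≤ 32 / 100 := by linear_combination (8939 / 10000) * h1 + (mul_nonneg (sub_nonneg.mpr h1) (sub_nonneg.mpr h)) +
      (mul_nonneg (sub_nonneg.mpr h1) (sub_nonneg.mpr (le_of_lt he))) + (8939 / 12639) * (mul_nonneg (sub_nonneg.mpr h2) (sub_nonneg.mpr ‹57 / 100 ≤ s›)) +
      11279 * (mul_pos (sub_pos.mpr this) (sub_pos.mpr this)) + 11280 * (mul_pos (sub_pos.mpr this) (sub_pos.mpr ‹h0 < 0.8661›)) +
      (3700 / 12639) * (mul_nonneg (sub_nonneg.mpr h) (sub_nonneg.mpr ‹57 / 100 ≤ s›)) + (3700 / 12639) * (mul_nonneg (sub_nonneg.mpr (le_of_lt he)) (sub_nonneg.mpr ‹57 / 100 ≤ s›))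
    have h6 := g_sq (r := z - h0) (by linear_combination h5)
    have h7 : 8 / 10 ≤ g (z - h0) := by exact not_lt.mp (fun hg__ => absurd h5 (not_le.mpr (by linear_combination (4 / 5) * hg__ - h6 + (mul_nonneg (sub_nonneg.mpr (le_of_lt hg__)) (sub_nonneg.mpr h3)))))
    linear_combination 2 * h1 + 4 * this + h8 + 2 * h + h4 + 2 * he + h7
  · rcases lt_or_ge z h0 with h5 | h5
    · rw [bq_gap h h5]
      linear_combination h3 + h8
    · have := bq_main_le2 P h5
      linear_combination this

theorem bq_one (P : Par s e w) : bq s e 1 = 0 := by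
  have := h0_lt
  rw [bq_eq1 P (by linear_combination this) le_rfl, sub_self, g_zero, sub_self]

theorem bq_h (P : Par s e w) : bq s e h0 = g (1 - h0) - 1 := by
  have := h0_lt
  rw [bq_eq1 P le_rfl (by linear_combination this), show h0 - 1 = -(1 - h0) by ring, g_neg]

theorem bq_end (P : Par s e w) : bq s e (9 / 5) = g (9 / 5 - h0) - g (1 - h0) :=
  bq_eq2 P (by norm_num) le_rfl

theorem bq_e (P : Par s e w) : bq s e e = 2 * s - 381 / 200 := by
  rw [bq_wing le_rfl, show e - (2 * h0 + s - 1) = -h0 by linear_combination P.he, g_neg, g_h0]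
  ring

theorem q3_lo (s e : ℝ) : (q3 s e).lo = 2 * h0 + s - 9 / 5 := by
  simp only [q3, Four.mirP, q2]

theorem q3_hi (s e : ℝ) : (q3 s e).hi = 2 := by
  simp only [q3, Four.mirP, q2]
  ring

theorem q3_a (s e z : ℝ) : (q3 s e).a z = bq s e (2 * h0 + s - z) := rfl

theorem q3_le1 (P : Par s e w) (h1 : 2 * h0 + s - 9 / 5 ≤ z) (h2 : z ≤ 2) :
    (q3 s e).a z ≤ g (z - (2 * h0 + s - 1)) + -1 := by
  have := bq_le1 P (z := 2 * h0 + s - z) (by linear_combination h2) (by linear_combination h1)
  rw [show 2 * h0 + s - z - 1 = -(z - (2 * h0 + s - 1)) by ring, g_neg] at this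
  exact this

theorem q3_le2 (P : Par s e w) (h1 : 2 * h0 + s - 9 / 5 ≤ z) (h2 : z ≤ 2) :
    (q3 s e).a z ≤ g (z - (h0 + s)) + -g (1 - h0) := by
  have := bq_le2 P (z := 2 * h0 + s - z) (by linear_combination h2) (by linear_combination h1)
  rw [show 2 * h0 + s - z - h0 = -(z - (h0 + s)) by ring, g_neg] at this
  exact this

theorem q3_H (P : Par s e w) : (q3 s e).a (2 * h0 + s - 1) = 0 := by
  rw [q3_a, sub_sub_cancel, bq_one P]

theorem q3_v (P : Par s e w) : (q3 s e).a (h0 + s) = g (1 - h0) - 1 := by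
  rw [q3_a, show 2 * h0 + s - (h0 + s) = h0 by ring, bq_h P]

theorem q3_bot (P : Par s e w) :
    (q3 s e).a (2 * h0 + s - 9 / 5) = g (9 / 5 - h0) - g (1 - h0) := by
  rw [q3_a, sub_sub_cancel, bq_end P]

theorem q3_y (P : Par s e w) (h1 : 2 * h0 + s - 9 / 5 ≤ y) (h2 : y ≤ 2 * h0 + s - 1) :
    (q3 s e).a y = g (h0 + s - y) - g (1 - h0) := by
  rw [q3_a, bq_eq2 P (by linear_combination h2) (by linear_combination h1)]
  congr 2
  ring

/-! ### The probe `p2` -/

theorem gP_h1 (P : Par s e w) (S : Sg r b k) (h1 : 37 / 100 ≤ y) (h2 : y ≤ h0) :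
    -ph b + ph (y - k + b / 2) + ph (y + h0 - k - b / 2 - 1) - ph (1 - h0) ≤
      gn (p2 s e) r x y := by
  have := P.s0
  have := P.s1
  have := h0_lt
  have := S.r1
  apply gain_sg (C := h0) (α := -g (1 - h0)) (z0 := 1) (β := 0) (p2_ok P) S
    (fun z _ _ => bp_le2) (bp_one P).ge h2 (by linear_combination h1 + this + (‹h0 < 0.8661›)) (by simp only [p2]; linear_combination (‹s ≤ 67 / 100›))
    (by simp only [p2]; linear_combination (‹57 / 100 ≤ s›)) (by linear_combination h2 + (‹h0 < 0.8661›)) (by linear_combination h1 + 2 * this) (A := y - k + b / 2)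
    (B := y + h0 - k - b / 2 - 1) (by ring) (by ring)
  unfold Four.Low.ph
  linear_combination

theorem gP_hs (P : Par s e w) (S : Sg r b k) (h1 : 37 / 100 ≤ y) (h2 : y ≤ s) :
    -ph b + ph (y - k + b / 2) + ph (y + h0 - k - b / 2 - s) - ph (1 - h0) - 1 / 2 +
      ph (h0 + s - 1) ≤ gn (p2 s e) r x y := by
  have := P.s0
  have := P.s1
  have := h0_lt
  have := h0_gt
  have := S.r1
  apply gain_sg (C := h0) (α := -g (1 - h0)) (z0 := s) (β := 1 / 2 - g e) (p2_ok P) S
    (fun z _ _ => bp_le2) (bp_s P).ge (by linear_combination h2 + (‹s ≤ 67 / 100›) + (‹0.866 < h0›)) (by linear_combination h1 + this + (‹h0 < 0.8661›)) (by simp only [p2]; linear_combination)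
    (by simp only [p2]; linear_combination) (by linear_combination h2) (by linear_combination h1 + 2 * this + (‹s ≤ 67 / 100›)) (A := y - k + b / 2)
    (B := y + h0 - k - b / 2 - s) (by ring) (by ring)
  rw [← P.he]
  unfold Four.Low.ph
  linear_combination

theorem gP_vs (P : Par s e w) (S : Sg r b k) (h2 : y ≤ s)
    (h3 : h0 + s ≤ y + r) :
    -ph b + ph (y - k + b / 2 - s) + ph (y + h0 - k - b / 2 - s) - 1 / 2 ≤
      gn (p2 s e) r x y := by
  have := P.s0
  have := P.s1
  have := h0_lt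
  have := h0_gt
  have := S.r1
  apply gain_sg (C := h0 + s) (α := -g e) (z0 := s) (β := 1 / 2 - g e) (p2_ok P) S
    (fun z _ _ => bp_le1) (bp_s P).ge (by linear_combination h2 + (‹0.866 < h0›)) (by linear_combination h3) (by simp only [p2]; linear_combination)
    (by simp only [p2]; linear_combination) (by linear_combination h2) (by linear_combination h3 + this + (‹0.866 < h0›)) (A := y - k + b / 2 - s)
    (B := y + h0 - k - b / 2 - s) (by ring) (by ring)
  linear_combination

/-! ### The probe `p3` -/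

theorem gR_hH (P : Par s e w) (S : Sg r b k) (h1 : 37 / 100 ≤ y) (h2 : y ≤ h0)
    (h3 : 2 * h0 + s - 1 ≤ y + 2 * r) :
    -ph b + ph (y - k + b / 2) + ph (y - h0 - k - b / 2 - s + 1) - ph (h0 + s - 1) ≤
      gn (p3 s e) r x y := by
  have := P.s0
  have := P.s1
  have := h0_lt
  have := h0_gt
  have := S.r1
  apply gain_sg (C := h0) (α := -g e) (z0 := 2 * h0 + s - 1) (β := 0) (p3_ok P) S
    (fun z _ _ => p3_le1) (p3_H P).ge h2 (by linear_combination h1 + this + (‹h0 < 0.8661›)) (by rw [p3_lo]; linear_combination (‹57 / 100 ≤ s›))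
    (by rw [p3_hi]; linear_combination (‹s ≤ 67 / 100›)) (by linear_combination h2 + (‹57 / 100 ≤ s›) + (‹0.866 < h0›)) (by linear_combination h3) (A := y - k + b / 2)
    (B := y - h0 - k - b / 2 - s + 1) (by ring) (by ring)
  rw [← P.he]
  unfold Four.Low.ph
  linear_combination

theorem gR_v2 (P : Par s e w) (S : Sg r b k) (h2 : y ≤ 2 * h0 - 1)
    (h3 : h0 + s ≤ y + r) :
    -ph b + ph (y - k + b / 2 - s) + ph (y - h0 - k - b / 2 + 1) - ph (s + 1 - h0) ≤
      gn (p3 s e) r x y := by
  have := P.s0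
  have := P.s1
  have := h0_lt
  have := h0_gt
  have := S.r1
  apply gain_sg (C := h0 + s) (α := -g (1 - h0)) (z0 := 2 * h0 - 1)
    (β := g (s + 1 - h0) - g (1 - h0)) (p3_ok P) S
    (fun z _ _ => p3_le2) (p3_2 P).ge (by linear_combination h2 + (‹57 / 100 ≤ s›) + (‹h0 < 0.8661›)) (by linear_combination h3) (by rw [p3_lo])
    (by rw [p3_hi]; linear_combination) (by linear_combination h2) (by linear_combination h3 + this + (‹57 / 100 ≤ s›) + (‹h0 < 0.8661›)) (A := y - k + b / 2 - s)
    (B := y - h0 - k - b / 2 + 1) (by ring) (by ring)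
  unfold Four.Low.ph
  linear_combination

theorem gR_h2 (P : Par s e w) (S : Sg r b k) (h1 : 37 / 100 ≤ y) (h2 : y ≤ 2 * h0 - 1) :
    -ph b + ph (y - k + b / 2) + ph (y - h0 - k - b / 2 + 1) - ph (h0 + s - 1) -
      ph (s + 1 - h0) + ph (1 - h0) ≤ gn (p3 s e) r x y := by
  have := P.s0
  have := P.s1
  have := h0_lt
  have := h0_gt
  have := S.r1
  apply gain_sg (C := h0) (α := -g e) (z0 := 2 * h0 - 1)
    (β := g (s + 1 - h0) - g (1 - h0)) (p3_ok P) S
    (fun z _ _ => p3_le1) (p3_2 P).ge (by linear_combination h2 + (‹h0 < 0.8661›)) (by linear_combination h1 + this + (‹h0 < 0.8661›)) (by rw [p3_lo])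
    (by rw [p3_hi]; linear_combination) (by linear_combination h2) (by linear_combination h1 + 2 * this + 2 * (‹h0 < 0.8661›)) (A := y - k + b / 2)
    (B := y - h0 - k - b / 2 + 1) (by ring) (by ring)
  rw [← P.he]
  unfold Four.Low.ph
  linear_combination

/-! ### The probe `q2` -/

theorem gQ_hh (P : Par s e w) (S : Sg r b k) (h1 : 37 / 100 ≤ y) (h2 : y ≤ h0) :
    -ph b + ph (y - k + b / 2) + ph (y - k - b / 2) - 2 * ph (1 - h0) ≤
      gn (q2 s e) r x y := by
  have := P.s0
  have := P.s1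
  have := h0_lt
  have := h0_gt
  have := S.r1
  apply gain_sg (C := h0) (α := -g (1 - h0)) (z0 := h0) (β := g (1 - h0) - 1) (q2_ok P) S
    (fun z k1 k2 => bq_le2 P k1 k2) (bq_h P).ge h2 (by linear_combination h1 + this + (‹h0 < 0.8661›))
    (by simp only [q2]; linear_combination (‹s ≤ 67 / 100›) + (‹h0 < 0.8661›)) (by simp only [q2]; linear_combination (‹h0 < 0.8661›)) (by linear_combination h2) (by linear_combination h1 + 2 * this + (‹h0 < 0.8661›))
    (A := y - k + b / 2) (B := y - k - b / 2) (by ring) (by ring)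
  unfold Four.Low.ph
  linear_combination

theorem gQ_h1 (P : Par s e w) (S : Sg r b k) (h1 : 37 / 100 ≤ y) (h2 : y ≤ h0) :
    -ph b + ph (y - k + b / 2) + ph (y + h0 - k - b / 2 - 1) - ph (1 - h0) ≤
      gn (q2 s e) r x y := by
  have := P.s0
  have := P.s1
  have := h0_lt
  have := h0_gt
  have := S.r1
  apply gain_sg (C := h0) (α := -g (1 - h0)) (z0 := 1) (β := 0) (q2_ok P) S
    (fun z k1 k2 => bq_le2 P k1 k2) (bq_one P).ge h2 (by linear_combination h1 + this + (‹h0 < 0.8661›))
    (by simp only [q2]; linear_combination (‹s ≤ 67 / 100›) + 2 * (‹h0 < 0.8661›)) (by simp only [q2]; linear_combination) (by linear_combination h2 + (‹h0 < 0.8661›)) (by linear_combination h1 + 2 * this)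
    (A := y - k + b / 2) (B := y + h0 - k - b / 2 - 1) (by ring) (by ring)
  unfold Four.Low.ph
  linear_combination

theorem gQ_1h (P : Par s e w) (S : Sg r b k) (h2 : y ≤ h0)
    (h3 : 1 ≤ y + r) :
    -ph b + ph (y + h0 - k + b / 2 - 1) + ph (y - k - b / 2) - ph (1 - h0) ≤
      gn (q2 s e) r x y := by
  have := P.s0
  have := P.s1
  have := h0_lt
  have := h0_gt
  have := S.r1
  apply gain_sg (C := 1) (α := -1) (z0 := h0) (β := g (1 - h0) - 1) (q2_ok P) S
    (fun z k1 k2 => bq_le1 P k1 k2) (bq_h P).ge (by linear_combination h2 + (‹h0 < 0.8661›)) (by linear_combination h3)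
    (by simp only [q2]; linear_combination (‹s ≤ 67 / 100›) + (‹h0 < 0.8661›)) (by simp only [q2]; linear_combination (‹h0 < 0.8661›)) (by linear_combination h2) (by linear_combination h3 + this + (‹h0 < 0.8661›))
    (A := y + h0 - k + b / 2 - 1) (B := y - k - b / 2) (by ring) (by ring)
  unfold Four.Low.ph
  linear_combination

/-- The wing, the new point below its end. -/
theorem gQ_hy (P : Par s e w) (S : Sg r b k) (h1 : 2 * h0 + s - 2 ≤ y) (h1' : 37 / 100 ≤ y)
    (h2 : y ≤ e) :
    -ph b + ph (y - k + b / 2) + ph (h0 - k - b / 2) - ph (1 - h0) -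
      ph (2 * h0 + s - 1 - y) - 281 / 200 + 2 * s ≤ gn (q2 s e) r x y := by
  have := P.s0
  have := P.s1
  have := P.e_lt
  have := h0_lt
  have := h0_gt
  have := S.r1
  apply gain_sg (C := h0) (α := -g (1 - h0)) (z0 := y)
    (β := g (y - (2 * h0 + s - 1)) - (481 / 200 - 2 * s)) (q2_ok P) S
    (fun z k1 k2 => bq_le2 P k1 k2) (bq_wing h2).ge (by linear_combination h2 + (‹e < 0.5361›) + (‹0.866 < h0›)) (by linear_combination h1' + this + (‹h0 < 0.8661›))
    (by simp only [q2]; linear_combination h1) (by simp only [q2]; linear_combination h2 + (‹e < 0.5361›)) (by linear_combination) (by linear_combination 2 * this)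
    (A := y - k + b / 2) (B := h0 - k - b / 2) (by ring) (by ring)
  rw [show y - (2 * h0 + s - 1) = -(2 * h0 + s - 1 - y) by ring, g_neg]
  unfold Four.Low.ph
  linear_combination

/-- The wing, the new point below its end. -/
theorem gQ_1y (P : Par s e w) (S : Sg r b k) (h1 : 2 * h0 + s - 2 ≤ y) (h2 : y ≤ e)
    (h3 : 1 ≤ y + r) :
    -ph b + ph (y + h0 - k + b / 2 - 1) + ph (h0 - k - b / 2) -
      ph (2 * h0 + s - 1 - y) - 281 / 200 + 2 * s ≤ gn (q2 s e) r x y := by
  have := P.s0
  have := P.s1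
  have := P.e_lt
  have := h0_lt
  have := h0_gt
  have := S.r1
  apply gain_sg (C := 1) (α := -1) (z0 := y)
    (β := g (y - (2 * h0 + s - 1)) - (481 / 200 - 2 * s)) (q2_ok P) S
    (fun z k1 k2 => bq_le1 P k1 k2) (bq_wing h2).ge (by linear_combination h2 + (‹e < 0.5361›)) (by linear_combination h3)
    (by simp only [q2]; linear_combination h1) (by simp only [q2]; linear_combination h2 + (‹e < 0.5361›)) (by linear_combination) (by linear_combination 2 * this)
    (A := y + h0 - k + b / 2 - 1) (B := h0 - k - b / 2) (by ring) (by ring)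
  rw [show y - (2 * h0 + s - 1) = -(2 * h0 + s - 1 - y) by ring, g_neg]
  unfold Four.Low.ph
  linear_combination

/-- The wing, the new point above its end. -/
theorem gQ_he (P : Par s e w) (S : Sg r b k) (h1 : e ≤ y) (h2 : y ≤ h0) :
    -181 / 200 + 2 * s - ph (h0 - k + b / 2) + ph (y - k + b / 2) - ph (1 - h0) +
      ph (h0 + s - 1) - ph y ≤ gn (q2 s e) r y y := by
  have := P.s0
  have := P.s1
  have := P.e_gt
  have := P.e_lt
  have := P.he
  have := h0_lt
  have := h0_gt
  have := S.r1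
  apply gain_low (C := h0) (α := -g (1 - h0)) (z0 := e) (β := 2 * s - 381 / 200) (q2_ok P) S
    (fun z k1 k2 => bq_le2 P k1 k2) (bq_e P).ge (by linear_combination h2) (by linear_combination h1 + this + (‹57 / 100 ≤ s›) - (‹e = h0 + s - 1›))
    (by simp only [q2]; linear_combination (‹57 / 100 ≤ s›) + (‹e < 0.5361›) - 2 * (‹e = h0 + s - 1›)) (by simp only [q2]; linear_combination (‹e < 0.5361›)) (by linear_combination (‹0.436 < e›)) (by linear_combination h1)
    (A := y - k + b / 2) (by ring)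
  rw [← P.he]
  unfold Four.Low.ph
  linear_combination

/-- The wing, the new point above its end. -/
theorem gQ_1e (P : Par s e w) (S : Sg r b k) (h1 : e ≤ y) (h2 : y ≤ h0) (h3 : 1 ≤ y + r) :
    -181 / 200 + 2 * s - ph (h0 - k + b / 2) + ph (y + h0 - k + b / 2 - 1) +
      ph (h0 + s - 1) - ph y ≤ gn (q2 s e) r y y := by
  have := P.s0
  have := P.s1
  have := P.e_gt
  have := P.e_lt
  have := P.he
  have := h0_lt
  have := h0_gt
  have := S.r1
  apply gain_low (C := 1) (α := -1) (z0 := e) (β := 2 * s - 381 / 200) (q2_ok P) S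
    (fun z k1 k2 => bq_le1 P k1 k2) (bq_e P).ge (by linear_combination h2 + (‹57 / 100 ≤ s›) + (‹e < 0.5361›) - (‹e = h0 + s - 1›)) (by linear_combination h3)
    (by simp only [q2]; linear_combination (‹57 / 100 ≤ s›) + (‹e < 0.5361›) - 2 * (‹e = h0 + s - 1›)) (by simp only [q2]; linear_combination (‹e < 0.5361›)) (by linear_combination (‹0.436 < e›)) (by linear_combination h1)
    (A := y + h0 - k + b / 2 - 1) (by ring)
  rw [← P.he]
  unfold Four.Low.ph
  linear_combination

/-! ### The probe `q3` -/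

theorem gS_vl (P : Par s e w) (S : Sg r b k)
    (h2 : y ≤ 2 * h0 + s - 9 / 5) (h3 : h0 + s ≤ y + r) :
    -ph b + ph (y - k + b / 2 - s) + ph (y - h0 - k - b / 2 - s + 9 / 5) - ph (9 / 5 - h0) ≤
      gn (q3 s e) r x y := by
  have := P.s0
  have := P.s1
  have := h0_lt
  have := h0_gt
  have := S.r1
  apply gain_sg (C := h0 + s) (α := -g (1 - h0)) (z0 := 2 * h0 + s - 9 / 5)
    (β := g (9 / 5 - h0) - g (1 - h0)) (q3_ok P) S
    (fun z k1 k2 => q3_le2 P (by rw [q3_lo] at k1; exact k1) (by rw [q3_hi] at k2; exact k2))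
    (q3_bot P).ge (by linear_combination h2 + (‹h0 < 0.8661›)) (by linear_combination h3)
    (by rw [q3_lo]) (by rw [q3_hi]; linear_combination (‹s ≤ 67 / 100›) + 2 * (‹h0 < 0.8661›)) (by linear_combination h2) (by linear_combination h3 + this + (‹h0 < 0.8661›))
    (A := y - k + b / 2 - s) (B := y - h0 - k - b / 2 - s + 9 / 5) (by ring) (by ring)
  unfold Four.Low.ph
  linear_combination

theorem gS_vy (P : Par s e w) (S : Sg r b k) (h1 : 2 * h0 + s - 9 / 5 ≤ y)
    (h2 : y ≤ h0) (h3 : h0 + s ≤ y + r) :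
    -ph b + ph (y - k + b / 2 - s) + ph (h0 - k - b / 2) - ph (h0 + s - y) ≤
      gn (q3 s e) r x y := by
  have := P.s0
  have := P.s1
  have := h0_lt
  have := h0_gt
  have := S.r1
  apply gain_sg (C := h0 + s) (α := -g (1 - h0)) (z0 := y)
    (β := g (h0 + s - y) - g (1 - h0)) (q3_ok P) S
    (fun z k1 k2 => q3_le2 P (by rw [q3_lo] at k1; exact k1) (by rw [q3_hi] at k2; exact k2))
    (q3_y P h1 (by linear_combination h2 + (‹57 / 100 ≤ s›) + (‹0.866 < h0›))).ge (by linear_combination h2 + (‹57 / 100 ≤ s›)) (by linear_combination h3)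
    (by rw [q3_lo]; exact h1) (by rw [q3_hi]; linear_combination h1 + 2 * h2 + (‹57 / 100 ≤ s›)) (by linear_combination) (by linear_combination 2 * this)
    (A := y - k + b / 2 - s) (B := h0 - k - b / 2) (by ring) (by ring)
  unfold Four.Low.ph
  linear_combination

theorem gS_HH (P : Par s e w) (S : Sg r b k) (h2 : y ≤ h0) (h3 : 2 * h0 + s - 1 ≤ y + r) :
    -ph b + ph (y - h0 - k + b / 2 - s + 1) + ph (y - h0 - k - b / 2 - s + 1) ≤
      gn (q3 s e) r x y := by
  have := P.s0
  have := P.s1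
  have := h0_lt
  have := h0_gt
  have := S.r1
  apply gain_sg (C := 2 * h0 + s - 1) (α := -1) (z0 := 2 * h0 + s - 1)
    (β := 0) (q3_ok P) S
    (fun z k1 k2 => q3_le1 P (by rw [q3_lo] at k1; exact k1) (by rw [q3_hi] at k2; exact k2))
    (q3_H P).ge (by linear_combination h2 + (‹57 / 100 ≤ s›) + (‹0.866 < h0›)) (by linear_combination h3)
    (by rw [q3_lo]; linear_combination) (by rw [q3_hi]; linear_combination (‹s ≤ 67 / 100›) + 2 * (‹h0 < 0.8661›)) (by linear_combination h2 + (‹57 / 100 ≤ s›) + (‹0.866 < h0›)) (by linear_combination h3 + this)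
    (A := y - h0 - k + b / 2 - s + 1) (B := y - h0 - k - b / 2 - s + 1) (by ring) (by ring)
  unfold Four.Low.ph
  linear_combination

theorem gS_Hy (P : Par s e w) (S : Sg r b k) (h1 : 2 * h0 + s - 9 / 5 ≤ y)
    (h2 : y ≤ h0) (h3 : 2 * h0 + s - 1 ≤ y + r) :
    -ph b + ph (y - h0 - k + b / 2 - s + 1) + ph (h0 - k - b / 2) - ph (h0 + s - y) +
      ph (1 - h0) ≤ gn (q3 s e) r x y := by
  have := P.s0
  have := P.s1
  have := h0_lt
  have := h0_gt
  have := S.r1
  apply gain_sg (C := 2 * h0 + s - 1) (α := -1) (z0 := y)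
    (β := g (h0 + s - y) - g (1 - h0)) (q3_ok P) S
    (fun z k1 k2 => q3_le1 P (by rw [q3_lo] at k1; exact k1) (by rw [q3_hi] at k2; exact k2))
    (q3_y P h1 (by linear_combination h2 + (‹57 / 100 ≤ s›) + (‹0.866 < h0›))).ge (by linear_combination h2 + (‹57 / 100 ≤ s›) + (‹0.866 < h0›)) (by linear_combination h3)
    (by rw [q3_lo]; exact h1) (by rw [q3_hi]; linear_combination h1 + 2 * h2 + (‹57 / 100 ≤ s›)) (by linear_combination) (by linear_combination 2 * this)
    (A := y - h0 - k + b / 2 - s + 1) (B := h0 - k - b / 2) (by ring) (by ring)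
  unfold Four.Low.ph
  linear_combination

/-- The new disc alone, it touches the body of `q3` at `h0 + s` (new point not above `s`). -/
theorem q3_top (P : Par s e w) (h1 : e ≤ y) (h2 : y ≤ s) (z : ℝ) (k1 : 2 * h0 + s - 9 / 5 ≤ z)
    (k2 : z ≤ 2) :
    (q3 s e).a z + (2 - ph (h0 + s - y) - g (1 - h0)) ≤ gam r x (z - y) ∨
      (q3 s e).a z + (2 - ph (h0 + s - y) - g (1 - h0)) ≤ g (z - y) := by
  have := P.s0
  have := P.s1
  have := P.he
  have := h0_lt
  have := h0_gt
  have hg : g (h0 + s - y) ≤ 1 / 2 := by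
    rw [← g_h0]
    exact g_anti h0_pos.le (by linear_combination h2)
  have h1h : 99 / 100 ≤ g (1 - h0) := by
    have h6 := g_sq (r := 1 - h0) (by linear_combination (481 / 1000) * (‹h0 < 0.8661›) + (1 / 2) * (mul_nonneg (sub_nonneg.mpr k1) (sub_nonneg.mpr (le_of_lt this))) +
      (1 / 2) * (mul_nonneg (sub_nonneg.mpr k2) (sub_nonneg.mpr (le_of_lt this))) + (1 / 2) * (mul_nonneg (sub_nonneg.mpr (le_of_lt this)) (sub_nonneg.mpr ‹57 / 100 ≤ s›)))
    have h7 := g_nonneg (1 - h0)
    exact not_lt.mp (fun hg__ => absurd hg__ (not_lt.mpr (by linear_combination -(100 / 99) * h6 + (89300 / 33) * (mul_pos (sub_pos.mpr this) (sub_pos.mpr this)) + (268000 / 99) * (mul_pos (sub_pos.mpr this) (sub_pos.mpr ‹h0 < 0.8661›)) + (100 / 99) * (mul_nonneg (sub_nonneg.mpr (le_of_lt hg__)) (sub_nonneg.mpr h7)))))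
  rcases le_or_gt z (h0 + s) with h | h
  · right
    have h3 := q3_le1 P k1 k2
    have h4 := arc_sub (a := y) (b := 2 * h0 + s - 1) (x := z) (y := h0 + s) (by linear_combination h2 + 2 * this) h
      (by linear_combination k1) (by linear_combination h1 - (‹e = h0 + s - 1›))
    rw [show h0 + s - (2 * h0 + s - 1) = 1 - h0 by ring] at h4
    unfold Four.Low.ph
    linear_combination h3 + h4
  · left
    have h3 : (q3 s e).a z ≤ 2 * s - 381 / 200 := by
      rw [q3_a]
      rcases le_or_gt (2 * h0 + s - z) e with h5 | h5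
      · exact wing_le P h5
      · rw [bq_gap h5 (by linear_combination h)]
        linear_combination 2 * (‹57 / 100 ≤ s›)
    have h4 := gam_nonneg r x (z - y)
    unfold Four.Low.ph
    linear_combination hg + h1h + h3 + h4 + 2 * (‹s ≤ 67 / 100›)

/-- The gain of `q3` when the new disc touches its body at `h0 + s`, contact `z0`. -/
theorem gS_T (P : Par s e w) (S : Sg r b k) (h1 : e ≤ y) (h2 : y ≤ s) {z0 β B v : ℝ}
    (hβ : β ≤ (q3 s e).a z0) (hlo : 2 * h0 + s - 9 / 5 ≤ z0) (hhi : z0 ≤ 2) (hz1 : y ≤ z0)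
    (hz2 : z0 ≤ y + 2 * r) (hB : y + (h0 - k - b / 2) - z0 = B)
    (hv : v ≤ 2 - ph (h0 + s - y) - g (1 - h0) + ph B - ph (h0 - k - b / 2) + β) :
    v ≤ gn (q3 s e) r x y := by
  have h := le_gn (r := r) (q := x) (y := y) (z0 := z0)
    (v := 2 - ph (h0 + s - y) - g (1 - h0)) (q3_ok P) (by rw [q3_lo]; exact hlo)
    (by rw [q3_hi]; exact hhi)
    (fun z k1 k2 => q3_top P h1 h2 z (by rw [q3_lo] at k1; exact k1)
      (by rw [q3_hi] at k2; exact k2))
  have h5 : gam r x (z0 - y) = g (y + r - z0) - g r := by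
    unfold gam
    rw [if_pos (by linear_combination hz1)]
    unfold vir
    have h6 : g r ≤ g (z0 - y - r) := g_le_of_abs (by linear_combination hz2) (by linear_combination hz1)
    rw [max_eq_right (by linear_combination h6), ← g_neg (z0 - y - r),
      show -(z0 - y - r) = y + r - z0 by ring]
  rw [h5, show y + r - z0 = B by rw [← hB]; linear_combination S.hr, S.hr] at h
  rw [← S.hr] at h
  have e1 : g r = g (h0 - k - b / 2) := by rw [← S.hr]
  rw [e1] at h
  unfold Four.Low.ph at *
  linear_combination hβ + hv + h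

theorem gS_Tv (P : Par s e w) (S : Sg r b k) (h1 : e ≤ y) (h2 : y ≤ s)
    (h3 : h0 + s ≤ y + 2 * r) :
    1 - ph (h0 + s - y) + ph (y - k - b / 2 - s) - ph (h0 - k - b / 2) ≤
      gn (q3 s e) r x y := by
  have := P.s0
  have := P.s1
  have := h0_lt
  have := h0_gt
  apply gS_T P S h1 h2 (z0 := h0 + s) (q3_v P).ge (by linear_combination (‹h0 < 0.8661›)) (by linear_combination (‹s ≤ 67 / 100›) + (‹h0 < 0.8661›)) (by linear_combination h2 + this) h3
    (B := y - k - b / 2 - s) (by ring)
  unfold Four.Low.ph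
  linear_combination

end

end Pool.Agent.Strip051.FourF
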