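import Pool.Agent.Strip051.FourF.Gains
import Pool.Agent.Strip051.FourF.BoxA
import Pool.Agent.Strip051.FourF.BoxB
import Pool.Agent.Strip051.FourF.BoxE
import Pool.Agent.Strip051.FourF.BoxW1
import Pool.Agent.Strip051.FourF.BoxW2
import Pool.Agent.Strip051.FourF.BoxW3

/-! # The new point below `s` -/

namespace Pool.Agent.Strip051.FourF

open Pool.Agent.StripNear Pool.Agent.StripSquare Pool.Agent.Strip051
open Pool.Agent.Strip051.Four (gn gn_nonneg)
open Pool.Agent.Strip051.Four.Low (ph ph_neg ph_nonneg ph_mono ph_zero h0_hi h0_lo)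

/-- The unit arc is concave. -/
theorem ph_convex {u v l : ℝ} (hu : u ^ 2 ≤ 1) (hv : v ^ 2 ≤ 1) (h0 : 0 ≤ l) (h1 : l ≤ 1) :
    ph ((1 - l) * u + l * v) ≤ (1 - l) * ph u + l * ph v := by
  have gu := g_sq hu
  have gv := g_sq hv
  have nu := g_nonneg u
  have nv := g_nonneg v
  have key : (1 - l) * g u + l * g v ≤ g ((1 - l) * u + l * v) := by
    apply Real.le_sqrt_of_sq_le
    have e1 : g u * g v + u * v ≤ 1 := by linear_combination (1 / 2) * (sq_nonneg (g u - g v)) + (1 / 2) * (sq_nonneg (u - v)) +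
      (1 / 2) * gu + (1 / 2) * gv
    have e2 := mul_le_mul_of_nonneg_left e1 (mul_nonneg h0 (sub_nonneg.2 h1))
    have e3 : (1 - l) ^ 2 * g u ^ 2 = (1 - l) ^ 2 * (1 - u ^ 2) := by rw [gu]
    have e4 : l ^ 2 * g v ^ 2 = l ^ 2 * (1 - v ^ 2) := by rw [gv]
    have e5 : 1 - ((1 - l) * u + l * v) ^ 2 - ((1 - l) * g u + l * g v) ^ 2 =
        2 * (l * (1 - l) * 1 - l * (1 - l) * (g u * g v + u * v)) := by
      linear_combination (-1 : ℝ) * e3 - e4
    linear_combination 2 * e2 + e3 + e4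
  unfold Four.Low.ph
  linear_combination key

section

variable {s e w y r u b k : ℝ}

theorem lowA1 (P : Par s e w) (S : Sg r b k) (hs : 3 / 5 ≤ s) (ey : e ≤ y) (ys : y ≤ s)
    (hu : u = s - y) (hu3 : 2 * h0 + u ≤ 9 / 5) : 8 * ph y - 4 * ph s ≤ mid s e r y y := by
  have n1 : 0 ≤ gn (p2 s e) r y y := gn_nonneg (p2_ok P)
  have n2 : 0 ≤ gn (p3 s e) r y y := gn_nonneg (p3_ok P)
  have n3 : 0 ≤ gn (q2 s e) r y y := gn_nonneg (q2_ok P)
  have n4 : 0 ≤ gn (q3 s e) r y y := gn_nonneg (q3_ok P)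
  have s1 := P.s1
  have he := P.he
  have l1 := h0_lo
  have l2 := h0_hi
  have hr := S.hr
  have r1 := S.r1
  have r2 := S.r2
  have hx := S.he
  have x2 := S.e2
  have nh : (0 : ℝ) ≤ 0 := le_rfl
  have y37 : 37 / 100 ≤ y := by linear_combination ey - he + l1 + hs
  have yh : y ≤ h0 := by linear_combination ys + s1 + l1
  have y2h : y ≤ 2 * h0 - 1 := by linear_combination ys + s1 + 2 * l1
  have c1 : 2 * h0 + s - 1 ≤ y + 2 * r := by linear_combination ey - he + l2 + 2 * r1
  have cT : h0 + s ≤ y + 2 * r := by linear_combination ey - he + 2 * r1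
  have r4 : h0 - b / 2 - k ≤ 1 := by linear_combination -hr + r2
  have r5 : h0 + b / 2 - k ≤ 1 := by linear_combination -hx + x2
  have u0 : 0 ≤ u := by linear_combination -hu + ys
  have u9 : u ≤ 1699 / 25000 := by linear_combination hu3 + 2 * l1
  have c3 : 2 * h0 + s - 9 / 5 ≤ y := by linear_combination -hu + hu3
  unfold mid
  have q1 : ph (-u - b / 2 - k) = ph (y - k - b / 2 - s) := by
    congr 1
    linear_combination -hu
  have q2 : ph (b / 2 - u - k) = ph (y - k + b / 2 - s) := by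
    congr 1
    linear_combination -hu
  have q3 : ph (h0 + s - u - b / 2 - k - 1) = ph (y + h0 - k - b / 2 - 1) := by
    congr 1
    linear_combination -hu
  have q4 : ph (h0 + u) = ph (h0 + s - y) := by
    congr 1
    linear_combination hu
  have q5 : ph (h0 + u + b / 2 + k - 1) = ph (y - h0 - k - b / 2 - s + 1) := by
    rw [← ph_neg]
    congr 1
    linear_combination -hu
  have q6 : ph (h0 + u + b / 2 + k - s - 1) = ph (y - h0 - k - b / 2 + 1) := by
    rw [← ph_neg]
    congr 1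
    linear_combination -hu
  have q7 : ph (h0 + u + k - b / 2 - 1) = ph (y - h0 - k + b / 2 - s + 1) := by
    rw [← ph_neg]
    congr 1
    linear_combination -hu
  have q8 : ph (h0 - 1) = ph (1 - h0) := by
    rw [← ph_neg]
    congr 1
    linear_combination
  have q9 : ph (h0 - b / 2 - k) = ph (h0 - k - b / 2) := by
    congr 1
    linear_combination
  have q10 : ph (h0 - s - 1) = ph (s + 1 - h0) := by
    rw [← ph_neg]
    congr 1
    linear_combination
  have q11 : ph (h0 - u - b / 2 - k) = ph (y + h0 - k - b / 2 - s) := by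
    congr 1
    linear_combination -hu
  have q12 : ph (s + b / 2 - u - k) = ph (y - k + b / 2) := by
    congr 1
    linear_combination -hu
  have q13 : ph (s - u) = ph y := by
    congr 1
    linear_combination -hu
  have q14 : ph (s - u - b / 2 - k) = ph (y - k - b / 2) := by
    congr 1
    linear_combination -hu
  rcases ba0 ⟨S.k1, S.k2, l1, l2, S.k3, S.k4, r4, r5, hu3, hs, s1, u0, u9, S.b1, S.b2⟩ hs s1
    u0 u9 S.b1 S.b2 with c | ⟨d1, c⟩ | c | ⟨d1, c⟩ | ⟨d1, c⟩ | ⟨d1, c⟩
  · unfold fa_h1_hH_hh_Tv at c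
    have m1 := gP_h1 (x := y) (y := y) P S y37 yh
    have m2 := gR_hH (x := y) (y := y) P S y37 yh c1
    have m3 := gQ_hh (x := y) (y := y) P S y37 yh
    have m4 := gS_Tv (x := y) (y := y) P S ey ys cT
    linear_combination c + m1 + m2 + m3 + m4 + q1 + q3 - q4 + q5 - 3 * q8 - q9 + 3 * q12 - 8 * q13 + q14
  · unfold fa_h1_hH_hh_HH at c
    have dH : 2 * h0 + s - 1 ≤ y + r := by linear_combination d1 - hr - hu
    have m1 := gP_h1 (x := y) (y := y) P S y37 yh
    have m2 := gR_hH (x := y) (y := y) P S y37 yh c1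
    have m3 := gQ_hh (x := y) (y := y) P S y37 yh
    have m4 := gS_HH (x := y) (y := y) P S yh dH
    linear_combination c + m1 + m2 + m3 + m4 + q3 + 2 * q5 + q7 - 3 * q8 + 3 * q12 - 8 * q13 + q14
  · unfold fa_h1_hH_hh_o at c
    have m1 := gP_h1 (x := y) (y := y) P S y37 yh
    have m2 := gR_hH (x := y) (y := y) P S y37 yh c1
    have m3 := gQ_hh (x := y) (y := y) P S y37 yh
    linear_combination c + m1 + m2 + m3 + n4 + q3 + q5 - 3 * q8 + 3 * q12 - 8 * q13 + q14
  · unfold fa_hs_v2_hh_vy at c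
    have dv : h0 + s ≤ y + r := by linear_combination d1 - hr - hu
    have m1 := gP_hs (x := y) (y := y) P S y37 ys
    have m2 := gR_v2 (x := y) (y := y) P S y2h dv
    have m3 := gQ_hh (x := y) (y := y) P S y37 yh
    have m4 := gS_vy (x := y) (y := y) P S c3 yh dv
    linear_combination c + m1 + m2 + m3 + m4 + 2 * q2 - q4 + q6 - 3 * q8 + q9 - q10 + q11 + 2 * q12 - 8 * q13 + q14
  · unfold fa_hs_h2_hh_Hy at c
    have dH : 2 * h0 + s - 1 ≤ y + r := by linear_combination d1 - hr - hu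
    have m1 := gP_hs (x := y) (y := y) P S y37 ys
    have m2 := gR_h2 (x := y) (y := y) P S y37 y2h
    have m3 := gQ_hh (x := y) (y := y) P S y37 yh
    have m4 := gS_Hy (x := y) (y := y) P S c3 yh dH
    linear_combination c + m1 + m2 + m3 + m4 - q4 + q6 + q7 - q8 + q9 - q10 + q11 + 3 * q12 - 8 * q13 + q14
  · unfold fa_h1_hH_hh_Hy at c
    have dH : 2 * h0 + s - 1 ≤ y + r := by linear_combination d1 - hr - hu
    have m1 := gP_h1 (x := y) (y := y) P S y37 yh
    have m2 := gR_hH (x := y) (y := y) P S y37 yh c1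
    have m3 := gQ_hh (x := y) (y := y) P S y37 yh
    have m4 := gS_Hy (x := y) (y := y) P S c3 yh dH
    linear_combination c + m1 + m2 + m3 + m4 + q3 - q4 + q5 + q7 - 2 * q8 + q9 + 3 * q12 - 8 * q13 + q14

theorem lowA2 (P : Par s e w) (S : Sg r b k) (hs : 3 / 5 ≤ s) (ey : e ≤ y) (ys : y ≤ s)
    (hu : u = s - y) (hu3 : 9 / 5 ≤ 2 * h0 + u) : 8 * ph y - 4 * ph s ≤ mid s e r y y := by
  have n1 : 0 ≤ gn (p2 s e) r y y := gn_nonneg (p2_ok P)
  have n2 : 0 ≤ gn (p3 s e) r y y := gn_nonneg (p3_ok P)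
  have n3 : 0 ≤ gn (q2 s e) r y y := gn_nonneg (q2_ok P)
  have n4 : 0 ≤ gn (q3 s e) r y y := gn_nonneg (q3_ok P)
  have s1 := P.s1
  have he := P.he
  have l1 := h0_lo
  have l2 := h0_hi
  have hr := S.hr
  have r1 := S.r1
  have r2 := S.r2
  have hx := S.he
  have x2 := S.e2
  have nh : (0 : ℝ) ≤ 0 := le_rfl
  have y37 : 37 / 100 ≤ y := by linear_combination ey - he + l1 + hs
  have yh : y ≤ h0 := by linear_combination ys + s1 + l1
  have y2h : y ≤ 2 * h0 - 1 := by linear_combination ys + s1 + 2 * l1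
  have c1 : 2 * h0 + s - 1 ≤ y + 2 * r := by linear_combination ey - he + l2 + 2 * r1
  have cT : h0 + s ≤ y + 2 * r := by linear_combination ey - he + 2 * r1
  have r4 : h0 - b / 2 - k ≤ 1 := by linear_combination -hr + r2
  have r5 : h0 + b / 2 - k ≤ 1 := by linear_combination -hx + x2
  have u0 : 3397 / 50000 ≤ u := by linear_combination hu3 + 2 * l2
  have u9 : u ≤ 67 / 500 := by linear_combination hu + ey - he + l1
  have c3 : y ≤ 2 * h0 + s - 9 / 5 := by linear_combination hu + hu3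
  have u4 : h0 + u ≤ 1 := by linear_combination hu + ey - he
  unfold mid
  have q1 : ph (-u - b / 2 - k) = ph (y - k - b / 2 - s) := by
    congr 1
    linear_combination -hu
  have q2 : ph (b / 2 - u - k) = ph (y - k + b / 2 - s) := by
    congr 1
    linear_combination -hu
  have q3 : ph (h0 + b / 2 - k) = ph (h0 - k + b / 2) := by
    congr 1
    linear_combination
  have q4 : ph (h0 + s - u - b / 2 - k - 1) = ph (y + h0 - k - b / 2 - 1) := by
    congr 1
    linear_combination -hu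
  have q5 : ph (h0 + u) = ph (h0 + s - y) := by
    congr 1
    linear_combination hu
  have q6 : ph (h0 + u + b / 2 + k - 1) = ph (y - h0 - k - b / 2 - s + 1) := by
    rw [← ph_neg]
    congr 1
    linear_combination -hu
  have q7 : ph (h0 + u + b / 2 + k - 9 / 5) = ph (y - h0 - k - b / 2 - s + 9 / 5) := by
    rw [← ph_neg]
    congr 1
    linear_combination -hu
  have q8 : ph (h0 + u + b / 2 + k - s - 1) = ph (y - h0 - k - b / 2 + 1) := by
    rw [← ph_neg]
    congr 1
    linear_combination -hu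
  have q9 : ph (h0 + u + k - b / 2 - 1) = ph (y - h0 - k + b / 2 - s + 1) := by
    rw [← ph_neg]
    congr 1
    linear_combination -hu
  have q10 : ph (h0 - 1) = ph (1 - h0) := by
    rw [← ph_neg]
    congr 1
    linear_combination
  have q11 : ph (h0 - 9 / 5) = ph (9 / 5 - h0) := by
    rw [← ph_neg]
    congr 1
    linear_combination
  have q12 : ph (h0 - b / 2 - k) = ph (h0 - k - b / 2) := by
    congr 1
    linear_combination
  have q13 : ph (h0 - s - 1) = ph (s + 1 - h0) := by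
    rw [← ph_neg]
    congr 1
    linear_combination
  have q14 : ph (h0 - u - b / 2 - k) = ph (y + h0 - k - b / 2 - s) := by
    congr 1
    linear_combination -hu
  have q15 : ph (s + b / 2 - u - k) = ph (y - k + b / 2) := by
    congr 1
    linear_combination -hu
  have q16 : ph (s - u) = ph y := by
    congr 1
    linear_combination -hu
  have q17 : ph (s - u - b / 2 - k) = ph (y - k - b / 2) := by
    congr 1
    linear_combination -hu
  rcases bb0 ⟨S.k1, S.k2, l1, l2, S.k3, S.k4, r4, r5, hu3, u4, hs, s1, u0, u9, S.b1, S.b2⟩ hs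
    s1 u0 u9 S.b1 S.b2 with c | ⟨d1, c⟩ | c | c | ⟨d1, c⟩ | ⟨d1, c⟩ | c | c
  · unfold fb_h1_hH_hh_Tv at c
    have m1 := gP_h1 (x := y) (y := y) P S y37 yh
    have m2 := gR_hH (x := y) (y := y) P S y37 yh c1
    have m3 := gQ_hh (x := y) (y := y) P S y37 yh
    have m4 := gS_Tv (x := y) (y := y) P S ey ys cT
    linear_combination c + m1 + m2 + m3 + m4 + q1 + q4 - q5 + q6 - 3 * q10 - q12 + 3 * q15 - 8 * q16 + q17
  · unfold fb_h1_hH_hh_HH at c
    have dH : 2 * h0 + s - 1 ≤ y + r := by linear_combination d1 - hr - hu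
    have m1 := gP_h1 (x := y) (y := y) P S y37 yh
    have m2 := gR_hH (x := y) (y := y) P S y37 yh c1
    have m3 := gQ_hh (x := y) (y := y) P S y37 yh
    have m4 := gS_HH (x := y) (y := y) P S yh dH
    linear_combination c + m1 + m2 + m3 + m4 + q4 + 2 * q6 + q9 - 3 * q10 + 3 * q15 - 8 * q16 + q17
  · unfold fb_h1_hH_hh_o at c
    have m1 := gP_h1 (x := y) (y := y) P S y37 yh
    have m2 := gR_hH (x := y) (y := y) P S y37 yh c1
    have m3 := gQ_hh (x := y) (y := y) P S y37 yh
    linear_combination c + m1 + m2 + m3 + n4 + q4 + q6 - 3 * q10 + 3 * q15 - 8 * q16 + q17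
  · unfold fb_h1_o_hh_o at c
    have m1 := gP_h1 (x := y) (y := y) P S y37 yh
    have m2 := gQ_hh (x := y) (y := y) P S y37 yh
    linear_combination c + m1 + n2 + m2 + n4 + q4 - 3 * q10 + 2 * q15 - 8 * q16 + q17
  · unfold fb_hs_v2_hh_vl at c
    have dv : h0 + s ≤ y + r := by linear_combination d1 - hr - hu
    have m1 := gP_hs (x := y) (y := y) P S y37 ys
    have m2 := gR_v2 (x := y) (y := y) P S y2h dv
    have m3 := gQ_hh (x := y) (y := y) P S y37 yh
    have m4 := gS_vl (x := y) (y := y) P S c3 dv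
    linear_combination c + m1 + m2 + m3 + m4 + 2 * q2 + q7 + q8 - 3 * q10 - q11 - q13 + q14 + 2 * q15 - 8 * q16 + q17
  · unfold fb_hs_v2_he_vl at c
    have dv : h0 + s ≤ y + r := by linear_combination d1 - hr - hu
    have m1 := gP_hs (x := y) (y := y) P S y37 ys
    have m2 := gR_v2 (x := y) (y := y) P S y2h dv
    have m3 := gQ_he (y := y) P S ey yh
    have m4 := gS_vl (x := y) (y := y) P S c3 dv
    linear_combination c + m1 + m2 + m3 + m4 + 2 * q2 - q3 + q7 + q8 - 2 * q10 - q11 - q13 + q14 + 2 * q15 - 9 * q16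
  · unfold fb_h1_o_he_o at c
    have m1 := gP_h1 (x := y) (y := y) P S y37 yh
    have m2 := gQ_he (y := y) P S ey yh
    linear_combination c + m1 + n2 + m2 + n4 - q3 + q4 - 2 * q10 + 2 * q15 - 9 * q16
  · unfold fb_hs_o_he_o at c
    have m1 := gP_hs (x := y) (y := y) P S y37 ys
    have m2 := gQ_he (y := y) P S ey yh
    linear_combination c + m1 + n2 + m2 + n4 - q3 - 2 * q10 + q14 + 2 * q15 - 9 * q16

theorem lowA (P : Par s e w) (hs : 3 / 5 ≤ s) : LowA s e := by
  intro y r hy1 hy2 r1 r2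
  obtain ⟨b, k, S⟩ := sg_exists r1 r2
  have tgt : 4 * (1 + g s - 2 * g y) = 8 * ph y - 4 * ph s := by
    unfold Four.Low.ph
    ring
  rw [tgt]
  rcases le_total (2 * h0 + (s - y)) (9 / 5) with h | h
  · exact lowA1 P S hs hy1 hy2 rfl h
  · exact lowA2 P S hs hy1 hy2 rfl h

/-- The weight of the wall probe. -/
theorem w_le (P : Par s e w) (hs : 3 / 5 ≤ s) : w ≤ 1736 / 1000 := by
  have hl := h0_lo
  have hh := h0_hi
  have s1 := P.s1
  have he := P.he
  have he0 := P.ge_lt
  have D := bw1x0 (s := s) ⟨hl, hh, hs, s1⟩ hs s1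
  have hw := P.hw
  unfold W1 Four.Low.ph at D
  rw [← he] at D
  by_contra hcon
  push Not at hcon
  exact absurd D (not_le.mpr (by linear_combination hw + (1 / 10) * hcon + (mul_nonneg (sub_nonneg.mpr he0) (sub_nonneg.mpr (le_of_lt hcon)))))

theorem w_ge (P : Par s e w) (hs : 3 / 5 ≤ s) : 1653 / 1000 ≤ w := by
  have hl := h0_lo
  have hh := h0_hi
  have s1 := P.s1
  have he := P.he
  have he0 := P.ge_lt
  have D := bw2x0 (s := s) ⟨hl, hh, hs, s1⟩ hs s1
  have hw := P.hw
  unfold W2 Four.Low.ph at D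
  rw [← he] at D
  by_contra hcon
  push Not at hcon
  exact absurd D (not_le.mpr (by linear_combination -hw + (1 / 10) * hcon + (mul_nonneg (sub_nonneg.mpr he0) (sub_nonneg.mpr (le_of_lt hcon)))))

/-- The new point between `403 / 1000` and `e`. -/
theorem lowE1 (P : Par s e w) (S : Sg r b k) (hs : 3 / 5 ≤ s) (y0 : 403 / 1000 ≤ y)
    (ye : y ≤ e) (J : 0 ≤ ph (e - y) + ph e - ph y) :
    8 * ph y - 4 * ph s + 2 * w * (ph (e - y) + ph e - ph y) ≤ mid s e r y y := by
  have n1 : 0 ≤ gn (p2 s e) r y y := gn_nonneg (p2_ok P)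
  have n2 : 0 ≤ gn (p3 s e) r y y := gn_nonneg (p3_ok P)
  have n3 : 0 ≤ gn (q2 s e) r y y := gn_nonneg (q2_ok P)
  have n4 : 0 ≤ gn (q3 s e) r y y := gn_nonneg (q3_ok P)
  have s1 := P.s1
  have he := P.he
  have l1 := h0_lo
  have l2 := h0_hi
  have hr := S.hr
  have r1 := S.r1
  have r2 := S.r2
  have hx := S.he
  have x2 := S.e2
  have nh := mul_le_mul_of_nonneg_right (w_le P hs) J
  have qa : ph (h0 + s - 1) = ph e := by rw [he]
  have qb : ph (h0 + s - y - 1) = ph (e - y) := by
    congr 1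
    linear_combination -he
  have y37 : 37 / 100 ≤ y := by linear_combination y0
  have yh : y ≤ h0 := by linear_combination ye + he + s1
  have y5 : y ≤ 537 / 1000 := by linear_combination ye + he + s1 + l2
  have ye' : y ≤ h0 + s - 1 := by linear_combination ye + he
  have c1 : 2 * h0 + s - 1 ≤ y + 2 * r := by linear_combination y0 + s1 + 2 * l2 + 2 * r1
  have c2 : 2 * h0 + s - 2 ≤ y := by linear_combination y0 + s1 + 2 * l2
  have r4 : h0 - b / 2 - k ≤ 1 := by linear_combination -hr + r2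
  have r5 : h0 + b / 2 - k ≤ 1 := by linear_combination -hx + x2
  unfold mid
  have q1 : ph (2 * h0 + s - y - 1) = ph (2 * h0 + s - 1 - y) := by
    congr 1
    ring
  have q2 : ph (h0 + s + b / 2 + k - y - 1) = ph (y - h0 - k - b / 2 - s + 1) := by
    rw [← ph_neg]
    congr 1
    ring
  have q3 : ph (h0 + y + b / 2 - k - 1) = ph (y + h0 - k + b / 2 - 1) := by
    congr 1
    ring
  have q4 : ph (h0 + y - b / 2 - k - 1) = ph (y + h0 - k - b / 2 - 1) := by
    congr 1
    ring
  have q5 : ph (h0 - 1) = ph (1 - h0) := by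
    rw [← ph_neg]
    congr 1
    ring
  have q6 : ph (h0 - b / 2 - k) = ph (h0 - k - b / 2) := by
    congr 1
    ring
  have q7 : ph (y + b / 2 - k) = ph (y - k + b / 2) := by
    congr 1
    ring
  have q8 : ph (y - b / 2 - k) = ph (y - k - b / 2) := by
    congr 1
    ring
  rcases be0 ⟨S.k1, S.k2, l1, l2, S.k3, S.k4, r4, r5, ye', hs, s1, y0, y5, S.b1, S.b2⟩ hs s1
    y0 y5 S.b1 S.b2 with c | c | c | ⟨d1, c⟩ | ⟨d1, c⟩
  · unfold fe_h1_o_hh_o at c
    have m1 := gP_h1 (x := y) (y := y) P S y37 yh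
    have m2 := gQ_hh (x := y) (y := y) P S y37 yh
    linear_combination c + m1 + n2 + m2 + n4 + q4 - 3 * q5 + 2 * q7 + q8 + 2 * nh - (434 / 125) * qa - (434 / 125) * qb
  · unfold fe_h1_o_hy_o at c
    have m1 := gP_h1 (x := y) (y := y) P S y37 yh
    have m2 := gQ_hy (x := y) (y := y) P S c2 y37 ye
    linear_combination c + m1 + n2 + m2 + n4 - q1 + q4 - 2 * q5 + q6 + 2 * q7 + 2 * nh - (434 / 125) * qa - (434 / 125) * qb
  · unfold fe_h1_hH_hh_o at c
    have m1 := gP_h1 (x := y) (y := y) P S y37 yh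
    have m2 := gR_hH (x := y) (y := y) P S y37 yh c1
    have m3 := gQ_hh (x := y) (y := y) P S y37 yh
    linear_combination c + m1 + m2 + m3 + n4 + q2 + q4 - 3 * q5 + 3 * q7 + q8 + 2 * nh - (434 / 125) * qa - (434 / 125) * qb
  · unfold fe_o_o_1y_o at c
    have dn : 1 ≤ y + r := by linear_combination d1 - hr
    have m1 := gQ_1y (x := y) (y := y) P S c2 ye dn
    linear_combination c + n1 + n2 + m1 + n4 - q1 + q3 + q6 + 2 * nh - (434 / 125) * qa - (434 / 125) * qb
  · unfold fe_o_o_1h_o at c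
    have dn : 1 ≤ y + r := by linear_combination d1 - hr
    have m1 := gQ_1h (x := y) (y := y) P S yh dn
    linear_combination c + n1 + n2 + m1 + n4 + q3 - q5 + q8 + 2 * nh - (434 / 125) * qa - (434 / 125) * qb

theorem lowE (P : Par s e w) (hs : 3 / 5 ≤ s) : LowE s e w := by
  intro y r hy1 hy2 r1 r2
  have s1 := P.s1
  have he := P.he
  have he0 := P.e_gt
  have he1 := P.e_lt
  have l1 := h0_lo
  have l2 := h0_hi
  have hw1 := w_le P hs
  have hw0 := w_ge P hs
  have hw : w * ph e = ph s := by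
    have := P.hw
    unfold Four.Low.ph
    linear_combination this
  have J : 0 ≤ ph (e - y) + ph e - ph y := by
    have := ph_mono hy1 hy2
    have := ph_nonneg (e - y)
    linear_combination this + (‹ph y ≤ ph e›)
  -- the claim in terms of `ph`
  suffices hm : 8 * ph y - 4 * ph s + 2 * w * (ph (e - y) + ph e - ph y) ≤ mid s e r y y by
    unfold Four.Low.ph at hm hw
    linear_combination -2 * hw + hm
  rcases le_total y (403 / 1000) with hy | hy
  · have nm : 0 ≤ mid s e r y y := by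
      have n1 : 0 ≤ gn (p2 s e) r y y := gn_nonneg (p2_ok P)
      have n2 : 0 ≤ gn (p3 s e) r y y := gn_nonneg (p3_ok P)
      have n3 : 0 ≤ gn (q2 s e) r y y := gn_nonneg (q2_ok P)
      have n4 : 0 ≤ gn (q3 s e) r y y := gn_nonneg (q3_ok P)
      unfold mid
      linear_combination n1 + n2 + n3 + n4
    have D := bw3x0 (s := s) ⟨l1, l2, hs, s1⟩ hs s1
    unfold W3 at D
    rw [← he] at D
    obtain ⟨l, hly⟩ : ∃ l, l = y / (403 / 1000) := ⟨_, rfl⟩
    have l0 : 0 ≤ l := by rw [hly]; positivity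
    have l1' : l ≤ 1 := by rw [hly, div_le_one (by norm_num)]; exact hy
    have hy' : y = l * (403 / 1000) := by rw [hly]; field_simp
    have A1 := ph_convex (u := 0) (v := 403 / 1000) (l := l) (by norm_num) (by norm_num) l0 l1'
    have A2 := ph_convex (u := e) (v := e - 403 / 1000) (l := l) (by linear_combination (5361 / 10000) * s1 + (5361 / 10000) * he + (5361 / 10000) * l2 +
      (mul_nonneg (sub_nonneg.mpr hy1) (sub_nonneg.mpr (le_of_lt he1))) + (mul_nonneg (sub_nonneg.mpr hy2) (sub_nonneg.mpr (le_of_lt he1)))) (by linear_combination (2699 / 10000) * he0 + (mul_nonneg (sub_nonneg.mpr hy1) (sub_nonneg.mpr (le_of_lt he1))) +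
      (mul_nonneg (sub_nonneg.mpr hy2) (sub_nonneg.mpr (le_of_lt he1))))
      l0 l1'
    rw [show (1 - l) * 0 + l * (403 / 1000) = y by rw [hy']; ring, Four.Low.ph_zero] at A1
    rw [show (1 - l) * e + l * (e - 403 / 1000) = e - y by rw [hy']; ring] at A2
    have J2 : 0 ≤ ph (e - 403 / 1000) + ph e - ph (403 / 1000) := by
      have := ph_mono (a := 403 / 1000) (b := e) (by norm_num) (by linear_combination he0)
      have := ph_nonneg (e - 403 / 1000)
      linear_combination this + (‹ph (403 / 1000) ≤ ph e›)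
    have B1 := mul_le_mul_of_nonneg_right hw1 J2
    have B2 : 4 * ph (403 / 1000) - 2 * ph s +
        w * (ph (e - 403 / 1000) + ph e - ph (403 / 1000)) ≤ 0 := by
      linear_combination D + B1
    have B3 := mul_le_mul_of_nonneg_left B2 l0
    have C1 : (4 - w) * ph y ≤ (4 - w) * ((1 - l) * 0 + l * ph (403 / 1000)) :=
      mul_le_mul_of_nonneg_left A1 (by linear_combination hw1)
    have C2 : w * ph (e - y) ≤ w * ((1 - l) * ph e + l * ph (e - 403 / 1000)) :=
      mul_le_mul_of_nonneg_left A2 (by linear_combination hw0)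
    have C3 : l * (w * ph e) = l * ph s := by rw [hw]
    linear_combination 4 * hw + nm + 2 * B3 + 2 * C1 + 2 * C2 - 4 * C3
  · obtain ⟨b, k, S⟩ := sg_exists r1 r2
    exact lowE1 P S hs hy hy2 J

end

end Pool.Agent.Strip051.FourF
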