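import Pool.Agent.Strip051.FourD.Gains
import Pool.Agent.Strip051.FourB.Corner

/-! # The corners of the zone `s ≤ y ≤ h0` -/

namespace Pool.Agent.Strip051.FourF.MB

open Pool.Agent.StripNear Pool.Agent.StripSquare Pool.Agent.Strip051
open Pool.Agent.Strip051.FourD (Pq pq_exists)
open Pool.Agent.Strip051.Four.Low (ph ph_nonneg ph_hi2 ph_hi2' ph_mono)
open Pool.Agent.Strip051.FourB (tan_at)

section

variable {s y u r p q b k : ℝ}

/-- The angle in terms of `b` and `k`. -/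
structure Ak (r p q b k : ℝ) : Prop where
  h : Pq r p q b
  hk : k = h0 * ph b
  k1 : 86602 / 100000 * ph b ≤ k
  k2 : k ≤ 86603 / 100000 * ph b
  k3 : 0 ≤ k
  k4 : k ≤ 1161 / 10000
  h3 : 86602 / 100000 * b ≤ h0 * b
  hq : h0 + b / 2 - k ≤ 1

theorem ak_exists {r : ℝ} (h1 : 1 / 2 ≤ r) (h2 : r ≤ 1) : ∃ p q b k, Ak r p q b k := by
  obtain ⟨p, q, b, h⟩ := pq_exists h1 h2
  have f0 := ph_nonneg b
  have hb0 := h.b0
  have hb1 := h.b1
  have hh : h0 ≤ 86603 / 100000 := Four.Low.h0_hi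
  have hl : 86602 / 100000 ≤ h0 := Four.Low.h0_lo
  have c1 := FourB.up (t1 := 0) (t2 := 268 / 1000) (x := b) (by norm_num)
    (by linear_combination hb0) (by linear_combination (66989 / 62500) * hb1)
  have k1 : 86602 / 100000 * ph b ≤ h0 * ph b := mul_le_mul_of_nonneg_right hl f0
  have k2 : h0 * ph b ≤ 86603 / 100000 * ph b := mul_le_mul_of_nonneg_right hh f0
  refine ⟨p, q, b, h0 * ph b, h, rfl, k1, k2, by linear_combination (43301 / 50000) * f0 + k1, by linear_combination (5802401 / 25000000) * hb1 + (86603 / 100000) * c1 + k2,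
    mul_le_mul_of_nonneg_right hl hb0, ?_⟩
  have := h.q1
  have := h.hq
  unfold Four.Low.ph
  linear_combination -this + (‹q ≤ 1›)

theorem Ak.q_eq (A : Ak r p q b k) : q = h0 + b / 2 - k := by
  have := A.h.hq
  have := A.hk
  unfold Four.Low.ph at this
  linear_combination this + (‹q = h0 * g b + b / 2›)

theorem Ak.p_eq (A : Ak r p q b k) : p = h0 - b / 2 - k := by
  have := A.h.hp
  have := A.hk
  unfold Four.Low.ph at this
  linear_combination this + (‹p = h0 * g b - b / 2›)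

theorem Ak.gq (A : Ak r p q b k) : g q = g b / 2 - h0 * b := by
  have h1 := A.h.hq
  have hb0 := A.h.b0
  have hb1 := A.h.b1
  have hq := h0_sq
  have hp0 := h0_pos
  have gb := g_sq (r := b) (by linear_combination (1 / 2) * hb1 + (mul_nonneg (sub_nonneg.mpr hb0) (sub_nonneg.mpr hb1)))
  have gb2 : h0 ≤ g b := by
    have : h0 ^ 2 ≤ g b ^ 2 := by linear_combination (1 / 2) * hb1 + hq - gb + (mul_nonneg (sub_nonneg.mpr hb0) (sub_nonneg.mpr hb1))
    exact abs_le_of_sq_le_sq' this (g_nonneg b) |>.2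
  have k1 : 0 ≤ g b / 2 - h0 * b := by linear_combination (1 / 2) * gb2 + (mul_nonneg (sub_nonneg.mpr hb1) (sub_nonneg.mpr (le_of_lt hp0)))
  have k2 : 1 - q ^ 2 = (g b / 2 - h0 * b) ^ 2 := by
    rw [h1]
    have : b ^ 2 = 1 - g b ^ 2 := by linear_combination gb
    ring_nf
    rw [this, hq]
    ring
  rw [show g q = √(1 - q ^ 2) from rfl, k2, Real.sqrt_sq k1]

theorem Ak.gp (A : Ak r p q b k) : g p = g b / 2 + h0 * b := by
  have := A.gq
  have := A.h.gpq
  linear_combination this - (‹g q = g b / 2 - h0 * b›)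

/-- A chord of the unit arc is at most as steep as its upper end. -/
theorem ph_step {x u X G B : ℝ} (hx : 0 ≤ x) (hu : 0 ≤ u) (h1 : x + u ≤ X) (hG : 0 < G)
    (hB : 0 ≤ B) (h2 : G ^ 2 ≤ 1 - X ^ 2) (h3 : X ≤ B * G) : ph (x + u) - ph x ≤ B * u := by
  have m1 := ph_mono hx (by linear_combination hu : x ≤ x + u)
  have g1 : G ≤ g (x + u) := by
    apply Real.le_sqrt_of_sq_le
    linear_combination h2 + 2 * (mul_nonneg (sub_nonneg.mpr hx) (sub_nonneg.mpr h1)) + 2 * (mul_nonneg (sub_nonneg.mpr hu) (sub_nonneg.mpr h1)) +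
      (mul_nonneg (sub_nonneg.mpr h1) (sub_nonneg.mpr h1))
  have g2 : G ≤ g x := g1.trans (g_anti hx (by linear_combination hu))
  have m2 := FourB.ph_sub (x := x) (y := x + u) (by linear_combination (sq_nonneg (G)) + h2 + 2 * (mul_nonneg (sub_nonneg.mpr hx) (sub_nonneg.mpr hu)) +
    2 * (mul_nonneg (sub_nonneg.mpr hx) (sub_nonneg.mpr h1)) + (mul_nonneg (sub_nonneg.mpr hu) (sub_nonneg.mpr hu)) +
    2 * (mul_nonneg (sub_nonneg.mpr hu) (sub_nonneg.mpr h1)) + (mul_nonneg (sub_nonneg.mpr h1) (sub_nonneg.mpr h1))) (by linear_combination (sq_nonneg (G)) + h2 + 2 * (mul_nonneg (sub_nonneg.mpr hx) (sub_nonneg.mpr h1)) +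
    2 * (mul_nonneg (sub_nonneg.mpr hu) (sub_nonneg.mpr h1)) + (mul_nonneg (sub_nonneg.mpr h1) (sub_nonneg.mpr h1)))
  have m3 : 2 * G * (ph (x + u) - ph x) ≤ (g (x + u) + g x) * (ph (x + u) - ph x) :=
    mul_le_mul_of_nonneg_right (by linear_combination g1 + g2) (by linear_combination m1)
  have m4 : (x + u - x) * (x + u + x) ≤ u * (2 * (B * G)) := by
    rw [add_sub_cancel_left]
    exact mul_le_mul_of_nonneg_left (by linear_combination hu + 2 * h1 + 2 * h3) hu
  by_contra hcon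
  push Not at hcon
  have m5 : 2 * G * (B * u) < 2 * G * (ph (x + u) - ph x) :=
    mul_lt_mul_of_pos_left hcon (by linear_combination 2 * hG)
  exact absurd m3 (not_le.mpr (by linear_combination m2 + m4 + m5))

/-- The tangent at a point, with numeric bounds for the slope. -/
theorem tan_box {x X0 X1 A B G0 G1 : ℝ} (hx0 : 0 ≤ X0) (h0' : X0 ≤ x) (h1 : x ≤ X1)
    (hG0 : 0 < G0) (hG1 : 0 < G1) (hA : 0 ≤ A) (hB : 0 ≤ B) (h2 : 1 - X0 ^ 2 ≤ G0 ^ 2)
    (h3 : G1 ^ 2 ≤ 1 - X1 ^ 2) (h4 : A * G0 ≤ X0) (h5 : X1 ≤ B * G1) :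
    ∃ K, A ≤ K ∧ K ≤ B ∧ ∀ z, z ^ 2 ≤ 1 → ph x + K * (z - x) ≤ ph z := by
  have g1 : G1 ≤ g x := by
    apply Real.le_sqrt_of_sq_le
    linear_combination h3 + 2 * (mul_nonneg (sub_nonneg.mpr hx0) (sub_nonneg.mpr h1)) +
      2 * (mul_nonneg (sub_nonneg.mpr h0') (sub_nonneg.mpr h1)) + (mul_nonneg (sub_nonneg.mpr h1) (sub_nonneg.mpr h1))
  have g0 : g x ≤ G0 := by
    apply Real.sqrt_le_iff.2
    constructor
    · exact hG0.le
    · linear_combination h2 + 2 * (mul_nonneg (sub_nonneg.mpr hx0) (sub_nonneg.mpr h0')) +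
      (mul_nonneg (sub_nonneg.mpr h0') (sub_nonneg.mpr h0'))
  have gp : 0 < g x := by linear_combination hG1 + g1
  have hx1 : x ^ 2 < 1 := by linear_combination h3 + 2 * (mul_nonneg (sub_nonneg.mpr hx0) (sub_nonneg.mpr h1)) +
    2 * (mul_nonneg (sub_nonneg.mpr h0') (sub_nonneg.mpr h1)) + (mul_nonneg (sub_nonneg.mpr h1) (sub_nonneg.mpr h1)) +
    (mul_pos (sub_pos.mpr hG1) (sub_pos.mpr hG1))
  refine ⟨x / g x, ?_, ?_, ?_⟩
  · rw [le_div_iff₀ gp]
    linear_combination h0' + h4 + (mul_nonneg (sub_nonneg.mpr hA) (sub_nonneg.mpr g0))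
  · rw [div_le_iff₀ gp]
    linear_combination h1 + h5 + (mul_nonneg (sub_nonneg.mpr hB) (sub_nonneg.mpr g1))
  · intro z hz
    exact tan_at hx1 hz (div_mul_cancel₀ _ gp.ne')

/-- The arc near `h0`. -/
theorem g_top {t : ℝ} (h1 : 0 ≤ t) (h2 : t ≤ 1 / 100) : 1 / 2 + 169 / 100 * t ≤ g (h0 - t) := by
  have hs := h0_sq
  have hh := h0_lt
  have hg := h0_gt
  unfold g
  apply Real.le_sqrt_of_sq_le
  nlinarith

/-- The arc very near `h0`. -/
theorem g_top' {t : ℝ} (h1 : 0 ≤ t) (h2 : t ≤ 1 / 500) :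
    1 / 2 + 17235 / 10000 * t ≤ g (h0 - t) := by
  have hs := h0_sq
  have hl : 86602 / 100000 ≤ h0 := Four.Low.h0_lo
  unfold g
  apply Real.le_sqrt_of_sq_le
  linear_combination (1198191 / 2000000000) * h1 + hs + (15881809 / 4000000) * (mul_nonneg (sub_nonneg.mpr h1) (sub_nonneg.mpr h2)) +
    2 * (mul_nonneg (sub_nonneg.mpr h1) (sub_nonneg.mpr hl))

/-- The corner at `y = s`, `b = 0`, the exit is the lower virtual side. -/
theorem mc1 (hs1 : 57 / 100 ≤ s) (hs2 : s ≤ 67 / 100) (h1 : s ≤ y) (b0 : 0 ≤ b)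
    (hc : (y - s) + b ≤ 1 / 100) (k0 : 0 ≤ k) (k2 : k ≤ 86603 / 100000 * ph b) :
    0 ≤ 1 + 2 * (h0 * b) - 3 * ph b + 3 * ph (y - b / 2 - k) + ph (y + b / 2 - k) + 4 * ph s -
      8 * ph y + (ph (y + b / 2 - k - h0 + 1) - ph (1 + s - h0)) +
      (ph (y - b / 2 - k - h0 - s + 1) - ph (1 - h0)) - 2 * ph (h0 + s - y) := by
  have hh : h0 ≤ 86603 / 100000 := Four.Low.h0_hi
  have hl : 86602 / 100000 ≤ h0 := Four.Low.h0_lo
  have f0 := ph_nonneg b
  have fb : ph b ≤ 5061 / 10000 * b ^ 2 := ph_hi2' (by linear_combination (1 / 100) * h1 + (1 / 100) * hc + (mul_nonneg (sub_nonneg.mpr h1) (sub_nonneg.mpr b0)) +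
    (mul_nonneg (sub_nonneg.mpr b0) (sub_nonneg.mpr hc)))
  have bb : b ^ 2 ≤ 1 / 100 * b := by linear_combination (mul_nonneg (sub_nonneg.mpr h1) (sub_nonneg.mpr b0)) + (mul_nonneg (sub_nonneg.mpr b0) (sub_nonneg.mpr hc))
  obtain ⟨t, ht⟩ : ∃ t, t = y - s := ⟨_, rfl⟩
  have t0 : 0 ≤ t := by linear_combination h1 - ht
  obtain ⟨K, a1, a2, a3⟩ := tan_box (x := y) (X0 := 57 / 100) (X1 := 68 / 100) (A := 69 / 100)
    (B := 93 / 100) (G0 := 822 / 1000) (G1 := 733 / 1000) (by norm_num) (by linear_combination hs1 + h1) (by linear_combination hs2 + b0 + hc)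
    (by norm_num) (by norm_num) (by norm_num) (by norm_num) (by norm_num) (by norm_num)
    (by norm_num) (by norm_num)
  obtain ⟨L, c1, c2, c3⟩ := tan_box (x := 1 + s - h0) (X0 := 7039 / 10000) (X1 := 81 / 100)
    (A := 99 / 100) (B := 139 / 100) (G0 := 7104 / 10000) (G1 := 586 / 1000) (by norm_num)
    (by linear_combination hs1 + hh) (by linear_combination hs2 + hl) (by norm_num) (by norm_num) (by norm_num) (by norm_num)
    (by norm_num) (by norm_num) (by norm_num) (by norm_num)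
  obtain ⟨M, d1, d2, d3⟩ := tan_box (x := 1 - h0) (X0 := 1339 / 10000) (X1 := 134 / 1000)
    (A := 135 / 1000) (B := 136 / 1000) (G0 := 991 / 1000) (G1 := 99 / 100) (by norm_num)
    (by linear_combination hh) (by linear_combination hl) (by norm_num) (by norm_num) (by norm_num) (by norm_num)
    (by norm_num) (by norm_num) (by norm_num) (by norm_num)
  have e1 := a3 (y - b / 2 - k) (by linear_combination (63 / 50) * hs2 + (1717455978116753417284911 / 1000000000000000000000000) * b0 +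
    (23 / 20) * hc + (57 / 50) * k0 + (2544021883246582715089 / 10000000000000000000000) * bb +
    (44021883246582715089 / 100000000000000000000) * (mul_nonneg (sub_nonneg.mpr (sq_nonneg (b))) (sub_nonneg.mpr h1)) +
    (44021883246582715089 / 100000000000000000000) * (mul_nonneg (sub_nonneg.mpr (sq_nonneg (b))) (sub_nonneg.mpr hc)) +
    (438297783 / 1000000000) * (mul_nonneg (sub_nonneg.mpr (sq_nonneg (b))) (sub_nonneg.mpr k2)) +
    (37957902901149 / 100000000000000) * (mul_nonneg (sub_nonneg.mpr (sq_nonneg (b))) (sub_nonneg.mpr fb)) +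
    (192104946582715089 / 1000000000000000000) * (mul_nonneg (sub_nonneg.mpr (sq_nonneg (b))) (sub_nonneg.mpr bb)) +
    (mul_nonneg (sub_nonneg.mpr hs1) (sub_nonneg.mpr hs2)) + 3 * (mul_nonneg (sub_nonneg.mpr hs1) (sub_nonneg.mpr b0)) +
    2 * (mul_nonneg (sub_nonneg.mpr hs1) (sub_nonneg.mpr hc)) + 2 * (mul_nonneg (sub_nonneg.mpr hs1) (sub_nonneg.mpr k0)) +
    2 * (mul_nonneg (sub_nonneg.mpr h1) (sub_nonneg.mpr b0)) + (mul_nonneg (sub_nonneg.mpr h1) (sub_nonneg.mpr hc)) +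
    2 * (mul_nonneg (sub_nonneg.mpr h1) (sub_nonneg.mpr k0)) + (mul_nonneg (sub_nonneg.mpr b0) (sub_nonneg.mpr k2)) +
    (86603 / 100000) * (mul_nonneg (sub_nonneg.mpr b0) (sub_nonneg.mpr fb)) + (mul_nonneg (sub_nonneg.mpr k0) (sub_nonneg.mpr k2)) +
    (86603 / 100000) * (mul_nonneg (sub_nonneg.mpr k0) (sub_nonneg.mpr fb)))
  have e2 := a3 (y + b / 2 - k) (by linear_combination (63 / 50) * hs2 + (577499807895053417284911 / 1000000000000000000000000) * b0 +
    (23 / 20) * hc + (57 / 50) * k0 + (2500192104946582715089 / 10000000000000000000000) * bb +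
    (192104946582715089 / 100000000000000000000) * (mul_nonneg (sub_nonneg.mpr (sq_nonneg (b))) (sub_nonneg.mpr h1)) +
    (192104946582715089 / 100000000000000000000) * (mul_nonneg (sub_nonneg.mpr (sq_nonneg (b))) (sub_nonneg.mpr hc)) +
    (438297783 / 1000000000) * (mul_nonneg (sub_nonneg.mpr (sq_nonneg (b))) (sub_nonneg.mpr k2)) +
    (37957902901149 / 100000000000000) * (mul_nonneg (sub_nonneg.mpr (sq_nonneg (b))) (sub_nonneg.mpr fb)) +
    (192104946582715089 / 1000000000000000000) * (mul_nonneg (sub_nonneg.mpr (sq_nonneg (b))) (sub_nonneg.mpr bb)) +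
    (mul_nonneg (sub_nonneg.mpr hs1) (sub_nonneg.mpr hs2)) + (mul_nonneg (sub_nonneg.mpr hs1) (sub_nonneg.mpr b0)) +
    2 * (mul_nonneg (sub_nonneg.mpr hs1) (sub_nonneg.mpr hc)) + 2 * (mul_nonneg (sub_nonneg.mpr hs1) (sub_nonneg.mpr k0)) +
    (mul_nonneg (sub_nonneg.mpr h1) (sub_nonneg.mpr hc)) + 2 * (mul_nonneg (sub_nonneg.mpr h1) (sub_nonneg.mpr k0)) +
    (mul_nonneg (sub_nonneg.mpr b0) (sub_nonneg.mpr k0)) + (mul_nonneg (sub_nonneg.mpr k0) (sub_nonneg.mpr k2)) +
    (86603 / 100000) * (mul_nonneg (sub_nonneg.mpr k0) (sub_nonneg.mpr fb)))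
  have e3 := a3 s (by linear_combination (31 / 25) * hs2 + (mul_nonneg (sub_nonneg.mpr hs1) (sub_nonneg.mpr hs2)))
  have e4 := c3 (y + b / 2 - k - h0 + 1) (by linear_combination (38199 / 25000) * hs2 + (711479807895053417284911 / 1000000000000000000000000) * b0 +
    (35449 / 25000) * hc + (70397 / 50000) * k0 + (28159 / 20000) * hl + (2500192104946582715089 / 10000000000000000000000) * bb +
    (192104946582715089 / 100000000000000000000) * (mul_nonneg (sub_nonneg.mpr (sq_nonneg (b))) (sub_nonneg.mpr h1)) +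
    (192104946582715089 / 100000000000000000000) * (mul_nonneg (sub_nonneg.mpr (sq_nonneg (b))) (sub_nonneg.mpr hc)) +
    (438297783 / 1000000000) * (mul_nonneg (sub_nonneg.mpr (sq_nonneg (b))) (sub_nonneg.mpr k2)) +
    (37957902901149 / 100000000000000) * (mul_nonneg (sub_nonneg.mpr (sq_nonneg (b))) (sub_nonneg.mpr fb)) +
    (192104946582715089 / 1000000000000000000) * (mul_nonneg (sub_nonneg.mpr (sq_nonneg (b))) (sub_nonneg.mpr bb)) +
    (mul_nonneg (sub_nonneg.mpr hs1) (sub_nonneg.mpr hs2)) + (mul_nonneg (sub_nonneg.mpr hs1) (sub_nonneg.mpr b0)) +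
    2 * (mul_nonneg (sub_nonneg.mpr hs1) (sub_nonneg.mpr hc)) + 2 * (mul_nonneg (sub_nonneg.mpr hs1) (sub_nonneg.mpr k0)) +
    2 * (mul_nonneg (sub_nonneg.mpr hs1) (sub_nonneg.mpr hl)) + (mul_nonneg (sub_nonneg.mpr h1) (sub_nonneg.mpr hc)) +
    2 * (mul_nonneg (sub_nonneg.mpr h1) (sub_nonneg.mpr k0)) + 2 * (mul_nonneg (sub_nonneg.mpr h1) (sub_nonneg.mpr hl)) +
    (mul_nonneg (sub_nonneg.mpr b0) (sub_nonneg.mpr k0)) + (mul_nonneg (sub_nonneg.mpr b0) (sub_nonneg.mpr hl)) +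
    (mul_nonneg (sub_nonneg.mpr k0) (sub_nonneg.mpr k2)) + 2 * (mul_nonneg (sub_nonneg.mpr k0) (sub_nonneg.mpr hh)) +
    (86603 / 100000) * (mul_nonneg (sub_nonneg.mpr k0) (sub_nonneg.mpr fb)) + (mul_nonneg (sub_nonneg.mpr hh) (sub_nonneg.mpr hl)))
  have e5 := d3 (y - b / 2 - k - h0 - s + 1) (by linear_combination (409385978116753417284911 / 1000000000000000000000000) * b0 + (6949 / 25000) * hc +
    (13397 / 50000) * k0 + (5359 / 20000) * hl + (2544021883246582715089 / 10000000000000000000000) * bb +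
    (44021883246582715089 / 100000000000000000000) * (mul_nonneg (sub_nonneg.mpr (sq_nonneg (b))) (sub_nonneg.mpr h1)) +
    (44021883246582715089 / 100000000000000000000) * (mul_nonneg (sub_nonneg.mpr (sq_nonneg (b))) (sub_nonneg.mpr hc)) +
    (438297783 / 1000000000) * (mul_nonneg (sub_nonneg.mpr (sq_nonneg (b))) (sub_nonneg.mpr k2)) +
    (37957902901149 / 100000000000000) * (mul_nonneg (sub_nonneg.mpr (sq_nonneg (b))) (sub_nonneg.mpr fb)) +
    (192104946582715089 / 1000000000000000000) * (mul_nonneg (sub_nonneg.mpr (sq_nonneg (b))) (sub_nonneg.mpr bb)) +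
    2 * (mul_nonneg (sub_nonneg.mpr h1) (sub_nonneg.mpr b0)) + (mul_nonneg (sub_nonneg.mpr h1) (sub_nonneg.mpr hc)) +
    2 * (mul_nonneg (sub_nonneg.mpr h1) (sub_nonneg.mpr k0)) + 2 * (mul_nonneg (sub_nonneg.mpr h1) (sub_nonneg.mpr hl)) +
    (mul_nonneg (sub_nonneg.mpr b0) (sub_nonneg.mpr k2)) + (mul_nonneg (sub_nonneg.mpr b0) (sub_nonneg.mpr hh)) +
    (86603 / 100000) * (mul_nonneg (sub_nonneg.mpr b0) (sub_nonneg.mpr fb)) + (mul_nonneg (sub_nonneg.mpr k0) (sub_nonneg.mpr k2)) +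
    2 * (mul_nonneg (sub_nonneg.mpr k0) (sub_nonneg.mpr hh)) + (86603 / 100000) * (mul_nonneg (sub_nonneg.mpr k0) (sub_nonneg.mpr fb)) +
    (mul_nonneg (sub_nonneg.mpr hh) (sub_nonneg.mpr hl)))
  have e6 := g_top t0 (by linear_combination b0 + hc + ht)
  have e7 : ph (h0 + s - y) = 1 - g (h0 - t) := by
    rw [show h0 + s - y = h0 - t by linear_combination ht]
    rfl
  have m1 : K * t ≤ 93 / 100 * t := mul_le_mul_of_nonneg_right a2 t0
  have m2 : K * b ≤ 93 / 100 * b := mul_le_mul_of_nonneg_right a2 b0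
  have m3 : K * k ≤ 93 / 100 * k := mul_le_mul_of_nonneg_right a2 k0
  have m4 : 99 / 100 * (t + b / 2 - k) ≤ L * (t + b / 2 - k) :=
    mul_le_mul_of_nonneg_right c1 (by linear_combination h1 + (49561702217 / 100000000000) * b0 + k2 + (86603 / 100000) * fb +
      (438297783 / 1000000000) * bb - ht)
  have m5 : 135 / 1000 * t ≤ M * t := mul_le_mul_of_nonneg_right d1 t0
  have m6 : M * (b / 2 + k) ≤ 136 / 1000 * (b / 2 + k) :=
    mul_le_mul_of_nonneg_right d2 (by linear_combination (1 / 2) * b0 + k0)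
  have m7 : 86602 / 100000 * b ≤ h0 * b := mul_le_mul_of_nonneg_right hl b0
  rw [show y - b / 2 - k - y = -(b / 2 + k) by ring] at e1
  rw [show y + b / 2 - k - y = b / 2 - k by ring] at e2
  rw [show s - y = -t by linear_combination ht] at e3
  rw [show y + b / 2 - k - h0 + 1 - (1 + s - h0) = t + b / 2 - k by linear_combination -ht] at e4
  rw [show y - b / 2 - k - h0 - s + 1 - (1 - h0) = t - (b / 2 + k) by linear_combination -ht] at e5
  rw [e7]
  linear_combination (157 / 200) * h1 + (59630854471791 / 50000000000000) * b0 + (2423 / 500) * k2 +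
    (359839069 / 50000000) * fb + (1821145528209 / 500000000000) * bb - (157 / 200) * ht +
    3 * e1 + e2 + 4 * e3 + e4 + e5 + 2 * e6 + 4 * m1 + m2 + 4 * m3 + m4 + m5 + m6 + 2 * m7

/-- The corner at `y = s`, `b = 0`, the exit is the upper virtual side. -/
theorem mc2 (hs1 : 57 / 100 ≤ s) (hs2 : s ≤ 67 / 100) (h1 : s ≤ y) (b0 : 0 ≤ b)
    (hc : (y - s) + b ≤ 1 / 100) (k0 : 0 ≤ k) (k2 : k ≤ 86603 / 100000 * ph b) :
    0 ≤ 1 - 2 * ph (h0 + s - y) - 3 * ph b + 3 * ph (y + b / 2 - k) + ph (y - b / 2 - k) +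
      4 * ph s - 8 * ph y + (ph (y - b / 2 - k + h0 - 1) - ph (h0 + s - 1)) +
      (ph (y - b / 2 - k - h0 - s + 1) - ph (1 - h0)) := by
  have hh : h0 ≤ 86603 / 100000 := Four.Low.h0_hi
  have hl : 86602 / 100000 ≤ h0 := Four.Low.h0_lo
  have f0 := ph_nonneg b
  have fb : ph b ≤ 5061 / 10000 * b ^ 2 := ph_hi2' (by linear_combination (1 / 100) * h1 + (1 / 100) * hc + (mul_nonneg (sub_nonneg.mpr h1) (sub_nonneg.mpr b0)) +
    (mul_nonneg (sub_nonneg.mpr b0) (sub_nonneg.mpr hc)))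
  have bb : b ^ 2 ≤ 1 / 100 * b := by linear_combination (mul_nonneg (sub_nonneg.mpr h1) (sub_nonneg.mpr b0)) + (mul_nonneg (sub_nonneg.mpr b0) (sub_nonneg.mpr hc))
  obtain ⟨t, ht⟩ : ∃ t, t = y - s := ⟨_, rfl⟩
  have t0 : 0 ≤ t := by linear_combination h1 - ht
  obtain ⟨K, a1, a2, a3⟩ := tan_box (x := y) (X0 := 57 / 100) (X1 := 68 / 100) (A := 69 / 100)
    (B := 93 / 100) (G0 := 822 / 1000) (G1 := 733 / 1000) (by norm_num) (by linear_combination hs1 + h1) (by linear_combination hs2 + b0 + hc)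
    (by norm_num) (by norm_num) (by norm_num) (by norm_num) (by norm_num) (by norm_num)
    (by norm_num) (by norm_num)
  obtain ⟨L, c1, c2, c3⟩ := tan_box (x := h0 + s - 1) (X0 := 436 / 1000) (X1 := 5361 / 10000)
    (A := 484 / 1000) (B := 636 / 1000) (G0 := 9 / 10) (G1 := 844 / 1000) (by norm_num)
    (by linear_combination hs1 + hl) (by linear_combination hs2 + hh) (by norm_num) (by norm_num) (by norm_num) (by norm_num)
    (by norm_num) (by norm_num) (by norm_num) (by norm_num)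
  obtain ⟨M, d1, d2, d3⟩ := tan_box (x := 1 - h0) (X0 := 1339 / 10000) (X1 := 134 / 1000)
    (A := 135 / 1000) (B := 136 / 1000) (G0 := 991 / 1000) (G1 := 99 / 100) (by norm_num)
    (by linear_combination hh) (by linear_combination hl) (by norm_num) (by norm_num) (by norm_num) (by norm_num)
    (by norm_num) (by norm_num) (by norm_num) (by norm_num)
  have e1 := a3 (y - b / 2 - k) (by linear_combination (63 / 50) * hs2 + (1717455978116753417284911 / 1000000000000000000000000) * b0 +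
    (23 / 20) * hc + (57 / 50) * k0 + (2544021883246582715089 / 10000000000000000000000) * bb +
    (44021883246582715089 / 100000000000000000000) * (mul_nonneg (sub_nonneg.mpr (sq_nonneg (b))) (sub_nonneg.mpr h1)) +
    (44021883246582715089 / 100000000000000000000) * (mul_nonneg (sub_nonneg.mpr (sq_nonneg (b))) (sub_nonneg.mpr hc)) +
    (438297783 / 1000000000) * (mul_nonneg (sub_nonneg.mpr (sq_nonneg (b))) (sub_nonneg.mpr k2)) +
    (37957902901149 / 100000000000000) * (mul_nonneg (sub_nonneg.mpr (sq_nonneg (b))) (sub_nonneg.mpr fb)) +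
    (192104946582715089 / 1000000000000000000) * (mul_nonneg (sub_nonneg.mpr (sq_nonneg (b))) (sub_nonneg.mpr bb)) +
    (mul_nonneg (sub_nonneg.mpr hs1) (sub_nonneg.mpr hs2)) + 3 * (mul_nonneg (sub_nonneg.mpr hs1) (sub_nonneg.mpr b0)) +
    2 * (mul_nonneg (sub_nonneg.mpr hs1) (sub_nonneg.mpr hc)) + 2 * (mul_nonneg (sub_nonneg.mpr hs1) (sub_nonneg.mpr k0)) +
    2 * (mul_nonneg (sub_nonneg.mpr h1) (sub_nonneg.mpr b0)) + (mul_nonneg (sub_nonneg.mpr h1) (sub_nonneg.mpr hc)) +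
    2 * (mul_nonneg (sub_nonneg.mpr h1) (sub_nonneg.mpr k0)) + (mul_nonneg (sub_nonneg.mpr b0) (sub_nonneg.mpr k2)) +
    (86603 / 100000) * (mul_nonneg (sub_nonneg.mpr b0) (sub_nonneg.mpr fb)) + (mul_nonneg (sub_nonneg.mpr k0) (sub_nonneg.mpr k2)) +
    (86603 / 100000) * (mul_nonneg (sub_nonneg.mpr k0) (sub_nonneg.mpr fb)))
  have e2 := a3 (y + b / 2 - k) (by linear_combination (63 / 50) * hs2 + (577499807895053417284911 / 1000000000000000000000000) * b0 +
    (23 / 20) * hc + (57 / 50) * k0 + (2500192104946582715089 / 10000000000000000000000) * bb +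
    (192104946582715089 / 100000000000000000000) * (mul_nonneg (sub_nonneg.mpr (sq_nonneg (b))) (sub_nonneg.mpr h1)) +
    (192104946582715089 / 100000000000000000000) * (mul_nonneg (sub_nonneg.mpr (sq_nonneg (b))) (sub_nonneg.mpr hc)) +
    (438297783 / 1000000000) * (mul_nonneg (sub_nonneg.mpr (sq_nonneg (b))) (sub_nonneg.mpr k2)) +
    (37957902901149 / 100000000000000) * (mul_nonneg (sub_nonneg.mpr (sq_nonneg (b))) (sub_nonneg.mpr fb)) +
    (192104946582715089 / 1000000000000000000) * (mul_nonneg (sub_nonneg.mpr (sq_nonneg (b))) (sub_nonneg.mpr bb)) +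
    (mul_nonneg (sub_nonneg.mpr hs1) (sub_nonneg.mpr hs2)) + (mul_nonneg (sub_nonneg.mpr hs1) (sub_nonneg.mpr b0)) +
    2 * (mul_nonneg (sub_nonneg.mpr hs1) (sub_nonneg.mpr hc)) + 2 * (mul_nonneg (sub_nonneg.mpr hs1) (sub_nonneg.mpr k0)) +
    (mul_nonneg (sub_nonneg.mpr h1) (sub_nonneg.mpr hc)) + 2 * (mul_nonneg (sub_nonneg.mpr h1) (sub_nonneg.mpr k0)) +
    (mul_nonneg (sub_nonneg.mpr b0) (sub_nonneg.mpr k0)) + (mul_nonneg (sub_nonneg.mpr k0) (sub_nonneg.mpr k2)) +
    (86603 / 100000) * (mul_nonneg (sub_nonneg.mpr k0) (sub_nonneg.mpr fb)))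
  have e3 := a3 s (by linear_combination (31 / 25) * hs2 + (mul_nonneg (sub_nonneg.mpr hs1) (sub_nonneg.mpr hs2)))
  have e4 := c3 (y - b / 2 - k + h0 - 1) (by linear_combination (49603 / 50000) * hs2 + (1315535978116753417284911 / 1000000000000000000000000) * b0 +
    (44103 / 50000) * hc + (21801 / 25000) * k0 + (17441 / 20000) * hh + (2544021883246582715089 / 10000000000000000000000) * bb +
    (44021883246582715089 / 100000000000000000000) * (mul_nonneg (sub_nonneg.mpr (sq_nonneg (b))) (sub_nonneg.mpr h1)) +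
    (44021883246582715089 / 100000000000000000000) * (mul_nonneg (sub_nonneg.mpr (sq_nonneg (b))) (sub_nonneg.mpr hc)) +
    (438297783 / 1000000000) * (mul_nonneg (sub_nonneg.mpr (sq_nonneg (b))) (sub_nonneg.mpr k2)) +
    (37957902901149 / 100000000000000) * (mul_nonneg (sub_nonneg.mpr (sq_nonneg (b))) (sub_nonneg.mpr fb)) +
    (192104946582715089 / 1000000000000000000) * (mul_nonneg (sub_nonneg.mpr (sq_nonneg (b))) (sub_nonneg.mpr bb)) +
    (mul_nonneg (sub_nonneg.mpr hs1) (sub_nonneg.mpr hs2)) + 3 * (mul_nonneg (sub_nonneg.mpr hs1) (sub_nonneg.mpr b0)) +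
    2 * (mul_nonneg (sub_nonneg.mpr hs1) (sub_nonneg.mpr hc)) + 2 * (mul_nonneg (sub_nonneg.mpr hs1) (sub_nonneg.mpr k0)) +
    2 * (mul_nonneg (sub_nonneg.mpr hs1) (sub_nonneg.mpr hh)) + 2 * (mul_nonneg (sub_nonneg.mpr h1) (sub_nonneg.mpr b0)) +
    (mul_nonneg (sub_nonneg.mpr h1) (sub_nonneg.mpr hc)) + 2 * (mul_nonneg (sub_nonneg.mpr h1) (sub_nonneg.mpr k0)) +
    2 * (mul_nonneg (sub_nonneg.mpr h1) (sub_nonneg.mpr hh)) + (mul_nonneg (sub_nonneg.mpr b0) (sub_nonneg.mpr k2)) +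
    (mul_nonneg (sub_nonneg.mpr b0) (sub_nonneg.mpr hl)) + (86603 / 100000) * (mul_nonneg (sub_nonneg.mpr b0) (sub_nonneg.mpr fb)) +
    (mul_nonneg (sub_nonneg.mpr k0) (sub_nonneg.mpr k2)) + 2 * (mul_nonneg (sub_nonneg.mpr k0) (sub_nonneg.mpr hl)) +
    (86603 / 100000) * (mul_nonneg (sub_nonneg.mpr k0) (sub_nonneg.mpr fb)) + (mul_nonneg (sub_nonneg.mpr hh) (sub_nonneg.mpr hl)))
  have e5 := d3 (y - b / 2 - k - h0 - s + 1) (by linear_combination (409385978116753417284911 / 1000000000000000000000000) * b0 + (6949 / 25000) * hc +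
    (13397 / 50000) * k0 + (5359 / 20000) * hl + (2544021883246582715089 / 10000000000000000000000) * bb +
    (44021883246582715089 / 100000000000000000000) * (mul_nonneg (sub_nonneg.mpr (sq_nonneg (b))) (sub_nonneg.mpr h1)) +
    (44021883246582715089 / 100000000000000000000) * (mul_nonneg (sub_nonneg.mpr (sq_nonneg (b))) (sub_nonneg.mpr hc)) +
    (438297783 / 1000000000) * (mul_nonneg (sub_nonneg.mpr (sq_nonneg (b))) (sub_nonneg.mpr k2)) +
    (37957902901149 / 100000000000000) * (mul_nonneg (sub_nonneg.mpr (sq_nonneg (b))) (sub_nonneg.mpr fb)) +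
    (192104946582715089 / 1000000000000000000) * (mul_nonneg (sub_nonneg.mpr (sq_nonneg (b))) (sub_nonneg.mpr bb)) +
    2 * (mul_nonneg (sub_nonneg.mpr h1) (sub_nonneg.mpr b0)) + (mul_nonneg (sub_nonneg.mpr h1) (sub_nonneg.mpr hc)) +
    2 * (mul_nonneg (sub_nonneg.mpr h1) (sub_nonneg.mpr k0)) + 2 * (mul_nonneg (sub_nonneg.mpr h1) (sub_nonneg.mpr hl)) +
    (mul_nonneg (sub_nonneg.mpr b0) (sub_nonneg.mpr k2)) + (mul_nonneg (sub_nonneg.mpr b0) (sub_nonneg.mpr hh)) +
    (86603 / 100000) * (mul_nonneg (sub_nonneg.mpr b0) (sub_nonneg.mpr fb)) + (mul_nonneg (sub_nonneg.mpr k0) (sub_nonneg.mpr k2)) +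
    2 * (mul_nonneg (sub_nonneg.mpr k0) (sub_nonneg.mpr hh)) + (86603 / 100000) * (mul_nonneg (sub_nonneg.mpr k0) (sub_nonneg.mpr fb)) +
    (mul_nonneg (sub_nonneg.mpr hh) (sub_nonneg.mpr hl)))
  have e6 := g_top t0 (by linear_combination b0 + hc + ht)
  have e7 : ph (h0 + s - y) = 1 - g (h0 - t) := by
    rw [show h0 + s - y = h0 - t by linear_combination ht]
    rfl
  have m1 : K * t ≤ 93 / 100 * t := mul_le_mul_of_nonneg_right a2 t0
  have m2 : 69 / 100 * b ≤ K * b := mul_le_mul_of_nonneg_right a1 b0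
  have m3 : K * k ≤ 93 / 100 * k := mul_le_mul_of_nonneg_right a2 k0
  have m4 : 484 / 1000 * t ≤ L * t := mul_le_mul_of_nonneg_right c1 t0
  have m4' : L * (b / 2 + k) ≤ 636 / 1000 * (b / 2 + k) :=
    mul_le_mul_of_nonneg_right c2 (by linear_combination (1 / 2) * b0 + k0)
  have m5 : 135 / 1000 * t ≤ M * t := mul_le_mul_of_nonneg_right d1 t0
  have m6 : M * (b / 2 + k) ≤ 136 / 1000 * (b / 2 + k) :=
    mul_le_mul_of_nonneg_right d2 (by linear_combination (1 / 2) * b0 + k0)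
  rw [show y - b / 2 - k - y = -(b / 2 + k) by ring] at e1
  rw [show y + b / 2 - k - y = b / 2 - k by ring] at e2
  rw [show s - y = -t by linear_combination ht] at e3
  rw [show y - b / 2 - k + h0 - 1 - (h0 + s - 1) = t - (b / 2 + k) by linear_combination -ht] at e4
  rw [show y - b / 2 - k - h0 - s + 1 - (1 - h0) = t - (b / 2 + k) by linear_combination -ht] at e5
  rw [e7]
  linear_combination (279 / 1000) * h1 + (6728216589691 / 25000000000000) * b0 + (1123 / 250) * k2 +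
    (172255169 / 25000000) * fb + (871783410309 / 250000000000) * bb - (279 / 1000) * ht +
    e1 + 3 * e2 + 4 * e3 + e4 + e5 + 2 * e6 + 4 * m1 + m2 + 4 * m3 + m4 + m4' + m5 + m6

/-- The new point close to `h0`, the exit is the upper virtual side. -/
theorem mt2 (hs1 : 57 / 100 ≤ s) (hs2 : s ≤ 67 / 100) (u0 : 0 ≤ u) (u1 : u ≤ 1 / 100)
    (p0 : 1 / 2 ≤ p) (p1 : p ≤ h0) :
    0 ≤ 8 * (1 / 2 - ph (h0 - u)) + (1 / 2 - ph (h0 + u)) - (ph (s + 1 - h0 + u) -
      ph (s + 1 - h0)) - (ph (9 / 5 - h0 + u) - ph (9 / 5 - h0)) - 4 * (ph (s + u) - ph s) -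
      (ph p - ph (p - u)) := by
  have hh : h0 ≤ 86603 / 100000 := Four.Low.h0_hi
  have hl : 86602 / 100000 ≤ h0 := Four.Low.h0_lo
  have e1 := g_top u0 u1
  have e1' : ph (h0 - u) = 1 - g (h0 - u) := rfl
  have e2 := ph_step (x := h0) (u := u) (X := 87604 / 100000) (G := 48223 / 100000)
    (B := 1817 / 1000) (by linear_combination p0 + p1) u0 (by linear_combination u1 + hh) (by norm_num) (by norm_num) (by norm_num)
    (by norm_num)
  have e2' : ph h0 = 1 / 2 := by
    unfold Four.Low.ph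
    rw [g_h0]
    norm_num
  have e3 := ph_step (x := s + 1 - h0) (u := u) (X := 814 / 1000) (G := 5808 / 10000)
    (B := 1402 / 1000) (by linear_combination hs1 + hh) u0 (by linear_combination hs2 + u1 + hl) (by norm_num) (by norm_num) (by norm_num)
    (by norm_num)
  have e4 := ph_step (x := 9 / 5 - h0) (u := u) (X := 944 / 1000) (G := 3299 / 10000)
    (B := 2862 / 1000) (by linear_combination hh) u0 (by linear_combination u1 + hl) (by norm_num) (by norm_num) (by norm_num)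
    (by norm_num)
  have e5 := ph_step (x := s) (u := u) (X := 68 / 100) (G := 733 / 1000)
    (B := 93 / 100) (by linear_combination hs1) u0 (by linear_combination hs2 + u1) (by norm_num) (by norm_num) (by norm_num)
    (by norm_num)
  have e6 := ph_step (x := p - u) (u := u) (X := 86603 / 100000) (G := 49999 / 100000)
    (B := 1733 / 1000) (by linear_combination u1 + p0) u0 (by linear_combination p1 + hh) (by norm_num) (by norm_num) (by norm_num)
    (by norm_num)
  rw [sub_add_cancel] at e6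
  rw [e1']
  rw [e2'] at e2
  linear_combination (993 / 500) * u0 + 8 * e1 + e2 + e3 + e4 + 4 * e5 + e6

/-- The sum of the slopes. -/
theorem slope3 {B β K1 K2 : ℝ} (A : Ak r p q b k) (hb : b ≤ β) (hβ : β ≤ 43 / 100)
    (hB0 : 7 ≤ B)
    (hP : 173206 / 100000 ≤ B / 4 - B * β ^ 2 + 2 * β - 10519 / 10000 * β ^ 3)
    (hK1 : K1 * g p = p) (hK2 : K2 * g q = q) : 3 * K1 + K2 ≤ B := by
  have hh : h0 ≤ 86603 / 100000 := Four.Low.h0_hi
  have hl : 86602 / 100000 ≤ h0 := Four.Low.h0_lo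
  have b0 := A.h.b0
  have hp := A.h.hp
  have hq := A.h.hq
  have gp := A.gp
  have gq := A.gq
  have hs := h0_sq
  have gb := g_sq (r := b) (by linear_combination (43 / 100) * hb + (43 / 100) * hβ + (mul_nonneg (sub_nonneg.mpr hb) (sub_nonneg.mpr b0)) +
    (mul_nonneg (sub_nonneg.mpr hβ) (sub_nonneg.mpr b0)))
  have fb : ph b ≤ 52595 / 100000 * b ^ 2 := ph_hi2 (by linear_combination (43 / 100) * hb + (43 / 100) * hβ + (mul_nonneg (sub_nonneg.mpr hb) (sub_nonneg.mpr b0)) +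
    (mul_nonneg (sub_nonneg.mpr hβ) (sub_nonneg.mpr b0)))
  have c1 : 1 - 52595 / 100000 * b ^ 2 ≤ g b := by
    unfold Four.Low.ph at fb
    linear_combination fb
  have m1 : g p * g q = 1 / 4 - b ^ 2 := by
    rw [gp, gq]
    linear_combination (1 / 4 : ℝ) * gb - b ^ 2 * hs
  have m2 : 3 * p * g q + q * g p = 2 * h0 - 2 * b * g b := by
    rw [gp, gq, hp, hq]
    linear_combination (2 * h0) * gb - 2 * b * g b * hs
  have m3 : (3 * K1 + K2) * (g p * g q) = 3 * p * g q + q * g p := by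
    calc (3 * K1 + K2) * (g p * g q) = 3 * (K1 * g p) * g q + (K2 * g q) * g p := by ring
      _ = _ := by rw [hK1, hK2]
  rw [m1, m2] at m3
  have m4 : b * (1 - 52595 / 100000 * b ^ 2) ≤ b * g b := mul_le_mul_of_nonneg_left c1 b0
  have m5 : 0 < 1 / 4 - b ^ 2 := by linear_combination (43 / 100) * hb + (43 / 100) * hβ + (mul_nonneg (sub_nonneg.mpr hb) (sub_nonneg.mpr b0)) +
    (mul_nonneg (sub_nonneg.mpr hβ) (sub_nonneg.mpr b0))
  have m6 : 0 ≤ b * (β - b) := mul_nonneg b0 (by linear_combination hb)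
  have m7 : 0 ≤ b * (β - b) * (b + β) := mul_nonneg m6 (by linear_combination hb + 2 * b0)
  have m8 : 0 ≤ b * (β - b) * B := mul_nonneg m6 (by linear_combination hB0)
  have key : 2 * h0 - 2 * (b * g b) ≤ B * (1 / 4 - b ^ 2) := by
    have k1 : 173206 / 100000 - 2 * (b * (1 - 52595 / 100000 * b ^ 2)) ≤ B * (1 / 4 - b ^ 2) := by
      rcases b0.eq_or_lt with h | h
      · rw [← h]
        linear_combination (1 / 4) * hB0
      · have hβ0 : 0 < β := by linear_combination hb + h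
        have k2 : 0 ≤ β * (B * (1 / 4 - b ^ 2) - 173206 / 100000 +
            2 * (b * (1 - 52595 / 100000 * b ^ 2))) := by
          have k3 : β * (B * (1 / 4 - b ^ 2) - 173206 / 100000 +
            2 * (b * (1 - 52595 / 100000 * b ^ 2))) = (β - b) * (B / 4 - 173206 / 100000) +
            b * (B / 4 - B * β ^ 2 + 2 * β - 10519 / 10000 * β ^ 3 - 173206 / 100000) +
            β * (b * (β - b) * B + 10519 / 10000 * (b * (β - b) * (b + β))) := by ring
          rw [k3]
          have k4 : 0 ≤ (β - b) * (B / 4 - 173206 / 100000) :=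
            mul_nonneg (by linear_combination hb) (by linear_combination (1 / 4) * hB0)
          have k5 : 0 ≤ b * (B / 4 - B * β ^ 2 + 2 * β - 10519 / 10000 * β ^ 3 -
            173206 / 100000) := mul_nonneg b0 (by linear_combination hP)
          have k6 : 0 ≤ β * (b * (β - b) * B + 10519 / 10000 * (b * (β - b) * (b + β))) :=
            mul_nonneg hβ0.le (by linear_combination (10519 / 10000) * m7 + m8)
          linear_combination k4 + k5 + k6
        have := nonneg_of_mul_nonneg_right k2 hβ0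
        linear_combination this
    linear_combination 2 * hh + 2 * m4 + k1
  by_contra hcon
  push Not at hcon
  have := mul_lt_mul_of_pos_right hcon m5
  exact absurd key (not_le.mpr (by linear_combination m3 + this))

/-- The new point close to `h0`, the exit is the lower virtual side. -/
theorem mt1_gen {β B S κ G F : ℝ} (A : Ak r p q b k) (hs1 : 57 / 100 ≤ s) (u0 : 0 ≤ u)
    (u1 : u ≤ 1 / 500) (hb : b ≤ β) (hβ : β ≤ 43 / 100) (hB0 : 7 ≤ B)
    (hP : 173206 / 100000 ≤ B / 4 - B * β ^ 2 + 2 * β - 10519 / 10000 * β ^ 3)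
    (hS : s + 1 / 500 ≤ S) (hG : 0 < G) (hκ : 0 ≤ κ) (hS2 : G ^ 2 ≤ 1 - S ^ 2)
    (hS3 : S ≤ κ * G) (hf : B + 4 * κ ≤ 13788 / 1000 + F) :
    0 ≤ 8 * (1 / 2 - ph (h0 - u)) - 3 * (ph p - ph (p - u)) - (ph q - ph (q - u)) -
      4 * (ph (s + u) - ph s) + F * u := by
  have hh : h0 ≤ 86603 / 100000 := Four.Low.h0_hi
  have hl : 86602 / 100000 ≤ h0 := Four.Low.h0_lo
  have b0 := A.h.b0
  have p1 := A.h.p1
  have hpq := A.h.le
  have gp := A.gp
  have gq := A.gq
  have hq2 := A.h.q1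
  have fb : ph b ≤ 52595 / 100000 * b ^ 2 := ph_hi2 (by linear_combination (43 / 100) * hb + (43 / 100) * hβ + (mul_nonneg (sub_nonneg.mpr hb) (sub_nonneg.mpr b0)) +
    (mul_nonneg (sub_nonneg.mpr hβ) (sub_nonneg.mpr b0)))
  have c1 : 1 - 52595 / 100000 * b ^ 2 ≤ g b := by
    unfold Four.Low.ph at fb
    linear_combination fb
  have gq0 : 0 < g q := by
    rw [gq]
    linear_combination (3916397 / 4000000) * hb + (3916397 / 4000000) * hβ + (43 / 100) * hh +
      (1 / 2) * c1 + (mul_nonneg (sub_nonneg.mpr hb) (sub_nonneg.mpr hl)) + (10519 / 40000) * (mul_nonneg (sub_nonneg.mpr hb) (sub_nonneg.mpr b0)) +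
      (mul_nonneg (sub_nonneg.mpr hβ) (sub_nonneg.mpr hl)) + (10519 / 40000) * (mul_nonneg (sub_nonneg.mpr hβ) (sub_nonneg.mpr b0))
  have gp0 : 0 < g p := by
    rw [gp]
    linear_combination (43 / 100) * hl + (3011803 / 4000000) * b0 + (1 / 2) * c1 + (mul_nonneg (sub_nonneg.mpr hb) (sub_nonneg.mpr hh)) +
      (10519 / 40000) * (mul_nonneg (sub_nonneg.mpr hb) (sub_nonneg.mpr b0)) + (mul_nonneg (sub_nonneg.mpr hβ) (sub_nonneg.mpr hh)) +
      (10519 / 40000) * (mul_nonneg (sub_nonneg.mpr hβ) (sub_nonneg.mpr b0))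
  have hq1 : q ^ 2 < 1 := by
    by_contra hcon
    push Not at hcon
    have : q = 1 := by nlinarith
    rw [this] at gq0
    have : g 1 = 0 := by
      unfold g
      norm_num
    exact absurd gq0 (not_lt.mpr (by linear_combination this))
  have e1 := g_top' u0 u1
  have e1' : ph (h0 - u) = 1 - g (h0 - u) := rfl
  have e2 := tan_at (s := p) (z := p - u) (K := p / g p) (by linear_combination hpq + hq1 + 2 * (mul_nonneg (sub_nonneg.mpr p1) (sub_nonneg.mpr hpq)) +
    (mul_nonneg (sub_nonneg.mpr hpq) (sub_nonneg.mpr hpq))) (by linear_combination (499 / 500) * u0 + (3 / 2) * hpq + (3 / 2) * hq2 + (mul_nonneg (sub_nonneg.mpr u0) (sub_nonneg.mpr u1)) +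
    2 * (mul_nonneg (sub_nonneg.mpr u0) (sub_nonneg.mpr p1)) + (mul_nonneg (sub_nonneg.mpr p1) (sub_nonneg.mpr hpq)) +
    (mul_nonneg (sub_nonneg.mpr p1) (sub_nonneg.mpr hq2)))
    (div_mul_cancel₀ _ gp0.ne')
  have e3 := tan_at (s := q) (z := q - u) (K := q / g q) hq1 (by linear_combination (499 / 500) * u0 + hq1 + (mul_nonneg (sub_nonneg.mpr u0) (sub_nonneg.mpr u1)) +
    2 * (mul_nonneg (sub_nonneg.mpr u0) (sub_nonneg.mpr p1)) + 2 * (mul_nonneg (sub_nonneg.mpr u0) (sub_nonneg.mpr hpq)))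
    (div_mul_cancel₀ _ gq0.ne')
  have e4 := slope3 A hb hβ hB0 hP (div_mul_cancel₀ _ gp0.ne') (div_mul_cancel₀ _ gq0.ne')
  have e5 := ph_step (x := s) (u := u) (X := S) (G := G) (B := κ) (by linear_combination hs1) u0
    (by linear_combination u1 + hS) hG hκ hS2 hS3
  rw [show p - u - p = -u by ring] at e2
  rw [show q - u - q = -u by ring] at e3
  have e6 : (3 * (p / g p) + q / g q) * u ≤ B * u := mul_le_mul_of_nonneg_right e4 u0
  have e7 : (B + 4 * κ) * u ≤ (13788 / 1000 + F) * u := mul_le_mul_of_nonneg_right hf u0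
  rw [e1']
  linear_combination 8 * e1 + 3 * e2 + e3 + 4 * e5 + e6 + e7

theorem mt1_aux {β B S κ G : ℝ} (A : Ak r p q b k) (hs1 : 57 / 100 ≤ s) (u0 : 0 ≤ u)
    (u1 : u ≤ 1 / 500) (hb : b ≤ β) (hβ : β ≤ 2 / 5) (hB0 : 7 ≤ B)
    (hP : 173206 / 100000 ≤ B / 4 - B * β ^ 2 + 2 * β - 10519 / 10000 * β ^ 3)
    (hS : s + 1 / 500 ≤ S) (hG : 0 < G) (hκ : 0 ≤ κ) (hS2 : G ^ 2 ≤ 1 - S ^ 2)
    (hS3 : S ≤ κ * G) (hf : B + 4 * κ ≤ 13788 / 1000) :
    0 ≤ 8 * (1 / 2 - ph (h0 - u)) - 3 * (ph p - ph (p - u)) - (ph q - ph (q - u)) -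
      4 * (ph (s + u) - ph s) := by
  have := mt1_gen (F := 0) A hs1 u0 u1 hb (by linear_combination hβ) hB0 hP hS hG hκ hS2 hS3 (by linear_combination hf)
  linear_combination this

theorem mt1 (A : Ak r p q b k) (hs1 : 3 / 5 ≤ s) (hs2 : s ≤ 67 / 100) (u0 : 0 ≤ u)
    (u1 : u ≤ 1 / 500) (hp : s - 1 / 1000 ≤ h0 - b / 2 - k) :
    0 ≤ 8 * (1 / 2 - ph (h0 - u)) - 3 * (ph p - ph (p - u)) - (ph q - ph (q - u)) -
      4 * (ph (s + u) - ph s) := by
  have hh : h0 ≤ 86603 / 100000 := Four.Low.h0_hi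
  have b0 := A.h.b0
  have b1 := A.h.b1
  have k1 := A.k1
  have t1 := FourB.lo (t := 2053 / 10000) (x := b) (by norm_num) (by linear_combination b0) (by linear_combination b1)
  have hb : b ≤ 394 / 1000 := by
    by_contra hcon
    push Not at hcon
    exact absurd hh (not_le.mpr (by linear_combination hs1 + hp + k1 + (86602000 / 95785191) * t1 + (834513767 / 957851910) * hcon))
  rcases le_total b (37 / 100) with h | h
  · exact mt1_aux (β := 37 / 100) (B := 93 / 10) (S := 672 / 1000) (κ := 91 / 100)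
      (G := 7405 / 10000) A (by linear_combination hs1) u0 u1 h (by norm_num) (by norm_num) (by norm_num) (by linear_combination hs2)
      (by norm_num) (by norm_num) (by norm_num) (by norm_num) (by norm_num)
  · rcases le_total b (39 / 100) with h' | h'
    · exact mt1_aux (β := 39 / 100) (B := 104 / 10) (S := 625 / 1000) (κ := 81 / 100)
        (G := 780 / 1000) A (by linear_combination hs1) u0 u1 h' (by norm_num) (by norm_num) (by norm_num) (by linear_combination hp + hh + k1 + (86602000 / 95785191) * t1 + (834513767 / 957851910) * h)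
        (by norm_num) (by norm_num) (by norm_num) (by norm_num) (by norm_num)
    · exact mt1_aux (β := 394 / 1000) (B := 1066 / 100) (S := 606 / 1000) (κ := 763 / 1000)
        (G := 7954 / 10000) A (by linear_combination hs1) u0 u1 hb (by norm_num) (by norm_num) (by norm_num)
        (by linear_combination hp + hh + k1 + (86602000 / 95785191) * t1 + (834513767 / 957851910) * h') (by norm_num) (by norm_num) (by norm_num) (by norm_num) (by norm_num)

end

end Pool.Agent.Strip051.FourF.MB
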