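import Pool.Agent.Strip051.FourF.MidGain
import Pool.Agent.Strip051.FourF.MidCorner
import Pool.Agent.Strip051.FourF.BoxMA11
import Pool.Agent.Strip051.FourF.BoxMA12
import Pool.Agent.Strip051.FourF.BoxMA13
import Pool.Agent.Strip051.FourF.BoxMA1T
import Pool.Agent.Strip051.FourF.BoxMA21
import Pool.Agent.Strip051.FourF.BoxMA22
import Pool.Agent.Strip051.FourF.BoxMA23
import Pool.Agent.Strip051.FourF.BoxMB11
import Pool.Agent.Strip051.FourF.BoxMB12
import Pool.Agent.Strip051.FourF.BoxMB13
import Pool.Agent.Strip051.FourF.BoxMB21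
import Pool.Agent.Strip051.FourF.BoxMB22
import Pool.Agent.Strip051.FourF.BoxMB23

/-! # The new point is between `s` and `h0` -/

namespace Pool.Agent.Strip051.FourF.MB

open Pool.Agent.StripNear Pool.Agent.StripSquare Pool.Agent.Strip051
open Pool.Agent.Strip051.Four (gn)
open Pool.Agent.Strip051.Four.Low (ph ph_nonneg)

section

variable {s e w y r p q b k : ℝ}

/-- The exit is the lower virtual side. -/
theorem mid_1 (P : Par s e w) (hs : 3 / 5 ≤ s) (A : Ak r p q b k) (hr : r = q)
    (hx : ext r = p) (h1 : s ≤ y) (h2 : y ≤ h0) :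
    4 * (1 + g s - 2 * g y) ≤ mid s e r y y := by
  have s1 := P.s0
  have s2 := P.s1
  have he := P.he
  have hh : h0 ≤ 86603 / 100000 := Four.Low.h0_hi
  have hl : 86602 / 100000 ≤ h0 := Four.Low.h0_lo
  have b0 := A.h.b0
  have b1 := A.h.b1
  have r1 := A.h.r1
  have r2 := A.h.r2
  have k0 := A.k3
  have k4 := A.k4
  have kb := A.k2
  have hp := A.p_eq
  have hq := A.q_eq
  have q0 := A.h.q_ge
  have gE : g (ext r) = 1 - (1 / 2 + 1 / 2 * ph b - h0 * b) := by
    rw [hx, A.gp]
    unfold Four.Low.ph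
    ring
  have gR : g r = 1 - (1 / 2 + 1 / 2 * ph b + h0 * b) := by
    rw [hr, A.gq]
    unfold Four.Low.ph
    ring
  have pE : ext r = h0 - b / 2 - k := by rw [hx]; exact hp
  have pR : r = h0 + b / 2 - k := by rw [hr]; exact hq
  have gph : ∀ z, g z = 1 - ph z := fun z => by
    unfold Four.Low.ph
    ring
  -- the first probe
  have n1x : 1 - 1 / 2 - 1 / 2 * ph b + h0 * b + ph (y - b / 2 - k) - ph (1 - h0) ≤
      nv (p2 s e) r y y := by
    have h := np_x (x := y) P r1 r2 h1 h2
    rw [gE, show y + ext r - h0 = y - b / 2 - k by linear_combination pE, gph, gph (1 - h0)] at h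
    linear_combination h
  have n1e : 1 - ph (s + 1 - y) + ph (s + 1 - h0) - ph (1 - h0) ≤ nv (p2 s e) r y y := by
    have h := np_e (x := y) (r := r) P h1 h2
    rw [gph, gph (s + 1 - h0), gph (1 - h0)] at h
    linear_combination h
  have G1 := gn_eq (p2 s e) r y y
  have o11 : nv (p2 s e) r y y - 1 / 2 - 1 / 2 * ph b - h0 * b + ph (y + b / 2 - k + h0 - 1) ≤
      gn (p2 s e) r y y := by
    have h := op_1 (x := y) P r1 h1 h2
    rw [gR, show y + r - 1 = y + b / 2 - k + h0 - 1 by linear_combination pR, gph] at h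
    linear_combination h - G1
  have o1y : nv (p2 s e) r y y - ph (h0 + s - y) + ph (h0 + s - 1) ≤ gn (p2 s e) r y y := by
    have h := op_y (x := y) (r := r) P h1 h2
    rw [he, gph, gph (h0 + s - y)] at h
    rw [he]
    rw [he] at G1
    linear_combination h - G1
  -- its mirror image
  have n2h : 1 - 1 / 2 - 1 / 2 * ph b + h0 * b + ph (y - b / 2 - k) - ph (h0 + s - 1) ≤
      nv (p3 s e) r y y := by
    have h := nr_h (x := y) P r1 r2 h1 h2
    rw [gE, show y + ext r - h0 = y - b / 2 - k by linear_combination pE, gph, gph e] at h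
    rw [he] at h
    rw [he]
    linear_combination h
  have n2v : 1 - 1 / 2 - 1 / 2 * ph b + h0 * b + ph (y - b / 2 - k - s) - ph (1 - h0) ≤
      nv (p3 s e) r y y := by
    have h := nr_v (x := y) P r1 r2 h1 h2 (by rw [hr]; linear_combination h1 + q0)
    rw [gE, show y + ext r - (h0 + s) = y - b / 2 - k - s by linear_combination pE, gph, gph (1 - h0)] at h
    linear_combination h
  have n2e : 2 * h0 - 1 ≤ y → 3 / 2 - ph (2 * h0 - y) - ph (h0 + s - 1) ≤
      nv (p3 s e) r y y := by
    intro h3
    have h := nr_e (x := y) (r := r) P h3 h2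
    rw [gph, g_h0, gph e] at h
    rw [he] at h
    rw [he]
    linear_combination h
  have G2 := gn_eq (p3 s e) r y y
  have o2m : nv (p3 s e) r y y - 1 / 2 - 1 / 2 * ph b - h0 * b + ph (y + b / 2 - k - h0 - s + 1) ≤
      gn (p3 s e) r y y := by
    have h := or_m (x := y) P r1 h1 h2
    rw [gR, show y + r - (2 * h0 + s - 1) = y + b / 2 - k - h0 - s + 1 by linear_combination pR,
      gph] at h
    linear_combination h - G2
  have o2y : 2 * h0 - 1 ≤ y → nv (p3 s e) r y y - ph (h0 + s - y) + ph (1 - h0) ≤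
      gn (p3 s e) r y y := by
    intro h3
    have h := or_y (x := y) (r := r) P h3 h2
    rw [gph, gph (h0 + s - y)] at h
    linear_combination h - G2
  have o2l : y ≤ 2 * h0 - 1 → nv (p3 s e) r y y - 1 / 2 - 1 / 2 * ph b - h0 * b +
      ph (y + b / 2 - k - h0 + 1) - ph (1 + s - h0) + ph (1 - h0) ≤ gn (p3 s e) r y y := by
    intro h3
    have h := or_l (x := y) P r1 h1 h3
    rw [gR, show y + r - (2 * h0 - 1) = y + b / 2 - k - h0 + 1 by linear_combination pR, gph,
      gph (1 + s - h0), gph (1 - h0)] at h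
    linear_combination h - G2
  -- the second probe
  have n3x : 1 - 1 / 2 - 1 / 2 * ph b + h0 * b + ph (y - b / 2 - k) - ph (1 - h0) ≤
      nv (q2 s e) r y y := by
    have h := nq_x (x := y) P r1 r2 h1 h2
    rw [gE, show y + ext r - h0 = y - b / 2 - k by linear_combination pE, gph, gph (1 - h0)] at h
    linear_combination h
  have n3e : 4 / 5 ≤ y → 1 - ph (9 / 5 - y) + ph (9 / 5 - h0) - ph (1 - h0) ≤
      nv (q2 s e) r y y := by
    intro h3
    have h := nq_e (x := y) (r := r) P h3 h2
    rw [gph, gph (9 / 5 - h0), gph (1 - h0)] at h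
    linear_combination h
  have G3 := gn_eq (q2 s e) r y y
  have o3h : nv (q2 s e) r y y - 1 / 2 - 1 / 2 * ph b - h0 * b + ph (y + b / 2 - k) - ph (1 - h0) ≤
      gn (q2 s e) r y y := by
    have h := oq_h (x := y) P r1 h1 h2
    rw [gR, show y + r - h0 = y + b / 2 - k by linear_combination pR, gph, gph (1 - h0)] at h
    linear_combination h - G3
  -- its mirror image
  have G4 := gn_eq (q3 s e) r y y
  have c4y : nv (q3 s e) r y y - ph (h0 + s - y) + ph (1 - h0) ≤ gn (q3 s e) r y y := by
    have h := ot_y (x := y) (r := r) P h1 h2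
    rw [gph, gph (h0 + s - y)] at h
    linear_combination h - G4
  have c4m : nv (q3 s e) r y y - 1 / 2 - 1 / 2 * ph b - h0 * b + ph (y + b / 2 - k - h0 - s + 1) ≤
      gn (q3 s e) r y y := by
    have h := ot_m (x := y) P r1 h1 h2
    rw [gR, show y + r - (2 * h0 + s - 1) = y + b / 2 - k - h0 - s + 1 by linear_combination pR,
      gph] at h
    linear_combination h - G4
  have wa : 381 / 200 - 2 * s ≤ wg s r y := by
    unfold wg
    linear_combination (le_max_left 0 (g (y + r - (h0 + 1)) - g r))
  have wb : 381 / 200 - 2 * s + (1 / 2 + 1 / 2 * ph b + h0 * b) - ph (y + b / 2 - k - 1) ≤ wg s r y := by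
    unfold wg
    have h := le_max_right 0 (g (y + r - (h0 + 1)) - g r)
    rw [gR, show y + r - (h0 + 1) = y + b / 2 - k - 1 by linear_combination pR, gph] at h
    rw [gR, show y + r - (h0 + 1) = y + b / 2 - k - 1 by linear_combination pR, gph]
    linear_combination h
  have hrhs : 4 * (1 + g s - 2 * g y) = 8 * ph y - 4 * ph s := by
    unfold Four.Low.ph
    ring
  rw [hrhs]
  unfold mid
  -- the wing
  have key : ∀ M, M ≤ nv (q3 s e) r y y → 381 / 200 - 2 * s ≤ M →
      381 / 200 - 2 * s + (1 / 2 + 1 / 2 * ph b + h0 * b) - ph (y + b / 2 - k - 1) ≤ M →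
      8 * ph y - 4 * ph s ≤ gn (p2 s e) r y y + gn (p3 s e) r y y + gn (q2 s e) r y y +
        gn (q3 s e) r y y := by
    intro M m0 m1 m2
    rcases le_total y (2 * h0 - 1) with hy | hy
    · have R : RgB11 s y b k (nv (p2 s e) r y y) (nv (p3 s e) r y y) (nv (q2 s e) r y y)
          M (gn (p2 s e) r y y) (gn (p3 s e) r y y) (gn (q2 s e) r y y)
          (gn (q3 s e) r y y) := {
        k1 := A.k1, k2 := A.k2, h1 := hl, h2 := hh, h3 := A.h3, k3 := k0, k4 := k4, hq := A.hq,
        ys := h1, yh := h2, yt := hy, n1x := n1x, n1e := n1e, o11 := o11, o1y := o1y, n2h := n2h,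
        n2v := n2v, o2m := o2m, o2l := o2l hy, n3x := n3x, o3h := o3h,
        n4a := m1, n4b := m2, o4y := by linear_combination c4y + m0,
        o4m := by linear_combination c4m + m0,
        s1 := hs, s2 := s2, y1 := by linear_combination hs + h1, y2 := by linear_combination hy + 2 * hh, b1 := b0, b2 := b1 }
      have := mb11_0 R hs s2 R.y1 R.y2 b0 b1
      unfold fBoxMB11 at this
      linear_combination this
    · rcases le_total y (4 / 5) with hy3 | hy3
      · have R : RgB12 s y b k (nv (p2 s e) r y y) (nv (p3 s e) r y y) (nv (q2 s e) r y y)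
            M (gn (p2 s e) r y y) (gn (p3 s e) r y y) (gn (q2 s e) r y y)
            (gn (q3 s e) r y y) := {
          k1 := A.k1, k2 := A.k2, h1 := hl, h2 := hh, h3 := A.h3, k3 := k0, k4 := k4, hq := A.hq,
          ys := h1, yh := h2, yt := hy, n1x := n1x, n1e := n1e, o11 := o11, o1y := o1y, n2h := n2h,
          n2v := n2v, n2e := n2e hy, o2m := o2m, o2y := o2y hy, n3x := n3x, o3h := o3h,
          n4a := m1, n4b := m2, o4y := by linear_combination c4y + m0,
          o4m := by linear_combination c4m + m0,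
          s1 := hs, s2 := s2, y1 := by linear_combination hy + 2 * hl, y2 := by linear_combination hy3, b1 := b0, b2 := b1 }
        have := mb12_0 R hs s2 R.y1 R.y2 b0 b1
        unfold fBoxMB12 at this
        linear_combination this
      · have hy2 := hy
        have R : RgB13 s y b k (nv (p2 s e) r y y) (nv (p3 s e) r y y) (nv (q2 s e) r y y)
            M (gn (p2 s e) r y y) (gn (p3 s e) r y y) (gn (q2 s e) r y y)
            (gn (q3 s e) r y y) := {
          k1 := A.k1, k2 := A.k2, h1 := hl, h2 := hh, h3 := A.h3, k3 := k0, k4 := k4, hq := A.hq,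
          ys := h1, yh := h2, n1x := n1x, n1e := n1e, o11 := o11, o1y := o1y, n2h := n2h,
          n2v := n2v, n2e := n2e hy2, o2m := o2m, o2y := o2y hy2, n3x := n3x, n3e := n3e hy3, o3h := o3h,
          n4a := m1, n4b := m2, o4y := by linear_combination c4y + m0,
          o4m := by linear_combination c4m + m0,
          s1 := hs, s2 := s2, y1 := by linear_combination hy3, y2 := by linear_combination h2 + hh, b1 := b0, b2 := b1 }
        have := mb13_0 R hs s2 R.y1 R.y2 b0 b1
        unfold fBoxMB13 at this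
        linear_combination this
  rcases le_total (wg s r y) (g (ext r) - g (y + ext r - (2 * h0 + s - 1)) + 1) with hw | hw
  · exact key _ (nt_x P r1 r2 h1 h2 (by rw [hr]; linear_combination h1 + hh + (1 / 2) * b0 + k4 - hq) le_rfl hw) wa wb
  rcases le_total (wg s r y) (g (ext r) - g (y + ext r - (h0 + s)) + g (1 - h0)) with hw' | hw'
  · exact key _ (nt_v P r1 r2 h1 h2 (by rw [hr]; linear_combination h1 + q0) le_rfl hw') wa wb
  rcases le_total (wg s r y) (g (h0 + s - y) - g (1 - h0) + 1) with hw2 | hw2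
  · exact key _ (nt_e P r1 r2 h1 h2 le_rfl hw2) wa wb
  have n4x : 1 - 1 / 2 - 1 / 2 * ph b + h0 * b + ph (y - b / 2 - k - h0 - s + 1) ≤
      nv (q3 s e) r y y := by
    have h := nt_x (x := y) P r1 r2 h1 h2 (by rw [hr]; linear_combination h1 + hh + (1 / 2) * b0 + k4 - hq) hw le_rfl
    rw [gE, show y + ext r - (2 * h0 + s - 1) = y - b / 2 - k - h0 - s + 1 by linear_combination pE,
      gph] at h
    linear_combination h
  have n4v : 1 - 1 / 2 - 1 / 2 * ph b + h0 * b + ph (y - b / 2 - k - s) - ph (1 - h0) ≤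
      nv (q3 s e) r y y := by
    have h := nt_v (x := y) P r1 r2 h1 h2 (by rw [hr]; linear_combination h1 + q0) hw' le_rfl
    rw [gE, show y + ext r - (h0 + s) = y - b / 2 - k - s by linear_combination pE, gph,
      gph (1 - h0)] at h
    linear_combination h
  have n4e : 1 - ph (h0 + s - y) + ph (1 - h0) ≤ nv (q3 s e) r y y := by
    have h := nt_e (x := y) P r1 r2 h1 h2 hw2 le_rfl
    rw [gph, gph (1 - h0)] at h
    linear_combination h
  rcases le_total y (2 * h0 - 1) with hy | hy
  · rcases le_total ((y - s) + b) (1 / 100) with hc | hc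
    · have := mc1 s1 s2 h1 b0 hc k0 kb
      have := o2l hy
      linear_combination n1x + o1y + n2h + n3x + o3h + c4y + n4x + this + (‹0 ≤   1 + 2 * (h0 * b) - 3 * ph b + 3 * ph (y - b / 2 - k) + ph (y + b / 2 - k) + 4 * ph s - 8 * ph y +         (ph (y + b / 2 - k - h0 + 1) - ph (1 + s - h0)) +       (ph (y - b / 2 - k - h0 - s + 1) - ph (1 - h0)) -     2 * ph (h0 + s - y)›)
    · have R : RgA11 s y b k (nv (p2 s e) r y y) (nv (p3 s e) r y y) (nv (q2 s e) r y y)
          (nv (q3 s e) r y y) (gn (p2 s e) r y y) (gn (p3 s e) r y y) (gn (q2 s e) r y y)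
          (gn (q3 s e) r y y) := {
        k1 := A.k1, k2 := A.k2, h1 := hl, h2 := hh, h3 := A.h3, k3 := k0, k4 := k4, hq := A.hq,
        ys := h1, yh := h2, yt := hy, x0 := hc, n1x := n1x, n1e := n1e, o11 := o11, o1y := o1y, n2h := n2h,
        n2v := n2v, o2m := o2m, o2l := o2l hy, n3x := n3x, o3h := o3h,
        n4x := n4x, n4v := n4v, n4e := n4e, o4y := c4y, o4m := c4m,
        s1 := hs, s2 := s2, y1 := by linear_combination hs + h1, y2 := by linear_combination hy + 2 * hh, b1 := b0, b2 := b1 }
      have := ma11_0 R hs s2 R.y1 R.y2 b0 b1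
      unfold fBoxMA11 at this
      linear_combination this
  rcases le_total y (4 / 5) with hy3 | hy3
  · have R : RgA12 s y b k (nv (p2 s e) r y y) (nv (p3 s e) r y y) (nv (q2 s e) r y y)
        (nv (q3 s e) r y y) (gn (p2 s e) r y y) (gn (p3 s e) r y y) (gn (q2 s e) r y y)
        (gn (q3 s e) r y y) := {
      k1 := A.k1, k2 := A.k2, h1 := hl, h2 := hh, h3 := A.h3, k3 := k0, k4 := k4, hq := A.hq,
      ys := h1, yh := h2, yt := hy, n1x := n1x, n1e := n1e, o11 := o11, o1y := o1y, n2h := n2h,
      n2v := n2v, n2e := n2e hy, o2m := o2m, o2y := o2y hy, n3x := n3x, o3h := o3h,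
      n4x := n4x, n4v := n4v, n4e := n4e, o4y := c4y, o4m := c4m,
      s1 := hs, s2 := s2, y1 := by linear_combination hy + 2 * hl, y2 := by linear_combination hy3, b1 := b0, b2 := b1 }
    have := ma12_0 R hs s2 R.y1 R.y2 b0 b1
    unfold fBoxMA12 at this
    linear_combination this
  have hy2 := hy
  have n3e' := n3e hy3
  have o2y' := o2y hy
  have n2e' := n2e hy
  rcases le_total y (h0 - 1 / 500) with ht | ht
  · have R : RgA13 s y b k (nv (p2 s e) r y y) (nv (p3 s e) r y y) (nv (q2 s e) r y y)
        (nv (q3 s e) r y y) (gn (p2 s e) r y y) (gn (p3 s e) r y y) (gn (q2 s e) r y y)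
        (gn (q3 s e) r y y) := {
      k1 := A.k1, k2 := A.k2, h1 := hl, h2 := hh, h3 := A.h3, k3 := k0, k4 := k4, hq := A.hq,
      ys := h1, yh := h2, x0 := ht, n1x := n1x, n1e := n1e, o11 := o11, o1y := o1y, n2h := n2h,
      n2v := n2v, n2e := n2e hy2, o2m := o2m, o2y := o2y hy2, n3x := n3x, n3e := n3e hy3, o3h := o3h,
      n4x := n4x, n4v := n4v, n4e := n4e, o4y := c4y, o4m := c4m,
      s1 := hs, s2 := s2, y1 := by linear_combination hy3, y2 := by linear_combination h2 + hh, b1 := b0, b2 := b1 }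
    have := ma13_0 R hs s2 R.y1 R.y2 b0 b1
    unfold fBoxMA13 at this
    linear_combination this
  rcases le_total (h0 - b / 2 - k) (s - 1 / 1000) with hu | hu
  · have b3 : 3 / 10 ≤ b := by
      by_contra hcon
      push Not at hcon
      have := Four.Low.ph_hi2 (x := b) (by linear_combination (1 / 2) * hcon + (mul_nonneg (sub_nonneg.mpr b0) (sub_nonneg.mpr b1)))
      exact absurd hl (not_le.mpr (by linear_combination s2 + kb + hu + (12732930871 / 20000000000) * hcon + (86603 / 100000) * this + (910976957 / 2000000000) * (mul_nonneg (sub_nonneg.mpr b0) (sub_nonneg.mpr (le_of_lt hcon)))))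
    have R : RgA1T s y b k (nv (p2 s e) r y y) (nv (p3 s e) r y y) (nv (q2 s e) r y y)
        (nv (q3 s e) r y y) (gn (p2 s e) r y y) (gn (p3 s e) r y y) (gn (q2 s e) r y y)
        (gn (q3 s e) r y y) := {
      k1 := A.k1, k2 := A.k2, h1 := hl, h2 := hh, h3 := A.h3, k3 := k0, k4 := k4, hq := A.hq,
      ys := h1, yh := h2, x0 := ht, x1 := hu, n1x := n1x, n1e := n1e, o11 := o11, o1y := o1y, n2h := n2h,
      n2v := n2v, n2e := n2e hy2, o2m := o2m, o2y := o2y hy2, n3x := n3x, n3e := n3e hy3, o3h := o3h,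
      n4x := n4x, n4v := n4v, n4e := n4e, o4y := c4y, o4m := c4m,
      s1 := hs, s2 := s2, y1 := by linear_combination hl + ht, y2 := by linear_combination h2 + hh, b1 := b3, b2 := b1 }
    have := ma1t_0 R hs s2 R.y1 R.y2 b3 b1
    unfold fBoxMA1T at this
    linear_combination this
  · obtain ⟨u, hu0⟩ : ∃ u, u = h0 - y := ⟨_, rfl⟩
    have m := mt1 A hs s2 (u := u) (by linear_combination h2 - hu0) (by linear_combination ht + hu0) hu
    have e1 : ph p = 1 / 2 + 1 / 2 * ph b - h0 * b := by
      rw [hx] at gE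
      have := gph p
      linear_combination -gE + this
    have e2 : ph q = 1 / 2 + 1 / 2 * ph b + h0 * b := by
      rw [hr] at gR
      have := gph q
      linear_combination -gR + this
    rw [e1, e2, show h0 - u = y by linear_combination -hu0, show s + u = h0 + s - y by linear_combination hu0,
      show p - u = y - b / 2 - k by linear_combination hp - hu0, show q - u = y + b / 2 - k by linear_combination hq - hu0] at m
    linear_combination n1x + o1y + n2h + n3x + o3h + c4y + n4e + o2y' + m

/-- The exit is the upper virtual side. -/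
theorem mid_2 (P : Par s e w) (hs : 3 / 5 ≤ s) (A : Ak r p q b k) (hr : r = p)
    (hx : ext r = q) (h1 : s ≤ y) (h2 : y ≤ h0) :
    4 * (1 + g s - 2 * g y) ≤ mid s e r y y := by
  have s1 := P.s0
  have s2 := P.s1
  have he := P.he
  have hh : h0 ≤ 86603 / 100000 := Four.Low.h0_hi
  have hl : 86602 / 100000 ≤ h0 := Four.Low.h0_lo
  have b0 := A.h.b0
  have b1 := A.h.b1
  have r1 := A.h.r1
  have r2 := A.h.r2
  have k0 := A.k3
  have k4 := A.k4
  have kb := A.k2
  have hp := A.p_eq
  have hq := A.q_eq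
  have q0 := A.h.q_ge
  have gE : g (ext r) = 1 - (1 / 2 + 1 / 2 * ph b + h0 * b) := by
    rw [hx, A.gq]
    unfold Four.Low.ph
    ring
  have gR : g r = 1 - (1 / 2 + 1 / 2 * ph b - h0 * b) := by
    rw [hr, A.gp]
    unfold Four.Low.ph
    ring
  have pE : ext r = h0 + b / 2 - k := by rw [hx]; exact hq
  have pR : r = h0 - b / 2 - k := by rw [hr]; exact hp
  have gph : ∀ z, g z = 1 - ph z := fun z => by
    unfold Four.Low.ph
    ring
  -- the first probe
  have n1x : 1 - 1 / 2 - 1 / 2 * ph b - h0 * b + ph (y + b / 2 - k) - ph (1 - h0) ≤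
      nv (p2 s e) r y y := by
    have h := np_x (x := y) P r1 r2 h1 h2
    rw [gE, show y + ext r - h0 = y + b / 2 - k by linear_combination pE, gph, gph (1 - h0)] at h
    linear_combination h
  have n1e : 1 - ph (s + 1 - y) + ph (s + 1 - h0) - ph (1 - h0) ≤ nv (p2 s e) r y y := by
    have h := np_e (x := y) (r := r) P h1 h2
    rw [gph, gph (s + 1 - h0), gph (1 - h0)] at h
    linear_combination h
  have G1 := gn_eq (p2 s e) r y y
  have o11 : nv (p2 s e) r y y - 1 / 2 - 1 / 2 * ph b + h0 * b + ph (y - b / 2 - k + h0 - 1) ≤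
      gn (p2 s e) r y y := by
    have h := op_1 (x := y) P r1 h1 h2
    rw [gR, show y + r - 1 = y - b / 2 - k + h0 - 1 by linear_combination pR, gph] at h
    linear_combination h - G1
  have o1y : nv (p2 s e) r y y - ph (h0 + s - y) + ph (h0 + s - 1) ≤ gn (p2 s e) r y y := by
    have h := op_y (x := y) (r := r) P h1 h2
    rw [he, gph, gph (h0 + s - y)] at h
    rw [he]
    rw [he] at G1
    linear_combination h - G1
  -- its mirror image
  have n2h : 1 - 1 / 2 - 1 / 2 * ph b - h0 * b + ph (y + b / 2 - k) - ph (h0 + s - 1) ≤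
      nv (p3 s e) r y y := by
    have h := nr_h (x := y) P r1 r2 h1 h2
    rw [gE, show y + ext r - h0 = y + b / 2 - k by linear_combination pE, gph, gph e] at h
    rw [he] at h
    rw [he]
    linear_combination h
  have n2e : 2 * h0 - 1 ≤ y → 3 / 2 - ph (2 * h0 - y) - ph (h0 + s - 1) ≤
      nv (p3 s e) r y y := by
    intro h3
    have h := nr_e (x := y) (r := r) P h3 h2
    rw [gph, g_h0, gph e] at h
    rw [he] at h
    rw [he]
    linear_combination h
  have G2 := gn_eq (p3 s e) r y y
  have o2m : nv (p3 s e) r y y - 1 / 2 - 1 / 2 * ph b + h0 * b + ph (y - b / 2 - k - h0 - s + 1) ≤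
      gn (p3 s e) r y y := by
    have h := or_m (x := y) P r1 h1 h2
    rw [gR, show y + r - (2 * h0 + s - 1) = y - b / 2 - k - h0 - s + 1 by linear_combination pR,
      gph] at h
    linear_combination h - G2
  have o2y : 2 * h0 - 1 ≤ y → nv (p3 s e) r y y - ph (h0 + s - y) + ph (1 - h0) ≤
      gn (p3 s e) r y y := by
    intro h3
    have h := or_y (x := y) (r := r) P h3 h2
    rw [gph, gph (h0 + s - y)] at h
    linear_combination h - G2
  have o2l : y ≤ 2 * h0 - 1 → nv (p3 s e) r y y - 1 / 2 - 1 / 2 * ph b + h0 * b +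
      ph (y - b / 2 - k - h0 + 1) - ph (1 + s - h0) + ph (1 - h0) ≤ gn (p3 s e) r y y := by
    intro h3
    have h := or_l (x := y) P r1 h1 h3
    rw [gR, show y + r - (2 * h0 - 1) = y - b / 2 - k - h0 + 1 by linear_combination pR, gph,
      gph (1 + s - h0), gph (1 - h0)] at h
    linear_combination h - G2
  -- the second probe
  have n3x : 1 - 1 / 2 - 1 / 2 * ph b - h0 * b + ph (y + b / 2 - k) - ph (1 - h0) ≤
      nv (q2 s e) r y y := by
    have h := nq_x (x := y) P r1 r2 h1 h2
    rw [gE, show y + ext r - h0 = y + b / 2 - k by linear_combination pE, gph, gph (1 - h0)] at h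
    linear_combination h
  have n3e : 4 / 5 ≤ y → 1 - ph (9 / 5 - y) + ph (9 / 5 - h0) - ph (1 - h0) ≤
      nv (q2 s e) r y y := by
    intro h3
    have h := nq_e (x := y) (r := r) P h3 h2
    rw [gph, gph (9 / 5 - h0), gph (1 - h0)] at h
    linear_combination h
  have G3 := gn_eq (q2 s e) r y y
  have o3h : nv (q2 s e) r y y - 1 / 2 - 1 / 2 * ph b + h0 * b + ph (y - b / 2 - k) - ph (1 - h0) ≤
      gn (q2 s e) r y y := by
    have h := oq_h (x := y) P r1 h1 h2
    rw [gR, show y + r - h0 = y - b / 2 - k by linear_combination pR, gph, gph (1 - h0)] at h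
    linear_combination h - G3
  -- its mirror image
  have G4 := gn_eq (q3 s e) r y y
  have c4y : nv (q3 s e) r y y - ph (h0 + s - y) + ph (1 - h0) ≤ gn (q3 s e) r y y := by
    have h := ot_y (x := y) (r := r) P h1 h2
    rw [gph, gph (h0 + s - y)] at h
    linear_combination h - G4
  have c4m : nv (q3 s e) r y y - 1 / 2 - 1 / 2 * ph b + h0 * b + ph (y - b / 2 - k - h0 - s + 1) ≤
      gn (q3 s e) r y y := by
    have h := ot_m (x := y) P r1 h1 h2
    rw [gR, show y + r - (2 * h0 + s - 1) = y - b / 2 - k - h0 - s + 1 by linear_combination pR,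
      gph] at h
    linear_combination h - G4
  have c4v : nv (q3 s e) r y y - 1 / 2 - 1 / 2 * ph b + h0 * b + ph (y - b / 2 - k - s) -
      ph (1 - h0) ≤ gn (q3 s e) r y y := by
    have h := ot_v (x := y) P r1 h1 h2
    rw [gR, show y + r - (h0 + s) = y - b / 2 - k - s by linear_combination pR, gph, gph (1 - h0)] at h
    linear_combination h - G4
  have wa : 381 / 200 - 2 * s ≤ wg s r y := by
    unfold wg
    linear_combination (le_max_left 0 (g (y + r - (h0 + 1)) - g r))
  have wb : 381 / 200 - 2 * s + (1 / 2 + 1 / 2 * ph b - h0 * b) - ph (y - b / 2 - k - 1) ≤ wg s r y := by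
    unfold wg
    have h := le_max_right 0 (g (y + r - (h0 + 1)) - g r)
    rw [gR, show y + r - (h0 + 1) = y - b / 2 - k - 1 by linear_combination pR, gph] at h
    rw [gR, show y + r - (h0 + 1) = y - b / 2 - k - 1 by linear_combination pR, gph]
    linear_combination h
  have hrhs : 4 * (1 + g s - 2 * g y) = 8 * ph y - 4 * ph s := by
    unfold Four.Low.ph
    ring
  rw [hrhs]
  unfold mid
  -- the wing
  have key : ∀ M, M ≤ nv (q3 s e) r y y → 381 / 200 - 2 * s ≤ M →
      381 / 200 - 2 * s + (1 / 2 + 1 / 2 * ph b - h0 * b) - ph (y - b / 2 - k - 1) ≤ M →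
      8 * ph y - 4 * ph s ≤ gn (p2 s e) r y y + gn (p3 s e) r y y + gn (q2 s e) r y y +
        gn (q3 s e) r y y := by
    intro M m0 m1 m2
    rcases le_total y (2 * h0 - 1) with hy | hy
    · have R : RgB21 s y b k (nv (p2 s e) r y y) (nv (p3 s e) r y y) (nv (q2 s e) r y y)
          M (gn (p2 s e) r y y) (gn (p3 s e) r y y) (gn (q2 s e) r y y)
          (gn (q3 s e) r y y) := {
        k1 := A.k1, k2 := A.k2, h1 := hl, h2 := hh, h3 := A.h3, k3 := k0, k4 := k4, hq := A.hq,
        ys := h1, yh := h2, yt := hy, n1x := n1x, n1e := n1e, o11 := o11, o1y := o1y, n2h := n2h,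
        o2m := o2m, o2l := o2l hy, n3x := n3x, o3h := o3h,
        n4a := m1, n4b := m2, o4y := by linear_combination c4y + m0,
        o4m := by linear_combination c4m + m0, o4v := by linear_combination c4v + m0,
        s1 := hs, s2 := s2, y1 := by linear_combination hs + h1, y2 := by linear_combination hy + 2 * hh, b1 := b0, b2 := b1 }
      have := mb21_0 R hs s2 R.y1 R.y2 b0 b1
      unfold fBoxMB21 at this
      linear_combination this
    · rcases le_total y (4 / 5) with hy3 | hy3
      · have R : RgB22 s y b k (nv (p2 s e) r y y) (nv (p3 s e) r y y) (nv (q2 s e) r y y)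
            M (gn (p2 s e) r y y) (gn (p3 s e) r y y) (gn (q2 s e) r y y)
            (gn (q3 s e) r y y) := {
          k1 := A.k1, k2 := A.k2, h1 := hl, h2 := hh, h3 := A.h3, k3 := k0, k4 := k4, hq := A.hq,
          ys := h1, yh := h2, yt := hy, n1x := n1x, n1e := n1e, o11 := o11, o1y := o1y, n2h := n2h,
          n2e := n2e hy, o2m := o2m, o2y := o2y hy, n3x := n3x, o3h := o3h,
          n4a := m1, n4b := m2, o4y := by linear_combination c4y + m0,
          o4m := by linear_combination c4m + m0, o4v := by linear_combination c4v + m0,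
          s1 := hs, s2 := s2, y1 := by linear_combination hy + 2 * hl, y2 := by linear_combination hy3, b1 := b0, b2 := b1 }
        have := mb22_0 R hs s2 R.y1 R.y2 b0 b1
        unfold fBoxMB22 at this
        linear_combination this
      · have hy2 := hy
        have R : RgB23 s y b k (nv (p2 s e) r y y) (nv (p3 s e) r y y) (nv (q2 s e) r y y)
            M (gn (p2 s e) r y y) (gn (p3 s e) r y y) (gn (q2 s e) r y y)
            (gn (q3 s e) r y y) := {
          k1 := A.k1, k2 := A.k2, h1 := hl, h2 := hh, h3 := A.h3, k3 := k0, k4 := k4, hq := A.hq,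
          ys := h1, yh := h2, n1x := n1x, n1e := n1e, o11 := o11, o1y := o1y, n2h := n2h,
          n2e := n2e hy2, o2m := o2m, o2y := o2y hy2, n3x := n3x, n3e := n3e hy3, o3h := o3h,
          n4a := m1, n4b := m2, o4y := by linear_combination c4y + m0,
          o4m := by linear_combination c4m + m0, o4v := by linear_combination c4v + m0,
          s1 := hs, s2 := s2, y1 := by linear_combination hy3, y2 := by linear_combination h2 + hh, b1 := b0, b2 := b1 }
        have := mb23_0 R hs s2 R.y1 R.y2 b0 b1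
        unfold fBoxMB23 at this
        linear_combination this
  rcases le_total (wg s r y) (g (h0 + s - y) - g (1 - h0) + 1) with hw2 | hw2
  · exact key _ (nt_e P r1 r2 h1 h2 le_rfl hw2) wa wb
  have n4e : 1 - ph (h0 + s - y) + ph (1 - h0) ≤ nv (q3 s e) r y y := by
    have h := nt_e (x := y) P r1 r2 h1 h2 hw2 le_rfl
    rw [gph, gph (1 - h0)] at h
    linear_combination h
  rcases le_total y (2 * h0 - 1) with hy | hy
  · rcases le_total ((y - s) + b) (1 / 100) with hc | hc
    · have := mc2 s1 s2 h1 b0 hc k0 kb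
      have := o2l hy
      linear_combination n1x + o11 + n2h + o2m + n3x + o3h + c4y + n4e + (‹0 ≤   1 - 2 * ph (h0 + s - y) - 3 * ph b + 3 * ph (y + b / 2 - k) + ph (y - b / 2 - k) + 4 * ph s - 8 * ph y +       (ph (y - b / 2 - k + h0 - 1) - ph (h0 + s - 1)) +     (ph (y - b / 2 - k - h0 - s + 1) - ph (1 - h0))›)
    · have R : RgA21 s y b k (nv (p2 s e) r y y) (nv (p3 s e) r y y) (nv (q2 s e) r y y)
          (nv (q3 s e) r y y) (gn (p2 s e) r y y) (gn (p3 s e) r y y) (gn (q2 s e) r y y)
          (gn (q3 s e) r y y) := {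
        k1 := A.k1, k2 := A.k2, h1 := hl, h2 := hh, h3 := A.h3, k3 := k0, k4 := k4, hq := A.hq,
        ys := h1, yh := h2, yt := hy, x0 := hc, n1x := n1x, n1e := n1e, o11 := o11, o1y := o1y, n2h := n2h,
        o2m := o2m, o2l := o2l hy, n3x := n3x, o3h := o3h,
        n4e := n4e, o4y := c4y, o4m := c4m, o4v := c4v,
        s1 := hs, s2 := s2, y1 := by linear_combination hs + h1, y2 := by linear_combination hy + 2 * hh, b1 := b0, b2 := b1 }
      have := ma21_0 R hs s2 R.y1 R.y2 b0 b1
      unfold fBoxMA21 at this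
      linear_combination this
  rcases le_total y (4 / 5) with hy3 | hy3
  · have R : RgA22 s y b k (nv (p2 s e) r y y) (nv (p3 s e) r y y) (nv (q2 s e) r y y)
        (nv (q3 s e) r y y) (gn (p2 s e) r y y) (gn (p3 s e) r y y) (gn (q2 s e) r y y)
        (gn (q3 s e) r y y) := {
      k1 := A.k1, k2 := A.k2, h1 := hl, h2 := hh, h3 := A.h3, k3 := k0, k4 := k4, hq := A.hq,
      ys := h1, yh := h2, yt := hy, n1x := n1x, n1e := n1e, o11 := o11, o1y := o1y, n2h := n2h,
      n2e := n2e hy, o2m := o2m, o2y := o2y hy, n3x := n3x, o3h := o3h,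
      n4e := n4e, o4y := c4y, o4m := c4m, o4v := c4v,
      s1 := hs, s2 := s2, y1 := by linear_combination hy + 2 * hl, y2 := by linear_combination hy3, b1 := b0, b2 := b1 }
    have := ma22_0 R hs s2 R.y1 R.y2 b0 b1
    unfold fBoxMA22 at this
    linear_combination this
  have hy2 := hy
  have n3e' := n3e hy3
  have o2y' := o2y hy
  have n2e' := n2e hy
  rcases le_total y (h0 - 1 / 100) with ht | ht
  · have R : RgA23 s y b k (nv (p2 s e) r y y) (nv (p3 s e) r y y) (nv (q2 s e) r y y)
        (nv (q3 s e) r y y) (gn (p2 s e) r y y) (gn (p3 s e) r y y) (gn (q2 s e) r y y)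
        (gn (q3 s e) r y y) := {
      k1 := A.k1, k2 := A.k2, h1 := hl, h2 := hh, h3 := A.h3, k3 := k0, k4 := k4, hq := A.hq,
      ys := h1, yh := h2, x0 := ht, n1x := n1x, n1e := n1e, o11 := o11, o1y := o1y, n2h := n2h,
      n2e := n2e hy2, o2m := o2m, o2y := o2y hy2, n3x := n3x, n3e := n3e hy3, o3h := o3h,
      n4e := n4e, o4y := c4y, o4m := c4m, o4v := c4v,
      s1 := hs, s2 := s2, y1 := by linear_combination hy3, y2 := by linear_combination h2 + hh, b1 := b0, b2 := b1 }
    have := ma23_0 R hs s2 R.y1 R.y2 b0 b1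
    unfold fBoxMA23 at this
    linear_combination this
  · obtain ⟨u, hu0⟩ : ∃ u, u = h0 - y := ⟨_, rfl⟩
    have m := mt2 s1 s2 (u := u) (p := p) (by linear_combination h2 - hu0) (by linear_combination ht + hu0) A.h.p1 (by linear_combination (1 / 2) * b0 + k0 + hp)
    have e1 : ph p = 1 / 2 + 1 / 2 * ph b - h0 * b := by
      rw [hr] at gR
      have := gph p
      linear_combination -gR + this
    rw [e1, show h0 - u = y by linear_combination -hu0, show h0 + u = 2 * h0 - y by linear_combination hu0,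
      show s + 1 - h0 + u = s + 1 - y by linear_combination hu0,
      show 9 / 5 - h0 + u = 9 / 5 - y by linear_combination hu0, show s + u = h0 + s - y by linear_combination hu0,
      show p - u = y - b / 2 - k by linear_combination hp - hu0] at m
    linear_combination n1e + o1y + o3h + c4y + n4e + n3e' + o2y' + n2e' + m

end

end Pool.Agent.Strip051.FourF.MB

namespace Pool.Agent.Strip051.FourF

open MB

theorem midB {s e w : ℝ} (P : Par s e w) (hs : 3 / 5 ≤ s) : MidB s e := by
  intro y r h1 h2 r1 r2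
  obtain ⟨p, q, b, k, A⟩ := ak_exists r1 r2
  rcases A.h.two with ⟨e1, e2⟩ | ⟨e1, e2⟩
  · exact mid_1 P hs A e1 e2 h1 h2
  · exact mid_2 P hs A e1 e2 h1 h2

end Pool.Agent.Strip051.FourF
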