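import Pool.Agent.Strip051.FourF.HighMidA
import Pool.Agent.Strip051.FourF.Low
import Pool.Agent.Strip051.FourF.MidB

/-! # The gains of the middle probes when the new point is above the height one

The new front is above the unit disc of the new point. The four middle probes touch this disc at the
corners of their bodies. -/

namespace Pool.Agent.Strip051.FourF.HM

open Pool.Agent.StripNear Pool.Agent.StripSquare Pool.Agent.Strip051
open Pool.Agent.Strip051.Four (gn mirP mirP_ok j1 arc_sub gn_nonneg ext_facts g_le_of_abs)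
open Pool.Agent.Strip051.FourF.MB (nv ov gn_eq nv_ge ov_le ov_up ov_at pt_exit p3_a p3_lo p3_hi
  q3_a q3_lo q3_hi)
open Pool.Agent.Strip051.Four.Low (ph ph_neg ph_nonneg ph_mono ph_abs ph_zero h0_hi h0_lo)

section

variable {s e w y r x z : ℝ}

/-! ### The bodies and the unit disc -/

theorem body_p (P : Par s e w) (h1 : h0 ≤ y) (h2 : y ≤ h0 + s) (z1 : s ≤ z) (z2 : z ≤ s + 1) :
    bp s e z + g (1 - y) ≤ g (z - y) := by
  have := P.s0
  have := P.s1
  have he := P.he
  have := h0_lt
  have := h0_gt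
  rcases le_total z 1 with h | h
  · have e1 := arc_sub (a := y) (b := h0 + s) (x := z) (y := 1) h2 h (by linear_combination z1 + (‹h0 < 0.8661›)) (by linear_combination h1 + this)
    have e2 := bp_le1 (s := s) (e := e) (z := z)
    rw [show 1 - (h0 + s) = -e by linear_combination he, g_neg] at e1
    linear_combination e1 + e2
  · have e1 := arc_sub (a := h0) (b := y) (x := 1) (y := z) h1 h (by linear_combination h2 + (‹s ≤ 67 / 100›) + (‹h0 < 0.8661›)) (by linear_combination z2 + this + (‹s ≤ 67 / 100›))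
    have e2 := bp_le2 (s := s) (e := e) (z := z)
    linear_combination e1 + e2

theorem body_q2 (P : Par s e w) (h1 : 1 ≤ y) (h2 : y ≤ h0 + s) (z1 : h0 ≤ z)
    (z2 : z ≤ 9 / 5) : bq s e z + (1 - g (1 - h0) + g (y - h0)) ≤ g (z - y) := by
  have := P.s1
  have := h0_lt
  have := h0_gt
  have e0 : ∀ u : ℝ, h0 ≤ u → u ≤ y → g (u - 1) - g (u - y) ≤ g (1 - h0) - g (y - h0) := by
    intro u u1 u2
    have e1 := arc_sub (a := 1) (b := y) (x := h0) (y := u) h1 u1 (by linear_combination h2 + (‹s ≤ 67 / 100›)) (by linear_combination h2 + u2 + (‹s ≤ 67 / 100›) + (‹h0 < 0.8661›))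
    rw [show h0 - 1 = -(1 - h0) by ring, show h0 - y = -(y - h0) by ring, g_neg, g_neg] at e1
    exact e1
  rcases le_total z 1 with h | h
  · have e1 := e0 z z1 (by linear_combination h1 + h)
    have e2 := bq_main_le1 P z1
    linear_combination e1 + e2
  · have e1 := arc_sub (a := h0) (b := y) (x := 1) (y := z) (by linear_combination h1 + (‹h0 < 0.8661›)) h (by linear_combination h2 + (‹s ≤ 67 / 100›) + (‹h0 < 0.8661›))
      (by linear_combination z2 + this)
    have e2 := bq_main_le2 P z1
    have e3 := e0 1 (by linear_combination (‹h0 < 0.8661›)) h1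
    rw [sub_self, g_zero] at e3
    linear_combination e1 + e2 + e3

/-- The wing of the second middle probe. -/
theorem body_w (P : Par s e w) (h1 : h0 ≤ y) (h2 : y ≤ 2 * h0 + s - 1) (h3 : y ≤ e + h0)
    (z1 : 2 * h0 + s - 2 ≤ z) (z2 : z ≤ e) : bq s e z + 1 ≤ g (z - y) := by
  have := P.s0
  have := P.s1
  have he := P.he
  have := h0_lt
  have := h0_gt
  rw [bq_wing z2]
  have e1 := arc_sub (a := y) (b := 2 * h0 + s - 1) (x := z) (y := e) h2 z2 (by linear_combination z1)
    (by linear_combination h1 + he + (‹s ≤ 67 / 100›))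
  rw [show e - (2 * h0 + s - 1) = -h0 by rw [he]; ring, g_neg, g_h0] at e1
  have e2 : g h0 ≤ g (e - y) := g_le_of_abs (by linear_combination h1 + he + this + (‹s ≤ 67 / 100›)) (by linear_combination h3)
  rw [g_h0] at e2
  linear_combination e1 + e2 + 2 * (‹s ≤ 67 / 100›)

/-! ### The new values -/

theorem nv_p2 (P : Par s e w) (h1 : h0 ≤ y) (h2 : y ≤ h0 + s) :
    g (1 - y) ≤ nv (p2 s e) r x y := by
  apply nv_ge (p2_ok P)
  intro z z1 z2
  simp only [p2] at z1 z2 ⊢
  right
  exact body_p P h1 h2 z1 z2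

theorem nv_p3 (P : Par s e w) (h1 : h0 ≤ y) (h2 : y ≤ h0 + s) :
    g (2 * h0 + s - 1 - y) ≤ nv (p3 s e) r x y := by
  apply nv_ge (p3_ok P)
  intro z z1 z2
  rw [p3_lo] at z1
  rw [p3_hi] at z2
  right
  rw [p3_a]
  have := body_p P (y := 2 * h0 + s - y) (z := 2 * h0 + s - z) (by linear_combination h2) (by linear_combination h1)
    (by linear_combination z2) (by linear_combination z1)
  rw [show 2 * h0 + s - z - (2 * h0 + s - y) = -(z - y) by ring, g_neg,
    show 1 - (2 * h0 + s - y) = -(2 * h0 + s - 1 - y) by ring, g_neg] at this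
  exact this

theorem nv_q2 (P : Par s e w) (h1 : h0 ≤ y) (h2 : y ≤ h0 + s / 2) {v : ℝ} (hv : v ≤ 1)
    (h : ∀ z, h0 ≤ z → z ≤ 9 / 5 → bq s e z + v ≤ g (z - y)) : v ≤ nv (q2 s e) r x y := by
  have := P.s0
  have := P.s1
  have he := P.he
  have := h0_lt
  have := h0_gt
  apply nv_ge (q2_ok P)
  intro z z1 z2
  simp only [q2] at z1 z2 ⊢
  right
  rcases le_or_gt z e with k1 | k1
  · have := body_w P h1 (by linear_combination h2 + this + (1 / 2) * (‹57 / 100 ≤ s›)) (by linear_combination h2 - he + this + (1 / 2) * (‹57 / 100 ≤ s›)) z1 k1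
    linear_combination hv + this
  · rcases lt_or_ge z h0 with k2 | k2
    · rw [bq_gap k1 k2]
      have := g_nonneg (z - y)
      linear_combination hv + this
    · exact h z k2 z2

/-- The second mirror probe, the new point above the height one. -/
theorem nv_q3 (P : Par s e w) (h1 : 1 ≤ y) (h2 : y ≤ h0 + s / 2) :
    1 - g (1 - h0) + g (h0 + s - y) ≤ nv (q3 s e) r x y := by
  have := P.s0
  have := P.s1
  have he := P.he
  have := h0_lt
  have := h0_gt
  have hv : 1 - g (1 - h0) + g (h0 + s - y) ≤ 1 := by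
    have : g (h0 + s - y) ≤ g (1 - h0) := g_anti (by linear_combination (‹h0 < 0.8661›)) (by linear_combination h1 + 2 * h2)
    linear_combination this
  apply nv_ge (q3_ok P)
  intro z z1 z2
  rw [q3_lo] at z1
  rw [q3_hi] at z2
  right
  rw [q3_a]
  have e0 : g (2 * h0 + s - z - (2 * h0 + s - y)) = g (z - y) := by
    rw [show 2 * h0 + s - z - (2 * h0 + s - y) = -(z - y) by ring, g_neg]
  rcases le_or_gt (2 * h0 + s - z) e with k1 | k1
  · have := body_w P (y := 2 * h0 + s - y) (z := 2 * h0 + s - z) (by linear_combination h1 + 2 * h2 + he + z2 + k1) (by linear_combination h1)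
      (by linear_combination h1 - he) (by linear_combination z2) k1
    rw [e0] at this
    linear_combination hv + this
  · rcases lt_or_ge (2 * h0 + s - z) h0 with k2 | k2
    · rw [bq_gap k1 k2]
      have := g_nonneg (z - y)
      linear_combination hv + this
    · have := body_q2 P (y := 2 * h0 + s - y) (z := 2 * h0 + s - z) (by linear_combination h1 + 2 * h2) (by linear_combination h1 + (‹h0 < 0.8661›))
        k2 (by linear_combination z1)
      rw [e0, show 2 * h0 + s - y - h0 = h0 + s - y by ring] at this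
      exact this

/-! ### The old values -/

theorem ov_p2y' (P : Par s e w) (h1 : 1 ≤ y) (h2 : y ≤ s + 1) :
    ov (p2 s e) r x y ≤ g (1 - h0) - g (y - h0) := by
  have := P.s0
  have := P.s1
  have := ov_at (q := x) (r := r) (y := y) (β := g (y - h0) - g (1 - h0)) (p2_ok P)
    (by simp only [p2]; linear_combination h1 + this) (by simp only [p2]; linear_combination h2)
    (by
      simp only [p2]
      rw [bp_eq2 P h1 h2])
  linear_combination this

theorem ov_p3y (P : Par s e w) (h1 : h0 ≤ y) (h2 : y ≤ h0 + s / 2) :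
    ov (p3 s e) r x y ≤ g (1 - h0) - g (h0 + s - y) := by
  have := P.s0
  have := P.s1
  have := h0_lt
  have := h0_gt
  have := ov_at (q := x) (r := r) (y := y) (β := g (h0 + s - y) - g (1 - h0)) (p3_ok P)
    (by rw [p3_lo]; linear_combination h1 + (‹h0 < 0.8661›)) (by rw [p3_hi]; linear_combination h2 + this + (1 / 2) * (‹s ≤ 67 / 100›))
    (by
      rw [p3_a, bp_eq2 P (by linear_combination h2 + this + (1 / 2) * (‹57 / 100 ≤ s›)) (by linear_combination h1 + (‹h0 < 0.8661›)),
        show 2 * h0 + s - y - h0 = h0 + s - y by ring])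
  linear_combination this

theorem ov_q2y' (P : Par s e w) (h1 : 1 ≤ y) (h2 : y ≤ 9 / 5) :
    ov (q2 s e) r x y ≤ g (1 - h0) - g (y - h0) := by
  have := P.s0
  have := P.s1
  have := h0_lt
  have := ov_at (q := x) (r := r) (y := y) (β := g (y - h0) - g (1 - h0)) (q2_ok P)
    (by simp only [q2]; linear_combination h1 + 2 * this + (‹s ≤ 67 / 100›)) (by simp only [q2]; linear_combination h2)
    (by
      simp only [q2]
      rw [bq_eq2 P h1 h2])
  linear_combination this

theorem ov_q3y (P : Par s e w) (h1 : h0 ≤ y) (h2 : y ≤ h0 + s / 2) :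
    ov (q3 s e) r x y ≤ g (1 - h0) - g (h0 + s - y) := by
  have := P.s0
  have := P.s1
  have := h0_lt
  have := h0_gt
  have := ov_at (q := x) (r := r) (y := y) (β := g (h0 + s - y) - g (1 - h0)) (q3_ok P)
    (by rw [q3_lo]; linear_combination h1 + (‹s ≤ 67 / 100›) + (‹h0 < 0.8661›)) (by rw [q3_hi]; linear_combination h2 + (1 / 2) * (‹s ≤ 67 / 100›) + (‹h0 < 0.8661›))
    (by
      rw [q3_a, bq_eq2 P (by linear_combination h2 + this + (1 / 2) * (‹57 / 100 ≤ s›)) (by linear_combination h1 + (‹s ≤ 67 / 100›) + (‹h0 < 0.8661›)),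
        show 2 * h0 + s - y - h0 = h0 + s - y by ring])
  linear_combination this

/-- The new point above the height one. -/
theorem mid_top (P : Par s e w) (h1 : 1 ≤ y) (h2 : y ≤ h0 + s / 2) :
    hsT s e (y - h0) ≤ mid s e r x y := by
  have := P.s0
  have := P.s1
  have he := P.he
  have := h0_lt
  have := h0_gt
  have a1 := nv_p2 (r := r) (x := x) P (by linear_combination h1 + (‹h0 < 0.8661›)) (show y ≤ h0 + s by linear_combination h2 + (1 / 2) * (‹57 / 100 ≤ s›))
  have a2 := nv_p3 (r := r) (x := x) P (by linear_combination h1 + (‹h0 < 0.8661›)) (show y ≤ h0 + s by linear_combination h2 + (1 / 2) * (‹57 / 100 ≤ s›))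
  have a3 : 1 - g (1 - h0) + g (y - h0) ≤ nv (q2 s e) r x y := by
    apply nv_q2 P (by linear_combination h1 + (‹h0 < 0.8661›)) h2
    · have : g (y - h0) ≤ g (1 - h0) := g_anti (by linear_combination (‹h0 < 0.8661›)) (by linear_combination h1)
      linear_combination this
    · intro z z1 z2
      exact body_q2 P h1 (by linear_combination h2 + (1 / 2) * (‹57 / 100 ≤ s›)) z1 z2
  have a4 := nv_q3 (r := r) (x := x) P h1 h2
  have b1 := ov_p2y' (r := r) (x := x) P h1 (by linear_combination h2 + (1 / 2) * (‹57 / 100 ≤ s›) + (‹h0 < 0.8661›))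
  have b2 := ov_p3y (r := r) (x := x) P (by linear_combination h1 + (‹h0 < 0.8661›)) h2
  have b3 := ov_q2y' (r := r) (x := x) P h1 (by linear_combination h2 + (1 / 2) * (‹s ≤ 67 / 100›) + (‹h0 < 0.8661›))
  have b4 := ov_q3y (r := r) (x := x) P (by linear_combination h1 + (‹h0 < 0.8661›)) h2
  unfold mid hsT
  rw [gn_eq, gn_eq, gn_eq, gn_eq]
  unfold Four.Low.ph
  rw [show s - (y - h0) = h0 + s - y by ring, show y - h0 + h0 - 1 = -(1 - y) by ring, g_neg,
    show e - (y - h0) = 2 * h0 + s - 1 - y by linear_combination he]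
  linear_combination a1 + a2 + a3 + a4 + b1 + b2 + b3 + b4

end

end Pool.Agent.Strip051.FourF.HM

namespace Pool.Agent.Strip051.FourF

/-- The new point is above `h0`. -/
theorem highC {s e w : ℝ} (P : Par s e w) (hs : 3 / 5 ≤ s) : HighC s e w := by
  intro y r q y0 y1 r1 r2 q1 q2 hq hc
  rcases le_total y 1 with h | h
  · obtain ⟨d, d1, d2, d3, hm⟩ := MB.mid_highA (q := q) P r1 r2 y0 h
    exact hs_low P hs y0 h q1 q2 hq hc (fun k => (d1 k).trans (by linear_combination (1 / 2) * y0)) d2 d3 hm
  · exact hs_top P hs h y1 q1 q2 hq hc (HM.mid_top P h y1)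

/-- At most two rows for `3 / 5 ≤ s ≤ 67 / 100`. -/
theorem countBound {s : ℝ} (h1 : 3 / 5 ≤ s) (h2 : s ≤ 67 / 100) : CountBound 2 s := by
  obtain ⟨e, w, P⟩ := par_exists (by linear_combination h1) h2
  exact count P (lowE P h1) (lowA P h1) (midB P h1) (highC P h1)

end Pool.Agent.Strip051.FourF
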