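import Pool.Agent.Strip051.FourB.Box

/-! # The new point above `h0`: the boxes

Written by the box generator of helper29. `hf`: the wall probe with the end `e`, `hg`: the wall probe
with the end `T`, `ht`: the new point above the height one. -/

namespace Pool.Agent.Strip051.FourF

set_option linter.unusedVariables false

open Pool.Agent.StripNear Pool.Agent.StripSquare Pool.Agent.Strip051
open Pool.Agent.Strip051.Four.Low (ph)
open Pool.Agent.Strip051.FourB (lo up)

/-- The function of the boxes `hf1a`. -/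
noncomputable def Uhf1a (s b k : ℝ) : ℝ :=
  17087 / 10000 * ph (h0 + s - 1) + 17087 / 10000 * ph (h0 + s - 1 - b) -
    17087 / 10000 * ph (b) + 2 * ph (s) - 4 * ph (s - b / 2 + k) + 3 * ph (1 - h0) - 3 * ph (1 -
    h0 - b / 2 + k) + ph (h0 + s - 1) - ph (h0 + s - 1 - b / 2 + k) - 3 / 2 * (b / 2 - k)

/-- The region of the boxes `hf1a`. -/
structure Reghf1a (s b k : ℝ) : Prop where
  k1 : 86602 / 100000 * ph (b) ≤ k
  k2 : k ≤ 86603 / 100000 * ph (b)
  h1 : 86602 / 100000 ≤ h0
  h2 : h0 ≤ 86603 / 100000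
  k3 : 0 ≤ k
  k4 : k ≤ 1161 / 10000
  bt : b ≤ h0 + s - 1
  s1 : 3 / 5 ≤ s
  s2 : s ≤ 31 / 50
  b1 : 1 / 20 ≤ b
  b2 : b ≤ 14 / 125

theorem Reghf1a.lo2 {s b k : ℝ} (R : Reghf1a s b k) (w0 : ℝ) (hw0 : w0 ^ 2 < 1) :
    2 * w0 * (1 - h0) - 2 * w0 ^ 2 ≤ (1 - w0 ^ 2) * ph (1 - h0) :=
  lo hw0 (by linear_combination R.h2) (by linear_combination R.h1)

theorem Reghf1a.lo3 {s b k : ℝ} (R : Reghf1a s b k) (w0 : ℝ) (hw0 : w0 ^ 2 < 1) :
    2 * w0 * (b) - 2 * w0 ^ 2 ≤ (1 - w0 ^ 2) * ph (b) :=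
  lo hw0 (by linear_combination R.b1) (by linear_combination R.b2)

theorem Reghf1a.lo5 {s b k : ℝ} (R : Reghf1a s b k) (w0 : ℝ) (hw0 : w0 ^ 2 < 1) :
    2 * w0 * (h0 + s - 1 - b) - 2 * w0 ^ 2 ≤ (1 - w0 ^ 2) * ph (h0 + s - 1 - b) :=
  lo hw0 (by linear_combination R.h1 + R.s1 + R.b2) (by linear_combination R.h2 + R.s2 + R.b1)

theorem Reghf1a.lo6 {s b k : ℝ} (R : Reghf1a s b k) (w0 : ℝ) (hw0 : w0 ^ 2 < 1) :
    2 * w0 * (h0 + s - 1) - 2 * w0 ^ 2 ≤ (1 - w0 ^ 2) * ph (h0 + s - 1) :=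
  lo hw0 (by linear_combination R.h1 + R.s1) (by linear_combination R.h2 + R.s2)

theorem Reghf1a.lo8 {s b k : ℝ} (R : Reghf1a s b k) (w0 : ℝ) (hw0 : w0 ^ 2 < 1) :
    2 * w0 * (s) - 2 * w0 ^ 2 ≤ (1 - w0 ^ 2) * ph (s) :=
  lo hw0 (by linear_combination R.s1) (by linear_combination R.s2)

theorem hf1a0 {s b k : ℝ} (R : Reghf1a s b k)
    (s1 : 3 / 5 ≤ s) (s2 : s ≤ 31 / 50) (b1 : 1 / 20 ≤ b) (b2 : b ≤ 14 / 125) :
    0 ≤ Uhf1a s b k := by
  have e1 := R.lo2 (67 / 1000) (by norm_num)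
  have e2 := up (t1 := (25 / 1000)) (t2 := (57 / 1000)) (x := b) (by norm_num)
    (by linear_combination (1601 / 1600) * b1) (by linear_combination (1003249 / 1000000) * b2)
  have e3 := R.lo5 (206 / 1000) (by norm_num)
  have e4 := R.lo5 (229 / 1000) (by norm_num)
  have e5 := R.lo6 (247 / 1000) (by norm_num)
  have e6 := R.lo8 (333 / 1000) (by norm_num)
  have e7 := R.lo3 (56 / 1000) (by norm_num)
  have e8 := up (t1 := (41 / 1000)) (t2 := (56 / 1000)) (x := 1 - h0 - b / 2 + k) (by norm_num)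
    (by linear_combination (1001681 / 1000000) * R.k1 + (1001681 / 1000000) * R.h2 + (1256601802733 / 3115200000000) * b2 +
      (43373788981 / 49843200000) * e7) (by linear_combination (15674 / 15625) * R.k2 + (15674 / 15625) * R.h1 + (167818790724 / 390068359375) * b1 +
      (2714830844 / 3120546875) * e2)
  have e9 := up (t1 := (217 / 1000)) (t2 := (245 / 1000)) (x := h0 + s - 1 - b / 2 + k) (by norm_num)
    (by linear_combination (1047089 / 1000000) * R.k1 + (1047089 / 1000000) * R.h1 + (1047089 / 1000000) * s1 +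
      (1313565820877 / 3115200000000) * b2 + (45340000789 / 49843200000) * e7) (by linear_combination (42401 / 40000) * R.k2 + (42401 / 40000) * R.h2 + (42401 / 40000) * s2 +
      (226990064613 / 499287500000) * b1 + (3672053803 / 3994300000) * e2)
  have e10 := up (t1 := (299 / 1000)) (t2 := (331 / 1000)) (x := s - b / 2 + k) (by norm_num)
    (by linear_combination (1089401 / 1000000) * R.k1 + (1089401 / 1000000) * s1 + (1366645928693 / 3115200000000) * b2 +
      (47172152701 / 49843200000) * e7) (by linear_combination (1109561 / 1000000) * R.k2 + (1109561 / 1000000) * s2 + (5939938281693 / 12482187500000) * b1 +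
      (96091311283 / 99857500000) * e2)
  unfold Uhf1a
  linear_combination (29456220638519249 / 14186148428598534) * R.k2 + (28970095607518050903743655629515438 / 18391628461306863842778722709943125) * R.h1 +
    (165143585992432612538196103859 / 424914897585318362513232523125) * s1 + (1000000 / 331837) * e1 +
    (4974984257952314025727 / 1416593316708778108905) * e2 + (40890874108567003144723814 / 27470734996874037174342305) * e3 +
    (24643159679543374672788868 / 82412204990622111523026915) * e4 + (902900 / 312997) * e5 +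
    (2000000 / 889111) * e6 + (125000 / 41571) * e8 + (200000 / 189367) * e9 + (4000000 / 901031) * e10

/-- The function of the boxes `hf1b`. -/
noncomputable def Uhf1b (s b k : ℝ) : ℝ :=
  16847 / 10000 * ph (h0 + s - 1) + 16847 / 10000 * ph (h0 + s - 1 - b) -
    16847 / 10000 * ph (b) + 2 * ph (s) - 4 * ph (s - b / 2 + k) + 3 * ph (1 - h0) - 3 * ph (1 -
    h0 - b / 2 + k) + ph (h0 + s - 1) - ph (h0 + s - 1 - b / 2 + k) - 3 / 2 * (b / 2 - k)

/-- The region of the boxes `hf1b`. -/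
structure Reghf1b (s b k : ℝ) : Prop where
  k1 : 86602 / 100000 * ph (b) ≤ k
  k2 : k ≤ 86603 / 100000 * ph (b)
  h1 : 86602 / 100000 ≤ h0
  h2 : h0 ≤ 86603 / 100000
  k3 : 0 ≤ k
  k4 : k ≤ 1161 / 10000
  bt : b ≤ h0 + s - 1
  s1 : 31 / 50 ≤ s
  s2 : s ≤ 16 / 25
  b1 : 1 / 20 ≤ b
  b2 : b ≤ 14 / 125

theorem Reghf1b.lo2 {s b k : ℝ} (R : Reghf1b s b k) (w0 : ℝ) (hw0 : w0 ^ 2 < 1) :
    2 * w0 * (1 - h0) - 2 * w0 ^ 2 ≤ (1 - w0 ^ 2) * ph (1 - h0) :=
  lo hw0 (by linear_combination R.h2) (by linear_combination R.h1)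

theorem Reghf1b.lo3 {s b k : ℝ} (R : Reghf1b s b k) (w0 : ℝ) (hw0 : w0 ^ 2 < 1) :
    2 * w0 * (b) - 2 * w0 ^ 2 ≤ (1 - w0 ^ 2) * ph (b) :=
  lo hw0 (by linear_combination R.b1) (by linear_combination R.b2)

theorem Reghf1b.lo5 {s b k : ℝ} (R : Reghf1b s b k) (w0 : ℝ) (hw0 : w0 ^ 2 < 1) :
    2 * w0 * (h0 + s - 1 - b) - 2 * w0 ^ 2 ≤ (1 - w0 ^ 2) * ph (h0 + s - 1 - b) :=
  lo hw0 (by linear_combination R.h1 + R.s1 + R.b2) (by linear_combination R.h2 + R.s2 + R.b1)

theorem Reghf1b.lo6 {s b k : ℝ} (R : Reghf1b s b k) (w0 : ℝ) (hw0 : w0 ^ 2 < 1) :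
    2 * w0 * (h0 + s - 1) - 2 * w0 ^ 2 ≤ (1 - w0 ^ 2) * ph (h0 + s - 1) :=
  lo hw0 (by linear_combination R.h1 + R.s1) (by linear_combination R.h2 + R.s2)

theorem Reghf1b.lo8 {s b k : ℝ} (R : Reghf1b s b k) (w0 : ℝ) (hw0 : w0 ^ 2 < 1) :
    2 * w0 * (s) - 2 * w0 ^ 2 ≤ (1 - w0 ^ 2) * ph (s) :=
  lo hw0 (by linear_combination R.s1) (by linear_combination R.s2)

theorem hf1b0 {s b k : ℝ} (R : Reghf1b s b k)
    (s1 : 31 / 50 ≤ s) (s2 : s ≤ 16 / 25) (b1 : 1 / 20 ≤ b) (b2 : b ≤ 14 / 125) :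
    0 ≤ Uhf1b s b k := by
  have e1 := R.lo2 (67 / 1000) (by norm_num)
  have e2 := up (t1 := (25 / 1000)) (t2 := (57 / 1000)) (x := b) (by norm_num)
    (by linear_combination (1601 / 1600) * b1) (by linear_combination (1003249 / 1000000) * b2)
  have e3 := R.lo5 (217 / 1000) (by norm_num)
  have e4 := R.lo5 (241 / 1000) (by norm_num)
  have e5 := R.lo6 (259 / 1000) (by norm_num)
  have e6 := R.lo8 (347 / 1000) (by norm_num)
  have e7 := R.lo3 (56 / 1000) (by norm_num)
  have e8 := up (t1 := (41 / 1000)) (t2 := (56 / 1000)) (x := 1 - h0 - b / 2 + k) (by norm_num)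
    (by linear_combination (1001681 / 1000000) * R.k1 + (1001681 / 1000000) * R.h2 + (1256601802733 / 3115200000000) * b2 +
      (43373788981 / 49843200000) * e7) (by linear_combination (15674 / 15625) * R.k2 + (15674 / 15625) * R.h1 + (167818790724 / 390068359375) * b1 +
      (2714830844 / 3120546875) * e2)
  have e9 := up (t1 := (229 / 1000)) (t2 := (257 / 1000)) (x := h0 + s - 1 - b / 2 + k) (by norm_num)
    (by linear_combination (1052441 / 1000000) * R.k1 + (1052441 / 1000000) * R.h1 + (1052441 / 1000000) * s1 +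
      (1320279867413 / 3115200000000) * b2 + (45571747741 / 49843200000) * e7) (by linear_combination (1066049 / 1000000) * R.k2 + (1066049 / 1000000) * R.h2 + (1066049 / 1000000) * s2 +
      (5707000575237 / 12482187500000) * b1 + (92323041547 / 99857500000) * e2)
  have e10 := up (t1 := (312 / 1000)) (t2 := (345 / 1000)) (x := s - b / 2 + k) (by norm_num)
    (by linear_combination (17146 / 15625) * R.k1 + (17146 / 15625) * s1 + (10754768489 / 24337500000) * b2 +
      (371219473 / 389400000) * e7) (by linear_combination (44761 / 40000) * R.k2 + (44761 / 40000) * s2 + (239624119293 / 499287500000) * b1 +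
      (3876436883 / 3994300000) * e2)
  unfold Uhf1b
  linear_combination (3933063060509951 / 1745653457985066) * R.k2 + (200011007632200510705221303900882 / 118343014024270080066652131125625) * R.h1 +
    (5056716793575721556209112893663 / 11618092511575768513290228130625) * s1 + (1000000 / 331837) * e1 +
    (634705298296087355473 / 174316590180743728095) * e2 + (77848231024946514548788397 / 122288549931617388562122810) * e3 +
    (139966477367568767999592107 / 122288549931617388562122810) * e4 + (47100 / 16367) * e5 +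
    (2000000 / 879591) * e6 + (125000 / 41571) * e8 + (1000000 / 941147) * e9 + (100000 / 22309) * e10

/-- The function of the boxes `hf1c`. -/
noncomputable def Uhf1c (s b k : ℝ) : ℝ :=
  16536 / 10000 * ph (h0 + s - 1) + 16536 / 10000 * ph (h0 + s - 1 - b) -
    16536 / 10000 * ph (b) + 2 * ph (s) - 4 * ph (s - b / 2 + k) + 3 * ph (1 - h0) - 3 * ph (1 -
    h0 - b / 2 + k) + ph (h0 + s - 1) - ph (h0 + s - 1 - b / 2 + k) - 3 / 2 * (b / 2 - k)

/-- The region of the boxes `hf1c`. -/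
structure Reghf1c (s b k : ℝ) : Prop where
  k1 : 86602 / 100000 * ph (b) ≤ k
  k2 : k ≤ 86603 / 100000 * ph (b)
  h1 : 86602 / 100000 ≤ h0
  h2 : h0 ≤ 86603 / 100000
  k3 : 0 ≤ k
  k4 : k ≤ 1161 / 10000
  bt : b ≤ h0 + s - 1
  s1 : 16 / 25 ≤ s
  s2 : s ≤ 67 / 100
  b1 : 1 / 20 ≤ b
  b2 : b ≤ 14 / 125

theorem Reghf1c.lo2 {s b k : ℝ} (R : Reghf1c s b k) (w0 : ℝ) (hw0 : w0 ^ 2 < 1) :
    2 * w0 * (1 - h0) - 2 * w0 ^ 2 ≤ (1 - w0 ^ 2) * ph (1 - h0) :=
  lo hw0 (by linear_combination R.h2) (by linear_combination R.h1)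

theorem Reghf1c.lo3 {s b k : ℝ} (R : Reghf1c s b k) (w0 : ℝ) (hw0 : w0 ^ 2 < 1) :
    2 * w0 * (b) - 2 * w0 ^ 2 ≤ (1 - w0 ^ 2) * ph (b) :=
  lo hw0 (by linear_combination R.b1) (by linear_combination R.b2)

theorem Reghf1c.lo5 {s b k : ℝ} (R : Reghf1c s b k) (w0 : ℝ) (hw0 : w0 ^ 2 < 1) :
    2 * w0 * (h0 + s - 1 - b) - 2 * w0 ^ 2 ≤ (1 - w0 ^ 2) * ph (h0 + s - 1 - b) :=
  lo hw0 (by linear_combination R.h1 + R.s1 + R.b2) (by linear_combination R.h2 + R.s2 + R.b1)

theorem Reghf1c.lo6 {s b k : ℝ} (R : Reghf1c s b k) (w0 : ℝ) (hw0 : w0 ^ 2 < 1) :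
    2 * w0 * (h0 + s - 1) - 2 * w0 ^ 2 ≤ (1 - w0 ^ 2) * ph (h0 + s - 1) :=
  lo hw0 (by linear_combination R.h1 + R.s1) (by linear_combination R.h2 + R.s2)

theorem Reghf1c.lo8 {s b k : ℝ} (R : Reghf1c s b k) (w0 : ℝ) (hw0 : w0 ^ 2 < 1) :
    2 * w0 * (s) - 2 * w0 ^ 2 ≤ (1 - w0 ^ 2) * ph (s) :=
  lo hw0 (by linear_combination R.s1) (by linear_combination R.s2)

theorem hf1c0 {s b k : ℝ} (R : Reghf1c s b k)
    (s1 : 16 / 25 ≤ s) (s2 : s ≤ 67 / 100) (b1 : 1 / 20 ≤ b) (b2 : b ≤ 14 / 125) :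
    0 ≤ Uhf1c s b k := by
  have e1 := R.lo2 (67 / 1000) (by norm_num)
  have e2 := up (t1 := (25 / 1000)) (t2 := (57 / 1000)) (x := b) (by norm_num)
    (by linear_combination (1601 / 1600) * b1) (by linear_combination (1003249 / 1000000) * b2)
  have e3 := R.lo5 (232 / 1000) (by norm_num)
  have e4 := R.lo6 (272 / 1000) (by norm_num)
  have e5 := R.lo8 (362 / 1000) (by norm_num)
  have e6 := R.lo3 (56 / 1000) (by norm_num)
  have e7 := up (t1 := (41 / 1000)) (t2 := (56 / 1000)) (x := 1 - h0 - b / 2 + k) (by norm_num)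
    (by linear_combination (1001681 / 1000000) * R.k1 + (1001681 / 1000000) * R.h2 + (1256601802733 / 3115200000000) * b2 +
      (43373788981 / 49843200000) * e6) (by linear_combination (15674 / 15625) * R.k2 + (15674 / 15625) * R.h1 + (167818790724 / 390068359375) * b1 +
      (2714830844 / 3120546875) * e2)
  have e8 := up (t1 := (240 / 1000)) (t2 := (276 / 1000)) (x := h0 + s - 1 - b / 2 + k) (by norm_num)
    (by linear_combination (661 / 625) * R.k1 + (661 / 625) * R.h1 + (661 / 625) * s1 + (829219873 / 1947000000) * b2 +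
      (28621961 / 31152000) * e6) (by linear_combination (67261 / 62500) * R.k2 + (67261 / 62500) * R.h2 + (67261 / 62500) * s2 +
      (360075911793 / 780136718750) * b1 + (5825004383 / 6241093750) * e2)
  have e9 := up (t1 := (326 / 1000)) (t2 := (367 / 1000)) (x := s - b / 2 + k) (by norm_num)
    (by linear_combination (276569 / 250000) * R.k1 + (276569 / 250000) * s1 + (346953874517 / 778800000000) * b2 +
      (11975714269 / 12460800000) * e6) (by linear_combination (1134689 / 1000000) * R.k2 + (1134689 / 1000000) * s2 + (6074458843557 / 12482187500000) * b1 +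
      (98267471467 / 99857500000) * e2)
  unfold Uhf1c
  linear_combination (266229499319939 / 106791103535724) * R.k2 + (52963630836266401619 / 31062600576924396480) * R.h1 +
    (24033773501563903619 / 71774205175229036480) * s1 + (134115681007259428703161 / 1094826309122038757880000) * b1 +
    (1000000 / 331837) * e1 + (40715250210271997857 / 10663892621318559330) * e2 + (17225 / 9856) * e3 +
    (82925 / 28938) * e4 + (500000 / 217239) * e5 + (125000 / 41571) * e7 + (3125 / 2918) * e8 +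
    (2000000 / 440179) * e9

/-- The function of the boxes `hf2a`. -/
noncomputable def Uhf2a (s b k : ℝ) : ℝ :=
  16847 / 10000 * ph (h0 + s - 1) + 16847 / 10000 * ph (h0 + s - 1 - b) -
    16847 / 10000 * ph (b) + 2 * ph (s) - 4 * ph (s - b / 2 + k) + 3 * ph (1 - h0) - 3 * ph (1 -
    h0 - b / 2 + k) + ph (h0 + s - 1) - ph (h0 + s - 1 - b / 2 + k) - 1 / 20

/-- The region of the boxes `hf2a`. -/
structure Reghf2a (s b k : ℝ) : Prop where
  k1 : 86602 / 100000 * ph (b) ≤ k
  k2 : k ≤ 86603 / 100000 * ph (b)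
  h1 : 86602 / 100000 ≤ h0
  h2 : h0 ≤ 86603 / 100000
  k3 : 0 ≤ k
  k4 : k ≤ 1161 / 10000
  bt : b ≤ h0 + s - 1
  s1 : 3 / 5 ≤ s
  s2 : s ≤ 16 / 25
  b1 : 27 / 250 ≤ b
  b2 : b ≤ 61 / 200

theorem Reghf2a.lo2 {s b k : ℝ} (R : Reghf2a s b k) (w0 : ℝ) (hw0 : w0 ^ 2 < 1) :
    2 * w0 * (1 - h0) - 2 * w0 ^ 2 ≤ (1 - w0 ^ 2) * ph (1 - h0) :=
  lo hw0 (by linear_combination R.h2) (by linear_combination R.h1)

theorem Reghf2a.lo3 {s b k : ℝ} (R : Reghf2a s b k) (w0 : ℝ) (hw0 : w0 ^ 2 < 1) :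
    2 * w0 * (b) - 2 * w0 ^ 2 ≤ (1 - w0 ^ 2) * ph (b) :=
  lo hw0 (by linear_combination R.b1) (by linear_combination R.b2)

theorem Reghf2a.lo5 {s b k : ℝ} (R : Reghf2a s b k) (w0 : ℝ) (hw0 : w0 ^ 2 < 1) :
    2 * w0 * (h0 + s - 1 - b) - 2 * w0 ^ 2 ≤ (1 - w0 ^ 2) * ph (h0 + s - 1 - b) :=
  lo hw0 (by linear_combination R.h1 + R.s1 + R.b2) (by linear_combination R.h2 + R.s2 + R.b1)

theorem Reghf2a.lo6 {s b k : ℝ} (R : Reghf2a s b k) (w0 : ℝ) (hw0 : w0 ^ 2 < 1) :
    2 * w0 * (h0 + s - 1) - 2 * w0 ^ 2 ≤ (1 - w0 ^ 2) * ph (h0 + s - 1) :=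
  lo hw0 (by linear_combination R.h1 + R.s1) (by linear_combination R.h2 + R.s2)

theorem Reghf2a.lo8 {s b k : ℝ} (R : Reghf2a s b k) (w0 : ℝ) (hw0 : w0 ^ 2 < 1) :
    2 * w0 * (s) - 2 * w0 ^ 2 ≤ (1 - w0 ^ 2) * ph (s) :=
  lo hw0 (by linear_combination R.s1) (by linear_combination R.s2)

theorem hf2a0 {s b k : ℝ} (R : Reghf2a s b k)
    (s1 : 3 / 5 ≤ s) (s2 : s ≤ 16 / 25) (b1 : 27 / 250 ≤ b) (b2 : b ≤ 61 / 200) :
    0 ≤ Uhf2a s b k := by
  have e1 := R.lo2 (67 / 1000) (by norm_num)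
  have e2 := up (t1 := (54 / 1000)) (t2 := (157 / 1000)) (x := b) (by norm_num)
    (by linear_combination (250729 / 250000) * b1) (by linear_combination (1024649 / 1000000) * b2)
  have e3 := R.lo5 (143 / 1000) (by norm_num)
  have e4 := R.lo5 (208 / 1000) (by norm_num)
  have e5 := R.lo6 (247 / 1000) (by norm_num)
  have e6 := R.lo8 (333 / 1000) (by norm_num)
  have e7 := R.lo3 (156 / 1000) (by norm_num)
  have e8 := up (t1 := (11 / 1000)) (t2 := (43 / 1000)) (x := 1 - h0 - b / 2 + k) (by norm_num)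
    (by linear_combination (1000121 / 1000000) * R.k1 + (1000121 / 1000000) * R.h2 + (1360375585531 / 6097900000000) * b2 +
      (43306239421 / 48783200000) * e7) (by linear_combination (1001849 / 1000000) * R.k2 + (1001849 / 1000000) * R.h1 + (31360746001083 / 99152200000000) * b1 +
      (86763128947 / 99152200000) * e2)
  have e9 := up (t1 := (183 / 1000)) (t2 := (242 / 1000)) (x := h0 + s - 1 - b / 2 + k) (by norm_num)
    (by linear_combination (1033489 / 1000000) * R.k1 + (1033489 / 1000000) * R.h1 + (1033489 / 1000000) * s1 +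
      (1405763106179 / 6097900000000) * b2 + (44751107189 / 48783200000) * e7) (by linear_combination (264641 / 250000) * R.k2 + (264641 / 250000) * R.h2 + (264641 / 250000) * s2 +
      (8284022025747 / 24788050000000) * b1 + (22918704523 / 24788050000) * e2)
  have e10 := up (t1 := (261 / 1000)) (t2 := (328 / 1000)) (x := s - b / 2 + k) (by norm_num)
    (by linear_combination (1068121 / 1000000) * R.k1 + (1068121 / 1000000) * s1 + (1452869933531 / 6097900000000) * b2 +
      (46250707421 / 48783200000) * e7) (by linear_combination (17306 / 15625) * R.k2 + (17306 / 15625) * s2 + (270863708151 / 774626562500) * b1 +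
      (1498751518 / 1549253125) * e2)
  unfold Uhf2a
  linear_combination (173787580271814000 / 54592742655964061) * R.k2 + (77162268140666946906479287024131531 / 56221477072963430921020521961917380) * R.h1 +
    (64719310677705827100197101139119 / 120800010707133099222472575869620) * s1 + (1000000 / 331837) * e1 +
    (121238825847650865993350 / 27064952691863398845421) * e2 + (13924428918444898249320096880 / 22644352773843274321801851807) * e3 +
    (409881143330693453156061099745 / 362309644381492389148829628912) * e4 + (894900 / 312997) * e5 +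
    (2000000 / 889111) * e6 + (3000000 / 999527) * e8 + (500000 / 477857) * e9 + (500000 / 114299) * e10

/-- The function of the boxes `hf2b`. -/
noncomputable def Uhf2b (s b k : ℝ) : ℝ :=
  16536 / 10000 * ph (h0 + s - 1) + 16536 / 10000 * ph (h0 + s - 1 - b) -
    16536 / 10000 * ph (b) + 2 * ph (s) - 4 * ph (s - b / 2 + k) + 3 * ph (1 - h0) - 3 * ph (1 -
    h0 - b / 2 + k) + ph (h0 + s - 1) - ph (h0 + s - 1 - b / 2 + k) - 1 / 20

/-- The region of the boxes `hf2b`. -/
structure Reghf2b (s b k : ℝ) : Prop where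
  k1 : 86602 / 100000 * ph (b) ≤ k
  k2 : k ≤ 86603 / 100000 * ph (b)
  h1 : 86602 / 100000 ≤ h0
  h2 : h0 ≤ 86603 / 100000
  k3 : 0 ≤ k
  k4 : k ≤ 1161 / 10000
  bt : b ≤ h0 + s - 1
  s1 : 16 / 25 ≤ s
  s2 : s ≤ 67 / 100
  b1 : 27 / 250 ≤ b
  b2 : b ≤ 61 / 200

theorem Reghf2b.lo2 {s b k : ℝ} (R : Reghf2b s b k) (w0 : ℝ) (hw0 : w0 ^ 2 < 1) :
    2 * w0 * (1 - h0) - 2 * w0 ^ 2 ≤ (1 - w0 ^ 2) * ph (1 - h0) :=
  lo hw0 (by linear_combination R.h2) (by linear_combination R.h1)

theorem Reghf2b.lo3 {s b k : ℝ} (R : Reghf2b s b k) (w0 : ℝ) (hw0 : w0 ^ 2 < 1) :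
    2 * w0 * (b) - 2 * w0 ^ 2 ≤ (1 - w0 ^ 2) * ph (b) :=
  lo hw0 (by linear_combination R.b1) (by linear_combination R.b2)

theorem Reghf2b.lo5 {s b k : ℝ} (R : Reghf2b s b k) (w0 : ℝ) (hw0 : w0 ^ 2 < 1) :
    2 * w0 * (h0 + s - 1 - b) - 2 * w0 ^ 2 ≤ (1 - w0 ^ 2) * ph (h0 + s - 1 - b) :=
  lo hw0 (by linear_combination R.h1 + R.s1 + R.b2) (by linear_combination R.h2 + R.s2 + R.b1)

theorem Reghf2b.lo6 {s b k : ℝ} (R : Reghf2b s b k) (w0 : ℝ) (hw0 : w0 ^ 2 < 1) :
    2 * w0 * (h0 + s - 1) - 2 * w0 ^ 2 ≤ (1 - w0 ^ 2) * ph (h0 + s - 1) :=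
  lo hw0 (by linear_combination R.h1 + R.s1) (by linear_combination R.h2 + R.s2)

theorem Reghf2b.lo8 {s b k : ℝ} (R : Reghf2b s b k) (w0 : ℝ) (hw0 : w0 ^ 2 < 1) :
    2 * w0 * (s) - 2 * w0 ^ 2 ≤ (1 - w0 ^ 2) * ph (s) :=
  lo hw0 (by linear_combination R.s1) (by linear_combination R.s2)

theorem hf2b0 {s b k : ℝ} (R : Reghf2b s b k)
    (s1 : 16 / 25 ≤ s) (s2 : s ≤ 67 / 100) (b1 : 27 / 250 ≤ b) (b2 : b ≤ 61 / 200) :
    0 ≤ Uhf2b s b k := by
  have e1 := R.lo2 (67 / 1000) (by norm_num)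
  have e2 := up (t1 := (54 / 1000)) (t2 := (157 / 1000)) (x := b) (by norm_num)
    (by linear_combination (250729 / 250000) * b1) (by linear_combination (1024649 / 1000000) * b2)
  have e3 := R.lo5 (161 / 1000) (by norm_num)
  have e4 := R.lo5 (225 / 1000) (by norm_num)
  have e5 := R.lo6 (272 / 1000) (by norm_num)
  have e6 := R.lo8 (362 / 1000) (by norm_num)
  have e7 := R.lo3 (156 / 1000) (by norm_num)
  have e8 := up (t1 := (11 / 1000)) (t2 := (43 / 1000)) (x := 1 - h0 - b / 2 + k) (by norm_num)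
    (by linear_combination (1000121 / 1000000) * R.k1 + (1000121 / 1000000) * R.h2 + (1360375585531 / 6097900000000) * b2 +
      (43306239421 / 48783200000) * e7) (by linear_combination (1001849 / 1000000) * R.k2 + (1001849 / 1000000) * R.h1 + (31360746001083 / 99152200000000) * b1 +
      (86763128947 / 99152200000) * e2)
  have e9 := up (t1 := (205 / 1000)) (t2 := (261 / 1000)) (x := h0 + s - 1 - b / 2 + k) (by norm_num)
    (by linear_combination (41681 / 40000) * R.k1 + (41681 / 40000) * R.h1 + (41681 / 40000) * s1 +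
      (56694954691 / 243916000000) * b2 + (1804828981 / 1951328000) * e7) (by linear_combination (1068121 / 1000000) * R.k2 + (1068121 / 1000000) * R.h2 + (1068121 / 1000000) * s2 +
      (33435249602907 / 99152200000000) * b1 + (92502482963 / 99152200000) * e2)
  have e10 := up (t1 := (286 / 1000)) (t2 := (349 / 1000)) (x := s - b / 2 + k) (by norm_num)
    (by linear_combination (270449 / 250000) * R.k1 + (270449 / 250000) * s1 + (367867704739 / 1524475000000) * b2 +
      (11710712149 / 12195800000) * e7) (by linear_combination (1121801 / 1000000) * R.k2 + (1121801 / 1000000) * s2 + (35115587503467 / 99152200000000) * b1 +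
      (97151332003 / 99152200000) * e2)
  unfold Uhf2b
  linear_combination (296027591156669200 / 85161854187776289) * R.k2 + (130003103951577617242317136762 / 82787152984937733356914184295) * R.h1 +
    (1078676173130119488970922158 / 1642335930290609843653860405) * s1 + (1000000 / 331837) * e1 +
    (18054200766105322671200 / 3838175090362378255539) * e2 + (13048296409234253707399175 / 47618332313598159985093772) * e3 +
    (3408082724942215470157490601 / 2333298283366309839269594828) * e4 + (82925 / 28938) * e5 +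
    (500000 / 217239) * e6 + (3000000 / 999527) * e8 + (200000 / 189299) * e9 + (2000000 / 450093) * e10

/-- The function of the boxes `hf3`. -/
noncomputable def Uhf3 (s b k : ℝ) : ℝ :=
  16536 / 10000 * ph (h0 + s - 1) + 16536 / 10000 * ph (h0 + s - 1 - b) -
    16536 / 10000 * ph (b) + 2 * ph (s) - 4 * ph (s - b / 2 + k) + 3 * ph (1 - h0) - 3 * ph (1 -
    h0 - b / 2 + k) + ph (h0 + s - 1) - ph (h0 + s - 1 - b / 2 + k)

/-- The region of the boxes `hf3`. -/
structure Reghf3 (s b k : ℝ) : Prop where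
  k1 : 86602 / 100000 * ph (b) ≤ k
  k2 : k ≤ 86603 / 100000 * ph (b)
  h1 : 86602 / 100000 ≤ h0
  h2 : h0 ≤ 86603 / 100000
  k3 : 0 ≤ k
  k4 : k ≤ 1161 / 10000
  bt : b ≤ h0 + s - 1
  s1 : 3 / 5 ≤ s
  s2 : s ≤ 67 / 100
  b1 : 299 / 1000 ≤ b
  b2 : b ≤ 1 / 2

theorem Reghf3.lo2 {s b k : ℝ} (R : Reghf3 s b k) (w0 : ℝ) (hw0 : w0 ^ 2 < 1) :
    2 * w0 * (1 - h0) - 2 * w0 ^ 2 ≤ (1 - w0 ^ 2) * ph (1 - h0) :=
  lo hw0 (by linear_combination R.h2) (by linear_combination R.h1)

theorem Reghf3.lo3 {s b k : ℝ} (R : Reghf3 s b k) (w0 : ℝ) (hw0 : w0 ^ 2 < 1) :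
    2 * w0 * (b) - 2 * w0 ^ 2 ≤ (1 - w0 ^ 2) * ph (b) :=
  lo hw0 (by linear_combination R.b1) (by linear_combination R.b2)

theorem Reghf3.lo5 {s b k : ℝ} (R : Reghf3 s b k) (w0 : ℝ) (hw0 : w0 ^ 2 < 1) :
    2 * w0 * (h0 + s - 1 - b) - 2 * w0 ^ 2 ≤ (1 - w0 ^ 2) * ph (h0 + s - 1 - b) :=
  lo hw0 (by linear_combination R.bt) (by linear_combination R.h2 + R.s2 + R.b1)

theorem Reghf3.lo6 {s b k : ℝ} (R : Reghf3 s b k) (w0 : ℝ) (hw0 : w0 ^ 2 < 1) :
    2 * w0 * (h0 + s - 1) - 2 * w0 ^ 2 ≤ (1 - w0 ^ 2) * ph (h0 + s - 1) :=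
  lo hw0 (by linear_combination R.h1 + R.s1) (by linear_combination R.h2 + R.s2)

theorem Reghf3.lo8 {s b k : ℝ} (R : Reghf3 s b k) (w0 : ℝ) (hw0 : w0 ^ 2 < 1) :
    2 * w0 * (s) - 2 * w0 ^ 2 ≤ (1 - w0 ^ 2) * ph (s) :=
  lo hw0 (by linear_combination R.s1) (by linear_combination R.s2)

theorem hf30 {s b k : ℝ} (R : Reghf3 s b k)
    (s1 : 3 / 5 ≤ s) (s2 : s ≤ 67 / 100) (b1 : 299 / 1000 ≤ b) (b2 : b ≤ 1 / 2) :
    0 ≤ Uhf3 s b k := by
  have e1 := R.lo2 (67 / 1000) (by norm_num)
  have e2 := up (t1 := (152 / 1000)) (t2 := (268 / 1000)) (x := b) (by norm_num)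
    (by linear_combination (15986 / 15625) * b1) (by linear_combination (66989 / 62500) * b2)
  have e3 := R.lo5 (0 / 1000) (by norm_num)
  have e4 := R.lo6 (269 / 1000) (by norm_num)
  have e5 := R.lo8 (358 / 1000) (by norm_num)
  have e6 := R.lo3 (208 / 1000) (by norm_num)
  have e7 := R.lo3 (268 / 1000) (by norm_num)
  have e8 := up (t1 := (-1 / 1000)) (t2 := (13 / 1000)) (x := 1 - h0 - b / 2 + k) (by norm_num)
    (by linear_combination (1000001 / 1000000) * R.k1 + (1000001 / 1000000) * R.h2 + (617000617 / 791808000000) * e6 +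
      (184537184537 / 197952000000) * e7) (by linear_combination (1000169 / 1000000) * R.k2 + (1000169 / 1000000) * R.h1 + (579594934993 / 4796320000000) * b1 +
      (86617635907 / 95926400000) * e2)
  have e9 := up (t1 := (170 / 1000)) (t2 := (224 / 1000)) (x := h0 + s - 1 - b / 2 + k) (by norm_num)
    (by linear_combination (10289 / 10000) * R.k1 + (10289 / 10000) * R.h1 + (10289 / 10000) * s1 +
      (6348313 / 7918080000) * e6 + (1898701193 / 1979520000) * e7) (by linear_combination (16409 / 15625) * R.k2 + (16409 / 15625) * R.h2 + (16409 / 15625) * s2 +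
      (9508966273 / 74942500000) * b1 + (1421068627 / 1498850000) * e2)
  have e10 := up (t1 := (247 / 1000)) (t2 := (307 / 1000)) (x := s - b / 2 + k) (by norm_num)
    (by linear_combination (1061009 / 1000000) * R.k1 + (1061009 / 1000000) * s1 + (654642553 / 791808000000) * e6 +
      (195795417833 / 197952000000) * e7) (by linear_combination (1094249 / 1000000) * R.k2 + (1094249 / 1000000) * s2 + (634114012753 / 4796320000000) * b1 +
      (94765246147 / 95926400000) * e2)
  unfold Uhf3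
  linear_combination (10532390696061425 / 3704125521005784) * R.k2 + (12715664943920068000 / 32814558721306788657) * R.h1 +
    (3051870895261240837 / 8158140375419570760) * R.bt + (1017448011501742026142143749 / 159712491931046474484679015680) * b2 +
    (1000000 / 331837) * e1 + (7623254138022620157575 / 1776617131891046191488) * e2 + (2067 / 1250) * e3 +
    (2653600 / 927639) * e4 + (500000 / 217959) * e5 + (3000000 / 1000013) * e8 + (3125 / 3006) * e9 +
    (4000000 / 924171) * e10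

/-- The function of the boxes `hf4`. -/
noncomputable def Vhf4 (s b k : ℝ) : ℝ :=
  2 * ph (s) - 4 * ph (s - b / 2 + k) + 3 * ph (1 - h0) - 3 * ph (1 - h0 - b / 2 + k) + ph (h0 +
    s - 1) - ph (h0 + s - 1 - b / 2 + k)

/-- The region of the boxes `hf4`. -/
structure Reghf4 (s b k : ℝ) : Prop where
  k1 : 86602 / 100000 * ph (b) ≤ k
  k2 : k ≤ 86603 / 100000 * ph (b)
  h1 : 86602 / 100000 ≤ h0
  h2 : h0 ≤ 86603 / 100000
  k3 : 0 ≤ k
  k4 : k ≤ 1161 / 10000
  bt : h0 + s - 1 ≤ b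
  s1 : 3 / 5 ≤ s
  s2 : s ≤ 67 / 100
  b1 : 23 / 50 ≤ b
  b2 : b ≤ 1 / 2

theorem Reghf4.lo2 {s b k : ℝ} (R : Reghf4 s b k) (w0 : ℝ) (hw0 : w0 ^ 2 < 1) :
    2 * w0 * (1 - h0) - 2 * w0 ^ 2 ≤ (1 - w0 ^ 2) * ph (1 - h0) :=
  lo hw0 (by linear_combination R.h2) (by linear_combination R.h1)

theorem Reghf4.lo3 {s b k : ℝ} (R : Reghf4 s b k) (w0 : ℝ) (hw0 : w0 ^ 2 < 1) :
    2 * w0 * (b) - 2 * w0 ^ 2 ≤ (1 - w0 ^ 2) * ph (b) :=
  lo hw0 (by linear_combination R.h1 + R.bt + R.s1) (by linear_combination R.b2)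

theorem Reghf4.lo5 {s b k : ℝ} (R : Reghf4 s b k) (w0 : ℝ) (hw0 : w0 ^ 2 < 1) :
    2 * w0 * (h0 + s - 1) - 2 * w0 ^ 2 ≤ (1 - w0 ^ 2) * ph (h0 + s - 1) :=
  lo hw0 (by linear_combination R.h1 + R.s1) (by linear_combination R.bt + R.b2)

theorem Reghf4.lo7 {s b k : ℝ} (R : Reghf4 s b k) (w0 : ℝ) (hw0 : w0 ^ 2 < 1) :
    2 * w0 * (s) - 2 * w0 ^ 2 ≤ (1 - w0 ^ 2) * ph (s) :=
  lo hw0 (by linear_combination R.s1) (by linear_combination R.h1 + R.bt + R.b2)

theorem hf40 {s b k : ℝ} (R : Reghf4 s b k)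
    (s1 : 3 / 5 ≤ s) (s2 : s ≤ 67 / 100) (b1 : 23 / 50 ≤ b) (b2 : b ≤ 1 / 2) :
    0 ≤ Vhf4 s b k := by
  have e1 := R.lo2 (67 / 1000) (by norm_num)
  have e2 := up (t1 := (247 / 1000)) (t2 := (268 / 1000)) (x := b) (by norm_num)
    (by linear_combination (1061009 / 1000000) * R.h1 + (1061009 / 1000000) * R.bt + (1061009 / 1000000) * s1) (by linear_combination (66989 / 62500) * b2)
  have e3 := R.lo5 (268 / 1000) (by norm_num)
  have e4 := R.lo7 (358 / 1000) (by norm_num)
  have e5 := R.lo3 (258 / 1000) (by norm_num)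
  have e6 := R.lo3 (268 / 1000) (by norm_num)
  have e7 := up (t1 := (-1 / 1000)) (t2 := (1 / 1000)) (x := 1 - h0 - b / 2 + k) (by norm_num)
    (by linear_combination (1000001 / 1000000) * R.k1 + (1000001 / 1000000) * R.h2 + (617000617 / 133643000000) * e5 +
      (124073124073 / 133643000000) * e6) (by linear_combination (1000001 / 1000000) * R.k2 + (19094030094011 / 18676080000000) * R.h1 +
      (417931417931 / 18676080000000) * R.bt + (417931417931 / 18676080000000) * s1 + (86603086603 / 93380400000) * e2)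
  have e8 := up (t1 := (170 / 1000)) (t2 := (190 / 1000)) (x := h0 + s - 1 - b / 2 + k) (by norm_num)
    (by linear_combination (10289 / 10000) * R.k1 + (10289 / 10000) * R.h1 + (10289 / 10000) * s1 +
      (6348313 / 1336430000) * e5 + (1276587097 / 1336430000) * e6) (by linear_combination (10361 / 10000) * R.k2 + (10361 / 10000) * R.bt + (189172681789 / 186760800000) * b2 +
      (897293683 / 933804000) * e2)
  have e9 := up (t1 := (247 / 1000)) (t2 := (268 / 1000)) (x := s - b / 2 + k) (by norm_num)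
    (by linear_combination (1061009 / 1000000) * R.k1 + (1061009 / 1000000) * s1 + (654642553 / 133643000000) * e5 +
      (131642569657 / 133643000000) * e6) (by linear_combination (66989 / 62500) * R.k2 + (66989 / 62500) * R.h1 + (66989 / 62500) * R.bt +
      (1223095143361 / 1167255000000) * b2 + (5801448367 / 5836275000) * e2)
  unfold Vhf4
  linear_combination (5824078600 / 2259105327) * R.k2 + (9266721523000 / 58023291935763) * R.h1 +
    (1136406776088051100 / 3173796879759781947) * R.bt + (445100763036421046027885 / 1481852110753601710618194) * b2 +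
    (1000000 / 331837) * e1 + (1260956697489500 / 527390397693477) * e2 + (62500 / 58011) * e3 +
    (500000 / 217959) * e4 + (3000000 / 1000001) * e7 + (10000 / 9677) * e8 + (1000000 / 233451) * e9

/-- The function of the boxes `hg1`. -/
noncomputable def Uhg1 (s b k T : ℝ) : ℝ :=
  2 * ph (T) + 2 * ph (T - b) - 2 * ph (b) + 2 * ph (s) - 4 * ph (s - b / 2 + k) + 3 * ph (1 -
    h0) - 3 * ph (1 - h0 - b / 2 + k) + ph (h0 + s - 1) - ph (h0 + s - 1 - b / 2 + k) - (b / 2 -
    k)

/-- The region of the boxes `hg1`. -/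
structure Reghg1 (s b k T : ℝ) : Prop where
  k1 : 86602 / 100000 * ph (b) ≤ k
  k2 : k ≤ 86603 / 100000 * ph (b)
  h1 : 86602 / 100000 ≤ h0
  h2 : h0 ≤ 86603 / 100000
  k3 : 0 ≤ k
  k4 : k ≤ 1161 / 10000
  t1 : ph (s) ≤ 2 * ph (T)
  t2 : 2 * ph (T) ≤ ph (s)
  t3 : T ≤ 45 / 100
  t4 : 41 / 100 ≤ T
  bt : b ≤ T
  s1 : 57 / 100 ≤ s
  s2 : s ≤ 61 / 100
  b1 : 1 / 25 ≤ b
  b2 : b ≤ 14 / 125

theorem Reghg1.lo2 {s b k T : ℝ} (R : Reghg1 s b k T) (w0 : ℝ) (hw0 : w0 ^ 2 < 1) :
    2 * w0 * (1 - h0) - 2 * w0 ^ 2 ≤ (1 - w0 ^ 2) * ph (1 - h0) :=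
  lo hw0 (by linear_combination R.h2) (by linear_combination R.h1)

theorem Reghg1.lo3 {s b k T : ℝ} (R : Reghg1 s b k T) (w0 : ℝ) (hw0 : w0 ^ 2 < 1) :
    2 * w0 * (T - b) - 2 * w0 ^ 2 ≤ (1 - w0 ^ 2) * ph (T - b) :=
  lo hw0 (by linear_combination R.t4 + R.b2) (by linear_combination R.t3 + R.b1)

theorem Reghg1.lo5 {s b k T : ℝ} (R : Reghg1 s b k T) (w0 : ℝ) (hw0 : w0 ^ 2 < 1) :
    2 * w0 * (b) - 2 * w0 ^ 2 ≤ (1 - w0 ^ 2) * ph (b) :=
  lo hw0 (by linear_combination R.b1) (by linear_combination R.b2)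

theorem Reghg1.lo7 {s b k T : ℝ} (R : Reghg1 s b k T) (w0 : ℝ) (hw0 : w0 ^ 2 < 1) :
    2 * w0 * (h0 + s - 1) - 2 * w0 ^ 2 ≤ (1 - w0 ^ 2) * ph (h0 + s - 1) :=
  lo hw0 (by linear_combination R.h1 + R.s1) (by linear_combination R.h2 + R.s2)

theorem Reghg1.lo9 {s b k T : ℝ} (R : Reghg1 s b k T) (w0 : ℝ) (hw0 : w0 ^ 2 < 1) :
    2 * w0 * (s) - 2 * w0 ^ 2 ≤ (1 - w0 ^ 2) * ph (s) :=
  lo hw0 (by linear_combination R.s1) (by linear_combination R.s2)

theorem hg10 {s b k T : ℝ} (R : Reghg1 s b k T)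
    (s1 : 57 / 100 ≤ s) (s2 : s ≤ 61 / 100) (b1 : 1 / 25 ≤ b) (b2 : b ≤ 14 / 125) :
    0 ≤ Uhg1 s b k T := by
  have e1 := R.lo2 (67 / 1000) (by norm_num)
  have e2 := up (t1 := (20 / 1000)) (t2 := (57 / 1000)) (x := b) (by norm_num)
    (by linear_combination (2501 / 2500) * b1) (by linear_combination (1003249 / 1000000) * b2)
  have e3 := R.lo7 (241 / 1000) (by norm_num)
  have e4 := R.lo7 (229 / 1000) (by norm_num)
  have e5 := R.lo9 (313 / 1000) (by norm_num)
  have e6 := R.lo5 (56 / 1000) (by norm_num)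
  have e7 := up (t1 := (41 / 1000)) (t2 := (58 / 1000)) (x := 1 - h0 - b / 2 + k) (by norm_num)
    (by linear_combination (1001681 / 1000000) * R.k1 + (1001681 / 1000000) * R.h2 + (1256601802733 / 3115200000000) * b2 +
      (43373788981 / 49843200000) * e6) (by linear_combination (250841 / 250000) * R.k2 + (250841 / 250000) * R.h1 + (10855036162529 / 24971500000000) * b1 +
      (21723583123 / 24971500000) * e2)
  have e8 := R.lo3 (183 / 1000) (by norm_num)
  have e9 := up (t1 := (214 / 1000)) (t2 := (238 / 1000)) (x := T) (by norm_num)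
    (by linear_combination (261449 / 250000) * R.t4) (by linear_combination (264161 / 250000) * R.t3)
  have e10 := up (t1 := (200 / 1000)) (t2 := (242 / 1000)) (x := h0 + s - 1 - b / 2 + k) (by norm_num)
    (by linear_combination (26 / 25) * R.k1 + (26 / 25) * R.h1 + (26 / 25) * s1 + (16308409 / 38940000) * b2 +
      (562913 / 623040) * e6) (by linear_combination (264641 / 250000) * R.k2 + (264641 / 250000) * R.h2 + (264641 / 250000) * s2 +
      (11452225214729 / 24971500000000) * b1 + (22918704523 / 24971500000) * e2)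
  have e11 := up (t1 := (280 / 1000)) (t2 := (327 / 1000)) (x := s - b / 2 + k) (by norm_num)
    (by linear_combination (674 / 625) * R.k1 + (674 / 625) * s1 + (422764141 / 973500000) * b2 +
      (14592437 / 15576000) * e6) (by linear_combination (1106929 / 1000000) * R.k2 + (1106929 / 1000000) * s2 + (47901875388601 / 99886000000000) * b1 +
      (95863372187 / 99886000000) * e2)
  unfold Uhg1
  linear_combination (5047832580742 / 2073114881643) * R.k2 + (637796541708764850682959200 / 9495966824339422612821755119) * R.h2 +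
    (196055465 / 109215743) * R.t1 + (1103520639927470094285353 / 7697708202565591859103000) * b1 +
    (1000000 / 331837) * e1 + (425890210659299713 / 103537576533896349) * e2 + (8320438075565926792335625 / 11077957711832763416225379) * e3 +
    (1140044753636723840913125 / 3692652570610921138741793) * e4 + (138162317000000 / 32838661958011) * e5 +
    (1500000 / 498811) * e7 + (2000000 / 966511) * e8 + (183000000 / 109215743) * e9 + (2500 / 2379) * e10 +
    (100000 / 22711) * e11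

/-- The function of the boxes `hg2`. -/
noncomputable def Uhg2 (s b k T : ℝ) : ℝ :=
  2 * ph (T) + 2 * ph (T - b) - 2 * ph (b) + 2 * ph (s) - 4 * ph (s - b / 2 + k) + 3 * ph (1 -
    h0) - 3 * ph (1 - h0 - b / 2 + k) + ph (h0 + s - 1) - ph (h0 + s - 1 - b / 2 + k) - 1 / 20

/-- The region of the boxes `hg2`. -/
structure Reghg2 (s b k T : ℝ) : Prop where
  k1 : 86602 / 100000 * ph (b) ≤ k
  k2 : k ≤ 86603 / 100000 * ph (b)
  h1 : 86602 / 100000 ≤ h0
  h2 : h0 ≤ 86603 / 100000
  k3 : 0 ≤ k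
  k4 : k ≤ 1161 / 10000
  t1 : ph (s) ≤ 2 * ph (T)
  t2 : 2 * ph (T) ≤ ph (s)
  t3 : T ≤ 45 / 100
  t4 : 41 / 100 ≤ T
  bt : b ≤ T
  s1 : 57 / 100 ≤ s
  s2 : s ≤ 61 / 100
  b1 : 27 / 250 ≤ b
  b2 : b ≤ 61 / 200

theorem Reghg2.lo2 {s b k T : ℝ} (R : Reghg2 s b k T) (w0 : ℝ) (hw0 : w0 ^ 2 < 1) :
    2 * w0 * (1 - h0) - 2 * w0 ^ 2 ≤ (1 - w0 ^ 2) * ph (1 - h0) :=
  lo hw0 (by linear_combination R.h2) (by linear_combination R.h1)

theorem Reghg2.lo3 {s b k T : ℝ} (R : Reghg2 s b k T) (w0 : ℝ) (hw0 : w0 ^ 2 < 1) :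
    2 * w0 * (T - b) - 2 * w0 ^ 2 ≤ (1 - w0 ^ 2) * ph (T - b) :=
  lo hw0 (by linear_combination R.t4 + R.b2) (by linear_combination R.t3 + R.b1)

theorem Reghg2.lo5 {s b k T : ℝ} (R : Reghg2 s b k T) (w0 : ℝ) (hw0 : w0 ^ 2 < 1) :
    2 * w0 * (b) - 2 * w0 ^ 2 ≤ (1 - w0 ^ 2) * ph (b) :=
  lo hw0 (by linear_combination R.b1) (by linear_combination R.b2)

theorem Reghg2.lo7 {s b k T : ℝ} (R : Reghg2 s b k T) (w0 : ℝ) (hw0 : w0 ^ 2 < 1) :
    2 * w0 * (h0 + s - 1) - 2 * w0 ^ 2 ≤ (1 - w0 ^ 2) * ph (h0 + s - 1) :=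
  lo hw0 (by linear_combination R.h1 + R.s1) (by linear_combination R.h2 + R.s2)

theorem Reghg2.lo9 {s b k T : ℝ} (R : Reghg2 s b k T) (w0 : ℝ) (hw0 : w0 ^ 2 < 1) :
    2 * w0 * (s) - 2 * w0 ^ 2 ≤ (1 - w0 ^ 2) * ph (s) :=
  lo hw0 (by linear_combination R.s1) (by linear_combination R.s2)

theorem hg20 {s b k T : ℝ} (R : Reghg2 s b k T)
    (s1 : 57 / 100 ≤ s) (s2 : s ≤ 61 / 100) (b1 : 27 / 250 ≤ b) (b2 : b ≤ 61 / 200) :
    0 ≤ Uhg2 s b k T := by
  have e1 := R.lo2 (67 / 1000) (by norm_num)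
  have e2 := up (t1 := (54 / 1000)) (t2 := (157 / 1000)) (x := b) (by norm_num)
    (by linear_combination (250729 / 250000) * b1) (by linear_combination (1024649 / 1000000) * b2)
  have e3 := R.lo7 (229 / 1000) (by norm_num)
  have e4 := R.lo9 (313 / 1000) (by norm_num)
  have e5 := R.lo5 (156 / 1000) (by norm_num)
  have e6 := up (t1 := (11 / 1000)) (t2 := (43 / 1000)) (x := 1 - h0 - b / 2 + k) (by norm_num)
    (by linear_combination (1000121 / 1000000) * R.k1 + (1000121 / 1000000) * R.h2 + (1360375585531 / 6097900000000) * b2 +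
      (43306239421 / 48783200000) * e5) (by linear_combination (1001849 / 1000000) * R.k2 + (1001849 / 1000000) * R.h1 + (31360746001083 / 99152200000000) * b1 +
      (86763128947 / 99152200000) * e2)
  have e7 := R.lo3 (113 / 1000) (by norm_num)
  have e8 := R.lo3 (176 / 1000) (by norm_num)
  have e9 := up (t1 := (214 / 1000)) (t2 := (238 / 1000)) (x := T) (by norm_num)
    (by linear_combination (261449 / 250000) * R.t4) (by linear_combination (264161 / 250000) * R.t3)
  have e10 := up (t1 := (166 / 1000)) (t2 := (225 / 1000)) (x := h0 + s - 1 - b / 2 + k) (by norm_num)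
    (by linear_combination (256889 / 250000) * R.k1 + (256889 / 250000) * R.h1 + (256889 / 250000) * s1 +
      (349423243579 / 1524475000000) * b2 + (11123550589 / 12195800000) * e5) (by linear_combination (1681 / 1600) * R.k2 + (1681 / 1600) * R.h2 + (1681 / 1600) * s2 +
      (52620119427 / 158643520000) * b1 + (145579643 / 158643520) * e2)
  have e11 := up (t1 := (242 / 1000)) (t2 := (307 / 1000)) (x := s - b / 2 + k) (by norm_num)
    (by linear_combination (264641 / 250000) * R.k1 + (264641 / 250000) * s1 + (359967599251 / 1524475000000) * b2 +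
      (11459219941 / 12195800000) * e5) (by linear_combination (1094249 / 1000000) * R.k2 + (1094249 / 1000000) * s2 + (34253130911883 / 99152200000000) * b1 +
      (94765246147 / 99152200000) * e2)
  unfold Uhg2
  linear_combination (26191225336048420 / 8907093759933343) * R.k2 + (995741172596459528620 / 6050956214450942496273) * R.h2 +
    (15246787767134573230112277869 / 9979684743511389773391980000) * R.t1 + (217764584481167253193791493693925641 / 1421651985503990681033333328826353570) * s1 +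
    (1000000 / 331837) * e1 + (20248287198822349586300 / 4415789709518314059023) * e2 +
    (1000000 / 947559) * e3 + (586769287569289212948270631150 / 150033083481238707144709018523) * e4 +
    (3000000 / 999527) * e6 + (4274885326926130800736371800 / 2533281151084433037578727801) * e7 +
    (131821099585633260965740675 / 382382060541046496238298536) * e8 + (554976358240208652775175 / 498984237175569488669599) * e9 +
    (20000 / 19253) * e10 + (2000000 / 462853) * e11

/-- The function of the boxes `hg3`. -/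
noncomputable def Uhg3 (s b k T : ℝ) : ℝ :=
  2 * ph (T) + 2 * ph (T - b) - 2 * ph (b) + 2 * ph (s) - 4 * ph (s - b / 2 + k) + 3 * ph (1 -
    h0) - 3 * ph (1 - h0 - b / 2 + k) + ph (h0 + s - 1) - ph (h0 + s - 1 - b / 2 + k)

/-- The region of the boxes `hg3`. -/
structure Reghg3 (s b k T : ℝ) : Prop where
  k1 : 86602 / 100000 * ph (b) ≤ k
  k2 : k ≤ 86603 / 100000 * ph (b)
  h1 : 86602 / 100000 ≤ h0
  h2 : h0 ≤ 86603 / 100000
  k3 : 0 ≤ k
  k4 : k ≤ 1161 / 10000
  t1 : ph (s) ≤ 2 * ph (T)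
  t2 : 2 * ph (T) ≤ ph (s)
  t3 : T ≤ 45 / 100
  t4 : 41 / 100 ≤ T
  bt : b ≤ T
  s1 : 57 / 100 ≤ s
  s2 : s ≤ 61 / 100
  b1 : 299 / 1000 ≤ b
  b2 : b ≤ 1 / 2

theorem Reghg3.lo2 {s b k T : ℝ} (R : Reghg3 s b k T) (w0 : ℝ) (hw0 : w0 ^ 2 < 1) :
    2 * w0 * (1 - h0) - 2 * w0 ^ 2 ≤ (1 - w0 ^ 2) * ph (1 - h0) :=
  lo hw0 (by linear_combination R.h2) (by linear_combination R.h1)

theorem Reghg3.lo3 {s b k T : ℝ} (R : Reghg3 s b k T) (w0 : ℝ) (hw0 : w0 ^ 2 < 1) :
    2 * w0 * (T - b) - 2 * w0 ^ 2 ≤ (1 - w0 ^ 2) * ph (T - b) :=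
  lo hw0 (by linear_combination R.bt) (by linear_combination R.t3 + R.b1)

theorem Reghg3.lo4 {s b k T : ℝ} (R : Reghg3 s b k T) (w0 : ℝ) (hw0 : w0 ^ 2 < 1) :
    2 * w0 * (T) - 2 * w0 ^ 2 ≤ (1 - w0 ^ 2) * ph (T) :=
  lo hw0 (by linear_combination R.t4) (by linear_combination R.t3)

theorem Reghg3.lo5 {s b k T : ℝ} (R : Reghg3 s b k T) (w0 : ℝ) (hw0 : w0 ^ 2 < 1) :
    2 * w0 * (b) - 2 * w0 ^ 2 ≤ (1 - w0 ^ 2) * ph (b) :=
  lo hw0 (by linear_combination R.b1) (by linear_combination R.t3 + R.bt)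

theorem Reghg3.lo7 {s b k T : ℝ} (R : Reghg3 s b k T) (w0 : ℝ) (hw0 : w0 ^ 2 < 1) :
    2 * w0 * (h0 + s - 1) - 2 * w0 ^ 2 ≤ (1 - w0 ^ 2) * ph (h0 + s - 1) :=
  lo hw0 (by linear_combination R.h1 + R.s1) (by linear_combination R.h2 + R.s2)

theorem Reghg3.lo9 {s b k T : ℝ} (R : Reghg3 s b k T) (w0 : ℝ) (hw0 : w0 ^ 2 < 1) :
    2 * w0 * (s) - 2 * w0 ^ 2 ≤ (1 - w0 ^ 2) * ph (s) :=
  lo hw0 (by linear_combination R.s1) (by linear_combination R.s2)

theorem hg30 {s b k T : ℝ} (R : Reghg3 s b k T)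
    (s1 : 57 / 100 ≤ s) (s2 : s ≤ 61 / 100) (b1 : 299 / 1000 ≤ b) (b2 : b ≤ 1 / 2) :
    0 ≤ Uhg3 s b k T := by
  have e1 := R.lo2 (67 / 1000) (by norm_num)
  have e2 := up (t1 := (152 / 1000)) (t2 := (238 / 1000)) (x := b) (by norm_num)
    (by linear_combination (15986 / 15625) * b1) (by linear_combination (264161 / 250000) * R.t3 + (264161 / 250000) * R.bt)
  have e3 := R.lo7 (241 / 1000) (by norm_num)
  have e4 := R.lo7 (253 / 1000) (by norm_num)
  have e5 := R.lo9 (340 / 1000) (by norm_num)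
  have e6 := R.lo5 (238 / 1000) (by norm_num)
  have e7 := up (t1 := (0 / 1000)) (t2 := (13 / 1000)) (x := 1 - h0 - b / 2 + k) (by norm_num)
    (by linear_combination R.k1 + R.h2 + (371578 / 5895975) * R.t3 + (371578 / 5895975) * R.bt +
      (216505 / 235839) * e6) (by linear_combination (1000169 / 1000000) * R.k2 + (1000169 / 1000000) * R.h1 + (1441846630907 / 9638240000000) * b1 +
      (86617635907 / 96382400000) * e2)
  have e8 := R.lo3 (0 / 1000) (by norm_num)
  have e9 := R.lo4 (226 / 1000) (by norm_num)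
  have e10 := R.lo5 (194 / 1000) (by norm_num)
  have e11 := up (t1 := (312 / 1000)) (t2 := (341 / 1000)) (x := s) (by norm_num)
    (by linear_combination (17146 / 15625) * s1) (by linear_combination (1116281 / 1000000) * s2)
  have e12 := R.lo4 (214 / 1000) (by norm_num)
  have e13 := up (t1 := (156 / 1000)) (t2 := (190 / 1000)) (x := h0 + s - 1 - b / 2 + k) (by norm_num)
    (by linear_combination (64021 / 62500) * R.k1 + (64021 / 62500) * R.h1 + (4618788605319673 / 26815871875000000) * R.t2 +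
      (58085549069 / 375923437500) * R.bt + (21529969265313837131 / 23962877634475000000) * s1 +
      (2772173321 / 3007387500) * e10 + (4618788605319673 / 23962877634475000) * e11 + (58085549069 / 160895231250) * e12) (by linear_combination (10361 / 10000) * R.k2 + (10361 / 10000) * R.h2 + (10361 / 10000) * s2 +
      (14936448683 / 96382400000) * b1 + (897293683 / 963824000) * e2)
  have e14 := up (t1 := (231 / 1000)) (t2 := (269 / 1000)) (x := s - b / 2 + k) (by norm_num)
    (by linear_combination (1053361 / 1000000) * R.k1 + (75994623390577093 / 429053950000000000) * R.t2 +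
      (955702848329 / 6014775000000) * R.bt + (354240482892804685871 / 383406042151600000000) * s1 +
      (45611584661 / 48118200000) * e10 + (75994623390577093 / 383406042151600000) * e11 +
      (955702848329 / 2574323700000) * e12) (by linear_combination (1072361 / 1000000) * R.k2 + (1072361 / 1000000) * s2 + (1545918834683 / 9638240000000) * b1 +
      (92869679683 / 96382400000) * e2)
  unfold Uhg3
  linear_combination (57517808879961 / 22751569999000) * R.k2 + (123776841173439019474467846097 / 648139121794733886837731200000) * R.h2 +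
    (27129568204393278317909573 / 49558430798138557760000000) * R.t1 + (94544400157421582517 / 219285092027161760000) * R.bt +
    (1000000 / 331837) * e1 + (9531528802231262483 / 2192850920271617600) * e2 + (3485234663016331319732721803777 / 9300378170017339212282108902400) * e3 +
    (34380154961746766601187057861 / 49734642620413578675305395200) * e4 + (42082143266890131279303191 / 14609825399291246827648000) * e5 +
    3 * e7 + 2 * e8 + (94544400157421582517 / 99116861596277115520) * e9 + (25000 / 24259) * e13 +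
    (4000000 / 937861) * e14

/-- The function of the boxes `hg4`. -/
noncomputable def Vhg4 (s b k T : ℝ) : ℝ :=
  2 * ph (s) - 4 * ph (s - b / 2 + k) + 3 * ph (1 - h0) - 3 * ph (1 - h0 - b / 2 + k) + ph (h0 +
    s - 1) - ph (h0 + s - 1 - b / 2 + k)

/-- The region of the boxes `hg4`. -/
structure Reghg4 (s b k T : ℝ) : Prop where
  k1 : 86602 / 100000 * ph (b) ≤ k
  k2 : k ≤ 86603 / 100000 * ph (b)
  h1 : 86602 / 100000 ≤ h0
  h2 : h0 ≤ 86603 / 100000
  k3 : 0 ≤ k
  k4 : k ≤ 1161 / 10000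
  t1 : ph (s) ≤ 2 * ph (T)
  t2 : 2 * ph (T) ≤ ph (s)
  t3 : T ≤ 45 / 100
  t4 : 41 / 100 ≤ T
  bt : T ≤ b
  s1 : 57 / 100 ≤ s
  s2 : s ≤ 61 / 100
  b1 : 41 / 100 ≤ b
  b2 : b ≤ 1 / 2

theorem Reghg4.lo2 {s b k T : ℝ} (R : Reghg4 s b k T) (w0 : ℝ) (hw0 : w0 ^ 2 < 1) :
    2 * w0 * (1 - h0) - 2 * w0 ^ 2 ≤ (1 - w0 ^ 2) * ph (1 - h0) :=
  lo hw0 (by linear_combination R.h2) (by linear_combination R.h1)

theorem Reghg4.lo4 {s b k T : ℝ} (R : Reghg4 s b k T) (w0 : ℝ) (hw0 : w0 ^ 2 < 1) :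
    2 * w0 * (b) - 2 * w0 ^ 2 ≤ (1 - w0 ^ 2) * ph (b) :=
  lo hw0 (by linear_combination R.t4 + R.bt) (by linear_combination R.b2)

theorem Reghg4.lo6 {s b k T : ℝ} (R : Reghg4 s b k T) (w0 : ℝ) (hw0 : w0 ^ 2 < 1) :
    2 * w0 * (h0 + s - 1) - 2 * w0 ^ 2 ≤ (1 - w0 ^ 2) * ph (h0 + s - 1) :=
  lo hw0 (by linear_combination R.h1 + R.s1) (by linear_combination R.h2 + R.s2)

theorem Reghg4.lo8 {s b k T : ℝ} (R : Reghg4 s b k T) (w0 : ℝ) (hw0 : w0 ^ 2 < 1) :
    2 * w0 * (s) - 2 * w0 ^ 2 ≤ (1 - w0 ^ 2) * ph (s) :=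
  lo hw0 (by linear_combination R.s1) (by linear_combination R.s2)

theorem hg40 {s b k T : ℝ} (R : Reghg4 s b k T)
    (s1 : 57 / 100 ≤ s) (s2 : s ≤ 61 / 100) (b1 : 41 / 100 ≤ b) (b2 : b ≤ 1 / 2) :
    0 ≤ Vhg4 s b k T := by
  have e1 := R.lo2 (67 / 1000) (by norm_num)
  have e2 := up (t1 := (214 / 1000)) (t2 := (268 / 1000)) (x := b) (by norm_num)
    (by linear_combination (261449 / 250000) * R.t4 + (261449 / 250000) * R.bt) (by linear_combination (66989 / 62500) * b2)
  have e3 := R.lo6 (253 / 1000) (by norm_num)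
  have e4 := R.lo8 (340 / 1000) (by norm_num)
  have e5 := R.lo4 (241 / 1000) (by norm_num)
  have e6 := R.lo4 (268 / 1000) (by norm_num)
  have e7 := up (t1 := (-1 / 1000)) (t2 := (3 / 1000)) (x := 1 - h0 - b / 2 + k) (by norm_num)
    (by linear_combination (1000001 / 1000000) * R.k1 + (1000001 / 1000000) * R.h2 + (617000617 / 359298450000) * e5 +
      (2676895676893 / 2874387600000) * e6) (by linear_combination (1000009 / 1000000) * R.k2 + (1000009 / 1000000) * R.h1 + (2694901253893 / 47132400000000) * R.t4 +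
      (2694901253893 / 47132400000000) * R.bt + (86603779427 / 94264800000) * e2)
  have e8 := up (t1 := (214 / 1000)) (t2 := (238 / 1000)) (x := T) (by norm_num)
    (by linear_combination (261449 / 250000) * R.t4) (by linear_combination (264161 / 250000) * R.t3)
  have e9 := up (t1 := (154 / 1000)) (t2 := (179 / 1000)) (x := h0 + s - 1 - b / 2 + k) (by norm_num)
    (by linear_combination (255929 / 250000) * R.k1 + (255929 / 250000) * R.h1 + (255929 / 250000) * s1 +
      (157908193 / 89824612500) * e5 + (685094548597 / 718596900000) * e6) (by linear_combination (1032041 / 1000000) * R.k2 + (1032041 / 1000000) * R.h2 + (219964189658905173 / 3550640800000000000) * R.t1 +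
      (2781223553957 / 47132400000000) * R.bt + (25760214978002073353 / 26168222696000000000) * s2 +
      (89377846723 / 94264800000) * e2 + (73321396552968391 / 1046728907840000000) * e4 +
      (2781223553957 / 21303844800000) * e8)
  have e10 := up (t1 := (229 / 1000)) (t2 := (256 / 1000)) (x := s - b / 2 + k) (by norm_num)
    (by linear_combination (1052441 / 1000000) * R.k1 + (1052441 / 1000000) * s1 + (649356097 / 359298450000) * e5 +
      (2817271945813 / 2874387600000) * e6) (by linear_combination (16649 / 15625) * R.k2 + (3548486730305397 / 55478762500000000) * R.t1 +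
      (44867007173 / 736443750000) * R.bt + (415566648193973417 / 408878479625000000) * s2 +
      (1441853347 / 1472887500) * e2 + (1182828910101799 / 16355139185000000) * e4 + (44867007173 / 332872575000) * e8)
  unfold Vhg4
  linear_combination (931376403790375 / 386583097745814) * R.k2 + (814879142711944778500 / 4081560134525516645541) * R.h2 +
    (529357408416074150409373 / 3660313918524467246963200) * R.t1 + (100397793956695776355 / 728823567847792150944) * R.bt +
    (110113318729266591526823879927 / 515301508608438513697116137856) * s2 + (1000000 / 331837) * e1 +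
    (403299953487289230625 / 182205891961948037736) * e2 + (1000000 / 935991) * e3 + (65416543712208405369464775 / 26976513579525323610118784) * e4 +
    (3000000 / 1000003) * e7 + (12549724244586972044375 / 41178531583400256528336) * e8 +
    (500000 / 486217) * e9 + (62500 / 14709) * e10

/-- The function of the boxes `ht1`. -/
noncomputable def Uht1 (s t : ℝ) : ℝ :=
  2 * ph (s) - 3 * ph (t) - 3 * ph (s - t) - ph (t + h0 - 1) - ph (h0 + s - 1 - t) + 6 * ph (1 -
    h0) + 16536 / 10000 * ph (s - t) + 16536 / 10000 * ph (s - t - 1 / 2) -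
    16536 / 10000 * ph (1 / 2)

/-- The region of the boxes `ht1`. -/
structure Reght1 (s t : ℝ) : Prop where
  h1 : 86602 / 100000 ≤ h0
  h2 : h0 ≤ 86603 / 100000
  ht1 : 1 - h0 ≤ t
  ht2 : t ≤ s / 2
  s1 : 129 / 200 ≤ s
  s2 : s ≤ 67 / 100
  t1 : 1339 / 10000 ≤ t
  t2 : t ≤ 29 / 200

theorem Reght1.lo1 {s t : ℝ} (R : Reght1 s t) (w0 : ℝ) (hw0 : w0 ^ 2 < 1) :
    2 * w0 * (1 - h0) - 2 * w0 ^ 2 ≤ (1 - w0 ^ 2) * ph (1 - h0) :=
  lo hw0 (by linear_combination R.h2) (by linear_combination R.h1)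

theorem Reght1.lo4 {s t : ℝ} (R : Reght1 s t) (w0 : ℝ) (hw0 : w0 ^ 2 < 1) :
    2 * w0 * (s - t - 1 / 2) - 2 * w0 ^ 2 ≤ (1 - w0 ^ 2) * ph (s - t - 1 / 2) :=
  lo hw0 (by linear_combination R.s1 + R.t2) (by linear_combination R.h2 + R.ht1 + R.s2)

theorem Reght1.lo6 {s t : ℝ} (R : Reght1 s t) (w0 : ℝ) (hw0 : w0 ^ 2 < 1) :
    2 * w0 * (s) - 2 * w0 ^ 2 ≤ (1 - w0 ^ 2) * ph (s) :=
  lo hw0 (by linear_combination R.s1) (by linear_combination R.s2)

theorem ht10 {s t : ℝ} (R : Reght1 s t)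
    (s1 : 129 / 200 ≤ s) (s2 : s ≤ 67 / 100) (t1 : 1339 / 10000 ≤ t) (t2 : t ≤ 29 / 200) :
    0 ≤ Uht1 s t := by
  have e1 := R.lo1 (67 / 1000) (by norm_num)
  have e2 := up (t1 := (267 / 1000)) (t2 := (268 / 1000)) (x := 1 / 2) (by norm_num)
    (by linear_combination) (by linear_combination)
  have e3 := up (t1 := (189 / 1000)) (t2 := (210 / 1000)) (x := h0 + s - 1 - t) (by norm_num)
    (by linear_combination (1035721 / 1000000) * R.h1 + (1035721 / 1000000) * s1 + (1035721 / 1000000) * t2) (by linear_combination (10441 / 5000) * R.h2 + (10441 / 10000) * R.ht1 + (10441 / 10000) * s2)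
  have e4 := R.lo4 (9 / 1000) (by norm_num)
  have e5 := up (t1 := (267 / 1000)) (t2 := (291 / 1000)) (x := s - t) (by norm_num)
    (by linear_combination (1071289 / 1000000) * s1 + (1071289 / 1000000) * t2) (by linear_combination (1084681 / 1000000) * R.h2 + (1084681 / 1000000) * R.ht1 + (1084681 / 1000000) * s2)
  have e6 := R.lo6 (366 / 1000) (by norm_num)
  have e7 := up (t1 := (0 / 1000)) (t2 := (6 / 1000)) (x := t + h0 - 1) (by norm_num)
    (by linear_combination R.ht1) (by linear_combination (250009 / 250000) * R.h2 + (250009 / 250000) * t2)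
  have e8 := up (t1 := (67 / 1000)) (t2 := (73 / 1000)) (x := t) (by norm_num)
    (by linear_combination (1004489 / 1000000) * R.h2 + (1004489 / 1000000) * R.ht1) (by linear_combination (1005329 / 1000000) * t2)
  unfold Uht1
  linear_combination (1096045879520721375635305848 / 547651269671921151689331665) * R.h2 +
    (127447752437858207744173 / 165036228531454042704500) * R.ht1 + (46991567334885445374828 / 95873782869797816581685) * s1 +
    (2000000 / 331837) * e1 + (413400 / 232111) * e2 + (100000 / 96031) * e3 + (1653600 / 999919) * e4 +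
    (1346400 / 922303) * e5 + (500000 / 216511) * e6 + e7 + (1000000 / 331703) * e8

/-- The function of the boxes `ht2`. -/
noncomputable def Uht2 (s t : ℝ) : ℝ :=
  2 * ph (s) - 3 * ph (t) - 3 * ph (s - t) - ph (t + h0 - 1) - ph (h0 + s - 1 - t) + 6 * ph (1 -
    h0)

/-- The region of the boxes `ht2`. -/
structure Reght2 (s t : ℝ) : Prop where
  h1 : 86602 / 100000 ≤ h0
  h2 : h0 ≤ 86603 / 100000
  ht1 : 1 - h0 ≤ t
  ht2 : t ≤ s / 2
  s1 : 57 / 100 ≤ s
  s2 : s ≤ 129 / 200
  t1 : 1339 / 10000 ≤ t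
  t2 : t ≤ 33 / 100

theorem Reght2.lo1 {s t : ℝ} (R : Reght2 s t) (w0 : ℝ) (hw0 : w0 ^ 2 < 1) :
    2 * w0 * (1 - h0) - 2 * w0 ^ 2 ≤ (1 - w0 ^ 2) * ph (1 - h0) :=
  lo hw0 (by linear_combination R.h2) (by linear_combination R.h1)

theorem Reght2.lo4 {s t : ℝ} (R : Reght2 s t) (w0 : ℝ) (hw0 : w0 ^ 2 < 1) :
    2 * w0 * (s) - 2 * w0 ^ 2 ≤ (1 - w0 ^ 2) * ph (s) :=
  lo hw0 (by linear_combination R.s1) (by linear_combination R.s2)

theorem ht20 {s t : ℝ} (R : Reght2 s t)
    (s1 : 57 / 100 ≤ s) (s2 : s ≤ 129 / 200) (t1 : 1339 / 10000 ≤ t) (t2 : t ≤ 33 / 100) :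
    0 ≤ Uht2 s t := by
  have e1 := R.lo1 (67 / 1000) (by norm_num)
  have e2 := up (t1 := (75 / 1000)) (t2 := (196 / 1000)) (x := h0 + s - 1 - t) (by norm_num)
    (by linear_combination (1609 / 1600) * R.h1 + (1609 / 1600) * R.ht2 + (1609 / 3200) * s1) (by linear_combination (64901 / 31250) * R.h2 + (64901 / 62500) * R.ht1 + (64901 / 62500) * s2)
  have e3 := up (t1 := (145 / 1000)) (t2 := (275 / 1000)) (x := s - t) (by norm_num)
    (by linear_combination (40841 / 40000) * R.ht2 + (40841 / 80000) * s1) (by linear_combination (1721 / 1600) * R.h2 + (1721 / 1600) * R.ht1 + (1721 / 1600) * s2)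
  have e4 := R.lo4 (339 / 1000) (by norm_num)
  have e5 := R.lo4 (366 / 1000) (by norm_num)
  have e6 := up (t1 := (0 / 1000)) (t2 := (96 / 1000)) (x := t + h0 - 1) (by norm_num)
    (by linear_combination R.ht1) (by linear_combination (15769 / 15625) * R.h2 + (15769 / 15625) * R.ht2 + (15769 / 31250) * s2)
  have e7 := up (t1 := (67 / 1000)) (t2 := (166 / 1000)) (x := t) (by norm_num)
    (by linear_combination (1004489 / 1000000) * R.h2 + (1004489 / 1000000) * R.ht1) (by linear_combination (256889 / 250000) * R.ht2 + (256889 / 500000) * s2)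
  unfold Uht2
  linear_combination (738702823868989960 / 376278874108277503) * R.h2 + (1223169122815142 / 1559149377251125) * R.ht1 +
    (2000000 / 331837) * e1 + (10000 / 9853) * e2 + (24000 / 7681) * e3 + (1688928491750000 / 1148457475594107) * e4 +
    (926142102062500 / 1148457475594107) * e5 + e6 + (500000 / 164813) * e7

/-- The function of the boxes `ht3`. -/
noncomputable def Uht3 (s t : ℝ) : ℝ :=
  2 * ph (s) - 3 * ph (t) - 3 * ph (s - t) - ph (t + h0 - 1) - ph (h0 + s - 1 - t) + 6 * ph (1 -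
    h0)

/-- The region of the boxes `ht3`. -/
structure Reght3 (s t : ℝ) : Prop where
  h1 : 86602 / 100000 ≤ h0
  h2 : h0 ≤ 86603 / 100000
  ht1 : 1 - h0 ≤ t
  ht2 : t ≤ s / 2
  s1 : 129 / 200 ≤ s
  s2 : s ≤ 67 / 100
  t1 : 29 / 200 ≤ t
  t2 : t ≤ 67 / 200

theorem Reght3.lo1 {s t : ℝ} (R : Reght3 s t) (w0 : ℝ) (hw0 : w0 ^ 2 < 1) :
    2 * w0 * (1 - h0) - 2 * w0 ^ 2 ≤ (1 - w0 ^ 2) * ph (1 - h0) :=
  lo hw0 (by linear_combination R.h2) (by linear_combination R.h1)

theorem Reght3.lo4 {s t : ℝ} (R : Reght3 s t) (w0 : ℝ) (hw0 : w0 ^ 2 < 1) :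
    2 * w0 * (s) - 2 * w0 ^ 2 ≤ (1 - w0 ^ 2) * ph (s) :=
  lo hw0 (by linear_combination R.s1) (by linear_combination R.s2)

theorem ht30 {s t : ℝ} (R : Reght3 s t)
    (s1 : 129 / 200 ≤ s) (s2 : s ≤ 67 / 100) (t1 : 29 / 200 ≤ t) (t2 : t ≤ 67 / 200) :
    0 ≤ Uht3 s t := by
  have e1 := R.lo1 (67 / 1000) (by norm_num)
  have e2 := up (t1 := (95 / 1000)) (t2 := (204 / 1000)) (x := h0 + s - 1 - t) (by norm_num)
    (by linear_combination (40361 / 40000) * R.h1 + (40361 / 40000) * R.ht2 + (40361 / 80000) * s1) (by linear_combination (65101 / 62500) * R.h2 + (65101 / 62500) * s2 + (65101 / 62500) * t1)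
  have e3 := up (t1 := (165 / 1000)) (t2 := (284 / 1000)) (x := s - t) (by norm_num)
    (by linear_combination (41089 / 40000) * R.ht2 + (41089 / 80000) * s1) (by linear_combination (67541 / 62500) * s2 + (67541 / 62500) * t1)
  have e4 := R.lo4 (375 / 1000) (by norm_num)
  have e5 := R.lo4 (366 / 1000) (by norm_num)
  have e6 := up (t1 := (5 / 1000)) (t2 := (102 / 1000)) (x := t + h0 - 1) (by norm_num)
    (by linear_combination (40001 / 40000) * R.h1 + (40001 / 40000) * t1) (by linear_combination (252601 / 250000) * R.h2 + (252601 / 250000) * R.ht2 + (252601 / 500000) * s2)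
  have e7 := up (t1 := (72 / 1000)) (t2 := (173 / 1000)) (x := t) (by norm_num)
    (by linear_combination (15706 / 15625) * t1) (by linear_combination (1029929 / 1000000) * R.ht2 + (1029929 / 2000000) * s2)
  unfold Uht3
  linear_combination (1983296159604250 / 1626200209402703) * R.h2 + (24989931515887527675 / 28829849285752307369) * t1 +
    (2000000 / 331837) * e1 + (50000 / 49031) * e2 + (150000 / 47657) * e3 + (112060179904000 / 95665621495347) * e4 +
    (109728288500000 / 95665621495347) * e5 + (100000 / 99949) * e6 + (375000 / 123443) * e7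

end Pool.Agent.Strip051.FourF
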