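import Pool.Agent.Strip051.FourF.HighReal

/-! # The new point above `h0`: the sum of the gains

`m` is a lower bound for the gains of the four middle probes, `d` the defect near `h0`. The two
theorems for `FourF` are `hs_low` and `hs_top`, the two for the certificate with the wall probe of
weight two are `hs_lowG` and `hs_topG`. -/

namespace Pool.Agent.Strip051.FourF

open Pool.Agent.StripNear Pool.Agent.StripSquare Pool.Agent.Strip051
open Pool.Agent.Strip051.Four (gn j1 gn_nonneg)
open Pool.Agent.Strip051.FourB (lo up)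
open Pool.Agent.Strip051.Four.Low (ph ph_neg ph_nonneg ph_mono ph_abs ph_zero h0_hi h0_lo)

/-- The lower bound for the gains of the middle probes, `h0 ≤ y ≤ 1`, `t = y - h0`. -/
noncomputable def hsM (s e t : ℝ) : ℝ :=
  4 - 4 * ph (s - t) + 3 * ph (1 - h0) - 3 * ph (1 - h0 - t) + ph e - ph (e - t)

/-- The lower bound for the gains of the middle probes, `1 ≤ y`, `t = y - h0`. -/
noncomputable def hsT (s e t : ℝ) : ℝ :=
  4 - 3 * ph t - 3 * ph (s - t) - ph (t + h0 - 1) - ph (e - t) + 6 * ph (1 - h0)

theorem hs_real {s e w b d : ℝ} (he : e = h0 + s - 1) (w0 : 0 ≤ w) (hw : w * ph e = ph s)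
    (s1 : 3 / 5 ≤ s) (s2 : s ≤ 67 / 100) (b0 : 0 ≤ b) (b1 : b ≤ 1 / 2) (be : b ≤ e)
    (d1 : b / 2 - h0 * ph b ≤ 1 / 20 → d ≤ 3 / 2 * (b / 2 - h0 * ph b))
    (d2 : 1 / 20 < b / 2 - h0 * ph b → d ≤ 1 / 20)
    (d3 : 11 / 100 < b / 2 - h0 * ph b → d ≤ 0) :
    4 - 2 * ph s ≤ w * (ph e + ph (e - b) - ph b) + hsM s e (b / 2 - h0 * ph b) - d := by
  have hl := h0_lo
  have hu := h0_hi
  have k1 := mul_le_mul_of_nonneg_right hl (ph_nonneg b)
  have k2 := mul_le_mul_of_nonneg_right hu (ph_nonneg b)
  have k3 := mul_nonneg h0_pos.le (ph_nonneg b)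
  have k4 := hr_k b0 b1
  have t0 : 0 ≤ b / 2 - h0 * ph b := by
    have h2 := Four.Low.ph_quad (x := b) (by linear_combination (1 / 2) * b1 + (mul_nonneg (sub_nonneg.mpr b0) (sub_nonneg.mpr b1)))
    have h3 : ph b ≤ 1 / 2 := by
      have := hr_le (x := b) (a := 1 / 2) (c := 134 / 1000) (by linear_combination b0) b1 (by norm_num)
        (by norm_num)
      linear_combination (50000 / 43301) * k1 + (50000 / 43301) * k4
    have h4 := ph_nonneg b
    linear_combination (86603 / 200000) * h2 + (63397 / 300000) * b0 + k2 + (86603 / 600000) * (mul_nonneg (sub_nonneg.mpr (sq_nonneg (b))) (sub_nonneg.mpr (le_of_eq h2))) +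
      (86603 / 300000) * (mul_nonneg (sub_nonneg.mpr (sq_nonneg (b))) (sub_nonneg.mpr h3)) +
      (86603 / 600000) * (mul_nonneg (sub_nonneg.mpr (sq_nonneg (ph b))) (sub_nonneg.mpr (le_of_eq h2))) +
      (86603 / 300000) * (mul_nonneg (sub_nonneg.mpr (sq_nonneg (ph b))) (sub_nonneg.mpr h3)) +
      (86603 / 600000) * (mul_nonneg (sub_nonneg.mpr (ge_of_eq h2)) (sub_nonneg.mpr (le_of_eq h2))) +
      (86603 / 150000) * (mul_nonneg (sub_nonneg.mpr b0) (sub_nonneg.mpr b1))
  have X0 : 0 ≤ ph e + ph (e - b) - ph b := by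
    have h2 := ph_mono b0 be
    have h3 := ph_nonneg (e - b)
    linear_combination h2 + h3
  unfold hsM
  rcases le_total b (1 / 20) with hb | hb
  · have hd := d1 (by linear_combination 86603 * k1 + 86602 * k2 + (1 / 2) * hb)
    rcases le_total s (31 / 50) with hs | hs
    · have := hp_F1 he w0 hw s1 hs b0 hb t0 rfl hd
      linear_combination this
    · have := hp_F2 he w0 hw hs s2 b0 hb t0 rfl hd
      linear_combination this
  · rcases le_or_gt (b / 2 - h0 * ph b) (1 / 20) with ht | ht
    · have hb2 : b ≤ 14 / 125 := by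
        by_contra hc
        push Not at hc
        exact absurd ht (not_le.mpr (by linear_combination (hr_t2 hc.le b1)))
      have hd := d1 ht
      rcases le_total s (31 / 50) with hs | hs
      · have u := hf1a0 (s := s) (b := b) (k := h0 * ph b)
          ⟨k1, k2, hl, hu, k3, k4, by linear_combination he + be, s1, hs, hb, hb2⟩ s1 hs hb hb2
        have v := mul_le_mul_of_nonneg_right (hr_w1 he hw s1 hs) X0
        unfold Uhf1a at u
        rw [← he, show s - b / 2 + h0 * ph b = s - (b / 2 - h0 * ph b) by ring,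
          show 1 - h0 - b / 2 + h0 * ph b = 1 - h0 - (b / 2 - h0 * ph b) by ring,
          show e - b / 2 + h0 * ph b = e - (b / 2 - h0 * ph b) by ring] at u
        linear_combination hd + u + v
      · rcases le_total s (16 / 25) with hs' | hs'
        · have u := hf1b0 (s := s) (b := b) (k := h0 * ph b)
            ⟨k1, k2, hl, hu, k3, k4, by linear_combination he + be, hs, hs', hb, hb2⟩ hs hs' hb hb2
          have v := mul_le_mul_of_nonneg_right (hr_w2 he hw s1 hs') X0
          unfold Uhf1b at u
          rw [← he, show s - b / 2 + h0 * ph b = s - (b / 2 - h0 * ph b) by ring,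
            show 1 - h0 - b / 2 + h0 * ph b = 1 - h0 - (b / 2 - h0 * ph b) by ring,
            show e - b / 2 + h0 * ph b = e - (b / 2 - h0 * ph b) by ring] at u
          linear_combination hd + u + v
        · have u := hf1c0 (s := s) (b := b) (k := h0 * ph b)
            ⟨k1, k2, hl, hu, k3, k4, by linear_combination he + be, hs', s2, hb, hb2⟩ hs' s2 hb hb2
          have v := mul_le_mul_of_nonneg_right (hr_w3 he hw s1 s2) X0
          unfold Uhf1c at u
          rw [← he, show s - b / 2 + h0 * ph b = s - (b / 2 - h0 * ph b) by ring,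
            show 1 - h0 - b / 2 + h0 * ph b = 1 - h0 - (b / 2 - h0 * ph b) by ring,
            show e - b / 2 + h0 * ph b = e - (b / 2 - h0 * ph b) by ring] at u
          linear_combination hd + u + v
    · have hb1 : 27 / 250 ≤ b := by
        by_contra hc
        push Not at hc
        exact absurd ht (not_lt.mpr (by linear_combination (hr_t1 b0 hc.le)))
      rcases le_or_gt (b / 2 - h0 * ph b) (11 / 100) with ht' | ht'
      · have hb2 : b ≤ 61 / 200 := by
          by_contra hc
          push Not at hc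
          exact absurd ht' (not_le.mpr (by linear_combination (hr_t4 hc.le b1)))
        have hd := d2 ht
        rcases le_total s (16 / 25) with hs' | hs'
        · have u := hf2a0 (s := s) (b := b) (k := h0 * ph b)
            ⟨k1, k2, hl, hu, k3, k4, by linear_combination he + be, s1, hs', hb1, hb2⟩ s1 hs' hb1 hb2
          have v := mul_le_mul_of_nonneg_right (hr_w2 he hw s1 hs') X0
          unfold Uhf2a at u
          rw [← he, show s - b / 2 + h0 * ph b = s - (b / 2 - h0 * ph b) by ring,
            show 1 - h0 - b / 2 + h0 * ph b = 1 - h0 - (b / 2 - h0 * ph b) by ring,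
            show e - b / 2 + h0 * ph b = e - (b / 2 - h0 * ph b) by ring] at u
          linear_combination hd + u + v
        · have u := hf2b0 (s := s) (b := b) (k := h0 * ph b)
            ⟨k1, k2, hl, hu, k3, k4, by linear_combination he + be, hs', s2, hb1, hb2⟩ hs' s2 hb1 hb2
          have v := mul_le_mul_of_nonneg_right (hr_w3 he hw s1 s2) X0
          unfold Uhf2b at u
          rw [← he, show s - b / 2 + h0 * ph b = s - (b / 2 - h0 * ph b) by ring,
            show 1 - h0 - b / 2 + h0 * ph b = 1 - h0 - (b / 2 - h0 * ph b) by ring,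
            show e - b / 2 + h0 * ph b = e - (b / 2 - h0 * ph b) by ring] at u
          linear_combination hd + u + v
      · have hb2 : 299 / 1000 ≤ b := by
          by_contra hc
          push Not at hc
          exact absurd ht' (not_lt.mpr (by linear_combination (hr_t3 b0 hc.le)))
        have hd := d3 ht'
        have u := hf30 (s := s) (b := b) (k := h0 * ph b)
          ⟨k1, k2, hl, hu, k3, k4, by linear_combination he + be, s1, s2, hb2, b1⟩ s1 s2 hb2 b1
        have v := mul_le_mul_of_nonneg_right (hr_w3 he hw s1 s2) X0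
        unfold Uhf3 at u
        rw [← he, show s - b / 2 + h0 * ph b = s - (b / 2 - h0 * ph b) by ring,
          show 1 - h0 - b / 2 + h0 * ph b = 1 - h0 - (b / 2 - h0 * ph b) by ring,
          show e - b / 2 + h0 * ph b = e - (b / 2 - h0 * ph b) by ring] at u
        linear_combination hd + u + v

theorem hs_real' {s e b : ℝ} (he : e = h0 + s - 1)
    (s1 : 3 / 5 ≤ s) (s2 : s ≤ 67 / 100) (b1 : b ≤ 1 / 2) (be : e ≤ b) :
    11 / 100 < b / 2 - h0 * ph b ∧ 4 - 2 * ph s ≤ hsM s e (b / 2 - h0 * ph b) := by
  have hl := h0_lo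
  have hu := h0_hi
  have b0 : 46 / 100 ≤ b := by linear_combination -he + s1 + be + hl
  have k1 := mul_le_mul_of_nonneg_right hl (ph_nonneg b)
  have k2 := mul_le_mul_of_nonneg_right hu (ph_nonneg b)
  have k3 := mul_nonneg h0_pos.le (ph_nonneg b)
  have k4 := hr_k (by linear_combination -he + s1 + be + hl) b1
  refine ⟨hr_t4 (by linear_combination -he + s1 + be + hl) b1, ?_⟩
  unfold hsM
  have u := hf40 (s := s) (b := b) (k := h0 * ph b)
    ⟨k1, k2, hl, hu, k3, k4, by linear_combination -he + be, s1, s2, by linear_combination -he + s1 + be + hl, b1⟩ s1 s2 (by linear_combination -he + s1 + be + hl) b1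
  unfold Vhf4 at u
  rw [← he, show s - b / 2 + h0 * ph b = s - (b / 2 - h0 * ph b) by ring,
    show 1 - h0 - b / 2 + h0 * ph b = 1 - h0 - (b / 2 - h0 * ph b) by ring,
    show e - b / 2 + h0 * ph b = e - (b / 2 - h0 * ph b) by ring] at u
  linear_combination u

theorem hs_realG {s e T b d : ℝ} (he : e = h0 + s - 1) (hT : 2 * ph T = ph s)
    (T0 : 41 / 100 ≤ T) (T1 : T ≤ 4437 / 10000)
    (s1 : 57 / 100 ≤ s) (s2 : s ≤ 61 / 100) (b0 : 0 ≤ b) (b1 : b ≤ 1 / 2) (be : b ≤ T)
    (d1 : b / 2 - h0 * ph b ≤ 1 / 20 → d ≤ b / 2 - h0 * ph b)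
    (d2 : 1 / 20 < b / 2 - h0 * ph b → d ≤ 1 / 20)
    (d3 : 11 / 100 < b / 2 - h0 * ph b → d ≤ 0) :
    4 - 2 * ph s ≤ 2 * (ph T + ph (T - b) - ph b) + hsM s e (b / 2 - h0 * ph b) - d := by
  have hl := h0_lo
  have hu := h0_hi
  have k1 := mul_le_mul_of_nonneg_right hl (ph_nonneg b)
  have k2 := mul_le_mul_of_nonneg_right hu (ph_nonneg b)
  have k3 := mul_nonneg h0_pos.le (ph_nonneg b)
  have k4 := hr_k b0 b1
  have t0 : 0 ≤ b / 2 - h0 * ph b := by
    have h2 := Four.Low.ph_quad (x := b) (by linear_combination (1 / 2) * b1 + (mul_nonneg (sub_nonneg.mpr b0) (sub_nonneg.mpr b1)))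
    have h3 : ph b ≤ 1 / 2 := by
      have := hr_le (x := b) (a := 1 / 2) (c := 134 / 1000) (by linear_combination b0) b1 (by norm_num)
        (by norm_num)
      linear_combination (50000 / 43301) * k1 + (50000 / 43301) * k4
    have h4 := ph_nonneg b
    linear_combination (86603 / 200000) * h2 + (63397 / 300000) * b0 + k2 + (86603 / 600000) * (mul_nonneg (sub_nonneg.mpr (sq_nonneg (b))) (sub_nonneg.mpr (le_of_eq h2))) +
      (86603 / 300000) * (mul_nonneg (sub_nonneg.mpr (sq_nonneg (b))) (sub_nonneg.mpr h3)) +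
      (86603 / 600000) * (mul_nonneg (sub_nonneg.mpr (sq_nonneg (ph b))) (sub_nonneg.mpr (le_of_eq h2))) +
      (86603 / 300000) * (mul_nonneg (sub_nonneg.mpr (sq_nonneg (ph b))) (sub_nonneg.mpr h3)) +
      (86603 / 600000) * (mul_nonneg (sub_nonneg.mpr (ge_of_eq h2)) (sub_nonneg.mpr (le_of_eq h2))) +
      (86603 / 150000) * (mul_nonneg (sub_nonneg.mpr b0) (sub_nonneg.mpr b1))
  unfold hsM
  rcases le_total b (1 / 20) with hb | hb
  · have hd := d1 (by linear_combination 86603 * k1 + 86602 * k2 + (1 / 2) * hb)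
    have := hp_G he hT T0 T1 s1 s2 b0 hb t0 rfl hd
    linear_combination this
  · rcases le_or_gt (b / 2 - h0 * ph b) (1 / 20) with ht | ht
    · have hb2 : b ≤ 14 / 125 := by
        by_contra hc
        push Not at hc
        exact absurd ht (not_le.mpr (by linear_combination (hr_t2 hc.le b1)))
      have hd := d1 ht
      have u := hg10 (s := s) (b := b) (k := h0 * ph b) (T := T)
        ⟨k1, k2, hl, hu, k3, k4, hT.ge, hT.le, by linear_combination T1, T0, be, s1, s2, by linear_combination hb, hb2⟩
        s1 s2 (by linear_combination hb) hb2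
      unfold Uhg1 at u
      rw [← he, show s - b / 2 + h0 * ph b = s - (b / 2 - h0 * ph b) by ring,
        show 1 - h0 - b / 2 + h0 * ph b = 1 - h0 - (b / 2 - h0 * ph b) by ring,
        show e - b / 2 + h0 * ph b = e - (b / 2 - h0 * ph b) by ring] at u
      linear_combination hd + u
    · have hb1 : 27 / 250 ≤ b := by
        by_contra hc
        push Not at hc
        exact absurd ht (not_lt.mpr (by linear_combination (hr_t1 b0 hc.le)))
      rcases le_or_gt (b / 2 - h0 * ph b) (11 / 100) with ht' | ht'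
      · have hb2 : b ≤ 61 / 200 := by
          by_contra hc
          push Not at hc
          exact absurd ht' (not_le.mpr (by linear_combination (hr_t4 hc.le b1)))
        have hd := d2 ht
        have u := hg20 (s := s) (b := b) (k := h0 * ph b) (T := T)
          ⟨k1, k2, hl, hu, k3, k4, hT.ge, hT.le, by linear_combination T1, T0, be, s1, s2, hb1, hb2⟩
          s1 s2 hb1 hb2
        unfold Uhg2 at u
        rw [← he, show s - b / 2 + h0 * ph b = s - (b / 2 - h0 * ph b) by ring,
          show 1 - h0 - b / 2 + h0 * ph b = 1 - h0 - (b / 2 - h0 * ph b) by ring,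
          show e - b / 2 + h0 * ph b = e - (b / 2 - h0 * ph b) by ring] at u
        linear_combination hd + u
      · have hb2 : 299 / 1000 ≤ b := by
          by_contra hc
          push Not at hc
          exact absurd ht' (not_lt.mpr (by linear_combination (hr_t3 b0 hc.le)))
        have hd := d3 ht'
        have u := hg30 (s := s) (b := b) (k := h0 * ph b) (T := T)
          ⟨k1, k2, hl, hu, k3, k4, hT.ge, hT.le, by linear_combination T1, T0, be, s1, s2, hb2, b1⟩
          s1 s2 hb2 b1
        unfold Uhg3 at u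
        rw [← he, show s - b / 2 + h0 * ph b = s - (b / 2 - h0 * ph b) by ring,
          show 1 - h0 - b / 2 + h0 * ph b = 1 - h0 - (b / 2 - h0 * ph b) by ring,
          show e - b / 2 + h0 * ph b = e - (b / 2 - h0 * ph b) by ring] at u
        linear_combination hd + u

theorem hs_realG' {s e T b : ℝ} (he : e = h0 + s - 1) (hT : 2 * ph T = ph s)
    (T0 : 41 / 100 ≤ T) (T1 : T ≤ 4437 / 10000)
    (s1 : 57 / 100 ≤ s) (s2 : s ≤ 61 / 100) (b1 : b ≤ 1 / 2) (be : T ≤ b) :
    11 / 100 < b / 2 - h0 * ph b ∧ 4 - 2 * ph s ≤ hsM s e (b / 2 - h0 * ph b) := by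
  have hl := h0_lo
  have hu := h0_hi
  have k1 := mul_le_mul_of_nonneg_right hl (ph_nonneg b)
  have k2 := mul_le_mul_of_nonneg_right hu (ph_nonneg b)
  have k3 := mul_nonneg h0_pos.le (ph_nonneg b)
  have k4 := hr_k (by linear_combination T0 + be) b1
  refine ⟨hr_t4 (by linear_combination T0 + be) b1, ?_⟩
  unfold hsM
  have u := hg40 (s := s) (b := b) (k := h0 * ph b) (T := T)
    ⟨k1, k2, hl, hu, k3, k4, hT.ge, hT.le, by linear_combination T1, T0, be, s1, s2, by linear_combination T0 + be, b1⟩
    s1 s2 (by linear_combination T0 + be) b1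
  unfold Vhg4 at u
  rw [← he, show s - b / 2 + h0 * ph b = s - (b / 2 - h0 * ph b) by ring,
    show 1 - h0 - b / 2 + h0 * ph b = 1 - h0 - (b / 2 - h0 * ph b) by ring,
    show e - b / 2 + h0 * ph b = e - (b / 2 - h0 * ph b) by ring] at u
  linear_combination u

/-- The new point is not above the height one. -/
theorem hs_low {s e w y r q d m : ℝ} (P : Par s e w) (hs : 3 / 5 ≤ s) (y0 : h0 ≤ y)
    (y1 : y ≤ 1) (q1 : 1 / 2 ≤ q) (q2 : q ≤ 1) (hq : q ≤ y) (hc : ext q ≤ y)
    (d1 : y - h0 ≤ 1 / 20 → d ≤ 3 / 2 * (y - h0)) (d2 : 1 / 20 < y - h0 → d ≤ 1 / 20)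
    (d3 : 11 / 100 < y - h0 → d ≤ 0) (hm : hsM s e (y - h0) - d ≤ m) :
    2 * (1 + g s) ≤ w * gn (j1 e) r q y + m := by
  have he := P.he
  have hp := h0_gt
  have hpu := h0_hi
  have s2 := P.s1
  have hww : w * ph e = ph s := P.hw
  have e2 := P.e_gt
  obtain ⟨B, B0, B1, hB⟩ := hw_end y0 y1
  have ht : y - h0 = B / 2 - h0 * ph B := by linear_combination hB
  rw [ht] at d1 d2 d3 hm
  rcases le_total B e with h | h
  · have a1 := hw_low (r := r) (j1_ok P) (by linear_combination hs - he + hp) (by linear_combination he + hpu + s2) (by linear_combination y0 + he + s2) q1 q2 hq hc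
      B0 B1 hB h
    have a2 := mul_le_mul_of_nonneg_left a1 P.w_nonneg
    have a3 := hs_real he P.w_nonneg hww hs s2 B0 B1 h d1 d2 d3
    unfold Four.Low.ph at *
    linear_combination hm + a2 + a3
  · have a2 := mul_nonneg P.w_nonneg (gn_nonneg (r := r) (q := q) (y := y) (j1_ok P))
    obtain ⟨a3, a4⟩ := hs_real' he hs s2 B1 h
    have a5 := d3 a3
    have a6 : ph s = 1 - g s := rfl
    linear_combination hm + a2 + a4 + a5 + 2 * a6

/-- The new point is above the height one. -/
theorem hs_top {s e w y r q m : ℝ} (P : Par s e w) (hs : 3 / 5 ≤ s) (y0 : 1 ≤ y)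
    (y1 : y ≤ h0 + s / 2) (q1 : 1 / 2 ≤ q) (q2 : q ≤ 1) (hq : q ≤ y) (hc : ext q ≤ y)
    (hm : hsT s e (y - h0) ≤ m) :
    2 * (1 + g s) ≤ w * gn (j1 e) r q y + m := by
  have he := P.he
  have hl := h0_lo
  have hu := h0_hi
  have s2 := P.s1
  have hww : w * ph e = ph s := P.hw
  have e2 := P.e_gt
  have a6 : ph s = 1 - g s := rfl
  have a2 := mul_nonneg P.w_nonneg (gn_nonneg (r := r) (q := q) (y := y) (j1_ok P))
  unfold hsT at hm
  rcases le_total s (129 / 200) with h | h
  · have u := ht20 (s := s) (t := y - h0) ⟨hl, hu, by linear_combination y0, by linear_combination y1, by linear_combination hs, h,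
      by linear_combination y0 + hu, by linear_combination y1 + (1 / 2) * h⟩ (by linear_combination hs) h (by linear_combination y0 + hu) (by linear_combination y1 + (1 / 2) * h)
    unfold Uht2 at u
    rw [← he] at u
    linear_combination hm + 2 * a6 + a2 + u
  · rcases le_total (y - h0) (29 / 200) with h' | h'
    · have u := ht10 (s := s) (t := y - h0) ⟨hl, hu, by linear_combination y0, by linear_combination y1, h, s2,
        by linear_combination y0 + hu, h'⟩ h s2 (by linear_combination y0 + hu) h'
      have hh := hr_h0.2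
      have a1 := hw_top (T := e) (r := r) (j1_ok P) (by linear_combination (1 / 2) * hs + y0 + y1 - he) (by linear_combination he + hu + s2) (by linear_combination y0 + he + hu + s2) q1 q2
        hq hc (by linear_combination -he + h + h') (by linear_combination y0 + he + hu + s2)
      have X0 : 0 ≤ ph (1 - (y - e)) + ph (1 - (y - e) - 1 / 2) - ph (1 / 2) := by
        have h2 := ph_mono (a := 1 / 2) (b := 1 - (y - e)) (by norm_num) (by linear_combination -he + h + h')
        have h3 := ph_nonneg (1 - (y - e) - 1 / 2)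
        linear_combination h2 + h3
      have v := mul_le_mul_of_nonneg_right (hr_w3 he hww hs s2) X0
      have a3 := mul_le_mul_of_nonneg_left a1 P.w_nonneg
      rw [show 1 - (y - e) = s - (y - h0) by linear_combination he] at v a3
      unfold Uht1 at u
      rw [← he] at u
      linear_combination hm + 2 * a6 + u + v + a3
    · have u := ht30 (s := s) (t := y - h0) ⟨hl, hu, by linear_combination y0, by linear_combination y1, h, s2,
        h', by linear_combination y1 + (1 / 2) * s2⟩ h s2 h' (by linear_combination y1 + (1 / 2) * s2)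
      unfold Uht3 at u
      rw [← he] at u
      linear_combination hm + 2 * a6 + a2 + u

end Pool.Agent.Strip051.FourF
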