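import Pool.Agent.Strip051.FourF.MidGain
import Pool.Agent.Strip051.FourF.MidCorner
import Pool.Agent.Strip051.FourF.HighSum
import Pool.Agent.Strip051.FourF.BoxHA
import Pool.Agent.Strip051.FourF.BoxHB
import Pool.Agent.Strip051.FourF.BoxHC

/-! # The middle probes when the new point is between `h0` and `1` -/

namespace Pool.Agent.Strip051.FourF.MB

open Pool.Agent.StripNear Pool.Agent.StripSquare Pool.Agent.Strip051
open Pool.Agent.Strip051.Four (gn mirP mirP_ok j1 arc_sub gn_nonneg ext_facts g_le_of_abs)
open Pool.Agent.Strip051.FourD (gam_up gam_at)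
open Pool.Agent.Strip051.Four.Low (ph ph_nonneg)
open Pool.Agent.Strip051.FourF (hsM)

/-- The new disc touches the arc with centre `C` at the lower end of the body. -/
theorem pt_end' {y z C α A t : ℝ} (hC1 : C ≤ y) (hC2 : z ≤ C + 1) (hz : t ≤ z) (ht : y ≤ t + 1)
    (ha : A ≤ g (z - C) + α) : A + (g (t - y) - (g (t - C) + α)) ≤ g (z - y) := by
  have := pt_end (y := -y) (z := -z) (C := -C) (α := α) (A := A) (t := -t) (by linear_combination hC1)
    (by linear_combination hC2) (by linear_combination hz) (by linear_combination ht)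
    (by rw [show -z - -C = -(z - C) by ring, g_neg]; exact ha)
  rw [show -t - -y = -(t - y) by ring, g_neg, show -t - -C = -(t - C) by ring, g_neg,
    show -z - -y = -(z - y) by ring, g_neg] at this
  exact this

section

variable {s e w y r x : ℝ}

/-! ### The new front -/

theorem hn1 (P : Par s e w) (h1 : h0 ≤ y) (h2 : y ≤ 1) : g (1 - y) ≤ nv (p2 s e) r x y := by
  have := P.s0
  have := P.s1
  have he := P.he
  have := h0_lt
  have := h0_gt
  apply nv_ge (p2_ok P)
  intro z z1 z2
  simp only [p2] at z1 z2 ⊢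
  right
  rcases le_total z 1 with h | h
  · have := pt_end (y := y) (z := z) (C := h0 + s) (α := -g e) (A := bp s e z) (t := 1)
      (by linear_combination h2 + this + (‹57 / 100 ≤ s›)) (by linear_combination h1 + h2 + z1) h (by linear_combination h1 + this)
      (by have := bp_le1 (s := s) (e := e) (z := z); linear_combination this)
    rw [show (1 : ℝ) - (h0 + s) = -e by rw [he]; ring, g_neg] at this
    linear_combination this
  · have := pt_end' (y := y) (z := z) (C := h0) (α := -g (1 - h0)) (A := bp s e z) (t := 1)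
      h1 (by linear_combination this + z2 + (‹s ≤ 67 / 100›)) h (by linear_combination h2)
      (by have := bp_le2 (s := s) (e := e) (z := z); linear_combination this)
    linear_combination this

theorem hn2 (P : Par s e w) (h1 : h0 ≤ y) (h2 : y ≤ 1) :
    g (2 * h0 + s - 1 - y) ≤ nv (p3 s e) r x y := by
  have := P.s0
  have := P.s1
  have he := P.he
  have := h0_lt
  have := h0_gt
  apply nv_ge (p3_ok P)
  intro z z1 z2
  rw [p3_lo] at z1
  rw [p3_hi] at z2
  right
  rcases le_total z (2 * h0 + s - 1) with h | h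
  · have := pt_end (y := y) (z := z) (A := (p3 s e).a z) (t := 2 * h0 + s - 1)
      (by linear_combination h2 + this + (‹57 / 100 ≤ s›)) (by linear_combination this + z1 + (‹s ≤ 67 / 100›)) h (by linear_combination 2 * h1 + h2 + (‹s ≤ 67 / 100›)) (p3_le2 z)
    rw [show 2 * h0 + s - 1 - (h0 + s) = -(1 - h0) by ring, g_neg] at this
    linear_combination this
  · have := pt_end' (y := y) (z := z) (A := (p3 s e).a z) (t := 2 * h0 + s - 1)
      h1 (by linear_combination h1 + h2 + z2) h (by linear_combination h2 + 2 * this + (‹57 / 100 ≤ s›)) (p3_le1 z)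
    rw [show 2 * h0 + s - 1 - h0 = e by rw [he]; ring] at this
    linear_combination this

theorem hn3 (P : Par s e w) (h1 : h0 ≤ y) (h2 : y ≤ 1) : g (1 - y) ≤ nv (q2 s e) r x y := by
  have := P.s0
  have := P.s1
  have he := P.he
  have := h0_lt
  have := h0_gt
  have hg1 := g_le_one (1 - y)
  apply nv_ge (q2_ok P)
  intro z z1 z2
  simp only [q2] at z1 z2 ⊢
  right
  rcases le_or_gt z e with k1 | k1
  · rw [bq_wing k1]
    have e1 := arc_sub (a := y) (b := 2 * h0 + s - 1) (x := z) (y := e) (by linear_combination h2 + 2 * this + (‹57 / 100 ≤ s›)) k1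
      (by linear_combination z1) (by linear_combination h1 + he + (‹s ≤ 67 / 100›))
    rw [show e - (2 * h0 + s - 1) = -h0 by rw [he]; ring, g_neg, g_h0] at e1
    have e2 : (4 / 5 : ℝ) ≤ g (e - y) := by
      unfold g
      apply Real.le_sqrt_of_sq_le
      linear_combination (19 / 200) * h2 + (8 / 5) * he + (37 / 100) * (‹s ≤ 67 / 100›) +
        (mul_nonneg (sub_nonneg.mpr h1) (sub_nonneg.mpr h2)) + 2 * (mul_nonneg (sub_nonneg.mpr h1) (sub_nonneg.mpr (le_of_eq he))) +
        4 * (mul_nonneg (sub_nonneg.mpr h2) (sub_nonneg.mpr (le_of_eq he))) + (1 / 2) * (mul_nonneg (sub_nonneg.mpr h2) (sub_nonneg.mpr z1)) +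
        (1 / 2) * (mul_nonneg (sub_nonneg.mpr h2) (sub_nonneg.mpr z2)) + (3 / 2) * (mul_nonneg (sub_nonneg.mpr h2) (sub_nonneg.mpr ‹s ≤ 67 / 100›)) +
        (mul_nonneg (sub_nonneg.mpr (ge_of_eq he)) (sub_nonneg.mpr (le_of_eq he))) + 2 * (mul_nonneg (sub_nonneg.mpr (ge_of_eq he)) (sub_nonneg.mpr z1)) +
        2 * (mul_nonneg (sub_nonneg.mpr (ge_of_eq he)) (sub_nonneg.mpr z2)) + 11279 * (mul_pos (sub_pos.mpr this) (sub_pos.mpr this)) +
        11280 * (mul_pos (sub_pos.mpr this) (sub_pos.mpr ‹h0 < 0.8661›)) + (mul_nonneg (sub_nonneg.mpr z1) (sub_nonneg.mpr ‹57 / 100 ≤ s›)) +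
        (mul_nonneg (sub_nonneg.mpr z2) (sub_nonneg.mpr ‹57 / 100 ≤ s›))
    linear_combination hg1 + e1 + e2 + 2 * (‹s ≤ 67 / 100›)
  · rcases lt_or_ge z h0 with k2 | k2
    · rw [bq_gap k1 k2]
      have := g_nonneg (z - y)
      linear_combination hg1 + this
    · rcases le_total z 1 with h | h
      · have := pt_end (y := y) (z := z) (C := 1) (α := -1) (A := bq s e z) (t := 1)
          h2 (by linear_combination this + k2) h (by linear_combination h1 + this) (by have := bq_main_le1 P k2; linear_combination this)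
        rw [sub_self, g_zero] at this
        linear_combination this
      · have := pt_end' (y := y) (z := z) (C := h0) (α := -g (1 - h0)) (A := bq s e z) (t := 1)
          h1 (by linear_combination this + z2) h (by linear_combination h2) (by have := bq_main_le2 P k2; linear_combination this)
        linear_combination this

/-- The value on the wing. -/
noncomputable def wh (s r y : ℝ) : ℝ :=
  max (481 / 200 - 2 * s + g (ext r) - g (y + ext r - 1))
    (381 / 200 - 2 * s + g (h0 + 1 - y - r) - g r)

theorem hn4 (P : Par s e w) (r1 : 1 / 2 ≤ r) (r2 : r ≤ 1) (h1 : h0 ≤ y) (h2 : y ≤ 1) {v : ℝ}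
    (hw : v ≤ wh s r y) (hv : v ≤ 1 + g (h0 + s - y) - g (1 - h0)) : v ≤ nv (q3 s e) r x y := by
  have := P.s0
  have := P.s1
  have he := P.he
  have := h0_lt
  have := h0_gt
  apply nv_ge (q3_ok P)
  intro z z1 z2
  rw [q3_lo] at z1
  rw [q3_hi] at z2
  rcases le_or_gt z (h0 + s) with k1 | k1
  · right
    have k2 : (q3 s e).a z ≤ g (z - (2 * h0 + s - 1)) + -1 := by
      rw [q3_a]
      have := bq_main_le1 P (z := 2 * h0 + s - z) (by linear_combination k1)
      rw [show 2 * h0 + s - z - 1 = -(z - (2 * h0 + s - 1)) by ring, g_neg] at this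
      linear_combination this
    have := pt_end (y := y) (z := z) (A := (q3 s e).a z) (t := h0 + s) (by linear_combination h2 + 2 * this + (‹57 / 100 ≤ s›))
      (by linear_combination z1) k1 (by linear_combination h1 + (‹s ≤ 67 / 100›)) k2
    rw [show h0 + s - (2 * h0 + s - 1) = 1 - h0 by ring] at this
    linear_combination hv + this
  · rcases lt_or_ge z (h0 + 1) with k2 | k2
    · left
      have hg0 := gam_nonneg r x (z - y)
      rw [q3_a, bq_gap (by linear_combination he + k2) (by linear_combination k1)]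
      have m1 := g_le_one (h0 + s - y)
      have m2 := g_nonneg (1 - h0)
      linear_combination hv + hg0 + m1 + m2
    · have hA : (q3 s e).a z = g (z - 1) - (481 / 200 - 2 * s) := by
        rw [q3_a, bq_wing (by linear_combination -he + k2),
          show 2 * h0 + s - z - (2 * h0 + s - 1) = -(z - 1) by ring, g_neg]
      unfold wh at hw
      rcases le_max_iff.1 hw with k3 | k3
      · have := pt_exit (q := x) (z := z) (C := 1) (α := -(481 / 200 - 2 * s))
          (A := (q3 s e).a z) r1 r2 h2 (by linear_combination r1 + h1 + this) (by rw [hA]; linear_combination)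
        rcases this with h | h
        · left
          linear_combination k3 + h
        · right
          linear_combination k3 + h
      · left
        rw [hA]
        have e3 := arc_sub (a := 1) (b := y + r) (x := h0 + 1) (y := z) (by linear_combination r1 + h1 + this) k2
          (by linear_combination r2 + h2 + this) (by linear_combination z2)
        rw [show h0 + 1 - 1 = h0 by ring, g_h0] at e3
        unfold gam
        rw [if_pos (by linear_combination h2 + this + k2)]
        unfold vir
        refine le_trans ?_ (le_max_right _ _)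
        rw [show z - y - r = z - (y + r) by ring]
        rw [show h0 + 1 - y - r = h0 + 1 - (y + r) by ring] at k3
        linear_combination k3 + e3

/-! ### The old front -/

theorem ho1t (P : Par s e w) (r1 : 1 / 2 ≤ r) (h1 : h0 ≤ y) (h2 : y ≤ 1) :
    ov (p2 s e) r x y ≤ g (y + r - 1) - g r := by
  have := P.s0
  have := P.s1
  have := h0_lt
  have := h0_gt
  have := ov_up (q := x) (r := r) (y := y) (z0 := 1) (β := 0) (p2_ok P)
    (by simp only [p2]; linear_combination (‹s ≤ 67 / 100›)) (by simp only [p2]; linear_combination (‹57 / 100 ≤ s›)) (by linear_combination h2) (by linear_combination 2 * r1 + h1 + this)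
    (by
      simp only [p2]
      rw [bp_eq2 P le_rfl (by linear_combination (‹57 / 100 ≤ s›)), sub_self])
  linear_combination this

theorem ho1y (P : Par s e w) (h1 : h0 ≤ y) (h2 : y ≤ 1) :
    ov (p2 s e) r x y ≤ g e - g (h0 + s - y) := by
  have := P.s0
  have := P.s1
  have := h0_lt
  have := h0_gt
  have := ov_at (q := x) (r := r) (y := y) (β := g (h0 + s - y) - g e) (p2_ok P)
    (by simp only [p2]; linear_combination h1 + this + (‹s ≤ 67 / 100›)) (by simp only [p2]; linear_combination h2 + (‹57 / 100 ≤ s›))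
    (by
      simp only [p2]
      rw [bp_eq1 P (by linear_combination h1 + this + (‹s ≤ 67 / 100›)) h2, ← g_neg (y - (h0 + s)), neg_sub])
  linear_combination this

theorem ho2t (P : Par s e w) (r1 : 1 / 2 ≤ r) (h1 : h0 ≤ y) (h2 : y ≤ 1) :
    ov (p3 s e) r x y ≤ g (y + r - (2 * h0 + s - 1)) - g r := by
  have := P.s0
  have := P.s1
  have := h0_lt
  have := h0_gt
  have := ov_up (q := x) (r := r) (y := y) (z0 := 2 * h0 + s - 1) (β := 0) (p3_ok P)
    (by rw [p3_lo]; linear_combination (‹57 / 100 ≤ s›)) (by rw [p3_hi]; linear_combination (‹s ≤ 67 / 100›)) (by linear_combination h2 + 2 * this + (‹57 / 100 ≤ s›)) (by linear_combination 2 * r1 + 2 * h1 + h2 + (‹s ≤ 67 / 100›))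
    (by
      rw [p3_a, sub_sub_cancel, bp_eq2 P le_rfl (by linear_combination (‹57 / 100 ≤ s›)), sub_self])
  linear_combination this

theorem ho2y (P : Par s e w) (h1 : h0 ≤ y) (h2 : y ≤ 1) :
    ov (p3 s e) r x y ≤ g (1 - h0) - g (h0 + s - y) := by
  have := P.s0
  have := P.s1
  have := h0_lt
  have := h0_gt
  have := ov_at (q := x) (r := r) (y := y) (β := g (h0 + s - y) - g (1 - h0)) (p3_ok P)
    (by rw [p3_lo]; linear_combination 2 * h1 + h2) (by rw [p3_hi]; linear_combination h2 + 2 * this)
    (by
      rw [p3_a, bp_eq2 P (by linear_combination h2 + 2 * this + (‹57 / 100 ≤ s›)) (by linear_combination 2 * h1 + h2),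
        show 2 * h0 + s - y - h0 = h0 + s - y by ring])
  linear_combination this

theorem ho3y (P : Par s e w) (h1 : h0 ≤ y) (h2 : y ≤ 1) :
    ov (q2 s e) r x y ≤ 1 - g (1 - y) := by
  have := P.s0
  have := P.s1
  have := h0_lt
  have := h0_gt
  have := ov_at (q := x) (r := r) (y := y) (β := g (1 - y) - 1) (q2_ok P)
    (by simp only [q2]; linear_combination 2 * h1 + h2 + (‹s ≤ 67 / 100›)) (by simp only [q2]; linear_combination h2)
    (by
      simp only [q2]
      rw [bq_eq1 P h1 h2, ← g_neg (y - 1), neg_sub])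
  linear_combination this

theorem ho4y (P : Par s e w) (h1 : h0 ≤ y) (h2 : y ≤ 1) :
    ov (q3 s e) r x y ≤ g (1 - h0) - g (h0 + s - y) := by
  have := P.s0
  have := P.s1
  have := h0_lt
  have := h0_gt
  have := ov_at (q := x) (r := r) (y := y) (β := g (h0 + s - y) - g (1 - h0)) (q3_ok P)
    (by rw [q3_lo]; linear_combination 2 * h1 + h2 + (‹s ≤ 67 / 100›)) (by rw [q3_hi]; linear_combination h2)
    (by
      rw [q3_a, bq_eq2 P (by linear_combination h2 + 2 * this + (‹57 / 100 ≤ s›)) (by linear_combination 2 * h1 + h2 + (‹s ≤ 67 / 100›)),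
        show 2 * h0 + s - y - h0 = h0 + s - y by ring])
  linear_combination this

theorem ho4t (P : Par s e w) (r1 : 1 / 2 ≤ r) (h1 : h0 ≤ y) (h2 : y ≤ 1) :
    ov (q3 s e) r x y ≤ g (y + r - (2 * h0 + s - 1)) - g r := by
  have := P.s0
  have := P.s1
  have := h0_lt
  have := h0_gt
  have := ov_up (q := x) (r := r) (y := y) (z0 := 2 * h0 + s - 1) (β := 0) (q3_ok P)
    (by rw [q3_lo]; linear_combination) (by rw [q3_hi]; linear_combination 2 * h1 + 2 * h2 + (‹s ≤ 67 / 100›)) (by linear_combination h2 + 2 * this + (‹57 / 100 ≤ s›)) (by linear_combination 2 * r1 + 2 * h1 + h2 + (‹s ≤ 67 / 100›))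
    (by
      rw [q3_a, sub_sub_cancel, bq_eq1 P (by linear_combination h1 + h2) le_rfl, sub_self, g_zero, sub_self])
  linear_combination this

theorem ho4v (P : Par s e w) (r1 : 1 / 2 ≤ r) (h1 : h0 ≤ y) (h2 : y ≤ 1) :
    ov (q3 s e) r x y ≤ g (y + r - (h0 + s)) - g r - g (1 - h0) + 1 := by
  have := P.s0
  have := P.s1
  have := h0_lt
  have := h0_gt
  have := ov_up (q := x) (r := r) (y := y) (z0 := h0 + s) (β := g (1 - h0) - 1) (q3_ok P)
    (by rw [q3_lo]; linear_combination h1 + h2) (by rw [q3_hi]; linear_combination h1 + h2 + (‹s ≤ 67 / 100›)) (by linear_combination h2 + this + (‹57 / 100 ≤ s›)) (by linear_combination 2 * r1 + h1 + (‹s ≤ 67 / 100›))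
    (by
      rw [q3_a, show 2 * h0 + s - (h0 + s) = h0 by ring, bq_eq1 P le_rfl (by linear_combination h1 + h2),
        ← g_neg (h0 - 1), neg_sub])
  linear_combination this

end

/-- The new point is between `h0` and `1`: the gains of the middle probes. -/
theorem mid_highA {s e w r q y : ℝ} (P : Par s e w) (r1 : 1 / 2 ≤ r) (r2 : r ≤ 1)
    (h1 : h0 ≤ y) (h2 : y ≤ 1) :
    ∃ d, (y - h0 ≤ 1 / 20 → d ≤ y - h0) ∧ (1 / 20 < y - h0 → d ≤ 1 / 20) ∧
      (11 / 100 < y - h0 → d ≤ 0) ∧ hsM s e (y - h0) - d ≤ mid s e r q y := by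
  have hh : h0 ≤ 86603 / 100000 := Four.Low.h0_hi
  have hl : 86602 / 100000 ≤ h0 := Four.Low.h0_lo
  have s0 := P.s0
  have s1 := P.s1
  have he := P.he
  obtain ⟨t, ht⟩ : ∃ t, t = y - h0 := ⟨_, rfl⟩
  have t0 : 0 ≤ t := by linear_combination h1 - ht
  have t1 : t ≤ 1 - h0 := by linear_combination h2 + ht
  have gph : ∀ z, g z = 1 - ph z := fun z => by
    unfold Four.Low.ph
    ring
  have n1 := hn1 (r := r) (x := q) P h1 h2
  have n2 := hn2 (r := r) (x := q) P h1 h2
  have n3 := hn3 (r := r) (x := q) P h1 h2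
  have o1 := ho1y (r := r) (x := q) P h1 h2
  have o2 := ho2y (r := r) (x := q) P h1 h2
  have o3 := ho3y (r := r) (x := q) P h1 h2
  have o4 := ho4y (r := r) (x := q) P h1 h2
  rw [gph, show 1 - y = 1 - h0 - t by linear_combination ht] at n1 n3
  rw [gph, show 2 * h0 + s - 1 - y = e - t by linear_combination -he + ht] at n2
  rw [gph (1 - y), show 1 - y = 1 - h0 - t by linear_combination ht] at o3
  rw [gph e, gph (h0 + s - y), show h0 + s - y = s - t by linear_combination ht] at o1
  rw [gph (1 - h0), gph (h0 + s - y), show h0 + s - y = s - t by linear_combination ht] at o2 o4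
  have hmid : mid s e r q y = nv (p2 s e) r q y - ov (p2 s e) r q y +
      (nv (p3 s e) r q y - ov (p3 s e) r q y) + (nv (q2 s e) r q y - ov (q2 s e) r q y) +
      (nv (q3 s e) r q y - ov (q3 s e) r q y) := by
    unfold mid
    rw [gn_eq, gn_eq, gn_eq, gn_eq]
  -- the wing does not matter
  have easy : 1 + g (h0 + s - y) - g (1 - h0) ≤ nv (q3 s e) r q y →
      ∃ d, (y - h0 ≤ 1 / 20 → d ≤ y - h0) ∧ (1 / 20 < y - h0 → d ≤ 1 / 20) ∧
      (11 / 100 < y - h0 → d ≤ 0) ∧ hsM s e (y - h0) - d ≤ mid s e r q y := by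
    intro n4
    rw [gph (1 - h0), gph (h0 + s - y), show h0 + s - y = s - t by linear_combination ht] at n4
    refine ⟨0, fun _ => by linear_combination h1, fun _ => by norm_num, fun _ => le_rfl, ?_⟩
    rw [hmid, ← ht]
    unfold hsM
    linear_combination n1 + n2 + n3 + o1 + o2 + o3 + o4 + n4
  rcases le_total (1 + g (h0 + s - y) - g (1 - h0)) (wh s r y) with hc | hc
  · exact easy (hn4 P r1 r2 h1 h2 hc le_rfl)
  have n4 := hn4 (x := q) P r1 r2 h1 h2 le_rfl hc
  obtain ⟨p, q', b, k, A⟩ := ak_exists r1 r2
  have k0 := A.k3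
  have k4 := A.k4
  have b0 := A.h.b0
  have b1 := A.h.b1
  have hp := A.p_eq
  have hq := A.q_eq
  have hp1 := A.h.p1
  rcases A.h.two with ⟨e1, e2⟩ | ⟨e1, e2⟩
  · apply easy
    refine le_trans ?_ n4
    have q0 := A.h.q_ge
    have q1 := A.h.q1
    have a1 : g r ≤ 1 / 2 := by
      rw [← g_h0]
      exact g_anti (by linear_combination hl) (by linear_combination -e1 + q0)
    have a2 : 9 / 10 ≤ g (h0 + 1 - y - r) := by
      unfold g
      apply Real.le_sqrt_of_sq_le
      linear_combination (43301 / 50000) * h1 + (5801 / 25000) * hl - (5801 / 25000) * e1 +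
        (5801 / 25000) * q0 + (mul_nonneg (sub_nonneg.mpr r1) (sub_nonneg.mpr r2)) + 2 * (mul_nonneg (sub_nonneg.mpr r1) (sub_nonneg.mpr h2)) +
        2 * (mul_nonneg (sub_nonneg.mpr r1) (sub_nonneg.mpr hl)) + (mul_nonneg (sub_nonneg.mpr h1) (sub_nonneg.mpr h2)) +
        (mul_nonneg (sub_nonneg.mpr h1) (sub_nonneg.mpr hl))
    have a3 : 98 / 100 ≤ g (1 - h0) := by
      unfold g
      apply Real.le_sqrt_of_sq_le
      linear_combination (6699 / 50000) * hl + (mul_nonneg (sub_nonneg.mpr h1) (sub_nonneg.mpr hl)) +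
        (mul_nonneg (sub_nonneg.mpr h2) (sub_nonneg.mpr hl))
    have a4 : g (h0 + s - y) ≤ 9 / 10 := by
      have a5 : 43602 / 100000 ≤ h0 + s - y := by linear_combination h2 + hl + s0
      exact Real.sqrt_le_iff.2 ⟨by norm_num, by linear_combination (17441 / 20000) * h2 + (120603 / 100000) * hl + (43603 / 50000) * s0 +
        (mul_nonneg (sub_nonneg.mpr h1) (sub_nonneg.mpr hh)) + (mul_nonneg (sub_nonneg.mpr h2) (sub_nonneg.mpr h2)) +
        (mul_nonneg (sub_nonneg.mpr h2) (sub_nonneg.mpr hl)) + 2 * (mul_nonneg (sub_nonneg.mpr h2) (sub_nonneg.mpr s0)) +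
        2 * (mul_nonneg (sub_nonneg.mpr hh) (sub_nonneg.mpr s1)) + (mul_nonneg (sub_nonneg.mpr s0) (sub_nonneg.mpr s0))⟩
    unfold wh
    refine le_trans ?_ (le_max_right _ _)
    linear_combination 2 * s1 + a1 + a2 + a3 + a4
  · have o1t := ho1t (x := q) P r1 h1 h2
    have o2t := ho2t (x := q) P r1 h1 h2
    have o4t := ho4t (x := q) P r1 h1 h2
    have o4v := ho4v (x := q) P r1 h1 h2
    have gE : g (ext r) = 1 - (1 / 2 + 1 / 2 * ph b + h0 * b) := by
      rw [e2, A.gq]
      unfold Four.Low.ph
      ring
    have gR : g r = 1 - (1 / 2 + 1 / 2 * ph b - h0 * b) := by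
      rw [e1, A.gp]
      unfold Four.Low.ph
      ring
    have m1 : 481 / 200 - 2 * s - 1 / 2 - 1 / 2 * ph b - h0 * b +
        ph (2 * h0 + t + b / 2 - k - 1) ≤ wh s r y := by
      have := le_max_left (481 / 200 - 2 * s + g (ext r) - g (y + ext r - 1))
        (381 / 200 - 2 * s + g (h0 + 1 - y - r) - g r)
      unfold wh
      rw [gE, gph (y + ext r - 1),
        show y + ext r - 1 = 2 * h0 + t + b / 2 - k - 1 by linear_combination -ht + hq + e2] at this
      rw [gE, gph (y + ext r - 1), show y + ext r - 1 = 2 * h0 + t + b / 2 - k - 1 by linear_combination -ht + hq + e2]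
      linear_combination this
    have m2 : 381 / 200 - 2 * s - ph (1 - t - h0 + b / 2 + k) + 1 / 2 + 1 / 2 * ph b - h0 * b ≤
        wh s r y := by
      have := le_max_right (481 / 200 - 2 * s + g (ext r) - g (y + ext r - 1))
        (381 / 200 - 2 * s + g (h0 + 1 - y - r) - g r)
      unfold wh
      rw [gR, gph (h0 + 1 - y - r),
        show h0 + 1 - y - r = 1 - t - h0 + b / 2 + k by linear_combination ht - hp - e1] at this
      rw [gR, gph (h0 + 1 - y - r), show h0 + 1 - y - r = 1 - t - h0 + b / 2 + k by linear_combination ht - hp - e1]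
      linear_combination this
    rw [gR, gph (y + r - 1), show y + r - 1 = 2 * h0 + t - b / 2 - k - 1 by linear_combination -ht + hp + e1] at o1t
    rw [gR, gph (y + r - (2 * h0 + s - 1)),
      show y + r - (2 * h0 + s - 1) = t - b / 2 - k - s + 1 by linear_combination -ht + hp + e1] at o2t o4t
    rw [gR, gph (y + r - (h0 + s)), gph (1 - h0),
      show y + r - (h0 + s) = t + h0 - b / 2 - k - s by linear_combination -ht + hp + e1] at o4v
    have hpe : ph e = ph (h0 + s - 1) := by rw [he]
    rw [hpe] at o1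
    have hM : ∀ d, 0 ≤ wh s r y - ov (p2 s e) r q y - ov (p3 s e) r q y - ov (q3 s e) r q y - 1 +
        4 * ph (s - t) - 3 * ph (1 - h0) - ph (h0 + s - 1) + d →
        hsM s e t - d ≤ mid s e r q y := by
      intro d hd
      rw [← hpe] at hd
      rw [hmid]
      unfold hsM
      rw [← hpe] at o1
      linear_combination n1 + n2 + n3 + o3 + n4 + hd
    rw [← ht]
    rcases le_or_gt t (1 / 20) with c1 | c1
    · have R : RhA s t b k (wh s r y) (ov (p2 s e) r q y) (ov (p3 s e) r q y)
          (ov (q3 s e) r q y) := {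
        k1 := A.k1, k2 := A.k2, h1 := hl, h2 := hh, h3 := A.h3, k3 := k0, k4 := k4, hq := A.hq,
        hp := by linear_combination hp + hp1, th := t1, m1 := m1, m2 := m2, o1t := by linear_combination o1t,
        o1y := by linear_combination o1, o2t := by linear_combination o2t,
        o2y := by linear_combination o2, o4t := by linear_combination o4t,
        o4y := by linear_combination o4, o4v := by linear_combination o4v,
        s1 := s0, s2 := s1, t1 := t0, t2 := c1, b1 := b0, b2 := b1 }
      have := ha_0 R s0 s1 t0 c1 b0 b1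
      unfold fBoxHA at this
      exact ⟨t, fun _ => le_rfl, fun h => by linear_combination c1, fun h => by linear_combination (11 / 6) * c1 + (5 / 6) * h, hM t this⟩
    rcases le_or_gt t (11 / 100) with c2 | c2
    · have R : RhB s t b k (wh s r y) (ov (p2 s e) r q y) (ov (p3 s e) r q y)
          (ov (q3 s e) r q y) := {
        k1 := A.k1, k2 := A.k2, h1 := hl, h2 := hh, h3 := A.h3, k3 := k0, k4 := k4, hq := A.hq,
        hp := by linear_combination hp + hp1, th := t1, m1 := m1, m2 := m2, o1t := by linear_combination o1t,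
        o1y := by linear_combination o1, o2t := by linear_combination o2t,
        o2y := by linear_combination o2, o4t := by linear_combination o4t,
        o4y := by linear_combination o4, o4v := by linear_combination o4v,
        s1 := s0, s2 := s1, t1 := c1.le, t2 := c2, b1 := b0, b2 := b1 }
      have := hb_0 R s0 s1 c1.le c2 b0 b1
      unfold fBoxHB at this
      exact ⟨1 / 20, fun h => by linear_combination c1, fun h => le_rfl, fun h => by exact absurd h (not_lt.mpr (by linear_combination c2)),
        hM (1 / 20) this⟩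
    · have c3 : t ≤ 134 / 1000 := by linear_combination h2 + hl + ht
      have R : RhC s t b k (wh s r y) (ov (p2 s e) r q y) (ov (p3 s e) r q y)
          (ov (q3 s e) r q y) := {
        k1 := A.k1, k2 := A.k2, h1 := hl, h2 := hh, h3 := A.h3, k3 := k0, k4 := k4, hq := A.hq,
        hp := by linear_combination hp + hp1, th := t1, m1 := m1, m2 := m2, o1t := by linear_combination o1t,
        o1y := by linear_combination o1, o2t := by linear_combination o2t,
        o2y := by linear_combination o2, o4t := by linear_combination o4t,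
        o4y := by linear_combination o4, o4v := by linear_combination o4v,
        s1 := s0, s2 := s1, t1 := c2.le, t2 := by linear_combination c3, b1 := b0, b2 := b1 }
      have := hc_0 R s0 s1 c2.le R.t2 b0 b1
      unfold fBoxHC at this
      exact ⟨0, fun h => by linear_combination h1 - ht, fun h => by norm_num, fun h => le_rfl,
        hM 0 (by linear_combination this)⟩

end Pool.Agent.Strip051.FourF.MB
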