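import Pool.Agent.Strip051.FourF.Gains

/-! # The wall probe when the new point is above `h0`

The old front below the new point `y` is the arc of the virtual disc `q`, the exit is at the
distance `ext q`. The gain of the arc at the wall, centred at `T`, is
`ph (ext q - κ) + ph (q - κ) - ph (ext q - q)`, `κ = y - T`. It is smallest when the larger one of
`q`, `ext q` is equal to `y`. -/

namespace Pool.Agent.Strip051.FourF

open Pool.Agent.StripNear Pool.Agent.StripSquare Pool.Agent.Strip051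
open Pool.Agent.Strip051.Four (gn j1 arc_sub le_gn gn_nonneg ext_facts g_le_of_abs)
open Pool.Agent.Strip051.Four.Low (ph ph_neg ph_nonneg ph_mono ph_abs ph_zero h0_hi h0_lo)

/-- The gain of the wall probe. -/
theorem hw_gain {T H r q y : ℝ} (hj : (j1 T).Ok H) (hT0 : 0 ≤ T) (hT1 : T ≤ 1)
    (q1 : 1 / 2 ≤ q) (q2 : q ≤ 1) (hc : ext q ≤ y) (hTy : T ≤ y) (hκq : y - T ≤ q)
    (hκc : y - T ≤ ext q) :
    ph (ext q - (y - T)) + ph (q - (y - T)) - ph (ext q - q) ≤ gn (j1 T) r q y := by
  obtain ⟨e1, e2, e3, e4, e5⟩ := ext_facts q1 q2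
  have key := le_gn (r := r) (q := q) (y := y) (z0 := T)
    (v := g (ext q) - g (ext q - (y - T))) hj (by simpa only [j1] using hT0)
    (by simp only [j1]; exact le_rfl)
    (by
      intro z k1 k2
      simp only [j1] at k1 k2 ⊢
      rcases le_total (y - ext q) z with h | h
      · right
        have a1 := arc_sub (a := T) (b := y) (x := y - ext q) (y := z) hTy h (by linear_combination e2)
          (by linear_combination k2)
        rw [show y - ext q - T = -(ext q - (y - T)) by ring, g_neg,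
          show y - ext q - y = -ext q by ring, g_neg] at a1
        linear_combination a1
      · left
        have h1 : ¬ 0 ≤ z - y := by exact not_le.mpr (by linear_combination e1 + h)
        have a2 : g (z - (y - q)) - g q ≤ gam r q (z - y) := by
          unfold gam
          rw [if_neg h1]
          unfold vir
          refine le_trans (le_of_eq ?_) (le_max_right _ _)
          rw [show -(z - y) - q = -(z - (y - q)) by ring, g_neg]
        have a1 := arc_sub (a := y - q) (b := T) (x := z) (y := y - ext q) (by linear_combination hκq) h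
          (by linear_combination hT1 + k1) (by linear_combination q2 + hTy + hκc)
        rw [show y - ext q - (y - q) = -(ext q - q) by ring, g_neg,
          show y - ext q - T = -(ext q - (y - T)) by ring, g_neg, e3] at a1
        linear_combination a2 + a1)
  have a3 : gam r q (T - y) ≤ g (q - (y - T)) - g q := by
    unfold gam
    split
    · next h0' =>
      have h1 : T - y = 0 := by exact le_antisymm (by linear_combination hTy) (by linear_combination h0')
      rw [h1, vir_zero]
      have h2 : y - T = 0 := by linear_combination -h1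
      rw [h2, sub_zero]
      linear_combination
    · unfold vir
      apply max_le
      · have := g_le_of_abs (x := q - (y - T)) (e := q) (by linear_combination hTy) (by linear_combination q1 + hκq)
        linear_combination this
      · rw [show -(T - y) - q = -(q - (y - T)) by ring, g_neg]
  have a4 : (j1 T).a T = 1 := by
    simp only [j1, sub_self, g_zero]
  rw [a4] at key
  unfold Four.Low.ph
  rw [e3]
  linear_combination key + a3

theorem hw_half : g (1 / 2) = h0 := by
  have h1 := g_sq (r := 1 / 2) (by norm_num)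
  have h2 := g_nonneg (1 / 2)
  have h3 := h0_sq
  have h4 := h0_pos
  have h5 : (g (1 / 2) - h0) * (g (1 / 2) + h0) = 0 := by
    linear_combination h1 - h3
  rcases mul_eq_zero.1 h5 with h | h
  · linear_combination h
  · exact le_antisymm (by linear_combination 2 * h4 + h) (by linear_combination 2 * h2 + h)

/-- The algebra behind `hw_elim`. -/
theorem hw_alg {T B b D S η x1 x2 γ u1 u2 U2 : ℝ} (b0 : 0 ≤ b) (bB : b ≤ B) (hB : B ≤ T)
    (hD : D = (B - b) / 2) (hS : S = B + b) (hη0 : 0 ≤ η) (hηD : η ≤ D)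
    (c1 : x1 = T - D + η) (c2 : x2 = T - B + η + D) (c6 : x1 + x2 ≤ 2 * T)
    (hT : T ≤ 5361 / 10000) (γl : 844 / 1000 ≤ γ)
    (hγ : γ ^ 2 = 1 - T ^ 2) (hu1 : u1 ^ 2 = 1 - x1 ^ 2) (hu2 : u2 ^ 2 = 1 - x2 ^ 2)
    (hU2 : U2 ^ 2 = 1 - (T - B) ^ 2) (k1 : γ ≤ u1) (k2 : γ ≤ u2) (k3 : γ ≤ U2) :
    (u1 - γ) - (U2 - u2) ≤ D * S := by
  have D0 : 0 ≤ D := by linear_combination (1 / 2) * bB - hD
  have S0 : 0 ≤ S := by linear_combination 2 * b0 + bB - hS
  have T0 : 0 ≤ T := by linear_combination b0 + bB + hB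
  have γ0 : 0 < γ := by linear_combination γl
  have x10 : 0 ≤ x1 := by linear_combination b0 + (1 / 2) * bB + hB + hD + hη0 - c1
  have x20 : 0 ≤ x2 := by linear_combination (1 / 2) * bB + hB - hD + hη0 - c2
  have x1T : x1 ≤ T := by linear_combination hηD + c1
  have x2T : x2 ≤ T := by linear_combination b0 + 2 * hD + hηD + c2
  have hA : (u1 + γ) * (u1 - γ) ≤ D * (T + x1) := by
    have e : (u1 + γ) * (u1 - γ) = (D - η) * (T + x1) := by
      rw [c1] at hu1 ⊢
      linear_combination hu1 - hγ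
    rw [e]
    exact mul_le_mul_of_nonneg_right (by linear_combination hη0) (by linear_combination 2 * b0 + (3 / 2) * bB + 2 * hB + hD + hη0 - c1)
  have hBq : D * (x2 + (T - B)) ≤ (U2 + u2) * (U2 - u2) := by
    have e : (U2 + u2) * (U2 - u2) = (D + η) * (x2 + (T - B)) := by
      rw [c2] at hu2 ⊢
      linear_combination hU2 - hu2
    rw [e]
    exact mul_le_mul_of_nonneg_right (by linear_combination hη0) (by linear_combination (1 / 2) * bB + 2 * hB - hD + hη0 - c2)
  have e1 : γ * (U2 - γ) ≤ T * B := by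
    have e : (U2 - γ) * (U2 + γ) = B * (2 * T - B) := by
      linear_combination hU2 - hγ
    have h1 : (U2 - γ) * (2 * γ) ≤ (U2 - γ) * (U2 + γ) :=
      mul_le_mul_of_nonneg_left (by linear_combination k3) (by linear_combination k3)
    have h2 : 0 ≤ B * B := mul_self_nonneg B
    linear_combination -(1 / 2) * hγ + (1 / 2) * hU2 + (1 / 2) * h1 + (1 / 2) * h2
  have e2 : γ * (u2 - u1) ≤ T * b := by
    rcases le_total u2 u1 with h | h
    · have h1 : γ * (u2 - u1) ≤ 0 :=
        mul_nonpos_of_nonneg_of_nonpos γ0.le (by linear_combination h)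
      have h2 : 0 ≤ T * b := mul_nonneg T0 b0
      linear_combination h1 + h2
    · have e : (u2 - u1) * (u2 + u1) = b * (x1 + x2) := by
        have hb : b = x1 - x2 := by linear_combination 2 * hD - c1 + c2
        rw [hb]
        linear_combination hu2 - hu1
      have h1 : (u2 - u1) * (2 * γ) ≤ (u2 - u1) * (u2 + u1) :=
        mul_le_mul_of_nonneg_left (by linear_combination k1 + k2) (by linear_combination h)
      have h2 : b * (x1 + x2) ≤ b * (2 * T) := mul_le_mul_of_nonneg_left c6 b0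
      linear_combination (1 / 2) * e + (1 / 2) * h1 + (1 / 2) * h2
  obtain ⟨P1, hP1⟩ : ∃ P1, P1 = u1 + γ := ⟨_, rfl⟩
  obtain ⟨P2, hP2⟩ : ∃ P2, P2 = U2 + u2 := ⟨_, rfl⟩
  rw [← hP1] at hA
  rw [← hP2] at hBq
  have p1 : 2 * γ ≤ P1 := by linear_combination k1 - hP1
  have p2 : 2 * γ ≤ P2 := by linear_combination k2 + k3 - hP2
  have e3 : γ * (P2 - P1) ≤ T * S := by
    rw [hS, hP1, hP2]
    linear_combination e1 + e2
  obtain ⟨X, hX⟩ : ∃ X, X = x2 + (T - B) := ⟨_, rfl⟩
  rw [← hX] at hBq
  have X0 : 0 ≤ X := by linear_combination (1 / 2) * bB + 2 * hB - hD + hη0 - c2 - hX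
  have X1 : X ≤ 2 * T := by linear_combination 2 * b0 + bB + 2 * hD + hηD + c2 + hX
  -- the main estimate
  have e4 : (P2 - P1) * X ≤ S * (P2 * (P1 - 1)) := by
    have f1 : γ * ((P2 - P1) * X) ≤ 575 / 1000 * S := by
      have h1 : γ * (P2 - P1) * X ≤ T * S * X := mul_le_mul_of_nonneg_right e3 X0
      have h2 : T * S * X ≤ T * S * (2 * T) :=
        mul_le_mul_of_nonneg_left X1 (mul_nonneg T0 S0)
      have h3 : T * T ≤ 5361 / 10000 * (5361 / 10000) := mul_le_mul hT hT T0 (by norm_num)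
      have h4 : T * T * S ≤ 5361 / 10000 * (5361 / 10000) * S :=
        mul_le_mul_of_nonneg_right h3 S0
      have h5 : γ * ((P2 - P1) * X) = γ * (P2 - P1) * X := by ring
      rw [h5]
      linear_combination h1 + h2 + 2 * h4 + (9679 / 50000000) * S0
    have f2 : 575 / 1000 * S ≤ γ * (S * (P2 * (P1 - 1))) := by
      have h1 : 1688 / 1000 ≤ P2 := by linear_combination 2 * γl + k2 + k3 - hP2
      have h2 : 688 / 1000 ≤ P1 - 1 := by linear_combination 2 * γl + k1 - hP1
      have h3 : 1688 / 1000 * (688 / 1000) ≤ P2 * (P1 - 1) :=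
        mul_le_mul h1 h2 (by norm_num) (by linear_combination k2 + k3 + 2 * γ0 - hP2)
      have h4 : S * (1688 / 1000 * (688 / 1000)) ≤ S * (P2 * (P1 - 1)) :=
        mul_le_mul_of_nonneg_left h3 S0
      have h5 : 844 / 1000 * (S * (1688 / 1000 * (688 / 1000))) ≤
          γ * (S * (P2 * (P1 - 1))) :=
        mul_le_mul γl h4 (by positivity) γ0.le
      linear_combination (6330849 / 7812500) * b0 + (6330849 / 15625000) * bB - (6330849 / 15625000) * hS +
        h5
    exact le_of_mul_le_mul_left (f1.trans f2) γ0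
  have P10 : 0 < P1 := by linear_combination k1 + 2 * γ0 - hP1
  have P20 : 0 < P2 := by linear_combination k2 + k3 + 2 * γ0 - hP2
  have q1 := mul_le_mul_of_nonneg_left hA P20.le
  have q2 := mul_le_mul_of_nonneg_left hBq P10.le
  have q3 := mul_le_mul_of_nonneg_left e4 D0
  have e5 : T + x1 = X + S := by linear_combination -2 * hD - hS + c1 - c2 - hX
  rw [e5] at q1
  have q4 : (P1 * P2) * ((u1 - γ) - (U2 - u2)) ≤ (P1 * P2) * (D * S) := by
    have r1 : (P1 * P2) * ((u1 - γ) - (U2 - u2)) =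
        P2 * (P1 * (u1 - γ)) - P1 * (P2 * (U2 - u2)) := by ring
    have r2 : P2 * (D * (X + S)) - P1 * (D * X) = D * ((P2 - P1) * X) + D * (P2 * S) := by ring
    have r3 : (P1 * P2) * (D * S) = D * (S * (P2 * (P1 - 1))) + D * (P2 * S) := by ring
    rw [r1, r3]
    linear_combination q1 + q2 + q3
  exact le_of_mul_le_mul_left q4 (mul_pos P10 P20)

/-- The gain is smallest at the end of the range of the virtual discs. -/
theorem hw_elim {κ T b B : ℝ} (b0 : 0 ≤ b) (bB : b ≤ B) (B1 : B ≤ 1 / 2)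
    (hy : h0 - h0 * ph B + B / 2 - κ = T) (hB : B ≤ T) (hT : T ≤ 5361 / 10000) :
    ph T + ph (T - B) - ph B ≤
      ph (h0 - h0 * ph b + b / 2 - κ) + ph (h0 - h0 * ph b - b / 2 - κ) - ph b := by
  have hp := h0_pos
  have hu := h0_hi
  have hl := h0_lo
  have B0 : 0 ≤ B := by linear_combination b0 + bB
  have T0 : 0 ≤ T := by linear_combination b0 + bB + hB
  have m1 : ph b ≤ ph B := ph_mono b0 bB
  have m2 := ph_nonneg b
  have gb := g_anti b0 bB
  have gB := g_anti B0 B1
  rw [hw_half] at gB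
  have g4 := g_sq (r := b) (by linear_combination (1 / 2) * bB + (1 / 2) * B1 + (mul_nonneg (sub_nonneg.mpr b0) (sub_nonneg.mpr bB)) +
    (mul_nonneg (sub_nonneg.mpr b0) (sub_nonneg.mpr B1)))
  have g5 := g_sq (r := B) (by linear_combination (1 / 2) * B1 + (mul_nonneg (sub_nonneg.mpr B0) (sub_nonneg.mpr B1)))
  have g41 := g_le_one b
  have g51 := g_le_one B
  obtain ⟨η, hη⟩ : ∃ η, η = h0 * ph B - h0 * ph b := ⟨_, rfl⟩
  obtain ⟨D, hD⟩ : ∃ D, D = (B - b) / 2 := ⟨_, rfl⟩
  obtain ⟨S, hS⟩ : ∃ S, S = B + b := ⟨_, rfl⟩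
  have D0 : 0 ≤ D := by linear_combination (1 / 2) * bB - hD
  have S0 : 0 ≤ S := by linear_combination 2 * b0 + bB - hS
  have e6 : (g b + g B) * (g b - g B) = 2 * (D * S) := by
    rw [hD, hS]
    linear_combination g4 - g5
  have η0 : 0 ≤ η := by
    rw [hη]
    have := mul_le_mul_of_nonneg_left m1 hp.le
    linear_combination this
  have hηe : η = h0 * (g b - g B) := by
    rw [hη]
    unfold Four.Low.ph
    ring
  have hηD : η ≤ D := by
    have h1 : (2 * h0) * (g b - g B) ≤ (g b + g B) * (g b - g B) :=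
      mul_le_mul_of_nonneg_right (by linear_combination gb + 2 * gB) (by linear_combination gb)
    have h2 : D * S ≤ D * 1 := mul_le_mul_of_nonneg_left (by linear_combination bB + 2 * B1 + hS) D0
    rw [hηe]
    linear_combination (1 / 2) * e6 + (1 / 2) * h1 + h2
  have hDS : D * S ≤ g b - g B := by
    have h1 : (g b + g B) * (g b - g B) ≤ 2 * (g b - g B) :=
      mul_le_mul_of_nonneg_right (by linear_combination gb + 2 * g41) (by linear_combination gb)
    linear_combination -(1 / 2) * e6 + (1 / 2) * h1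
  have c4 : h0 - κ ≤ T := by
    have h1 : ph B = 1 - g B := rfl
    have h2 : (1 + g B) * ph B = B * B := by
      rw [h1]
      linear_combination -g5
    have h3 : B * B ≤ B * (1 / 2) := mul_le_mul_of_nonneg_left B1 B0
    have h4 : 1 * ph B ≤ (1 + g B) * ph B :=
      mul_le_mul_of_nonneg_right (by linear_combination (g_nonneg B)) (ph_nonneg B)
    have h5 : h0 * ph B ≤ 1 * ph B := mul_le_mul_of_nonneg_right (by linear_combination hu) (ph_nonneg B)
    linear_combination hy + h2 + h3 + h4 + h5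
  obtain ⟨x1, hx1⟩ : ∃ x1, x1 = h0 - h0 * ph b + b / 2 - κ := ⟨_, rfl⟩
  obtain ⟨x2, hx2⟩ : ∃ x2, x2 = h0 - h0 * ph b - b / 2 - κ := ⟨_, rfl⟩
  rw [← hx1, ← hx2]
  have c1 : x1 = T - D + η := by linear_combination hy - hη + hD + hx1
  have c2 : x2 = T - B + η + D := by linear_combination hy - hη - hD + hx2
  have c6 : x1 + x2 ≤ 2 * T := by
    have : 0 ≤ h0 * ph b := mul_nonneg hp.le m2
    linear_combination b0 + 2 * hy - 2 * hη + 2 * hD + 2 * hηD + hx1 + hx2
  have hT2 : T ^ 2 ≤ (5361 / 10000) ^ 2 := pow_le_pow_left₀ T0 hT 2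
  have gT := g_sq (r := T) (hT2.trans (by norm_num))
  have γl : 844 / 1000 ≤ g T := by
    by_contra h
    push Not at h
    have h1 := pow_le_pow_left₀ (g_nonneg T) h.le 2
    rw [gT] at h1
    norm_num at h1 hT2
    exact absurd h1 (not_le.mpr (by linear_combination hT2))
  have gab : ∀ x : ℝ, -T ≤ x → x ≤ T → g T ≤ g x ∧ g x ^ 2 = 1 - x ^ 2 := by
    intro x h1 h2
    refine ⟨g_le_of_abs h2 h1, g_sq ?_⟩
    have h3 : x ^ 2 ≤ T ^ 2 := sq_le_sq' h1 h2
    exact h3.trans (hT2.trans (by norm_num))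
  obtain ⟨k1, k1'⟩ := gab x1 (by linear_combination 2 * b0 + (3 / 2) * bB - hy + 2 * hB + hη + η0 - hx1) (by linear_combination hy - hη + hD + hηD + hx1)
  obtain ⟨k2, k2'⟩ := gab x2 (by linear_combination b0 + (3 / 2) * bB - hy + 2 * hB + hη + η0 - hx2) (by linear_combination b0 + hy - hη + hD + hηD + hx2)
  obtain ⟨k3, k3'⟩ := gab (T - B) (by linear_combination b0 + bB + 2 * hB) (by linear_combination b0 + bB)
  have key := hw_alg b0 bB hB hD hS η0 hηD c1 c2 c6 hT γl gT k1' k2' k3' k1 k2 k3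
  unfold Four.Low.ph
  linear_combination hDS + key

/-- The virtual disc and the exit. -/
theorem hw_vir {q : ℝ} (q1 : 1 / 2 ≤ q) (q2 : q ≤ 1) :
    q = h0 - h0 * ph (ext q - q) - (ext q - q) / 2 ∧
      ext q = h0 - h0 * ph (ext q - q) + (ext q - q) / 2 := by
  obtain ⟨e1, e2, e3, e4, e5⟩ := ext_facts q1 q2
  have e : ext q = q / 2 + h0 * g q := rfl
  have e' : ext (ext q) = ext q / 2 + h0 * g (ext q) := rfl
  rw [e5] at e'
  have eh : h0 * g (ext q - q) = (ext q + q) / 2 := by
    rw [e3]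
    linear_combination -e - e'
  unfold Four.Low.ph
  constructor <;> linear_combination -eh

/-- The end of the range of the virtual discs, `h0 ≤ y ≤ 1`. -/
theorem hw_end {y : ℝ} (y0 : h0 ≤ y) (y1 : y ≤ 1) : ∃ B, 0 ≤ B ∧ B ≤ 1 / 2 ∧
    y = h0 - h0 * ph B + B / 2 := by
  have hl := h0_gt
  have hp := h0_pos
  obtain ⟨e1, e2, e3, e4, e5⟩ := ext_facts (r := y) (by linear_combination y0 + hl) y1
  have h1 := (hw_vir (q := y) (by linear_combination y0 + hl) y1).1
  refine ⟨y - ext y, ?_, by linear_combination y1 + e1, ?_⟩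
  · have h2 := g_anti (by linear_combination hl) y0
    rw [StripSquare.g_h0] at h2
    have h3 : ext y = y / 2 + h0 * g y := rfl
    have h4 : h0 * g y ≤ h0 * (1 / 2) := mul_le_mul_of_nonneg_left h2 hp.le
    linear_combination (1 / 2) * y0 + h3 + h4
  · rw [show ext y - y = -(y - ext y) by ring, ph_neg] at h1
    linear_combination h1

/-- The range of the virtual discs. -/
theorem hw_range {b B : ℝ} (b0 : 0 ≤ b) (b1 : b ≤ 1 / 2) (B0 : 0 ≤ B) (B1 : B ≤ 1 / 2)
    (h : h0 - h0 * ph b + b / 2 ≤ h0 - h0 * ph B + B / 2) : b ≤ B := by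
  by_contra hc
  push Not at hc
  have hp := h0_pos
  have g1 := g_anti b0 b1
  have g2 := g_anti B0 B1
  rw [hw_half] at g1 g2
  have g4 := g_sq (r := b) (by linear_combination (1 / 2) * b1 + (mul_nonneg (sub_nonneg.mpr b0) (sub_nonneg.mpr b1)))
  have g5 := g_sq (r := B) (by linear_combination (1 / 2) * B1 + (mul_nonneg (sub_nonneg.mpr B0) (sub_nonneg.mpr B1)))
  have g6 := g_anti B0 hc.le
  have e : (g b + g B) * (g B - g b) = (b - B) * (b + B) := by
    linear_combination g5 - g4
  have h1 : (2 * h0) * (g B - g b) ≤ (g b + g B) * (g B - g b) :=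
    mul_le_mul_of_nonneg_right (by linear_combination g1 + g2) (by linear_combination g6)
  have h2 : (b - B) * (b + B) < (b - B) * 1 :=
    mul_lt_mul_of_pos_left (by linear_combination 2 * b1 + hc) (by linear_combination hc)
  unfold Four.Low.ph at h
  exact absurd h (not_le.mpr (by linear_combination (1 / 2) * h1 + (1 / 2) * h2 + (1 / 2) * e))

/-- The gain of the wall probe, `C` is an upper bound for the virtual discs and the exits. -/
theorem hw_wall {T H r q y B T' : ℝ} (hj : (j1 T).Ok H) (hT0 : 0 ≤ T) (hT1 : T ≤ 1)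
    (hTy : T ≤ y) (q1 : 1 / 2 ≤ q) (q2 : q ≤ 1) (hq : q ≤ y) (hc : ext q ≤ y)
    (B0 : 0 ≤ B) (B1 : B ≤ 1 / 2) (hC : q ≤ h0 - h0 * ph B + B / 2)
    (hC' : ext q ≤ h0 - h0 * ph B + B / 2) (hB : B ≤ T') (hT' : T' ≤ 5361 / 10000)
    (hy : h0 - h0 * ph B + B / 2 - (y - T) = T') :
    ph T' + ph (T' - B) - ph B ≤ gn (j1 T) r q y := by
  have hp := h0_pos
  obtain ⟨e1, e2, e3, e4, e5⟩ := ext_facts q1 q2
  obtain ⟨v1, v2⟩ := hw_vir q1 q2
  obtain ⟨b, hb⟩ : ∃ b, b = ext q - q := ⟨_, rfl⟩
  rw [← hb] at v1 v2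
  -- the absolute value of `b`
  have key : ∀ b' : ℝ, 0 ≤ b' → b' ≤ 1 / 2 → ph b' = ph b → b' / 2 ≤ max (b / 2) (-(b / 2)) →
      h0 - h0 * ph b' + b' / 2 ≤ h0 - h0 * ph B + B / 2 → b' ≤ B ∧
      y - T ≤ h0 - h0 * ph b' - b' / 2 := by
    intro b' h1 h2 h3 _ h5
    have h6 := hw_range h1 h2 B0 B1 h5
    refine ⟨h6, ?_⟩
    have h7 : h0 * ph b' ≤ h0 * ph B := mul_le_mul_of_nonneg_left (ph_mono h1 h6) hp.le
    linear_combination hB - hy + h5 + 2 * h7
  rcases le_total 0 b with h | h
  · obtain ⟨k1, k2⟩ := key b h (by linear_combination q1 + e2 - v2 + v1) rfl (le_max_left _ _) (by linear_combination hC' - v2)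
    have a1 := hw_gain (r := r) hj hT0 hT1 q1 q2 hc hTy (by linear_combination -v1 + k2) (by linear_combination -v2 + h + k2)
    have a2 := hw_elim (κ := y - T) h k1 B1 hy hB hT'
    rw [← hb] at a1
    rw [show h0 - h0 * ph b + b / 2 - (y - T) = ext q - (y - T) by linear_combination -v2,
      show h0 - h0 * ph b - b / 2 - (y - T) = q - (y - T) by linear_combination -v1] at a2
    linear_combination a1 + a2
  · have hn : ph (-b) = ph b := ph_neg b
    obtain ⟨k1, k2⟩ := key (-b) (by linear_combination h) (by linear_combination q2 + e1 + v2 - v1) hn (by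
      rw [neg_div]
      exact le_max_right _ _) (by rw [hn]; linear_combination hC - v1)
    rw [hn] at k2
    have a1 := hw_gain (r := r) hj hT0 hT1 q1 q2 hc hTy (by linear_combination -v1 + h + k2) (by linear_combination -v2 + k2)
    have a2 := hw_elim (κ := y - T) (b := -b) (by linear_combination h) k1 B1 hy hB hT'
    rw [← hb] at a1
    rw [hn, show h0 - h0 * ph b + -b / 2 - (y - T) = q - (y - T) by linear_combination -v1,
      show h0 - h0 * ph b - -b / 2 - (y - T) = ext q - (y - T) by linear_combination -v2] at a2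
    linear_combination a1 + a2

/-- The new point is not above the height one. -/
theorem hw_low {T H r q y B : ℝ} (hj : (j1 T).Ok H) (hT0 : 0 ≤ T) (hT : T ≤ 5361 / 10000)
    (hTy : T ≤ y) (q1 : 1 / 2 ≤ q) (q2 : q ≤ 1) (hq : q ≤ y) (hc : ext q ≤ y)
    (B0 : 0 ≤ B) (B1 : B ≤ 1 / 2) (hy : y = h0 - h0 * ph B + B / 2) (hB : B ≤ T) :
    ph T + ph (T - B) - ph B ≤ gn (j1 T) r q y :=
  hw_wall hj hT0 (by linear_combination hT) hTy q1 q2 hq hc B0 B1 (by linear_combination hq + hy) (by linear_combination hc + hy) hB hT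
    (by linear_combination -hy)

/-- The new point is above the height one. -/
theorem hw_top {T H r q y : ℝ} (hj : (j1 T).Ok H) (hT0 : 0 ≤ T) (hT1 : T ≤ 1)
    (hTy : T ≤ y) (q1 : 1 / 2 ≤ q) (q2 : q ≤ 1) (hq : q ≤ y) (hc : ext q ≤ y)
    (h1 : 1 / 2 ≤ 1 - (y - T)) (h2 : 1 - (y - T) ≤ 5361 / 10000) :
    ph (1 - (y - T)) + ph (1 - (y - T) - 1 / 2) - ph (1 / 2) ≤ gn (j1 T) r q y := by
  obtain ⟨e1, e2, e3, e4, e5⟩ := ext_facts q1 q2
  have hh : h0 - h0 * ph (1 / 2) + 1 / 2 / 2 = 1 := by
    unfold Four.Low.ph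
    rw [hw_half]
    have := h0_sq
    linear_combination this
  exact hw_wall hj hT0 hT1 hTy q1 q2 hq hc (by norm_num) le_rfl (by linear_combination q2 - hh) (by linear_combination e2 - hh) h1 h2
    (by linear_combination hh)

end Pool.Agent.Strip051.FourF
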