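import Pool.Agent.Strip051.FourB.Box

/-! # Secants of the arc -/

namespace Pool.Agent.Strip051.FourF

open Pool.Agent.StripNear Pool.Agent.StripSquare Pool.Agent.Strip051
open Pool.Agent.Strip051.Four.Low (ph ph_nonneg)

theorem pair_eq {x z : ℝ} (hx : -1 < x ∧ x ≤ 1) (hz : -1 < z ∧ z ≤ 1) :
    (ph x - ph z) * (2 - ph x - ph z) = (x + z) * (x - z) := by
  have e1 := g_sq (r := x) (by linear_combination (mul_nonneg (sub_nonneg.mpr (le_of_lt hx.1)) (sub_nonneg.mpr hx.2)))
  have e2 := g_sq (r := z) (by linear_combination (mul_nonneg (sub_nonneg.mpr (le_of_lt hz.1)) (sub_nonneg.mpr hz.2)))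
  unfold Four.Low.ph
  linear_combination e2 - e1

theorem pair_pos {x z : ℝ} (hx : -1 < x ∧ x ≤ 1) (hz : -1 < z ∧ z ≤ 1) :
    (x = z) ∨ 0 < 2 - ph x - ph z := by
  have gx := g_nonneg x
  have gz := g_nonneg z
  have k1 := g_sq (r := x) (by linear_combination (mul_nonneg (sub_nonneg.mpr (le_of_lt hx.1)) (sub_nonneg.mpr hx.2)))
  have k2 := g_sq (r := z) (by linear_combination (mul_nonneg (sub_nonneg.mpr (le_of_lt hz.1)) (sub_nonneg.mpr hz.2)))
  by_contra h
  push Not at h
  obtain ⟨h1, h2⟩ := h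
  unfold Four.Low.ph at h2
  have e1 : g x = 0 := by exact le_antisymm (by linear_combination gz + h2) (by linear_combination gx)
  have e2 : g z = 0 := by exact le_antisymm (by linear_combination gx + h2) (by linear_combination gz)
  rw [e1] at k1
  rw [e2] at k2
  have e3 : x = 1 := by nlinarith [hx.1, hx.2]
  have e4 : z = 1 := by nlinarith [hz.1, hz.2]
  exact h1 (e3.trans e4.symm)

/-- A lower bound for the difference of two values. -/
theorem pairLo {x z m : ℝ} (hx : -1 < x ∧ x ≤ 1) (hz : -1 < z ∧ z ≤ 1) (h1 : 0 ≤ x - z)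
    (h2 : 0 ≤ x + z - m * (2 - ph x - ph z)) : m * (x - z) ≤ ph x - ph z := by
  have e := pair_eq hx hz
  rcases pair_pos hx hz with h | h
  · rw [h]
    simp
  · have h3 : m * (x - z) * (2 - ph x - ph z) ≤ (ph x - ph z) * (2 - ph x - ph z) := by
      rw [e]
      linear_combination (mul_nonneg (sub_nonneg.mpr h1) (sub_nonneg.mpr h2))
    exact le_of_mul_le_mul_right h3 h

/-- An upper bound for the difference of two values. -/
theorem pairUp {x z m : ℝ} (hx : -1 < x ∧ x ≤ 1) (hz : -1 < z ∧ z ≤ 1) (h1 : 0 ≤ x - z)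
    (h2 : 0 ≤ m * (2 - ph x - ph z) - (x + z)) : ph x - ph z ≤ m * (x - z) := by
  have e := pair_eq hx hz
  rcases pair_pos hx hz with h | h
  · rw [h]
    simp
  · have h3 : (ph x - ph z) * (2 - ph x - ph z) ≤ m * (x - z) * (2 - ph x - ph z) := by
      rw [e]
      linear_combination (mul_nonneg (sub_nonneg.mpr h1) (sub_nonneg.mpr h2))
    exact le_of_mul_le_mul_right h3 h

end Pool.Agent.Strip051.FourF
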