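import Pool.Agent.Strip051.FourF.HighBox
import Pool.Agent.Strip051.FourF.Pair
import Pool.Agent.Strip051.FourF.HighWall

/-! # The new point above `h0`: assembly

For the new point `y = h0 + t` between `h0` and one, `t = B / 2 - h0 * ph B`. The two theorems
`hr_sum` are the inequality between the gain of the wall probe and the lower bound for the four
middle probes. -/

namespace Pool.Agent.Strip051.FourF

open Pool.Agent.StripNear Pool.Agent.StripSquare Pool.Agent.Strip051
open Pool.Agent.Strip051.Four (gn j1 gn_nonneg)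
open Pool.Agent.Strip051.FourB (lo up)
open Pool.Agent.Strip051.Four.Low (ph ph_neg ph_nonneg ph_mono ph_abs ph_zero h0_hi h0_lo)

theorem hr_h0 : 8660254 / 10000000 ≤ h0 ∧ h0 ≤ 8660255 / 10000000 := by
  have h1 := h0_sq
  have h2 := h0_pos
  constructor <;> nlinarith

/-- An upper bound from a point outside the circle. -/
theorem hr_le {x a c : ℝ} (h1 : -a ≤ x) (h2 : x ≤ a) (hc : c ≤ 1) (h : a ^ 2 + (1 - c) ^ 2 ≤ 1) :
    ph x ≤ c := by
  have hx : x ^ 2 ≤ a ^ 2 := sq_le_sq' h1 h2
  have h3 := sq_nonneg (1 - c)
  have gs := g_sq (r := x) (by linear_combination h + hx + h3)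
  have gn := g_nonneg x
  unfold Four.Low.ph
  by_contra hh
  push Not at hh
  have h4 : g x < 1 - c := by linear_combination hh
  have h5 : g x ^ 2 < (1 - c) ^ 2 := pow_lt_pow_left₀ h4 gn two_ne_zero
  exact absurd h (not_le.mpr (by linear_combination hx - gs + h5))

/-- A lower bound from a point inside the circle. -/
theorem hr_ge {x a c : ℝ} (h1 : 0 ≤ a) (h2 : a ≤ x) (hx : x ≤ 1) (hc : c ≤ 1)
    (h : 1 ≤ a ^ 2 + (1 - c) ^ 2) : c ≤ ph x := by
  have hx2 : a ^ 2 ≤ x ^ 2 := pow_le_pow_left₀ h1 h2 2
  have hx1 : x ^ 2 ≤ 1 := pow_le_one₀ (h1.trans h2) hx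
  have gs := g_sq (r := x) hx1
  unfold Four.Low.ph
  by_contra hh
  push Not at hh
  have h4 : 1 - c < g x := by linear_combination hh
  have h5 : (1 - c) ^ 2 < g x ^ 2 := pow_lt_pow_left₀ h4 (by linear_combination hc) two_ne_zero
  exact absurd h (not_le.mpr (by linear_combination hx2 + gs + h5))

/-- The new point close to `h0`. -/
theorem hp_leaf {s t b T e c w W μ1 μ2 m3 m4 m5 δ d : ℝ} (b0 : 0 ≤ b) (w0 : 0 ≤ w)
    (hw : w * ph T = ph s) (hW : w ≤ W) (p1 : ph T - ph (T - b) ≤ μ1 * b) (p2 : ph b ≤ μ2 * b)
    (p3 : m3 * t ≤ ph s - ph (s - t)) (p4 : m4 * t ≤ ph c - ph (c - t))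
    (p5 : m5 * t ≤ ph e - ph (e - t)) (hd : d ≤ δ * t) (ht : t = b / 2 - h0 * ph b)
    (hμ : 0 ≤ μ1 + μ2) (hM : 0 ≤ 4 * m3 + 3 * m4 + m5 - δ)
    (key : W * (μ1 + μ2) ≤ (1 / 2 - 86603 / 100000 * μ2) * (4 * m3 + 3 * m4 + m5 - δ)) :
    0 ≤ w * (ph T + ph (T - b) - ph b) + 2 * ph s - 4 * ph (s - t) + 3 * ph c - 3 * ph (c - t) +
      ph e - ph (e - t) - d := by
  have hu := h0_hi
  have k1 : w * ((ph T - ph (T - b)) + ph b) ≤ w * ((μ1 + μ2) * b) :=
    mul_le_mul_of_nonneg_left (by linear_combination p1 + p2) w0
  have k2 : w * ((μ1 + μ2) * b) ≤ W * ((μ1 + μ2) * b) :=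
    mul_le_mul_of_nonneg_right hW (mul_nonneg hμ b0)
  have k3 : h0 * ph b ≤ 86603 / 100000 * (μ2 * b) :=
    (mul_le_mul_of_nonneg_right hu (ph_nonneg b)).trans
      (mul_le_mul_of_nonneg_left p2 (by norm_num))
  have k4 : (4 * m3 + 3 * m4 + m5 - δ) * ((1 / 2 - 86603 / 100000 * μ2) * b) ≤
      (4 * m3 + 3 * m4 + m5 - δ) * t := mul_le_mul_of_nonneg_left (by linear_combination -ht + k3) hM
  have k5 := mul_le_mul_of_nonneg_right key b0
  linear_combination -2 * hw + 4 * p3 + 3 * p4 + p5 + hd + k1 + k2 + k4 + k5

theorem hp_mu2 {b : ℝ} (b0 : 0 ≤ b) (b1 : b ≤ 1 / 20) : ph b ≤ 251 / 10000 * b := by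
  have h1 := pairUp (x := b) (z := 0) (m := 251 / 10000) ⟨by linear_combination b0, by linear_combination b1⟩
    ⟨by norm_num, by norm_num⟩ (by linear_combination b0) (by
      have h2 := hr_le (x := b) (a := 1 / 20) (c := 13 / 10000) (by linear_combination b0) b1 (by norm_num)
        (by norm_num)
      rw [ph_zero]
      linear_combination b1 + (251 / 10000) * h2)
  rw [ph_zero] at h1
  linear_combination h1

/-- The pair leaf, `3 / 5 ≤ s ≤ 31 / 50`. -/
theorem hp_F1 {s e w b t d : ℝ} (he : e = h0 + s - 1) (w0 : 0 ≤ w) (hw : w * ph e = ph s)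
    (s1 : 3 / 5 ≤ s) (s2 : s ≤ 31 / 50) (b0 : 0 ≤ b) (b1 : b ≤ 1 / 20)
    (t0 : 0 ≤ t) (ht : t = b / 2 - h0 * ph b) (hd : d ≤ 3 / 2 * t) :
    0 ≤ w * (ph e + ph (e - b) - ph b) + 2 * ph s - 4 * ph (s - t) + 3 * ph (1 - h0) -
      3 * ph (1 - h0 - t) + ph e - ph (e - t) - d := by
  obtain ⟨hl, hu⟩ := hr_h0
  have t1 : t ≤ 1 / 40 := by
    have := mul_nonneg h0_pos.le (ph_nonneg b)
    linear_combination (1 / 2) * b1 + ht + this
  have x1 := hr_le (x := e) (a := 4861 / 10000) (c := 1261 / 10000) (by linear_combination -he + s1 + hl) (by linear_combination he + s2 + hu)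
    (by norm_num) (by norm_num)
  have x2 := hr_le (x := e - b) (a := 4861 / 10000) (c := 1261 / 10000) (by linear_combination -he + s1 + b1 + hl)
    (by linear_combination he + s2 + b0 + hu) (by norm_num) (by norm_num)
  have x3 := hr_ge (x := s) (a := 3 / 5) (c := 1999 / 10000) (by norm_num) (by linear_combination s1)
    (by linear_combination s2) (by norm_num) (by norm_num)
  have x4 := hr_ge (x := s - t) (a := 23 / 40) (c := 1817 / 10000) (by norm_num) (by linear_combination s1 + t1)
    (by linear_combination s2 + t0) (by norm_num) (by norm_num)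
  have x5 := hr_ge (x := 1 - h0) (a := 13397 / 100000) (c := 9 / 1000) (by norm_num)
    (by linear_combination hu) (by linear_combination hl) (by norm_num) (by norm_num)
  have x6 := hr_ge (x := 1 - h0 - t) (a := 1089 / 10000) (c := 59 / 10000) (by norm_num)
    (by linear_combination hu + t1) (by linear_combination t0 + hl) (by norm_num) (by norm_num)
  have x7 := hr_ge (x := e) (a := 466 / 1000) (c := 1152 / 10000) (by norm_num)
    (by linear_combination -he + s1 + hl) (by linear_combination he + s2 + hu) (by norm_num) (by norm_num)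
  have x8 := hr_ge (x := e - t) (a := 441 / 1000) (c := 1024 / 10000) (by norm_num)
    (by linear_combination -he + s1 + hl + t1) (by linear_combination he + s2 + t0 + hu) (by norm_num) (by norm_num)
  have p1 := pairUp (x := e) (z := e - b) (m := 5563 / 10000) ⟨by linear_combination -he + s1 + hl, by linear_combination he + s2 + hu⟩
    ⟨by linear_combination -he + s1 + b1 + hl, by linear_combination he + s2 + b0 + hu⟩ (by linear_combination b0) (by linear_combination 2 * he + 2 * s2 + b0 + 2 * hu + (5563 / 10000) * x1 + (5563 / 10000) * x2)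
  have p3 := pairLo (x := s) (z := s - t) (m := 726 / 1000) ⟨by linear_combination s1, by linear_combination s2⟩
    ⟨by linear_combination s1 + t1, by linear_combination s2 + t0⟩ (by linear_combination t0) (by linear_combination 2 * s1 + t1 + (363 / 500) * x3 + (363 / 500) * x4)
  have p4 := pairLo (x := 1 - h0) (z := 1 - h0 - t) (m := 1223 / 10000)
    ⟨by linear_combination hu, by linear_combination hl⟩ ⟨by linear_combination hu + t1, by linear_combination t0 + hl⟩ (by linear_combination t0) (by linear_combination 2 * hu + t1 + (1223 / 10000) * x5 + (1223 / 10000) * x6)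
  have p5 := pairLo (x := e) (z := e - t) (m := 5085 / 10000) ⟨by linear_combination -he + s1 + hl, by linear_combination he + s2 + hu⟩
    ⟨by linear_combination -he + s1 + hl + t1, by linear_combination he + s2 + t0 + hu⟩ (by linear_combination t0) (by linear_combination -2 * he + 2 * s1 + 2 * hl + t1 + (1017 / 2000) * x7 + (1017 / 2000) * x8)
  -- the weight
  have hW : w ≤ 7 / 4 := by
    have u1 := up (t1 := 333 / 1000) (t2 := 348 / 1000) (x := s) (by norm_num) (by linear_combination (1110889 / 1000000) * s1)
      (by linear_combination (70069 / 62500) * s2)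
    have u2 := lo (t := 249 / 1000) (x := e) (by norm_num) (by linear_combination -he + s1 + hl) (by linear_combination he + s2 + hu)
    by_contra hc
    push Not at hc
    have h1 : 7 / 4 * ph e < w * ph e := mul_lt_mul_of_pos_right hc (by linear_combination x7)
    rw [hw] at h1
    norm_num at u1 u2
    exact absurd h1 (not_lt.mpr (by linear_combination -(170250 / 221029) * he + (170250 / 221029) * hl + (43909925 / 146763256) * x7 + (250000 / 221029) * u1 + (28375000 / 18345407) * u2))
  exact hp_leaf (μ1 := 5563 / 10000) (μ2 := 251 / 10000) (m3 := 726 / 1000)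
    (m4 := 1223 / 10000) (m5 := 5085 / 10000) b0 w0 hw hW (by linear_combination p1) (hp_mu2 b0 b1)
    (by linear_combination p3) (by linear_combination p4) (by linear_combination p5) hd ht (by norm_num) (by norm_num) (by norm_num)

/-- The pair leaf, `31 / 50 ≤ s ≤ 67 / 100`. -/
theorem hp_F2 {s e w b t d : ℝ} (he : e = h0 + s - 1) (w0 : 0 ≤ w) (hw : w * ph e = ph s)
    (s1 : 31 / 50 ≤ s) (s2 : s ≤ 67 / 100) (b0 : 0 ≤ b) (b1 : b ≤ 1 / 20)
    (t0 : 0 ≤ t) (ht : t = b / 2 - h0 * ph b) (hd : d ≤ 3 / 2 * t) :
    0 ≤ w * (ph e + ph (e - b) - ph b) + 2 * ph s - 4 * ph (s - t) + 3 * ph (1 - h0) -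
      3 * ph (1 - h0 - t) + ph e - ph (e - t) - d := by
  obtain ⟨hl, hu⟩ := hr_h0
  have t1 : t ≤ 1 / 40 := by
    have := mul_nonneg h0_pos.le (ph_nonneg b)
    linear_combination (1 / 2) * b1 + ht + this
  have x1 := hr_le (x := e) (a := 5361 / 10000) (c := 1559 / 10000) (by linear_combination -he + s1 + hl) (by linear_combination he + s2 + hu)
    (by norm_num) (by norm_num)
  have x2 := hr_le (x := e - b) (a := 5361 / 10000) (c := 1559 / 10000) (by linear_combination -he + s1 + b1 + hl)
    (by linear_combination he + s2 + b0 + hu) (by norm_num) (by norm_num)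
  have x3 := hr_ge (x := s) (a := 31 / 50) (c := 2153 / 10000) (by norm_num) (by linear_combination s1)
    (by linear_combination s2) (by norm_num) (by norm_num)
  have x4 := hr_ge (x := s - t) (a := 595 / 1000) (c := 1962 / 10000) (by norm_num) (by linear_combination s1 + t1)
    (by linear_combination s2 + t0) (by norm_num) (by norm_num)
  have x5 := hr_ge (x := 1 - h0) (a := 13397 / 100000) (c := 9 / 1000) (by norm_num)
    (by linear_combination hu) (by linear_combination hl) (by norm_num) (by norm_num)
  have x6 := hr_ge (x := 1 - h0 - t) (a := 1089 / 10000) (c := 59 / 10000) (by norm_num)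
    (by linear_combination hu + t1) (by linear_combination t0 + hl) (by norm_num) (by norm_num)
  have x7 := hr_ge (x := e) (a := 486 / 1000) (c := 1260 / 10000) (by norm_num)
    (by linear_combination -he + s1 + hl) (by linear_combination he + s2 + hu) (by norm_num) (by norm_num)
  have x8 := hr_ge (x := e - t) (a := 461 / 1000) (c := 1125 / 10000) (by norm_num)
    (by linear_combination -he + s1 + hl + t1) (by linear_combination he + s2 + t0 + hu) (by norm_num) (by norm_num)
  have p1 := pairUp (x := e) (z := e - b) (m := 6352 / 10000) ⟨by linear_combination -he + s1 + hl, by linear_combination he + s2 + hu⟩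
    ⟨by linear_combination -he + s1 + b1 + hl, by linear_combination he + s2 + b0 + hu⟩ (by linear_combination b0) (by linear_combination 2 * he + 2 * s2 + b0 + 2 * hu + (397 / 625) * x1 + (397 / 625) * x2)
  have p3 := pairLo (x := s) (z := s - t) (m := 764 / 1000) ⟨by linear_combination s1, by linear_combination s2⟩
    ⟨by linear_combination s1 + t1, by linear_combination s2 + t0⟩ (by linear_combination t0) (by linear_combination 2 * s1 + t1 + (191 / 250) * x3 + (191 / 250) * x4)
  have p4 := pairLo (x := 1 - h0) (z := 1 - h0 - t) (m := 1223 / 10000)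
    ⟨by linear_combination hu, by linear_combination hl⟩ ⟨by linear_combination hu + t1, by linear_combination t0 + hl⟩ (by linear_combination t0) (by linear_combination 2 * hu + t1 + (1223 / 10000) * x5 + (1223 / 10000) * x6)
  have p5 := pairLo (x := e) (z := e - t) (m := 537 / 1000) ⟨by linear_combination -he + s1 + hl, by linear_combination he + s2 + hu⟩
    ⟨by linear_combination -he + s1 + hl + t1, by linear_combination he + s2 + t0 + hu⟩ (by linear_combination t0) (by linear_combination -2 * he + 2 * s1 + 2 * hl + t1 + (537 / 1000) * x7 + (537 / 1000) * x8)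
  -- the weight
  have hW : w ≤ 43 / 25 := by
    have u1 := up (t1 := 347 / 1000) (t2 := 385 / 1000) (x := s) (by norm_num) (by linear_combination (1120409 / 1000000) * s1)
      (by linear_combination (45929 / 40000) * s2)
    have u2 := lo (t := 261 / 1000) (x := e) (by norm_num) (by linear_combination -he + s1 + hl) (by linear_combination he + s2 + hu)
    by_contra hc
    push Not at hc
    have h1 : 43 / 25 * ph e < w * ph e := mul_lt_mul_of_pos_right hc (by linear_combination x7)
    rw [hw] at h1
    norm_num at u1 u2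
    exact absurd h1 (not_lt.mpr (by linear_combination -(146400 / 173281) * he + (146400 / 173281) * hl + (79798031 / 376886175) * x7 + (200000 / 173281) * u1 + (24400000 / 15075447) * u2))
  exact hp_leaf (μ1 := 6352 / 10000) (μ2 := 251 / 10000) (m3 := 764 / 1000)
    (m4 := 1223 / 10000) (m5 := 537 / 1000) b0 w0 hw hW (by linear_combination p1) (hp_mu2 b0 b1)
    (by linear_combination p3) (by linear_combination p4) (by linear_combination p5) hd ht (by norm_num) (by norm_num) (by norm_num)

/-- The pair leaf, `57 / 100 ≤ s ≤ 61 / 100`, the wall probe with the end `T`. -/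
theorem hp_G {s e T b t d : ℝ} (he : e = h0 + s - 1) (hT : 2 * ph T = ph s) (T0 : 41 / 100 ≤ T)
    (T1 : T ≤ 4437 / 10000)
    (s1 : 57 / 100 ≤ s) (s2 : s ≤ 61 / 100) (b0 : 0 ≤ b) (b1 : b ≤ 1 / 20)
    (t0 : 0 ≤ t) (ht : t = b / 2 - h0 * ph b) (hd : d ≤ t) :
    0 ≤ 2 * (ph T + ph (T - b) - ph b) + 2 * ph s - 4 * ph (s - t) + 3 * ph (1 - h0) -
      3 * ph (1 - h0 - t) + ph e - ph (e - t) - d := by
  obtain ⟨hl, hu⟩ := hr_h0
  have t1 : t ≤ 1 / 40 := by
    have := mul_nonneg h0_pos.le (ph_nonneg b)
    linear_combination (1 / 2) * b1 + ht + this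
  have x1 := hr_le (x := T) (a := 4437 / 10000) (c := 1039 / 10000) (by linear_combination T0) (by linear_combination T1)
    (by norm_num) (by norm_num)
  have x2 := hr_le (x := T - b) (a := 4437 / 10000) (c := 1039 / 10000) (by linear_combination T0 + b1)
    (by linear_combination T1 + b0) (by norm_num) (by norm_num)
  have x3 := hr_ge (x := s) (a := 57 / 100) (c := 1783 / 10000) (by norm_num) (by linear_combination s1)
    (by linear_combination s2) (by norm_num) (by norm_num)
  have x4 := hr_ge (x := s - t) (a := 545 / 1000) (c := 1615 / 10000) (by norm_num) (by linear_combination s1 + t1)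
    (by linear_combination s2 + t0) (by norm_num) (by norm_num)
  have x5 := hr_ge (x := 1 - h0) (a := 13397 / 100000) (c := 9 / 1000) (by norm_num)
    (by linear_combination hu) (by linear_combination hl) (by norm_num) (by norm_num)
  have x6 := hr_ge (x := 1 - h0 - t) (a := 1089 / 10000) (c := 59 / 10000) (by norm_num)
    (by linear_combination hu + t1) (by linear_combination t0 + hl) (by norm_num) (by norm_num)
  have x7 := hr_ge (x := e) (a := 436 / 1000) (c := 1000 / 10000) (by norm_num)
    (by linear_combination -he + s1 + hl) (by linear_combination he + s2 + hu) (by norm_num) (by norm_num)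
  have x8 := hr_ge (x := e - t) (a := 411 / 1000) (c := 883 / 10000) (by norm_num)
    (by linear_combination -he + s1 + hl + t1) (by linear_combination he + s2 + t0 + hu) (by norm_num) (by norm_num)
  have p1 := pairUp (x := T) (z := T - b) (m := 4953 / 10000) ⟨by linear_combination T0, by linear_combination T1⟩
    ⟨by linear_combination T0 + b1, by linear_combination T1 + b0⟩ (by linear_combination b0) (by linear_combination 2 * T1 + b0 + (4953 / 10000) * x1 + (4953 / 10000) * x2)
  have p3 := pairLo (x := s) (z := s - t) (m := 671 / 1000) ⟨by linear_combination s1, by linear_combination s2⟩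
    ⟨by linear_combination s1 + t1, by linear_combination s2 + t0⟩ (by linear_combination t0) (by linear_combination 2 * s1 + t1 + (671 / 1000) * x3 + (671 / 1000) * x4)
  have p4 := pairLo (x := 1 - h0) (z := 1 - h0 - t) (m := 1223 / 10000)
    ⟨by linear_combination hu, by linear_combination hl⟩ ⟨by linear_combination hu + t1, by linear_combination t0 + hl⟩ (by linear_combination t0) (by linear_combination 2 * hu + t1 + (1223 / 10000) * x5 + (1223 / 10000) * x6)
  have p5 := pairLo (x := e) (z := e - t) (m := 467 / 1000) ⟨by linear_combination -he + s1 + hl, by linear_combination he + s2 + hu⟩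
    ⟨by linear_combination -he + s1 + hl + t1, by linear_combination he + s2 + t0 + hu⟩ (by linear_combination t0) (by linear_combination -2 * he + 2 * s1 + 2 * hl + t1 + (467 / 1000) * x7 + (467 / 1000) * x8)
  exact hp_leaf (W := 2) (δ := 1) (μ1 := 4953 / 10000) (μ2 := 251 / 10000) (m3 := 671 / 1000)
    (m4 := 1223 / 10000) (m5 := 467 / 1000) b0 (by norm_num) hT le_rfl (by linear_combination p1)
    (hp_mu2 b0 b1) (by linear_combination p3) (by linear_combination p4) (by linear_combination p5) (by linear_combination hd) ht (by norm_num)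
    (by norm_num) (by norm_num)

/-- Lower bounds for the weight. -/
theorem hr_w1 {s e w : ℝ} (he : e = h0 + s - 1) (hw : w * ph e = ph s) (s1 : 3 / 5 ≤ s)
    (s2 : s ≤ 31 / 50) : 17087 / 10000 ≤ w := by
  obtain ⟨hl, hu⟩ := hr_h0
  have u1 := up (t1 := 2472 / 10000) (t2 := 2594 / 10000) (x := e) (by norm_num) (by linear_combination -(1657981 / 1562500) * he + (1657981 / 1562500) * s1 + (1657981 / 1562500) * hl)
    (by linear_combination (26682209 / 25000000) * he + (26682209 / 25000000) * s2 + (26682209 / 25000000) * hu)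
  have u2 := lo (t := 3474 / 10000) (x := s) (by norm_num) (by linear_combination s1) (by linear_combination s2)
  have x7 := hr_ge (x := e) (a := 466 / 1000) (c := 1152 / 10000) (by norm_num)
    (by linear_combination -he + s1 + hl) (by linear_combination he + s2 + hu) (by norm_num) (by norm_num)
  by_contra hc
  push Not at hc
  have h1 : w * ph e < 17087 / 10000 * ph e := mul_lt_mul_of_pos_right hc (by linear_combination x7)
  rw [hw] at h1
  norm_num at u1 u2
  exact absurd h1 (not_lt.mpr (by linear_combination (43281371 / 46793816) * he + (138638480221301 / 1028660548973096) * s2 + (43281371 / 46793816) * hu + (10679375 / 5849227) * u1 + (25000000 / 21982831) * u2))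

theorem hr_w2 {s e w : ℝ} (he : e = h0 + s - 1) (hw : w * ph e = ph s) (s1 : 3 / 5 ≤ s)
    (s2 : s ≤ 16 / 25) : 16847 / 10000 ≤ w := by
  obtain ⟨hl, hu⟩ := hr_h0
  have u1 := up (t1 := 2472 / 10000) (t2 := 2717 / 10000) (x := e) (by norm_num) (by linear_combination -(1657981 / 1562500) * he + (1657981 / 1562500) * s1 + (1657981 / 1562500) * hl)
    (by linear_combination (107382089 / 100000000) * he + (107382089 / 100000000) * s2 + (107382089 / 100000000) * hu)
  have u2 := lo (t := 3619 / 10000) (x := s) (by norm_num) (by linear_combination s1) (by linear_combination s2)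
  have x7 := hr_ge (x := e) (a := 466 / 1000) (c := 1152 / 10000) (by norm_num)
    (by linear_combination -he + s1 + hl) (by linear_combination he + s2 + hu) (by norm_num) (by norm_num)
  by_contra hc
  push Not at hc
  have h1 : w * ph e < 16847 / 10000 * ph e := mul_lt_mul_of_pos_right hc (by linear_combination x7)
  rw [hw] at h1
  norm_num at u1 u2
  exact absurd h1 (not_lt.mpr (by linear_combination (87419083 / 93283576) * he + (845101264596637 / 8106607586472264) * s2 + (87419083 / 93283576) * hu + (21058750 / 11660447) * u1 + (100000000 / 86902839) * u2))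

theorem hr_w3 {s e w : ℝ} (he : e = h0 + s - 1) (hw : w * ph e = ph s) (s1 : 3 / 5 ≤ s)
    (s2 : s ≤ 67 / 100) : 16536 / 10000 ≤ w := by
  obtain ⟨hl, hu⟩ := hr_h0
  have u1 := up (t1 := 2472 / 10000) (t2 := 2907 / 10000) (x := e) (by norm_num) (by linear_combination -(1657981 / 1562500) * he + (1657981 / 1562500) * s1 + (1657981 / 1562500) * hl)
    (by linear_combination (108450649 / 100000000) * he + (108450649 / 100000000) * s2 + (108450649 / 100000000) * hu)
  have u2 := lo (t := 3845 / 10000) (x := s) (by norm_num) (by linear_combination s1) (by linear_combination s2)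
  have x7 := hr_ge (x := e) (a := 466 / 1000) (c := 1152 / 10000) (by norm_num)
    (by linear_combination -he + s1 + hl) (by linear_combination he + s2 + hu) (by norm_num) (by norm_num)
  by_contra hc
  push Not at hc
  have h1 : w * ph e < 16536 / 10000 * ph e := mul_lt_mul_of_pos_right hc (by linear_combination x7)
  rw [hw] at h1
  norm_num at u1 u2
  exact absurd h1 (not_lt.mpr (by linear_combination (11118393 / 11601737) * he + (2211644985127 / 39546133205943) * s2 + (11118393 / 11601737) * hu + (20670000 / 11601737) * u1 + (4000000 / 3408639) * u2))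

/-! ### The ranges of `b` -/

theorem hr_t1 {b : ℝ} (b0 : 0 ≤ b) (b1 : b ≤ 27 / 250) : b / 2 - h0 * ph b ≤ 1 / 20 := by
  have u := lo (t := 54 / 1000) (x := b) (by norm_num) (by linear_combination b0) (by linear_combination b1)
  have h1 := mul_le_mul_of_nonneg_right h0_lo (ph_nonneg b)
  norm_num at u
  linear_combination (58868 / 144925) * b1 + h1 + (5035 / 5797) * u

theorem hr_t2 {b : ℝ} (b0 : 14 / 125 ≤ b) (b1 : b ≤ 1 / 2) : 1 / 20 < b / 2 - h0 * ph b := by
  have u := up (t1 := 56 / 1000) (t2 := 268 / 1000) (x := b) (by norm_num) (by linear_combination (15674 / 15625) * b0)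
    (by linear_combination (66989 / 62500) * b1)
  have h1 := mul_le_mul_of_nonneg_right h0_hi (ph_nonneg b)
  norm_num at u
  linear_combination (5297557 / 24624800) * b0 + h1 + (433015 / 492496) * u

theorem hr_t3 {b : ℝ} (b0 : 0 ≤ b) (b1 : b ≤ 299 / 1000) : b / 2 - h0 * ph b ≤ 11 / 100 := by
  have u := lo (t := 153 / 1000) (x := b) (by norm_num) (by linear_combination b0) (by linear_combination b1)
  have h1 := mul_le_mul_of_nonneg_right h0_lo (ph_nonneg b)
  norm_num at u
  linear_combination (11164669 / 48829550) * b1 + h1 + (866020 / 976591) * u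

theorem hr_t4 {b : ℝ} (b0 : 61 / 200 ≤ b) (b1 : b ≤ 1 / 2) : 11 / 100 < b / 2 - h0 * ph b := by
  have u := up (t1 := 156 / 1000) (t2 := 268 / 1000) (x := b) (by norm_num) (by linear_combination (64021 / 62500) * b0)
    (by linear_combination (66989 / 62500) * b1)
  have h1 := mul_le_mul_of_nonneg_right h0_hi (ph_nonneg b)
  norm_num at u
  linear_combination (1398741 / 11977400) * b0 + h1 + (433015 / 479096) * u

theorem hr_k {b : ℝ} (b0 : 0 ≤ b) (b1 : b ≤ 1 / 2) : h0 * ph b ≤ 1161 / 10000 := by
  have u := hr_le (x := b) (a := 1 / 2) (c := 134 / 1000) (by linear_combination b0) b1 (by norm_num)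
    (by norm_num)
  have h1 := mul_le_mul h0_hi u (ph_nonneg b) (by norm_num)
  linear_combination h1

end Pool.Agent.Strip051.FourF
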