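import Pool.Agent.Strip051.FourF.MidGain
import Pool.Agent.Strip051.FourF.MidCorner

/-! # All bounds of the zone `s ≤ y ≤ h0` -/

namespace Pool.Agent.Strip051.FourF.MB

open Pool.Agent.StripNear Pool.Agent.StripSquare Pool.Agent.Strip051
open Pool.Agent.Strip051.Four (gn)
open Pool.Agent.Strip051.Four.Low (ph ph_nonneg)

/-- The bounds when the exit is the lower virtual side: `M` are the values on the new front,
`G` the gains. -/
structure F1 (s y b k M1 M2 M3 M4 G1 G2 G3 G4 : ℝ) : Prop where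
  n1x : 1 - 1 / 2 - 1 / 2 * ph b + h0 * b + ph (y - b / 2 - k) - ph (1 - h0) ≤ M1
  n1e : 1 - ph (s + 1 - y) + ph (s + 1 - h0) - ph (1 - h0) ≤ M1
  o11 : M1 - 1 / 2 - 1 / 2 * ph b - h0 * b + ph (y + b / 2 - k + h0 - 1) ≤ G1
  o1y : M1 - ph (h0 + s - y) + ph (h0 + s - 1) ≤ G1
  n2h : 1 - 1 / 2 - 1 / 2 * ph b + h0 * b + ph (y - b / 2 - k) - ph (h0 + s - 1) ≤ M2
  n2v : 1 - 1 / 2 - 1 / 2 * ph b + h0 * b + ph (y - b / 2 - k - s) - ph (1 - h0) ≤ M2
  n2e : 2 * h0 - 1 ≤ y → 3 / 2 - ph (2 * h0 - y) - ph (h0 + s - 1) ≤ M2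
  o2m : M2 - 1 / 2 - 1 / 2 * ph b - h0 * b + ph (y + b / 2 - k - h0 - s + 1) ≤ G2
  o2y : 2 * h0 - 1 ≤ y → M2 - ph (h0 + s - y) + ph (1 - h0) ≤ G2
  o2l : y ≤ 2 * h0 - 1 → M2 - 1 / 2 - 1 / 2 * ph b - h0 * b + ph (y + b / 2 - k - h0 + 1) -
    ph (1 + s - h0) + ph (1 - h0) ≤ G2
  n3x : 1 - 1 / 2 - 1 / 2 * ph b + h0 * b + ph (y - b / 2 - k) - ph (1 - h0) ≤ M3
  n3e : 4 / 5 ≤ y → 1 - ph (9 / 5 - y) + ph (9 / 5 - h0) - ph (1 - h0) ≤ M3
  o3h : M3 - 1 / 2 - 1 / 2 * ph b - h0 * b + ph (y + b / 2 - k) - ph (1 - h0) ≤ G3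
  o4y : M4 - ph (h0 + s - y) + ph (1 - h0) ≤ G4
  o4m : M4 - 1 / 2 - 1 / 2 * ph b - h0 * b + ph (y + b / 2 - k - h0 - s + 1) ≤ G4
  n4 : (1 - 1 / 2 - 1 / 2 * ph b + h0 * b + ph (y - b / 2 - k - h0 - s + 1) ≤ M4 ∧
    1 - 1 / 2 - 1 / 2 * ph b + h0 * b + ph (y - b / 2 - k - s) - ph (1 - h0) ≤ M4 ∧
    1 - ph (h0 + s - y) + ph (1 - h0) ≤ M4) ∨
    (381 / 200 - 2 * s ≤ M4 ∧
    381 / 200 - 2 * s + (1 / 2 + 1 / 2 * ph b + h0 * b) - ph (y + b / 2 - k - 1) ≤ M4)

/-- The bounds when the exit is the upper virtual side: `M` are the values on the new front,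
`G` the gains. -/
structure F2 (s y b k M1 M2 M3 M4 G1 G2 G3 G4 : ℝ) : Prop where
  n1x : 1 - 1 / 2 - 1 / 2 * ph b - h0 * b + ph (y + b / 2 - k) - ph (1 - h0) ≤ M1
  n1e : 1 - ph (s + 1 - y) + ph (s + 1 - h0) - ph (1 - h0) ≤ M1
  o11 : M1 - 1 / 2 - 1 / 2 * ph b + h0 * b + ph (y - b / 2 - k + h0 - 1) ≤ G1
  o1y : M1 - ph (h0 + s - y) + ph (h0 + s - 1) ≤ G1
  n2h : 1 - 1 / 2 - 1 / 2 * ph b - h0 * b + ph (y + b / 2 - k) - ph (h0 + s - 1) ≤ M2
  n2e : 2 * h0 - 1 ≤ y → 3 / 2 - ph (2 * h0 - y) - ph (h0 + s - 1) ≤ M2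
  o2m : M2 - 1 / 2 - 1 / 2 * ph b + h0 * b + ph (y - b / 2 - k - h0 - s + 1) ≤ G2
  o2y : 2 * h0 - 1 ≤ y → M2 - ph (h0 + s - y) + ph (1 - h0) ≤ G2
  o2l : y ≤ 2 * h0 - 1 → M2 - 1 / 2 - 1 / 2 * ph b + h0 * b + ph (y - b / 2 - k - h0 + 1) -
    ph (1 + s - h0) + ph (1 - h0) ≤ G2
  n3x : 1 - 1 / 2 - 1 / 2 * ph b - h0 * b + ph (y + b / 2 - k) - ph (1 - h0) ≤ M3
  n3e : 4 / 5 ≤ y → 1 - ph (9 / 5 - y) + ph (9 / 5 - h0) - ph (1 - h0) ≤ M3
  o3h : M3 - 1 / 2 - 1 / 2 * ph b + h0 * b + ph (y - b / 2 - k) - ph (1 - h0) ≤ G3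
  o4y : M4 - ph (h0 + s - y) + ph (1 - h0) ≤ G4
  o4m : M4 - 1 / 2 - 1 / 2 * ph b + h0 * b + ph (y - b / 2 - k - h0 - s + 1) ≤ G4
  o4v : M4 - 1 / 2 - 1 / 2 * ph b + h0 * b + ph (y - b / 2 - k - s) - ph (1 - h0) ≤ G4
  n4 : (1 - ph (h0 + s - y) + ph (1 - h0) ≤ M4) ∨
    (381 / 200 - 2 * s ≤ M4 ∧
    381 / 200 - 2 * s + (1 / 2 + 1 / 2 * ph b - h0 * b) - ph (y - b / 2 - k - 1) ≤ M4)

section

variable {s e w y r p q b k : ℝ}

/-- The exit is the lower virtual side. -/
theorem facts_1 (P : Par s e w) (A : Ak r p q b k) (hr : r = q)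
    (hx : ext r = p) (h1 : s ≤ y) (h2 : y ≤ h0) :
    ∃ M1 M2 M3 M4, F1 s y b k M1 M2 M3 M4 (gn (p2 s e) r y y) (gn (p3 s e) r y y)
      (gn (q2 s e) r y y) (gn (q3 s e) r y y) := by
  have s1 := P.s0
  have s2 := P.s1
  have he := P.he
  have hh : h0 ≤ 86603 / 100000 := Four.Low.h0_hi
  have hl : 86602 / 100000 ≤ h0 := Four.Low.h0_lo
  have b0 := A.h.b0
  have b1 := A.h.b1
  have r1 := A.h.r1
  have r2 := A.h.r2
  have k0 := A.k3
  have k4 := A.k4
  have kb := A.k2
  have hp := A.p_eq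
  have hq := A.q_eq
  have q0 := A.h.q_ge
  have gE : g (ext r) = 1 - (1 / 2 + 1 / 2 * ph b - h0 * b) := by
    rw [hx, A.gp]
    unfold Four.Low.ph
    ring
  have gR : g r = 1 - (1 / 2 + 1 / 2 * ph b + h0 * b) := by
    rw [hr, A.gq]
    unfold Four.Low.ph
    ring
  have pE : ext r = h0 - b / 2 - k := by rw [hx]; exact hp
  have pR : r = h0 + b / 2 - k := by rw [hr]; exact hq
  have gph : ∀ z, g z = 1 - ph z := fun z => by
    unfold Four.Low.ph
    ring
  -- the first probe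
  have n1x : 1 - 1 / 2 - 1 / 2 * ph b + h0 * b + ph (y - b / 2 - k) - ph (1 - h0) ≤
      nv (p2 s e) r y y := by
    have h := np_x (x := y) P r1 r2 h1 h2
    rw [gE, show y + ext r - h0 = y - b / 2 - k by linear_combination pE, gph, gph (1 - h0)] at h
    linear_combination h
  have n1e : 1 - ph (s + 1 - y) + ph (s + 1 - h0) - ph (1 - h0) ≤ nv (p2 s e) r y y := by
    have h := np_e (x := y) (r := r) P h1 h2
    rw [gph, gph (s + 1 - h0), gph (1 - h0)] at h
    linear_combination h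
  have G1 := gn_eq (p2 s e) r y y
  have o11 : nv (p2 s e) r y y - 1 / 2 - 1 / 2 * ph b - h0 * b + ph (y + b / 2 - k + h0 - 1) ≤
      gn (p2 s e) r y y := by
    have h := op_1 (x := y) P r1 h1 h2
    rw [gR, show y + r - 1 = y + b / 2 - k + h0 - 1 by linear_combination pR, gph] at h
    linear_combination h - G1
  have o1y : nv (p2 s e) r y y - ph (h0 + s - y) + ph (h0 + s - 1) ≤ gn (p2 s e) r y y := by
    have h := op_y (x := y) (r := r) P h1 h2
    rw [he, gph, gph (h0 + s - y)] at h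
    rw [he]
    rw [he] at G1
    linear_combination h - G1
  -- its mirror image
  have n2h : 1 - 1 / 2 - 1 / 2 * ph b + h0 * b + ph (y - b / 2 - k) - ph (h0 + s - 1) ≤
      nv (p3 s e) r y y := by
    have h := nr_h (x := y) P r1 r2 h1 h2
    rw [gE, show y + ext r - h0 = y - b / 2 - k by linear_combination pE, gph, gph e] at h
    rw [he] at h
    rw [he]
    linear_combination h
  have n2v : 1 - 1 / 2 - 1 / 2 * ph b + h0 * b + ph (y - b / 2 - k - s) - ph (1 - h0) ≤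
      nv (p3 s e) r y y := by
    have h := nr_v (x := y) P r1 r2 h1 h2 (by rw [hr]; linear_combination h1 + q0)
    rw [gE, show y + ext r - (h0 + s) = y - b / 2 - k - s by linear_combination pE, gph, gph (1 - h0)] at h
    linear_combination h
  have n2e : 2 * h0 - 1 ≤ y → 3 / 2 - ph (2 * h0 - y) - ph (h0 + s - 1) ≤
      nv (p3 s e) r y y := by
    intro h3
    have h := nr_e (x := y) (r := r) P h3 h2
    rw [gph, g_h0, gph e] at h
    rw [he] at h
    rw [he]
    linear_combination h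
  have G2 := gn_eq (p3 s e) r y y
  have o2m : nv (p3 s e) r y y - 1 / 2 - 1 / 2 * ph b - h0 * b + ph (y + b / 2 - k - h0 - s + 1) ≤
      gn (p3 s e) r y y := by
    have h := or_m (x := y) P r1 h1 h2
    rw [gR, show y + r - (2 * h0 + s - 1) = y + b / 2 - k - h0 - s + 1 by linear_combination pR,
      gph] at h
    linear_combination h - G2
  have o2y : 2 * h0 - 1 ≤ y → nv (p3 s e) r y y - ph (h0 + s - y) + ph (1 - h0) ≤
      gn (p3 s e) r y y := by
    intro h3
    have h := or_y (x := y) (r := r) P h3 h2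
    rw [gph, gph (h0 + s - y)] at h
    linear_combination h - G2
  have o2l : y ≤ 2 * h0 - 1 → nv (p3 s e) r y y - 1 / 2 - 1 / 2 * ph b - h0 * b +
      ph (y + b / 2 - k - h0 + 1) - ph (1 + s - h0) + ph (1 - h0) ≤ gn (p3 s e) r y y := by
    intro h3
    have h := or_l (x := y) P r1 h1 h3
    rw [gR, show y + r - (2 * h0 - 1) = y + b / 2 - k - h0 + 1 by linear_combination pR, gph,
      gph (1 + s - h0), gph (1 - h0)] at h
    linear_combination h - G2
  -- the second probe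
  have n3x : 1 - 1 / 2 - 1 / 2 * ph b + h0 * b + ph (y - b / 2 - k) - ph (1 - h0) ≤
      nv (q2 s e) r y y := by
    have h := nq_x (x := y) P r1 r2 h1 h2
    rw [gE, show y + ext r - h0 = y - b / 2 - k by linear_combination pE, gph, gph (1 - h0)] at h
    linear_combination h
  have n3e : 4 / 5 ≤ y → 1 - ph (9 / 5 - y) + ph (9 / 5 - h0) - ph (1 - h0) ≤
      nv (q2 s e) r y y := by
    intro h3
    have h := nq_e (x := y) (r := r) P h3 h2
    rw [gph, gph (9 / 5 - h0), gph (1 - h0)] at h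
    linear_combination h
  have G3 := gn_eq (q2 s e) r y y
  have o3h : nv (q2 s e) r y y - 1 / 2 - 1 / 2 * ph b - h0 * b + ph (y + b / 2 - k) - ph (1 - h0) ≤
      gn (q2 s e) r y y := by
    have h := oq_h (x := y) P r1 h1 h2
    rw [gR, show y + r - h0 = y + b / 2 - k by linear_combination pR, gph, gph (1 - h0)] at h
    linear_combination h - G3
  -- its mirror image
  have G4 := gn_eq (q3 s e) r y y
  have c4y : nv (q3 s e) r y y - ph (h0 + s - y) + ph (1 - h0) ≤ gn (q3 s e) r y y := by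
    have h := ot_y (x := y) (r := r) P h1 h2
    rw [gph, gph (h0 + s - y)] at h
    linear_combination h - G4
  have c4m : nv (q3 s e) r y y - 1 / 2 - 1 / 2 * ph b - h0 * b + ph (y + b / 2 - k - h0 - s + 1) ≤
      gn (q3 s e) r y y := by
    have h := ot_m (x := y) P r1 h1 h2
    rw [gR, show y + r - (2 * h0 + s - 1) = y + b / 2 - k - h0 - s + 1 by linear_combination pR,
      gph] at h
    linear_combination h - G4
  have wa : 381 / 200 - 2 * s ≤ wg s r y := by
    unfold wg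
    linear_combination (le_max_left 0 (g (y + r - (h0 + 1)) - g r))
  have wb : 381 / 200 - 2 * s + (1 / 2 + 1 / 2 * ph b + h0 * b) - ph (y + b / 2 - k - 1) ≤ wg s r y := by
    unfold wg
    have h := le_max_right 0 (g (y + r - (h0 + 1)) - g r)
    rw [gR, show y + r - (h0 + 1) = y + b / 2 - k - 1 by linear_combination pR, gph] at h
    rw [gR, show y + r - (h0 + 1) = y + b / 2 - k - 1 by linear_combination pR, gph]
    linear_combination h
  -- the wing
  have key : ∀ M, M ≤ nv (q3 s e) r y y → M = wg s r y → F1 s y b k (nv (p2 s e) r y y)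
      (nv (p3 s e) r y y) (nv (q2 s e) r y y) M (gn (p2 s e) r y y) (gn (p3 s e) r y y)
      (gn (q2 s e) r y y) (gn (q3 s e) r y y) := by
    intro M m0 m1
    exact ⟨n1x, n1e, o11, o1y, n2h, n2v, n2e, o2m, o2y, o2l, n3x, n3e, o3h,
      by linear_combination c4y + m0, by linear_combination c4m + m0,
      Or.inr ⟨by rw [m1]; exact wa, by rw [m1]; exact wb⟩⟩
  rcases le_total (wg s r y) (g (ext r) - g (y + ext r - (2 * h0 + s - 1)) + 1) with hw | hw
  · exact ⟨_, _, _, _, key _ (nt_x P r1 r2 h1 h2 (by rw [hr]; linear_combination h1 + hh + (1 / 2) * b0 + k4 - hq) le_rfl hw) rfl⟩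
  rcases le_total (wg s r y) (g (ext r) - g (y + ext r - (h0 + s)) + g (1 - h0)) with hw' | hw'
  · exact ⟨_, _, _, _, key _ (nt_v P r1 r2 h1 h2 (by rw [hr]; linear_combination h1 + q0) le_rfl hw') rfl⟩
  rcases le_total (wg s r y) (g (h0 + s - y) - g (1 - h0) + 1) with hw2 | hw2
  · exact ⟨_, _, _, _, key _ (nt_e P r1 r2 h1 h2 le_rfl hw2) rfl⟩
  have n4x : 1 - 1 / 2 - 1 / 2 * ph b + h0 * b + ph (y - b / 2 - k - h0 - s + 1) ≤
      nv (q3 s e) r y y := by
    have h := nt_x (x := y) P r1 r2 h1 h2 (by rw [hr]; linear_combination h1 + hh + (1 / 2) * b0 + k4 - hq) hw le_rfl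
    rw [gE, show y + ext r - (2 * h0 + s - 1) = y - b / 2 - k - h0 - s + 1 by linear_combination pE,
      gph] at h
    linear_combination h
  have n4v : 1 - 1 / 2 - 1 / 2 * ph b + h0 * b + ph (y - b / 2 - k - s) - ph (1 - h0) ≤
      nv (q3 s e) r y y := by
    have h := nt_v (x := y) P r1 r2 h1 h2 (by rw [hr]; linear_combination h1 + q0) hw' le_rfl
    rw [gE, show y + ext r - (h0 + s) = y - b / 2 - k - s by linear_combination pE, gph,
      gph (1 - h0)] at h
    linear_combination h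
  have n4e : 1 - ph (h0 + s - y) + ph (1 - h0) ≤ nv (q3 s e) r y y := by
    have h := nt_e (x := y) P r1 r2 h1 h2 hw2 le_rfl
    rw [gph, gph (1 - h0)] at h
    linear_combination h
  exact ⟨_, _, _, _, ⟨n1x, n1e, o11, o1y, n2h, n2v, n2e, o2m, o2y, o2l, n3x, n3e, o3h, c4y, c4m,
    Or.inl ⟨n4x, n4v, n4e⟩⟩⟩

/-- The exit is the upper virtual side. -/
theorem facts_2 (P : Par s e w) (A : Ak r p q b k) (hr : r = p)
    (hx : ext r = q) (h1 : s ≤ y) (h2 : y ≤ h0) :
    ∃ M1 M2 M3 M4, F2 s y b k M1 M2 M3 M4 (gn (p2 s e) r y y) (gn (p3 s e) r y y)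
      (gn (q2 s e) r y y) (gn (q3 s e) r y y) := by
  have s1 := P.s0
  have s2 := P.s1
  have he := P.he
  have hh : h0 ≤ 86603 / 100000 := Four.Low.h0_hi
  have hl : 86602 / 100000 ≤ h0 := Four.Low.h0_lo
  have b0 := A.h.b0
  have b1 := A.h.b1
  have r1 := A.h.r1
  have r2 := A.h.r2
  have k0 := A.k3
  have k4 := A.k4
  have kb := A.k2
  have hp := A.p_eq
  have hq := A.q_eq
  have q0 := A.h.q_ge
  have gE : g (ext r) = 1 - (1 / 2 + 1 / 2 * ph b + h0 * b) := by
    rw [hx, A.gq]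
    unfold Four.Low.ph
    ring
  have gR : g r = 1 - (1 / 2 + 1 / 2 * ph b - h0 * b) := by
    rw [hr, A.gp]
    unfold Four.Low.ph
    ring
  have pE : ext r = h0 + b / 2 - k := by rw [hx]; exact hq
  have pR : r = h0 - b / 2 - k := by rw [hr]; exact hp
  have gph : ∀ z, g z = 1 - ph z := fun z => by
    unfold Four.Low.ph
    ring
  -- the first probe
  have n1x : 1 - 1 / 2 - 1 / 2 * ph b - h0 * b + ph (y + b / 2 - k) - ph (1 - h0) ≤
      nv (p2 s e) r y y := by
    have h := np_x (x := y) P r1 r2 h1 h2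
    rw [gE, show y + ext r - h0 = y + b / 2 - k by linear_combination pE, gph, gph (1 - h0)] at h
    linear_combination h
  have n1e : 1 - ph (s + 1 - y) + ph (s + 1 - h0) - ph (1 - h0) ≤ nv (p2 s e) r y y := by
    have h := np_e (x := y) (r := r) P h1 h2
    rw [gph, gph (s + 1 - h0), gph (1 - h0)] at h
    linear_combination h
  have G1 := gn_eq (p2 s e) r y y
  have o11 : nv (p2 s e) r y y - 1 / 2 - 1 / 2 * ph b + h0 * b + ph (y - b / 2 - k + h0 - 1) ≤
      gn (p2 s e) r y y := by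
    have h := op_1 (x := y) P r1 h1 h2
    rw [gR, show y + r - 1 = y - b / 2 - k + h0 - 1 by linear_combination pR, gph] at h
    linear_combination h - G1
  have o1y : nv (p2 s e) r y y - ph (h0 + s - y) + ph (h0 + s - 1) ≤ gn (p2 s e) r y y := by
    have h := op_y (x := y) (r := r) P h1 h2
    rw [he, gph, gph (h0 + s - y)] at h
    rw [he]
    rw [he] at G1
    linear_combination h - G1
  -- its mirror image
  have n2h : 1 - 1 / 2 - 1 / 2 * ph b - h0 * b + ph (y + b / 2 - k) - ph (h0 + s - 1) ≤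
      nv (p3 s e) r y y := by
    have h := nr_h (x := y) P r1 r2 h1 h2
    rw [gE, show y + ext r - h0 = y + b / 2 - k by linear_combination pE, gph, gph e] at h
    rw [he] at h
    rw [he]
    linear_combination h
  have n2e : 2 * h0 - 1 ≤ y → 3 / 2 - ph (2 * h0 - y) - ph (h0 + s - 1) ≤
      nv (p3 s e) r y y := by
    intro h3
    have h := nr_e (x := y) (r := r) P h3 h2
    rw [gph, g_h0, gph e] at h
    rw [he] at h
    rw [he]
    linear_combination h
  have G2 := gn_eq (p3 s e) r y y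
  have o2m : nv (p3 s e) r y y - 1 / 2 - 1 / 2 * ph b + h0 * b + ph (y - b / 2 - k - h0 - s + 1) ≤
      gn (p3 s e) r y y := by
    have h := or_m (x := y) P r1 h1 h2
    rw [gR, show y + r - (2 * h0 + s - 1) = y - b / 2 - k - h0 - s + 1 by linear_combination pR,
      gph] at h
    linear_combination h - G2
  have o2y : 2 * h0 - 1 ≤ y → nv (p3 s e) r y y - ph (h0 + s - y) + ph (1 - h0) ≤
      gn (p3 s e) r y y := by
    intro h3
    have h := or_y (x := y) (r := r) P h3 h2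
    rw [gph, gph (h0 + s - y)] at h
    linear_combination h - G2
  have o2l : y ≤ 2 * h0 - 1 → nv (p3 s e) r y y - 1 / 2 - 1 / 2 * ph b + h0 * b +
      ph (y - b / 2 - k - h0 + 1) - ph (1 + s - h0) + ph (1 - h0) ≤ gn (p3 s e) r y y := by
    intro h3
    have h := or_l (x := y) P r1 h1 h3
    rw [gR, show y + r - (2 * h0 - 1) = y - b / 2 - k - h0 + 1 by linear_combination pR, gph,
      gph (1 + s - h0), gph (1 - h0)] at h
    linear_combination h - G2
  -- the second probe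
  have n3x : 1 - 1 / 2 - 1 / 2 * ph b - h0 * b + ph (y + b / 2 - k) - ph (1 - h0) ≤
      nv (q2 s e) r y y := by
    have h := nq_x (x := y) P r1 r2 h1 h2
    rw [gE, show y + ext r - h0 = y + b / 2 - k by linear_combination pE, gph, gph (1 - h0)] at h
    linear_combination h
  have n3e : 4 / 5 ≤ y → 1 - ph (9 / 5 - y) + ph (9 / 5 - h0) - ph (1 - h0) ≤
      nv (q2 s e) r y y := by
    intro h3
    have h := nq_e (x := y) (r := r) P h3 h2
    rw [gph, gph (9 / 5 - h0), gph (1 - h0)] at h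
    linear_combination h
  have G3 := gn_eq (q2 s e) r y y
  have o3h : nv (q2 s e) r y y - 1 / 2 - 1 / 2 * ph b + h0 * b + ph (y - b / 2 - k) - ph (1 - h0) ≤
      gn (q2 s e) r y y := by
    have h := oq_h (x := y) P r1 h1 h2
    rw [gR, show y + r - h0 = y - b / 2 - k by linear_combination pR, gph, gph (1 - h0)] at h
    linear_combination h - G3
  -- its mirror image
  have G4 := gn_eq (q3 s e) r y y
  have c4y : nv (q3 s e) r y y - ph (h0 + s - y) + ph (1 - h0) ≤ gn (q3 s e) r y y := by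
    have h := ot_y (x := y) (r := r) P h1 h2
    rw [gph, gph (h0 + s - y)] at h
    linear_combination h - G4
  have c4m : nv (q3 s e) r y y - 1 / 2 - 1 / 2 * ph b + h0 * b + ph (y - b / 2 - k - h0 - s + 1) ≤
      gn (q3 s e) r y y := by
    have h := ot_m (x := y) P r1 h1 h2
    rw [gR, show y + r - (2 * h0 + s - 1) = y - b / 2 - k - h0 - s + 1 by linear_combination pR,
      gph] at h
    linear_combination h - G4
  have c4v : nv (q3 s e) r y y - 1 / 2 - 1 / 2 * ph b + h0 * b + ph (y - b / 2 - k - s) -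
      ph (1 - h0) ≤ gn (q3 s e) r y y := by
    have h := ot_v (x := y) P r1 h1 h2
    rw [gR, show y + r - (h0 + s) = y - b / 2 - k - s by linear_combination pR, gph, gph (1 - h0)] at h
    linear_combination h - G4
  have wa : 381 / 200 - 2 * s ≤ wg s r y := by
    unfold wg
    linear_combination (le_max_left 0 (g (y + r - (h0 + 1)) - g r))
  have wb : 381 / 200 - 2 * s + (1 / 2 + 1 / 2 * ph b - h0 * b) - ph (y - b / 2 - k - 1) ≤ wg s r y := by
    unfold wg
    have h := le_max_right 0 (g (y + r - (h0 + 1)) - g r)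
    rw [gR, show y + r - (h0 + 1) = y - b / 2 - k - 1 by linear_combination pR, gph] at h
    rw [gR, show y + r - (h0 + 1) = y - b / 2 - k - 1 by linear_combination pR, gph]
    linear_combination h
  -- the wing
  have key : ∀ M, M ≤ nv (q3 s e) r y y → M = wg s r y → F2 s y b k (nv (p2 s e) r y y)
      (nv (p3 s e) r y y) (nv (q2 s e) r y y) M (gn (p2 s e) r y y) (gn (p3 s e) r y y)
      (gn (q2 s e) r y y) (gn (q3 s e) r y y) := by
    intro M m0 m1
    exact ⟨n1x, n1e, o11, o1y, n2h, n2e, o2m, o2y, o2l, n3x, n3e, o3h,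
      by linear_combination c4y + m0, by linear_combination c4m + m0, by linear_combination c4v + m0,
      Or.inr ⟨by rw [m1]; exact wa, by rw [m1]; exact wb⟩⟩
  rcases le_total (wg s r y) (g (h0 + s - y) - g (1 - h0) + 1) with hw2 | hw2
  · exact ⟨_, _, _, _, key _ (nt_e P r1 r2 h1 h2 le_rfl hw2) rfl⟩
  have n4e : 1 - ph (h0 + s - y) + ph (1 - h0) ≤ nv (q3 s e) r y y := by
    have h := nt_e (x := y) P r1 r2 h1 h2 hw2 le_rfl
    rw [gph, gph (1 - h0)] at h
    linear_combination h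
  exact ⟨_, _, _, _, ⟨n1x, n1e, o11, o1y, n2h, n2e, o2m, o2y, o2l, n3x, n3e, o3h, c4y, c4m, c4v,
    Or.inl n4e⟩⟩

end

end Pool.Agent.Strip051.FourF.MB
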