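import Pool.Agent.Strip051.FourF.Defs
import Pool.Agent.Strip051.FourD.Gains

/-! # Bounds for the values of the middle probes when the new point is between `s` and `h0` -/

namespace Pool.Agent.Strip051.FourF.MB

open Pool.Agent.StripNear Pool.Agent.StripSquare Pool.Agent.Strip051
open Pool.Agent.Strip051.Four (gn mirP mirP_ok j1 arc_sub gn_nonneg ext_facts g_le_of_abs)
open Pool.Agent.Strip051.FourD (gam_up gam_at)

/-- The value of a probe on the new front. -/
noncomputable def nv (j : Probe) (r q y : ℝ) : ℝ :=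
  j.val (fun z => max (gam r q (z - y)) (g (z - y)))

/-- The value of a probe on the old front. -/
noncomputable def ov (j : Probe) (r q y : ℝ) : ℝ := j.val (fun z => gam r q (z - y))

theorem gn_eq (j : Probe) (r q y : ℝ) : gn j r q y = nv j r q y - ov j r q y := rfl

theorem nv_ge {j : Probe} {H r q y v : ℝ} (hj : j.Ok H)
    (h : ∀ z, j.lo ≤ z → z ≤ j.hi → j.a z + v ≤ gam r q (z - y) ∨ j.a z + v ≤ g (z - y)) :
    v ≤ nv j r q y := by
  apply Probe.le_val hj
  intro z k1 k2
  rcases h z k1 k2 with k3 | k3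
  · exact k3.trans (le_max_left _ _)
  · exact k3.trans (le_max_right _ _)

theorem ov_le {j : Probe} {H r q y z0 : ℝ} (hj : j.Ok H) (h1 : j.lo ≤ z0) (h2 : z0 ≤ j.hi) :
    ov j r q y ≤ gam r q (z0 - y) - j.a z0 :=
  Probe.val_le hj (f := fun z => gam r q (z - y)) (m := 0) (fun z => gam_nonneg _ _ _) h1 h2

/-- An old contact at or above the new point. -/
theorem ov_up {j : Probe} {H r q y z0 β : ℝ} (hj : j.Ok H) (h1 : j.lo ≤ z0) (h2 : z0 ≤ j.hi)
    (h3 : y ≤ z0) (h4 : z0 ≤ y + 2 * r) (hβ : β ≤ j.a z0) :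
    ov j r q y ≤ g (y + r - z0) - g r - β := by
  have := ov_le (r := r) (q := q) (y := y) hj h1 h2
  rw [gam_up h3 h4] at this
  linear_combination hβ + this

/-- The old contact at the new point. -/
theorem ov_at {j : Probe} {H r q y β : ℝ} (hj : j.Ok H) (h1 : j.lo ≤ y) (h2 : y ≤ j.hi)
    (hβ : β ≤ j.a y) : ov j r q y ≤ -β := by
  have := ov_le (r := r) (q := q) (y := y) hj h1 h2
  rw [gam_at] at this
  linear_combination hβ + this

/-- The new front leaves the arc with centre `C` at the exit. -/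
theorem pt_exit {r q y z C α A : ℝ} (h1 : 1 / 2 ≤ r) (h2 : r ≤ 1) (hC1 : y ≤ C)
    (hC2 : C ≤ y + r) (ha : A ≤ g (z - C) + α) :
    A + (g (ext r) - (g (y + ext r - C) + α)) ≤ gam r q (z - y) ∨
      A + (g (ext r) - (g (y + ext r - C) + α)) ≤ g (z - y) := by
  obtain ⟨e1, e2, e3, e4, e5⟩ := ext_facts h1 h2
  have h4 : g (ext r) ≤ g (y + ext r - C) := g_le_of_abs (by linear_combination hC1) (by linear_combination h2 + hC2 + 2 * e1)
  have hg0 := g_nonneg (z - y)
  rcases le_total (z - y) (ext r) with hz | hz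
  · right
    rcases le_total (-1) (z - C) with h5 | h5
    · have := four (x := z - C) (y := z - y) (z := y + ext r - C) (w := ext r) h5
        (by linear_combination e2) (by linear_combination hC1) (by linear_combination hz) (by ring)
      linear_combination ha + this
    · have : g (z - C) = 0 := g_far (by rw [abs_of_nonpos (by linear_combination h5)]; linear_combination h5)
      linear_combination ha + h4 + hg0 + this
  · left
    unfold gam
    rw [if_pos (by linear_combination e1 + hz)]
    unfold vir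
    rcases le_total (z - C) 1 with h5 | h5
    · refine le_trans ?_ (le_max_right _ _)
      have := four (x := ext r - r) (y := z - y - r) (z := y + ext r - C) (w := z - C)
        (by linear_combination h2 + e1) (by linear_combination h5) (by linear_combination hz) (by linear_combination hC2) (by ring)
      linear_combination ha - e3 + this
    · have : g (z - C) = 0 := g_far (h5.trans (le_abs_self _))
      refine le_trans ?_ (le_max_left _ _)
      linear_combination ha + h4 + this

/-- The new disc touches the arc with centre `C` at the end of the body. -/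
theorem pt_end {y z C α A t : ℝ} (hC1 : y ≤ C) (hC2 : C ≤ z + 1) (hz : z ≤ t) (ht : t ≤ y + 1)
    (ha : A ≤ g (z - C) + α) : A + (g (t - y) - (g (t - C) + α)) ≤ g (z - y) := by
  have := four (x := z - C) (y := z - y) (z := t - C) (w := t - y) (by linear_combination hC2)
    (by linear_combination ht) (by linear_combination hC1) (by linear_combination hz) (by ring)
  linear_combination ha + this

section

variable {s e w y r x : ℝ}

/-! ### The first middle probe -/

theorem np_x (P : Par s e w) (r1 : 1 / 2 ≤ r) (r2 : r ≤ 1) (h1 : s ≤ y) (h2 : y ≤ h0) :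
    g (ext r) - g (y + ext r - h0) + g (1 - h0) ≤ nv (p2 s e) r x y := by
  have := P.s0
  have := h0_lt
  apply nv_ge (p2_ok P)
  intro z _ _
  have := pt_exit (q := x) (z := z) (A := bp s e z) r1 r2 h2 (by linear_combination r1 + h1 + this + (‹57 / 100 ≤ s›))
    (show bp s e z ≤ g (z - h0) + -g (1 - h0) by have := bp_le2 (s := s) (e := e) (z := z); linear_combination this)
  simp only [p2]
  rcases this with h | h
  · left
    linear_combination h
  · right
    linear_combination h

theorem np_e (P : Par s e w) (h1 : s ≤ y) (h2 : y ≤ h0) :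
    g (s + 1 - y) - g (s + 1 - h0) + g (1 - h0) ≤ nv (p2 s e) r x y := by
  have := P.s0
  have := h0_lt
  apply nv_ge (p2_ok P)
  intro z z1 z2
  simp only [p2] at z1 z2 ⊢
  right
  have := pt_end (y := y) (z := z) (A := bp s e z) (t := s + 1) h2 (by linear_combination this + z1 + (‹57 / 100 ≤ s›)) z2
    (by linear_combination h1)
    (show bp s e z ≤ g (z - h0) + -g (1 - h0) by have := bp_le2 (s := s) (e := e) (z := z); linear_combination this)
  linear_combination this

theorem op_1 (P : Par s e w) (r1 : 1 / 2 ≤ r) (h1 : s ≤ y) (h2 : y ≤ h0) :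
    ov (p2 s e) r x y ≤ g (y + r - 1) - g r := by
  have := P.s0
  have := P.s1
  have := h0_lt
  have := ov_up (q := x) (r := r) (y := y) (z0 := 1) (β := 0) (p2_ok P)
    (by simp only [p2]; linear_combination h1 + h2 + this) (by simp only [p2]; linear_combination (‹57 / 100 ≤ s›)) (by linear_combination h2 + this) (by linear_combination 2 * r1 + h1 + (‹57 / 100 ≤ s›))
    (by
      simp only [p2]
      rw [bp_eq2 P le_rfl (by linear_combination (‹57 / 100 ≤ s›)), sub_self])
  linear_combination this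

theorem op_y (P : Par s e w) (h1 : s ≤ y) (h2 : y ≤ h0) :
    ov (p2 s e) r x y ≤ g e - g (h0 + s - y) := by
  have := P.s0
  have := P.s1
  have := h0_lt
  have := ov_at (q := x) (r := r) (y := y) (β := g (h0 + s - y) - g e) (p2_ok P)
    (by simp only [p2]; linear_combination h1) (by simp only [p2]; linear_combination h2 + this + (‹57 / 100 ≤ s›))
    (by
      simp only [p2]
      rw [bp_eq1 P h1 (by linear_combination h2 + this), ← g_neg (y - (h0 + s)), neg_sub])
  linear_combination this

/-! ### Its mirror image -/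

theorem p3_a (s e z : ℝ) : (p3 s e).a z = bp s e (2 * h0 + s - z) := rfl

theorem p3_lo (s e : ℝ) : (p3 s e).lo = 2 * h0 - 1 := by
  simp only [p3, mirP, p2]
  ring

theorem p3_hi (s e : ℝ) : (p3 s e).hi = 2 * h0 := by
  simp only [p3, mirP, p2]
  ring

theorem p3_le1 (z : ℝ) : (p3 s e).a z ≤ g (z - h0) + -g e := by
  rw [p3_a]
  have := bp_le1 (s := s) (e := e) (z := 2 * h0 + s - z)
  rw [show 2 * h0 + s - z - (h0 + s) = -(z - h0) by ring, g_neg] at this
  linear_combination this

theorem p3_le2 (z : ℝ) : (p3 s e).a z ≤ g (z - (h0 + s)) + -g (1 - h0) := by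
  rw [p3_a]
  have := bp_le2 (s := s) (e := e) (z := 2 * h0 + s - z)
  rw [show 2 * h0 + s - z - h0 = -(z - (h0 + s)) by ring, g_neg] at this
  linear_combination this

theorem nr_h (P : Par s e w) (r1 : 1 / 2 ≤ r) (r2 : r ≤ 1) (h1 : s ≤ y) (h2 : y ≤ h0) :
    g (ext r) - g (y + ext r - h0) + g e ≤ nv (p3 s e) r x y := by
  have := P.s0
  have := h0_lt
  apply nv_ge (p3_ok P)
  intro z _ _
  have := pt_exit (q := x) (z := z) (A := (p3 s e).a z) r1 r2 h2 (by linear_combination r1 + h1 + this + (‹57 / 100 ≤ s›)) (p3_le1 z)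
  rcases this with h | h
  · left
    linear_combination h
  · right
    linear_combination h

theorem nr_v (P : Par s e w) (r1 : 1 / 2 ≤ r) (r2 : r ≤ 1) (h1 : s ≤ y) (h2 : y ≤ h0)
    (h3 : h0 + s ≤ y + r) :
    g (ext r) - g (y + ext r - (h0 + s)) + g (1 - h0) ≤ nv (p3 s e) r x y := by
  have := P.s0
  have := h0_lt
  apply nv_ge (p3_ok P)
  intro z _ _
  have := pt_exit (q := x) (z := z) (A := (p3 s e).a z) r1 r2 (by linear_combination h2 + (‹57 / 100 ≤ s›)) h3 (p3_le2 z)
  rcases this with h | h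
  · left
    linear_combination h
  · right
    linear_combination h

theorem nr_e (P : Par s e w) (h1 : 2 * h0 - 1 ≤ y) (h2 : y ≤ h0) :
    g (2 * h0 - y) - g h0 + g e ≤ nv (p3 s e) r x y := by
  have := P.s0
  have := h0_lt
  have := h0_gt
  apply nv_ge (p3_ok P)
  intro z z1 z2
  rw [p3_lo] at z1
  rw [p3_hi] at z2
  right
  have := pt_end (y := y) (z := z) (A := (p3 s e).a z) (t := 2 * h0) h2 (by linear_combination this + z1) z2
    (by linear_combination h1) (p3_le1 z)
  rw [show 2 * h0 - h0 = h0 by ring] at this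
  linear_combination this

theorem or_m (P : Par s e w) (r1 : 1 / 2 ≤ r) (h1 : s ≤ y) (h2 : y ≤ h0) :
    ov (p3 s e) r x y ≤ g (y + r - (2 * h0 + s - 1)) - g r := by
  have := P.s0
  have := P.s1
  have := h0_lt
  have := h0_gt
  have := ov_up (q := x) (r := r) (y := y) (z0 := 2 * h0 + s - 1) (β := 0) (p3_ok P)
    (by rw [p3_lo]; linear_combination (‹57 / 100 ≤ s›)) (by rw [p3_hi]; linear_combination (‹s ≤ 67 / 100›)) (by linear_combination h1 + 2 * h2 + 2 * (‹57 / 100 ≤ s›)) (by linear_combination 2 * r1 + h1 + 2 * (‹h0 < 0.8661›))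
    (by
      rw [p3_a, sub_sub_cancel, bp_eq2 P le_rfl (by linear_combination (‹57 / 100 ≤ s›)), sub_self])
  linear_combination this

theorem or_y (P : Par s e w) (h1 : 2 * h0 - 1 ≤ y) (h2 : y ≤ h0) :
    ov (p3 s e) r x y ≤ g (1 - h0) - g (h0 + s - y) := by
  have := P.s0
  have := P.s1
  have := h0_lt
  have := h0_gt
  have := ov_at (q := x) (r := r) (y := y) (β := g (h0 + s - y) - g (1 - h0)) (p3_ok P)
    (by rw [p3_lo]; linear_combination h1) (by rw [p3_hi]; linear_combination h2 + this)
    (by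
      rw [p3_a, bp_eq2 P (by linear_combination h2 + this + (‹57 / 100 ≤ s›)) (by linear_combination h1),
        show 2 * h0 + s - y - h0 = h0 + s - y by ring])
  linear_combination this

theorem or_l (P : Par s e w) (r1 : 1 / 2 ≤ r) (h1 : s ≤ y) (h2 : y ≤ 2 * h0 - 1) :
    ov (p3 s e) r x y ≤ g (y + r - (2 * h0 - 1)) - g r - g (1 + s - h0) + g (1 - h0) := by
  have := P.s0
  have := P.s1
  have := h0_lt
  have := h0_gt
  have := ov_up (q := x) (r := r) (y := y) (z0 := 2 * h0 - 1) (β := g (1 + s - h0) - g (1 - h0))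
    (p3_ok P)
    (by rw [p3_lo]) (by rw [p3_hi]; linear_combination) (by linear_combination h2) (by linear_combination 2 * r1 + h1 + (‹57 / 100 ≤ s›) + 2 * (‹h0 < 0.8661›))
    (by
      rw [p3_a, bp_eq2 P (by linear_combination (‹57 / 100 ≤ s›)) (by linear_combination),
        show 2 * h0 + s - (2 * h0 - 1) - h0 = 1 + s - h0 by ring])
  linear_combination this

/-! ### The second middle probe -/

/-- The wing and the gap of the second middle probe do not matter. -/
theorem nq_aux (P : Par s e w) (h1 : s ≤ y) (h2 : y ≤ h0) {v : ℝ} (hv : v ≤ 1)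
    (h : ∀ z, h0 ≤ z → z ≤ 9 / 5 →
      bq s e z + v ≤ gam r x (z - y) ∨ bq s e z + v ≤ g (z - y)) : v ≤ nv (q2 s e) r x y := by
  have := P.s0
  have := P.s1
  have he := P.he
  have := h0_lt
  have := h0_gt
  apply nv_ge (q2_ok P)
  intro z z1 z2
  simp only [q2] at z1 z2 ⊢
  rcases le_or_gt z e with k1 | k1
  · right
    rw [bq_wing k1]
    have e1 := arc_sub (a := y) (b := 2 * h0 + s - 1) (x := z) (y := e) (by linear_combination h2 + this + (‹57 / 100 ≤ s›)) k1
      (by linear_combination z1) (by linear_combination h1 + 2 * he + z1 + k1)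
    rw [show e - (2 * h0 + s - 1) = -h0 by rw [he]; ring, g_neg] at e1
    have e2 : (9 / 10 : ℝ) ≤ g (e - y) := by
      unfold g
      apply Real.le_sqrt_of_sq_le
      linear_combination (779 / 1500) * h2 - (67 / 250) * he + (141 / 250) * (‹57 / 100 ≤ s›) +
        (209 / 300) * (‹h0 < 0.8661›) + (mul_nonneg (sub_nonneg.mpr h1) (sub_nonneg.mpr h2)) +
        2 * (mul_nonneg (sub_nonneg.mpr h1) (sub_nonneg.mpr (ge_of_eq he))) + (2 / 3) * (mul_nonneg (sub_nonneg.mpr h1) (sub_nonneg.mpr (le_of_lt this))) +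
        (mul_nonneg (sub_nonneg.mpr h1) (sub_nonneg.mpr ‹57 / 100 ≤ s›)) + (1 / 3) * (mul_nonneg (sub_nonneg.mpr h2) (sub_nonneg.mpr (le_of_eq he))) +
        (1 / 3) * (mul_nonneg (sub_nonneg.mpr h2) (sub_nonneg.mpr z1)) + (1 / 3) * (mul_nonneg (sub_nonneg.mpr h2) (sub_nonneg.mpr k1)) +
        (mul_nonneg (sub_nonneg.mpr (ge_of_eq he)) (sub_nonneg.mpr (le_of_eq he))) + 2 * (mul_nonneg (sub_nonneg.mpr (le_of_eq he)) (sub_nonneg.mpr (le_of_lt this))) +
        (1 / 3) * (mul_nonneg (sub_nonneg.mpr (le_of_lt this)) (sub_nonneg.mpr z1)) + (1 / 3) * (mul_nonneg (sub_nonneg.mpr (le_of_lt this)) (sub_nonneg.mpr z2))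
    have e3 : g h0 ≤ 51 / 100 := by
      have h4 := g_sq (r := h0) (by linear_combination (933 / 500) * he + (933 / 500) * z1 + (933 / 500) * k1 + (mul_nonneg (sub_nonneg.mpr (le_of_eq he)) (sub_nonneg.mpr (le_of_lt this))) +
        (mul_nonneg (sub_nonneg.mpr (le_of_lt this)) (sub_nonneg.mpr z1)) + (mul_nonneg (sub_nonneg.mpr (le_of_lt this)) (sub_nonneg.mpr k1)))
      have h5 := g_nonneg h0
      exact not_lt.mp (fun hg__ => absurd hg__ (not_lt.mpr (by linear_combination (433 / 255) * this + (50 / 51) * h4 + (50 / 51) * (mul_pos (sub_pos.mpr this) (sub_pos.mpr this)) + (50 / 51) * (mul_pos (sub_pos.mpr hg__) (sub_pos.mpr hg__)))))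
    linear_combination hv + e1 + e2 + e3 + 2 * (‹s ≤ 67 / 100›)
  · rcases lt_or_ge z h0 with k2 | k2
    · right
      rw [bq_gap k1 k2]
      have := g_nonneg (z - y)
      linear_combination hv + this
    · exact h z k2 z2

theorem nq_x (P : Par s e w) (r1 : 1 / 2 ≤ r) (r2 : r ≤ 1) (h1 : s ≤ y) (h2 : y ≤ h0) :
    g (ext r) - g (y + ext r - h0) + g (1 - h0) ≤ nv (q2 s e) r x y := by
  have := P.s0
  have := h0_lt
  obtain ⟨e1, e2, e3, e4, e5⟩ := ext_facts r1 r2
  have h4 : g (ext r) ≤ g (y + ext r - h0) := g_le_of_abs (by linear_combination h2) (by linear_combination h1 + this + 2 * e1 + (‹57 / 100 ≤ s›))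
  have h5 := g_le_one (1 - h0)
  apply nq_aux P h1 h2 (by linear_combination h4 + h5)
  intro z z1 _
  have := pt_exit (q := x) (z := z) (A := bq s e z) r1 r2 h2 (by linear_combination r1 + h1 + this + (‹57 / 100 ≤ s›))
    (show bq s e z ≤ g (z - h0) + -g (1 - h0) by have := bq_main_le2 P z1; linear_combination this)
  rcases this with h | h
  · left
    linear_combination h
  · right
    linear_combination h

theorem nq_e (P : Par s e w) (h1 : 4 / 5 ≤ y) (h2 : y ≤ h0) :
    g (9 / 5 - y) - g (9 / 5 - h0) + g (1 - h0) ≤ nv (q2 s e) r x y := by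
  have := P.s0
  have := P.s1
  have := h0_lt
  have h4 : g (9 / 5 - y) ≤ g (9 / 5 - h0) := g_anti (by linear_combination this) (by linear_combination h2)
  have h5 := g_le_one (1 - h0)
  apply nq_aux P (by linear_combination h1 + (‹s ≤ 67 / 100›)) h2 (by linear_combination h4 + h5)
  intro z z1 z2
  right
  have := pt_end (y := y) (z := z) (A := bq s e z) (t := 9 / 5) h2 (by linear_combination z1) z2
    (by linear_combination h1)
    (show bq s e z ≤ g (z - h0) + -g (1 - h0) by have := bq_main_le2 P z1; linear_combination this)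
  linear_combination this

theorem oq_h (P : Par s e w) (r1 : 1 / 2 ≤ r) (h1 : s ≤ y) (h2 : y ≤ h0) :
    ov (q2 s e) r x y ≤ g (y + r - h0) - g r - g (1 - h0) + 1 := by
  have := P.s0
  have := P.s1
  have := h0_lt
  have := h0_gt
  have := ov_up (q := x) (r := r) (y := y) (z0 := h0) (β := g (1 - h0) - 1) (q2_ok P)
    (by simp only [q2]; linear_combination (‹s ≤ 67 / 100›) + (‹h0 < 0.8661›)) (by simp only [q2]; linear_combination (‹h0 < 0.8661›)) (by linear_combination h2) (by linear_combination 2 * r1 + h1 + (‹57 / 100 ≤ s›) + (‹h0 < 0.8661›))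
    (by
      simp only [q2]
      rw [bq_eq1 P le_rfl (by linear_combination (‹h0 < 0.8661›)), ← g_neg (h0 - 1), neg_sub])
  linear_combination this

/-! ### Its mirror image -/

theorem q3_a (s e z : ℝ) : (q3 s e).a z = bq s e (2 * h0 + s - z) := rfl

theorem q3_lo (s e : ℝ) : (q3 s e).lo = 2 * h0 + s - 9 / 5 := rfl

theorem q3_hi (s e : ℝ) : (q3 s e).hi = 2 := by
  simp only [q3, mirP, q2]
  ring

/-- The value on the wing. -/
noncomputable def wg (s r y : ℝ) : ℝ :=
  381 / 200 - 2 * s + max 0 (g (y + r - (h0 + 1)) - g r)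

theorem nt_aux (P : Par s e w) (r1 : 1 / 2 ≤ r) (r2 : r ≤ 1) (h1 : s ≤ y) (h2 : y ≤ h0) {v : ℝ}
    (hw : v ≤ wg s r y)
    (h : ∀ z, 2 * h0 + s - 9 / 5 ≤ z → z ≤ h0 + s →
      (q3 s e).a z + v ≤ gam r x (z - y) ∨ (q3 s e).a z + v ≤ g (z - y)) :
    v ≤ nv (q3 s e) r x y := by
  have := P.s0
  have := P.s1
  have he := P.he
  have := h0_lt
  have := h0_gt
  apply nv_ge (q3_ok P)
  intro z z1 z2
  rw [q3_lo] at z1
  rw [q3_hi] at z2
  rcases le_or_gt z (h0 + s) with k1 | k1
  · exact h z z1 k1
  · left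
    have hg0 := gam_nonneg r x (z - y)
    rcases lt_or_ge z (h0 + 1) with k2 | k2
    · rw [q3_a, bq_gap (by linear_combination he + k2) (by linear_combination k1)]
      have : wg s r y ≤ 3 := by
        unfold wg
        have m1 := g_le_one (y + r - (h0 + 1))
        have m2 := g_nonneg r
        have m3 : max 0 (g (y + r - (h0 + 1)) - g r) ≤ 1 := max_le (by norm_num) (by linear_combination m1 + m2)
        linear_combination m3 + 2 * (‹57 / 100 ≤ s›)
      linear_combination hw + hg0 + this
    · rw [q3_a, bq_wing (by linear_combination -he + k2), show 2 * h0 + s - z - (2 * h0 + s - 1) = -(z - 1) by ring,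
        g_neg]
      have e1 : g (z - 1) ≤ g h0 := g_anti (by linear_combination this) (by linear_combination k2)
      have e2 := g_h0
      unfold wg at hw
      rcases le_total (g (y + r - (h0 + 1)) - g r) 0 with k3 | k3
      · rw [max_eq_left k3] at hw
        linear_combination hw + hg0 + e1 + e2
      · rw [max_eq_right k3] at hw
        have e3 := arc_sub (a := 1) (b := y + r) (x := h0 + 1) (y := z) (by linear_combination r1 + h1 + (‹57 / 100 ≤ s›)) k2
          (by linear_combination r2 + h2) (by linear_combination z2)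
        rw [show h0 + 1 - 1 = h0 by ring, ← g_neg (h0 + 1 - (y + r)), neg_sub] at e3
        unfold gam
        rw [if_pos (by linear_combination h2 + k2)]
        unfold vir
        refine le_trans ?_ (le_max_right _ _)
        rw [show z - y - r = z - (y + r) by ring]
        linear_combination hw + e2 + e3

/-- The exit on the arc with centre `2 h0 + s - 1`. -/
theorem nt_x (P : Par s e w) (r1 : 1 / 2 ≤ r) (r2 : r ≤ 1) (h1 : s ≤ y) (h2 : y ≤ h0)
    (h3 : 2 * h0 + s - 1 ≤ y + r) {v : ℝ} (hw : v ≤ wg s r y)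
    (hv : v ≤ g (ext r) - g (y + ext r - (2 * h0 + s - 1)) + 1) : v ≤ nv (q3 s e) r x y := by
  have := P.s0
  have := h0_lt
  have := h0_gt
  apply nt_aux P r1 r2 h1 h2 hw
  intro z z1 z2
  have k1 : (q3 s e).a z ≤ g (z - (2 * h0 + s - 1)) + -1 := by
    rw [q3_a]
    have := bq_main_le1 P (z := 2 * h0 + s - z) (by linear_combination z2)
    rw [show 2 * h0 + s - z - 1 = -(z - (2 * h0 + s - 1)) by ring, g_neg] at this
    linear_combination this
  have := pt_exit (q := x) (z := z) (A := (q3 s e).a z) r1 r2 (by linear_combination h2 + this + (‹57 / 100 ≤ s›)) h3 k1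
  rcases this with h | h
  · left
    linear_combination hv + h
  · right
    linear_combination hv + h

/-- The exit on the arc with centre `h0 + s`. -/
theorem nt_v (P : Par s e w) (r1 : 1 / 2 ≤ r) (r2 : r ≤ 1) (h1 : s ≤ y) (h2 : y ≤ h0)
    (h3 : h0 + s ≤ y + r) {v : ℝ} (hw : v ≤ wg s r y)
    (hv : v ≤ g (ext r) - g (y + ext r - (h0 + s)) + g (1 - h0)) : v ≤ nv (q3 s e) r x y := by
  have := P.s0
  have := h0_lt
  have := h0_gt
  apply nt_aux P r1 r2 h1 h2 hw
  intro z z1 z2
  have k1 : (q3 s e).a z ≤ g (z - (h0 + s)) + -g (1 - h0) := by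
    rw [q3_a]
    have := bq_main_le2 P (z := 2 * h0 + s - z) (by linear_combination z2)
    rw [show 2 * h0 + s - z - h0 = -(z - (h0 + s)) by ring, g_neg] at this
    linear_combination this
  have := pt_exit (q := x) (z := z) (A := (q3 s e).a z) r1 r2 (by linear_combination h2 + (‹57 / 100 ≤ s›)) h3 k1
  rcases this with h | h
  · left
    linear_combination hv + h
  · right
    linear_combination hv + h

/-- The end of the body. -/
theorem nt_e (P : Par s e w) (r1 : 1 / 2 ≤ r) (r2 : r ≤ 1) (h1 : s ≤ y) (h2 : y ≤ h0)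
    {v : ℝ} (hw : v ≤ wg s r y)
    (hv : v ≤ g (h0 + s - y) - g (1 - h0) + 1) : v ≤ nv (q3 s e) r x y := by
  have := P.s0
  have := P.s1
  have := h0_lt
  have := h0_gt
  apply nt_aux P r1 r2 h1 h2 hw
  intro z z1 z2
  right
  have k1 : (q3 s e).a z ≤ g (z - (2 * h0 + s - 1)) + -1 := by
    rw [q3_a]
    have := bq_main_le1 P (z := 2 * h0 + s - z) (by linear_combination z2)
    rw [show 2 * h0 + s - z - 1 = -(z - (2 * h0 + s - 1)) by ring, g_neg] at this
    linear_combination this
  have := pt_end (y := y) (z := z) (A := (q3 s e).a z) (t := h0 + s) (by linear_combination h2 + this + (‹57 / 100 ≤ s›))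
    (by linear_combination z1) z2 (by linear_combination h1 + (‹h0 < 0.8661›)) k1
  rw [show h0 + s - (2 * h0 + s - 1) = 1 - h0 by ring] at this
  linear_combination hv + this

theorem ot_y (P : Par s e w) (h1 : s ≤ y) (h2 : y ≤ h0) :
    ov (q3 s e) r x y ≤ g (1 - h0) - g (h0 + s - y) := by
  have := P.s0
  have := P.s1
  have := h0_lt
  have := h0_gt
  have := ov_at (q := x) (r := r) (y := y) (β := g (h0 + s - y) - g (1 - h0)) (q3_ok P)
    (by rw [q3_lo]; linear_combination h1 + 2 * (‹h0 < 0.8661›)) (by rw [q3_hi]; linear_combination h2 + (‹h0 < 0.8661›))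
    (by
      rw [q3_a, bq_eq2 P (by linear_combination h1 + 2 * h2 + 2 * (‹57 / 100 ≤ s›)) (by linear_combination h1 + 2 * (‹h0 < 0.8661›)),
        show 2 * h0 + s - y - h0 = h0 + s - y by ring])
  linear_combination this

theorem ot_m (P : Par s e w) (r1 : 1 / 2 ≤ r) (h1 : s ≤ y) (h2 : y ≤ h0) :
    ov (q3 s e) r x y ≤ g (y + r - (2 * h0 + s - 1)) - g r := by
  have := P.s0
  have := P.s1
  have := h0_lt
  have := h0_gt
  have := ov_up (q := x) (r := r) (y := y) (z0 := 2 * h0 + s - 1) (β := 0) (q3_ok P)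
    (by rw [q3_lo]; linear_combination) (by rw [q3_hi]; linear_combination (‹s ≤ 67 / 100›) + 2 * (‹h0 < 0.8661›)) (by linear_combination h1 + 2 * h2 + 2 * (‹57 / 100 ≤ s›)) (by linear_combination 2 * r1 + h1 + 2 * (‹h0 < 0.8661›))
    (by
      rw [q3_a, sub_sub_cancel, bq_eq1 P (by linear_combination (‹h0 < 0.8661›)) le_rfl, sub_self, g_zero, sub_self])
  linear_combination this

theorem ot_v (P : Par s e w) (r1 : 1 / 2 ≤ r) (h1 : s ≤ y) (h2 : y ≤ h0) :
    ov (q3 s e) r x y ≤ g (y + r - (h0 + s)) - g r - g (1 - h0) + 1 := by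
  have := P.s0
  have := P.s1
  have := h0_lt
  have := h0_gt
  have := ov_up (q := x) (r := r) (y := y) (z0 := h0 + s) (β := g (1 - h0) - 1) (q3_ok P)
    (by rw [q3_lo]; linear_combination (‹h0 < 0.8661›)) (by rw [q3_hi]; linear_combination (‹s ≤ 67 / 100›) + (‹h0 < 0.8661›)) (by linear_combination h2 + (‹57 / 100 ≤ s›)) (by linear_combination 2 * r1 + h1 + (‹h0 < 0.8661›))
    (by
      rw [q3_a, show 2 * h0 + s - (h0 + s) = h0 by ring, bq_eq1 P le_rfl (by linear_combination (‹h0 < 0.8661›)),
        ← g_neg (h0 - 1), neg_sub])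
  linear_combination this

end

end Pool.Agent.Strip051.FourF.MB
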